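import Pool.Agent.Lib_helper86.D24.Defs

/-!
# D(2,4) = 5: part L1
-/

section

namespace Pool.Agent.Lib_helper86.D24

open MvPolynomial Matrix


/-- the lowest components -/
private theorem bHD_low {P Q : P3} {a b d : ℕ} (hP : ∀ α : Fin 3 →₀ ℕ, α.degree < a → coeff α P = 0)
    (hQ : ∀ α : Fin 3 →₀ ℕ, α.degree < b → coeff α Q = 0) (hG : (P * Q).IsHomogeneous d)
    (hne : a + b ≠ d) : homogeneousComponent a P * homogeneousComponent b Q = 0 := by
  classical
  have hH : (homogeneousComponent a P * homogeneousComponent b Q).IsHomogeneous (a + b) :=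
    (homogeneousComponent_isHomogeneous a P).mul (homogeneousComponent_isHomogeneous b Q)
  ext α
  rw [coeff_zero]
  by_cases hα : α.degree = a + b
  · have h0 : coeff α (P * Q) = 0 := hG.coeff_eq_zero (by omega)
    rw [← h0, coeff_mul, coeff_mul]
    refine Finset.sum_congr rfl ?_
    rintro ⟨β, γ⟩ hβγ
    rw [Finset.HasAntidiagonal.mem_antidiagonal] at hβγ
    simp only at hβγ ⊢
    have hdeg : β.degree + γ.degree = a + b := by
      rw [← hα, ← hβγ, map_add]
    rw [coeff_homogeneousComponent, coeff_homogeneousComponent]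
    rcases lt_trichotomy β.degree a with h | h | h
    · simp [hP β h]
    · have h1 : γ.degree = b := by omega
      rw [if_pos h, if_pos h1]
    · have h1 : γ.degree < b := by omega
      simp [hQ γ h1]
  · exact hH.coeff_eq_zero hα

/-- the lowest degree -/
private theorem bHD_min {P : P3} (hP : P ≠ 0) : ∃ a, homogeneousComponent a P ≠ 0 ∧
    (∀ α : Fin 3 →₀ ℕ, α.degree < a → coeff α P = 0) ∧ a ≤ P.totalDegree := by
  classical
  have hex : ∃ a, homogeneousComponent a P ≠ 0 := by
    by_contra hcon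
    push Not at hcon
    apply hP
    rw [← sum_homogeneousComponent P]
    exact Finset.sum_eq_zero fun i _ => hcon i
  refine ⟨Nat.find hex, Nat.find_spec hex, fun α hα => ?_, ?_⟩
  · have h1 := Nat.find_min hex hα
    push Not at h1
    have h2 := congrArg (coeff α) h1
    rwa [coeff_homogeneousComponent, if_pos rfl, coeff_zero] at h2
  · by_contra hcon
    push Not at hcon
    exact Nat.find_spec hex (homogeneousComponent_eq_zero _ _ hcon)

/-- HD -/
theorem hom_of_dvd {p q : P3} {d : ℕ} (hp : p.IsHomogeneous d) (hp0 : p ≠ 0) (h : q ∣ p) :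
    ∃ e, q.IsHomogeneous e := by
  obtain ⟨r, rfl⟩ := h
  have hq : q ≠ 0 := left_ne_zero_of_mul hp0
  have hr : r ≠ 0 := right_ne_zero_of_mul hp0
  obtain ⟨a, ha, ha1, ha2⟩ := bHD_min hq
  obtain ⟨b, hb, hb1, hb2⟩ := bHD_min hr
  have h1 : a + b = d := by
    by_contra hne
    exact mul_ne_zero ha hb (bHD_low ha1 hb1 hp hne)
  have h2 : q.totalDegree + r.totalDegree = d := by
    rw [← hp.totalDegree hp0, totalDegree_mul_of_isDomain hq hr]
  have h3 : a = q.totalDegree := by omega
  refine ⟨a, fun α hα => ?_⟩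
  have h4 : a ≤ α.degree := by
    by_contra hcon
    push Not at hcon
    exact hα (ha1 α hcon)
  have h5 : α.degree ≤ a := by
    rw [h3]
    exact le_totalDegree (mem_support_iff.2 hα)
  have h6 : Finsupp.weight 1 α = α.degree := by
    rw [Finsupp.degree_eq_weight_one]
    rfl
  rw [h6]
  omega

end Pool.Agent.Lib_helper86.D24

end

section

namespace Pool.Agent.Lib_helper86.D24

open MvPolynomial Matrix


/-- NSZ -/
theorem nsz {n : ℕ} (p q : MvPolynomial (Fin n) ℂ) (hp : Irreducible p) (h : ¬ p ∣ q) :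
    ∃ z : Fin n → ℂ, eval z p = 0 ∧ eval z q ≠ 0 := by
  by_contra hcon
  push Not at hcon
  apply h
  have h1 : q ∈ vanishingIdeal ℂ (zeroLocus ℂ (Ideal.span {p} : Ideal (MvPolynomial (Fin n) ℂ))) := by
    rw [mem_vanishingIdeal_iff]
    intro x hx
    rw [zeroLocus_span] at hx
    have h2 := hx p rfl
    have h3 : ∀ r : MvPolynomial (Fin n) ℂ, aeval x r = eval x r := fun r => by
      rw [← coe_aeval_eq_eval]
      rfl
    rw [h3] at h2 ⊢
    exact hcon x h2
  rw [vanishingIdeal_zeroLocus_eq_radical] at h1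
  obtain ⟨k, hk⟩ := h1
  exact hp.prime.dvd_of_dvd_pow (Ideal.mem_span_singleton.1 hk)

end Pool.Agent.Lib_helper86.D24

end

section

namespace Pool.Agent.Lib_helper86.D24

open MvPolynomial Matrix


open scoped nonZeroDivisors in
attribute [local instance] Polynomial.algebra in
private theorem bE1_poly {A : Type*} [CommRing A] [IsDomain A] [UniqueFactorizationMonoid A]
    {ι : Type*} (h : ι → Polynomial A) (hp : ∀ r, (∀ i, r ∣ h i) → IsUnit r) :
    ∃ a : A, a ≠ 0 ∧ Polynomial.C a ∈ Ideal.span (Set.range h) := by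
  classical
  have := Classical.arbitrary (NormalizedGCDMonoid A)
  let K := FractionRing A
  let I : Ideal (Polynomial A) := Ideal.span (Set.range h)
  let J : Ideal (Polynomial K) := I.map (Polynomial.mapRingHom (algebraMap A K))
  obtain ⟨g, hg⟩ : ∃ g : Polynomial K, J = Ideal.span {g} :=
    (IsPrincipalIdealRing.principal J).principal
  have hdiv : ∀ i, g ∣ (h i).map (algebraMap A K) := by
    intro i
    rw [← Ideal.mem_span_singleton, ← hg]
    exact Ideal.mem_map_of_mem (Polynomial.mapRingHom (algebraMap A K))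
      (Ideal.subset_span ⟨i, rfl⟩)
  have hinj : Function.Injective (algebraMap A K) := IsFractionRing.injective A K
  have hg0 : g ≠ 0 := by
    rintro rfl
    have h0 : ∀ i, h i = 0 := by
      intro i
      have := zero_dvd_iff.1 (hdiv i)
      exact (Polynomial.map_eq_zero_iff hinj).1 this
    have := hp 0 (fun i => by rw [h0 i])
    exact not_isUnit_zero this
  have hgu : IsUnit g := by
    apply Polynomial.isUnit_or_eq_zero_of_isUnit_integerNormalization_primPart (R := A) hg0
    apply hp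
    intro i
    apply (Polynomial.isPrimitive_primPart _).dvd_of_fraction_map_dvd_fraction_map (K := K)
    obtain ⟨c, c0, hc⟩ := IsLocalization.integerNormalization_spec A⁰ g
    refine dvd_trans ?_ (hdiv i)
    have h1 : Polynomial.C (algebraMap A K c) * g =
        Polynomial.map (algebraMap A K) (IsLocalization.integerNormalization A⁰ g) := by
      rw [Algebra.smul_def, Polynomial.algebraMap_apply] at hc
      rw [← hc]
    have h2 : IsUnit (Polynomial.C (algebraMap A K c)) := by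
      rw [Polynomial.isUnit_C, isUnit_iff_ne_zero]
      intro h3
      exact nonZeroDivisors.ne_zero c0 (hinj (by rw [h3, map_zero]))
    rw [← h2.dvd_mul_left, h1]
    exact Polynomial.map_dvd (algebraMap A K) (Polynomial.primPart_dvd _)
  have hJ : (1 : Polynomial K) ∈ J := by
    rw [hg, Ideal.mem_span_singleton]
    exact hgu.dvd
  have hloc := Polynomial.isLocalization A⁰ K
  obtain ⟨x, hx⟩ := (IsLocalization.mem_map_algebraMap_iff (A⁰.map Polynomial.C)
    (Polynomial K) (I := I) (z := 1)).1 hJ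
  rw [one_mul] at hx
  obtain ⟨⟨x, hxI⟩, ⟨_, ⟨a, ha, rfl⟩⟩⟩ := x
  refine ⟨a, nonZeroDivisors.ne_zero ha, ?_⟩
  have hinj2 : Function.Injective (algebraMap (Polynomial A) (Polynomial K)) :=
    Polynomial.map_injective _ hinj
  have := hinj2 hx
  dsimp at this
  rw [this]
  exact hxI

attribute [local instance] MvPolynomial.gradedAlgebra in
/-- E1 -/
theorem elim {ι : Type*} (H : ι → P3) (hd : ∀ i, ∃ d, (H i).IsHomogeneous d) (hp : Prim H)
    (k : Fin 3) : ∃ R ∈ Ideal.span (Set.range H), R ≠ 0 ∧ (∃ d, R.IsHomogeneous d) ∧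
      k ∉ R.vars := by
  classical
  let e : P3 ≃ₐ[ℂ] Polynomial P2 :=
    (renameEquiv ℂ (Equiv.swap (0 : Fin 3) k)).trans (finSuccEquiv ℂ 2)
  obtain ⟨a, ha0, ha⟩ := bE1_poly (fun i => e (H i)) (by
    intro r hr
    have h1 : IsUnit (e.symm r) := by
      apply hp
      intro i
      have := map_dvd e.symm (hr i)
      simpa using this
    have := h1.map e
    simpa using this)
  set Q : P3 := rename (Equiv.swap (0 : Fin 3) k) (rename Fin.succ a) with hQ
  have heQ : e Q = Polynomial.C a := by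
    have h1 : ∀ a : P2, finSuccEquiv ℂ 2 (rename Fin.succ a) = Polynomial.C a := by
      intro a
      have : ((finSuccEquiv ℂ 2).toAlgHom.comp (rename Fin.succ)) =
          (Algebra.ofId P2 (Polynomial P2)).restrictScalars ℂ := by
        apply MvPolynomial.algHom_ext
        intro i
        simp [finSuccEquiv_X_succ, Algebra.ofId_apply]
      exact congrArg (fun f => f a) this
    show finSuccEquiv ℂ 2 (renameEquiv ℂ (Equiv.swap (0 : Fin 3) k) Q) = _
    rw [renameEquiv_apply, hQ, rename_rename]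
    have : (⇑(Equiv.swap 0 k) ∘ ⇑(Equiv.swap 0 k) : Fin 3 → Fin 3) = id := by
      funext x; simp
    rw [this, rename_id_apply, h1]
  have hQI : Q ∈ Ideal.span (Set.range H) := by
    have h1 : e.symm (Polynomial.C a) ∈ Ideal.map e.symm (Ideal.span (Set.range fun i => e (H i))) :=
      Ideal.mem_map_of_mem _ ha
    rw [Ideal.map_span, ← heQ, AlgEquiv.symm_apply_apply] at h1
    have h2 : (e.symm '' Set.range fun i => e (H i)) = Set.range H := by
      ext x
      constructor
      · rintro ⟨_, ⟨i, rfl⟩, rfl⟩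
        exact ⟨i, by simp⟩
      · rintro ⟨i, rfl⟩
        exact ⟨_, ⟨i, rfl⟩, by simp⟩
    rw [h2] at h1
    exact h1
  have hQ0 : Q ≠ 0 := by
    intro h
    apply ha0
    rw [h, map_zero] at heQ
    exact (Polynomial.C_eq_zero.1 heQ.symm)
  have hkQ : k ∉ Q.vars := by
    intro h
    obtain ⟨j, hj, hjk⟩ := mem_vars_rename _ _ h
    obtain ⟨l, hl, hlj⟩ := mem_vars_rename _ _ hj
    have : j = 0 := by
      have := congrArg (Equiv.swap (0 : Fin 3) k) hjk
      simpa using this
    rw [this] at hlj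
    exact Fin.succ_ne_zero l hlj
  -- homogeneous component
  have hhom : (Ideal.span (Set.range H)).IsHomogeneous (homogeneousSubmodule (Fin 3) ℂ) := by
    apply Ideal.homogeneous_span
    rintro _ ⟨i, rfl⟩
    obtain ⟨d, hd⟩ := hd i
    exact ⟨d, hd⟩
  obtain ⟨n, hn⟩ : ∃ n, homogeneousComponent n Q ≠ 0 := by
    by_contra hcon
    push Not at hcon
    apply hQ0
    rw [← sum_homogeneousComponent Q]
    exact Finset.sum_eq_zero fun i _ => hcon i
  refine ⟨homogeneousComponent n Q, ?_, hn, ⟨n, homogeneousComponent_isHomogeneous n Q⟩, ?_⟩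
  · exact homogeneousComponent_mem_of_mem hhom hQI n
  · intro h
    apply hkQ
    rw [mem_vars_iff_mem_support] at h ⊢
    obtain ⟨d, hd, hk⟩ := h
    refine ⟨d, ?_, hk⟩
    rw [mem_support_iff, coeff_homogeneousComponent] at hd
    rw [mem_support_iff]
    intro h0
    apply hd
    rw [h0, ite_self]

end Pool.Agent.Lib_helper86.D24

end

section

namespace Pool.Agent.Lib_helper86.D24

open MvPolynomial Matrix


private theorem bE2_smul (R : P3) (d : ℕ) (hd : R.IsHomogeneous d) (c : ℂ) (z : V3) :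
    eval (c • z) R = c ^ d * eval z R := by
  rw [eval_eq', eval_eq', Finset.mul_sum]
  apply Finset.sum_congr rfl
  intro m hm
  have h1 : m.degree = d := by
    by_contra h
    exact (mem_support_iff.1 hm) (hd.coeff_eq_zero h)
  have h2 : ∏ i, (c • z) i ^ m i = c ^ d * ∏ i, z i ^ m i := by
    simp only [Pi.smul_apply, smul_eq_mul, mul_pow, Finset.prod_mul_distrib]
    rw [Finset.prod_pow_eq_pow_sum, ← h1, Finsupp.degree_eq_sum]
  rw [h2]
  ring

private theorem bE2_fin (R : P3) (hR : R ≠ 0) (d : ℕ) (hd : R.IsHomogeneous d) (k i j : Fin 3)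
    (hik : i ≠ k) (hall : ∀ l, l = i ∨ l = j ∨ l = k) (hk : k ∉ R.vars) :
    ∃ S : Finset ℂ, ∀ z : V3, z i = 1 → eval z R = 0 → z j ∈ S := by
  classical
  let w : Fin 3 → Polynomial ℂ := fun l => if l = i then 1 else if l = j then Polynomial.X else 0
  let p : Polynomial ℂ := aeval w R
  have hp : ∀ t : ℂ, p.eval t = eval (fun l => if l = i then 1 else if l = j then t else 0) R := by
    intro t
    have h1 : p.eval t = (Polynomial.evalRingHom t).comp
      ((aeval w : P3 →ₐ[ℂ] Polynomial ℂ).toRingHom) R := rfl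
    rw [h1]
    have h2 : (Polynomial.evalRingHom t).comp ((aeval w : P3 →ₐ[ℂ] Polynomial ℂ).toRingHom) =
        eval (fun l => if l = i then 1 else if l = j then t else 0) := by
      apply MvPolynomial.ringHom_ext
      · intro r; simp
      · intro l
        simp only [w, AlgHom.toRingHom_eq_coe, RingHom.coe_comp, RingHom.coe_coe,
          Function.comp_apply, aeval_X, Polynomial.coe_evalRingHom, eval_X]
        split_ifs <;> simp
    rw [h2]
  have hz : ∀ z : V3, z i = 1 → eval z R = p.eval (z j) := by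
    intro z hz
    rw [hp]
    apply eval₂Hom_congr' rfl _ rfl
    intro l hl _
    rcases hall l with h | h | h
    · subst h; simp [hz]
    · subst h; by_cases h2 : l = i
      · subst h2; simp [hz]
      · simp [h2]
    · subst h; exact absurd hl hk
  have hp0 : p ≠ 0 := by
    intro h0
    apply hR
    have h1 : X i * R = 0 := by
      apply MvPolynomial.funext
      intro z
      rw [map_mul, eval_X, map_zero]
      by_cases hzi : z i = 0
      · rw [hzi, zero_mul]
      · have h2 : z = z i • ((z i)⁻¹ • z) := by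
          rw [smul_smul, mul_inv_cancel₀ hzi, one_smul]
        have h3 : eval z R = 0 := by
          rw [h2, bE2_smul R d hd, hz _ (by simp [hzi]), h0]
          simp
        rw [h3, mul_zero]
    exact (mul_eq_zero.1 h1).resolve_left (X_ne_zero i)
  refine ⟨p.roots.toFinset, ?_⟩
  intro z hzi hz0
  rw [Multiset.mem_toFinset, Polynomial.mem_roots hp0, Polynomial.IsRoot, ← hz z hzi, hz0]

/-- E2 (uses E1) -/
theorem finite_zeros {ι : Type*} (H : ι → P3) (hd : ∀ i, ∃ d, (H i).IsHomogeneous d)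
    (hp : Prim H) : ∃ Z : Finset V3, (∀ y ∈ Z, y ≠ 0) ∧
      ∀ z : V3, z ≠ 0 → (∀ i, eval z (H i) = 0) → ∃ y ∈ Z, ∃ t : ℂ, z = t • y := by
  classical
  have hv : ∀ R ∈ Ideal.span (Set.range H), ∀ z : V3, (∀ i, eval z (H i) = 0) → eval z R = 0 := by
    intro R hR z hz
    have : Ideal.span (Set.range H) ≤ RingHom.ker (eval z : P3 →+* ℂ) := by
      rw [Ideal.span_le]
      rintro _ ⟨i, rfl⟩
      exact hz i
    exact this hR
  obtain ⟨R0, hR0, hR00, ⟨d0, hd0⟩, hv0⟩ := elim H hd hp 0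
  obtain ⟨R1, hR1, hR10, ⟨d1, hd1⟩, hv1⟩ := elim H hd hp 1
  obtain ⟨R2, hR2, hR20, ⟨d2, hd2⟩, hv2⟩ := elim H hd hp 2
  obtain ⟨S2, hS2⟩ := bE2_fin R2 hR20 d2 hd2 2 0 1 (by decide) (by decide) hv2
  obtain ⟨S1, hS1⟩ := bE2_fin R1 hR10 d1 hd1 1 0 2 (by decide) (by decide) hv1
  obtain ⟨S0, hS0⟩ := bE2_fin R0 hR00 d0 hd0 0 1 2 (by decide) (by decide) hv0
  refine ⟨(S2 ×ˢ S1).image (fun q => (![1, q.1, q.2] : V3)) ∪
    S0.image (fun q => (![0, 1, q] : V3)) ∪ {(![0, 0, 1] : V3)}, ?_, ?_⟩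
  · intro y hy
    simp only [Finset.mem_union, Finset.mem_image, Finset.mem_singleton] at hy
    rcases hy with (⟨q, _, rfl⟩ | ⟨q, _, rfl⟩) | rfl
    · intro h; have := congrFun h 0; simp at this
    · intro h; have := congrFun h 1; simp at this
    · intro h; have := congrFun h 2; simp at this
  · intro z hz0 hz
    by_cases h0 : z 0 = 0
    · by_cases h1 : z 1 = 0
      · refine ⟨![0, 0, 1], by simp, z 2, ?_⟩
        funext l
        fin_cases l <;> simp [h0, h1]
      · refine ⟨![0, 1, z 2 / z 1], ?_, z 1, ?_⟩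
        · have h3 := hS0 ((z 1)⁻¹ • z) (by simp [h1]) (by
            rw [bE2_smul R0 d0 hd0, hv R0 hR0 z hz, mul_zero])
          simp only [Finset.mem_union, Finset.mem_image, Finset.mem_singleton]
          left; right
          refine ⟨_, h3, ?_⟩
          funext l
          fin_cases l <;> simp [div_eq_inv_mul]
        · funext l
          fin_cases l <;> simp [h0]
          field_simp
    · refine ⟨![1, z 1 / z 0, z 2 / z 0], ?_, z 0, ?_⟩
      · have h3 := hS2 ((z 0)⁻¹ • z) (by simp [h0]) (by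
            rw [bE2_smul R2 d2 hd2, hv R2 hR2 z hz, mul_zero])
        have h4 := hS1 ((z 0)⁻¹ • z) (by simp [h0]) (by
            rw [bE2_smul R1 d1 hd1, hv R1 hR1 z hz, mul_zero])
        simp only [Finset.mem_union, Finset.mem_image, Finset.mem_singleton]
        left; left
        refine ⟨(_, _), Finset.mem_product.2 ⟨h3, h4⟩, ?_⟩
        funext l
        fin_cases l <;> simp [div_eq_inv_mul]
      · funext l
        fin_cases l <;> simp <;> field_simp

end Pool.Agent.Lib_helper86.D24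

end

section

namespace Pool.Agent.Lib_helper86.D24

open MvPolynomial Matrix


/-- exponents -/
private noncomputable def c1emb : ℕ × ℕ ↪ (Fin 2 →₀ ℕ) where
  toFun p := Finsupp.single 0 p.1 + Finsupp.single 1 p.2
  inj' := by
    rintro ⟨a, b⟩ ⟨c, d⟩ h
    have h0 := DFunLike.congr_fun h 0
    have h1 := DFunLike.congr_fun h 1
    simp at h0 h1
    simp [h0, h1]

private lemma c1emb_0 (p : ℕ × ℕ) : c1emb p 0 = p.1 := by
  show (Finsupp.single (0 : Fin 2) p.1 + Finsupp.single 1 p.2 : Fin 2 →₀ ℕ) 0 = p.1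
  simp

private lemma c1emb_1 (p : ℕ × ℕ) : c1emb p 1 = p.2 := by
  show (Finsupp.single (0 : Fin 2) p.1 + Finsupp.single 1 p.2 : Fin 2 →₀ ℕ) 1 = p.2
  simp

private noncomputable def c1set (d e : ℕ) : Finset (Fin 2 →₀ ℕ) :=
  ((Finset.range (d + 1) ×ˢ Finset.range (e + 1)).filter (fun p => p.1 + p.2 ≤ d)).map c1emb

private lemma mem_c1set {d e : ℕ} {m : Fin 2 →₀ ℕ} :
    m ∈ c1set d e ↔ m 0 + m 1 ≤ d ∧ m 1 ≤ e := by
  unfold c1set
  simp only [Finset.mem_map, Finset.mem_filter, Finset.mem_product, Finset.mem_range]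
  constructor
  · rintro ⟨⟨a, b⟩, ⟨⟨ha, hb⟩, hab⟩, rfl⟩
    rw [c1emb_0, c1emb_1]
    simp at hb hab ⊢
    omega
  · rintro ⟨h1, h2⟩
    refine ⟨(m 0, m 1), ⟨⟨?_, ?_⟩, ?_⟩, ?_⟩
    · simp; omega
    · simp; omega
    · simpa using h1
    · ext i
      fin_cases i
      · exact c1emb_0 _
      · exact c1emb_1 _

private lemma c1card1 : (c1set 6 2).card = 18 := by
  unfold c1set
  rw [Finset.card_map]
  decide

private lemma c1card2 : (c1set 12 8).card = 81 := by
  unfold c1set
  rw [Finset.card_map]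
  decide

private noncomputable abbrev c1W (d e : ℕ) : Submodule ℂ P2 :=
  restrictSupport ℂ ((c1set d e : Finset (Fin 2 →₀ ℕ)) : Set (Fin 2 →₀ ℕ))

private lemma mem_res {d e : ℕ} {P : P2} :
    P ∈ c1W d e ↔ P.totalDegree ≤ d ∧ P.degreeOf 1 ≤ e := by
  rw [mem_restrictSupport_iff, degreeOf_le_iff]
  constructor
  · intro h
    have h' : ∀ m ∈ P.support, m 0 + m 1 ≤ d ∧ m 1 ≤ e := fun m hm =>
      mem_c1set.1 (Finset.mem_coe.1 (h (Finset.mem_coe.2 hm)))
    refine ⟨?_, fun m hm => (h' m hm).2⟩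
    unfold totalDegree
    refine Finset.sup_le fun m hm => ?_
    rw [Finsupp.sum_fintype _ _ (fun _ => rfl), Fin.sum_univ_two]
    exact (h' m hm).1
  · rintro ⟨h1, h2⟩ m hm
    refine Finset.mem_coe.2 (mem_c1set.2 ⟨?_, h2 m (Finset.mem_coe.1 hm)⟩)
    have := le_totalDegree (Finset.mem_coe.1 hm)
    rw [Finsupp.sum_fintype _ _ (fun _ => rfl), Fin.sum_univ_two] at this
    omega

private instance (d e : ℕ) : Module.Finite ℂ (c1W d e) :=
  Module.Finite.of_basis (basisRestrictSupport ℂ _)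

private lemma c1finrank (d e : ℕ) : Module.finrank ℂ (c1W d e) = (c1set d e).card := by
  rw [Module.finrank_eq_card_basis
    (basisRestrictSupport ℂ ((c1set d e : Finset (Fin 2 →₀ ℕ)) : Set (Fin 2 →₀ ℕ)))]
  simp

private lemma c1lin {V W : Type*} [AddCommGroup V] [Module ℂ V] [AddCommGroup W] [Module ℂ W]
    [Module.Finite ℂ V] [Module.Finite ℂ W] (φ : V →ₗ[ℂ] W) (n : ℕ)
    (h : Module.finrank ℂ W + n ≤ Module.finrank ℂ V) :
    ∃ v : Fin n → V, LinearIndependent ℂ v ∧ ∀ a, φ (v a) = 0 := by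
  have h2 := Submodule.finrank_le (LinearMap.range φ)
  have h3 := LinearMap.finrank_range_add_finrank_ker φ
  have h4 : n ≤ Module.finrank ℂ (LinearMap.ker φ) := by omega
  let b := Module.finBasis ℂ (LinearMap.ker φ)
  refine ⟨fun a => b (Fin.castLE h4 a), ?_, ?_⟩
  · have hb : LinearIndependent ℂ fun a : Fin n => b (Fin.castLE h4 a) :=
      b.linearIndependent.comp _ (Fin.castLE_injective h4)
    exact hb.map' (LinearMap.ker φ).subtype (Submodule.ker_subtype _)
  · intro a
    exact (b (Fin.castLE h4 a)).2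

private lemma c1map (g : Fin 5 → P2) (hg : ∀ i, (g i).totalDegree ≤ 6) :
    ∃ φ : (Fin 5 → c1W 6 2) →ₗ[ℂ] c1W 12 8, ∀ S, (φ S : P2) = ∑ i, g i * (S i : P2) := by
  refine ⟨
    { toFun := fun S => ⟨∑ i, g i * (S i : P2), by
        refine Submodule.sum_mem _ fun i _ => mem_res.2 ?_
        obtain ⟨h1, h2⟩ := mem_res.1 (S i).2
        refine ⟨(totalDegree_mul _ _).trans (by have := hg i; omega), ?_⟩
        refine (degreeOf_mul_le _ _ _).trans ?_
        have := degreeOf_le_totalDegree (g i) 1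
        have := hg i
        omega⟩
      map_add' := fun S T => by
        ext1
        simp [mul_add, Finset.sum_add_distrib]
      map_smul' := fun c S => by
        ext1
        simp [Finset.smul_sum] }, fun S => rfl⟩

/-- C1 -/
theorem kernel (g : Fin 5 → P2) (hg : ∀ i, (g i).totalDegree ≤ 6) :
    ∃ S : Fin 9 → Fin 5 → P2, LinearIndependent ℂ S ∧
      (∀ a i, (S a i).totalDegree ≤ 6 ∧ (S a i).degreeOf 1 ≤ 2) ∧
      ∀ a, ∑ i, g i * S a i = 0 := by
  classical
  obtain ⟨φ, hφ⟩ := c1map g hg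
  have h1 : Module.finrank ℂ (Fin 5 → c1W 6 2) = 90 := by
    rw [Module.finrank_pi_fintype]
    simp [c1finrank, c1card1]
  obtain ⟨v, hv, hv0⟩ := c1lin φ 9 (by rw [h1, c1finrank, c1card2])
  let ι : (Fin 5 → c1W 6 2) →ₗ[ℂ] (Fin 5 → P2) :=
    LinearMap.pi fun i => (c1W 6 2).subtype ∘ₗ LinearMap.proj i
  have hι : LinearMap.ker ι = ⊥ := by
    rw [LinearMap.ker_eq_bot]
    intro S T h
    funext i
    exact Subtype.ext (congrFun h i)
  refine ⟨fun a i => (v a i : P2), ?_, ?_, ?_⟩
  · exact hv.map' ι hι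
  · intro a i
    exact mem_res.1 (v a i).2
  · intro a
    rw [← hφ, hv0]
    rfl

end Pool.Agent.Lib_helper86.D24

end

section

namespace Pool.Agent.Lib_helper86.D24

open MvPolynomial Matrix


/-- The Cramer coefficients of `S` with respect to the rows `f` and the columns `s`. -/
private noncomputable def bCR_a {R : Type*} [CommRing R] {k : ℕ} (f : Fin k → Fin 5 → R)
    (S : Fin 5 → R) (s : Fin k → Fin 5) (j : Fin k) : R :=
  (-1) ^ (j : ℕ) * Matrix.det (fun a b : Fin k =>
    (Fin.cons S f : Fin (k + 1) → Fin 5 → R) (j.succ.succAbove a) (s b))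

private theorem bCR_expand {R : Type*} [CommRing R] {k : ℕ} (f : Fin k → Fin 5 → R)
    (S : Fin 5 → R) (hS : ∀ s, mn (Fin.cons S f : Fin (k + 1) → Fin 5 → R) s = 0)
    (s : Fin k → Fin 5) (i : Fin 5) :
    mn f s * S i = ∑ j, bCR_a f S s j * f j i := by
  have h := hS (Fin.cons i s)
  unfold mn at h
  rw [Matrix.det_succ_column_zero, Fin.sum_univ_succ] at h
  have h0 : Matrix.det (Matrix.submatrix (fun a b : Fin (k + 1) =>
      (Fin.cons S f : Fin (k + 1) → Fin 5 → R) a
        ((Fin.cons i s : Fin (k + 1) → Fin 5) b)) (Fin.succAbove 0) Fin.succ) = mn f s := by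
    unfold mn
    congr 1
  rw [h0] at h
  have h1 : ∀ j : Fin k, (-1 : R) ^ ((j.succ : Fin (k + 1)) : ℕ) *
      (Fin.cons S f : Fin (k + 1) → Fin 5 → R) j.succ
        ((Fin.cons i s : Fin (k + 1) → Fin 5) 0) *
      Matrix.det (Matrix.submatrix (fun a b : Fin (k + 1) =>
      (Fin.cons S f : Fin (k + 1) → Fin 5 → R) a
        ((Fin.cons i s : Fin (k + 1) → Fin 5) b)) (Fin.succAbove j.succ) Fin.succ) =
      - (bCR_a f S s j * f j i) := by
    intro j
    have : Matrix.det (Matrix.submatrix (fun a b : Fin (k + 1) =>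
      (Fin.cons S f : Fin (k + 1) → Fin 5 → R) a
        ((Fin.cons i s : Fin (k + 1) → Fin 5) b)) (Fin.succAbove j.succ) Fin.succ) =
        Matrix.det (fun a b : Fin k =>
        (Fin.cons S f : Fin (k + 1) → Fin 5 → R) (j.succ.succAbove a) (s b)) := by
      congr 1
    rw [this]
    simp only [bCR_a, Fin.val_succ, Fin.cons_succ, Fin.cons_zero, pow_succ]
    ring
  rw [Finset.sum_congr rfl fun j _ => h1 j, Finset.sum_neg_distrib] at h
  simp only [Fin.val_zero, pow_zero, one_mul, Fin.cons_zero] at h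
  linear_combination h

/-- CR: Cramer's rule with primitive minors -/
theorem cramer {R : Type*} [CommRing R] [IsDomain R] [UniqueFactorizationMonoid R] {k : ℕ}
    (f : Fin k → Fin 5 → R) (hf : Prim (mn f)) (S : Fin 5 → R)
    (hS : ∀ s, mn (Fin.cons S f : Fin (k + 1) → Fin 5 → R) s = 0) :
    ∃ a : Fin k → R, ∀ i, S i = ∑ j, a j * f j i := by
  have hex : ∃ s, mn f s ≠ 0 := by
    by_contra hcon
    push Not at hcon
    have := hf 0 (fun s => by rw [hcon s])
    exact not_isUnit_zero this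
  obtain ⟨s0, hs0⟩ := hex
  have hE := bCR_expand f S hS
  -- the coefficients are proportional
  have hprop : ∀ s j, mn f s * bCR_a f S s0 j = mn f s0 * bCR_a f S s j := by
    intro s
    have hv : (fun j => mn f s * bCR_a f S s0 j - mn f s0 * bCR_a f S s j) ᵥ*
        (fun a b : Fin k => f a (s0 b)) = 0 := by
      funext b
      have e1 := hE s0 (s0 b)
      have e2 := hE s (s0 b)
      show ∑ j, (mn f s * bCR_a f S s0 j - mn f s0 * bCR_a f S s j) * f j (s0 b) = 0
      have : ∑ j, (mn f s * bCR_a f S s0 j - mn f s0 * bCR_a f S s j) * f j (s0 b) =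
          mn f s * (∑ j, bCR_a f S s0 j * f j (s0 b)) -
          mn f s0 * (∑ j, bCR_a f S s j * f j (s0 b)) := by
        rw [Finset.mul_sum, Finset.mul_sum, ← Finset.sum_sub_distrib]
        exact Finset.sum_congr rfl fun j _ => by ring
      rw [this, ← e1, ← e2]
      ring
    have h0 := Matrix.eq_zero_of_vecMul_eq_zero hs0 hv
    intro j
    have := congrFun h0 j
    exact sub_eq_zero.mp this
  have hcoef : ∀ j, ∃ a : R, bCR_a f S s0 j = mn f s0 * a := by
    intro j
    obtain ⟨a', b', c', hrel, ha, hb⟩ :=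
      UniqueFactorizationMonoid.exists_reduced_factors (mn f s0) hs0 (bCR_a f S s0 j)
    have hc' : c' ≠ 0 := by
      rintro rfl
      rw [zero_mul] at ha
      exact hs0 ha.symm
    have hu : IsUnit a' := by
      refine hf a' fun s => ?_
      have h1 := hprop s j
      rw [← ha, ← hb] at h1
      have h2 : mn f s * b' = a' * bCR_a f S s j := by
        apply mul_left_cancel₀ hc'
        linear_combination h1
      exact hrel.dvd_of_dvd_mul_right (h2 ▸ dvd_mul_right a' _)
    obtain ⟨u, hu⟩ := hu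
    refine ⟨(↑u⁻¹ : R) * b', ?_⟩
    rw [← hb, ← ha, ← hu]
    have : (u : R) * (↑u⁻¹ : R) = 1 := u.mul_inv
    linear_combination (-(c' * b')) * this
  choose a ha using hcoef
  refine ⟨a, fun i => ?_⟩
  apply mul_left_cancel₀ hs0
  rw [hE s0 i, Finset.mul_sum]
  exact Finset.sum_congr rfl fun j _ => by rw [ha j]; ring

end Pool.Agent.Lib_helper86.D24

end

section

namespace Pool.Agent.Lib_helper86.D24

open MvPolynomial Matrix


private theorem bHO_laplace {R : Type*} [CommRing R] (f : Fin 4 → Fin 5 → R) (k : Fin 4) :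
    ∑ i : Fin 5, (-1) ^ (i : ℕ) * f k i * mn f i.succAbove = 0 := by
  have h : Matrix.det (fun a b : Fin 5 => (Fin.cons (f k) f : Fin 5 → Fin 5 → R) a b) = 0 := by
    refine Matrix.det_zero_of_row_eq (i := 0) (j := k.succ) (Fin.succ_ne_zero k).symm ?_
    funext b
    simp only [Fin.cons_zero, Fin.cons_succ]
  rw [Matrix.det_succ_row_zero] at h
  exact h

/-- HO -/
theorem hodge {R : Type*} [CommRing R] [IsDomain R] [UniqueFactorizationMonoid R]
    (f : Fin 4 → Fin 5 → R) (g : Fin 5 → R) (hg : Prim g) (h : ∀ k, ∑ i, g i * f k i = 0) :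
    ∃ c : R, ∀ i : Fin 5, mn f i.succAbove = (-1) ^ (i : ℕ) * c * g i := by
  by_cases hall : ∀ i : Fin 5, mn f i.succAbove = 0
  · exact ⟨0, fun i => by rw [hall i]; ring⟩
  push Not at hall
  obtain ⟨i0, hi0⟩ := hall
  have hsq : ∀ n : ℕ, (-1 : R) ^ n * (-1) ^ n = 1 := fun n => by
    rw [← mul_pow]; simp
  -- `m_i`
  set m : Fin 5 → R := fun i => (-1) ^ (i : ℕ) * mn f i.succAbove with hm
  have hm0 : m i0 ≠ 0 := by
    intro h0
    apply hi0
    have : (-1 : R) ^ (i0 : ℕ) * m i0 = mn f i0.succAbove := by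
      show (-1 : R) ^ (i0 : ℕ) * ((-1) ^ (i0 : ℕ) * mn f i0.succAbove) = _
      linear_combination (mn f i0.succAbove) * hsq (i0 : ℕ)
    rw [← this, h0, mul_zero]
  have hmk : ∀ k, ∑ i, m i * f k i = 0 := by
    intro k
    rw [← bHO_laplace f k]
    exact Finset.sum_congr rfl fun i _ => by simp only [hm]; ring
  have hpr : ∀ i, g i0 * m i = m i0 * g i := by
    have hz : (fun a b : Fin 4 => f a (i0.succAbove b)) *ᵥ
        (fun b => g i0 * m (i0.succAbove b) - m i0 * g (i0.succAbove b)) = 0 := by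
      funext k
      have e1 := hmk k
      have e2 := h k
      rw [Fin.sum_univ_succAbove _ i0] at e1 e2
      show ∑ b, f k (i0.succAbove b) *
        (g i0 * m (i0.succAbove b) - m i0 * g (i0.succAbove b)) = 0
      have : ∑ b, f k (i0.succAbove b) *
        (g i0 * m (i0.succAbove b) - m i0 * g (i0.succAbove b)) =
        g i0 * (∑ b, m (i0.succAbove b) * f k (i0.succAbove b)) -
        m i0 * (∑ b, g (i0.succAbove b) * f k (i0.succAbove b)) := by
        rw [Finset.mul_sum, Finset.mul_sum, ← Finset.sum_sub_distrib]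
        exact Finset.sum_congr rfl fun b _ => by ring
      rw [this]
      linear_combination g i0 * e1 - m i0 * e2
    have h0 := Matrix.eq_zero_of_mulVec_eq_zero hi0 hz
    intro i
    rcases Fin.eq_self_or_eq_succAbove i0 i with rfl | ⟨b, rfl⟩
    · ring
    · exact sub_eq_zero.mp (congrFun h0 b)
  have hg0 : g i0 ≠ 0 := by
    intro h0
    have : ∀ i, g i = 0 := fun i => by
      have := hpr i
      rw [h0, zero_mul] at this
      exact (mul_eq_zero.mp this.symm).resolve_left hm0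
    exact not_isUnit_zero (hg 0 fun i => by rw [this i])
  obtain ⟨a', b', c', hrel, ha, hb⟩ :=
    UniqueFactorizationMonoid.exists_reduced_factors (g i0) hg0 (m i0)
  have hc' : c' ≠ 0 := by
    rintro rfl
    rw [zero_mul] at ha
    exact hg0 ha.symm
  have hab : ∀ i, a' * m i = b' * g i := by
    intro i
    have h1 := hpr i
    rw [← ha, ← hb] at h1
    apply mul_left_cancel₀ hc'
    linear_combination h1
  have hu : IsUnit a' := by
    refine hg a' fun i => ?_
    exact hrel.dvd_of_dvd_mul_left (hab i ▸ dvd_mul_right a' _)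
  obtain ⟨u, hu⟩ := hu
  refine ⟨(↑u⁻¹ : R) * b', fun i => ?_⟩
  have h1 := hab i
  have h2 : (u : R) * (↑u⁻¹ : R) = 1 := u.mul_inv
  have h3 : m i = (↑u⁻¹ : R) * (b' * g i) := by
    rw [← h1, ← hu]
    linear_combination (-(m i)) * h2
  have h4 : (-1 : R) ^ (i : ℕ) * m i = mn f i.succAbove := by
    show (-1 : R) ^ (i : ℕ) * ((-1) ^ (i : ℕ) * mn f i.succAbove) = _
    linear_combination (mn f i.succAbove) * hsq (i : ℕ)
  rw [← h4, h3]
  ring

/-- MS -/
theorem mn_eq_zero {R : Type*} [CommRing R] (f : Fin 4 → Fin 5 → R)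
    (h : ∀ i : Fin 5, mn f i.succAbove = 0) (s : Fin 4 → Fin 5) : mn f s = 0 := by
  by_cases hs : Function.Injective s
  · obtain ⟨i, hi⟩ : ∃ i : Fin 5, ∀ b, s b ≠ i := by
      by_contra hcon
      push Not at hcon
      have : Function.Surjective s := hcon
      have := Fintype.card_le_of_surjective s this
      simp at this
    have hex : ∀ b, ∃ c, i.succAbove c = s b := fun b => Fin.exists_succAbove_eq (hi b)
    choose σ hσ using hex
    have hσi : Function.Injective σ := by
      intro b c hbc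
      apply hs
      rw [← hσ b, ← hσ c, hbc]
    have hσb : Function.Bijective σ := Finite.injective_iff_bijective.mp hσi
    have e : mn f s = Matrix.det (Matrix.submatrix
        (fun a b : Fin 4 => f a (i.succAbove b)) id (Equiv.ofBijective σ hσb)) := by
      unfold mn
      congr 1
      funext a b
      show f a (s b) = f a (i.succAbove (σ b))
      rw [hσ b]
    rw [e, Matrix.det_permute']
    have : Matrix.det (fun a b : Fin 4 => f a (i.succAbove b)) = 0 := h i
    rw [this, mul_zero]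
  · unfold Function.Injective at hs
    push Not at hs
    obtain ⟨b, c, hbc, hne⟩ := hs
    exact Matrix.det_zero_of_column_eq hne fun a => by rw [hbc]

end Pool.Agent.Lib_helper86.D24

end

section

namespace Pool.Agent.Lib_helper86.D24

open MvPolynomial Matrix


theorem bC2_last {R : Type*} [CommRing R] {k : ℕ} (f : Fin (k + 1) → Fin 5 → R)
    (s : Fin (k + 1) → Fin 5) :
    mn f s = ∑ j : Fin (k + 1), (-1) ^ (k + (j : ℕ)) * f (Fin.last k) (s j) *
      mn (fun a : Fin k => f a.castSucc) (s ∘ j.succAbove) := by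
  unfold mn
  rw [Matrix.det_succ_row _ (Fin.last k)]
  refine Finset.sum_congr rfl fun j _ => ?_
  have e : (Matrix.submatrix (fun a b => f a (s b)) (Fin.last k).succAbove j.succAbove :
      Matrix (Fin k) (Fin k) R) = fun a b => f a.castSucc ((s ∘ j.succAbove) b) := by
    ext a b
    simp [Matrix.submatrix_apply, Fin.succAbove_last]
  rw [e, Fin.val_last]

/-- a common divisor of the smaller minors divides the bigger ones -/
theorem bC2_dvd {R : Type*} [CommRing R] {k : ℕ} (f : Fin (k + 1) → Fin 5 → R) {r : R}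
    (h : ∀ s, r ∣ mn (fun a : Fin k => f a.castSucc) s) (s : Fin (k + 1) → Fin 5) : r ∣ mn f s := by
  rw [bC2_last]
  exact Finset.dvd_sum fun j _ => Dvd.dvd.mul_left (h _) _

theorem bC2_neg_one_pow (n : ℕ) (m : Fin 2) (p : P2) :
    ((-1) ^ n * p).degreeOf m = p.degreeOf m := by
  rcases Nat.even_or_odd n with hn | hn
  · rw [hn.neg_one_pow, one_mul]
  · rw [hn.neg_one_pow, neg_one_mul, MvPolynomial.degreeOf_neg]

/-- degrees of minors -/
theorem bC2_deg {k : ℕ} (f : Fin (k + 1) → Fin 5 → P2) {d e : ℕ}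
    (h1 : ∀ i, (f (Fin.last k) i).degreeOf 1 ≤ d)
    (h2 : ∀ s, (mn (fun a : Fin k => f a.castSucc) s).degreeOf 1 ≤ e) (s : Fin (k + 1) → Fin 5) :
    (mn f s).degreeOf 1 ≤ d + e := by
  rw [bC2_last]
  refine (MvPolynomial.degreeOf_sum_le _ _ _).trans (Finset.sup_le fun j _ => ?_)
  refine (MvPolynomial.degreeOf_mul_le _ _ _).trans ?_
  have e1 : ((-1) ^ (k + (j : ℕ)) * f (Fin.last k) (s j) : P2).degreeOf 1 =
      (f (Fin.last k) (s j)).degreeOf 1 := bC2_neg_one_pow _ 1 _
  rw [e1]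
  exact add_le_add (h1 _) (h2 _)

/-- a polynomial without the variable `X 1` -/
theorem bC2_root {p : P2} (h : p.degreeOf 1 = 0) (hp : ¬ IsUnit p) (hp0 : p ≠ 0) :
    ∃ x : ℂ, ∀ y : ℂ, eval ![x, y] p = 0 := by
  have hv : (1 : Fin 2) ∉ p.vars := by
    intro hmem
    rw [MvPolynomial.mem_vars_iff_mem_support] at hmem
    obtain ⟨d, hd, hd1⟩ := hmem
    have h1 := MvPolynomial.monomial_le_degreeOf (1 : Fin 2) hd
    rw [Finsupp.mem_support_iff] at hd1
    omega
  have hind : ∀ x y y' : ℂ, eval ![x, y] p = eval ![x, y'] p := by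
    intro x y y'
    refine MvPolynomial.eval₂Hom_congr' rfl ?_ rfl
    intro i hi _
    fin_cases i
    · rfl
    · exact absurd hi hv
  set P : Polynomial ℂ := aeval ![Polynomial.X, 0] p with hP
  have hPe : ∀ x : ℂ, P.eval x = eval ![x, 0] p := by
    intro x
    have e : ((Polynomial.aeval x).comp (aeval ![Polynomial.X, 0]) : P2 →ₐ[ℂ] ℂ) =
        aeval ![x, 0] := by
      ext i
      fin_cases i <;> simp
    have e1 := DFunLike.congr_fun e p
    rw [AlgHom.comp_apply, Polynomial.coe_aeval_eq_eval, ← hP] at e1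
    rw [e1, MvPolynomial.aeval_def, MvPolynomial.eval₂_eq_eval_map]
    simp
  by_cases hdeg : P.degree = 0
  · exfalso
    obtain ⟨a, ha⟩ : ∃ a, P = Polynomial.C a := ⟨_, Polynomial.eq_C_of_degree_eq_zero hdeg⟩
    have hC : p = C a := by
      refine MvPolynomial.funext fun x => ?_
      have e1 : x = ![x 0, x 1] := by
        ext i; fin_cases i <;> rfl
      rw [e1, hind (x 0) (x 1) 0, ← hPe, ha]
      simp
    have ha0 : a ≠ 0 := by
      rintro rfl
      exact hp0 (by rw [hC]; simp)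
    exact hp (by rw [hC]; exact (IsUnit.mk0 a ha0).map C)
  · obtain ⟨x, hx⟩ := IsAlgClosed.exists_root P hdeg
    refine ⟨x, fun y => ?_⟩
    rw [hind x y 0, ← hPe]
    exact hx

/-- C2 (uses HO, MS) -/
theorem Yprim {g : Fin 5 → P2} {f : Fin 4 → Fin 5 → P2} (h : Cnt g f) :
    Prim (mn ![f 0, f 1, f 2]) ∧ (∃ s, (mn ![f 0, f 1, f 2] s).degreeOf 1 = 3) ∧
    Prim (mn ![f 0, f 1]) ∧ (∃ s, (mn ![f 0, f 1] s).degreeOf 1 = 1) ∧ Prim (f 0) := by
  obtain ⟨c, hc⟩ := hodge f g h.g_prim h.orth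
  -- the truncated families
  have eW : (fun a : Fin 3 => f a.castSucc) = ![f 0, f 1, f 2] := by
    ext a
    fin_cases a <;> rfl
  have eY : (fun a : Fin 2 => (![f 0, f 1, f 2] : Fin 3 → Fin 5 → P2) a.castSucc) =
      ![f 0, f 1] := by
    ext a
    fin_cases a <;> rfl
  have eX : ∀ s : Fin 1 → Fin 5, mn (fun a : Fin 1 =>
      (![f 0, f 1] : Fin 2 → Fin 5 → P2) a.castSucc) s = f 0 (s 0) := by
    intro s
    unfold mn
    rw [Matrix.det_fin_one]
    rfl
  -- degrees
  have dX : ∀ s, (mn ![f 0, f 1] s).degreeOf 1 ≤ 1 := fun s =>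
    bC2_deg (k := 1) ![f 0, f 1] (d := 1) (e := 0) (fun i => h.f_deg 1 i)
      (fun s => by rw [eX]; exact h.f_deg 0 _) s
  have dY : ∀ s, (mn ![f 0, f 1, f 2] s).degreeOf 1 ≤ 3 := fun s =>
    bC2_deg (k := 2) ![f 0, f 1, f 2] (d := 2) (e := 1) (fun i => h.f_deg 2 i)
      (fun s => by rw [eY]; exact dX s) s
  have dW : ∀ s, (mn f s).degreeOf 1 ≤ 6 := fun s =>
    bC2_deg (k := 3) f (d := 3) (e := 3) (fun i => h.f_deg 3 i)
      (fun s => by rw [eW]; exact dY s) s
  obtain ⟨i₀, hi₀⟩ := h.g_top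
  have hg0 : g i₀ ≠ 0 := by
    intro h0
    rw [h0] at hi₀
    simp at hi₀
  have hc0 : c ≠ 0 := by
    rintro rfl
    obtain ⟨s, hs⟩ := h.W
    refine hs (mn_eq_zero f (fun i => ?_) s)
    rw [hc i]; ring
  have hcg : (mn f i₀.succAbove).degreeOf 1 = c.degreeOf 1 + 6 := by
    rw [hc i₀, mul_assoc, bC2_neg_one_pow _ 1, MvPolynomial.degreeOf_mul_eq hc0 hg0, hi₀]
  have hcd : c.degreeOf 1 = 0 := by
    have := dW i₀.succAbove
    omega
  have hW6 : (mn f i₀.succAbove).degreeOf 1 = 6 := by omega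
  have hY3 : ∃ s, (mn ![f 0, f 1, f 2] s).degreeOf 1 = 3 := by
    by_contra hno
    push Not at hno
    have := bC2_deg (k := 3) f (d := 3) (e := 2) (fun i => h.f_deg 3 i)
      (fun s => by
        rw [eW]
        have h1 := dY s
        have h2 := hno s
        omega) i₀.succAbove
    omega
  have hX1 : ∃ s, (mn ![f 0, f 1] s).degreeOf 1 = 1 := by
    by_contra hno
    push Not at hno
    obtain ⟨s, hs⟩ := hY3
    have := bC2_deg (k := 2) ![f 0, f 1, f 2] (d := 2) (e := 0) (fun i => h.f_deg 2 i)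
      (fun s => by
        rw [eY]
        have h1 := dX s
        have h2 := hno s
        omega) s
    omega
  have hpY : Prim (mn ![f 0, f 1, f 2]) := by
    intro r hr
    by_contra hru
    have hr0 : r ≠ 0 := by
      rintro rfl
      obtain ⟨s, hs⟩ := hY3
      rw [zero_dvd_iff.1 (hr s)] at hs
      simp at hs
    obtain ⟨π, hπ, hπr⟩ := WfDvdMonoid.exists_irreducible_factor hru hr0
    have hπW : ∀ s, π ∣ mn f s := bC2_dvd (k := 3) f (fun s => by
      rw [eW]; exact hπr.trans (hr s))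
    have hπp : Prime π := hπ.prime
    have hπc : π ∣ c := by
      by_contra hn
      refine hπ.not_isUnit (h.g_prim π fun i => ?_)
      have h1 := hπW i.succAbove
      rw [hc i, mul_assoc] at h1
      have h2 : π ∣ c * g i := by
        have h3 : c * g i = (-1) ^ (i : ℕ) * ((-1) ^ (i : ℕ) * (c * g i)) := by
          rw [← mul_assoc, ← mul_pow]; simp
        rw [h3]
        exact Dvd.dvd.mul_left h1 _
      exact (hπp.dvd_or_dvd h2).resolve_left hn
    have hπd : π.degreeOf 1 = 0 := by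
      obtain ⟨d, hd⟩ := hπc
      have hd0 : d ≠ 0 := by
        rintro rfl
        exact hc0 (by rw [hd, mul_zero])
      have h1 := MvPolynomial.degreeOf_mul_eq (n := (1 : Fin 2)) hπ.ne_zero hd0
      rw [← hd, hcd] at h1
      omega
    obtain ⟨x, hx⟩ := bC2_root hπd hπ.not_isUnit hπ.ne_zero
    obtain ⟨s, ν, hs⟩ := h.Y_ne x
    obtain ⟨d, hd⟩ := hπr.trans (hr s)
    exact hs (by rw [hd, map_mul, hx ν, zero_mul])
  have hpX : Prim (mn ![f 0, f 1]) := fun r hr =>
    hpY r (bC2_dvd (k := 2) ![f 0, f 1, f 2] (fun s => by rw [eY]; exact hr s))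
  refine ⟨hpY, hY3, hpX, hX1, fun r hr => hpX r (bC2_dvd (k := 1) ![f 0, f 1] (fun s => ?_))⟩
  rw [eX]
  exact hr _

end Pool.Agent.Lib_helper86.D24

end

section

namespace Pool.Agent.Lib_helper86.D24

open MvPolynomial Matrix

private theorem bC3_last {R : Type*} [CommRing R] {k : ℕ} (f : Fin (k + 1) → Fin 5 → R)
    (s : Fin (k + 1) → Fin 5) :
    mn f s = ∑ j : Fin (k + 1), (-1) ^ (k + (j : ℕ)) * f (Fin.last k) (s j) *
      mn (fun a : Fin k => f a.castSucc) (s ∘ j.succAbove) := by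
  unfold mn
  rw [Matrix.det_succ_row _ (Fin.last k)]
  refine Finset.sum_congr rfl fun j _ => ?_
  have e : (Matrix.submatrix (fun a b => f a (s b)) (Fin.last k).succAbove j.succAbove :
      Matrix (Fin k) (Fin k) R) = fun a b => f a.castSucc ((s ∘ j.succAbove) b) := by
    ext a b
    simp [Matrix.submatrix_apply, Fin.succAbove_last]
  rw [e, Fin.val_last]

private theorem bC3_neg_one_pow (n : ℕ) (m : Fin 2) (p : P2) :
    ((-1) ^ n * p).degreeOf m = p.degreeOf m := by
  rcases Nat.even_or_odd n with hn | hn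
  · rw [hn.neg_one_pow, one_mul]
  · rw [hn.neg_one_pow, neg_one_mul, MvPolynomial.degreeOf_neg]

private theorem bC3_deg {k : ℕ} (f : Fin (k + 1) → Fin 5 → P2) {d e : ℕ}
    (h1 : ∀ i, (f (Fin.last k) i).degreeOf 1 ≤ d)
    (h2 : ∀ s, (mn (fun a : Fin k => f a.castSucc) s).degreeOf 1 ≤ e) (s : Fin (k + 1) → Fin 5) :
    (mn f s).degreeOf 1 ≤ d + e := by
  rw [bC3_last]
  refine (MvPolynomial.degreeOf_sum_le _ _ _).trans (Finset.sup_le fun j _ => ?_)
  refine (MvPolynomial.degreeOf_mul_le _ _ _).trans ?_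
  have e1 : ((-1) ^ (k + (j : ℕ)) * f (Fin.last k) (s j) : P2).degreeOf 1 =
      (f (Fin.last k) (s j)).degreeOf 1 := bC3_neg_one_pow _ 1 _
  rw [e1]
  exact add_le_add (h1 _) (h2 _)

private theorem bC3_three {R : Type*} [CommRing R] (S u v : Fin 5 → R) (s : Fin 3 → Fin 5) :
    mn ![S, u, v] s = S (s 0) * mn ![u, v] ![s 1, s 2] - S (s 1) * mn ![u, v] ![s 0, s 2] +
      S (s 2) * mn ![u, v] ![s 0, s 1] := by
  unfold mn
  rw [Matrix.det_fin_three, Matrix.det_fin_two, Matrix.det_fin_two, Matrix.det_fin_two]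
  simp
  ring

private theorem bC3_mul {p q : P2} {a b : ℕ} (hp : p.totalDegree ≤ a) (hq : q.totalDegree ≤ b) :
    (p * q).totalDegree ≤ a + b :=
  (MvPolynomial.totalDegree_mul _ _).trans (add_le_add hp hq)

private theorem bC3_mul1 {p q : P2} {a b : ℕ} (hp : p.degreeOf 1 ≤ a) (hq : q.degreeOf 1 ≤ b) :
    (p * q).degreeOf 1 ≤ a + b :=
  (MvPolynomial.degreeOf_mul_le _ _ _).trans (add_le_add hp hq)

/-- C3 (uses HO, MS, CR, C2) -/
theorem S_bounds {g : Fin 5 → P2} {f : Fin 4 → Fin 5 → P2} (h : Cnt g f) (S : Fin 5 → P2)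
    (hS : ∀ i, (S i).totalDegree ≤ 6 ∧ (S i).degreeOf 1 ≤ 2) (hg : ∑ i, g i * S i = 0) :
    ∃ a : Fin 3 → P2, (∀ i, S i = a 0 * f 0 i + a 1 * f 1 i + a 2 * f 2 i) ∧
      (a 2).totalDegree ≤ 2 ∧ (a 2).degreeOf 1 = 0 ∧ (a 2 = 0 → (a 1).totalDegree ≤ 1) ∧
      (a 2 = 0 → a 1 = 0 → (a 0).totalDegree = 0) := by
  obtain ⟨hpY, ⟨s3, hs3⟩, hpX, ⟨s1, hs1⟩, hp0⟩ := Yprim h
  -- truncations
  have e3 : (fun a : Fin 3 => (![S, f 0, f 1, f 2] : Fin 4 → Fin 5 → P2) a.castSucc) =
      ![S, f 0, f 1] := by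
    ext a; fin_cases a <;> rfl
  have e2 : (fun a : Fin 2 => (![S, f 0, f 1] : Fin 3 → Fin 5 → P2) a.castSucc) =
      ![S, f 0] := by
    ext a; fin_cases a <;> rfl
  have e1 : ∀ s : Fin 1 → Fin 5, mn (fun a : Fin 1 =>
      (![S, f 0] : Fin 2 → Fin 5 → P2) a.castSucc) s = S (s 0) := by
    intro s
    unfold mn
    rw [Matrix.det_fin_one]
    rfl
  have d1 : ∀ s, (mn ![S, f 0] s).degreeOf 1 ≤ 2 := fun s =>
    bC3_deg (k := 1) ![S, f 0] (d := 0) (e := 2) (fun i => h.f_deg 0 i)
      (fun s => by rw [e1]; exact (hS _).2) s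
  have d2 : ∀ s, (mn ![S, f 0, f 1] s).degreeOf 1 ≤ 3 := fun s =>
    bC3_deg (k := 2) ![S, f 0, f 1] (d := 1) (e := 2) (fun i => h.f_deg 1 i)
      (fun s => by rw [e2]; exact d1 s) s
  have d3 : ∀ s, (mn ![S, f 0, f 1, f 2] s).degreeOf 1 ≤ 5 := fun s =>
    bC3_deg (k := 3) ![S, f 0, f 1, f 2] (d := 2) (e := 3) (fun i => h.f_deg 2 i)
      (fun s => by rw [e3]; exact d2 s) s
  obtain ⟨c, hc⟩ := hodge ![S, f 0, f 1, f 2] g h.g_prim (fun k => by
    fin_cases k
    · exact hg
    · exact h.orth 0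
    · exact h.orth 1
    · exact h.orth 2)
  obtain ⟨i₀, hi₀⟩ := h.g_top
  have hg0 : g i₀ ≠ 0 := by
    intro h0
    rw [h0] at hi₀
    simp at hi₀
  have hc0 : c = 0 := by
    by_contra hc0
    have hcg : (mn ![S, f 0, f 1, f 2] i₀.succAbove).degreeOf 1 = c.degreeOf 1 + 6 := by
      rw [hc i₀, mul_assoc, bC3_neg_one_pow _ 1, MvPolynomial.degreeOf_mul_eq hc0 hg0, hi₀]
    have := d3 i₀.succAbove
    omega
  have hM : ∀ s, mn ![S, f 0, f 1, f 2] s = 0 := fun s =>
    mn_eq_zero _ (fun i => by rw [hc i, hc0]; ring) s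
  obtain ⟨a, ha⟩ := cramer ![f 0, f 1, f 2] hpY S hM
  have ha' : ∀ i, S i = a 0 * f 0 i + a 1 * f 1 i + a 2 * f 2 i := by
    intro i
    rw [ha i, Fin.sum_univ_three]
    rfl
  have k2 : ∀ s, mn ![S, f 0, f 1] s = a 2 * mn ![f 0, f 1, f 2] s := by
    intro s
    unfold mn
    rw [Matrix.det_fin_three, Matrix.det_fin_three]
    simp [ha']
    ring
  have tX : ∀ s, (mn ![f 0, f 1] s).totalDegree ≤ 11 := h.X_deg
  have t2 : ∀ s, (mn ![S, f 0, f 1] s).totalDegree ≤ 17 := by
    intro s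
    rw [bC3_three]
    have q0 := bC3_mul (hS (s 0)).1 (tX ![s 1, s 2])
    have q1 := bC3_mul (hS (s 1)).1 (tX ![s 0, s 2])
    have q2 := bC3_mul (hS (s 2)).1 (tX ![s 0, s 1])
    refine (MvPolynomial.totalDegree_add _ _).trans (max_le ?_ q2)
    exact (MvPolynomial.totalDegree_sub _ _).trans (max_le q0 q1)
  refine ⟨a, ha', ?_, ?_, ?_, ?_⟩
  · by_cases h2 : a 2 = 0
    · rw [h2]; simp
    · obtain ⟨s, hs⟩ := h.Y_top
      have hY0 : mn ![f 0, f 1, f 2] s ≠ 0 := by
        intro h0
        rw [h0] at hs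
        simp at hs
      have := t2 s
      rw [k2, MvPolynomial.totalDegree_mul_of_isDomain h2 hY0, hs] at this
      omega
  · by_cases h2 : a 2 = 0
    · rw [h2]; simp
    · have hY0 : mn ![f 0, f 1, f 2] s3 ≠ 0 := by
        intro h0
        rw [h0] at hs3
        simp at hs3
      have := d2 s3
      rw [k2, MvPolynomial.degreeOf_mul_eq h2 hY0, hs3] at this
      omega
  · intro h2
    by_cases h1 : a 1 = 0
    · rw [h1]; simp
    · obtain ⟨s, hs⟩ := h.X_top
      have hX0 : mn ![f 0, f 1] s ≠ 0 := by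
        intro h0
        rw [h0] at hs
        simp at hs
      have k1 : a 1 * mn ![f 0, f 1] s = f 0 (s 0) * S (s 1) - f 0 (s 1) * S (s 0) := by
        unfold mn
        rw [Matrix.det_fin_two]
        simp [ha', h2]
        ring
      have hf0 : ∀ i, (f 0 i).totalDegree ≤ 6 := h.f0_deg
      have q0 := bC3_mul (hf0 (s 0)) (hS (s 1)).1
      have q1 := bC3_mul (hf0 (s 1)) (hS (s 0)).1
      have : (a 1 * mn ![f 0, f 1] s).totalDegree ≤ 12 := by
        rw [k1]
        exact (MvPolynomial.totalDegree_sub _ _).trans (max_le q0 q1)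
      rw [MvPolynomial.totalDegree_mul_of_isDomain h1 hX0, hs] at this
      omega
  · intro h2 h1
    by_cases h0 : a 0 = 0
    · rw [h0]; simp
    · obtain ⟨i, hi⟩ := h.f0_top
      have hf0 : f 0 i ≠ 0 := by
        intro h0
        rw [h0] at hi
        simp at hi
      have := (hS i).1
      rw [ha' i, h1, h2, zero_mul, zero_mul, add_zero, add_zero,
        MvPolynomial.totalDegree_mul_of_isDomain h0 hf0, hi] at this
      omega

end Pool.Agent.Lib_helper86.D24

end

section

namespace Pool.Agent.Lib_helper86.D24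

open MvPolynomial Matrix


/-- the coefficients are unique -/
theorem bC4_unique {g : Fin 5 → P2} {f : Fin 4 → Fin 5 → P2} (h : Cnt g f) {b : Fin 3 → P2}
    (hb : ∀ i, b 0 * f 0 i + b 1 * f 1 i + b 2 * f 2 i = 0) : b = 0 := by
  obtain ⟨s, hs⟩ := h.Y_top
  have hne : mn ![f 0, f 1, f 2] s ≠ 0 := by
    intro h0
    rw [h0, totalDegree_zero] at hs
    omega
  refine Matrix.eq_zero_of_vecMul_eq_zero
    (M := (fun a b => ![f 0, f 1, f 2] a (s b) : Matrix (Fin 3) (Fin 3) P2)) hne ?_
  funext i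
  have := hb (s i)
  simpa [Matrix.vecMul, dotProduct, Fin.sum_univ_three] using this

/-- a polynomial in `X 0` of degree at most two -/
theorem bC4_two {p : P2} (h1 : p.totalDegree ≤ 2) (h2 : p.degreeOf 1 = 0)
    (c0 : coeff 0 p = 0) (c1 : coeff (Finsupp.single 0 1) p = 0)
    (c2 : coeff (Finsupp.single 0 2) p = 0) : p = 0 := by
  ext m
  rw [coeff_zero]
  by_contra hm
  have hmem : m ∈ p.support := mem_support_iff.2 hm
  have h3 : m 1 ≤ p.degreeOf 1 := by
    rw [degreeOf_eq_sup]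
    exact Finset.le_sup (f := fun m : Fin 2 →₀ ℕ => m 1) hmem
  have h4 : m.sum (fun _ e => e) ≤ 2 := (le_totalDegree hmem).trans h1
  rw [Finsupp.sum_fintype _ _ (fun _ => rfl), Fin.sum_univ_two] at h4
  have h5 : m = Finsupp.single 0 (m 0) := by
    ext i
    fin_cases i
    · simp
    · simp
      omega
  have h6 : m 0 ≤ 2 := by omega
  have h7 : m 0 = 0 ∨ m 0 = 1 ∨ m 0 = 2 := by omega
  rcases h7 with h7 | h7 | h7
  · rw [h7, Finsupp.single_zero] at h5
    exact hm (h5 ▸ c0)
  · rw [h7] at h5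
    exact hm (h5 ▸ c1)
  · rw [h7] at h5
    exact hm (h5 ▸ c2)

/-- a polynomial of degree at most one -/
theorem bC4_one {p : P2} (h1 : p.totalDegree ≤ 1)
    (c0 : coeff 0 p = 0) (c1 : coeff (Finsupp.single 0 1) p = 0)
    (c2 : coeff (Finsupp.single 1 1) p = 0) : p = 0 := by
  ext m
  rw [coeff_zero]
  by_contra hm
  have hmem : m ∈ p.support := mem_support_iff.2 hm
  have h4 : m.sum (fun _ e => e) ≤ 1 := (le_totalDegree hmem).trans h1
  rw [Finsupp.sum_fintype _ _ (fun _ => rfl), Fin.sum_univ_two] at h4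
  have h7 : (m 0 = 0 ∧ m 1 = 0) ∨ (m 0 = 1 ∧ m 1 = 0) ∨ (m 0 = 0 ∧ m 1 = 1) := by omega
  rcases h7 with ⟨h7, h8⟩ | ⟨h7, h8⟩ | ⟨h7, h8⟩
  · have h5 : m = 0 := by
      ext i
      fin_cases i
      · simpa using h7
      · simpa using h8
    exact hm (h5 ▸ c0)
  · have h5 : m = Finsupp.single 0 1 := by
      ext i
      fin_cases i
      · simpa using h7
      · simpa using h8
    exact hm (h5 ▸ c1)
  · have h5 : m = Finsupp.single 1 1 := by
      ext i
      fin_cases i
      · simpa using h7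
      · simpa using h8
    exact hm (h5 ▸ c2)

/-- the seven coefficients -/
noncomputable def bC4_e : Fin 7 → Fin 3 × (Fin 2 →₀ ℕ) :=
  ![(2, 0), (2, Finsupp.single 0 1), (2, Finsupp.single 0 2), (1, 0), (1, Finsupp.single 0 1),
    (1, Finsupp.single 1 1), (0, 0)]

/-- C4 (uses C1, C2, C3): 9 > 3 + 3 + 1 -/
theorem count_false {g : Fin 5 → P2} {f : Fin 4 → Fin 5 → P2} (h : Cnt g f) : False := by
  obtain ⟨S, hS, hdeg, hort⟩ := kernel g h.g_deg
  have hb := fun j => S_bounds h (S j) (hdeg j) (hort j)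
  choose α hα _ _ _ _ using hb
  let M : Matrix (Fin 7) (Fin 9) ℂ := fun t j => coeff (bC4_e t).2 (α j (bC4_e t).1)
  have hker : LinearMap.ker (Matrix.mulVecLin M) ≠ ⊥ :=
    LinearMap.ker_ne_bot_of_finrank_lt (by simp)
  obtain ⟨c, hc, hc0⟩ := Submodule.exists_mem_ne_zero_of_ne_bot hker
  have hM : ∀ t, ∑ j, coeff (bC4_e t).2 (α j (bC4_e t).1) * c j = 0 := by
    intro t
    have := congrFun (LinearMap.mem_ker.1 hc) t
    rw [Matrix.mulVecLin_apply] at this
    exact this
  -- the combination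
  set T : Fin 5 → P2 := fun i => ∑ j, C (c j) * S j i with hT
  have hTdeg : ∀ i, (T i).totalDegree ≤ 6 ∧ (T i).degreeOf 1 ≤ 2 := by
    intro i
    constructor
    · refine totalDegree_finsetSum_le fun j _ => ?_
      refine (totalDegree_mul _ _).trans ?_
      rw [totalDegree_C, zero_add]
      exact (hdeg j i).1
    · refine (degreeOf_sum_le _ _ _).trans (Finset.sup_le fun j _ => ?_)
      exact (degreeOf_C_mul_le _ _ _).trans (hdeg j i).2
  have hTort : ∑ i, g i * T i = 0 := by
    have : ∑ i, g i * T i = ∑ j, C (c j) * ∑ i, g i * S j i := by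
      simp only [hT, Finset.mul_sum]
      rw [Finset.sum_comm]
      exact Finset.sum_congr rfl fun j _ => Finset.sum_congr rfl fun i _ => by ring
    rw [this]
    simp [hort]
  obtain ⟨a, ha, h2, h2', h1, h0⟩ := S_bounds h T hTdeg hTort
  -- uniqueness of the coefficients
  have ha' : a = fun k => ∑ j, C (c j) * α j k := by
    have hb0 : (fun k => a k - ∑ j, C (c j) * α j k) = 0 := by
      refine bC4_unique h fun i => ?_
      have e1 : T i = ∑ j, C (c j) * (α j 0 * f 0 i + α j 1 * f 1 i + α j 2 * f 2 i) :=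
        Finset.sum_congr rfl fun j _ => by rw [← hα j i]
      have e2 := ha i
      rw [e1] at e2
      have e3 : ∑ j, C (c j) * (α j 0 * f 0 i + α j 1 * f 1 i + α j 2 * f 2 i) =
          (∑ j, C (c j) * α j 0) * f 0 i + (∑ j, C (c j) * α j 1) * f 1 i +
          (∑ j, C (c j) * α j 2) * f 2 i := by
        rw [Finset.sum_mul, Finset.sum_mul, Finset.sum_mul, ← Finset.sum_add_distrib,
          ← Finset.sum_add_distrib]
        exact Finset.sum_congr rfl fun j _ => by ring
      rw [e3] at e2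
      linear_combination -e2
    funext k
    have := congrFun hb0 k
    simpa [sub_eq_zero] using this
  have hco : ∀ (k : Fin 3) (m : Fin 2 →₀ ℕ), coeff m (a k) = ∑ j, coeff m (α j k) * c j := by
    intro k m
    rw [ha', coeff_sum]
    exact Finset.sum_congr rfl fun j _ => by rw [coeff_C_mul, mul_comm]
  have q0 : coeff 0 (a 2) = 0 := (hco _ _).trans (hM 0)
  have q1 : coeff (Finsupp.single 0 1) (a 2) = 0 := (hco _ _).trans (hM 1)
  have q2 : coeff (Finsupp.single 0 2) (a 2) = 0 := (hco _ _).trans (hM 2)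
  have q3 : coeff 0 (a 1) = 0 := (hco _ _).trans (hM 3)
  have q4 : coeff (Finsupp.single 0 1) (a 1) = 0 := (hco _ _).trans (hM 4)
  have q5 : coeff (Finsupp.single 1 1) (a 1) = 0 := (hco _ _).trans (hM 5)
  have q6 : coeff 0 (a 0) = 0 := (hco _ _).trans (hM 6)
  have a2 : a 2 = 0 := bC4_two h2 h2' q0 q1 q2
  have a1 : a 1 = 0 := bC4_one (h1 a2) q3 q4 q5
  have a0 : a 0 = 0 := by
    have h3 := h0 a2 a1
    rw [totalDegree_eq_zero_iff_eq_C] at h3
    rw [h3, q6, C_0]
  have hT0 : ∑ j, c j • S j = 0 := by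
    funext i
    have h3 : (∑ j, c j • S j) i = T i := by
      rw [Finset.sum_apply]
      exact Finset.sum_congr rfl fun j _ => by rw [Pi.smul_apply, smul_eq_C_mul]
    rw [h3, ha i, a0, a1, a2]
    simp
  exact hc0 (funext (Fintype.linearIndependent_iff.1 hS c hT0))

end Pool.Agent.Lib_helper86.D24

end

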