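import Pool.Agent.Lib_helper86.D24.Defs
import Pool.Agent.Lib_helper86.D24.L1

/-!
# D(2,4) = 5: part L2
-/

section

namespace Pool.Agent.Lib_helper86.D24

open MvPolynomial Matrix


private theorem bJ1_apply (v : V3) (p : P3) : dv v p = ∑ j, C (v j) * pderiv j p := by
  unfold dv
  simp [Fin.sum_univ_three]

private theorem bJ1_dv_X (v : V3) (i : Fin 3) : dv v (X i) = C (v i) := by
  rw [bJ1_apply, Finset.sum_eq_single i]
  · simp
  · intro b _ hb
    rw [pderiv_X_of_ne (Ne.symm hb), mul_zero]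
  · simp

private theorem bJ1_comm (v z : V3) (p : P3) : dv v (dv z p) = dv z (dv v p) := by
  have h : ⁅dv v, dv z⁆ = 0 := by
    apply MvPolynomial.derivation_ext
    intro i
    rw [Derivation.commutator_apply, bJ1_dv_X, bJ1_dv_X, ← MvPolynomial.algebraMap_eq,
      Derivation.map_algebraMap, Derivation.map_algebraMap]
    simp
  have h2 := congrArg (fun D : Derivation ℂ P3 P3 => D p) h
  simp only [Derivation.commutator_apply, Derivation.coe_zero, Pi.zero_apply] at h2
  exact sub_eq_zero.1 h2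

private theorem bJ1_comm_it (v z : V3) (j : ℕ) (p : P3) :
    (dv v)^[j] (dv z p) = dv z ((dv v)^[j] p) := by
  induction j generalizing p with
  | zero => rfl
  | succ j ih => rw [Function.iterate_succ_apply, Function.iterate_succ_apply, bJ1_comm, ih]

private theorem bJ1_hom (v : V3) {e : ℕ} {p : P3} (hp : p.IsHomogeneous e) :
    (dv v p).IsHomogeneous (e - 1) := by
  rw [bJ1_apply]
  apply MvPolynomial.IsHomogeneous.sum
  intro i _
  have h := (isHomogeneous_C (Fin 3) (v i)).mul (hp.pderiv (i := i))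
  rwa [zero_add] at h

private theorem bJ1_hom_it (v : V3) (j : ℕ) {e : ℕ} {p : P3} (hp : p.IsHomogeneous e) :
    ((dv v)^[j] p).IsHomogeneous (e - j) := by
  induction j with
  | zero => simpa using hp
  | succ j ih =>
    rw [Function.iterate_succ_apply', ← Nat.sub_sub]
    exact bJ1_hom v ih

private theorem bJ1_euler (z : V3) {e : ℕ} {p : P3} (hp : p.IsHomogeneous e) :
    eval z (dv z p) = e * eval z p := by
  have h := congrArg (eval z) hp.sum_X_mul_pderiv
  rw [bJ1_apply]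
  simpa [map_sum] using h

private theorem bJ1_add (v z : V3) (t : ℂ) (p : P3) :
    dv (v + t • z) p = dv v p + C t * dv z p := by
  simp only [bJ1_apply, Finset.mul_sum, Pi.add_apply, Pi.smul_apply, smul_eq_mul, map_add, map_mul]
  rw [← Finset.sum_add_distrib]
  refine Finset.sum_congr rfl fun i _ => ?_
  ring

private theorem bJ1_it_add (v : V3) (t : ℂ) (j : ℕ) : ∀ (q r : P3),
    (dv v)^[j] (q + C t * r) = (dv v)^[j] q + C t * (dv v)^[j] r := by
  induction j with
  | zero => intro q r; rfl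
  | succ j ih =>
    intro q r
    rw [Function.iterate_succ_apply, Function.iterate_succ_apply, Function.iterate_succ_apply,
      map_add, ← smul_eq_C_mul, Derivation.map_smul, smul_eq_C_mul]
    exact ih _ _

private theorem bJ1_main (v z : V3) (t : ℂ) (k : ℕ) : ∀ e : ℕ, ∃ L : ℕ → ℂ, L k = 1 ∧
    ∀ p : P3, p.IsHomogeneous e → eval z ((dv (v + t • z))^[k] p) =
      ∑ j ∈ Finset.range (k + 1), L j * eval z ((dv v)^[j] p) := by
  induction k with
  | zero =>
    intro e
    exact ⟨fun _ => 1, rfl, fun p _ => by simp⟩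
  | succ k ih =>
    intro e
    obtain ⟨L, hL, h⟩ := ih (e - 1)
    refine ⟨fun j => (if j = 0 then 0 else L (j - 1)) +
      (if j ≤ k then t * ((e - j : ℕ) : ℂ) * L j else 0), by simp [hL], fun p hp => ?_⟩
    rw [Function.iterate_succ_apply, h _ (bJ1_hom _ hp)]
    have h1 : ∀ j ∈ Finset.range (k + 1), L j * eval z ((dv v)^[j] (dv (v + t • z) p)) =
        L j * eval z ((dv v)^[j + 1] p) +
          t * ((e - j : ℕ) : ℂ) * L j * eval z ((dv v)^[j] p) := by
      intro j _
      rw [bJ1_add, bJ1_it_add, bJ1_comm_it v z j p, ← Function.iterate_succ_apply, map_add,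
        map_mul, eval_C, bJ1_euler z (bJ1_hom_it v j hp)]
      ring
    rw [Finset.sum_congr rfl h1, Finset.sum_add_distrib]
    simp only [add_mul]
    rw [Finset.sum_add_distrib, Finset.sum_range_succ' (fun j => (if j = 0 then 0 else L (j - 1)) *
      eval z ((dv v)^[j] p)) (k + 1), Finset.sum_range_succ (fun j => (if j ≤ k then
      t * ((e - j : ℕ) : ℂ) * L j else 0) * eval z ((dv v)^[j] p)) (k + 1)]
    have h2 : ∑ j ∈ Finset.range (k + 1), (if j ≤ k then t * ((e - j : ℕ) : ℂ) * L j else 0) *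
        eval z ((dv v)^[j] p) = ∑ j ∈ Finset.range (k + 1),
          t * ((e - j : ℕ) : ℂ) * L j * eval z ((dv v)^[j] p) :=
      Finset.sum_congr rfl fun j hj => by
        rw [if_pos (Nat.lt_succ_iff.1 (Finset.mem_range.1 hj))]
    rw [h2]
    simp

/-- J1 -/
theorem mn_shift {m d : ℕ} (F : Fin 5 → P3) (hF : ∀ i, (F i).IsHomogeneous d) (z v : V3) (t : ℂ)
    (s : Fin m → Fin 5) : mn (fun k : Fin m => ej F (v + t • z) (k : ℕ) z) s =
      mn (fun k : Fin m => ej F v (k : ℕ) z) s := by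
  choose L hL1 hL using fun k : ℕ => bJ1_main v z t k d
  have h : (Matrix.of fun a b : Fin m => ej F (v + t • z) (a : ℕ) z (s b)) =
      (Matrix.of fun a b : Fin m => if b ≤ a then L a b else 0) *
        (Matrix.of fun a b : Fin m => ej F v (a : ℕ) z (s b)) := by
    ext a b
    simp only [Matrix.of_apply, Matrix.mul_apply, ite_mul, zero_mul]
    unfold ej
    rw [hL a (F (s b)) (hF _)]
    have h4 : ∑ x : Fin m, (if x ≤ a then L a x * eval z ((dv v)^[(x : ℕ)] (F (s b))) else 0) =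
        ∑ x ∈ Finset.range m, if x ≤ (a : ℕ) then L a x * eval z ((dv v)^[x] (F (s b))) else 0 := by
      rw [Finset.sum_range]
      rfl
    rw [h4, ← Finset.sum_filter]
    refine Finset.sum_congr ?_ fun _ _ => rfl
    ext j
    simp only [Finset.mem_range, Finset.mem_filter]
    have := a.2
    omega
  have h1 : mn (fun k : Fin m => ej F (v + t • z) (k : ℕ) z) s =
      Matrix.det (Matrix.of fun a b : Fin m => ej F (v + t • z) (a : ℕ) z (s b)) := rfl
  have h2 : mn (fun k : Fin m => ej F v (k : ℕ) z) s =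
      Matrix.det (Matrix.of fun a b : Fin m => ej F v (a : ℕ) z (s b)) := rfl
  rw [h1, h2, h, Matrix.det_mul]
  have h3 : (Matrix.of fun a b : Fin m => if b ≤ a then L a b else 0).det = 1 := by
    rw [Matrix.det_of_isLowerTriangular]
    · simp [hL1]
    · intro a b hab
      have : ¬ b ≤ a := by simpa using hab
      simp [this]
  rw [h3, one_mul]

end Pool.Agent.Lib_helper86.D24

end

section

namespace Pool.Agent.Lib_helper86.D24

open MvPolynomial Matrix


private theorem bJ2_dv_apply (v : V3) (p : P3) : dv v p = ∑ j, C (v j) * pderiv j p := by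
  have : (dv v : P3 → P3) p = (∑ j, (C (v j) : P3) • (pderiv j : Derivation ℂ P3 P3)) p := rfl
  rw [this, Fin.sum_univ_three, Fin.sum_univ_three]
  simp [Derivation.add_apply, Derivation.smul_apply, smul_eq_mul]

private theorem bJ2_hom (v : V3) (p : P3) (n : ℕ) (hp : p.IsHomogeneous n) :
    (dv v p).IsHomogeneous (n - 1) := by
  rw [bJ2_dv_apply]
  refine IsHomogeneous.sum _ _ _ fun j _ => ?_
  have h := (isHomogeneous_C (Fin 3) (v j)).mul (hp.pderiv (i := j))
  rwa [zero_add] at h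

private theorem bJ2_hom_iter (v : V3) (k : ℕ) : ∀ (p : P3) (n : ℕ), p.IsHomogeneous n →
    ((dv v)^[k] p).IsHomogeneous (n - k) := by
  induction k with
  | zero => intro p n hp; simpa using hp
  | succ k ih =>
    intro p n hp
    rw [Function.iterate_succ_apply]
    have := ih _ _ (bJ2_hom v p n hp)
    rwa [Nat.sub_sub, Nat.add_comm 1 k] at this

private theorem bJ2_eval_smul (p : P3) (n : ℕ) (hp : p.IsHomogeneous n) (x : ℂ) (z : V3) :
    eval (x • z) p = x ^ n * eval z p := by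
  rw [eval_eq, eval_eq, Finset.mul_sum]
  refine Finset.sum_congr rfl fun m hm => ?_
  have h1 : m.degree = n := by
    have := hp (mem_support_iff.1 hm)
    rw [← this]
    simp [Finsupp.weight_apply, Finsupp.degree_apply, Finsupp.sum]
  have h2 : ∑ i, m i = n := by
    rw [← h1, Finsupp.degree_eq_sum]
  rw [← h2]
  simp only [Pi.smul_apply, smul_eq_mul, mul_pow]
  rw [Finset.prod_mul_distrib]
  have h3 : ∏ i ∈ m.support, x ^ m i = x ^ ∑ i, m i := by
    rw [Finset.prod_pow_eq_pow_sum]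
    congr 1
    exact Finset.sum_subset (Finset.subset_univ _) fun i _ hi => by simpa using hi
  rw [h3]
  ring

/-- J2a -/
theorem ej_smul_z {d : ℕ} (F : Fin 5 → P3) (hF : ∀ i, (F i).IsHomogeneous d) (z v : V3) (x : ℂ)
    (k : ℕ) (hk : k ≤ d) (i : Fin 5) : ej F v k (x • z) i = x ^ (d - k) * ej F v k z i :=
  bJ2_eval_smul _ _ (bJ2_hom_iter v k _ _ (hF i)) x z

/-- J2b -/
theorem ej_smul_v (F : Fin 5 → P3) (z v : V3) (t : ℂ) (k : ℕ) (i : Fin 5) :
    ej F (t • v) k z i = t ^ k * ej F v k z i := by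
  have h1 : ∀ p : P3, dv (t • v) p = C t * dv v p := by
    intro p
    rw [bJ2_dv_apply, bJ2_dv_apply, Finset.mul_sum]
    refine Finset.sum_congr rfl fun j _ => ?_
    simp only [Pi.smul_apply, smul_eq_mul, C_mul]
    ring
  have h2 : ∀ (k : ℕ) (p : P3), (dv (t • v))^[k] p = C (t ^ k) * (dv v)^[k] p := by
    intro k
    induction k with
    | zero => intro p; simp
    | succ k ih =>
      intro p
      rw [Function.iterate_succ_apply', ih, Function.iterate_succ_apply', h1,
        Derivation.leibniz]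
      have h3 : dv v (C (t ^ k) : P3) = 0 := by
        rw [bJ2_dv_apply]
        exact Finset.sum_eq_zero fun j _ => by simp
      rw [h3, smul_zero, add_zero, smul_eq_mul, pow_succ', C_mul, ← mul_assoc]
  show eval z ((dv (t • v))^[k] (F i)) = _
  rw [h2, map_mul, eval_C]
  rfl

end Pool.Agent.Lib_helper86.D24

end

section

namespace Pool.Agent.Lib_helper86.D24

open MvPolynomial Matrix


private theorem bJ3_dv_apply (v : V3) (p : P3) : dv v p = ∑ j, C (v j) * pderiv j p := by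
  have : (dv v : P3 → P3) p = (∑ j, (C (v j) : P3) • (pderiv j : Derivation ℂ P3 P3)) p := rfl
  rw [this, Fin.sum_univ_three, Fin.sum_univ_three]
  simp [Derivation.add_apply, Derivation.smul_apply, smul_eq_mul]

private theorem bJ3_hom (v : V3) (p : P3) (n : ℕ) (hp : p.IsHomogeneous n) :
    (dv v p).IsHomogeneous (n - 1) := by
  rw [bJ3_dv_apply]
  refine IsHomogeneous.sum _ _ _ fun j _ => ?_
  have h := (isHomogeneous_C (Fin 3) (v j)).mul (hp.pderiv (i := j))
  rwa [zero_add] at h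

private theorem bJ3_lin (b c : V3) (ν : ℂ) (p : P3) :
    dv (ν • b - c) p = ν • dv b p - dv c p := by
  rw [bJ3_dv_apply, bJ3_dv_apply, bJ3_dv_apply, Finset.smul_sum, ← Finset.sum_sub_distrib]
  refine Finset.sum_congr rfl fun j _ => ?_
  simp only [Pi.sub_apply, Pi.smul_apply, smul_eq_mul, C_sub, C_mul, MvPolynomial.smul_eq_C_mul]
  ring

private theorem bJ3_iter_sub (v : V3) (ν : ℂ) (k : ℕ) : ∀ p q : P3,
    (dv v)^[k] (ν • p - q) = ν • (dv v)^[k] p - (dv v)^[k] q := by
  induction k with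
  | zero => intro p q; rfl
  | succ k ih =>
    intro p q
    rw [Function.iterate_succ_apply', ih, Function.iterate_succ_apply',
      Function.iterate_succ_apply', map_sub, Derivation.map_smul]

private theorem bJ3_base (p : P3) {d : ℕ} (hp : p.IsHomogeneous d) (a b : V3) :
    ∃ f : P2, f.degreeOf 1 ≤ 0 ∧ f.totalDegree ≤ d ∧
      ∀ x ν : ℂ, eval ![x, ν] f = eval (a + x • b) p := by
  have hd : ∀ i, (C (a i) + C (b i) * X 0 : P2).degreeOf 1 ≤ 0 := by
    intro i
    refine (degreeOf_add_le _ _ _).trans (max_le (by rw [degreeOf_C]) ?_)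
    refine (degreeOf_mul_le _ _ _).trans ?_
    rw [degreeOf_C, degreeOf_X]
    simp
  have ht : ∀ i, (C (a i) + C (b i) * X 0 : P2).totalDegree ≤ 1 := by
    intro i
    refine (totalDegree_add _ _).trans (max_le (by rw [totalDegree_C]; omega) ?_)
    refine (totalDegree_mul _ _).trans ?_
    rw [totalDegree_C, totalDegree_X]
  refine ⟨∑ m ∈ p.support, C (coeff m p) *
    ∏ i : Fin 3, (C (a i) + C (b i) * X 0 : P2) ^ (m i), ?_, ?_, ?_⟩
  · refine (degreeOf_sum_le _ _ _).trans (Finset.sup_le fun m _ => ?_)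
    refine (degreeOf_mul_le _ _ _).trans ?_
    rw [degreeOf_C, zero_add]
    refine (degreeOf_prod_le _ _ _).trans ?_
    refine le_of_eq (Finset.sum_eq_zero fun i _ => ?_)
    have := degreeOf_pow_le 1 (C (a i) + C (b i) * X 0 : P2) (m i)
    have h0 := hd i
    have : m i * degreeOf 1 (C (a i) + C (b i) * X 0 : P2) = 0 := by
      rw [Nat.le_zero.1 h0, mul_zero]
    omega
  · refine (totalDegree_finsetSum _ _).trans (Finset.sup_le fun m hm => ?_)
    refine (totalDegree_mul _ _).trans ?_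
    rw [totalDegree_C, zero_add]
    refine (totalDegree_finsetProd _ _).trans ?_
    have h1 : ∑ i, m i = d := by
      have := hp (mem_support_iff.1 hm)
      rw [← this]
      simp [Finsupp.weight_apply, Finsupp.sum_fintype]
    rw [← h1]
    refine Finset.sum_le_sum fun i _ => ?_
    refine (totalDegree_pow _ _).trans ?_
    calc m i * _ ≤ m i * 1 := Nat.mul_le_mul_left _ (ht i)
      _ = m i := mul_one _
  · intro x ν
    rw [map_sum, eval_eq']
    refine Finset.sum_congr rfl fun m _ => ?_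
    simp only [map_mul, eval_C, map_prod, map_pow, map_add, eval_X]
    congr 1
    refine Finset.prod_congr rfl fun i _ => ?_
    congr 1
    simp [mul_comm]

/-- J3 -/
theorem line_poly (p : P3) {d : ℕ} (hp : p.IsHomogeneous d) (a b c : V3) (k : ℕ) (hk : k ≤ d) :
    ∃ f : P2, f.degreeOf 1 ≤ k ∧ f.totalDegree ≤ d ∧
      ∀ x ν : ℂ, eval ![x, ν] f = eval (a + x • b) ((dv (ν • b - c))^[k] p) := by
  induction k generalizing p d with
  | zero => exact bJ3_base p hp a b
  | succ k ih =>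
    obtain ⟨f1, h1, h2, h3⟩ := ih (dv b p) (bJ3_hom b p d hp) (by omega)
    obtain ⟨f2, g1, g2, g3⟩ := ih (dv c p) (bJ3_hom c p d hp) (by omega)
    refine ⟨X 1 * f1 - f2, ?_, ?_, ?_⟩
    · refine (degreeOf_sub_le _ _ _).trans (max_le ?_ (by omega))
      refine (degreeOf_mul_le _ _ _).trans ?_
      rw [degreeOf_X]
      simp only [if_true]
      omega
    · refine (totalDegree_sub _ _).trans (max_le ?_ (by omega))
      refine (totalDegree_mul _ _).trans ?_
      rw [totalDegree_X]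
      omega
    · intro x ν
      rw [Function.iterate_succ_apply, bJ3_lin, bJ3_iter_sub, map_sub, map_sub, map_mul, eval_X,
        h3, g3, smul_eval]
      rfl

end Pool.Agent.Lib_helper86.D24

end

section

namespace Pool.Agent.Lib_helper86.D24

open MvPolynomial Matrix


/-- the restriction of a polynomial to the line through `z` with direction `v` -/
noncomputable def bJ4_res (z v : V3) : P3 →ₐ[ℂ] Polynomial ℂ :=
  aeval (fun j => Polynomial.C (z j) + Polynomial.X * Polynomial.C (v j))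

theorem bJ4_dv (v : V3) (p : P3) : dv v p = C (v 0) * pderiv 0 p + C (v 1) * pderiv 1 p +
    C (v 2) * pderiv 2 p := by
  simp [dv, Fin.sum_univ_three, Derivation.add_apply, Derivation.smul_apply]

theorem bJ4_dv_X (v : V3) (j : Fin 3) : dv v (X j) = C (v j) := by
  rw [bJ4_dv]
  fin_cases j <;> simp [pderiv_X]

theorem bJ4_dv_C (v : V3) (a : ℂ) : dv v (C a) = 0 := by
  rw [bJ4_dv]
  simp

theorem bJ4_der (z v : V3) (p : P3) :
    Polynomial.derivative (bJ4_res z v p) = bJ4_res z v (dv v p) := by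
  induction p using MvPolynomial.induction_on with
  | C a =>
    rw [bJ4_dv_C]
    simp [bJ4_res]
  | add p q hp hq => simp only [map_add, hp, hq]
  | mul_X p j hp =>
    rw [map_mul, Polynomial.derivative_mul, hp, Derivation.leibniz, bJ4_dv_X]
    simp only [smul_eq_mul, map_add, map_mul]
    simp [bJ4_res]
    ring

theorem bJ4_eval (z v : V3) (p : P3) (e : ℂ) :
    Polynomial.eval e (bJ4_res z v p) = eval (z + e • v) p := by
  induction p using MvPolynomial.induction_on with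
  | C a => simp [bJ4_res]
  | add p q hp hq => simp only [map_add, Polynomial.eval_add, hp, hq]
  | mul_X p j hp =>
    rw [map_mul, Polynomial.eval_mul, hp, map_mul, eval_X]
    congr 1
    simp [bJ4_res]
    ring

theorem bJ4_iter (z v : V3) (p : P3) (hp : bJ4_res z v p = 0) (k : ℕ) :
    bJ4_res z v ((dv v)^[k] p) = 0 := by
  induction k with
  | zero => simpa using hp
  | succ k ih =>
    rw [Function.iterate_succ_apply', ← bJ4_der, ih, Polynomial.derivative_zero]

theorem bJ4_lin (v : V3) (F : Fin 5 → P3) (c : Fin 5 → ℂ) (k : ℕ) :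
    (dv v)^[k] (∑ i, C (c i) * F i) = ∑ i, C (c i) * (dv v)^[k] (F i) := by
  induction k with
  | zero => simp
  | succ k ih =>
    rw [Function.iterate_succ_apply', ih, map_sum]
    refine Finset.sum_congr rfl fun i _ => ?_
    rw [Derivation.leibniz, bJ4_dv_C, Function.iterate_succ_apply']
    simp

/-- J4 -/
theorem orth_ej {F G : Fin 5 → P3} (h : ∀ z w : V3, z ⬝ᵥ w = 0 →
      ∑ i, eval z (F i) * eval w (G i) = 0) (z v w : V3) (hz : z ⬝ᵥ w = 0) (hv : v ⬝ᵥ w = 0)
    (k : ℕ) : ∑ i, ej F v k z i * eval w (G i) = 0 := by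
  have h0 : bJ4_res z v (∑ i, C (eval w (G i)) * F i) = 0 := by
    apply Polynomial.funext
    intro e
    rw [bJ4_eval, Polynomial.eval_zero, map_sum]
    have := h (z + e • v) w (by rw [add_dotProduct, smul_dotProduct, hz, hv]; simp)
    rw [← this]
    refine Finset.sum_congr rfl fun i _ => ?_
    rw [map_mul, eval_C, mul_comm]
  have h1 := bJ4_iter z v _ h0 k
  have h2 := bJ4_eval z v ((dv v)^[k] (∑ i, C (eval w (G i)) * F i)) 0
  rw [h1, Polynomial.eval_zero, bJ4_lin, map_sum] at h2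
  rw [h2]
  refine Finset.sum_congr rfl fun i _ => ?_
  rw [map_mul, eval_C, mul_comm, zero_smul, add_zero]
  rfl

end Pool.Agent.Lib_helper86.D24

end

section

namespace Pool.Agent.Lib_helper86.D24

open MvPolynomial Matrix


theorem bJ5_dv (v : V3) (p : P3) : dv v p = C (v 0) * pderiv 0 p + C (v 1) * pderiv 1 p +
    C (v 2) * pderiv 2 p := by
  simp [dv, Fin.sum_univ_three, Derivation.add_apply, Derivation.smul_apply]

theorem bJ5_dv_hom (v : V3) {p : P3} {n : ℕ} (hp : p.IsHomogeneous n) :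
    (dv v p).IsHomogeneous (n - 1) := by
  have key : ∀ j, (C (v j) * pderiv j p).IsHomogeneous (n - 1) := fun j => by
    have := (isHomogeneous_C (Fin 3) (v j)).mul (hp.pderiv (i := j))
    simpa using this
  rw [bJ5_dv]
  exact ((key 0).add (key 1)).add (key 2)

/-- J5 -/
theorem Yf_hom {F : Fin 5 → P3} (hF : ∀ i, (F i).IsHomogeneous 6) (v : V3)
    (s : Fin 3 → Fin 5) : (Yf F v s).IsHomogeneous 15 := by
  have h0 : ∀ i, ((dv v)^[0] (F i)).IsHomogeneous 6 := fun i => by simpa using hF i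
  have h1 : ∀ i, ((dv v)^[1] (F i)).IsHomogeneous 5 := fun i => by
    simpa using bJ5_dv_hom v (hF i)
  have h2 : ∀ i, ((dv v)^[2] (F i)).IsHomogeneous 4 := fun i => by
    have := bJ5_dv_hom v (bJ5_dv_hom v (hF i))
    simpa using this
  have e : Yf F v s = Matrix.det (Matrix.of fun (a b : Fin 3) => (dv v)^[(a : ℕ)] (F (s b))) := rfl
  have key : ∀ a b c, ((dv v)^[0] (F a) * (dv v)^[1] (F b) * (dv v)^[2] (F c)).IsHomogeneous 15 :=
    fun a b c => ((h0 a).mul (h1 b)).mul (h2 c)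
  have e2 : Yf F v s = (dv v)^[0] (F (s 0)) * (dv v)^[1] (F (s 1)) * (dv v)^[2] (F (s 2))
    - (dv v)^[0] (F (s 0)) * (dv v)^[1] (F (s 2)) * (dv v)^[2] (F (s 1))
    - (dv v)^[0] (F (s 1)) * (dv v)^[1] (F (s 0)) * (dv v)^[2] (F (s 2))
    + (dv v)^[0] (F (s 1)) * (dv v)^[1] (F (s 2)) * (dv v)^[2] (F (s 0))
    + (dv v)^[0] (F (s 2)) * (dv v)^[1] (F (s 0)) * (dv v)^[2] (F (s 1))
    - (dv v)^[0] (F (s 2)) * (dv v)^[1] (F (s 1)) * (dv v)^[2] (F (s 0)) := by
    rw [e, Matrix.det_fin_three]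
    simp only [Matrix.of_apply, Fin.val_zero, Fin.val_one, Fin.val_two]
  rw [e2]
  exact ((((((key _ _ _).sub (key _ _ _)).sub (key _ _ _)).add (key _ _ _)).add
    (key _ _ _))).sub (key _ _ _)

/-- J6 -/
theorem eval_Yf (F : Fin 5 → P3) (v z : V3) (s : Fin 3 → Fin 5) :
    eval z (Yf F v s) = mn (fun k : Fin 3 => ej F v (k : ℕ) z) s := by
  have e : Yf F v s = Matrix.det (Matrix.of fun (a b : Fin 3) => (dv v)^[(a : ℕ)] (F (s b))) := rfl
  rw [e, RingHom.map_det]
  rfl

/-- J7 -/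
theorem exists_Yf_ne {F : Fin 5 → P3} (h : ∃ (z v : V3) (s : Fin 4 → Fin 5),
    mn (fun k : Fin 4 => ej F v (k : ℕ) z) s ≠ 0) : ∃ v s, Yf F v s ≠ 0 := by
  obtain ⟨z, v, s, hs⟩ := h
  by_contra hc
  push Not at hc
  apply hs
  have e : mn (fun k : Fin 4 => ej F v (k : ℕ) z) s =
    Matrix.det (Matrix.of fun (a b : Fin 4) => ej F v (a : ℕ) z (s b)) := rfl
  rw [e, Matrix.det_succ_row _ (Fin.last 3)]
  apply Finset.sum_eq_zero
  intro j _
  have h3 : mn (fun k : Fin 3 => ej F v (k : ℕ) z) (fun b => s (j.succAbove b)) = 0 := by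
    rw [← eval_Yf, hc, map_zero]
  have h4 : ((Matrix.of fun (a b : Fin 4) => ej F v (a : ℕ) z (s b)).submatrix
      (Fin.last 3).succAbove j.succAbove).det = 0 := by
    rw [← h3]
    have e5 : mn (fun k : Fin 3 => ej F v (k : ℕ) z) (fun b => s (j.succAbove b)) =
      Matrix.det (Matrix.of fun (a b : Fin 3) => ej F v (a : ℕ) z (s (j.succAbove b))) := rfl
    rw [e5]
    congr 1
    ext a b
    have e6 : ((Fin.last 3).succAbove a : ℕ) = (a : ℕ) := by
      rw [Fin.succAbove_last]; rfl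
    simp only [Matrix.submatrix_apply, Matrix.of_apply, e6]
  rw [h4, mul_zero]

end Pool.Agent.Lib_helper86.D24

end

section

namespace Pool.Agent.Lib_helper86.D24

open MvPolynomial Matrix

/-- CH -/
theorem chart (P Q : P2) (n : ℕ) (h : ∀ x ν : ℂ, x ≠ 0 →
      eval ![x, ν] P = x ^ n * eval ![x⁻¹, ν * x⁻¹] Q) :
    P.totalDegree ≤ n ∧ ((∃ N : ℂ, eval ![0, N] Q ≠ 0) → P.totalDegree = n) := by
  classical
  obtain ⟨D, hD⟩ : ∃ D : ℕ, ∀ m ∈ Q.support, m 0 + m 1 ≤ D := by
    refine ⟨Q.support.sup fun m => m 0 + m 1, fun m hm => ?_⟩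
    exact Finset.le_sup (f := fun m : Fin 2 →₀ ℕ => m 0 + m 1) hm
  set R : P2 := ∑ m ∈ Q.support, C (Q.coeff m) * X 0 ^ (D - (m 0 + m 1)) * X 1 ^ (m 1) with hR
  have key : X 0 * (X 0 ^ D * P - X 0 ^ n * R) = 0 := by
    apply MvPolynomial.funext
    intro v
    obtain ⟨x, ν, rfl⟩ : ∃ x ν, v = ![x, ν] := ⟨v 0, v 1, by ext i; fin_cases i <;> rfl⟩
    by_cases hx : x = 0
    · subst hx; simp
    · rw [map_zero, map_mul, map_sub, map_mul, map_mul, h x ν hx]
      have h1 : eval ![x⁻¹, ν * x⁻¹] Q = ∑ m ∈ Q.support,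
          Q.coeff m * ((x⁻¹) ^ (m 0) * (ν * x⁻¹) ^ (m 1)) := by
        rw [eval_eq']
        refine Finset.sum_congr rfl fun m _ => ?_
        rw [Fin.prod_univ_two]
        rfl
      rw [h1, hR, map_sum]
      simp only [map_mul, map_pow, eval_X, eval_C, cons_val_zero, cons_val_one]
      rw [Finset.mul_sum, Finset.mul_sum, Finset.mul_sum, ← Finset.sum_sub_distrib,
        Finset.mul_sum]
      refine Finset.sum_eq_zero fun m hm => ?_
      have h2 := hD m hm
      obtain ⟨e, he⟩ := Nat.exists_eq_add_of_le h2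
      rw [he, Nat.add_sub_cancel_left, pow_add, pow_add, mul_pow, inv_pow, inv_pow]
      field_simp
      ring
  have key2 : X 0 ^ D * P = X 0 ^ n * R :=
    sub_eq_zero.1 ((mul_eq_zero.1 key).resolve_left (X_ne_zero 0))
  -- coefficients
  have hmon : ∀ a b : ℕ, (X 0 ^ a * X 1 ^ b : P2) =
      monomial (Finsupp.single 0 a + Finsupp.single 1 b) 1 := by
    intro a b
    rw [X_pow_eq_monomial, X_pow_eq_monomial, monomial_mul, one_mul]
  have hinj : ∀ a b c d : ℕ, (Finsupp.single (0 : Fin 2) a + Finsupp.single 1 b =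
      Finsupp.single 0 c + Finsupp.single 1 d) → a = c ∧ b = d := by
    intro a b c d hh
    have h1 := DFunLike.congr_fun hh 0
    have h2 := DFunLike.congr_fun hh 1
    simp at h1 h2
    exact ⟨h1, h2⟩
  have hrep : ∀ m : Fin 2 →₀ ℕ, m = Finsupp.single 0 (m 0) + Finsupp.single 1 (m 1) := by
    intro m
    ext i
    fin_cases i <;> simp
  have hRc : ∀ a b : ℕ, (X 0 ^ n * R).coeff (Finsupp.single 0 a + Finsupp.single 1 b) =
      ∑ m ∈ Q.support, if n + (D - (m 0 + m 1)) = a ∧ m 1 = b then Q.coeff m else 0 := by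
    intro a b
    rw [hR, Finset.mul_sum, coeff_sum]
    refine Finset.sum_congr rfl fun m _ => ?_
    have h1 : (X 0 ^ n * (C (Q.coeff m) * X 0 ^ (D - (m 0 + m 1)) * X 1 ^ (m 1)) : P2) =
        C (Q.coeff m) * (X 0 ^ (n + (D - (m 0 + m 1))) * X 1 ^ (m 1)) := by
      rw [pow_add]; ring
    rw [h1, hmon, coeff_C_mul, coeff_monomial]
    by_cases hc : n + (D - (m 0 + m 1)) = a ∧ m 1 = b
    · rw [if_pos hc, if_pos (by rw [hc.1, hc.2]), mul_one]
    · rw [if_neg hc, if_neg (fun hh => hc (hinj _ _ _ _ hh)), mul_zero]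
  have hPc : ∀ a b : ℕ, (X 0 ^ D * P).coeff (Finsupp.single 0 (D + a) + Finsupp.single 1 b) =
      P.coeff (Finsupp.single 0 a + Finsupp.single 1 b) := by
    intro a b
    rw [X_pow_eq_monomial, Finsupp.single_add, add_assoc, coeff_monomial_mul, one_mul]
  have hP : ∀ a b : ℕ, P.coeff (Finsupp.single 0 a + Finsupp.single 1 b) =
      ∑ m ∈ Q.support, if n + (D - (m 0 + m 1)) = D + a ∧ m 1 = b then Q.coeff m else 0 := by
    intro a b
    rw [← hPc, key2, hRc]
  have hle : P.totalDegree ≤ n := by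
    rw [MvPolynomial.totalDegree, Finset.sup_le_iff]
    intro m hm
    have h1 : P.coeff m ≠ 0 := mem_support_iff.1 hm
    rw [hrep m, hP] at h1
    obtain ⟨m', hm', h2⟩ := Finset.exists_ne_zero_of_sum_ne_zero h1
    have h3 : n + (D - (m' 0 + m' 1)) = D + m 0 ∧ m' 1 = m 1 := by
      by_contra hc
      exact h2 (if_neg hc)
    have h4 := hD m' hm'
    rw [hrep m]
    have : (Finsupp.single (0 : Fin 2) (m 0) + Finsupp.single 1 (m 1)).sum (fun _ e => e) =
        m 0 + m 1 := by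
      rw [← hrep m, Finsupp.sum_fintype _ _ (fun _ => rfl), Fin.sum_univ_two]
    rw [this]
    omega
  refine ⟨hle, ?_⟩
  rintro ⟨N, hN⟩
  refine le_antisymm hle ?_
  -- some coefficient of Q with m 0 = 0
  obtain ⟨m, hm, hm0⟩ : ∃ m ∈ Q.support, m 0 = 0 := by
    by_contra hc
    push Not at hc
    apply hN
    rw [eval_eq']
    refine Finset.sum_eq_zero fun m hm => ?_
    rw [Fin.prod_univ_two]
    simp [hc m hm]
  have hmc : Q.coeff m ≠ 0 := mem_support_iff.1 hm
  have huniq : ∀ a : ℕ, n + (D - (m 0 + m 1)) = a →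
      (∑ m' ∈ Q.support, if n + (D - (m' 0 + m' 1)) = a ∧ m' 1 = m 1 then Q.coeff m' else 0) =
        Q.coeff m := by
    intro a ha
    rw [Finset.sum_eq_single m]
    · rw [if_pos ⟨ha, rfl⟩]
    · intro m' hm' hne
      rw [if_neg]
      rintro ⟨h1, h2⟩
      apply hne
      have h3 := hD m' hm'
      have h4 := hD m hm
      rw [hrep m', hrep m, h2]
      have h5 : m' 0 = m 0 := by omega
      rw [h5]
    · intro hh
      exact absurd hm hh
  have hmD := hD m hm
  have hmn : m 1 ≤ n := by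
    by_contra hc
    have h1 : (X 0 ^ D * P).coeff (Finsupp.single 0 (n + (D - (m 0 + m 1))) +
        Finsupp.single 1 (m 1)) = Q.coeff m := by
      rw [key2, hRc, huniq _ rfl]
    rw [X_pow_eq_monomial, coeff_monomial_mul', if_neg] at h1
    · exact hmc h1.symm
    · intro hle
      have := hle 0
      simp at this
      omega
  have h1 : P.coeff (Finsupp.single 0 (n - m 1) + Finsupp.single 1 (m 1)) = Q.coeff m := by
    rw [hP, huniq]
    omega
  have h2 : (Finsupp.single (0 : Fin 2) (n - m 1) + Finsupp.single 1 (m 1)) ∈ P.support := by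
    rw [mem_support_iff, h1]
    exact hmc
  have h3 := le_totalDegree h2
  rw [Finsupp.sum_fintype _ _ (fun _ => rfl), Fin.sum_univ_two] at h3
  simp at h3
  omega

end Pool.Agent.Lib_helper86.D24

end

section

namespace Pool.Agent.Lib_helper86.D24

open MvPolynomial Matrix


/-- The linear substitution. -/
private noncomputable def bK1_w (a b c : V3) (j : Fin 3) : P2 :=
  C ((a ⨯₃ b) j) * X 1 + C ((c ⨯₃ a) j) - C ((b ⨯₃ c) j) * X 0

private lemma bK1_w_eval (a b c : V3) (x ν : ℂ) :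
    (fun j => eval ![x, ν] (bK1_w a b c j)) = (a + x • b) ⨯₃ (ν • b - c) := by
  funext j
  fin_cases j <;> simp [bK1_w, cross_apply] <;> ring

private lemma bK1_eval_aeval (w : Fin 3 → P2) (P : P3) (v : Fin 2 → ℂ) :
    eval v (aeval w P) = eval (fun j => eval v (w j)) P := by
  rw [aeval_def, eval₂_eq', map_sum, eval_eq']
  refine Finset.sum_congr rfl fun d _ => ?_
  rw [map_mul, map_prod]
  simp [MvPolynomial.algebraMap_eq]

private lemma bK1_totalDegree (w : Fin 3 → P2) (hw : ∀ j, (w j).totalDegree ≤ 1) {P : P3}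
    {n : ℕ} (hP : P.IsHomogeneous n) : (aeval w P : P2).totalDegree ≤ n := by
  rw [aeval_def, eval₂_eq']
  refine totalDegree_finsetSum_le fun d hd => ?_
  have h1 : d.degree = n := by
    have := hP (mem_support_iff.mp hd)
    rw [← this, Finsupp.degree_eq_weight_one]; rfl
  refine (totalDegree_mul _ _).trans ?_
  have h2 : (algebraMap ℂ P2 (coeff d P)).totalDegree = 0 := by
    rw [MvPolynomial.algebraMap_eq, totalDegree_C]
  rw [h2, zero_add]
  refine (totalDegree_finsetProd _ _).trans ?_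
  rw [← h1, Finsupp.degree_eq_sum]
  refine Finset.sum_le_sum fun i _ => ?_
  refine (totalDegree_pow _ _).trans ?_
  calc d i * (w i).totalDegree ≤ d i * 1 := Nat.mul_le_mul_left _ (hw i)
    _ = d i := mul_one _

private lemma bK1_w_deg (a b c : V3) (j : Fin 3) : (bK1_w a b c j).totalDegree ≤ 1 := by
  unfold bK1_w
  refine (totalDegree_sub _ _).trans (max_le ((totalDegree_add _ _).trans (max_le ?_ ?_)) ?_)
  · refine (totalDegree_mul _ _).trans ?_
    rw [totalDegree_C, totalDegree_X]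
  · rw [totalDegree_C]; exact Nat.zero_le _
  · refine (totalDegree_mul _ _).trans ?_
    rw [totalDegree_C, totalDegree_X]

/-- restriction to `x = 0`. -/
private noncomputable def bK1_psi : P2 →ₐ[ℂ] Polynomial ℂ := aeval ![0, Polynomial.X]

private lemma bK1_natDegree (p : P2) : (bK1_psi p).natDegree ≤ degreeOf 1 p := by
  unfold bK1_psi
  rw [aeval_def, eval₂_eq']
  refine Polynomial.natDegree_sum_le_of_forall_le _ _ fun d hd => ?_
  have h1 : d 1 ≤ degreeOf 1 p := monomial_le_degreeOf 1 hd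
  refine le_trans ?_ h1
  rw [Fin.prod_univ_two]
  simp only [Matrix.cons_val_zero, Matrix.cons_val_one]
  rcases Nat.eq_zero_or_pos (d 0) with h0 | h0
  · rw [h0, pow_zero, one_mul]
    refine (Polynomial.natDegree_mul_le).trans ?_
    have : ((algebraMap ℂ (Polynomial ℂ)) (coeff d p)).natDegree = 0 := by
      rw [Polynomial.algebraMap_eq, Polynomial.natDegree_C]
    rw [this, zero_add, Polynomial.natDegree_X_pow]
  · rw [zero_pow (by omega), zero_mul, mul_zero]
    simp

private lemma bK1_coeff (u v : V3) {P : P3} {n : ℕ} (hP : P.IsHomogeneous n) :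
    (aeval (fun j => Polynomial.C (u j) * Polynomial.X + Polynomial.C (v j)) P :
      Polynomial ℂ).coeff n = eval u P := by
  rw [aeval_def, eval₂_eq', Polynomial.finsetSum_coeff, eval_eq']
  refine Finset.sum_congr rfl fun d hd => ?_
  have h1 : d.degree = n := by
    have := hP (mem_support_iff.mp hd)
    rw [← this, Finsupp.degree_eq_weight_one]; rfl
  rw [Polynomial.algebraMap_eq, Polynomial.coeff_C_mul]
  congr 1
  have hlin : ∀ j : Fin 3, (Polynomial.C (u j) * Polynomial.X + Polynomial.C (v j)).natDegree ≤ 1 := by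
    intro j
    exact Polynomial.natDegree_linear_le
  have hpow : ∀ j : Fin 3, ((Polynomial.C (u j) * Polynomial.X + Polynomial.C (v j)) ^ d j).natDegree
      ≤ d j := by
    intro j
    refine (Polynomial.natDegree_pow_le).trans ?_
    calc d j * _ ≤ d j * 1 := Nat.mul_le_mul_left _ (hlin j)
      _ = d j := mul_one _
  have hc : ∀ j : Fin 3, ((Polynomial.C (u j) * Polynomial.X + Polynomial.C (v j)) ^ d j).coeff (d j)
      = u j ^ d j := by
    intro j
    have := Polynomial.coeff_pow_of_natDegree_le (m := d j) (hlin j)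
    rw [mul_one] at this
    rw [this]
    simp
  have hn : n = d 0 + d 1 + d 2 := by
    rw [← h1, Finsupp.degree_eq_sum, Fin.sum_univ_three]
  rw [Fin.prod_univ_three, Fin.prod_univ_three, hn]
  have h01 : ((Polynomial.C (u 0) * Polynomial.X + Polynomial.C (v 0)) ^ d 0 *
      (Polynomial.C (u 1) * Polynomial.X + Polynomial.C (v 1)) ^ d 1).natDegree ≤ d 0 + d 1 :=
    (Polynomial.natDegree_mul_le).trans (add_le_add (hpow 0) (hpow 1))
  rw [Polynomial.coeff_mul_add_eq_of_natDegree_le h01 (hpow 2),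
    Polynomial.coeff_mul_add_eq_of_natDegree_le (hpow 0) (hpow 1), hc 0, hc 1, hc 2]

/-- zeros of a polynomial of positive degree in `X 0` -/
private lemma bK1_zeros0 (r : P2) (hr : 0 < degreeOf 0 r) : {p : ℂ × ℂ | eval ![p.1, p.2] r = 0}.Infinite := by
  set R := finSuccEquiv ℂ 1 r with hR
  have hd : R.natDegree = degreeOf 0 r := natDegree_finSuccEquiv r
  have hL : R.leadingCoeff ≠ 0 := by
    rw [Polynomial.leadingCoeff_ne_zero]
    intro h0
    rw [h0, Polynomial.natDegree_zero] at hd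
    omega
  -- infinitely many `y` with non-vanishing leading coefficient
  have hinf : {y : ℂ | eval ![y] R.leadingCoeff ≠ 0}.Infinite := by
    intro hfin
    set L := R.leadingCoeff with hLdef
    have hz : L * ∏ y ∈ hfin.toFinset, (X 0 - C y) = 0 := by
      apply MvPolynomial.funext
      intro s
      rw [map_mul, map_prod, map_zero]
      have hs : s = ![s 0] := by
        funext i; fin_cases i; rfl
      by_cases h0 : eval s L = 0
      · rw [h0, zero_mul]
      · have hmem : s 0 ∈ hfin.toFinset := by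
          rw [Set.Finite.mem_toFinset]
          show eval ![s 0] L ≠ 0
          rw [← hs]; exact h0
        rw [Finset.prod_eq_zero hmem, mul_zero]
        simp
    rcases mul_eq_zero.mp hz with h | h
    · exact hL h
    · rw [Finset.prod_eq_zero_iff] at h
      obtain ⟨y, -, hy⟩ := h
      have := congrArg (eval ![y + 1]) hy
      simp at this
  have hsub : {y : ℂ | eval ![y] R.leadingCoeff ≠ 0} ⊆
      Prod.snd '' {p : ℂ × ℂ | eval ![p.1, p.2] r = 0} := by
    intro y hy
    have hy' : eval ![y] R.leadingCoeff ≠ 0 := hy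
    have hdeg : (Polynomial.map (eval ![y]) R).natDegree = R.natDegree :=
      Polynomial.natDegree_map_of_leadingCoeff_ne_zero _ hy'
    obtain ⟨x, hx⟩ := IsAlgClosed.exists_root (Polynomial.map (eval ![y]) R) (by
      intro h
      have := Polynomial.natDegree_eq_zero_iff_degree_le_zero.mpr h.le
      omega)
    refine ⟨(x, y), ?_, rfl⟩
    show eval ![x, y] r = 0
    have h2 := eval_eq_eval_mv_eval' ![y] x r
    have h3 : (Fin.cons x ![y] : Fin 2 → ℂ) = ![x, y] := by
      funext i; fin_cases i <;> rfl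
    rw [h3] at h2
    rw [h2]
    exact hx
  exact (hinf.mono hsub).of_image _

private lemma bK1_zeros (r : P2) (hr0 : r ≠ 0) (hr : ¬ IsUnit r) :
    {p : ℂ × ℂ | eval ![p.1, p.2] r = 0}.Infinite := by
  by_cases h0 : 0 < degreeOf 0 r
  · exact bK1_zeros0 r h0
  by_cases h1 : 0 < degreeOf 1 r
  · have hinj : Function.Injective (Equiv.swap (0 : Fin 2) 1) := (Equiv.swap (0 : Fin 2) 1).injective
    have h2 : 0 < degreeOf 0 (rename (Equiv.swap (0 : Fin 2) 1) r) := by
      have := degreeOf_rename_of_injective (p := r) hinj 1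
      rw [Equiv.swap_apply_right] at this
      rw [this]; exact h1
    have h3 := bK1_zeros0 _ h2
    have h4 : {p : ℂ × ℂ | eval ![p.1, p.2] (rename (Equiv.swap (0 : Fin 2) 1) r) = 0} =
        Prod.swap '' {p : ℂ × ℂ | eval ![p.1, p.2] r = 0} := by
      ext ⟨x, y⟩
      constructor
      · intro h
        refine ⟨(y, x), ?_, rfl⟩
        have h' : eval ![x, y] (rename (Equiv.swap (0 : Fin 2) 1) r) = 0 := h
        rw [eval_rename] at h'
        show eval ![y, x] r = 0
        rw [← h']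
        congr 2
        funext i; fin_cases i <;> simp
      · rintro ⟨⟨y', x'⟩, h, he⟩
        have h' : eval ![y', x'] r = 0 := h
        simp only [Prod.swap_prod_mk, Prod.mk.injEq] at he
        obtain ⟨rfl, rfl⟩ := he
        show eval ![x', y'] (rename (Equiv.swap (0 : Fin 2) 1) r) = 0
        rw [eval_rename, ← h']
        congr 2
        funext i; fin_cases i <;> simp
    rw [h4] at h3
    exact h3.of_image _
  · exfalso
    apply hr
    have hC : r = C (coeff 0 r) := by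
      ext m
      rw [coeff_C]
      by_cases hm : 0 = m
      · rw [if_pos hm, ← hm]
      · rw [if_neg hm]
        by_contra hne
        have hs : m ∈ r.support := mem_support_iff.mpr hne
        have ha := monomial_le_degreeOf (0 : Fin 2) hs
        have hb := monomial_le_degreeOf (1 : Fin 2) hs
        apply hm
        ext i
        fin_cases i
        · show (0 : ℕ) = m 0
          omega
        · show (0 : ℕ) = m 1
          omega
    rw [hC]
    have hc : coeff 0 r ≠ 0 := by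
      intro h
      rw [h, C_0] at hC
      exact hr0 hC
    exact (isUnit_iff_ne_zero.mpr hc).map C

/-- K1 (uses E2) -/
theorem cfg_g {F G : Fin 5 → P3} {a b c : V3} (hG : ∀ i, (G i).IsHomogeneous 6) (hp : Prim G)
    (h : Config F G a b c) : ∃ g : Fin 5 → P2,
      (∀ x ν : ℂ, ∀ i, eval ![x, ν] (g i) = eval ((a + x • b) ⨯₃ (ν • b - c)) (G i)) ∧
      (∀ i, (g i).totalDegree ≤ 6) ∧ (∃ i, (g i).degreeOf 1 = 6) ∧ Prim g := by
  have heval : ∀ x ν : ℂ, ∀ i, eval ![x, ν] (aeval (bK1_w a b c) (G i) : P2) =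
      eval ((a + x • b) ⨯₃ (ν • b - c)) (G i) := by
    intro x ν i
    rw [bK1_eval_aeval, bK1_w_eval]
  have htd : ∀ i, (aeval (bK1_w a b c) (G i) : P2).totalDegree ≤ 6 := fun i =>
    bK1_totalDegree _ (bK1_w_deg a b c) (hG i)
  have htop : ∃ i, degreeOf 1 (aeval (bK1_w a b c) (G i) : P2) = 6 := by
    obtain ⟨i, hi⟩ := h.Gab
    refine ⟨i, le_antisymm ((degreeOf_le_totalDegree _ _).trans (htd i)) ?_⟩
    have h1 := bK1_natDegree (aeval (bK1_w a b c) (G i))
    refine le_trans ?_ h1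
    have h2 : bK1_psi (aeval (bK1_w a b c) (G i)) =
        aeval (fun j => Polynomial.C ((a ⨯₃ b) j) * Polynomial.X + Polynomial.C ((c ⨯₃ a) j)) (G i) := by
      have : bK1_psi.comp (aeval (bK1_w a b c)) =
          aeval (fun j => Polynomial.C ((a ⨯₃ b) j) * Polynomial.X + Polynomial.C ((c ⨯₃ a) j)) := by
        apply MvPolynomial.algHom_ext
        intro j
        simp only [AlgHom.comp_apply, aeval_X]
        unfold bK1_psi bK1_w
        simp
      exact DFunLike.congr_fun this (G i)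
    rw [h2]
    apply Polynomial.le_natDegree_of_ne_zero
    rw [bK1_coeff _ _ (hG i)]
    exact hi
  refine ⟨fun i => aeval (bK1_w a b c) (G i), heval, htd, htop, ?_⟩
  intro r hr
  by_contra hu
  have hr0 : r ≠ 0 := by
    intro h0
    obtain ⟨i, hi⟩ := htop
    have := hr i
    rw [h0, zero_dvd_iff] at this
    simp only at this
    rw [this] at hi
    simp at hi
  have hinf := bK1_zeros r hr0 hu
  obtain ⟨Z, hZ0, hZ⟩ := finite_zeros G (fun i => ⟨6, hG i⟩) hp
  apply hinf
  set D : ℂ := (a ⨯₃ b) ⬝ᵥ c with hD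
  refine (Z.image (fun y : V3 => (-(D / (y ⬝ᵥ b)) * (y ⬝ᵥ a) / D, (D / (y ⬝ᵥ b)) * (y ⬝ᵥ c) / D))).finite_toSet.subset ?_
  rintro ⟨x, ν⟩ hx
  have hx' : eval ![x, ν] r = 0 := hx
  set w : V3 := (a + x • b) ⨯₃ (ν • b - c) with hw
  have hwb : w ⬝ᵥ b = D := by
    rw [hw, hD]
    simp [cross_apply, dotProduct, Fin.sum_univ_three]
    ring
  have hwa : w ⬝ᵥ a = -x * D := by
    rw [hw, hD]
    simp [cross_apply, dotProduct, Fin.sum_univ_three]
    ring
  have hwc : w ⬝ᵥ c = ν * D := by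
    rw [hw, hD]
    simp [cross_apply, dotProduct, Fin.sum_univ_three]
    ring
  have hD0 : D ≠ 0 := h.det
  have hw0 : w ≠ 0 := by
    intro h0
    rw [h0, zero_dotProduct] at hwb
    exact hD0 hwb.symm
  have hzero : ∀ i, eval w (G i) = 0 := by
    intro i
    obtain ⟨q, hq⟩ := hr i
    have h1 := heval x ν i
    simp only at hq
    rw [hq, map_mul, hx', zero_mul] at h1
    exact h1.symm
  obtain ⟨y, hy, t, ht⟩ := hZ w hw0 hzero
  rw [ht, smul_dotProduct, smul_eq_mul] at hwb hwa hwc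
  have hyb : y ⬝ᵥ b ≠ 0 := by
    intro h0
    rw [h0, mul_zero] at hwb
    exact hD0 hwb.symm
  have htt : t = D / (y ⬝ᵥ b) := by
    rw [← hwb]; field_simp
  rw [Finset.coe_image]
  refine ⟨y, hy, ?_⟩
  simp only
  rw [← htt]
  refine Prod.ext ?_ ?_
  · show -t * (y ⬝ᵥ a) / D = x
    rw [neg_mul, hwa]; field_simp
  · show t * (y ⬝ᵥ c) / D = ν
    rw [hwc]; field_simp

end Pool.Agent.Lib_helper86.D24

end

section

namespace Pool.Agent.Lib_helper86.D24

open MvPolynomial Matrix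


private theorem bK2_basis (z u c v : V3) (hd : (z ⨯₃ u) ⬝ᵥ c ≠ 0) :
    ∃ α β γ : ℂ, v = (β • u + γ • c) + α • z := by
  have key : ((z ⨯₃ u) ⬝ᵥ c) • v =
      (((z ⨯₃ v) ⬝ᵥ c) • u + ((z ⨯₃ u) ⬝ᵥ v) • c) + ((v ⨯₃ u) ⬝ᵥ c) • z := by
    simp only [cross_apply, vec3_dotProduct, cons_val_zero, cons_val_one, cons_val]
    ext i
    fin_cases i <;> simp <;> ring
  refine ⟨((z ⨯₃ u) ⬝ᵥ c)⁻¹ * ((v ⨯₃ u) ⬝ᵥ c), ((z ⨯₃ u) ⬝ᵥ c)⁻¹ * ((z ⨯₃ v) ⬝ᵥ c),
    ((z ⨯₃ u) ⬝ᵥ c)⁻¹ * ((z ⨯₃ u) ⬝ᵥ v), ?_⟩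
  calc v = ((z ⨯₃ u) ⬝ᵥ c)⁻¹ • (((z ⨯₃ u) ⬝ᵥ c) • v) := by
        rw [smul_smul, inv_mul_cancel₀ hd, one_smul]
    _ = _ := by rw [key, smul_add, smul_add, smul_smul, smul_smul, smul_smul]

private theorem bK2_one {R : Type*} [CommRing R] (f : Fin 1 → Fin 5 → R) (s : Fin 1 → Fin 5) :
    mn f s = f 0 (s 0) :=
  Matrix.det_fin_one (Matrix.of fun a b => f a (s b))

private theorem bK2_two {R : Type*} [CommRing R] (f : Fin 2 → Fin 5 → R) (s : Fin 2 → Fin 5) :
    mn f s = f 0 (s 0) * f 1 (s 1) - f 0 (s 1) * f 1 (s 0) :=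
  Matrix.det_fin_two (Matrix.of fun a b => f a (s b))

private theorem bK2_three {R : Type*} [CommRing R] (f : Fin 3 → Fin 5 → R) (s : Fin 3 → Fin 5) :
    mn f s = f 0 (s 0) * f 1 (s 1) * f 2 (s 2) - f 0 (s 0) * f 1 (s 2) * f 2 (s 1) -
      f 0 (s 1) * f 1 (s 0) * f 2 (s 2) + f 0 (s 1) * f 1 (s 2) * f 2 (s 0) +
      f 0 (s 2) * f 1 (s 0) * f 2 (s 1) - f 0 (s 2) * f 1 (s 1) * f 2 (s 0) :=
  Matrix.det_fin_three (Matrix.of fun a b => f a (s b))

private theorem bK2_smul_v {m : ℕ} (F : Fin 5 → P3) (z w : V3) (t : ℂ) (s : Fin m → Fin 5) :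
    mn (fun k : Fin m => ej F (t • w) (k : ℕ) z) s =
      (∏ k : Fin m, t ^ (k : ℕ)) * mn (fun k : Fin m => ej F w (k : ℕ) z) s := by
  have h := Matrix.det_mul_column (fun k : Fin m => t ^ (k : ℕ))
    (Matrix.of fun p q : Fin m => ej F w (p : ℕ) z (s q))
  refine Eq.trans ?_ h
  unfold mn
  congr 1
  ext p q
  exact ej_smul_v F z w t p (s q)

private theorem bK2_smul_z {m d : ℕ} (F : Fin 5 → P3) (hF : ∀ i, (F i).IsHomogeneous d) (hm : m ≤ d)
    (z w : V3) (x : ℂ) (s : Fin m → Fin 5) :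
    mn (fun k : Fin m => ej F w (k : ℕ) (x • z)) s =
      (∏ k : Fin m, x ^ (d - (k : ℕ))) * mn (fun k : Fin m => ej F w (k : ℕ) z) s := by
  have h := Matrix.det_mul_column (fun k : Fin m => x ^ (d - (k : ℕ)))
    (Matrix.of fun p q : Fin m => ej F w (p : ℕ) z (s q))
  refine Eq.trans ?_ h
  unfold mn
  congr 1
  ext p q
  exact ej_smul_z F hF z w x p (by omega) (s q)

private theorem bK2_key {F : Fin 5 → P3} (hF : ∀ i, (F i).IsHomogeneous 6) (z u c : V3)
    (hd : (z ⨯₃ u) ⬝ᵥ c ≠ 0) (v : V3) (s : Fin 3 → Fin 5) (h : eval z (Yf F v s) ≠ 0) :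
    ∃ M : ℂ, mn (fun k : Fin 3 => ej F (M • u - c) (k : ℕ) z) s ≠ 0 := by
  obtain ⟨α, β, γ, rfl⟩ := bK2_basis z u c v hd
  rw [eval_Yf, mn_shift F hF] at h
  have hcont : Continuous fun g : ℂ => mn (fun k : Fin 3 => ej F (β • u + g • c) (k : ℕ) z) s := by
    unfold mn
    refine Continuous.matrix_det ?_
    refine continuous_matrix ?_
    intro p q
    obtain ⟨f, -, -, hf⟩ := line_poly (F (s q)) (hF _) z c (-(β • u)) p (by omega)
    have : (fun g : ℂ => ej F (β • u + g • c) (p : ℕ) z (s q)) = fun g : ℂ => eval ![0, g] f := by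
      funext g
      rw [hf]
      simp only [ej]
      congr 2
      · simp
      · congr 1
        rw [sub_neg_eq_add, add_comm]
    rw [this]
    refine (MvPolynomial.continuous_eval f).comp ?_
    refine continuous_pi ?_
    intro i
    fin_cases i
    · simpa using continuous_const
    · simpa using (continuous_id' : Continuous fun a : ℂ => a)
  have hopen : IsOpen {g : ℂ | mn (fun k : Fin 3 => ej F (β • u + g • c) (k : ℕ) z) s ≠ 0} :=
    isOpen_ne.preimage hcont
  obtain ⟨g, hg0, hg⟩ := (dense_compl_singleton (0 : ℂ)).exists_mem_open hopen ⟨γ, h⟩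
  refine ⟨-β / g, ?_⟩
  intro h0
  have hg0' : g ≠ 0 := hg0
  have hw : β • u + g • c = (-g) • ((-β / g) • u - c) := by
    ext i
    simp
    field_simp
    ring
  apply hg
  rw [hw, bK2_smul_v, h0, mul_zero]

/-- K2 (uses J1, J2, J3, J6, CH) -/
theorem cfg_f {F G : Fin 5 → P3} {a b c : V3} (hF : ∀ i, (F i).IsHomogeneous 6)
    (h : Config F G a b c) : ∃ f : Fin 4 → Fin 5 → P2,
      (∀ x ν : ℂ, ∀ k i, eval ![x, ν] (f k i) = ej F (ν • b - c) (k : ℕ) (a + x • b) i) ∧
      (∀ k i, (f k i).degreeOf 1 ≤ (k : ℕ)) ∧ (∀ i, (f 0 i).totalDegree ≤ 6) ∧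
      (∃ i, (f 0 i).totalDegree = 6) ∧ (∀ s, (mn ![f 0, f 1] s).totalDegree ≤ 11) ∧
      (∃ s, (mn ![f 0, f 1] s).totalDegree = 11) ∧
      (∀ s, (mn ![f 0, f 1, f 2] s).totalDegree ≤ 15) ∧
      (∃ s, (mn ![f 0, f 1, f 2] s).totalDegree = 15) ∧ (∃ s, mn f s ≠ 0) ∧
      ∀ x : ℂ, ∃ (s : Fin 3 → Fin 5) (ν : ℂ), eval ![x, ν] (mn ![f 0, f 1, f 2] s) ≠ 0 := by
  classical
  have hchoose : ∀ (k : Fin 4) (i : Fin 5), ∃ f : P2, f.degreeOf 1 ≤ (k : ℕ) ∧ f.totalDegree ≤ 6 ∧
      ∀ x ν : ℂ, eval ![x, ν] f = eval (a + x • b) ((dv (ν • b - c))^[(k : ℕ)] (F i)) :=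
    fun k i => line_poly (F i) (hF i) a b c k (by omega)
  choose f hf1 hf2 hf3 using hchoose
  have hchoose' : ∀ (k : Fin 4) (i : Fin 5), ∃ f : P2, f.degreeOf 1 ≤ (k : ℕ) ∧ f.totalDegree ≤ 6 ∧
      ∀ x ν : ℂ, eval ![x, ν] f = eval (b + x • a) ((dv (ν • a - c))^[(k : ℕ)] (F i)) :=
    fun k i => line_poly (F i) (hF i) b a c k (by omega)
  choose g hg1 hg2 hg3 using hchoose'
  have hfe : ∀ x ν : ℂ, ∀ k i, eval ![x, ν] (f k i) = ej F (ν • b - c) (k : ℕ) (a + x • b) i :=
    fun x ν k i => hf3 k i x ν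
  have hge : ∀ x ν : ℂ, ∀ k i, eval ![x, ν] (g k i) = ej F (ν • a - c) (k : ℕ) (b + x • a) i :=
    fun x ν k i => hg3 k i x ν
  -- the sign change
  let σ : P2 →ₐ[ℂ] P2 := aeval ![X 0, -X 1]
  have hσ : ∀ (x ν : ℂ) (p : P2), eval ![x, ν] (σ p) = eval ![x, -ν] p := by
    intro x ν p
    have : ((aeval ![x, ν] : P2 →ₐ[ℂ] ℂ).comp σ) = (aeval ![x, -ν] : P2 →ₐ[ℂ] ℂ) := by
      apply MvPolynomial.algHom_ext
      intro i
      fin_cases i <;> simp [σ]
    have h2 := congrArg (fun φ : P2 →ₐ[ℂ] ℂ => φ p) this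
    simpa [MvPolynomial.aeval_eq_eval] using h2
  -- general evaluation of minors
  have hmnf : ∀ (x ν : ℂ) (m : ℕ) (hm : m ≤ 4) (s : Fin m → Fin 5),
      eval ![x, ν] (mn (fun k : Fin m => f (Fin.castLE hm k)) s) =
        mn (fun k : Fin m => ej F (ν • b - c) (k : ℕ) (a + x • b)) s := by
    intro x ν m hm s
    have h := RingHom.map_det (eval ![x, ν])
      (Matrix.of fun p q : Fin m => f (Fin.castLE hm p) (s q))
    refine Eq.trans h ?_
    unfold mn
    congr 1
    ext p q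
    simp [hfe]
  have hmng : ∀ (x ν : ℂ) (m : ℕ) (hm : m ≤ 4) (s : Fin m → Fin 5),
      eval ![x, ν] (mn (fun k : Fin m => g (Fin.castLE hm k)) s) =
        mn (fun k : Fin m => ej F (ν • a - c) (k : ℕ) (b + x • a)) s := by
    intro x ν m hm s
    have h := RingHom.map_det (eval ![x, ν])
      (Matrix.of fun p q : Fin m => g (Fin.castLE hm p) (s q))
    refine Eq.trans h ?_
    unfold mn
    congr 1
    ext p q
    simp [hge]
  have hchart : ∀ (m : ℕ) (hm : m ≤ 4) (s : Fin m → Fin 5) (x ν : ℂ), x ≠ 0 →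
      eval ![x, ν] (mn (fun k : Fin m => f (Fin.castLE hm k)) s) =
        x ^ (∑ k : Fin m, (6 - (k : ℕ))) *
          eval ![x⁻¹, ν * x⁻¹] (σ (mn (fun k : Fin m => g (Fin.castLE hm k)) s)) := by
    intro m hm s x ν hx
    rw [hmnf, hσ, hmng]
    have hz : a + x • b = x • (b + x⁻¹ • a) := by
      ext i
      simp
      field_simp
      ring
    have hv : ν • b - c = (-(ν * x⁻¹) • a - c) + ν • (b + x⁻¹ • a) := by
      ext i
      simp
      ring
    rw [hz, bK2_smul_z F hF (by omega), hv, mn_shift F hF, Finset.prod_pow_eq_pow_sum]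
  have e1 : ∀ (i : Fin 5), mn (fun k : Fin 1 => f (Fin.castLE (by norm_num) k)) ![i] = f 0 i := by
    intro i
    rw [bK2_one]
    rfl
  have e1g : ∀ (i : Fin 5), mn (fun k : Fin 1 => g (Fin.castLE (by norm_num) k)) ![i] = g 0 i := by
    intro i
    rw [bK2_one]
    rfl
  have e2 : ∀ s, mn ![f 0, f 1] s = mn (fun k : Fin 2 => f (Fin.castLE (by norm_num) k)) s := by
    intro s
    congr 1
    ext p q
    fin_cases p <;> rfl
  have e3 : ∀ s, mn ![f 0, f 1, f 2] s =
      mn (fun k : Fin 3 => f (Fin.castLE (by norm_num) k)) s := by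
    intro s
    congr 1
    ext p q
    fin_cases p <;> rfl
  have e4 : ∀ s, mn f s = mn (fun k : Fin 4 => f (Fin.castLE (by norm_num) k)) s := by
    intro s
    congr 1
  have hdba : (b ⨯₃ a) ⬝ᵥ c ≠ 0 := by
    intro h0
    apply h.det
    simp only [cross_apply, vec3_dotProduct, cons_val_zero, cons_val_one, cons_val] at h0 ⊢
    linear_combination -h0
  -- a minor of the second chart
  obtain ⟨s3, M3, hM3⟩ : ∃ (s : Fin 3 → Fin 5) (M : ℂ),
      mn (fun k : Fin 3 => ej F (M • a - c) (k : ℕ) b) s ≠ 0 := by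
    obtain ⟨v, s, hv⟩ := h.Yl 0 1 (Or.inr one_ne_zero)
    have : (0 : ℂ) • a + (1 : ℂ) • b = b := by simp
    rw [this] at hv
    obtain ⟨M, hM⟩ := bK2_key hF b a c hdba v s hv
    exact ⟨s, M, hM⟩
  obtain ⟨s2, hs2⟩ : ∃ s : Fin 2 → Fin 5,
      mn (fun k : Fin 2 => ej F (M3 • a - c) (k : ℕ) b) s ≠ 0 := by
    by_contra hcon
    push Not at hcon
    apply hM3
    have h01 := hcon ![s3 0, s3 1]
    have h02 := hcon ![s3 0, s3 2]
    have h12 := hcon ![s3 1, s3 2]
    rw [bK2_two] at h01 h02 h12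
    rw [bK2_three]
    simp only [cons_val_zero, cons_val_one, Fin.val_zero, Fin.val_one, Fin.val_two] at h01 h02 h12 ⊢
    linear_combination (ej F (M3 • a - c) 2 b (s3 2)) * h01 -
      (ej F (M3 • a - c) 2 b (s3 1)) * h02 + (ej F (M3 • a - c) 2 b (s3 0)) * h12
  refine ⟨f, hfe, hf1, fun i => hf2 0 i, ?_, ?_, ?_, ?_, ?_, ?_, ?_⟩
  · obtain ⟨i, hi⟩ := h.Fb
    refine ⟨i, ?_⟩
    have hc := (chart (f 0 i) (σ (g 0 i)) 6 ?_).2
    · apply hc
      refine ⟨0, ?_⟩
      rw [hσ, hge]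
      simpa [ej] using hi
    · intro x ν hx
      have := hchart 1 (by norm_num) ![i] x ν hx
      rw [e1, e1g] at this
      simpa using this
  · intro s
    refine (chart _ (σ (mn (fun k : Fin 2 => g (Fin.castLE (by norm_num) k)) s)) 11 ?_).1
    intro x ν hx
    rw [e2]
    have := hchart 2 (by norm_num) s x ν hx
    simpa [Fin.sum_univ_two] using this
  · refine ⟨s2, ?_⟩
    refine (chart _ (σ (mn (fun k : Fin 2 => g (Fin.castLE (by norm_num) k)) s2)) 11 ?_).2 ?_
    · intro x ν hx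
      rw [e2]
      have := hchart 2 (by norm_num) s2 x ν hx
      simpa [Fin.sum_univ_two] using this
    · refine ⟨-M3, ?_⟩
      rw [hσ, hmng]
      simpa using hs2
  · intro s
    refine (chart _ (σ (mn (fun k : Fin 3 => g (Fin.castLE (by norm_num) k)) s)) 15 ?_).1
    intro x ν hx
    rw [e3]
    have := hchart 3 (by norm_num) s x ν hx
    simpa [Fin.sum_univ_three] using this
  · refine ⟨s3, ?_⟩
    refine (chart _ (σ (mn (fun k : Fin 3 => g (Fin.castLE (by norm_num) k)) s3)) 15 ?_).2 ?_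
    · intro x ν hx
      rw [e3]
      have := hchart 3 (by norm_num) s3 x ν hx
      simpa [Fin.sum_univ_three] using this
    · refine ⟨-M3, ?_⟩
      rw [hσ, hmng]
      simpa using hM3
  · obtain ⟨s, hs⟩ := h.Wac
    refine ⟨s, ?_⟩
    intro h0
    apply hs
    have := hmnf 0 0 4 le_rfl s
    rw [← e4, h0] at this
    simpa using this.symm
  · intro x
    obtain ⟨v, s, hv⟩ := h.Yl 1 x (Or.inl one_ne_zero)
    rw [one_smul] at hv
    have hd : ((a + x • b) ⨯₃ b) ⬝ᵥ c ≠ 0 := by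
      intro h0
      apply h.det
      simp only [cross_apply, vec3_dotProduct, cons_val_zero, cons_val_one, cons_val,
        Pi.add_apply, Pi.smul_apply, smul_eq_mul] at h0 ⊢
      linear_combination h0
    obtain ⟨M, hM⟩ := bK2_key hF (a + x • b) b c hd v s hv
    refine ⟨s, M, ?_⟩
    rw [e3, hmnf]
    exact hM

end Pool.Agent.Lib_helper86.D24

end

section

namespace Pool.Agent.Lib_helper86.D24

open MvPolynomial Matrix


/-- generic points -/
private def K3G (S : V3 → Prop) : Prop := ∃ p : P3, p ≠ 0 ∧ ∀ z, eval z p ≠ 0 → S z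

private theorem K3_exists {S : V3 → Prop} (h : K3G S) : ∃ z, S z := by
  obtain ⟨p, hp, hS⟩ := h
  by_contra hc
  push Not at hc
  apply hp
  apply MvPolynomial.funext
  intro z
  by_contra hz
  exact hc z (hS z (by simpa using hz))

private theorem K3_and {S T : V3 → Prop} (h : K3G S) (h' : K3G T) : K3G (fun z => S z ∧ T z) := by
  obtain ⟨p, hp, hS⟩ := h
  obtain ⟨q, hq, hT⟩ := h'
  refine ⟨p * q, mul_ne_zero hp hq, fun z hz => ?_⟩
  rw [map_mul] at hz
  exact ⟨hS z (left_ne_zero_of_mul hz), hT z (right_ne_zero_of_mul hz)⟩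

private theorem K3_forall {ι : Type*} (Z : Finset ι) {S : ι → V3 → Prop} (h : ∀ y ∈ Z, K3G (S y)) :
    K3G (fun z => ∀ y ∈ Z, S y z) := by
  classical
  induction Z using Finset.induction_on with
  | empty => exact ⟨1, one_ne_zero, fun z _ y hy => by simp at hy⟩
  | insert a s ha ih =>
    have h1 := K3_and (h a (Finset.mem_insert_self a s))
      (ih (fun y hy => h y (Finset.mem_insert_of_mem hy)))
    obtain ⟨p, hp, hS⟩ := h1
    refine ⟨p, hp, fun z hz y hy => ?_⟩
    obtain ⟨h2, h3⟩ := hS z hz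
    rcases Finset.mem_insert.1 hy with rfl | hy
    · exact h2
    · exact h3 y hy

private theorem K3_poly {p : P3} {S : V3 → Prop} (hS : ∀ z, eval z p ≠ 0 → S z) {z : V3}
    (hz : eval z p ≠ 0) : K3G S :=
  ⟨p, fun h => hz (by rw [h]; simp), hS⟩

private theorem K3_eval_aeval (f : Fin 3 → P3) (G : P3) (z : V3) :
    eval z (aeval f G) = eval (fun i => eval z (f i)) G := by
  induction G using MvPolynomial.induction_on with
  | C a => simp
  | add p q hp hq => simp only [map_add, hp, hq]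
  | mul_X p i hp => simp only [map_mul, hp, aeval_X, eval_X]

/-- `G(a ⨯ b)` as a polynomial in `a`. -/
private theorem K3_crossL (G : P3) (b a0 : V3) (h : eval (a0 ⨯₃ b) G ≠ 0) :
    K3G (fun a => eval (a ⨯₃ b) G ≠ 0) := by
  have key : ∀ z : V3, eval z (aeval ![(X 1 : P3) * C (b 2) - X 2 * C (b 1),
      X 2 * C (b 0) - X 0 * C (b 2), X 0 * C (b 1) - X 1 * C (b 0)] G) = eval (z ⨯₃ b) G := by
    intro z
    rw [K3_eval_aeval, cross_apply]
    congr 1
    congr 1
    funext i
    fin_cases i <;> simp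
  exact K3_poly (p := aeval ![(X 1 : P3) * C (b 2) - X 2 * C (b 1),
      X 2 * C (b 0) - X 0 * C (b 2), X 0 * C (b 1) - X 1 * C (b 0)] G)
    (fun z hz => by rwa [key] at hz) (z := a0) (by rwa [key])

private theorem K3_crossR (G : P3) (a b0 : V3) (h : eval (a ⨯₃ b0) G ≠ 0) :
    K3G (fun b => eval (a ⨯₃ b) G ≠ 0) := by
  have key : ∀ z : V3, eval z (aeval ![(C (a 1) : P3) * X 2 - C (a 2) * X 1,
      C (a 2) * X 0 - C (a 0) * X 2, C (a 0) * X 1 - C (a 1) * X 0] G) = eval (a ⨯₃ z) G := by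
    intro z
    rw [K3_eval_aeval, cross_apply]
    congr 1
    congr 1
    funext i
    fin_cases i <;> simp
  exact K3_poly (p := aeval ![(C (a 1) : P3) * X 2 - C (a 2) * X 1,
      C (a 2) * X 0 - C (a 0) * X 2, C (a 0) * X 1 - C (a 1) * X 0] G)
    (fun z hz => by rwa [key] at hz) (z := b0) (by rwa [key])

private theorem K3_lin_eval (l z : V3) : eval z (lin l) = l ⬝ᵥ z := by
  simp [lin, dotProduct, map_sum]

/-- a non-zero linear form -/
private theorem K3_dot (l : V3) (hl : l ≠ 0) : K3G (fun z => l ⬝ᵥ z ≠ 0) := by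
  have : ∃ z, eval z (lin l) ≠ 0 := by
    obtain ⟨i, hi⟩ : ∃ i, l i ≠ 0 := by
      by_contra hc
      push Not at hc
      exact hl (funext hc)
    refine ⟨Pi.single i 1, ?_⟩
    rw [K3_lin_eval]
    simpa using hi
  obtain ⟨z, hz⟩ := this
  exact K3_poly (p := lin l) (fun z hz => by rwa [K3_lin_eval] at hz) hz

/-- `a ⨯ y ≠ 0` is generic for `y ≠ 0`. -/
private theorem K3_cross_ne (y : V3) (hy : y ≠ 0) : K3G (fun a => a ⨯₃ y ≠ 0) := by
  -- some coordinate linear form of `a ⨯ y` is non-zero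
  obtain ⟨w, hw⟩ : ∃ w : V3, y ⨯₃ w ≠ 0 := by
    by_contra hc
    push Not at hc
    have h0 := hc ![1, 0, 0]
    have h1 := hc ![0, 1, 0]
    rw [cross_apply] at h0 h1
    apply hy
    have e1 := congrFun h0 1
    have e2 := congrFun h0 2
    have e3 := congrFun h1 0
    have e4 := congrFun h1 2
    simp at e1 e2 e3 e4
    funext i
    fin_cases i
    · simpa using e4
    · simpa using e2
    · simpa using e1
  obtain ⟨p, hp, hS⟩ := K3_dot _ hw
  refine ⟨p, hp, fun a ha hc => ?_⟩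
  apply hS a ha
  -- (y ⨯ w) · a = (a ⨯ y) · w
  have : (y ⨯₃ w) ⬝ᵥ a = (a ⨯₃ y) ⬝ᵥ w := by
    simp only [cross_apply, dotProduct, Fin.sum_univ_three, cons_val]
    ring
  rw [this, hc, zero_dotProduct]

private theorem K3_triple (a b c : V3) : (a ⨯₃ b) ⬝ᵥ c = (c ⨯₃ a) ⬝ᵥ b := by
  simp only [cross_apply, dotProduct, Fin.sum_univ_three, cons_val]
  ring

private theorem K3_eval_mn {k : ℕ} (f : Fin k → Fin 5 → P3) (s : Fin k → Fin 5) (z : V3) :
    eval z (mn f s) = mn (fun a i => eval z (f a i)) s := by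
  unfold mn
  exact RingHom.map_det (eval z) (Matrix.of fun a b => f a (s b))

/-- every vector is a cross product -/
private theorem K3_surj (w : V3) : ∃ a b : V3, a ⨯₃ b = w := by
  by_cases h0 : w 0 = 0
  · -- `w = (0, w1, w2)`: `a = (0, -w2, w1)... `
    refine ⟨![1, 0, 0], ![0, w 2, -w 1], ?_⟩
    rw [cross_apply]
    funext i
    fin_cases i <;> simp [h0]
  · refine ⟨![-w 1, w 0, 0], ![-w 2 / w 0, 0, 1], ?_⟩
    rw [cross_apply]
    funext i
    fin_cases i
    · simp
    · simp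
    · simp
      field_simp

/-- K3 (uses E2, J5, J6) -/
theorem gen_config {F G : Fin 5 → P3} (h : Pair F G)
    (hY : Prim (fun p : V3 × (Fin 3 → Fin 5) => Yf F p.1 p.2)) :
    ∃ a b c, Config F G a b c := by
  classical
  obtain ⟨Z, hZ0, hZ⟩ := finite_zeros (fun p : V3 × (Fin 3 → Fin 5) => Yf F p.1 p.2)
    (fun p => ⟨15, Yf_hom h.homF p.1 p.2⟩) hY
  obtain ⟨z0, v, s, hzv⟩ := h.full
  -- v ≠ 0
  have hv : v ≠ 0 := by
    intro hv
    apply hzv
    apply Matrix.det_eq_zero_of_row_eq_zero (1 : Fin 4)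
    intro j
    have hd : dv (0 : V3) = 0 := by
      simp [dv]
    simp [hv, ej, hd]
  -- F_i ≠ 0, G_j ≠ 0
  have hne : ∀ {H : Fin 5 → P3}, Prim H → ∃ i, ∃ z, eval z (H i) ≠ 0 := by
    intro H hH
    by_contra hc
    push Not at hc
    have : ∀ i, H i = 0 := by
      intro i
      apply MvPolynomial.funext
      intro z
      simpa using hc i z
    have h1 := hH (X 0) (fun i => by rw [this i]; exact dvd_zero _)
    have h2 : IsUnit (eval (0 : V3) (X 0 : P3)) := h1.map (eval (0 : V3))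
    simp at h2
  obtain ⟨i, zi, hzi⟩ := hne h.primF
  obtain ⟨j, wj, hwj⟩ := hne h.primG
  obtain ⟨a0, b0, hab0⟩ := K3_surj wj
  -- choice of a
  have ga : K3G (fun a => ((eval a (mn (fun (k : Fin 4) i => (dv v)^[(k : ℕ)] (F i)) s) ≠ 0 ∧
      eval (a ⨯₃ b0) (G j) ≠ 0) ∧ a ⨯₃ (-v) ≠ 0) ∧ ∀ y ∈ Z, a ⨯₃ y ≠ 0) := by
    refine K3_and (K3_and (K3_and ?_ ?_) ?_) ?_
    · refine K3_poly (fun z hz => hz) (z := z0) ?_
      have : eval z0 (mn (fun (k : Fin 4) i => (dv v)^[(k : ℕ)] (F i)) s) =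
          mn (fun k : Fin 4 => ej F v (k : ℕ) z0) s := K3_eval_mn _ _ _
      rwa [this]
    · exact K3_crossL (G j) b0 a0 (by rwa [hab0])
    · exact K3_cross_ne (-v) (neg_ne_zero.2 hv)
    · exact K3_forall Z (fun y hy => K3_cross_ne y (hZ0 y hy))
  obtain ⟨a, ⟨⟨ha1, ha2⟩, ha3⟩, ha4⟩ := K3_exists ga
  have gb : K3G (fun b => ((eval b (F i) ≠ 0 ∧ eval (a ⨯₃ b) (G j) ≠ 0) ∧
      ((-v) ⨯₃ a) ⬝ᵥ b ≠ 0) ∧ ∀ y ∈ Z, (y ⨯₃ a) ⬝ᵥ b ≠ 0) := by
    refine K3_and (K3_and (K3_and ?_ ?_) ?_) ?_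
    · exact K3_poly (fun z hz => hz) hzi
    · exact K3_crossR (G j) a b0 ha2
    · refine K3_dot _ ?_
      rw [← cross_anticomm, neg_ne_zero]
      exact ha3
    · refine K3_forall Z (fun y hy => K3_dot _ ?_)
      rw [← cross_anticomm, neg_ne_zero]
      exact ha4 y hy
  obtain ⟨b, ⟨⟨hb1, hb2⟩, hb3⟩, hb4⟩ := K3_exists gb
  refine ⟨a, b, -v, ?_, ⟨i, hb1⟩, ⟨j, hb2⟩, ?_, ?_⟩
  · rw [K3_triple]
    exact hb3
  · intro x y hxy
    by_contra hc
    push Not at hc
    have hdet : (a ⨯₃ b) ⬝ᵥ (-v) ≠ 0 := by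
      rw [K3_triple]
      exact hb3
    have hz : (a ⨯₃ b) ≠ 0 := fun h0 => hdet (by rw [h0, zero_dotProduct])
    have hzne : x • a + y • b ≠ 0 := by
      intro h0
      have hx : x • (a ⨯₃ b) = 0 := by
        have := congrArg (fun t => t ⨯₃ b) h0
        simpa using this
      have hy : y • (a ⨯₃ b) = 0 := by
        have := congrArg (fun t => a ⨯₃ t) h0
        simpa using this
      rcases hxy with hx' | hy'
      · exact hz ((smul_eq_zero.1 hx).resolve_left hx')
      · exact hz ((smul_eq_zero.1 hy).resolve_left hy')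
    obtain ⟨y', hy', t, ht⟩ := hZ (x • a + y • b) hzne (fun p => hc p.1 p.2)
    have ht0 : t ≠ 0 := by
      rintro rfl
      rw [zero_smul] at ht
      exact hzne ht
    have h1 : (a ⨯₃ b) ⬝ᵥ (x • a + y • b) = 0 := by
      rw [dotProduct_add, dotProduct_smul, dotProduct_smul]
      have e1 : (a ⨯₃ b) ⬝ᵥ a = 0 := by
        rw [dotProduct_comm]; exact dot_self_cross a b
      have e2 : (a ⨯₃ b) ⬝ᵥ b = 0 := by
        rw [dotProduct_comm]; exact dot_cross_self a b
      rw [e1, e2]; simp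
    rw [ht, dotProduct_smul, K3_triple, smul_eq_mul] at h1
    exact (mul_ne_zero ht0 (hb4 y' hy')) h1
  · refine ⟨s, ?_⟩
    rw [neg_neg]
    have : eval a (mn (fun (k : Fin 4) i => (dv v)^[(k : ℕ)] (F i)) s) =
          mn (fun k : Fin 4 => ej F v (k : ℕ) a) s := K3_eval_mn _ _ _
    rw [← this]
    exact ha1

end Pool.Agent.Lib_helper86.D24

end

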