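import Pool.Agent.Lib_helper86.D24.Defs
import Pool.Agent.Lib_helper86.D24.L1

/-!
# D(2,4) = 5: part L3
-/

section

namespace Pool.Agent.Lib_helper86.D24

open MvPolynomial Matrix


private theorem bCU_pd (γ : P3) (hγ : Irreducible γ) : ∃ j, ¬ γ ∣ pderiv j γ := by
  classical
  have h0 : γ ≠ 0 := hγ.ne_zero
  -- some variable occurs
  obtain ⟨m, hm, j, hj⟩ : ∃ m ∈ γ.support, ∃ j, m j ≠ 0 := by
    by_contra hcon
    push Not at hcon
    have hC : γ = C (coeff 0 γ) := by
      ext m
      rw [coeff_C]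
      split_ifs with h
      · rw [← h]
      · by_contra h1
        have h2 : m ∈ γ.support := mem_support_iff.2 h1
        exact h (by ext j; simp [hcon m h2 j])
    have hc : coeff 0 γ ≠ 0 := by
      intro hc
      rw [hc, C_0] at hC
      exact h0 hC
    refine hγ.not_isUnit ?_
    rw [hC]
    exact (isUnit_iff_ne_zero.2 hc).map C
  refine ⟨j, fun hd => ?_⟩
  have hpos : 0 < degreeOf j γ := lt_of_lt_of_le (Nat.pos_of_ne_zero hj) (monomial_le_degreeOf j hm)
  have hne : pderiv j γ ≠ 0 := by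
    intro hz
    have h1 := coeff_pderiv (i := j) γ (m - Finsupp.single j 1)
    rw [hz, coeff_zero] at h1
    have h2 : m - Finsupp.single j 1 + Finsupp.single j 1 = m := by
      refine tsub_add_cancel_of_le ?_
      intro i
      by_cases hi : i = j
      · subst hi; simpa using Nat.one_le_iff_ne_zero.2 hj
      · simp [Ne.symm hi]
    rw [h2] at h1
    have h3 : coeff m γ ≠ 0 := mem_support_iff.1 hm
    exact (mul_ne_zero h3 (Nat.cast_add_one_ne_zero _)) h1.symm
  have hlt : degreeOf j (pderiv j γ) < degreeOf j γ := by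
    rw [degreeOf_lt_iff hpos]
    intro n hn
    have h1 : coeff (n + Finsupp.single j 1) γ ≠ 0 := by
      intro hz
      rw [mem_support_iff, coeff_pderiv, hz, zero_mul] at hn
      exact hn rfl
    have h2 := monomial_le_degreeOf j (mem_support_iff.2 h1)
    simp only [Finsupp.add_apply, Finsupp.single_eq_same] at h2
    omega
  obtain ⟨w, hw⟩ := hd
  have hw0 : w ≠ 0 := by
    rintro rfl
    rw [mul_zero] at hw
    exact hne hw
  rw [hw, degreeOf_mul_eq h0 hw0] at hlt
  omega

/-- CU -/
theorem cube (γ p : P3) (hγ : Irreducible γ) (h0 : γ ∣ p) (h1 : ∀ j, γ ∣ pderiv j p)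
    (h2 : ∀ j k, γ ∣ pderiv j (pderiv k p)) : γ ^ 3 ∣ p := by
  obtain ⟨j, hj⟩ := bCU_pd γ hγ
  have hp : Prime γ := UniqueFactorizationMonoid.irreducible_iff_prime.1 hγ
  obtain ⟨q, rfl⟩ := h0
  have h3 : γ ∣ pderiv j γ * q := by
    have h := h1 j
    rw [pderiv_mul] at h
    exact (dvd_add_left (dvd_mul_right γ _)).1 h
  obtain ⟨r, rfl⟩ := (hp.dvd_or_dvd h3).resolve_left hj
  have h4 : γ ∣ (pderiv j γ * pderiv j γ) * r := by
    have h := h2 j j
    rw [pderiv_mul, pderiv_mul, map_add, pderiv_mul, pderiv_mul, pderiv_mul, map_add, pderiv_mul,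
      pderiv_mul] at h
    have h5 : γ ∣ C (2 : ℂ) * ((pderiv j γ * pderiv j γ) * r) := by
      obtain ⟨s, hs⟩ := h
      refine ⟨s - (pderiv j (pderiv j γ) * r + pderiv j γ * pderiv j r +
        (pderiv j (pderiv j γ) * r + pderiv j γ * pderiv j r + pderiv j γ * pderiv j r +
          γ * pderiv j (pderiv j r)) + pderiv j γ * pderiv j r), ?_⟩
      have hC : (C (2 : ℂ) : P3) = 2 := rfl
      rw [hC]
      linear_combination hs
    rcases hp.dvd_or_dvd h5 with h6 | h6
    · exfalso
      refine hp.not_isUnit (isUnit_of_dvd_unit h6 ?_)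
      exact (isUnit_iff_ne_zero.2 (two_ne_zero)).map C
    · exact h6
  have h5 : γ ∣ r := by
    rcases hp.dvd_or_dvd h4 with h6 | h6
    · exact absurd ((hp.dvd_or_dvd h6).elim id id) hj
    · exact h6
  obtain ⟨s, rfl⟩ := h5
  exact ⟨s, by ring⟩

end Pool.Agent.Lib_helper86.D24

end

section

namespace Pool.Agent.Lib_helper86.D24

open MvPolynomial Matrix


/-- LG: a homogeneous factor of degree one -/
theorem eq_lin {γ : P3} (h : γ.IsHomogeneous 1) : ∃ l : V3, γ = lin l := by
  classical
  refine ⟨fun j => γ.coeff (Finsupp.single j 1), ?_⟩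
  ext m
  by_cases hm : m.degree = 1
  · obtain ⟨j, rfl⟩ : ∃ j, m = Finsupp.single j 1 := by
      rw [Finsupp.degree_eq_sum, Fin.sum_univ_three] at hm
      rcases (by omega : (m 0 = 1 ∧ m 1 = 0 ∧ m 2 = 0) ∨ (m 0 = 0 ∧ m 1 = 1 ∧ m 2 = 0) ∨
        (m 0 = 0 ∧ m 1 = 0 ∧ m 2 = 1)) with ⟨h0, h1, h2⟩ | ⟨h0, h1, h2⟩ | ⟨h0, h1, h2⟩
      · exact ⟨0, by ext k; fin_cases k <;> simp [h0, h1, h2]⟩
      · exact ⟨1, by ext k; fin_cases k <;> simp [h0, h1, h2]⟩
      · exact ⟨2, by ext k; fin_cases k <;> simp [h0, h1, h2]⟩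
    simp only [lin, coeff_sum, coeff_C_mul]
    rw [Finset.sum_eq_single j]
    · simp
    · intro b _ hb
      rw [coeff_X, if_neg (fun h => hb ?_), mul_zero]
      exact Finsupp.single_left_injective one_ne_zero h
    · simp
  · rw [h.coeff_eq_zero hm]
    have h2 : (lin fun j => γ.coeff (Finsupp.single j 1)).IsHomogeneous 1 := by
      refine IsHomogeneous.sum _ _ _ fun i _ => ?_
      simpa using (isHomogeneous_C _ _).mul (isHomogeneous_X ℂ i)
    rw [h2.coeff_eq_zero hm]

/-- DG: degree one -/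
theorem deg_one {e : ℕ} {γ A B : P3} (hγ : Irreducible γ) (he : γ.IsHomogeneous e)
    (hA : A.IsHomogeneous 6) (hB : B.IsHomogeneous 6)
    (hAB : ∀ s t : ℂ, C s * A + C t * B = 0 → s = 0 ∧ t = 0) (h1 : γ ^ 3 ∣ A)
    (h2 : γ ^ 3 ∣ B) : e = 1 := by
  have hA0 : A ≠ 0 := by
    rintro rfl
    have := (hAB 1 0 (by simp)).1
    simp at this
  have hB0 : B ≠ 0 := by
    rintro rfl
    have := (hAB 0 1 (by simp)).2
    simp at this
  have hγ3 : (γ ^ 3).IsHomogeneous (e * 3) := he.pow 3
  have hγ0 : γ ^ 3 ≠ 0 := pow_ne_zero _ hγ.ne_zero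
  obtain ⟨a, ha⟩ := h1
  obtain ⟨b, hb⟩ := h2
  have ha0 : a ≠ 0 := by rintro rfl; exact hA0 (by simpa using ha)
  have hb0 : b ≠ 0 := by rintro rfl; exact hB0 (by simpa using hb)
  have dA : A.totalDegree = 6 := hA.totalDegree hA0
  have dB : B.totalDegree = 6 := hB.totalDegree hB0
  have dγ : (γ ^ 3).totalDegree = e * 3 := hγ3.totalDegree hγ0
  have h3 : e * 3 + a.totalDegree = 6 := by
    rw [← dγ, ← totalDegree_mul_of_isDomain hγ0 ha0, ← ha, dA]
  have h4 : e * 3 + b.totalDegree = 6 := by
    rw [← dγ, ← totalDegree_mul_of_isDomain hγ0 hb0, ← hb, dB]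
  have h5 : e ≠ 0 := by
    rintro rfl
    have h6 : γ.totalDegree = 0 := he.totalDegree hγ.ne_zero
    rw [totalDegree_eq_zero_iff_eq_C] at h6
    have h7 : γ.coeff 0 ≠ 0 := by
      intro h0
      rw [h0, map_zero] at h6
      exact hγ.ne_zero h6
    apply hγ.not_isUnit
    rw [h6]
    exact (IsUnit.mk0 _ h7).map C
  have h6 : e ≠ 2 := by
    rintro rfl
    have ha1 : a.totalDegree = 0 := by omega
    have hb1 : b.totalDegree = 0 := by omega
    rw [totalDegree_eq_zero_iff_eq_C] at ha1 hb1
    have h7 := hAB (b.coeff 0) (-(a.coeff 0)) (by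
      rw [ha, hb]
      rw [ha1, hb1]
      simp only [coeff_C, map_neg]
      simp
      ring)
    apply hb0
    rw [hb1, h7.1, map_zero]
  omega

end Pool.Agent.Lib_helper86.D24

end

section

namespace Pool.Agent.Lib_helper86.D24

open MvPolynomial Matrix


theorem al_dv (v : V3) (p : P3) : dv v p = ∑ j, C (v j) * pderiv j p := by
  unfold dv
  rw [Fin.sum_univ_three, Fin.sum_univ_three]
  rfl

theorem al_comm (j k : Fin 3) (p : P3) : pderiv j (pderiv k p) = pderiv k (pderiv j p) := by
  ext m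
  rw [coeff_pderiv, coeff_pderiv, coeff_pderiv, coeff_pderiv]
  by_cases hjk : j = k
  · rw [hjk]
  · have e1 : (m + Finsupp.single j 1 : Fin 3 →₀ ℕ) k = m k := by
      rw [Finsupp.add_apply, Finsupp.single_eq_of_ne (fun e => hjk e.symm), add_zero]
    have e2 : (m + Finsupp.single k 1 : Fin 3 →₀ ℕ) j = m j := by
      rw [Finsupp.add_apply, Finsupp.single_eq_of_ne hjk, add_zero]
    rw [e1, e2, add_right_comm]
    ring

theorem al_dv2 (v : V3) (p : P3) :
    dv v (dv v p) = ∑ j, ∑ k, C (v j) * C (v k) * pderiv j (pderiv k p) := by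
  rw [al_dv v (dv v p)]
  refine Finset.sum_congr rfl fun j _ => ?_
  rw [al_dv v p, map_sum, Finset.mul_sum]
  refine Finset.sum_congr rfl fun k _ => ?_
  rw [Derivation.leibniz, pderiv_C, smul_zero, add_zero, smul_eq_mul, mul_assoc]

theorem al_Yf (F : Fin 5 → P3) (v : V3) (a b c : Fin 5) :
    Yf F v ![a, b, c] = F c * (dv v (F a) * dv v (dv v (F b)) - dv v (F b) * dv v (dv v (F a)))
      - dv v (F c) * (F a * dv v (dv v (F b)) - F b * dv v (dv v (F a)))
      + dv v (dv v (F c)) * (F a * dv v (F b) - F b * dv v (F a)) := by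
  unfold Yf mn
  refine (Matrix.det_fin_three (Matrix.of fun (k : Fin 3) (l : Fin 3) =>
    (dv v)^[(k : ℕ)] (F (![a, b, c] l)))).trans ?_
  show F a * dv v (F b) * dv v (dv v (F c)) - F a * dv v (F c) * dv v (dv v (F b))
    - F b * dv v (F a) * dv v (dv v (F c)) + F b * dv v (F c) * dv v (dv v (F a))
    + F c * dv v (F a) * dv v (dv v (F b)) - F c * dv v (F b) * dv v (dv v (F a)) = _
  ring

/-- a quadratic form times a non-zero linear form -/
theorem al_quad {K : Type*} [Field K] (ι : ℂ →+* K) (B : Fin 3 → Fin 3 → K) (w : Fin 3 → K)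
    (hB : ∀ j k, B j k = B k j) {k0 : Fin 3} (hw : w k0 ≠ 0)
    (h : ∀ v : V3, (∑ j, ∑ k, ι (v j) * ι (v k) * B j k) * (∑ k, ι (v k) * w k) = 0) :
    ∀ j k, B j k = 0 := by
  have h2 : (2 : K) ≠ 0 := by
    have : (2 : K) = ι 2 := (map_ofNat ι 2).symm
    rw [this]
    exact (map_ne_zero ι).2 two_ne_zero
  have h3 : (3 : K) ≠ 0 := by
    have : (3 : K) = ι 3 := (map_ofNat ι 3).symm
    rw [this]
    exact (map_ne_zero ι).2 three_ne_zero
  set u : V3 := Pi.single k0 1 with hu
  have hwu : ∑ k, ι (u k) * w k = w k0 := by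
    rw [Finset.sum_eq_single k0]
    · rw [hu, Pi.single_eq_same, map_one, one_mul]
    · intro k _ hk
      rw [hu, Pi.single_eq_of_ne hk, map_zero, zero_mul]
    · intro hk
      exact absurd (Finset.mem_univ k0) hk
  have hq : ∀ v : V3, ∑ j, ∑ k, ι (v j) * ι (v k) * B j k = 0 := by
    intro v
    set q := ∑ j, ∑ k, ι (v j) * ι (v k) * B j k with hqd
    set β := ∑ j, ∑ k, (ι (v j) * ι (u k) + ι (u j) * ι (v k)) * B j k with hβ
    set g := ∑ j, ∑ k, ι (u j) * ι (u k) * B j k with hg
    set W := ∑ k, ι (v k) * w k with hW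
    have key : ∀ t : ℂ, (q + ι t * β + ι t ^ 2 * g) * (W + ι t * w k0) = 0 := by
      intro t
      have e := h (v + t • u)
      rw [← hwu]
      rw [← e, hqd, hβ, hg, hW]
      simp only [Fin.sum_univ_three, Pi.add_apply, Pi.smul_apply, smul_eq_mul, map_add, map_mul]
      ring
    have k0' := key 0
    have k1 := key 1
    have k2 := key (-1)
    have k3 := key 2
    simp only [map_zero, map_one, map_neg, map_ofNat] at k0' k1 k2 k3
    have hg0 : g = 0 := by
      have e1 : (2 * 3 : K) * (g * w k0) = 0 := by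
        linear_combination k3 - 3 * k1 + 3 * k0' - k2
      rcases mul_eq_zero.1 e1 with e2 | e2
      · exact absurd e2 (mul_ne_zero h2 h3)
      · exact (mul_eq_zero.1 e2).resolve_right hw
    rw [hg0] at k0' k1 k2 k3
    have hβ0 : β = 0 := by
      have e1 : (2 : K) * (β * w k0) = 0 := by
        linear_combination k1 + k2 - 2 * k0'
      rcases mul_eq_zero.1 e1 with e2 | e2
      · exact absurd e2 h2
      · exact (mul_eq_zero.1 e2).resolve_right hw
    rw [hβ0] at k0' k1 k2 k3
    have e1 : q * w k0 = 0 := by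
      linear_combination k1 - k0'
    exact (mul_eq_zero.1 e1).resolve_right hw
  have hd : ∀ j, B j j = 0 := by
    intro j
    have e := hq (Pi.single j 1)
    rw [Finset.sum_eq_single j, Finset.sum_eq_single j] at e
    · rw [Pi.single_eq_same, map_one, one_mul, one_mul] at e
      exact e
    · intro k _ hk
      rw [Pi.single_eq_of_ne hk, map_zero, mul_zero, zero_mul]
    · intro hk
      exact absurd (Finset.mem_univ j) hk
    · intro i _ hi
      refine Finset.sum_eq_zero fun k _ => ?_
      rw [Pi.single_eq_of_ne hi, map_zero, zero_mul, zero_mul]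
    · intro hk
      exact absurd (Finset.mem_univ j) hk
  have h01 : B 0 1 = 0 := by
    have e := hq ![1, 1, 0]
    simp [Fin.sum_univ_three, hd, hB 1 0] at e
    have e1 : (2 : K) * B 0 1 = 0 := by linear_combination e
    exact (mul_eq_zero.1 e1).resolve_left h2
  have h02 : B 0 2 = 0 := by
    have e := hq ![1, 0, 1]
    simp [Fin.sum_univ_three, hd, hB 2 0] at e
    have e1 : (2 : K) * B 0 2 = 0 := by linear_combination e
    exact (mul_eq_zero.1 e1).resolve_left h2
  have h12 : B 1 2 = 0 := by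
    have e := hq ![0, 1, 1]
    simp [Fin.sum_univ_three, hd, hB 2 1] at e
    have e1 : (2 : K) * B 1 2 = 0 := by linear_combination e
    exact (mul_eq_zero.1 e1).resolve_left h2
  intro j k
  fin_cases j <;> fin_cases k
  · exact hd 0
  · exact h01
  · exact h02
  · exact (hB _ _).trans h01
  · exact hd 1
  · exact h12
  · exact (hB _ _).trans h02
  · exact (hB _ _).trans h12
  · exact hd 2

theorem al_main {F : Fin 5 → P3} (hF : ∀ i, (F i).IsHomogeneous 6) (γ : P3)
    (h : ∀ v s, γ ∣ Yf F v s) {A : Type*} [CommRing A] [IsDomain A] (μ : P3 →+* A)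
    (hsur : Function.Surjective μ) (hμ : ∀ p, μ p = 0 ↔ γ ∣ p) (K : Type*) [Field K]
    [Algebra A K] [IsFractionRing A K] :
    (∀ i j k, γ ∣ F i * pderiv k (F j) - F j * pderiv k (F i)) ∨
    ∀ j k, InSat γ (fun (l : Fin 3) i => pderiv l (F i)) (fun i => pderiv j (pderiv k (F i))) := by
  classical
  obtain ⟨π, hπμ⟩ : ∃ π : P3 →+* K, ∀ p, π p = algebraMap A K (μ p) :=
    ⟨(algebraMap A K).comp μ, fun _ => rfl⟩
  have hinj : Function.Injective (algebraMap A K) := IsFractionRing.injective A K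
  have hπ : ∀ p, π p = 0 ↔ γ ∣ p := fun p => by
    rw [← hμ, hπμ, map_eq_zero_iff _ hinj]
  obtain ⟨ι, hι⟩ : ∃ ι : ℂ →+* K, ∀ c, ι c = π (C c) := ⟨π.comp C, fun _ => rfl⟩
  have h6 : (6 : K) ≠ 0 := by
    have e : (6 : K) = ι 6 := (map_ofNat ι 6).symm
    rw [e]
    exact (map_ne_zero ι).2 (by norm_num)
  by_cases h1 : ∀ i j k, γ ∣ F i * pderiv k (F j) - F j * pderiv k (F i)
  · exact Or.inl h1
  right
  push Not at h1
  obtain ⟨i0, j0, k0, hne⟩ := h1
  have key : ∀ φ : Fin 5 → K, (∀ l, ∑ i, φ i * π (pderiv l (F i)) = 0) →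
      ∀ j k, ∑ i, φ i * π (pderiv j (pderiv k (F i))) = 0 := by
    intro φ hφ
    have hφF : ∑ i, φ i * π (F i) = 0 := by
      have e : (6 : K) * ∑ i, φ i * π (F i) = ∑ l, π (X l) * ∑ i, φ i * π (pderiv l (F i)) := by
        simp only [Finset.mul_sum]
        rw [Finset.sum_comm]
        refine Finset.sum_congr rfl fun i _ => ?_
        have e1 := (hF i).sum_X_mul_pderiv
        have e2 : (6 : K) * π (F i) = ∑ l, π (X l) * π (pderiv l (F i)) := by
          have e3 := congrArg π e1
          rw [map_sum] at e3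
          simp only [map_mul, map_nsmul] at e3
          rw [e3, nsmul_eq_mul]
          norm_num
        calc (6 : K) * (φ i * π (F i)) = φ i * (6 * π (F i)) := by ring
          _ = _ := by
            rw [e2, Finset.mul_sum]
            refine Finset.sum_congr rfl fun l _ => ?_
            ring
      simp only [hφ, mul_zero, Finset.sum_const_zero] at e
      exact (mul_eq_zero.1 e).resolve_left h6
    refine al_quad ι (fun j k => ∑ i, φ i * π (pderiv j (pderiv k (F i))))
      (fun k => π (F i0 * pderiv k (F j0) - F j0 * pderiv k (F i0))) ?_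
      (k0 := k0) (fun e => hne ((hπ _).1 e)) ?_
    · intro j k
      refine Finset.sum_congr rfl fun i _ => ?_
      rw [al_comm]
    · intro v
      have hv1 : ∑ i, φ i * π (dv v (F i)) = 0 := by
        have : ∑ i, φ i * π (dv v (F i)) = ∑ l, ι (v l) * ∑ i, φ i * π (pderiv l (F i)) := by
          simp only [Finset.mul_sum]
          rw [Finset.sum_comm]
          refine Finset.sum_congr rfl fun i _ => ?_
          rw [al_dv, map_sum, Finset.mul_sum]
          refine Finset.sum_congr rfl fun l _ => ?_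
          rw [map_mul, hι]
          ring
        rw [this]
        simp only [hφ, mul_zero, Finset.sum_const_zero]
      have hv2 : ∑ i, φ i * π (dv v (dv v (F i))) =
          ∑ j, ∑ k, ι (v j) * ι (v k) * ∑ i, φ i * π (pderiv j (pderiv k (F i))) := by
        simp only [Finset.mul_sum]
        have e1 : ∀ i, φ i * π (dv v (dv v (F i))) =
            ∑ j, ∑ k, ι (v j) * ι (v k) * (φ i * π (pderiv j (pderiv k (F i)))) := by
          intro i
          rw [al_dv2, map_sum, Finset.mul_sum]
          refine Finset.sum_congr rfl fun j _ => ?_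
          rw [map_sum, Finset.mul_sum]
          refine Finset.sum_congr rfl fun k _ => ?_
          rw [map_mul, map_mul, hι, hι]
          ring
        rw [Finset.sum_congr rfl fun i _ => e1 i, Finset.sum_comm]
        refine Finset.sum_congr rfl fun j _ => ?_
        rw [Finset.sum_comm]
      have hw : ∑ k, ι (v k) * π (F i0 * pderiv k (F j0) - F j0 * pderiv k (F i0)) =
          π (F i0 * dv v (F j0) - F j0 * dv v (F i0)) := by
        rw [al_dv, al_dv, Finset.mul_sum, Finset.mul_sum, ← Finset.sum_sub_distrib, map_sum]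
        refine Finset.sum_congr rfl fun k _ => ?_
        rw [hι, ← map_mul]
        congr 1
        ring
      rw [← hv2, hw]
      have hY : ∀ c, π (Yf F v ![i0, j0, c]) = 0 := fun c => (hπ _).2 (h v _)
      have e2 : ∑ c, φ c * π (Yf F v ![i0, j0, c]) = 0 := by
        simp only [hY, mul_zero, Finset.sum_const_zero]
      rw [← e2]
      have e3 : ∀ c, φ c * π (Yf F v ![i0, j0, c]) =
          φ c * π (F c) * π (dv v (F i0) * dv v (dv v (F j0)) - dv v (F j0) * dv v (dv v (F i0)))
          - φ c * π (dv v (F c)) * π (F i0 * dv v (dv v (F j0)) - F j0 * dv v (dv v (F i0)))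
          + φ c * π (dv v (dv v (F c))) * π (F i0 * dv v (F j0) - F j0 * dv v (F i0)) := by
        intro c
        rw [al_Yf, map_add, map_sub, map_mul, map_mul, map_mul]
        ring
      rw [Finset.sum_congr rfl fun c _ => e3 c, Finset.sum_add_distrib, Finset.sum_sub_distrib,
        ← Finset.sum_mul, ← Finset.sum_mul, ← Finset.sum_mul, hφF, hv1]
      ring
  intro j k
  have hspan : (fun i => π (pderiv j (pderiv k (F i)))) ∈
      Submodule.span K (Set.range fun (l : Fin 3) => fun i => π (pderiv l (F i))) := by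
    rw [← Subspace.forall_mem_dualAnnihilator_apply_eq_zero_iff]
    intro φ hφ
    rw [Submodule.mem_dualAnnihilator] at hφ
    have hrep : ∀ x : Fin 5 → K, φ x = ∑ i, φ (Pi.single i 1) * x i := by
      intro x
      rw [LinearMap.pi_apply_eq_sum_univ φ x]
      refine Finset.sum_congr rfl fun i _ => ?_
      rw [smul_eq_mul, mul_comm]
      congr 2
      funext l
      rw [Pi.single_apply]
      simp only [eq_comm]
    rw [hrep]
    refine key (fun i => φ (Pi.single i 1)) (fun l => ?_) j k
    rw [← hrep (fun i => π (pderiv l (F i)))]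
    exact hφ _ (Submodule.subset_span ⟨l, rfl⟩)
  rw [Submodule.mem_span_range_iff_exists_fun] at hspan
  obtain ⟨c, hc⟩ := hspan
  obtain ⟨b, hb⟩ := IsLocalization.exist_integer_multiples_of_finite (nonZeroDivisors A) c
  choose c' hc' using hb
  obtain ⟨δ, hδ⟩ := hsur (b : A)
  choose d hd using fun l => hsur (c' l)
  refine ⟨δ, d, ?_, fun i => ?_⟩
  · rw [← hμ]
    intro e
    have e1 : (b : A) = 0 := by rw [← hδ]; exact e
    exact nonZeroDivisors.coe_ne_zero b e1
  · rw [← hπ, map_sub, map_mul, map_sum]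
    have e1 : π δ = algebraMap A K b := by
      rw [hπμ, ← hδ]
    have e2 : ∀ l, π (d l) = algebraMap A K b * c l := by
      intro l
      have e3 : π (d l) = algebraMap A K (c' l) := by
        rw [hπμ, ← hd l]
      rw [e3, hc' l, Algebra.smul_def]
    have e4 := congrFun hc i
    rw [Finset.sum_apply] at e4
    simp only [Pi.smul_apply, smul_eq_mul] at e4
    rw [e1, ← e4, Finset.mul_sum, ← Finset.sum_sub_distrib]
    refine Finset.sum_eq_zero fun l _ => ?_
    rw [map_mul, e2]
    ring

/-- AL -/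
theorem alt {F : Fin 5 → P3} (hF : ∀ i, (F i).IsHomogeneous 6) (γ : P3) (hγ : Irreducible γ)
    (h : ∀ v s, γ ∣ Yf F v s) :
    (∀ i j k, γ ∣ F i * pderiv k (F j) - F j * pderiv k (F i)) ∨
    ∀ j k, InSat γ (fun (l : Fin 3) i => pderiv l (F i)) (fun i => pderiv j (pderiv k (F i))) := by
  have hprime : (Ideal.span {γ}).IsPrime :=
    (Ideal.span_singleton_prime hγ.ne_zero).2 hγ.prime
  exact al_main hF γ h (Ideal.Quotient.mk (Ideal.span {γ})) Ideal.Quotient.mk_surjective
    (fun p => by rw [Ideal.Quotient.eq_zero_iff_mem, Ideal.mem_span_singleton])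
    (FractionRing (P3 ⧸ Ideal.span {γ}))

end Pool.Agent.Lib_helper86.D24

end

section

namespace Pool.Agent.Lib_helper86.D24

open MvPolynomial Matrix


private lemma bSA_prime {γ : P3} (hγ : Irreducible γ) : Prime γ :=
  UniqueFactorizationMonoid.irreducible_iff_prime.mp hγ

private lemma bSA_zero {m : ℕ} {γ : P3} (hγ : Irreducible γ) (J : Fin m → Fin 5 → P3) :
    InSat γ J 0 :=
  ⟨1, 0, fun h => hγ.not_isUnit (isUnit_of_dvd_one h), fun i => by simp⟩

private lemma bSA_add {m : ℕ} {γ : P3} (hγ : Irreducible γ) {J : Fin m → Fin 5 → P3}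
    {P Q : Fin 5 → P3} (hP : InSat γ J P) (hQ : InSat γ J Q) : InSat γ J (P + Q) := by
  obtain ⟨δ, c, hδ, hc⟩ := hP
  obtain ⟨ε, d, hε, hd⟩ := hQ
  refine ⟨δ * ε, fun j => ε * c j + δ * d j, ?_, fun i => ?_⟩
  · intro h
    rcases (bSA_prime hγ).dvd_or_dvd h with h | h
    · exact hδ h
    · exact hε h
  · have h1 := (hc i).mul_left ε
    have h2 := (hd i).mul_left δ
    have h3 := dvd_add h1 h2
    have e : ε * (δ * P i - ∑ j, c j * J j i) + δ * (ε * Q i - ∑ j, d j * J j i)
        = δ * ε * (P + Q) i - ∑ j, (ε * c j + δ * d j) * J j i := by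
      rw [Pi.add_apply, mul_sub, mul_sub, Finset.mul_sum, Finset.mul_sum]
      simp only [add_mul, Finset.sum_add_distrib, mul_assoc]
      ring
    rw [e] at h3
    exact h3

private lemma bSA_smul {m : ℕ} {γ : P3} {J : Fin m → Fin 5 → P3}
    {P : Fin 5 → P3} (r : P3) (hP : InSat γ J P) : InSat γ J (r • P) := by
  obtain ⟨δ, c, hδ, hc⟩ := hP
  refine ⟨δ, fun j => r * c j, hδ, fun i => ?_⟩
  have h1 := (hc i).mul_left r
  have e : r * (δ * P i - ∑ j, c j * J j i) = δ * (r • P) i - ∑ j, r * c j * J j i := by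
    rw [Pi.smul_apply, smul_eq_mul, mul_sub, Finset.mul_sum]
    simp only [mul_assoc]
    ring
  rw [e] at h1
  exact h1

private def bSA_sat {m : ℕ} (γ : P3) (hγ : Irreducible γ) (J : Fin m → Fin 5 → P3) :
    Submodule P3 (Fin 5 → P3) where
  carrier := {P | InSat γ J P}
  add_mem' := fun h1 h2 => bSA_add hγ h1 h2
  zero_mem' := bSA_zero hγ J
  smul_mem' := fun r _ h => bSA_smul r h

private lemma bSA_mem {m : ℕ} {γ : P3} (hγ : Irreducible γ) {J : Fin m → Fin 5 → P3}
    {P : Fin 5 → P3} : P ∈ bSA_sat γ hγ J ↔ InSat γ J P := Iff.rfl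

private lemma bSA_J {m : ℕ} {γ : P3} (hγ : Irreducible γ) (J : Fin m → Fin 5 → P3) (j : Fin m) :
    InSat γ J (J j) := by
  refine ⟨1, Pi.single j 1, fun h => hγ.not_isUnit (isUnit_of_dvd_one h), fun i => ?_⟩
  have : ∑ k, (Pi.single j (1 : P3) : Fin m → P3) k * J k i = J j i := by
    rw [Finset.sum_eq_single j]
    · simp
    · intro b _ hb
      rw [Pi.single_eq_of_ne hb, zero_mul]
    · intro h
      exact absurd (Finset.mem_univ j) h
  rw [this]
  simp

private lemma bSA_dvd {m : ℕ} {γ : P3} (hγ : Irreducible γ) (J : Fin m → Fin 5 → P3)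
    {P : Fin 5 → P3} (h : ∀ i, γ ∣ P i) : InSat γ J P :=
  ⟨1, 0, fun h => hγ.not_isUnit (isUnit_of_dvd_one h), fun i => by simpa using h i⟩

private lemma bSA_div {m : ℕ} {γ : P3} (hγ : Irreducible γ) {J : Fin m → Fin 5 → P3}
    {P : Fin 5 → P3} {δ : P3} (hδ : ¬ γ ∣ δ) (h : InSat γ J (δ • P)) : InSat γ J P := by
  obtain ⟨ε, c, hε, hc⟩ := h
  refine ⟨ε * δ, c, ?_, fun i => ?_⟩
  · intro h
    rcases (bSA_prime hγ).dvd_or_dvd h with h | h
    · exact hε h
    · exact hδ h
  · have := hc i
    rw [Pi.smul_apply, smul_eq_mul, ← mul_assoc] at this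
    exact this

/-- SA -/
theorem satA {m : ℕ} (γ : P3) (hγ : Irreducible γ) (J : Fin m → Fin 5 → P3)
    (D : Derivation ℂ P3 P3) (hD : D γ = 0) (hJ : ∀ j, InSat γ J (fun i => D (J j i)))
    (P : Fin 5 → P3) (hP : InSat γ J P) : InSat γ J (fun i => D (P i)) := by
  obtain ⟨δ, c, hδ, hc⟩ := hP
  have hP' : InSat γ J P := ⟨δ, c, hδ, hc⟩
  refine bSA_div hγ hδ ?_
  -- `δ • D P = (δ D P + D δ P - ∑ ...) + ∑ D c_j J_j + ∑ c_j D J_j - D δ P`
  have hR : InSat γ J (fun i => D (δ * P i - ∑ j, c j * J j i)) := by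
    refine bSA_dvd hγ J fun i => ?_
    obtain ⟨q, hq⟩ := hc i
    refine ⟨D q, ?_⟩
    show D (δ * P i - ∑ j, c j * J j i) = γ * D q
    rw [hq, Derivation.leibniz, hD]
    simp
  have hS1 : InSat γ J (∑ j, D (c j) • J j) :=
    (bSA_mem hγ).mp (Submodule.sum_mem _ fun j _ =>
      Submodule.smul_mem _ _ ((bSA_mem hγ).mpr (bSA_J hγ J j)))
  have hS2 : InSat γ J (∑ j, c j • (fun i => D (J j i))) :=
    (bSA_mem hγ).mp (Submodule.sum_mem _ fun j _ =>
      Submodule.smul_mem _ _ ((bSA_mem hγ).mpr (hJ j)))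
  have hS3 : InSat γ J ((-D δ) • P) := bSA_smul _ hP'
  have := bSA_add hγ (bSA_add hγ (bSA_add hγ hR hS1) hS2) hS3
  convert this using 1
  funext i
  simp only [Pi.add_apply, Pi.smul_apply, smul_eq_mul, Finset.sum_apply, map_sub, map_sum,
    Derivation.leibniz]
  rw [Finset.sum_add_distrib]
  have e : ∑ x, J x i * D (c x) = ∑ x, D (c x) * J x i :=
    Finset.sum_congr rfl fun x _ => mul_comm _ _
  rw [e]
  ring

/-- SN: Noetherian denominator -/
theorem satN {m : ℕ} (γ : P3) (hγ : Irreducible γ) (J : Fin m → Fin 5 → P3) :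
    ∃ δ : P3, ¬ γ ∣ δ ∧ ∀ P : Fin 5 → P3, InSat γ J P →
      ∃ c : Fin m → P3, ∀ i, γ ∣ δ * P i - ∑ j, c j * J j i := by
  classical
  obtain ⟨S, hS⟩ : (bSA_sat γ hγ J).FG := IsNoetherian.noetherian _
  have hSm : ∀ s ∈ S, InSat γ J s := fun s hs => by
    rw [← bSA_mem hγ, ← hS]
    exact Submodule.subset_span hs
  choose! dd cc hdd hcc using hSm
  refine ⟨∏ s ∈ S, dd s, ?_, ?_⟩
  · intro h
    obtain ⟨s, hs, hd⟩ := (bSA_prime hγ).exists_mem_finset_dvd h
    exact hdd s hs hd
  · intro P hP
    have hP' : P ∈ Submodule.span P3 (S : Set (Fin 5 → P3)) := by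
      rw [hS]
      exact hP
    clear hP
    induction hP' using Submodule.span_induction with
    | mem x hx =>
      have hx' : x ∈ S := hx
      refine ⟨fun j => (∏ s ∈ S.erase x, dd s) * cc x j, fun i => ?_⟩
      have h1 := (hcc x hx' i).mul_left (∏ s ∈ S.erase x, dd s)
      have e : (∏ s ∈ S.erase x, dd s) * (dd x * x i - ∑ j, cc x j * J j i)
          = (∏ s ∈ S, dd s) * x i - ∑ j, (∏ s ∈ S.erase x, dd s) * cc x j * J j i := by
        rw [← Finset.prod_erase_mul S dd hx', mul_sub, Finset.mul_sum]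
        simp only [mul_assoc]
      rw [e] at h1
      exact h1
    | zero => exact ⟨0, fun i => by simp⟩
    | add x y _ _ hx hy =>
      obtain ⟨c, hc⟩ := hx
      obtain ⟨d, hd⟩ := hy
      refine ⟨fun j => c j + d j, fun i => ?_⟩
      have h1 := dvd_add (hc i) (hd i)
      have e : (∏ s ∈ S, dd s) * x i - ∑ j, c j * J j i
          + ((∏ s ∈ S, dd s) * y i - ∑ j, d j * J j i)
          = (∏ s ∈ S, dd s) * (x + y) i - ∑ j, (c j + d j) * J j i := by
        simp only [Pi.add_apply, add_mul, Finset.sum_add_distrib]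
        ring
      rw [e] at h1
      exact h1
    | smul r x _ hx =>
      obtain ⟨c, hc⟩ := hx
      refine ⟨fun j => r * c j, fun i => ?_⟩
      have h1 := (hc i).mul_left r
      have e : r * ((∏ s ∈ S, dd s) * x i - ∑ j, c j * J j i)
          = (∏ s ∈ S, dd s) * (r • x) i - ∑ j, r * c j * J j i := by
        rw [Pi.smul_apply, smul_eq_mul, mul_sub, Finset.mul_sum]
        simp only [mul_assoc]
        ring
      rw [e] at h1
      exact h1

end Pool.Agent.Lib_helper86.D24

end

section

namespace Pool.Agent.Lib_helper86.D24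

open MvPolynomial Matrix


section

open Finset


private theorem bTA_leib (D : Derivation ℂ P3 P3) (n : ℕ) (p q : P3) :
    D^[n] (p * q) = ∑ ij ∈ antidiagonal n, (n.choose ij.1) • (D^[ij.1] p * D^[ij.2] q) := by
  induction n with
  | zero => simp
  | succ n ih =>
    rw [Function.iterate_succ_apply', ih, map_sum]
    rw [Finset.sum_antidiagonal_choose_succ_nsmul (fun i j => D^[i] p * D^[j] q) n,
      ← Finset.sum_add_distrib]
    refine Finset.sum_congr rfl fun ij hij => ?_
    have hs : ij.1 + ij.2 = n := Finset.HasAntidiagonal.mem_antidiagonal.1 hij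
    have hc : n.choose ij.2 = n.choose ij.1 := by
      rw [← hs, Nat.choose_symm_add]
    rw [hc, map_nsmul, D.leibniz, ← smul_add]
    congr 1
    rw [smul_eq_mul, smul_eq_mul, Function.iterate_succ_apply', Function.iterate_succ_apply']
    ring

/-- the Taylor series along `D` at `z`, as a linear map -/
noncomputable def bTA_lin (D : Derivation ℂ P3 P3) (z : V3) : P3 →ₗ[ℂ] PowerSeries ℂ where
  toFun q := PowerSeries.mk fun k => ((k.factorial : ℂ))⁻¹ * eval z (D^[k] q)
  map_add' p q := by
    ext n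
    have h : D^[n] (p + q) = D^[n] p + D^[n] q := by
      have := map_add ((D : P3 →ₗ[ℂ] P3) ^ n) p q
      rw [Module.End.pow_apply, Module.End.pow_apply, Module.End.pow_apply] at this
      exact this
    simp only [PowerSeries.coeff_mk, map_add, h]
    ring
  map_smul' c p := by
    ext n
    have h : D^[n] (c • p) = c • D^[n] p := by
      have := map_smul ((D : P3 →ₗ[ℂ] P3) ^ n) c p
      rw [Module.End.pow_apply, Module.End.pow_apply] at this
      exact this
    simp only [PowerSeries.coeff_mk, h, RingHom.id_apply, PowerSeries.coeff_smul, smul_eval]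
    ring

/-- the Taylor series along `D` at `z` -/
noncomputable def bTA_th (D : Derivation ℂ P3 P3) (z : V3) : P3 →ₐ[ℂ] PowerSeries ℂ :=
  AlgHom.ofLinearMap (bTA_lin D z)
    (by
      ext n
      have h : ∀ n : ℕ, n ≠ 0 → D^[n] (1 : P3) = 0 := by
        intro n hn
        obtain ⟨m, rfl⟩ := Nat.exists_eq_succ_of_ne_zero hn
        rw [Function.iterate_succ_apply, D.map_one_eq_zero]
        have := map_zero ((D : P3 →ₗ[ℂ] P3) ^ m)
        rw [Module.End.pow_apply] at this
        exact this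
      simp only [bTA_lin, LinearMap.coe_mk, AddHom.coe_mk, PowerSeries.coeff_mk,
        PowerSeries.coeff_one]
      rcases eq_or_ne n 0 with rfl | hn
      · simp
      · rw [h n hn, if_neg hn]
        simp)
    (by
      intro p q
      ext n
      rw [PowerSeries.coeff_mul]
      simp only [bTA_lin, LinearMap.coe_mk, AddHom.coe_mk, PowerSeries.coeff_mk]
      rw [bTA_leib, map_sum, Finset.mul_sum]
      refine Finset.sum_congr rfl fun ij hij => ?_
      have hs : ij.1 + ij.2 = n := Finset.HasAntidiagonal.mem_antidiagonal.1 hij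
      rw [map_nsmul, map_mul, nsmul_eq_mul, ← hs]
      have h1 := Nat.add_choose_mul_factorial_mul_factorial ij.1 ij.2
      rw [← Nat.choose_symm_add] at h1
      have h2 : (((ij.1 + ij.2).choose ij.1 : ℕ) : ℂ) * (ij.1.factorial : ℂ) *
          (ij.2.factorial : ℂ) = ((ij.1 + ij.2).factorial : ℂ) := by
        exact_mod_cast h1
      have a1 : (ij.1.factorial : ℂ) ≠ 0 := by exact_mod_cast Nat.factorial_ne_zero _
      have a2 : (ij.2.factorial : ℂ) ≠ 0 := by exact_mod_cast Nat.factorial_ne_zero _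
      have a3 : ((ij.1 + ij.2).factorial : ℂ) ≠ 0 := by exact_mod_cast Nat.factorial_ne_zero _
      rw [← h2] at a3 ⊢
      have a4 : (((ij.1 + ij.2).choose ij.1 : ℕ) : ℂ) ≠ 0 := by
        intro h0
        rw [h0] at a3
        simp at a3
      field_simp)

theorem bTA_coeff (D : Derivation ℂ P3 P3) (z : V3) (q : P3) (n : ℕ) :
    PowerSeries.coeff n (bTA_th D z q) = ((n.factorial : ℂ))⁻¹ * eval z (D^[n] q) := by
  simp [bTA_th, bTA_lin]

theorem bTA_scale {L : Type*} [CommRing L] [Algebra ℂ L] {R : P3} {d : ℕ}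
    (h : R.IsHomogeneous d) (b : L) (g : Fin 3 → L) :
    aeval (fun m => b * g m) R = b ^ d * aeval g R := by
  rw [aeval_def, aeval_def, eval₂_eq', eval₂_eq', Finset.mul_sum]
  refine Finset.sum_congr rfl fun e he => ?_
  have h1 : ∑ i, e i = d := by
    rw [h.degree_eq_sum_deg_support he]
    exact (Finset.sum_subset (Finset.subset_univ _) (by simp)).symm
  have h2 : ∏ i, (b * g i) ^ e i = b ^ d * ∏ i, g i ^ e i := by
    simp only [mul_pow]
    rw [Finset.prod_mul_distrib, Finset.prod_pow_eq_pow_sum, h1]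
  rw [h2]
  ring

theorem bTA_root {R : P3} {d : ℕ} (hR : R ≠ 0) (hh : R.IsHomogeneous d) {i j k : Fin 3}
    (hij : i ≠ j) (hik : i ≠ k) (hjk : j ≠ k) (hk : k ∉ R.vars)
    (g : Fin 3 → PowerSeries ℂ) (h0 : aeval g R = 0) :
    ∃ α β : ℂ, (α ≠ 0 ∨ β ≠ 0) ∧ α • g i + β • g j = 0 := by
  by_cases hB : g j = 0
  · exact ⟨0, 1, Or.inr one_ne_zero, by simp [hB]⟩
  have hall : ∀ m : Fin 3, m ≠ k → m = i ∨ m = j := by
    intro m hm
    omega
  let L := FractionRing (PowerSeries ℂ)
  let b : L := algebraMap (PowerSeries ℂ) L (g j)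
  have hinj : Function.Injective (algebraMap (PowerSeries ℂ) L) :=
    IsFractionRing.injective (PowerSeries ℂ) L
  have hb : b ≠ 0 := by
    intro h
    exact hB (hinj (by rw [map_zero]; exact h))
  let t : L := algebraMap (PowerSeries ℂ) L (g i) / b
  let f : Polynomial ℂ := aeval (fun m => if m = i then Polynomial.X else 1) R
  have hf0 : ∀ x : ℂ, f.eval x = eval (fun m => if m = i then x else 1) R := by
    intro x
    have : (Polynomial.aeval x).comp (aeval (fun m => if m = i then Polynomial.X else 1)) =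
        (aeval (fun m => if m = i then x else 1) : P3 →ₐ[ℂ] ℂ) := by
      ext m
      by_cases hm : m = i <;> simp [hm]
    have h2 := DFunLike.congr_fun this R
    simp only [AlgHom.comp_apply] at h2
    rw [← Polynomial.coe_aeval_eq_eval, ← MvPolynomial.coe_aeval_eq_eval]
    exact h2
  have hfne : f ≠ 0 := by
    intro hf
    apply hR
    have h3 : R * X j = 0 := by
      apply (hh.mul (isHomogeneous_X ℂ j)).eq_zero_of_forall_eval_eq_zero
      intro v
      rw [map_mul, eval_X]
      by_cases hv : v j = 0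
      · rw [hv, mul_zero]
      · have h4 : eval v R = eval (fun m => v j * (if m = i then v i / v j else 1)) R := by
          have : (eval v : P3 →+* ℂ) R = eval (fun m => v j * (if m = i then v i / v j else 1)) R := by
            refine hom_congr_vars ?_ ?_ rfl
            · ext x; simp
            · intro m hm _
              rcases hall m (fun h => hk (h ▸ hm)) with rfl | rfl
              · simp only [eval_X, if_true]
                field_simp
              · simp [hij.symm]
          exact this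
        have h5 : eval (fun m => v j * (if m = i then v i / v j else 1)) R =
            (v j) ^ d * eval (fun m => if m = i then v i / v j else 1) R :=
          bTA_scale hh (v j) (fun m => if m = i then v i / v j else 1)
        have h6 := hf0 (v i / v j)
        rw [hf, Polynomial.eval_zero] at h6
        rw [h4, h5, ← h6]
        simp
    exact (mul_eq_zero.1 h3).resolve_right (X_ne_zero j)
  have ht0 : Polynomial.aeval t f = 0 := by
    have h7 : (Polynomial.aeval t).comp (aeval (fun m => if m = i then Polynomial.X else 1)) =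
        (aeval (fun m => if m = i then t else 1) : P3 →ₐ[ℂ] L) := by
      ext m
      by_cases hm : m = i <;> simp [hm]
    have h8 : Polynomial.aeval t f = aeval (fun m => if m = i then t else 1) R := by
      have := DFunLike.congr_fun h7 R
      simp only [AlgHom.comp_apply] at this
      exact this
    rw [h8]
    have h9 := bTA_scale (L := L) hh b (fun m => if m = i then t else 1)
    have h10 : (aeval (fun m => b * (if m = i then t else 1)) R : L) =
        aeval (fun m => algebraMap (PowerSeries ℂ) L (g m)) R := by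
      have : ((aeval (fun m => b * (if m = i then t else 1)) : P3 →ₐ[ℂ] L) : P3 →+* L) R =
          ((aeval (fun m => algebraMap (PowerSeries ℂ) L (g m)) : P3 →ₐ[ℂ] L) : P3 →+* L) R := by
        refine hom_congr_vars ?_ ?_ rfl
        · ext x; simp
        · intro m hm _
          rcases hall m (fun h => hk (h ▸ hm)) with rfl | rfl
          · simp only [RingHom.coe_coe, aeval_X, if_true]
            exact mul_div_cancel₀ _ hb
          · simp only [RingHom.coe_coe, aeval_X]
            rw [if_neg hij.symm, mul_one]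
      exact this
    have h11 : (aeval (fun m => algebraMap (PowerSeries ℂ) L (g m)) R : L) =
        algebraMap (PowerSeries ℂ) L (aeval g R) := by
      rw [← aeval_algebraMap_apply]
      rfl
    rw [h10, h11, h0, map_zero] at h9
    exact (mul_eq_zero.1 h9.symm).resolve_left (pow_ne_zero _ hb)
  have halg : IsAlgebraic ℂ t := ⟨f, hfne, ht0⟩
  have hint : IsIntegral ℂ t := halg.isIntegral
  have hdeg : (minpoly ℂ t).degree = 1 :=
    IsAlgClosed.degree_eq_one_of_irreducible ℂ (minpoly.irreducible hint)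
  obtain ⟨c, hc⟩ := minpoly.mem_range_of_degree_eq_one ℂ t hdeg
  refine ⟨1, -c, Or.inl one_ne_zero, ?_⟩
  apply hinj
  rw [map_zero, map_add]
  have e1 : algebraMap (PowerSeries ℂ) L (g i) = algebraMap ℂ L c * b := by
    rw [hc]
    exact (div_mul_cancel₀ _ hb).symm
  have e2 : algebraMap (PowerSeries ℂ) L ((-c) • g j) = - (algebraMap ℂ L c * b) := by
    rw [Algebra.smul_def, map_mul, ← IsScalarTower.algebraMap_apply, map_neg, neg_mul]
  rw [one_smul, e1, e2, add_neg_cancel]

end

private theorem bTA_pair (D : Derivation ℂ P3 P3) (z : V3) {R : P3} (hR : R ≠ 0)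
    (hh : ∃ d, R.IsHomogeneous d) {i j k : Fin 3}
    (hij : i ≠ j) (hik : i ≠ k) (hjk : j ≠ k) (hk : k ∉ R.vars) (h0 : bTA_th D z R = 0) :
    z i * eval z (D (X j)) - z j * eval z (D (X i)) = 0 := by
  obtain ⟨d, hd⟩ := hh
  have h1 : aeval (fun m => bTA_th D z (X m)) R = 0 := by
    have := DFunLike.congr_fun (MvPolynomial.aeval_unique (bTA_th D z)) R
    rw [← h0, this]
    rfl
  obtain ⟨α, β, hab, h2⟩ := bTA_root hR hd hij hik hjk hk _ h1
  have c0 := congrArg (PowerSeries.coeff 0) h2
  have c1 := congrArg (PowerSeries.coeff 1) h2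
  rw [map_add, PowerSeries.coeff_smul, PowerSeries.coeff_smul, bTA_coeff, bTA_coeff] at c0 c1
  simp only [Nat.factorial_zero, Nat.factorial_one, Nat.cast_one, inv_one, one_mul,
    Function.iterate_zero, id_eq, eval_X, Function.iterate_one, map_zero, smul_eq_mul] at c0 c1
  rcases hab with ha | hb
  · have : α * (z i * eval z (D (X j)) - z j * eval z (D (X i))) = 0 := by
      linear_combination eval z (D (X j)) * c0 - z j * c1
    exact (mul_eq_zero.1 this).resolve_left ha
  · have : β * (z i * eval z (D (X j)) - z j * eval z (D (X i))) = 0 := by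
      linear_combination z i * c1 - eval z (D (X i)) * c0
    exact (mul_eq_zero.1 this).resolve_left hb

/-- TA (uses E1) -/
theorem taylor (D : Derivation ℂ P3 P3) (γ p : P3) (z : V3) (hγ : Irreducible γ)
    (hγh : ∃ e, γ.IsHomogeneous e) (hD : D γ = 0) (hz : eval z γ = 0)
    (hX : z ⨯₃ (fun j => eval z (D (X j))) ≠ 0) (hp : ∃ d, p.IsHomogeneous d)
    (h : ∀ k : ℕ, eval z (D^[k] p) = 0) : γ ∣ p := by
  by_contra hn
  have hprim : Prim ![γ, p] := by
    intro r hr
    have h1 : r ∣ γ := hr 0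
    have h2 : r ∣ p := hr 1
    rcases hγ.dvd_iff.1 h1 with hu | ha
    · exact hu
    · exact absurd (ha.dvd.trans h2) hn
  have hhom : ∀ i, ∃ d, (![γ, p] i).IsHomogeneous d := by
    intro i
    fin_cases i
    · exact hγh
    · exact hp
  have hθγ : bTA_th D z γ = 0 := by
    ext n
    rw [bTA_coeff, map_zero]
    rcases Nat.eq_zero_or_pos n with rfl | hn0
    · simp [hz]
    · obtain ⟨m, rfl⟩ := Nat.exists_eq_succ_of_ne_zero hn0.ne'
      rw [Function.iterate_succ_apply, hD]
      have : D^[m] (0 : P3) = 0 := by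
        have := map_zero ((D : P3 →ₗ[ℂ] P3) ^ m)
        rw [Module.End.pow_apply] at this
        exact this
      rw [this, map_zero, mul_zero]
  have hθp : bTA_th D z p = 0 := by
    ext n
    rw [bTA_coeff, map_zero, h n, mul_zero]
  have hker : ∀ R ∈ Ideal.span (Set.range ![γ, p]), bTA_th D z R = 0 := by
    intro R hR
    have : Ideal.span (Set.range ![γ, p]) ≤ RingHom.ker (bTA_th D z) := by
      rw [Ideal.span_le]
      rintro _ ⟨i, rfl⟩
      rw [SetLike.mem_coe, RingHom.mem_ker]
      fin_cases i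
      · exact hθγ
      · exact hθp
    exact (RingHom.mem_ker).1 (this hR)
  have key : ∀ i j k : Fin 3, i ≠ j → i ≠ k → j ≠ k →
      z i * eval z (D (X j)) - z j * eval z (D (X i)) = 0 := by
    intro i j k hij hik hjk
    obtain ⟨R, hR, hR0, hRh, hRk⟩ := elim ![γ, p] hhom hprim k
    exact bTA_pair D z hR0 hRh hij hik hjk hRk (hker R hR)
  apply hX
  rw [cross_apply]
  rw [key 1 2 0 (by decide) (by decide) (by decide),
    key 2 0 1 (by decide) (by decide) (by decide),
    key 0 1 2 (by decide) (by decide) (by decide)]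
  ext i
  fin_cases i <;> rfl

end Pool.Agent.Lib_helper86.D24

end

section

namespace Pool.Agent.Lib_helper86.D24

open MvPolynomial Matrix

private theorem bSB_pderiv (γ : P3) (hγ : Irreducible γ) {e : ℕ} (he : γ.IsHomogeneous e) :
    ∃ j, ¬ γ ∣ pderiv j γ := by
  by_contra hc
  push Not at hc
  have he0 : e ≠ 0 := by
    rintro rfl
    have h6 : γ.totalDegree = 0 := he.totalDegree hγ.ne_zero
    rw [totalDegree_eq_zero_iff_eq_C] at h6
    have h7 : γ.coeff 0 ≠ 0 := by
      intro h0
      rw [h0, map_zero] at h6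
      exact hγ.ne_zero h6
    apply hγ.not_isUnit
    rw [h6]
    exact (IsUnit.mk0 _ h7).map C
  have h0 : ∀ j, pderiv j γ = 0 := by
    intro j
    by_contra hne
    obtain ⟨r, hr⟩ := hc j
    have h1 : (pderiv j γ).totalDegree = e - 1 := he.pderiv.totalDegree hne
    have hr0 : r ≠ 0 := by rintro rfl; exact hne (by simpa using hr)
    have h2 := totalDegree_mul_of_isDomain hγ.ne_zero hr0
    rw [← hr, h1, he.totalDegree hγ.ne_zero] at h2
    omega
  have h3 := he.sum_X_mul_pderiv
  simp only [h0, mul_zero, Finset.sum_const_zero] at h3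
  have h4 : (e : P3) * γ = 0 := by rw [← nsmul_eq_mul]; exact h3.symm
  rcases mul_eq_zero.1 h4 with h5 | h5
  · exact he0 (by exact_mod_cast h5)
  · exact hγ.ne_zero h5

private theorem bSB_X (γ : P3) (hγ : Irreducible γ) : ∃ k : Fin 3, ¬ γ ∣ X k := by
  by_contra hc
  push Not at hc
  have h1 : Irreducible (X 0 : P3) := (MvPolynomial.X_prime).irreducible
  have h2 : Associated γ (X 0) := hγ.associated_of_dvd h1 (hc 0)
  have h3 : (X 0 : P3) ∣ X 1 := h2.symm.dvd.trans (hc 1)
  obtain ⟨r, hr⟩ := h3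
  have h4 := congrArg (eval ![0, 1, 0]) hr
  simp at h4

private theorem bSB_add {m : ℕ} {γ : P3} (hγ : Irreducible γ) {J : Fin m → Fin 5 → P3}
    {P Q : Fin 5 → P3} (hP : InSat γ J P) (hQ : InSat γ J Q) :
    InSat γ J (fun i => P i + Q i) := by
  obtain ⟨δ, c, hδ, h⟩ := hP
  obtain ⟨δ', c', hδ', h'⟩ := hQ
  refine ⟨δ * δ', fun j => δ' * c j + δ * c' j, fun hd => ?_, fun i => ?_⟩
  · rcases hγ.prime.dvd_or_dvd hd with h1 | h1
    · exact hδ h1
    · exact hδ' h1
  · have h1 : δ * δ' * (P i + Q i) - ∑ j, (δ' * c j + δ * c' j) * J j i =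
        δ' * (δ * P i - ∑ j, c j * J j i) + δ * (δ' * Q i - ∑ j, c' j * J j i) := by
      simp only [add_mul, Finset.sum_add_distrib, mul_sub, Finset.mul_sum, mul_assoc]
      ring
    rw [h1]
    exact dvd_add ((h i).mul_left _) ((h' i).mul_left _)

private theorem bSB_mul {m : ℕ} {γ : P3} {J : Fin m → Fin 5 → P3}
    {P : Fin 5 → P3} (a : P3) (hP : InSat γ J P) : InSat γ J (fun i => a * P i) := by
  obtain ⟨δ, c, hδ, h⟩ := hP
  refine ⟨δ, fun j => a * c j, hδ, fun i => ?_⟩
  have h1 : δ * (a * P i) - ∑ j, a * c j * J j i = a * (δ * P i - ∑ j, c j * J j i) := by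
    simp only [mul_sub, Finset.mul_sum, mul_assoc]
    ring
  rw [h1]
  exact (h i).mul_left _

/-- SB (uses SA, SN, TA, NSZ) -/
theorem satB {m : ℕ} (γ : P3) (hγ : Irreducible γ) (hγh : ∃ e, γ.IsHomogeneous e)
    (J : Fin m → Fin 5 → P3) (hJ : ∀ j k, InSat γ J (fun i => pderiv k (J j i))) :
    ∃ z : V3, z ≠ 0 ∧ eval z γ = 0 ∧ ∀ l : E5, (∀ j, ∑ i, l i * eval z (J j i) = 0) →
      ∀ P : Fin 5 → P3, (∃ d, ∀ i, (P i).IsHomogeneous d) → InSat γ J P →
        γ ∣ ∑ i, C (l i) * P i := by
  obtain ⟨e, he⟩ := hγh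
  obtain ⟨δ, hδ, hN⟩ := satN γ hγ J
  obtain ⟨j, hj⟩ := bSB_pderiv γ hγ he
  obtain ⟨k, hk⟩ := bSB_X γ hγ
  obtain ⟨z, hz, hq⟩ := nsz γ (δ * pderiv j γ * X k) hγ (fun hd => by
    rcases hγ.prime.dvd_or_dvd hd with h1 | h1
    · rcases hγ.prime.dvd_or_dvd h1 with h2 | h2
      · exact hδ h2
      · exact hj h2
    · exact hk h1)
  rw [map_mul, map_mul, eval_X] at hq
  have hzk : z k ≠ 0 := right_ne_zero_of_mul hq
  have hzδ : eval z δ ≠ 0 := left_ne_zero_of_mul (left_ne_zero_of_mul hq)
  have hzj : eval z (pderiv j γ) ≠ 0 := right_ne_zero_of_mul (left_ne_zero_of_mul hq)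
  set u : V3 := Pi.single k 1 with hu
  set gr : V3 := fun i => eval z (pderiv i γ) with hgr
  set a : Fin 3 → P3 := ![C (u 1) * pderiv 2 γ - C (u 2) * pderiv 1 γ,
    C (u 2) * pderiv 0 γ - C (u 0) * pderiv 2 γ,
    C (u 0) * pderiv 1 γ - C (u 1) * pderiv 0 γ] with ha
  set D : Derivation ℂ P3 P3 := ∑ i, a i • pderiv i with hD
  have hDa : ∀ p, D p = a 0 * pderiv 0 p + a 1 * pderiv 1 p + a 2 * pderiv 2 p := by
    intro p
    simp [hD, Fin.sum_univ_three, Derivation.add_apply]
  have hDγ : D γ = 0 := by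
    rw [hDa]
    simp [ha]
    ring
  have hDX : (fun i => eval z (D (X i))) = u ⨯₃ gr := by
    funext i
    rw [hDa]
    fin_cases i <;> simp [ha, cross_apply, hgr, pderiv_X]
  have hzg : z ⬝ᵥ gr = 0 := by
    have h1 := congrArg (eval z) he.sum_X_mul_pderiv
    rw [map_sum, nsmul_eq_mul, map_mul, hz, mul_zero] at h1
    rw [← h1]
    simp [dotProduct, hgr]
  have hX : z ⨯₃ (fun i => eval z (D (X i))) ≠ 0 := by
    rw [hDX]
    intro h0
    have h1 : z ⨯₃ (u ⨯₃ gr) = (z ⬝ᵥ gr) • u - (z ⬝ᵥ u) • gr := by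
      rw [cross_apply, cross_apply]
      simp only [dotProduct, Fin.sum_univ_three]
      funext i
      fin_cases i <;> simp <;> ring
    rw [h1, hzg, zero_smul, zero_sub, neg_eq_zero] at h0
    have h2 := congrFun h0 j
    rw [Pi.smul_apply, smul_eq_mul, Pi.zero_apply] at h2
    rcases mul_eq_zero.1 h2 with h3 | h3
    · apply hzk
      simpa [hu, dotProduct, Pi.single_apply] using h3
    · exact hzj h3
  have hDJ : ∀ j, InSat γ J (fun i => D (J j i)) := by
    intro j
    have h1 := bSB_add hγ (bSB_add hγ (bSB_mul (a 0) (hJ j 0)) (bSB_mul (a 1) (hJ j 1)))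
      (bSB_mul (a 2) (hJ j 2))
    have h2 : (fun i => D (J j i)) = fun i => a 0 * pderiv 0 (J j i) + a 1 * pderiv 1 (J j i) +
        a 2 * pderiv 2 (J j i) := funext fun i => hDa _
    rw [h2]
    exact h1
  have hit : ∀ (P : Fin 5 → P3), InSat γ J P → ∀ n : ℕ, InSat γ J (fun i => D^[n] (P i)) := by
    intro P hP n
    induction n with
    | zero => simpa using hP
    | succ n ih =>
      have h1 := satA γ hγ J D hDγ hDJ _ ih
      simpa only [Function.iterate_succ_apply'] using h1
  refine ⟨z, ?_, hz, fun l hl P hd hP => ?_⟩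
  · rintro rfl
    exact hzk rfl
  · have hev : ∀ Q : Fin 5 → P3, InSat γ J Q → ∑ i, l i * eval z (Q i) = 0 := by
      intro Q hQ
      obtain ⟨c, hc⟩ := hN Q hQ
      have h1 : ∀ i, eval z δ * eval z (Q i) = ∑ j, eval z (c j) * eval z (J j i) := by
        intro i
        obtain ⟨r, hr⟩ := hc i
        have h2 := congrArg (eval z) hr
        rw [map_sub, map_mul, map_mul, hz, zero_mul, map_sum, sub_eq_zero] at h2
        rw [h2]
        simp
      have h2 : eval z δ * ∑ i, l i * eval z (Q i) = 0 := by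
        calc eval z δ * ∑ i, l i * eval z (Q i) = ∑ i, l i * (eval z δ * eval z (Q i)) := by
              rw [Finset.mul_sum]
              exact Finset.sum_congr rfl fun i _ => by ring
          _ = ∑ i, ∑ j, eval z (c j) * (l i * eval z (J j i)) := by
              refine Finset.sum_congr rfl fun i _ => ?_
              rw [h1, Finset.mul_sum]
              exact Finset.sum_congr rfl fun j _ => by ring
          _ = ∑ j, eval z (c j) * ∑ i, l i * eval z (J j i) := by
              rw [Finset.sum_comm]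
              exact Finset.sum_congr rfl fun j _ => by rw [Finset.mul_sum]
          _ = 0 := Finset.sum_eq_zero fun j _ => by rw [hl j, mul_zero]
      exact (mul_eq_zero.1 h2).resolve_left hzδ
    have hDn : ∀ n : ℕ, D^[n] (∑ i, C (l i) * P i) = ∑ i, C (l i) * D^[n] (P i) := by
      intro n
      induction n with
      | zero => rfl
      | succ n ih =>
        rw [Function.iterate_succ_apply', ih, map_sum]
        refine Finset.sum_congr rfl fun i _ => ?_
        rw [Function.iterate_succ_apply', Derivation.leibniz]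
        have : D (C (l i)) = 0 := by
          rw [hDa]
          simp
        rw [this, smul_zero, add_zero, smul_eq_mul]
    refine taylor D γ _ z hγ ⟨e, he⟩ hDγ hz hX ?_ (fun n => ?_)
    · obtain ⟨d, hd⟩ := hd
      refine ⟨d, IsHomogeneous.sum _ _ _ fun i _ => ?_⟩
      simpa using (isHomogeneous_C _ (l i)).mul (hd i)
    · rw [hDn, map_sum]
      rw [← hev _ (hit P hP n)]
      exact Finset.sum_congr rfl fun i _ => by rw [map_mul, eval_C]

end Pool.Agent.Lib_helper86.D24

end

section

namespace Pool.Agent.Lib_helper86.D24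

open MvPolynomial Matrix


private lemma bCC_scale {γ : P3} {d : ℕ} (hh : γ.IsHomogeneous d) (s : ℂ) (v : V3) :
    eval (s • v) γ = s ^ d * eval v γ := by
  rw [eval_eq', eval_eq', Finset.mul_sum]
  refine Finset.sum_congr rfl fun m hm => ?_
  have h1 : ∑ i, m i = d := by
    have h := hh (mem_support_iff.mp hm)
    rw [Finsupp.weight_apply, Finsupp.sum_fintype _ _ (fun i => by simp)] at h
    simpa using h
  have h2 : ∏ i, (s • v) i ^ m i = s ^ d * ∏ i, v i ^ m i := by
    rw [← h1, ← Finset.prod_pow_eq_pow_sum, ← Finset.prod_mul_distrib]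
    refine Finset.prod_congr rfl fun i _ => ?_
    rw [Pi.smul_apply, smul_eq_mul, mul_pow]
  rw [h2]
  ring

private lemma bCC_eval (f : Fin 3 → Polynomial ℂ) (γ : P3) (t : ℂ) :
    (MvPolynomial.aeval f γ).eval t = eval (fun j => (f j).eval t) γ := by
  have h : (Polynomial.evalRingHom t).comp (MvPolynomial.aeval f : P3 →ₐ[ℂ] Polynomial ℂ).toRingHom
      = (MvPolynomial.eval (fun j => (f j).eval t) : P3 →+* ℂ) := by
    refine MvPolynomial.ringHom_ext (fun r => ?_) (fun i => ?_)
    · simp
    · simp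
  exact congrArg (fun g : P3 →+* ℂ => g γ) h

private lemma bCC_zero {γ : P3} {d : ℕ} (hh : γ.IsHomogeneous d) (hd : d ≠ 0) (a b : V3) :
    (∃ t : ℂ, eval (a + t • b) γ = 0) ∨ eval b γ = 0 := by
  by_contra hcon
  push Not at hcon
  obtain ⟨h1, h2⟩ := hcon
  set p : Polynomial ℂ := MvPolynomial.aeval
    (fun j => Polynomial.C (a j) + Polynomial.X * Polynomial.C (b j)) γ with hp
  have hpe : ∀ t, p.eval t = eval (a + t • b) γ := fun t => by
    rw [hp, bCC_eval]
    congr 2
    funext j
    simp; ring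
  have hdeg : p.degree = 0 := by
    by_contra hne
    obtain ⟨t, ht⟩ := IsAlgClosed.exists_root p hne
    exact h1 t (by rw [← hpe]; exact ht)
  have hc : ∀ t, eval (a + t • b) γ = p.coeff 0 := fun t => by
    rw [← hpe, Polynomial.eq_C_of_degree_eq_zero hdeg]
    simp
  set q : Polynomial ℂ := MvPolynomial.aeval
    (fun j => Polynomial.X * Polynomial.C (a j) + Polynomial.C (b j)) γ with hq
  have hqe : ∀ t, q.eval t = eval (t • a + b) γ := fun t => by
    rw [hq, bCC_eval]
    congr 2
    funext j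
    simp; ring
  have h3 : Polynomial.X * (q - Polynomial.C (p.coeff 0) * Polynomial.X ^ d) = 0 := by
    apply Polynomial.funext
    intro s
    rcases eq_or_ne s 0 with rfl | hs
    · simp
    · have e1 : s • a + b = s • (a + s⁻¹ • b) := by
        rw [smul_add, smul_smul, mul_inv_cancel₀ hs, one_smul]
      rw [Polynomial.eval_mul, Polynomial.eval_sub, hqe, e1, bCC_scale hh, hc]
      simp
      right
      ring
  have h4 : q = Polynomial.C (p.coeff 0) * Polynomial.X ^ d := by
    rcases mul_eq_zero.mp h3 with h | h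
    · exact absurd h Polynomial.X_ne_zero
    · exact sub_eq_zero.mp h
  apply h2
  have h5 := hqe 0
  rw [zero_smul, zero_add] at h5
  rw [← h5, h4]
  simp [hd]

private lemma bCC_plane {w : V3} (hw : w ≠ 0) :
    ∃ a b : V3, b ≠ 0 ∧ (∀ t : ℂ, a + t • b ≠ 0) ∧ a ⬝ᵥ w = 0 ∧ b ⬝ᵥ w = 0 := by
  have hk : w 0 ≠ 0 ∨ w 1 ≠ 0 ∨ w 2 ≠ 0 := by
    by_contra hcon
    push Not at hcon
    apply hw
    funext i
    fin_cases i
    · exact hcon.1
    · exact hcon.2.1
    · exact hcon.2.2
  rcases hk with h | h | h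
  · refine ⟨![-w 1, w 0, 0], ![-w 2, 0, w 0], fun hb => h ?_, fun t hb => h ?_, ?_, ?_⟩
    · simpa using congrFun hb 2
    · simpa using congrFun hb 1
    · simp [dotProduct, Fin.sum_univ_three]; ring
    · simp [dotProduct, Fin.sum_univ_three]; ring
  · refine ⟨![w 1, -w 0, 0], ![0, -w 2, w 1], fun hb => h ?_, fun t hb => h ?_, ?_, ?_⟩
    · simpa using congrFun hb 2
    · simpa using congrFun hb 0
    · simp [dotProduct, Fin.sum_univ_three]; ring
    · simp [dotProduct, Fin.sum_univ_three]; ring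
  · refine ⟨![w 2, 0, -w 0], ![0, w 2, -w 1], fun hb => h ?_, fun t hb => h ?_, ?_, ?_⟩
    · simpa using congrFun hb 1
    · simpa using congrFun hb 0
    · simp [dotProduct, Fin.sum_univ_three]; ring
    · simp [dotProduct, Fin.sum_univ_three]; ring

private lemma bCC_lin (l w : V3) : eval w (lin l) = l ⬝ᵥ w := by
  simp [lin, dotProduct]

private lemma bCC_deg {γ : P3} (hγ : Irreducible γ) {d : ℕ} (hh : γ.IsHomogeneous d) : d ≠ 0 := by
  rintro rfl
  have h := MvPolynomial.totalDegree_eq_zero_iff_eq_C.mp (hh.totalDegree hγ.ne_zero)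
  apply hγ.not_isUnit
  rw [h]
  have hne : γ.coeff 0 ≠ 0 := by
    intro h0
    rw [h0, map_zero] at h
    exact hγ.ne_zero h
  exact (isUnit_iff_ne_zero.mpr hne).map (C : ℂ →+* P3)

/-- CC (uses E2) -/
theorem case1_false {F G : Fin 5 → P3} (h : Pair F G) (γ : P3) (hγ : Irreducible γ)
    (hγh : ∃ e, γ.IsHomogeneous e) (e : E5)
    (he : ∀ l : E5, ∑ i, l i * e i = 0 → γ ∣ ∑ i, C (l i) * F i) : False := by
  by_cases he0 : e = 0
  · refine hγ.not_isUnit (h.primF γ fun i => ?_)
    have h1 := he (Pi.single i 1) (by simp [he0])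
    have h2 : ∑ k, C ((Pi.single i (1 : ℂ) : E5) k) * F k = F i := by
      rw [Finset.sum_eq_single i]
      · simp
      · intro k _ hk
        rw [Pi.single_eq_of_ne hk, map_zero, zero_mul]
      · intro h
        exact absurd (Finset.mem_univ i) h
    rwa [h2] at h1
  obtain ⟨i0, hi0⟩ : ∃ i, e i ≠ 0 := by
    by_contra hcon
    push Not at hcon
    exact he0 (funext hcon)
  obtain ⟨d, hd⟩ := hγh
  obtain ⟨Z, hZ0, hZ⟩ := finite_zeros F (fun i => ⟨6, h.homF i⟩) h.primF
  -- generic `w`
  set Gs : P3 := ∑ i, C (e i) * G i with hGs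
  have hGs0 : Gs ≠ 0 := by
    intro h0
    have h1 := Fintype.linearIndependent_iff.mp h.indG e (by
      rw [← h0, hGs]
      refine Finset.sum_congr rfl fun i _ => ?_
      rw [MvPolynomial.smul_eq_C_mul])
    exact hi0 (h1 i0)
  have hq0 : Gs * ∏ y ∈ Z, lin y ≠ 0 := by
    refine mul_ne_zero hGs0 (Finset.prod_ne_zero_iff.mpr fun y hy => ?_)
    intro h0
    apply hZ0 y hy
    funext j
    have h1 := bCC_lin y (Pi.single j 1)
    rw [h0, map_zero] at h1
    simpa using h1.symm
  obtain ⟨w, hw⟩ : ∃ w : V3, eval w (Gs * ∏ y ∈ Z, lin y) ≠ 0 := by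
    by_contra hcon
    push Not at hcon
    exact hq0 (MvPolynomial.funext fun x => by rw [hcon x, map_zero])
  rw [map_mul, map_prod] at hw
  have hwG : eval w Gs ≠ 0 := left_ne_zero_of_mul hw
  have hwZ : ∀ y ∈ Z, y ⬝ᵥ w ≠ 0 := fun y hy => by
    rw [← bCC_lin]
    exact Finset.prod_ne_zero_iff.mp (right_ne_zero_of_mul hw) y hy
  have hw0 : w ≠ 0 := by
    rintro rfl
    apply hwG
    rw [hGs, map_sum]
    refine Finset.sum_eq_zero fun i _ => ?_
    have h1 := bCC_scale (h.homG i) 0 0
    rw [zero_smul] at h1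
    rw [map_mul, h1]
    simp
  obtain ⟨a, b, hb, hab, haw, hbw⟩ := bCC_plane hw0
  obtain ⟨z, hz0, hzw, hzγ⟩ : ∃ z : V3, z ≠ 0 ∧ z ⬝ᵥ w = 0 ∧ eval z γ = 0 := by
    rcases bCC_zero hd (bCC_deg hγ hd) a b with ⟨t, ht⟩ | ht
    · exact ⟨a + t • b, hab t, by rw [add_dotProduct, smul_dotProduct, haw, hbw]; simp, ht⟩
    · exact ⟨b, hb, hbw, ht⟩
  -- `F(z) = f e`
  have hFz : ∀ i, eval z (F i) * e i0 = eval z (F i0) * e i := by
    intro i
    have h1 := he (fun k => e i0 * (Pi.single i (1 : ℂ) : E5) k - e i * (Pi.single i0 (1 : ℂ) : E5) k)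
      (by
        simp only [sub_mul, Finset.sum_sub_distrib, mul_assoc, ← Finset.mul_sum]
        rw [Finset.sum_eq_single i, Finset.sum_eq_single i0]
        · simp
          ring
        · intro k _ hk
          rw [Pi.single_eq_of_ne hk, zero_mul]
        · intro h
          exact absurd (Finset.mem_univ _) h
        · intro k _ hk
          rw [Pi.single_eq_of_ne hk, zero_mul]
        · intro h
          exact absurd (Finset.mem_univ _) h)
    obtain ⟨q, hq⟩ := h1
    have h2 := congrArg (eval z) hq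
    rw [map_mul, hzγ, zero_mul, map_sum] at h2
    simp only [map_mul, eval_C, sub_mul, Finset.sum_sub_distrib, mul_assoc, ← Finset.mul_sum] at h2
    rw [Finset.sum_eq_single i, Finset.sum_eq_single i0] at h2
    · rw [Pi.single_eq_same, Pi.single_eq_same, one_mul, one_mul] at h2
      linear_combination h2
    · intro k _ hk
      rw [Pi.single_eq_of_ne hk, zero_mul]
    · intro h
      exact absurd (Finset.mem_univ _) h
    · intro k _ hk
      rw [Pi.single_eq_of_ne hk, zero_mul]
    · intro h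
      exact absurd (Finset.mem_univ _) h
  have hFi0 : eval z (F i0) ≠ 0 := by
    intro h0
    have hall : ∀ i, eval z (F i) = 0 := fun i => by
      have := hFz i
      rw [h0, zero_mul] at this
      exact (mul_eq_zero.mp this).resolve_right hi0
    obtain ⟨y, hy, t, ht⟩ := hZ z hz0 hall
    have h1 := hzw
    rw [ht, smul_dotProduct, smul_eq_mul] at h1
    have h2 : t = 0 := (mul_eq_zero.mp h1).resolve_right (hwZ y hy)
    apply hz0
    rw [ht, h2, zero_smul]
  apply hwG
  have h1 := h.orth z w hzw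
  have h2 : eval z (F i0) * eval w Gs = e i0 * ∑ i, eval z (F i) * eval w (G i) := by
    rw [hGs, map_sum, Finset.mul_sum, Finset.mul_sum]
    refine Finset.sum_congr rfl fun i _ => ?_
    rw [map_mul, eval_C]
    linear_combination (-eval w (G i)) * hFz i
  rw [h1, mul_zero] at h2
  exact (mul_eq_zero.mp h2).resolve_left hFi0

end Pool.Agent.Lib_helper86.D24

end

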