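import Pool.Agent.Lib_helper86.D24.Defs2
import Pool.Agent.Lib_helper86.D24.L2

/-!
# D(2,4) = 5: part L4
-/

section

namespace Pool.Agent.Lib_helper86.D24

open MvPolynomial Matrix

/-- G2 -/
theorem null_perp {N : ℕ} (e x : Fin (N + 1) → ℂ) (he : hf e e = 0) (he0 : e ≠ 0)
    (hx : hf x e = 0) : 0 ≤ (hf x x).re ∧ ((hf x x).re = 0 → ∃ c : ℂ, x = c • e) := by
  have h0 : e 0 ≠ 0 := by
    intro h0
    apply he0
    have h1 : ∑ i : Fin N, e i.succ * (starRingEnd ℂ) (e i.succ) = 0 := by
      have := he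
      unfold hf at this
      rw [h0] at this
      simpa using this
    have h2 : ∑ i : Fin N, Complex.normSq (e i.succ) = 0 := by
      have h3 : ((∑ i : Fin N, Complex.normSq (e i.succ) : ℝ) : ℂ) = 0 := by
        rw [← h1]
        push_cast
        exact Finset.sum_congr rfl fun i _ => (Complex.mul_conj _).symm
      exact_mod_cast h3
    have h4 := (Finset.sum_eq_zero_iff_of_nonneg (fun i _ => Complex.normSq_nonneg _)).1 h2
    funext i
    refine Fin.cases h0 (fun i => ?_) i
    exact Complex.normSq_eq_zero.1 (h4 i (Finset.mem_univ _))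
  set c : ℂ := x 0 / e 0 with hc
  have hx0 : x 0 = c * e 0 := by rw [hc]; field_simp
  set y : Fin N → ℂ := fun i => x i.succ - c * e i.succ with hy
  have hxi : ∀ i : Fin N, x i.succ = y i + c * e i.succ := fun i => by simp [hy]
  have hye : ∑ i : Fin N, y i * (starRingEnd ℂ) (e i.succ) = 0 := by
    have h1 : hf x e = ∑ i : Fin N, y i * (starRingEnd ℂ) (e i.succ) + c * hf e e := by
      unfold hf
      rw [hx0, mul_sub, Finset.mul_sum, ← add_sub_assoc, ← Finset.sum_add_distrib]
      congr 1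
      · refine Finset.sum_congr rfl fun i _ => ?_
        rw [hxi]; ring
      · ring
    rw [hx, he, mul_zero, add_zero] at h1
    exact h1.symm
  have hey : ∑ i : Fin N, e i.succ * (starRingEnd ℂ) (y i) = 0 := by
    have := congrArg (starRingEnd ℂ) hye
    rw [map_sum, map_zero] at this
    rw [← this]
    refine Finset.sum_congr rfl fun i _ => ?_
    rw [map_mul, Complex.conj_conj, mul_comm]
  have hxx : hf x x = ((∑ i : Fin N, Complex.normSq (y i) : ℝ) : ℂ) := by
    have h1 : hf x x = ∑ i : Fin N, y i * (starRingEnd ℂ) (y i) +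
        (starRingEnd ℂ) c * ∑ i : Fin N, y i * (starRingEnd ℂ) (e i.succ) +
        c * ∑ i : Fin N, e i.succ * (starRingEnd ℂ) (y i) +
        c * (starRingEnd ℂ) c * hf e e := by
      unfold hf
      rw [hx0]
      simp only [Finset.mul_sum, mul_sub, ← add_sub_assoc, ← Finset.sum_add_distrib]
      congr 1
      · refine Finset.sum_congr rfl fun i _ => ?_
        rw [hxi]
        simp only [map_add, map_mul]
        ring
      · simp only [map_mul]
        ring
    rw [h1, hye, hey, he]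
    push_cast
    simp only [mul_zero, add_zero]
    exact Finset.sum_congr rfl fun i _ => Complex.mul_conj _
  rw [hxx, Complex.ofReal_re]
  refine ⟨Finset.sum_nonneg fun i _ => Complex.normSq_nonneg _, fun h => ⟨c, ?_⟩⟩
  have h4 := (Finset.sum_eq_zero_iff_of_nonneg (fun i _ => Complex.normSq_nonneg _)).1 h
  funext i
  refine Fin.cases ?_ (fun i => ?_) i
  · simpa using hx0
  · have h5 : y i = 0 := Complex.normSq_eq_zero.1 (h4 i (Finset.mem_univ _))
    rw [hxi, h5]
    simp

end Pool.Agent.Lib_helper86.D24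

end

section

namespace Pool.Agent.Lib_helper86.D24

open MvPolynomial Matrix


/-- the semilinear involution: conjugate the coefficients, `X_0 ↦ -X_0` -/
private noncomputable def bPA_Φ : P3 →+* P3 :=
  ((aeval (![-X 0, X 1, X 2] : Fin 3 → P3)).toRingHom).comp (MvPolynomial.map (starRingEnd ℂ))

private lemma bPA_Φ_C (a : ℂ) : bPA_Φ (C a) = C ((starRingEnd ℂ) a) := by
  simp [bPA_Φ, algebraMap_eq]

private lemma bPA_Φ_X (j : Fin 3) : bPA_Φ (X j) = (![-X 0, X 1, X 2] : Fin 3 → P3) j := by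
  simp [bPA_Φ]

private lemma bPA_ΦΦ (p : P3) : bPA_Φ (bPA_Φ p) = p := by
  have : bPA_Φ.comp bPA_Φ = RingHom.id P3 := by
    apply MvPolynomial.ringHom_ext
    · intro a
      simp [bPA_Φ_C]
    · intro j
      fin_cases j <;> simp [bPA_Φ_X]
  exact RingHom.congr_fun this p

private noncomputable def bPA_σ (w : V3) : V3 := ![-(starRingEnd ℂ) (w 0), (starRingEnd ℂ) (w 1), (starRingEnd ℂ) (w 2)]

private lemma bPA_eval (w : V3) (p : P3) : eval w (bPA_Φ p) = (starRingEnd ℂ) (eval (bPA_σ w) p) := by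
  have : (eval w).comp bPA_Φ = (starRingEnd ℂ).comp (eval (bPA_σ w)) := by
    apply MvPolynomial.ringHom_ext
    · intro a
      simp [bPA_Φ_C]
    · intro j
      fin_cases j <;> simp [bPA_Φ_X, bPA_σ]
  exact RingHom.congr_fun this p

private lemma bPA_hom {p : P3} {d : ℕ} (hp : p.IsHomogeneous d) :
    (bPA_Φ p).IsHomogeneous d := by
  have h1 : (MvPolynomial.map (starRingEnd ℂ) p).IsHomogeneous d := hp.map _
  have h2 := h1.aeval (![-X 0, X 1, X 2] : Fin 3 → P3) (n := 1) (by
    intro j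
    fin_cases j
    · exact (isHomogeneous_X ℂ (0 : Fin 3)).neg
    · exact isHomogeneous_X ℂ (1 : Fin 3)
    · exact isHomogeneous_X ℂ (2 : Fin 3))
  rw [one_mul] at h2
  exact h2

private lemma bPA_sg (i : Fin 5) : (sg (N := 4) i) * (sg (N := 4) i) = 1 := by
  unfold sg; split_ifs <;> norm_num

private lemma bPA_sg_conj (i : Fin 5) : (starRingEnd ℂ) (sg (N := 4) i) = sg (N := 4) i := by
  unfold sg; split_ifs <;> simp

/-! ### polynomial functions of one variable -/

private def bPA_Pol (f : ℂ → ℂ) : Prop := ∃ q : Polynomial ℂ, ∀ t, f t = q.eval t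

private lemma bPA_Pol_add {f g : ℂ → ℂ} (hf : bPA_Pol f) (hg : bPA_Pol g) :
    bPA_Pol (fun t => f t + g t) := by
  obtain ⟨p, hp⟩ := hf
  obtain ⟨q, hq⟩ := hg
  exact ⟨p + q, fun t => by simp [hp, hq]⟩

private lemma bPA_Pol_mul {f g : ℂ → ℂ} (hf : bPA_Pol f) (hg : bPA_Pol g) :
    bPA_Pol (fun t => f t * g t) := by
  obtain ⟨p, hp⟩ := hf
  obtain ⟨q, hq⟩ := hg
  exact ⟨p * q, fun t => by simp [hp, hq]⟩

private lemma bPA_Pol_const (c : ℂ) : bPA_Pol (fun _ => c) := ⟨Polynomial.C c, fun t => by simp⟩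

private lemma bPA_Pol_id : bPA_Pol (fun t => t) := ⟨Polynomial.X, fun t => by simp⟩

private lemma bPA_Pol_sub {f g : ℂ → ℂ} (hf : bPA_Pol f) (hg : bPA_Pol g) :
    bPA_Pol (fun t => f t - g t) := by
  obtain ⟨p, hp⟩ := hf
  obtain ⟨q, hq⟩ := hg
  exact ⟨p - q, fun t => by simp [hp, hq]⟩

private lemma bPA_Pol_eval (p : P3) (c : ℂ → V3) (hc : ∀ j, bPA_Pol (fun t => c t j)) :
    bPA_Pol (fun t => eval (c t) p) := by
  induction p using MvPolynomial.induction_on with
  | C a => simpa using bPA_Pol_const a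
  | add p q hp hq => simpa using bPA_Pol_add hp hq
  | mul_X p j hp => simpa using bPA_Pol_mul hp (hc j)

private lemma bPA_dv_apply (u : V3) (p : P3) : dv u p = C (u 0) * pderiv 0 p +
    C (u 1) * pderiv 1 p + C (u 2) * pderiv 2 p := by
  simp only [dv, Fin.sum_univ_three, Derivation.add_apply, Derivation.smul_apply, smul_eq_mul]

private lemma bPA_dv_add (u v : V3) (p : P3) : dv (u + v) p = dv u p + dv v p := by
  simp only [bPA_dv_apply, Pi.add_apply, C_add]
  ring

private lemma bPA_dv_smul (t : ℂ) (v : V3) (p : P3) : dv (t • v) p = C t * dv v p := by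
  simp only [bPA_dv_apply, Pi.smul_apply, smul_eq_mul, C_mul]
  ring

private lemma bPA_it_add (w : V3) (k : ℕ) (a b : P3) :
    (dv w)^[k] (a + b) = (dv w)^[k] a + (dv w)^[k] b := by
  induction k generalizing a b with
  | zero => rfl
  | succ k ih => simp only [Function.iterate_succ_apply, map_add, ih]

private lemma bPA_dv_C (w : V3) (c : ℂ) (a : P3) : dv w (C c * a) = C c * dv w a := by
  rw [← smul_eq_C_mul, ← smul_eq_C_mul]
  exact (dv w).map_smul c a

private lemma bPA_it_C (w : V3) (k : ℕ) (c : ℂ) (a : P3) :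
    (dv w)^[k] (C c * a) = C c * (dv w)^[k] a := by
  induction k generalizing a with
  | zero => rfl
  | succ k ih => simp only [Function.iterate_succ_apply, bPA_dv_C, ih]

private lemma bPA_it_sum (w : V3) (k : ℕ) (F : Fin 5 → P3) :
    (dv w)^[k] (∑ i, F i) = ∑ i, (dv w)^[k] (F i) := by
  induction k generalizing F with
  | zero => rfl
  | succ k ih => simp only [Function.iterate_succ_apply, map_sum, ih]

private lemma bPA_Pol_ej (z z' u v : V3) (k : ℕ) (p : P3) :
    bPA_Pol (fun t => eval (z + t • z') ((dv (u + t • v))^[k] p)) := by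
  induction k generalizing p with
  | zero =>
    simp only [Function.iterate_zero, id]
    apply bPA_Pol_eval
    intro j
    simp only [Pi.add_apply, Pi.smul_apply, smul_eq_mul]
    exact bPA_Pol_add (bPA_Pol_const _) (bPA_Pol_mul bPA_Pol_id (bPA_Pol_const _))
  | succ k ih =>
    have : ∀ t : ℂ, eval (z + t • z') ((dv (u + t • v))^[k + 1] p) =
        eval (z + t • z') ((dv (u + t • v))^[k] (dv u p)) +
        t * eval (z + t • z') ((dv (u + t • v))^[k] (dv v p)) := by
      intro t
      rw [Function.iterate_succ_apply, bPA_dv_add, bPA_dv_smul, bPA_it_add, bPA_it_C, map_add,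
        map_mul, eval_C]
    simp only [this]
    exact bPA_Pol_add (ih _) (bPA_Pol_mul bPA_Pol_id (ih _))

private lemma bPA_Pol_det {n : ℕ} (M : ℂ → Matrix (Fin n) (Fin n) ℂ)
    (h : ∀ a b, bPA_Pol (fun t => M t a b)) : bPA_Pol (fun t => (M t).det) := by
  choose q hq using h
  refine ⟨(Matrix.of q).det, fun t => ?_⟩
  have := RingHom.map_det (Polynomial.evalRingHom t) (Matrix.of q)
  rw [Polynomial.coe_evalRingHom] at this
  rw [this]
  refine congrArg Matrix.det ?_
  ext a b
  simp [hq]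

/-- a product of two polynomial functions which vanishes identically -/
private lemma bPA_Pol_zero {f g : ℂ → ℂ} (hf : bPA_Pol f) (hg : bPA_Pol g) (h : ∀ t, f t * g t = 0)
    (h0 : f 0 ≠ 0) : ∀ t, g t = 0 := by
  obtain ⟨p, hp⟩ := hf
  obtain ⟨q, hq⟩ := hg
  have h1 : p * q = 0 := by
    apply Polynomial.funext
    intro t
    rw [Polynomial.eval_mul, ← hp, ← hq, h, Polynomial.eval_zero]
  rcases mul_eq_zero.1 h1 with h2 | h2
  · exact absurd (by rw [hp, h2, Polynomial.eval_zero]) h0
  · intro t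
    rw [hq, h2, Polynomial.eval_zero]

/-! ### linear algebra -/

private lemma bPA_lin (f : Fin 4 → E5) (s : Fin 4 → Fin 5) (hs : mn f s ≠ 0) (l g : E5)
    (hl : ∀ k, ∑ i, f k i * l i = 0) (hg : ∀ k, ∑ i, f k i * g i = 0) (i j : Fin 5) :
    l j * g i - l i * g j = 0 := by
  have hinj : Function.Injective s := by
    intro a b hab
    by_contra hne
    exact hs (Matrix.det_zero_of_column_eq hne (fun c => by simp [hab]))
  obtain ⟨m, hm⟩ : ∃ m, m ∉ Set.range s := by
    by_contra hcon
    push Not at hcon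
    have hsurj : Function.Surjective s := fun x => hcon x
    have := Fintype.card_le_of_surjective s hsurj
    simp at this
  have hcinj : Function.Injective (Fin.cons m s : Fin 5 → Fin 5) :=
    Fin.cons_injective_iff.2 ⟨hm, hinj⟩
  have hcbij : Function.Bijective (Fin.cons m s : Fin 5 → Fin 5) :=
    Finite.injective_iff_bijective.1 hcinj
  have hsum : ∀ x : E5, ∑ i, x i = x m + ∑ a, x (s a) := by
    intro x
    rw [← hcbij.sum_comp x, Fin.sum_univ_succ]
    simp
  -- key
  have key : ∀ h : E5, (∀ k, ∑ i, f k i * h i = 0) → h m = 0 → h = 0 := by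
    intro h hh h0
    have h1 : (Matrix.of fun a b => f a (s b)) *ᵥ (fun b => h (s b)) = 0 := by
      ext k
      have := hh k
      rw [hsum (fun i => f k i * h i)] at this
      simpa [h0, Matrix.mulVec, dotProduct] using this
    have h2 : (fun b => h (s b)) = 0 := Matrix.eq_zero_of_mulVec_eq_zero hs h1
    ext x
    obtain ⟨y, rfl⟩ := hcbij.2 x
    refine Fin.cases ?_ (fun y => ?_) y
    · simpa using h0
    · simpa using congrFun h2 y
  have h3 : (fun i => l m * g i - g m * l i) = 0 := by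
    apply key
    · intro k
      have : ∑ i, f k i * (l m * g i - g m * l i) =
          l m * ∑ i, f k i * g i - g m * ∑ i, f k i * l i := by
        rw [Finset.mul_sum, Finset.mul_sum, ← Finset.sum_sub_distrib]
        exact Finset.sum_congr rfl (fun i _ => by ring)
      rw [this, hl, hg]
      ring
    · ring
  by_cases hlm : l m = 0
  · have := key l hl hlm
    simp [this]
  · have hi := congrFun h3 i
    have hj := congrFun h3 j
    simp only [Pi.zero_apply] at hi hj
    have : l m * (l j * g i - l i * g j) = 0 := by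
      linear_combination l j * hi - l i * hj
    exact (mul_eq_zero.1 this).resolve_left hlm

private lemma bPA_cross (w : V3) : ∃ z v : V3, z ⨯₃ v = w := by
  by_cases h0 : w 0 = 0
  · refine ⟨![1, 0, 0], ![0, w 2, - w 1], ?_⟩
    ext j
    fin_cases j <;> simp [cross_apply, h0]
  · refine ⟨![-w 1, w 0, 0], ![-w 2 / w 0, 0, 1], ?_⟩
    ext j
    fin_cases j <;> simp [cross_apply]
    all_goals field_simp

/-- PA: the dual pair -/
theorem exists_pair {F : Fin 5 → P3} (h : HMap F) : ∃ G, Pair F G := by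
  let G : Fin 5 → P3 := fun i => C (sg (N := 4) i) * bPA_Φ (F i)
  have hGev : ∀ w i, eval w (G i) = sg (N := 4) i * (starRingEnd ℂ) (eval (bPA_σ w) (F i)) := by
    intro w i
    simp only [G, map_mul, eval_C, bPA_eval]
  have hG : ∀ i, (G i).IsHomogeneous 6 := by
    intro i
    have := (isHomogeneous_C (Fin 3) (sg (N := 4) i)).mul (bPA_hom (h.hom i))
    simpa using this
  have horth : ∀ z w : V3, z ⬝ᵥ w = 0 → ∑ i, eval z (F i) * eval w (G i) = 0 := by
    intro z w hzw
    have h1 : hf z (bPA_σ w) = 0 := by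
      have : hf z (bPA_σ w) = z ⬝ᵥ w := by
        simp [hf, bPA_σ, Fin.sum_univ_two, dotProduct, Fin.sum_univ_three]
        ring
      rw [this, hzw]
    have h2 := h.herm z _ h1
    rw [← h2]
    simp only [hf, hGev, Fin.sum_univ_succ (n := 4), sg, Fin.succ_ne_zero, if_true, if_false,
      one_mul]
    ring
  have hprimG : Prim G := by
    intro r hr
    have h1 : IsUnit (bPA_Φ r) := by
      apply h.prim
      intro i
      have h2 : r ∣ bPA_Φ (F i) := by
        have : bPA_Φ (F i) = C (sg (N := 4) i) * G i := by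
          simp only [G]
          rw [← mul_assoc, ← C_mul, bPA_sg, C_1, one_mul]
        rw [this]
        exact (hr i).mul_left _
      have h3 := map_dvd bPA_Φ h2
      rwa [bPA_ΦΦ] at h3
    have h2 := h1.map bPA_Φ
    rwa [bPA_ΦΦ] at h2
  have hind : ∀ l : E5, (∑ i, C (l i) * F i = 0) → l = 0 := by
    intro l hl
    by_contra hl0
    obtain ⟨z0, v0, s, hs⟩ := h.full
    have hlej : ∀ (v : V3) (k : ℕ) (z : V3), ∑ i, ej F v k z i * l i = 0 := by
      intro v k z
      have h1 : (dv v)^[k] (∑ i, C (l i) * F i) = 0 := by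
        rw [hl]
        exact Function.iterate_fixed (map_zero _) k
      rw [bPA_it_sum] at h1
      simp only [bPA_it_C] at h1
      have h2 := congrArg (eval z) h1
      simp only [map_sum, map_mul, eval_C, map_zero] at h2
      rw [← h2]
      exact Finset.sum_congr rfl (fun i _ => mul_comm _ _)
    have hP : ∀ i j, C (l j) * G i - C (l i) * G j = 0 := by
      intro i j
      apply MvPolynomial.funext
      intro w
      rw [map_zero]
      obtain ⟨z1, v1, rfl⟩ := bPA_cross w
      have hmain := bPA_Pol_zero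
        (f := fun t => mn (fun k : Fin 4 =>
          ej F (v0 + t • (v1 - v0)) (k : ℕ) (z0 + t • (z1 - z0))) s)
        (g := fun t => eval ((z0 + t • (z1 - z0)) ⨯₃ (v0 + t • (v1 - v0)))
          (C (l j) * G i - C (l i) * G j)) ?_ ?_ ?_ ?_ 1
      · simpa using hmain
      · unfold mn
        apply bPA_Pol_det
        intro a b
        exact bPA_Pol_ej _ _ _ _ _ _
      · apply bPA_Pol_eval
        have hlin : ∀ (a b : V3) (j : Fin 3), bPA_Pol (fun t => (a + t • b) j) := by
          intro a b j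
          simp only [Pi.add_apply, Pi.smul_apply, smul_eq_mul]
          exact bPA_Pol_add (bPA_Pol_const _) (bPA_Pol_mul bPA_Pol_id (bPA_Pol_const _))
        intro j
        simp only [cross_apply]
        fin_cases j
        · exact bPA_Pol_sub (bPA_Pol_mul (hlin _ _ _) (hlin _ _ _))
            (bPA_Pol_mul (hlin _ _ _) (hlin _ _ _))
        · exact bPA_Pol_sub (bPA_Pol_mul (hlin _ _ _) (hlin _ _ _))
            (bPA_Pol_mul (hlin _ _ _) (hlin _ _ _))
        · exact bPA_Pol_sub (bPA_Pol_mul (hlin _ _ _) (hlin _ _ _))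
            (bPA_Pol_mul (hlin _ _ _) (hlin _ _ _))
      · intro t
        by_cases hf0 : mn (fun k : Fin 4 =>
          ej F (v0 + t • (v1 - v0)) (k : ℕ) (z0 + t • (z1 - z0))) s = 0
        · simp only [hf0, zero_mul]
        · set z := z0 + t • (z1 - z0)
          set v := v0 + t • (v1 - v0)
          have := bPA_lin (fun k : Fin 4 => ej F v (k : ℕ) z) s hf0 l
            (fun i => eval (z ⨯₃ v) (G i)) (fun k => hlej _ _ _)
            (fun k => orth_ej horth z v (z ⨯₃ v) (dot_self_cross z v) (dot_cross_self z v) k) i j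
          simp only [map_sub, map_mul, eval_C]
          rw [this, mul_zero]
      · simpa using hs
    obtain ⟨j, hj⟩ : ∃ j, l j ≠ 0 := by
      by_contra hcon
      push Not at hcon
      exact hl0 (funext hcon)
    have hunit : IsUnit (G j) := by
      apply hprimG
      intro i
      refine ⟨C ((l j)⁻¹ * l i), ?_⟩
      have h1 := hP i j
      have h2 : C (l j)⁻¹ * (C (l j) * G i - C (l i) * G j) = 0 := by rw [h1, mul_zero]
      have h3 : C (l j)⁻¹ * C (l j) = (1 : P3) := by
        rw [← C_mul, inv_mul_cancel₀ hj, C_1]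
      rw [C_mul]
      linear_combination h2 - G i * h3
    have h1 : IsUnit (constantCoeff (G j)) := hunit.map constantCoeff
    have h2 : constantCoeff (G j) = 0 := by
      rw [constantCoeff_eq]
      exact (hG j).coeff_eq_zero (by simp)
    rw [h2] at h1
    exact not_isUnit_zero h1
  refine ⟨G, h.hom, hG, horth, h.prim, hprimG, ?_, ?_, h.full⟩
  · rw [Fintype.linearIndependent_iff]
    intro l hl i
    have := hind l (by simpa only [smul_eq_C_mul] using hl)
    rw [this]; rfl
  · rw [Fintype.linearIndependent_iff]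
    intro l hl i
    have h1 : ∑ i, C ((starRingEnd ℂ) (l i) * sg (N := 4) i) * F i = 0 := by
      have h2 := congrArg bPA_Φ hl
      rw [map_sum, map_zero] at h2
      rw [← h2]
      refine Finset.sum_congr rfl (fun i _ => ?_)
      simp only [G, smul_eq_C_mul, map_mul, bPA_Φ_C, bPA_ΦΦ, bPA_sg_conj, mul_assoc]
    have h2 := congrFun (hind _ h1) i
    simp only [Pi.zero_apply] at h2
    rcases mul_eq_zero.1 h2 with h3 | h3
    · simpa using h3
    · have := bPA_sg i
      rw [h3] at this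
      simp at this

end Pool.Agent.Lib_helper86.D24

end

section

namespace Pool.Agent.Lib_helper86.D24

open MvPolynomial Matrix


private lemma fr_hf (u v : V3) :
    hf (N := 2) u v = u 1 * (starRingEnd ℂ) (v 1) + u 2 * (starRingEnd ℂ) (v 2) - u 0 * (starRingEnd ℂ) (v 0) := by
  unfold hf
  rw [Fin.sum_univ_two]
  rfl

private lemma fr_sum (B : Fin 3 → V3) (z w : V3) :
    hf (N := 2) (∑ k, z k • B k) (∑ k, w k • B k) =
      ∑ j, ∑ k, z j * (starRingEnd ℂ) (w k) * hf (N := 2) (B j) (B k) := by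
  simp only [fr_hf, Fin.sum_univ_three, Pi.add_apply, Pi.smul_apply, smul_eq_mul, map_add, map_mul]
  ring

private lemma fr_conj (a b : V3) : hf (N := 2) a b = (starRingEnd ℂ) (hf (N := 2) b a) := by
  simp only [fr_hf, map_add, map_sub, map_mul, Complex.conj_conj]
  ring

private lemma fr_smul (r s : ℂ) (a b : V3) :
    hf (N := 2) (r • a) (s • b) = r * (starRingEnd ℂ) s * hf (N := 2) a b := by
  simp only [fr_hf, Pi.smul_apply, smul_eq_mul, map_mul]
  ring

/-- linear independence from a nondegenerate Gram matrix -/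
private lemma fr_li (B : Fin 3 → V3) (q : V3 → V3 → ℂ)
    (hB : ∀ z w : V3, hf (N := 2) (∑ k, z k • B k) (∑ k, w k • B k) = q z w)
    (hq : ∀ z, (∀ w, q z w = 0) → z = 0) : LinearIndependent ℂ B := by
  rw [Fintype.linearIndependent_iff]
  intro z hz k
  have : z = 0 := hq z fun w => by
    rw [← hB, hz, fr_hf]
    simp
  rw [this]
  rfl

private lemma fr_diag (P : Fin 3 → V3) (d s : Fin 3 → ℝ) (hd : ∀ k, 0 < s k * d k)
    (hs : ∀ k, s k * s k = 1)
    (h01 : hf (N := 2) (P 0) (P 1) = 0) (h02 : hf (N := 2) (P 0) (P 2) = 0)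
    (h12 : hf (N := 2) (P 1) (P 2) = 0) (hP : ∀ k, hf (N := 2) (P k) (P k) = (d k : ℂ)) :
    ∃ r : Fin 3 → ℝ, (∀ k, 0 < r k) ∧ (∀ z w : V3,
      hf (N := 2) (∑ k, z k • ((r k : ℂ) • P k)) (∑ k, w k • ((r k : ℂ) • P k)) =
        (s 0 : ℂ) * (z 0 * (starRingEnd ℂ) (w 0)) + (s 1 : ℂ) * (z 1 * (starRingEnd ℂ) (w 1)) +
          (s 2 : ℂ) * (z 2 * (starRingEnd ℂ) (w 2))) ∧
      ∀ z : V3, hf (N := 2) (∑ k, z k • ((r k : ℂ) • P k)) (P 0) =
        (r 0 : ℂ) * (d 0 : ℂ) * z 0 := by
  refine ⟨fun k => (Real.sqrt (s k * d k))⁻¹, fun k => inv_pos.2 (Real.sqrt_pos.2 (hd k)), ?_, ?_⟩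
  · intro z w
    rw [fr_sum]
    have h10 : hf (N := 2) (P 1) (P 0) = 0 := by rw [fr_conj, h01, map_zero]
    have h20 : hf (N := 2) (P 2) (P 0) = 0 := by rw [fr_conj, h02, map_zero]
    have h21 : hf (N := 2) (P 2) (P 1) = 0 := by rw [fr_conj, h12, map_zero]
    have hk : ∀ k, (((Real.sqrt (s k * d k))⁻¹ : ℝ) : ℂ) * (starRingEnd ℂ) (((Real.sqrt (s k * d k))⁻¹ : ℝ) : ℂ)
        * hf (N := 2) (P k) (P k) = (s k : ℂ) := by
      intro k
      rw [hP, Complex.conj_ofReal, ← Complex.ofReal_mul, ← Complex.ofReal_mul]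
      congr 1
      rw [← mul_inv, Real.mul_self_sqrt (hd k).le]
      have h1 := (hd k).ne'
      have h2 : s k ≠ 0 := fun h => by rw [h] at h1; simp at h1
      have h3 : d k ≠ 0 := fun h => by rw [h] at h1; simp at h1
      field_simp
      have := hs k
      nlinarith [this]
    simp only [Fin.sum_univ_three, fr_smul, h01, h02, h12, h10, h20, h21, hk, mul_zero, add_zero,
      zero_add]
    ring
  · intro z
    have h10 : hf (N := 2) (P 1) (P 0) = 0 := by rw [fr_conj, h01, map_zero]
    have h20 : hf (N := 2) (P 2) (P 0) = 0 := by rw [fr_conj, h02, map_zero]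
    have h00 := hP 0
    rw [fr_hf] at h10 h20 h00
    rw [fr_hf]
    simp only [Fin.sum_univ_three, Pi.add_apply, Pi.smul_apply, smul_eq_mul]
    linear_combination (z 0 * (((Real.sqrt (s 0 * d 0))⁻¹ : ℝ) : ℂ)) * h00 +
      (z 1 * (((Real.sqrt (s 1 * d 1))⁻¹ : ℝ) : ℂ)) * h10 +
      (z 2 * (((Real.sqrt (s 2 * d 2))⁻¹ : ℝ) : ℂ)) * h20

/-- SF1: source frames -/
theorem exists_frame (l : V3) (hl : l ≠ 0) :
    (∃ (ε : ℝ) (B : Fin 3 → V3) (c : ℂ), (ε = 1 ∨ ε = -1) ∧ LinearIndependent ℂ B ∧ c ≠ 0 ∧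
      (∀ z w : V3, hf (∑ k, z k • B k) (∑ k, w k • B k) = qd ε z w) ∧
      ∀ z : V3, l ⬝ᵥ (∑ k, z k • B k) = c * z 0) ∨
    (∃ (B : Fin 3 → V3) (c : ℂ), LinearIndependent ℂ B ∧ c ≠ 0 ∧
      (∀ z w : V3, hf (∑ k, z k • B k) (∑ k, w k • B k) = qn z w) ∧
      ∀ z : V3, l ⬝ᵥ (∑ k, z k • B k) = c * z 2) := by
  -- the pole
  obtain ⟨p, hp⟩ : ∃ p : V3, p = ![-(starRingEnd ℂ) (l 0), (starRingEnd ℂ) (l 1), (starRingEnd ℂ) (l 2)] := ⟨_, rfl⟩
  have hlp : ∀ z : V3, l ⬝ᵥ z = hf (N := 2) z p := by
    intro z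
    rw [fr_hf, hp]
    simp [dotProduct, Fin.sum_univ_three]
    ring
  have hp0 : p ≠ 0 := by
    intro h
    apply hl
    have h0 := congrFun h 0
    have h1 := congrFun h 1
    have h2 := congrFun h 2
    rw [hp] at h0 h1 h2
    simp at h0 h1 h2
    ext i
    fin_cases i <;> simp [h0, h1, h2]
  -- the norms
  obtain ⟨a, ha⟩ : ∃ a : ℝ, a = Complex.normSq (p 1) + Complex.normSq (p 2) := ⟨_, rfl⟩
  obtain ⟨b, hb⟩ : ∃ b : ℝ, b = Complex.normSq (p 0) := ⟨_, rfl⟩
  have ha' : (a : ℂ) = p 1 * (starRingEnd ℂ) (p 1) + p 2 * (starRingEnd ℂ) (p 2) := by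
    rw [ha, Complex.mul_conj, Complex.mul_conj]; push_cast; ring
  have hb' : (b : ℂ) = p 0 * (starRingEnd ℂ) (p 0) := by
    rw [hb, Complex.mul_conj]
  have ha0 : 0 ≤ a := by rw [ha]; exact add_nonneg (Complex.normSq_nonneg _) (Complex.normSq_nonneg _)
  have hb0 : 0 ≤ b := by rw [hb]; exact Complex.normSq_nonneg _
  by_cases ha1 : a = 0
  · -- p = (p0, 0, 0)
    have h1 : p 1 = 0 := by
      have := Complex.normSq_nonneg (p 2)
      have h3 := Complex.normSq_nonneg (p 1)
      exact Complex.normSq_eq_zero.1 (by linarith)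
    have h2 : p 2 = 0 := by
      have := Complex.normSq_nonneg (p 2)
      have h3 := Complex.normSq_nonneg (p 1)
      exact Complex.normSq_eq_zero.1 (by linarith)
    have h0 : p 0 ≠ 0 := by
      intro h
      apply hp0
      ext i
      fin_cases i <;> simp [h, h1, h2]
    have hb1 : 0 < b := by
      rw [hb]; exact Complex.normSq_pos.2 h0
    left
    obtain ⟨r, hr, hz, hz0⟩ := fr_diag ![p, ![0, 1, 0], ![0, 0, 1]] ![-b, 1, 1] ![-1, 1, 1]
      (by intro k; fin_cases k <;> simp [hb1]) (by intro k; fin_cases k <;> simp)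
      (by rw [fr_hf]; simp [h1]) (by rw [fr_hf]; simp [h2]) (by rw [fr_hf]; simp)
      (by
        intro k
        fin_cases k
        · rw [fr_hf]; simp [h1, h2, hb']
        · rw [fr_hf]; simp
        · rw [fr_hf]; simp)
    refine ⟨-1, fun k => (r k : ℂ) • (![p, ![0, 1, 0], ![0, 0, 1]] : Fin 3 → V3) k,
      (r 0 : ℂ) * ((-b : ℝ) : ℂ), Or.inr rfl, ?_, ?_, ?_, ?_⟩
    · refine fr_li _ _ hz fun z hz' => ?_
      have e0 := hz' ![1, 0, 0]
      have e1 := hz' ![0, 1, 0]
      have e2 := hz' ![0, 0, 1]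
      simp at e0 e1 e2
      ext i
      fin_cases i <;> simp [e0, e1, e2]
    · exact mul_ne_zero (Complex.ofReal_ne_zero.2 (hr 0).ne')
        (Complex.ofReal_ne_zero.2 (neg_ne_zero.2 hb1.ne'))
    · intro z w
      rw [hz]
      simp [qd]
    · intro z
      rw [hlp]
      exact hz0 z
  · have ha2 : 0 < a := lt_of_le_of_ne ha0 (Ne.symm ha1)
    have hpp : hf (N := 2) p p = ((a - b : ℝ) : ℂ) := by
      rw [fr_hf]; push_cast; rw [ha', hb']
    have hup : hf (N := 2) p ![0, -(starRingEnd ℂ) (p 2), (starRingEnd ℂ) (p 1)] = 0 := by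
      rw [fr_hf]; simp; ring
    have huu : hf (N := 2) ![0, -(starRingEnd ℂ) (p 2), (starRingEnd ℂ) (p 1)] ![0, -(starRingEnd ℂ) (p 2), (starRingEnd ℂ) (p 1)] = (a : ℂ) := by
      rw [fr_hf, ha']; simp; ring
    by_cases hab : a - b = 0
    · -- null
      right
      have hs : (0 : ℝ) < Real.sqrt a := Real.sqrt_pos.2 ha2
      have hss : ((Real.sqrt a : ℝ) : ℂ) * ((Real.sqrt a : ℝ) : ℂ) = (a : ℂ) := by
        rw [← Complex.ofReal_mul, Real.mul_self_sqrt ha0]
      have hsc : ((Real.sqrt a : ℝ) : ℂ) ≠ 0 := Complex.ofReal_ne_zero.2 hs.ne'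
      have hac : (a : ℂ) ≠ 0 := Complex.ofReal_ne_zero.2 ha1
      have hab' : p 0 * (starRingEnd ℂ) (p 0) = (a : ℂ) := by
        rw [← hb']; congr 1; linarith
      obtain ⟨B, hB⟩ : ∃ B : Fin 3 → V3, B = ![p,
          (((Real.sqrt a : ℝ) : ℂ)⁻¹) • ![0, -(starRingEnd ℂ) (p 2), (starRingEnd ℂ) (p 1)],
          ((2 * (a : ℂ))⁻¹) • ![-p 0, p 1, p 2]] := ⟨_, rfl⟩
      have g00 : hf (N := 2) (B 0) (B 0) = 0 := by
        rw [hB]; show hf (N := 2) p p = 0; rw [hpp, hab]; simp
      have g01 : hf (N := 2) (B 0) (B 1) = 0 := by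
        rw [hB]
        show hf (N := 2) p ((((Real.sqrt a : ℝ) : ℂ)⁻¹) • ![0, -(starRingEnd ℂ) (p 2), (starRingEnd ℂ) (p 1)]) = 0
        rw [← one_smul ℂ p, fr_smul]
        simp only [one_smul]
        rw [hup, mul_zero]
      have g02 : hf (N := 2) (B 0) (B 2) = 1 := by
        rw [hB]
        show hf (N := 2) p (((2 * (a : ℂ))⁻¹) • ![-p 0, p 1, p 2]) = 1
        have : hf (N := 2) p ![-p 0, p 1, p 2] = 2 * (a : ℂ) := by
          rw [fr_hf]; simp; rw [hab', ha']; ring
        rw [← one_smul ℂ p, fr_smul]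
        simp only [one_smul]
        rw [this, map_inv₀, map_mul, Complex.conj_ofReal]
        have : (starRingEnd ℂ) (2 : ℂ) = 2 := Complex.conj_ofNat 2
        rw [this]
        field_simp
      have g11 : hf (N := 2) (B 1) (B 1) = 1 := by
        rw [hB]
        show hf (N := 2) ((((Real.sqrt a : ℝ) : ℂ)⁻¹) • ![0, -(starRingEnd ℂ) (p 2), (starRingEnd ℂ) (p 1)])
          ((((Real.sqrt a : ℝ) : ℂ)⁻¹) • ![0, -(starRingEnd ℂ) (p 2), (starRingEnd ℂ) (p 1)]) = 1
        rw [fr_smul, huu, map_inv₀, Complex.conj_ofReal, ← hss]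
        field_simp
      have g12 : hf (N := 2) (B 1) (B 2) = 0 := by
        rw [hB]
        show hf (N := 2) ((((Real.sqrt a : ℝ) : ℂ)⁻¹) • ![0, -(starRingEnd ℂ) (p 2), (starRingEnd ℂ) (p 1)])
          (((2 * (a : ℂ))⁻¹) • ![-p 0, p 1, p 2]) = 0
        have : hf (N := 2) ![0, -(starRingEnd ℂ) (p 2), (starRingEnd ℂ) (p 1)] ![-p 0, p 1, p 2] = 0 := by
          rw [fr_hf]; simp; ring
        rw [fr_smul, this, mul_zero]
      have g22 : hf (N := 2) (B 2) (B 2) = 0 := by
        rw [hB]
        show hf (N := 2) (((2 * (a : ℂ))⁻¹) • ![-p 0, p 1, p 2])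
          (((2 * (a : ℂ))⁻¹) • ![-p 0, p 1, p 2]) = 0
        have : hf (N := 2) ![-p 0, p 1, p 2] ![-p 0, p 1, p 2] = 0 := by
          rw [fr_hf]; simp; rw [hab', ha']; ring
        rw [fr_smul, this, mul_zero]
      have g10 : hf (N := 2) (B 1) (B 0) = 0 := by rw [fr_conj, g01, map_zero]
      have g20 : hf (N := 2) (B 2) (B 0) = 1 := by rw [fr_conj, g02, map_one]
      have g21 : hf (N := 2) (B 2) (B 1) = 0 := by rw [fr_conj, g12, map_zero]
      have hz : ∀ z w : V3, hf (N := 2) (∑ k, z k • B k) (∑ k, w k • B k) = qn z w := by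
        intro z w
        rw [fr_sum]
        simp only [Fin.sum_univ_three, g00, g01, g02, g10, g11, g12, g20, g21, g22, mul_zero,
          mul_one, add_zero, zero_add]
        unfold qn
        ring
      refine ⟨B, 1, ?_, one_ne_zero, hz, ?_⟩
      · refine fr_li _ _ hz fun z hz' => ?_
        have e0 := hz' ![1, 0, 0]
        have e1 := hz' ![0, 1, 0]
        have e2 := hz' ![0, 0, 1]
        simp [qn] at e0 e1 e2
        ext i
        fin_cases i <;> simp [e0, e1, e2]
      · intro z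
        rw [hlp]
        have h0 : p = ∑ k, (![1, 0, 0] : V3) k • B k := by
          rw [Fin.sum_univ_three]
          simp [hB]
        rw [h0, hz]
        simp [qn]
    · -- regular
      left
      have hvp : hf (N := 2) p ![(a : ℂ), (starRingEnd ℂ) (p 0) * p 1, (starRingEnd ℂ) (p 0) * p 2] = 0 := by
        rw [fr_hf]; simp; rw [ha']; ring
      have huv : hf (N := 2) ![0, -(starRingEnd ℂ) (p 2), (starRingEnd ℂ) (p 1)]
          ![(a : ℂ), (starRingEnd ℂ) (p 0) * p 1, (starRingEnd ℂ) (p 0) * p 2] = 0 := by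
        rw [fr_hf]; simp; ring
      have hvv : hf (N := 2) ![(a : ℂ), (starRingEnd ℂ) (p 0) * p 1, (starRingEnd ℂ) (p 0) * p 2]
          ![(a : ℂ), (starRingEnd ℂ) (p 0) * p 1, (starRingEnd ℂ) (p 0) * p 2] = ((-(a * (a - b)) : ℝ) : ℂ) := by
        rw [fr_hf]; push_cast; simp; rw [ha', hb']; ring
      obtain ⟨ε, hε, hεab⟩ : ∃ ε : ℝ, (ε = 1 ∨ ε = -1) ∧ 0 < ε * (a - b) := by
        rcases lt_or_gt_of_ne hab with h | h
        · exact ⟨-1, Or.inr rfl, by linarith⟩
        · exact ⟨1, Or.inl rfl, by linarith⟩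
      have hε2 : ε * ε = 1 := by rcases hε with h | h <;> rw [h] <;> norm_num
      obtain ⟨r, hr, hz, hz0⟩ := fr_diag
        ![p, ![0, -(starRingEnd ℂ) (p 2), (starRingEnd ℂ) (p 1)], ![(a : ℂ), (starRingEnd ℂ) (p 0) * p 1, (starRingEnd ℂ) (p 0) * p 2]]
        ![a - b, a, -(a * (a - b))] ![ε, 1, -ε]
        (by
          intro k
          fin_cases k
          · simpa using hεab
          · simpa using ha2
          · have : 0 < a * (ε * (a - b)) := mul_pos ha2 hεab
            simp
            linarith)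
        (by intro k; fin_cases k <;> simp [hε2])
        (by simpa using hup) (by simpa using hvp) (by simpa using huv)
        (by
          intro k
          fin_cases k
          · simpa using hpp
          · simpa using huu
          · simpa using hvv)
      refine ⟨ε, fun k => (r k : ℂ) • (![p, ![0, -(starRingEnd ℂ) (p 2), (starRingEnd ℂ) (p 1)],
        ![(a : ℂ), (starRingEnd ℂ) (p 0) * p 1, (starRingEnd ℂ) (p 0) * p 2]] : Fin 3 → V3) k,
        (r 0 : ℂ) * ((a - b : ℝ) : ℂ), hε, ?_, ?_, ?_, ?_⟩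
      · refine fr_li _ _ hz fun z hz' => ?_
        have hε0 : ε ≠ 0 := by rcases hε with h | h <;> rw [h] <;> norm_num
        have e0 := hz' ![1, 0, 0]
        have e1 := hz' ![0, 1, 0]
        have e2 := hz' ![0, 0, 1]
        simp [hε0] at e0 e1 e2
        ext i
        fin_cases i <;> simp [e0, e1, e2]
      · exact mul_ne_zero (Complex.ofReal_ne_zero.2 (hr 0).ne') (Complex.ofReal_ne_zero.2 hab)
      · intro z w
        rw [hz]
        simp [qd]
        ring
      · intro z
        rw [hlp]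
        exact hz0 z

end Pool.Agent.Lib_helper86.D24

end

section

set_option autoImplicit false

namespace Pool.Agent.Lib_helper86.D24

open MvPolynomial Matrix


private noncomputable def trφ (B : Fin 3 → V3) : P3 →ₐ[ℂ] P3 :=
  aeval (fun m => ∑ k, C (B k m) * X k)

private theorem trφ_X (B : Fin 3 → V3) (m : Fin 3) : trφ B (X m) = ∑ k, C (B k m) * X k := by
  rw [trφ, aeval_X]

private theorem tr_eval (B : Fin 3 → V3) (z : V3) (p : P3) :
    eval z (trφ B p) = eval (∑ k, z k • B k) p := by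
  have : (eval z).comp (trφ B).toRingHom = eval (∑ k, z k • B k) := by
    apply MvPolynomial.ringHom_ext
    · intro r
      simp [trφ]
    · intro m
      simp only [RingHom.comp_apply, AlgHom.toRingHom_eq_coe, RingHom.coe_coe, trφ_X, map_sum,
        map_mul, eval_C, eval_X, Finset.sum_apply, Pi.smul_apply, smul_eq_mul]
      exact Finset.sum_congr rfl fun k _ => mul_comm _ _
  exact DFunLike.congr_fun this p

private theorem tr_dvX (v : V3) (m : Fin 3) : dv v (X m) = C (v m) := by
  have h : dv v (X m) = C (v 0) * pderiv 0 (X m : P3) + C (v 1) * pderiv 1 (X m : P3) +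
      C (v 2) * pderiv 2 (X m : P3) := by
    rw [dv, Fin.sum_univ_three]
    rfl
  rw [h]
  fin_cases m <;> simp [pderiv_X]

private theorem tr_dvC (v : V3) (a : ℂ) : dv v (C a) = 0 := (dv v).map_algebraMap a

private theorem tr_φC (B : Fin 3 → V3) (a : ℂ) : trφ B (C a) = C a := by simp [trφ]

private theorem tr_chainX (B : Fin 3 → V3) (v : V3) (m : Fin 3) :
    dv v (trφ B (X m)) = trφ B (C ((∑ k, v k • B k) m)) := by
  rw [trφ_X, map_sum, tr_φC]
  have : ∀ k : Fin 3, dv v (C (B k m) * X k) = C (B k m * v k) := by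
    intro k
    rw [Derivation.leibniz, tr_dvX, tr_dvC, smul_zero, add_zero, smul_eq_mul, ← C_mul]
  rw [Finset.sum_congr rfl fun k _ => this k, ← map_sum]
  congr 1
  simp only [Finset.sum_apply, Pi.smul_apply, smul_eq_mul]
  exact Finset.sum_congr rfl fun k _ => mul_comm _ _

private theorem tr_chain (B : Fin 3 → V3) (v : V3) (p : P3) :
    dv v (trφ B p) = trφ B (dv (∑ k, v k • B k) p) := by
  induction p using MvPolynomial.induction_on with
  | C a => rw [tr_φC, tr_dvC, tr_dvC, map_zero]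
  | add p q hp hq => rw [map_add, map_add, map_add, map_add, hp, hq]
  | mul_X p m hp =>
    rw [map_mul, Derivation.leibniz, hp, tr_chainX, Derivation.leibniz, map_add, tr_dvX,
      smul_eq_mul, smul_eq_mul, smul_eq_mul, smul_eq_mul, map_mul, map_mul]

private theorem tr_chain_iter (B : Fin 3 → V3) (v : V3) (n : ℕ) (p : P3) :
    (dv v)^[n] (trφ B p) = trφ B ((dv (∑ k, v k • B k))^[n] p) := by
  induction n generalizing p with
  | zero => rfl
  | succ n ih => rw [Function.iterate_succ_apply, Function.iterate_succ_apply, tr_chain, ih]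

private theorem tr_inv (B : Fin 3 → V3) (hB : LinearIndependent ℂ B) :
    ∃ ψ : P3 →ₐ[ℂ] P3, (∀ p, trφ B (ψ p) = p) ∧ ∀ p, ψ (trφ B p) = p := by
  have hu : IsUnit (Matrix.of B) := Matrix.linearIndependent_rows_iff_isUnit.mp hB
  obtain ⟨N, hN1, hN2⟩ : ∃ N : Matrix (Fin 3) (Fin 3) ℂ, Matrix.of B * N = 1 ∧ N * Matrix.of B = 1 := by
    obtain ⟨u, hu⟩ := hu
    exact ⟨↑u⁻¹, by rw [← hu]; exact u.mul_inv, by rw [← hu]; exact u.inv_mul⟩
  refine ⟨aeval (fun k => ∑ m, C (N m k) * X m), fun p => ?_, fun p => ?_⟩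
  · have : (trφ B).comp (aeval (fun k => ∑ m, C (N m k) * X m)) = AlgHom.id ℂ P3 := by
      apply MvPolynomial.algHom_ext
      intro k
      rw [AlgHom.comp_apply, aeval_X, map_sum, AlgHom.id_apply]
      have : ∀ m, trφ B (C (N m k) * X m) = ∑ k', C (B k' m * N m k) * X k' := by
        intro m
        have h1 : trφ B (C (N m k)) = C (N m k) := by simp [trφ]
        rw [map_mul, trφ_X, h1, Finset.mul_sum]
        exact Finset.sum_congr rfl fun k' _ => by rw [C_mul]; ring
      rw [Finset.sum_congr rfl fun m _ => this m, Finset.sum_comm]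
      have h2 : ∀ k', ∑ m, C (B k' m * N m k) * (X k' : P3) = C ((1 : Matrix (Fin 3) (Fin 3) ℂ) k' k) * X k' := by
        intro k'
        rw [← Finset.sum_mul, ← map_sum, ← hN1, Matrix.mul_apply]
        rfl
      rw [Finset.sum_congr rfl fun k' _ => h2 k', Finset.sum_eq_single k]
      · simp
      · intro b _ hb
        rw [Matrix.one_apply_ne hb]; simp
      · simp
    exact DFunLike.congr_fun this p
  · have : (aeval (fun k => ∑ m, C (N m k) * X m) : P3 →ₐ[ℂ] P3).comp (trφ B) = AlgHom.id ℂ P3 := by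
      apply MvPolynomial.algHom_ext
      intro m
      rw [AlgHom.comp_apply, trφ_X, map_sum, AlgHom.id_apply]
      have : ∀ k, (aeval (fun k => ∑ m, C (N m k) * X m) : P3 →ₐ[ℂ] P3) (C (B k m) * X k) =
          ∑ m', C (N m' k * B k m) * X m' := by
        intro k
        rw [map_mul, aeval_X, aeval_C, Finset.mul_sum]
        exact Finset.sum_congr rfl fun k' _ => by rw [C_mul, algebraMap_eq]; ring
      rw [Finset.sum_congr rfl fun m _ => this m, Finset.sum_comm]
      have h2 : ∀ m', ∑ k, C (N m' k * B k m) * (X m' : P3) = C ((1 : Matrix (Fin 3) (Fin 3) ℂ) m' m) * X m' := by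
        intro m'
        rw [← Finset.sum_mul, ← map_sum, ← hN2, Matrix.mul_apply]
        rfl
      rw [Finset.sum_congr rfl fun k' _ => h2 k', Finset.sum_eq_single m]
      · simp
      · intro b _ hb
        rw [Matrix.one_apply_ne hb]; simp
      · simp
    exact DFunLike.congr_fun this p

private theorem tr_sg (i : Fin 5) : sg i * sg i = 1 := by
  unfold sg; split_ifs <;> norm_num

private theorem tr_sgc (i : Fin 5) : (starRingEnd ℂ) (sg i) = sg i := by
  unfold sg; split_ifs <;> simp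

private theorem tr_li {p q : E5} (h : LinearIndependent ℂ ![p, q]) :
    LinearIndependent ℂ ![fun i => sg i * (starRingEnd ℂ) (p i), fun i => sg i * (starRingEnd ℂ) (q i)] := by
  rw [LinearIndependent.pair_iff] at h ⊢
  intro s t hst
  have := h ((starRingEnd ℂ) s) ((starRingEnd ℂ) t) ?_
  · exact ⟨by simpa using this.1, by simpa using this.2⟩
  · funext i
    have h1 := congrFun hst i
    simp only [Pi.add_apply, Pi.smul_apply, smul_eq_mul, Pi.zero_apply] at h1 ⊢
    have h2 := congrArg (starRingEnd ℂ) h1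
    simp only [map_add, map_mul, Complex.conj_conj, tr_sgc, map_zero] at h2
    linear_combination sg i * h2 - ((starRingEnd ℂ) s * p i + (starRingEnd ℂ) t * q i) * tr_sg i

/-- SF2: transport -/
theorem transport {F : Fin 5 → P3} (h : HMap F) (hi : LinearIndependent ℂ F) (l : V3)
    (hd : ∃ p q : E5, LinearIndependent ℂ ![p, q] ∧ lin l ^ 3 ∣ ∑ i, C (p i) * F i ∧
      lin l ^ 3 ∣ ∑ i, C (q i) * F i)
    (hflat : ∀ (z v : V3) (s : Fin 3 → Fin 5), l ⬝ᵥ z = 0 →
      mn (fun k : Fin 3 => ej F v (k : ℕ) z) s = 0) (q : V3 → V3 → ℂ) (j : Fin 3)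
    (B : Fin 3 → V3) (c : ℂ) (hB : LinearIndependent ℂ B) (hc : c ≠ 0)
    (hq : ∀ z w : V3, hf (∑ k, z k • B k) (∑ k, w k • B k) = q z w)
    (hl : ∀ z : V3, l ⬝ᵥ (∑ k, z k • B k) = c * z j) : ∃ F', Spec q j F' := by
  obtain ⟨ψ, h1, h2⟩ := tr_inv B hB
  have hlin : trφ B (lin l) = C c * X j := by
    apply MvPolynomial.funext
    intro z
    rw [tr_eval, map_mul, eval_C, eval_X, ← hl z]
    simp [lin, dotProduct]
  have hdvd : ∀ p : E5, lin l ^ 3 ∣ ∑ i, C (p i) * F i →
      X j ^ 3 ∣ pf (fun i => trφ B (F i)) (fun i => sg i * (starRingEnd ℂ) (p i)) := by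
    intro p ⟨g, hg⟩
    have := congrArg (trφ B) hg
    rw [map_mul, map_pow, hlin] at this
    have h3 : pf (fun i => trφ B (F i)) (fun i => sg i * (starRingEnd ℂ) (p i)) =
        trφ B (∑ i, C (p i) * F i) := by
      rw [pf, map_sum]
      refine Finset.sum_congr rfl fun i _ => ?_
      have h5 : sg i * (starRingEnd ℂ) (sg i * (starRingEnd ℂ) (p i)) = p i := by
        rw [map_mul, tr_sgc, Complex.conj_conj, ← mul_assoc, tr_sg, one_mul]
      rw [h5, map_mul (trφ B), tr_φC]
    rw [h3, this]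
    exact ⟨C c ^ 3 * trφ B g, by ring⟩
  refine ⟨fun i => trφ B (F i), ?_, ?_, ?_, ?_, ?_, ?_⟩
  · intro i
    have := (h.hom i).aeval (fun m => ∑ k, C (B k m) * X k) (n := 1) ?_
    · simpa [trφ] using this
    · intro m
      refine IsHomogeneous.sum _ _ _ fun k _ => ?_
      have := (isHomogeneous_C (Fin 3) (B k m)).mul (isHomogeneous_X ℂ k)
      simpa using this
  · intro r hr
    have hu : IsUnit (ψ r) := by
      apply h.prim
      intro i
      obtain ⟨g, hg⟩ := hr i
      refine ⟨ψ g, ?_⟩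
      rw [← map_mul, ← hg, h2]
    have := hu.map (trφ B)
    rwa [h1] at this
  · have hinj : Function.Injective (trφ B).toLinearMap := by
      intro x y hxy
      have := congrArg ψ (show trφ B x = trφ B y from hxy)
      rwa [h2, h2] at this
    exact hi.map' (trφ B).toLinearMap (LinearMap.ker_eq_bot.mpr hinj)
  · intro z w hzw
    simp only [tr_eval]
    exact h.herm _ _ (by rw [hq, hzw])
  · obtain ⟨p, q', hpq, hp, hq'⟩ := hd
    exact ⟨_, _, tr_li hpq, hdvd p hp, hdvd q' hq'⟩
  · intro z v s hz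
    have := hflat (∑ k, z k • B k) (∑ k, v k • B k) s (by rw [hl, hz, mul_zero])
    have he : ∀ k : ℕ, ej (fun i => trφ B (F i)) v k z = ej F (∑ k, v k • B k) k (∑ k, z k • B k) := by
      intro k
      funext i
      rw [ej, ej, tr_chain_iter, tr_eval]
    simp only [he]
    exact this

end Pool.Agent.Lib_helper86.D24

end

section

namespace Pool.Agent.Lib_helper86.D24

open MvPolynomial Matrix


private theorem WR_deg (p q : Polynomial ℂ) (hp : p ≠ 0) (hq : q ≠ 0) (h : wr p q = 0) :
    p.natDegree = q.natDegree := by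
  have h' : p * Polynomial.derivative q = q * Polynomial.derivative p := sub_eq_zero.1 h
  rcases Nat.eq_zero_or_pos q.natDegree with hq0 | hq0
  · have h1 : Polynomial.derivative q = 0 := Polynomial.derivative_of_natDegree_zero hq0
    rw [h1, mul_zero] at h'
    have h2 : Polynomial.derivative p = 0 := (mul_eq_zero.1 h'.symm).resolve_left hq
    rw [hq0]
    exact Polynomial.derivative_eq_zero.1 h2
  rcases Nat.eq_zero_or_pos p.natDegree with hp0 | hp0
  · have h1 : Polynomial.derivative p = 0 := Polynomial.derivative_of_natDegree_zero hp0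
    rw [h1, mul_zero] at h'
    have h2 : Polynomial.derivative q = 0 := (mul_eq_zero.1 h').resolve_left hp
    rw [hp0]
    exact (Polynomial.derivative_eq_zero.1 h2).symm
  obtain ⟨n, hn⟩ : ∃ n, p.natDegree = n + 1 := ⟨_, (Nat.succ_pred_eq_of_pos hp0).symm⟩
  obtain ⟨m, hm⟩ : ∃ m, q.natDegree = m + 1 := ⟨_, (Nat.succ_pred_eq_of_pos hq0).symm⟩
  have hlp : p.coeff (n + 1) ≠ 0 := by
    rw [← hn]; exact mt Polynomial.leadingCoeff_eq_zero.1 hp
  have hlq : q.coeff (m + 1) ≠ 0 := by
    rw [← hm]; exact mt Polynomial.leadingCoeff_eq_zero.1 hq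
  have e1 : (p * Polynomial.derivative q).coeff ((n + 1) + m) =
      p.coeff (n + 1) * (Polynomial.derivative q).coeff m :=
    Polynomial.coeff_mul_add_eq_of_natDegree_le hn.le
      ((Polynomial.natDegree_derivative_le q).trans (by omega))
  have e2 : (q * Polynomial.derivative p).coeff ((m + 1) + n) =
      q.coeff (m + 1) * (Polynomial.derivative p).coeff n :=
    Polynomial.coeff_mul_add_eq_of_natDegree_le hm.le
      ((Polynomial.natDegree_derivative_le p).trans (by omega))
  rw [h', show (n + 1) + m = (m + 1) + n by omega, e2, Polynomial.coeff_derivative,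
    Polynomial.coeff_derivative] at e1
  have e3 : ((n : ℂ) + 1) = (m : ℂ) + 1 := by
    have e4 : (q.coeff (m + 1) * p.coeff (n + 1)) * ((n : ℂ) + 1) =
        (q.coeff (m + 1) * p.coeff (n + 1)) * ((m : ℂ) + 1) := by
      linear_combination e1
    exact mul_left_cancel₀ (mul_ne_zero hlq hlp) e4
  rw [hn, hm]
  exact_mod_cast e3

/-- WR2 -/
theorem wr2 (p q : Polynomial ℂ) (hq : q ≠ 0) (h : wr p q = 0) :
    ∃ c : ℂ, p = Polynomial.C c * q := by
  by_cases hp : p = 0
  · exact ⟨0, by simp [hp]⟩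
  have hd := WR_deg p q hp hq h
  refine ⟨p.leadingCoeff / q.leadingCoeff, ?_⟩
  have hlq : q.leadingCoeff ≠ 0 := mt Polynomial.leadingCoeff_eq_zero.1 hq
  have hlp : p.leadingCoeff ≠ 0 := mt Polynomial.leadingCoeff_eq_zero.1 hp
  set c : ℂ := p.leadingCoeff / q.leadingCoeff with hc
  by_contra hne
  have hr : p - Polynomial.C c * q ≠ 0 := sub_ne_zero.2 hne
  have hw : wr (p - Polynomial.C c * q) q = 0 := by
    have h' : p * Polynomial.derivative q = q * Polynomial.derivative p := sub_eq_zero.1 h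
    simp only [wr, Polynomial.derivative_sub, Polynomial.derivative_mul, Polynomial.derivative_C]
    linear_combination h'
  have hd2 := WR_deg _ q hr hq hw
  have hlt : (p - Polynomial.C c * q).degree < p.degree := by
    apply Polynomial.degree_sub_lt_left
    · rw [Polynomial.degree_C_mul (div_ne_zero hlp hlq), Polynomial.degree_eq_natDegree hp,
        Polynomial.degree_eq_natDegree hq, hd]
    · exact hp
    · rw [Polynomial.leadingCoeff_mul, Polynomial.leadingCoeff_C, hc, div_mul_cancel₀ _ hlq]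
  rw [Polynomial.degree_eq_natDegree hr, Polynomial.degree_eq_natDegree hp, hd2, hd] at hlt
  exact lt_irrefl _ hlt

/-- WR3 (uses WR2) -/
theorem wr3 (p : Fin 3 → Polynomial ℂ)
    (h : Matrix.det (fun k a : Fin 3 => Polynomial.derivative^[(k : ℕ)] (p a)) = 0) :
    ¬ LinearIndependent ℂ p := by
  intro hL
  have hL' := Fintype.linearIndependent_iff.1 hL
  have hp0 : p 0 ≠ 0 := hL.ne_zero 0
  have key : wr (wr (p 0) (p 1)) (wr (p 0) (p 2)) = 0 := by
    have hd : wr (wr (p 0) (p 1)) (wr (p 0) (p 2)) = p 0 *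
        Matrix.det (fun k a : Fin 3 => Polynomial.derivative^[(k : ℕ)] (p a)) := by
      have e := Matrix.det_fin_three (fun k a : Fin 3 => Polynomial.derivative^[(k : ℕ)] (p a))
      refine Eq.trans ?_ (congrArg (fun x => p 0 * x) e.symm)
      simp only [wr, Polynomial.derivative_sub, Polynomial.derivative_mul, Fin.val_zero,
        Fin.val_one, Fin.val_two, Function.iterate_zero, id_eq, Function.iterate_succ,
        Function.comp_apply]
      ring
    rw [hd, h, mul_zero]
  have hu : wr (p 0) (p 1) ≠ 0 := by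
    intro hu
    have hu' : wr (p 1) (p 0) = 0 := by
      have : wr (p 1) (p 0) = - wr (p 0) (p 1) := by simp only [wr]; ring
      rw [this, hu, neg_zero]
    obtain ⟨c, hc⟩ := wr2 (p 1) (p 0) hp0 hu'
    have := hL' ![c, -1, 0] (by
      rw [Fin.sum_univ_three]
      simp only [Matrix.cons_val_zero, Matrix.cons_val_one, Matrix.cons_val_two,
        Matrix.head_cons, Matrix.tail_cons]
      rw [hc, Polynomial.smul_eq_C_mul]
      simp) 1
    simp at this
  have key' : wr (wr (p 0) (p 2)) (wr (p 0) (p 1)) = 0 := by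
    have : wr (wr (p 0) (p 2)) (wr (p 0) (p 1)) = - wr (wr (p 0) (p 1)) (wr (p 0) (p 2)) := by
      simp only [wr]; ring
    rw [this, key, neg_zero]
  obtain ⟨c, hc⟩ := wr2 _ _ hu key'
  have h3 : wr (p 2 - Polynomial.C c * p 1) (p 0) = 0 := by
    have : wr (p 2 - Polynomial.C c * p 1) (p 0) =
        -(wr (p 0) (p 2)) + Polynomial.C c * wr (p 0) (p 1) := by
      simp only [wr, Polynomial.derivative_sub, Polynomial.derivative_mul, Polynomial.derivative_C]
      ring
    rw [this, hc]
    ring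
  obtain ⟨d, hd⟩ := wr2 _ _ hp0 h3
  have := hL' ![d, c, -1] (by
    rw [Fin.sum_univ_three]
    simp only [Matrix.cons_val_zero, Matrix.cons_val_one, Matrix.cons_val_two,
      Matrix.head_cons, Matrix.tail_cons]
    rw [Polynomial.smul_eq_C_mul, Polynomial.smul_eq_C_mul, neg_one_smul]
    linear_combination -hd) 2
  simp at this

/-- OD (uses WR2) -/
theorem ode (W β : Polynomial ℂ) (hβ : β ≠ 0)
    (h : 2 * W * Polynomial.derivative β = Polynomial.derivative W * β) :
    ∃ κ : ℂ, W = Polynomial.C κ * β ^ 2 := by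
  apply wr2 W (β ^ 2) (pow_ne_zero 2 hβ)
  simp only [wr, pow_two, Polynomial.derivative_mul]
  linear_combination β * h

end Pool.Agent.Lib_helper86.D24

end

section

namespace Pool.Agent.Lib_helper86.D24

open MvPolynomial Matrix


/-- restriction to the affine line `v + x u`. -/
private noncomputable def bTL_rho (u v : V3) : P3 →ₐ[ℂ] Polynomial ℂ :=
  aeval (fun k => Polynomial.C (u k) * Polynomial.X + Polynomial.C (v k))

private lemma bTL_eval (u v : V3) (P : P3) (x : ℂ) :
    Polynomial.eval x (bTL_rho u v P) = eval (v + x • u) P := by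
  unfold bTL_rho
  rw [aeval_def, eval₂_eq', Polynomial.eval_finsetSum, eval_eq']
  refine Finset.sum_congr rfl fun d _ => ?_
  rw [Polynomial.eval_mul, Polynomial.eval_prod, Polynomial.algebraMap_eq, Polynomial.eval_C]
  congr 1
  refine Finset.prod_congr rfl fun k _ => ?_
  rw [Polynomial.eval_pow]
  congr 1
  simp
  ring

private lemma bTL_dvX (u : V3) (k : Fin 3) : dv u (X k) = C (u k) := by
  unfold dv
  rw [Fin.sum_univ_three, Derivation.add_apply, Derivation.add_apply, Derivation.smul_apply,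
    Derivation.smul_apply, Derivation.smul_apply]
  fin_cases k <;> simp [pderiv_X]

private lemma bTL_deriv (u v : V3) (P : P3) :
    bTL_rho u v (dv u P) = Polynomial.derivative (bTL_rho u v P) := by
  induction P using MvPolynomial.induction_on with
  | C a =>
    have h1 : dv u (C a) = 0 := (dv u).map_algebraMap a
    have h2 : bTL_rho u v (C a) = Polynomial.C a := (bTL_rho u v).commutes a
    rw [h1, map_zero, h2, Polynomial.derivative_C]
  | add p q hp hq =>
    rw [map_add, map_add, map_add, Polynomial.derivative_add, hp, hq]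
  | mul_X p k hp =>
    have hX : bTL_rho u v (X k) = Polynomial.C (u k) * Polynomial.X + Polynomial.C (v k) := by
      unfold bTL_rho; rw [aeval_X]
    have hC : bTL_rho u v (C (u k)) = Polynomial.C (u k) := (bTL_rho u v).commutes _
    rw [Derivation.leibniz, smul_eq_mul, smul_eq_mul, map_add, map_mul, map_mul, bTL_dvX, hp,
      map_mul, Polynomial.derivative_mul, hX, hC]
    simp
    ring

private lemma bTL_iter (u v : V3) (P : P3) (k : ℕ) :
    bTL_rho u v ((dv u)^[k] P) = Polynomial.derivative^[k] (bTL_rho u v P) := by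
  induction k with
  | zero => rfl
  | succ k ih =>
    rw [Function.iterate_succ_apply', Function.iterate_succ_apply', bTL_deriv, ih]

private lemma bTL_coeff (u v : V3) {P : P3} {n : ℕ} (hP : P.IsHomogeneous n) :
    (bTL_rho u v P).coeff n = eval u P := by
  unfold bTL_rho
  rw [aeval_def, eval₂_eq', Polynomial.finsetSum_coeff, eval_eq']
  refine Finset.sum_congr rfl fun d hd => ?_
  have h1 : d.degree = n := by
    have := hP (mem_support_iff.mp hd)
    rw [← this, Finsupp.degree_eq_weight_one]; rfl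
  rw [Polynomial.algebraMap_eq, Polynomial.coeff_C_mul]
  congr 1
  have hlin : ∀ j : Fin 3, (Polynomial.C (u j) * Polynomial.X + Polynomial.C (v j)).natDegree ≤ 1 := by
    intro j
    exact Polynomial.natDegree_linear_le
  have hpow : ∀ j : Fin 3, ((Polynomial.C (u j) * Polynomial.X + Polynomial.C (v j)) ^ d j).natDegree
      ≤ d j := by
    intro j
    refine (Polynomial.natDegree_pow_le).trans ?_
    calc d j * _ ≤ d j * 1 := Nat.mul_le_mul_left _ (hlin j)
      _ = d j := mul_one _
  have hc : ∀ j : Fin 3, ((Polynomial.C (u j) * Polynomial.X + Polynomial.C (v j)) ^ d j).coeff (d j)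
      = u j ^ d j := by
    intro j
    have := Polynomial.coeff_pow_of_natDegree_le (m := d j) (hlin j)
    rw [mul_one] at this
    rw [this]
    simp
  have hn : n = d 0 + d 1 + d 2 := by
    rw [← h1, Finsupp.degree_eq_sum, Fin.sum_univ_three]
  rw [Fin.prod_univ_three, Fin.prod_univ_three, hn]
  have h01 : ((Polynomial.C (u 0) * Polynomial.X + Polynomial.C (v 0)) ^ d 0 *
      (Polynomial.C (u 1) * Polynomial.X + Polynomial.C (v 1)) ^ d 1).natDegree ≤ d 0 + d 1 :=
    (Polynomial.natDegree_mul_le).trans (add_le_add (hpow 0) (hpow 1))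
  rw [Polynomial.coeff_mul_add_eq_of_natDegree_le h01 (hpow 2),
    Polynomial.coeff_mul_add_eq_of_natDegree_le (hpow 0) (hpow 1), hc 0, hc 1, hc 2]

private lemma bTL_hom (t : ℂ) (z : V3) {P : P3} {n : ℕ} (hP : P.IsHomogeneous n) :
    eval (t • z) P = t ^ n * eval z P := by
  rw [eval_eq', eval_eq', Finset.mul_sum]
  refine Finset.sum_congr rfl fun d hd => ?_
  have h1 : d.degree = n := by
    have := hP (mem_support_iff.mp hd)
    rw [← this, Finsupp.degree_eq_weight_one]; rfl
  have hn : n = d 0 + d 1 + d 2 := by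
    rw [← h1, Finsupp.degree_eq_sum, Fin.sum_univ_three]
  rw [Fin.prod_univ_three, Fin.prod_univ_three, hn]
  simp only [Pi.smul_apply, smul_eq_mul]
  ring

private lemma bTL_main {F : Fin 5 → P3} (hF : ∀ i, (F i).IsHomogeneous 6) (u v : V3)
    (hflat : ∀ (x : ℂ) (s : Fin 3 → Fin 5),
      mn (fun k : Fin 3 => ej F u (k : ℕ) (v + x • u)) s = 0) :
    Module.finrank ℂ (Submodule.span ℂ {e : E5 | ∃ α β : ℂ, e = fun i => eval (α • v + β • u) (F i)})
      ≤ 2 := by
  set f : Fin 5 → Polynomial ℂ := fun i => bTL_rho u v (F i) with hf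
  set W : Submodule ℂ (Polynomial ℂ) := Submodule.span ℂ (Set.range f) with hW
  have : FiniteDimensional ℂ W := FiniteDimensional.span_of_finite ℂ (Set.finite_range f)
  have hdep : ∀ s : Fin 3 → Fin 5, ¬ LinearIndependent ℂ (fun a => f (s a)) := by
    intro s
    apply wr3
    apply Polynomial.funext
    intro x
    rw [Polynomial.eval_zero]
    have h1 := hflat x s
    have h2 := RingHom.map_det (Polynomial.evalRingHom x)
      (Matrix.of fun k a : Fin 3 => Polynomial.derivative^[(k : ℕ)] (f (s a)))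
    refine Eq.trans h2 ?_
    rw [← h1]
    unfold mn
    congr 1
    funext k a
    show Polynomial.eval x (Polynomial.derivative^[(k : ℕ)] (f (s a))) = ej F u (k : ℕ) (v + x • u) (s a)
    unfold ej
    rw [← bTL_eval u v, bTL_iter]
  have hWdim : Module.finrank ℂ W ≤ 2 := by
    by_contra hcon
    push Not at hcon
    obtain ⟨g, hg1, -, hg3⟩ := Submodule.exists_fun_fin_finrank_span_eq ℂ (Set.range f)
    choose idx hidx using hg1
    have h3 : 3 ≤ Module.finrank ℂ (Submodule.span ℂ (Set.range f)) := hcon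
    apply hdep (fun a => idx (Fin.castLE h3 a))
    have : (fun a => f (idx (Fin.castLE h3 a))) = g ∘ Fin.castLE h3 := by
      funext a; exact hidx _
    rw [this]
    exact hg3.comp _ (Fin.castLE_injective h3)
  -- the map from the dual
  let Ψ : Module.Dual ℂ W →ₗ[ℂ] E5 :=
    { toFun := fun lam i => lam ⟨f i, Submodule.subset_span ⟨i, rfl⟩⟩
      map_add' := fun a b => by funext i; rfl
      map_smul' := fun a b => by funext i; rfl }
  have hle : Submodule.span ℂ {e : E5 | ∃ α β : ℂ, e = fun i => eval (α • v + β • u) (F i)} ≤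
      LinearMap.range Ψ := by
    rw [Submodule.span_le]
    rintro e ⟨α, β, rfl⟩
    by_cases hα : α = 0
    · let lam : Module.Dual ℂ W := (β ^ 6) • ((Polynomial.lcoeff ℂ 6).comp W.subtype)
      refine ⟨lam, ?_⟩
      funext i
      show β ^ 6 • (bTL_rho u v (F i)).coeff 6 = _
      rw [bTL_coeff u v (hF i), hα, zero_smul, zero_add, bTL_hom β u (hF i), smul_eq_mul]
    · let lam : Module.Dual ℂ W := (α ^ 6) • ((Polynomial.leval (β / α)).comp W.subtype)
      refine ⟨lam, ?_⟩
      funext i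
      show α ^ 6 • Polynomial.eval (β / α) (bTL_rho u v (F i)) = _
      rw [bTL_eval, smul_eq_mul, ← bTL_hom α _ (hF i)]
      congr 2
      rw [smul_add, smul_smul]
      congr 2
      field_simp
  calc Module.finrank ℂ (Submodule.span ℂ {e : E5 | ∃ α β : ℂ, e = fun i => eval (α • v + β • u) (F i)})
      ≤ Module.finrank ℂ (LinearMap.range Ψ) := Submodule.finrank_mono hle
    _ ≤ Module.finrank ℂ (Module.Dual ℂ W) := LinearMap.finrank_range_le Ψ
    _ = Module.finrank ℂ W := Subspace.dual_finrank_eq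
    _ ≤ 2 := hWdim

/-- TL (uses WR3) -/
theorem T_le {F : Fin 5 → P3} (hF : ∀ i, (F i).IsHomogeneous 6) (j : Fin 3)
    (hj : j = 0 ∨ j = 2) (hflat : ∀ (z v : V3) (s : Fin 3 → Fin 5), z j = 0 →
      mn (fun k : Fin 3 => ej F v (k : ℕ) z) s = 0) : Module.finrank ℂ (T j F) ≤ 2 := by
  rcases hj with rfl | rfl
  · have h := bTL_main hF ![0, 0, 1] ![0, 1, 0] (fun x s => hflat _ _ s (by simp))
    refine le_trans (Submodule.finrank_mono ?_) h
    refine Submodule.span_mono ?_
    rintro e ⟨z, hz, rfl⟩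
    refine ⟨z 1, z 2, ?_⟩
    funext i
    congr 2
    funext k
    fin_cases k <;> simp [hz]
  · have h := bTL_main hF ![1, 0, 0] ![0, 1, 0] (fun x s => hflat _ _ s (by simp))
    refine le_trans (Submodule.finrank_mono ?_) h
    refine Submodule.span_mono ?_
    rintro e ⟨z, hz, rfl⟩
    refine ⟨z 1, z 0, ?_⟩
    funext i
    congr 2
    funext k
    fin_cases k <;> simp [hz]

end Pool.Agent.Lib_helper86.D24

end

section

namespace Pool.Agent.Lib_helper86.D24

open MvPolynomial Matrix


/-- a polynomial which vanishes on the hyperplane `z_j = 0` -/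
theorem bTG_dvd (j : Fin 3) (p : P3) (hp : ∀ z : V3, z j = 0 → eval z p = 0) : X j ∣ p := by
  rw [X_dvd_iff_modMonomial_eq_zero]
  have hsum := divMonomial_add_modMonomial_single p j
  set r : P3 := p.modMonomial (Finsupp.single j 1) with hr
  have hr0 : ∀ z : V3, z j = 0 → eval z r = 0 := by
    intro z hz
    have h1 := hp z hz
    rw [← hsum, map_add, map_mul, eval_X, hz, zero_mul, zero_add] at h1
    exact h1
  have hrj : ∀ z : V3, eval z r = eval (Function.update z j 0) r := by
    intro z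
    rw [eval_eq, eval_eq]
    refine Finset.sum_congr rfl fun m hm => ?_
    congr 1
    refine Finset.prod_congr rfl fun i _ => ?_
    by_cases hij : i = j
    · subst hij
      have hmi : m i = 0 := by
        by_contra hmi
        have h1 : Finsupp.single i 1 ≤ m := by
          rw [Finsupp.single_le_iff]
          exact Nat.one_le_iff_ne_zero.2 hmi
        have h2 := coeff_modMonomial_of_le p h1
        exact (mem_support_iff.1 hm) h2
      rw [hmi, pow_zero, pow_zero]
    · rw [Function.update_of_ne hij]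
  apply MvPolynomial.funext
  intro z
  rw [hrj z, hr0 _ (by simp), map_zero]

theorem bTG_unit (j : Fin 3) : ¬ IsUnit (X j : P3) := by
  intro h
  have h1 := h.map (eval (0 : V3))
  rw [eval_X, Pi.zero_apply] at h1
  exact not_isUnit_zero h1

/-- conjugate of the value -/
theorem bTG_conj (p : P3) (ζ : Fin 3 → P3) (w : V3) :
    eval w (aeval ζ (MvPolynomial.map (starRingEnd ℂ) p)) =
      (starRingEnd ℂ) (eval (fun k => (starRingEnd ℂ) (eval w (ζ k))) p) := by
  induction p using MvPolynomial.induction_on with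
  | C a => simp
  | add p q hp hq => simp only [map_add, hp, hq]
  | mul_X p i hp =>
    simp only [map_mul, hp, MvPolynomial.map_X, aeval_X, eval_X, Complex.conj_conj]

theorem bTG_gen {q : V3 → V3 → ℂ} {j : Fin 3} {F : Fin 5 → P3} (h : Spec q j F) (ζ : Fin 3 → P3)
    (hq : ∀ w, q (fun k => (starRingEnd ℂ) (eval w (ζ k))) w = 0) (hj : ∀ w, eval w (ζ j) = 0)
    (hs : ∀ z : V3, z j = 0 → ∃ w, ∀ k, (starRingEnd ℂ) (eval w (ζ k)) = z k) :
    2 ≤ Module.finrank ℂ (T j F) := by
  by_contra hcon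
  have hle : Module.finrank ℂ (T j F) ≤ 1 := by omega
  -- a point with a nonzero value
  obtain ⟨z1, hz1, i0, hi0⟩ : ∃ z1 : V3, z1 j = 0 ∧ ∃ i, eval z1 (F i) ≠ 0 := by
    by_contra hno
    push Not at hno
    have h1 := h.prim (X j) fun i => bTG_dvd j (F i) fun z hz => hno z hz i
    exact bTG_unit j h1
  set e : E5 := fun i => eval z1 (F i) with he
  have hemem : e ∈ T j F := Submodule.subset_span ⟨z1, hz1, rfl⟩
  have he0 : e ≠ 0 := fun h0 => hi0 (congrFun h0 i0)
  have hmul : ∀ z : V3, z j = 0 → ∃ c : ℂ, (fun i => eval z (F i)) = c • e := by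
    intro z hz
    obtain ⟨v, hv⟩ := finrank_le_one_iff.1 hle
    obtain ⟨a, ha⟩ := hv ⟨e, hemem⟩
    obtain ⟨b, hb⟩ := hv ⟨fun i => eval z (F i), Submodule.subset_span ⟨z, hz, rfl⟩⟩
    have ha' : a • (v : E5) = e := congrArg Subtype.val ha
    have hb' : b • (v : E5) = fun i => eval z (F i) := congrArg Subtype.val hb
    have ha0 : a ≠ 0 := by
      rintro rfl
      rw [zero_smul] at ha'
      exact he0 ha'.symm
    refine ⟨b * a⁻¹, ?_⟩
    rw [← hb', ← ha', smul_smul, mul_assoc, inv_mul_cancel₀ ha0, mul_one]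
  set P1 : P3 := aeval ζ (MvPolynomial.map (starRingEnd ℂ) (F i0)) with hP1
  have hprod : P1 * pf F e = 0 := by
    apply MvPolynomial.funext
    intro w
    rw [map_mul, map_zero]
    set z : V3 := fun k => (starRingEnd ℂ) (eval w (ζ k)) with hz
    have hzj : z j = 0 := by
      simp only [hz, hj w, map_zero]
    obtain ⟨c, hc⟩ := hmul z hzj
    have h1 := h.herm z w (hq w)
    rw [hc] at h1
    have h2 : hf (c • e) (fun i => eval w (F i)) = c * hf e (fun i => eval w (F i)) := by
      unfold hf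
      simp only [Pi.smul_apply, smul_eq_mul]
      rw [mul_sub, Finset.mul_sum]
      congr 1
      · exact Finset.sum_congr rfl fun i _ => by ring
      · ring
    rw [h2] at h1
    have h3 : eval w (pf F e) = (starRingEnd ℂ) (hf e (fun i => eval w (F i))) := by
      unfold pf hf sg
      rw [map_sum, Fin.sum_univ_succ, map_sub, map_sum]
      simp only [map_mul, eval_C, Complex.conj_conj, if_true, Fin.succ_ne_zero, if_false, one_mul]
      ring
    have h4 : eval w P1 = (starRingEnd ℂ) (eval z (F i0)) := bTG_conj _ _ _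
    have h5 : eval z (F i0) = c * e i0 := congrFun hc i0
    rw [h3, h4, h5, ← map_mul]
    have h6 : c * e i0 * hf e (fun i => eval w (F i)) = 0 := by
      linear_combination (e i0) * h1
    rw [h6, map_zero]
  rcases mul_eq_zero.1 hprod with h1 | h1
  · obtain ⟨w, hw⟩ := hs z1 hz1
    have h2 : eval w P1 = (starRingEnd ℂ) (eval (fun k => (starRingEnd ℂ) (eval w (ζ k))) (F i0)) := bTG_conj _ _ _
    rw [h1, map_zero] at h2
    have h3 : (fun k => (starRingEnd ℂ) (eval w (ζ k))) = z1 := funext hw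
    rw [h3] at h2
    exact hi0 ((map_eq_zero (starRingEnd ℂ)).1 h2.symm)
  · have h2 : ∑ i, (sg i * (starRingEnd ℂ) (e i)) • F i = 0 := by
      rw [← h1]
      unfold pf
      exact Finset.sum_congr rfl fun i _ => by rw [smul_eq_C_mul]
    have h3 := Fintype.linearIndependent_iff.1 h.ind (fun i => sg i * (starRingEnd ℂ) (e i)) h2 i0
    have h4 : (sg i0 : ℂ) ≠ 0 := by
      unfold sg
      split_ifs <;> norm_num
    rcases mul_eq_zero.1 h3 with h5 | h5
    · exact h4 h5
    · exact hi0 ((map_eq_zero (starRingEnd ℂ)).1 h5)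

/-- TG0 -/
theorem T_ge0 {ε : ℝ} (hε : ε = 1 ∨ ε = -1) {F : Fin 5 → P3} (h : Spec (qd ε) 0 F) :
    2 ≤ Module.finrank ℂ (T 0 F) := by
  have hε2 : (ε : ℂ) * ε = 1 := by
    rcases hε with rfl | rfl <;> norm_num
  refine bTG_gen h ![0, C (ε : ℂ) * X 2, X 1] ?_ ?_ ?_
  · intro w
    unfold qd
    simp
    ring
  · intro w
    simp
  · intro z hz
    refine ⟨![0, (starRingEnd ℂ) (z 2), (ε : ℂ) * (starRingEnd ℂ) (z 1)], ?_⟩
    intro k
    fin_cases k
    · simpa using hz.symm
    · simp
      rw [← mul_assoc, hε2, one_mul]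
    · simp

/-- TG2 -/
theorem T_ge2 {F : Fin 5 → P3} (h : Spec qn 2 F) : 2 ≤ Module.finrank ℂ (T 2 F) := by
  refine bTG_gen h ![-X 1, X 2, 0] ?_ ?_ ?_
  · intro w
    unfold qn
    simp
    ring
  · intro w
    simp
  · intro z hz
    refine ⟨![0, -(starRingEnd ℂ) (z 0), (starRingEnd ℂ) (z 1)], ?_⟩
    intro k
    fin_cases k
    · simp
    · simp
    · simpa using hz.symm

end Pool.Agent.Lib_helper86.D24

end

section

namespace Pool.Agent.Lib_helper86.D24

open MvPolynomial Matrix


private lemma bTN_exp (e a : E5) (x y x' y' : ℂ) :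
    hf (N := 4) (x • e + y • a) (x' • e + y' • a) =
      x * (starRingEnd ℂ) x' * hf (N := 4) e e + x * (starRingEnd ℂ) y' * hf (N := 4) e a +
      y * (starRingEnd ℂ) x' * hf (N := 4) a e + y * (starRingEnd ℂ) y' * hf (N := 4) a a := by
  simp only [hf, Fin.sum_univ_four, Pi.add_apply, Pi.smul_apply, smul_eq_mul, map_add, map_mul]
  ring

private lemma bTN_symm (u v : E5) : hf (N := 4) u v = (starRingEnd ℂ) (hf (N := 4) v u) := by
  simp only [hf, Fin.sum_univ_four, map_sub, map_add, map_mul, Complex.conj_conj]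
  ring

private lemma bTN_pf (F : Fin 5 → P3) (a : E5) (z : V3) :
    eval z (pf F a) = hf (N := 4) (fun i => eval z (F i)) a := by
  have e : ∀ f : Fin 5 → ℂ, ∑ i, f i = f 0 + ∑ i : Fin 4, f i.succ := fun f =>
    Fin.sum_univ_succ f
  rw [pf, map_sum, e, hf]
  simp only [sg, map_mul, eval_C, Fin.succ_ne_zero, if_true, if_false]
  have : ∀ i : Fin 4, 1 * (starRingEnd ℂ) (a i.succ) * eval z (F i.succ) =
      eval z (F i.succ) * (starRingEnd ℂ) (a i.succ) := fun i => by ring
  simp only [this]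
  ring

private lemma bTN_ev (x : Fin 2 → ℂ) (f : Fin 3 → MvPolynomial (Fin 2) ℂ)
    (p : P3) : eval x (aeval f p) = eval (fun i => eval x (f i)) p := by
  have h : (MvPolynomial.eval x : MvPolynomial (Fin 2) ℂ →+* ℂ).comp
      (MvPolynomial.aeval f : P3 →ₐ[ℂ] MvPolynomial (Fin 2) ℂ).toRingHom
      = (MvPolynomial.eval (fun i => eval x (f i)) : P3 →+* ℂ) := by
    refine MvPolynomial.ringHom_ext (fun r => ?_) (fun i => ?_)
    · simp
    · simp
  exact congrArg (fun g : P3 →+* ℂ => g p) h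

private lemma bTN_map (x : V3) (p : P3) :
    eval x (MvPolynomial.map (starRingEnd ℂ) p) = (starRingEnd ℂ) (eval (fun i => (starRingEnd ℂ) (x i)) p) := by
  have h : (MvPolynomial.eval x : P3 →+* ℂ).comp (MvPolynomial.map (starRingEnd ℂ))
      = (starRingEnd ℂ).comp (MvPolynomial.eval (fun i => (starRingEnd ℂ) (x i)) : P3 →+* ℂ) := by
    refine MvPolynomial.ringHom_ext (fun r => ?_) (fun i => ?_)
    · simp
    · simp
  exact congrArg (fun g : P3 →+* ℂ => g p) h

/-- TN (uses G2) -/
theorem T_nd {ε : ℝ} (hε : ε = 1 ∨ ε = -1) {F : Fin 5 → P3} (h : Spec (qd ε) 0 F)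
    (hT : Module.finrank ℂ (T 0 F) = 2) (e : E5) (he : e ∈ T 0 F)
    (h0 : ∀ e' ∈ T 0 F, hf e' e = 0) : e = 0 := by
  by_contra hne
  -- a second vector
  obtain ⟨a, haT, hae⟩ : ∃ a ∈ T 0 F, a ∉ Submodule.span ℂ {e} := by
    by_contra hcon
    push Not at hcon
    have h1 : T 0 F ≤ Submodule.span ℂ {e} := fun x hx => hcon x hx
    have h2 := Submodule.finrank_mono h1
    rw [hT, finrank_span_singleton hne] at h2
    omega
  have hli : LinearIndependent ℂ ![e, a] := by
    rw [LinearIndependent.pair_iff' hne]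
    intro c hc
    exact hae (hc ▸ Submodule.smul_mem _ c (Submodule.mem_span_singleton_self e))
  have hspan : Submodule.span ℂ (Set.range ![e, a]) = T 0 F := by
    apply Submodule.eq_of_le_of_finrank_eq
    · rw [Submodule.span_le]
      rintro _ ⟨i, rfl⟩
      fin_cases i
      · exact he
      · exact haT
    · rw [hT, finrank_span_eq_card hli]
      simp
  have hdec : ∀ t ∈ T 0 F, ∃ x y : ℂ, t = x • e + y • a := by
    intro t ht
    rw [← hspan] at ht
    have hr : Set.range ![e, a] = {e, a} := by simp [Set.pair_comm]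
    rw [hr, Submodule.mem_span_pair] at ht
    obtain ⟨x, y, hxy⟩ := ht
    exact ⟨x, y, hxy.symm⟩
  have hee : hf (N := 4) e e = 0 := h0 e he
  have hae0 : hf (N := 4) a e = 0 := h0 a haT
  have hea0 : hf (N := 4) e a = 0 := by rw [bTN_symm, hae0, map_zero]
  have haa : hf (N := 4) a a ≠ 0 := by
    intro hz
    obtain ⟨-, h2⟩ := null_perp (N := 4) e a hee hne hae0
    obtain ⟨c, hc⟩ := h2 (by rw [hz]; rfl)
    exact hae (hc ▸ Submodule.smul_mem _ c (Submodule.mem_span_singleton_self e))
  -- the key relation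
  have key : ∀ z w : V3, z 0 = 0 → w 0 = 0 → qd ε z w = 0 →
      eval z (pf F a) * (starRingEnd ℂ) (eval w (pf F a)) = 0 := by
    intro z w hz hw hq
    have h1 := h.herm z w hq
    obtain ⟨x, y, hxy⟩ := hdec _ (Submodule.subset_span ⟨z, hz, rfl⟩)
    obtain ⟨x', y', hxy'⟩ := hdec _ (Submodule.subset_span ⟨w, hw, rfl⟩)
    rw [hxy, hxy', bTN_exp, hee, hae0, hea0] at h1
    have h2 : eval z (pf F a) = y * hf (N := 4) a a := by
      rw [bTN_pf, hxy]
      have := bTN_exp e a x y 0 1
      rw [hee, hae0, hea0] at this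
      simpa using this
    have h3 : eval w (pf F a) = y' * hf (N := 4) a a := by
      rw [bTN_pf, hxy']
      have := bTN_exp e a x' y' 0 1
      rw [hee, hae0, hea0] at this
      simpa using this
    rw [h2, h3, map_mul]
    linear_combination ((starRingEnd ℂ) (hf (N := 4) a a)) * h1
  -- polynomials in two variables
  have hprod : (aeval ![0, C (ε : ℂ) * X 1, X 0] (pf F a) : MvPolynomial (Fin 2) ℂ) *
      aeval ![0, X 0, X 1] (MvPolynomial.map (starRingEnd ℂ) (pf F a)) = 0 := by
    apply MvPolynomial.funext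
    intro v
    rw [map_mul, map_zero, bTN_ev, bTN_ev, bTN_map]
    have e1 : (fun i => eval v ((![0, C (ε : ℂ) * X 1, X 0] : Fin 3 → MvPolynomial (Fin 2) ℂ) i)) =
        ![0, (ε : ℂ) * v 1, v 0] := by
      funext i
      fin_cases i <;> simp
    have e2 : (fun i => (starRingEnd ℂ) (eval v ((![0, X 0, X 1] : Fin 3 → MvPolynomial (Fin 2) ℂ) i))) =
        ![0, (starRingEnd ℂ) (v 0), (starRingEnd ℂ) (v 1)] := by
      funext i
      fin_cases i <;> simp
    rw [e1, e2]
    apply key
    · rfl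
    · rfl
    · simp [qd]
      ring
  have hvan : ∀ z : V3, z 0 = 0 → eval z (pf F a) = 0 := by
    intro z hz
    rcases mul_eq_zero.mp hprod with h1 | h1
    · have h2 := congrArg (eval ![z 2, (ε : ℂ) * z 1]) h1
      rw [bTN_ev, map_zero] at h2
      have e1 : (fun i => eval ![z 2, (ε : ℂ) * z 1]
          ((![0, C (ε : ℂ) * X 1, X 0] : Fin 3 → MvPolynomial (Fin 2) ℂ) i)) = z := by
        funext i
        fin_cases i
        · simp [hz]
        · rcases hε with rfl | rfl <;> simp
        · simp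
      rwa [e1] at h2
    · have h2 := congrArg (eval ![(starRingEnd ℂ) (z 1), (starRingEnd ℂ) (z 2)]) h1
      rw [bTN_ev, map_zero, bTN_map] at h2
      have e1 : (fun i => (starRingEnd ℂ) (eval ![(starRingEnd ℂ) (z 1), (starRingEnd ℂ) (z 2)]
          ((![0, X 0, X 1] : Fin 3 → MvPolynomial (Fin 2) ℂ) i))) = z := by
        funext i
        fin_cases i <;> simp [hz]
      rw [e1] at h2
      simpa using h2
  -- conclusion
  apply haa
  have hall : ∀ t ∈ T 0 F, hf (N := 4) t a = 0 := by
    intro t ht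
    induction ht using Submodule.span_induction with
    | mem x hx =>
      obtain ⟨z, hz, rfl⟩ := hx
      rw [← bTN_pf]
      exact hvan z hz
    | zero => simp [hf]
    | add x y _ _ hx hy =>
      have e1 : hf (N := 4) (x + y) a = hf (N := 4) x a + hf (N := 4) y a := by
        simp only [hf, Fin.sum_univ_four, Pi.add_apply]
        ring
      rw [e1, hx, hy, add_zero]
    | smul c x _ hx =>
      have e1 : hf (N := 4) (c • x) a = c * hf (N := 4) x a := by
        simp only [hf, Fin.sum_univ_four, Pi.smul_apply, smul_eq_mul]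
        ring
      rw [e1, hx, mul_zero]
  exact hall a haT

end Pool.Agent.Lib_helper86.D24

end

section

namespace Pool.Agent.Lib_helper86.D24

open MvPolynomial Matrix


theorem bFC_iter (v : V3) (k : ℕ) (F : Fin 5 → P3) (l : E5) :
    (dv v)^[k] (∑ i, C (l i) * F i) = ∑ i, C (l i) * (dv v)^[k] (F i) := by
  induction k with
  | zero => rfl
  | succ k ih =>
    rw [Function.iterate_succ_apply', ih, map_sum]
    refine Finset.sum_congr rfl fun i _ => ?_
    rw [Function.iterate_succ_apply', ← smul_eq_C_mul, ← smul_eq_C_mul]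
    exact (dv v).map_smul _ _

theorem bFC_det (L : Fin 3 → E5) (E : Fin 5 → Fin 3 → ℂ) :
    Matrix.det (Matrix.of fun a : Fin 3 => ∑ i, L a i • E i) =
      ∑ s : Fin 3 → Fin 5, (∏ a, L a (s a)) • Matrix.det (Matrix.of fun a => E (s a)) := by
  have e2 := (Matrix.detRowAlternating (n := Fin 3) (R := ℂ)).toMultilinearMap.map_sum
    (fun (a : Fin 3) (i : Fin 5) => L a i • E i)
  refine e2.trans (Finset.sum_congr rfl fun s _ => ?_)
  rw [MultilinearMap.map_smul_univ]
  rfl

/-- FC -/
theorem flat_comb {F : Fin 5 → P3} (z v : V3)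
    (h : ∀ s, mn (fun k : Fin 3 => ej F v (k : ℕ) z) s = 0) (L : Fin 3 → E5) :
    Matrix.det (fun k a : Fin 3 => eval z ((dv v)^[(k : ℕ)] (∑ i, C (L a i) * F i))) = 0 := by
  have e1 : (fun k a : Fin 3 => eval z ((dv v)^[(k : ℕ)] (∑ i, C (L a i) * F i)) :
      Matrix (Fin 3) (Fin 3) ℂ) =
      (Matrix.of fun a : Fin 3 => ∑ i, L a i • fun k : Fin 3 => ej F v (k : ℕ) z i)ᵀ := by
    ext k a
    rw [bFC_iter, map_sum, Matrix.transpose_apply, Matrix.of_apply, Finset.sum_apply]
    refine Finset.sum_congr rfl fun i _ => ?_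
    rw [map_mul, eval_C]
    rfl
  rw [e1, Matrix.det_transpose, bFC_det L (fun i k => ej F v (k : ℕ) z i)]
  refine Finset.sum_eq_zero fun s _ => ?_
  have e3 : (Matrix.of fun a : Fin 3 => fun k : Fin 3 => ej F v (k : ℕ) z (s a)) =
      (Matrix.of fun a b : Fin 3 => ej F v (a : ℕ) z (s b))ᵀ := rfl
  have e4 : Matrix.det (Matrix.of fun a b : Fin 3 => ej F v (a : ℕ) z (s b)) = 0 := h s
  rw [e3, Matrix.det_transpose, e4, smul_zero]

end Pool.Agent.Lib_helper86.D24

end

section

namespace Pool.Agent.Lib_helper86.D24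

open MvPolynomial Matrix


private theorem bWF_dv (j k : Fin 3) (s : ℂ) (P : P3) :
    dv (Pi.single j s + Pi.single k 1) P = C s * pderiv j P + pderiv k P := by
  have h1 : ∀ v : V3, dv v P = ∑ i, C (v i) * pderiv i P := by
    intro v
    simp [dv, Fin.sum_univ_three]
  rw [h1]
  simp only [Pi.add_apply, map_add, add_mul, Finset.sum_add_distrib]
  congr 1
  · rw [Finset.sum_eq_single j]
    · simp
    · intro i _ hi
      simp [Pi.single_eq_of_ne hi]
    · simp
  · rw [Finset.sum_eq_single k]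
    · simp
    · intro i _ hi
      simp [Pi.single_eq_of_ne hi]
    · simp

private theorem bWF_two (j k : Fin 3) (s : ℂ) (P : P3) (z : V3) :
    eval z ((dv (Pi.single j s + Pi.single k 1))^[2] P) =
      s * (s * eval z (pderiv j (pderiv j P)) + eval z (pderiv j (pderiv k P))) +
        (s * eval z (pderiv k (pderiv j P)) + eval z (pderiv k (pderiv k P))) := by
  rw [Function.iterate_succ_apply, Function.iterate_one, bWF_dv, bWF_dv]
  simp only [map_add, pderiv_C_mul, map_mul, eval_C]

private theorem bWF_alg (p pj pk pjj pjk pkj pkk q qj qk qjj qjk qkj qkk b bj bk : ℂ)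
    (h : ∀ s : ℂ, p * (s * qj + qk) *
        (s * (s * (2 * bj) + bk) + (s * bk + 0)) -
        p * (s * b + 0) * (s * (s * qjj + qjk) + (s * qkj + qkk)) -
      q * (s * pj + pk) * (s * (s * (2 * bj) + bk) + (s * bk + 0)) +
      q * (s * b + 0) * (s * (s * pjj + pjk) + (s * pkj + pkk)) + 0 * (s * pj + pk) * (s * (s * qjj + qjk) + (s * qkj + qkk)) - 
      0 * (s * qj + qk) * (s * (s * pjj + pjk) + (s * pkj + pkk)) = 0) :
    2 * (p * qk - q * pk) * bk = (p * qkk - q * pkk) * b := by
  have d1 := h 1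
  have d2 := h (-1)
  have d3 := h 2
  linear_combination d1 - d2 / 3 - d3 / 6

private theorem bWF_row (j k : Fin 3) (s : ℂ) (z : V3) (P : P3) :
    eval z ((dv (Pi.single j s + Pi.single k 1))^[((0 : Fin 3) : ℕ)] P) = eval z P ∧
    eval z ((dv (Pi.single j s + Pi.single k 1))^[((1 : Fin 3) : ℕ)] P) =
      s * eval z (pderiv j P) + eval z (pderiv k P) ∧
    eval z ((dv (Pi.single j s + Pi.single k 1))^[((2 : Fin 3) : ℕ)] P) =
      s * (s * eval z (pderiv j (pderiv j P)) + eval z (pderiv j (pderiv k P))) +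
        (s * eval z (pderiv k (pderiv j P)) + eval z (pderiv k (pderiv k P))) := by
  refine ⟨rfl, ?_, bWF_two j k s P z⟩
  have : (dv (Pi.single j s + Pi.single k 1))^[((1 : Fin 3) : ℕ)] P =
    dv (Pi.single j s + Pi.single k 1) P := rfl
  rw [this, bWF_dv]
  simp

private theorem bWF_det (M : Matrix (Fin 3) (Fin 3) ℂ) {a b c d e f g h i : ℂ}
    (h0 : M 0 0 = a) (h1 : M 0 1 = b) (h2 : M 0 2 = c) (h3 : M 1 0 = d) (h4 : M 1 1 = e)
    (h5 : M 1 2 = f) (h6 : M 2 0 = g) (h7 : M 2 1 = h) (h8 : M 2 2 = i) (hM : M.det = 0) :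
    a * e * i - a * f * h - b * d * i + b * f * g + c * d * h - c * e * g = 0 := by
  rw [Matrix.det_fin_three, h0, h1, h2, h3, h4, h5, h6, h7, h8] at hM
  exact hM

private theorem bWF_aux (j k : Fin 3) (hjk : j ≠ k) (z : V3) (hz : z j = 0) (p q b : P3)
    (h : ∀ z v : V3, z j = 0 →
      Matrix.det (fun k a : Fin 3 => eval z ((dv v)^[(k : ℕ)] (![p, q, X j * b] a))) = 0) :
    2 * (eval z p * eval z (pderiv k q) - eval z q * eval z (pderiv k p)) * eval z (pderiv k b) =
      (eval z p * eval z (pderiv k (pderiv k q)) - eval z q * eval z (pderiv k (pderiv k p))) *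
        eval z b := by
  have e0 : eval z (X j * b) = 0 := by simp [hz]
  have e1 : eval z (pderiv j (X j * b)) = eval z b := by
    simp [Derivation.leibniz, hz]
  have e2 : eval z (pderiv k (X j * b)) = 0 := by
    simp [Derivation.leibniz, hz, pderiv_X_of_ne hjk]
  have e3 : eval z (pderiv j (pderiv j (X j * b))) = 2 * eval z (pderiv j b) := by
    simp [Derivation.leibniz, hz]
    ring
  have e4 : eval z (pderiv j (pderiv k (X j * b))) = eval z (pderiv k b) := by
    simp [Derivation.leibniz, hz, pderiv_X_of_ne hjk]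
  have e5 : eval z (pderiv k (pderiv j (X j * b))) = eval z (pderiv k b) := by
    simp [Derivation.leibniz, hz, pderiv_X_of_ne hjk]
  have e6 : eval z (pderiv k (pderiv k (X j * b))) = 0 := by
    simp [Derivation.leibniz, hz, pderiv_X_of_ne hjk]
  refine bWF_alg (eval z p) (eval z (pderiv j p)) (eval z (pderiv k p))
    (eval z (pderiv j (pderiv j p))) (eval z (pderiv j (pderiv k p)))
    (eval z (pderiv k (pderiv j p))) (eval z (pderiv k (pderiv k p)))
    (eval z q) (eval z (pderiv j q)) (eval z (pderiv k q))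
    (eval z (pderiv j (pderiv j q))) (eval z (pderiv j (pderiv k q)))
    (eval z (pderiv k (pderiv j q))) (eval z (pderiv k (pderiv k q)))
    (eval z b) (eval z (pderiv j b)) (eval z (pderiv k b)) fun s => ?_
  have hp := bWF_row j k s z p
  have hq := bWF_row j k s z q
  have hb := bWF_row j k s z (X j * b)
  rw [e0, e1, e2, e3, e4, e5, e6] at hb
  exact bWF_det _ hp.1 hq.1 hb.1 hp.2.1 hq.2.1 hb.2.1 hp.2.2 hq.2.2 hb.2.2 (h z _ hz)

private theorem bWF_r0 (P : P3) (x : ℂ) : (r0 P).eval x = eval ![0, 1, x] P := by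
  have : (Polynomial.evalRingHom x).comp (r0 : P3 →ₐ[ℂ] Polynomial ℂ).toRingHom =
      (eval ![0, 1, x] : P3 →+* ℂ) := by
    apply MvPolynomial.ringHom_ext
    · intro r
      simp [r0]
    · intro i
      fin_cases i <;> simp [r0]
  exact RingHom.congr_fun this P

private theorem bWF_r2 (P : P3) (x : ℂ) : (r2 P).eval x = eval ![x, 1, 0] P := by
  have : (Polynomial.evalRingHom x).comp (r2 : P3 →ₐ[ℂ] Polynomial ℂ).toRingHom =
      (eval ![x, 1, 0] : P3 →+* ℂ) := by
    apply MvPolynomial.ringHom_ext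
    · intro r
      simp [r2]
    · intro i
      fin_cases i <;> simp [r2]
  exact RingHom.congr_fun this P

private theorem bWF_d0 (P : P3) : Polynomial.derivative (r0 P) = r0 (pderiv 2 P) := by
  induction P using MvPolynomial.induction_on with
  | C a => simp [r0]
  | add p q hp hq => simp [hp, hq]
  | mul_X p i hp =>
    rw [map_mul, Polynomial.derivative_mul, hp, Derivation.leibniz]
    fin_cases i <;> simp [r0, pderiv_X_of_ne] <;> ring

private theorem bWF_d2 (P : P3) : Polynomial.derivative (r2 P) = r2 (pderiv 0 P) := by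
  induction P using MvPolynomial.induction_on with
  | C a => simp [r2]
  | add p q hp hq => simp [hp, hq]
  | mul_X p i hp =>
    rw [map_mul, Polynomial.derivative_mul, hp, Derivation.leibniz]
    fin_cases i <;> simp [r2, pderiv_X_of_ne] <;> ring

/-- WF0 -/
theorem wr_rel0 (p q b : P3) (h : ∀ z v : V3, z 0 = 0 →
      Matrix.det (fun k a : Fin 3 => eval z ((dv v)^[(k : ℕ)] (![p, q, X 0 * b] a))) = 0) :
    2 * wr (r0 p) (r0 q) * Polynomial.derivative (r0 b) =
      Polynomial.derivative (wr (r0 p) (r0 q)) * r0 b := by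
  apply Polynomial.funext
  intro x
  have h1 := bWF_aux 0 2 (by decide) ![0, 1, x] rfl p q b h
  simp only [wr, Polynomial.derivative_sub, Polynomial.derivative_mul, bWF_d0,
    Polynomial.eval_mul, Polynomial.eval_sub, Polynomial.eval_add, bWF_r0, Polynomial.eval_ofNat]
  linear_combination h1

/-- WF2 -/
theorem wr_rel2 (p q b : P3) (h : ∀ z v : V3, z 2 = 0 →
      Matrix.det (fun k a : Fin 3 => eval z ((dv v)^[(k : ℕ)] (![p, q, X 2 * b] a))) = 0) :
    2 * wr (r2 p) (r2 q) * Polynomial.derivative (r2 b) =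
      Polynomial.derivative (wr (r2 p) (r2 q)) * r2 b := by
  apply Polynomial.funext
  intro x
  have h1 := bWF_aux 2 0 (by decide) ![x, 1, 0] rfl p q b h
  simp only [wr, Polynomial.derivative_sub, Polynomial.derivative_mul, bWF_d2,
    Polynomial.eval_mul, Polynomial.eval_sub, Polynomial.eval_add, bWF_r2, Polynomial.eval_ofNat]
  linear_combination h1

end Pool.Agent.Lib_helper86.D24

end

section

namespace Pool.Agent.Lib_helper86.D24

open MvPolynomial Matrix


private theorem bTU_taylor {S : Type*} [CommRing S] [Algebra ℂ S] (p : P3) (v w : Fin 3 → S)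
    (δ : S) (hδ : δ ^ 2 = 0) :
    aeval (fun i => v i + δ * w i) p = aeval v p + δ * ∑ j, w j * aeval v (pderiv j p) := by
  induction p using MvPolynomial.induction_on with
  | C a => simp
  | add p q hp hq =>
    simp only [map_add, hp, hq, mul_add, Finset.sum_add_distrib]
    ring
  | mul_X p i hp =>
    have e : ∀ j, w j * aeval v (pderiv j (p * X i)) =
        aeval v p * (w j * (if i = j then (1 : S) else 0)) +
          v i * (w j * aeval v (pderiv j p)) := by
      intro j
      rw [Derivation.leibniz, pderiv_X]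
      simp only [smul_eq_mul, map_add, map_mul, aeval_X, Pi.single_apply]
      by_cases hij : i = j
      · subst hij; simp; ring
      · simp [hij]; ring
    have e2 : ∑ j, w j * aeval v (pderiv j (p * X i)) =
        aeval v p * w i + v i * ∑ j, w j * aeval v (pderiv j p) := by
      rw [Finset.sum_congr rfl (fun j _ => e j), Finset.sum_add_distrib, ← Finset.mul_sum,
        ← Finset.mul_sum]
      simp
    rw [map_mul, map_mul, hp, aeval_X, aeval_X, e2]
    linear_combination (w i * ∑ j, w j * aeval v (pderiv j p)) * hδ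

private theorem bTU_comp {S : Type*} [CommRing S] [Algebra ℂ S] (g : Fin 3 → S)
    (f : Fin 3 → P3) (p : P3) :
    (aeval g (aeval f p : P3) : S) = aeval (fun i => aeval g (f i)) p :=
  comp_aeval_apply f (aeval g) p

/-- the four coefficients -/
private theorem bTU_coeff (α β γ δ : ℂ)
    (h : (algebraMap ℂ (DualNumber (DualNumber ℂ)) α) +
      TrivSqZeroExt.inl DualNumber.eps * algebraMap ℂ (DualNumber (DualNumber ℂ)) β +
      (DualNumber.eps : DualNumber (DualNumber ℂ)) * algebraMap ℂ (DualNumber (DualNumber ℂ)) γ +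
      TrivSqZeroExt.inl DualNumber.eps * (DualNumber.eps : DualNumber (DualNumber ℂ)) *
        algebraMap ℂ (DualNumber (DualNumber ℂ)) δ = 0) : α = 0 ∧ β = 0 ∧ γ = 0 ∧ δ = 0 := by
  have h1 := congrArg TrivSqZeroExt.fst h
  have h2 := congrArg TrivSqZeroExt.snd h
  have h11 := congrArg TrivSqZeroExt.fst h1
  have h12 := congrArg TrivSqZeroExt.snd h1
  have h21 := congrArg TrivSqZeroExt.fst h2
  have h22 := congrArg TrivSqZeroExt.snd h2
  simp only [TrivSqZeroExt.algebraMap_eq_inl', TrivSqZeroExt.fst_add, TrivSqZeroExt.snd_add,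
    TrivSqZeroExt.fst_mul, TrivSqZeroExt.snd_mul, TrivSqZeroExt.fst_inl, TrivSqZeroExt.snd_inl,
    DualNumber.fst_eps, DualNumber.snd_eps, TrivSqZeroExt.fst_zero, TrivSqZeroExt.snd_zero,
    smul_zero, add_zero, zero_add, mul_zero, zero_mul, MulOpposite.op_zero,
    smul_eq_mul, MulOpposite.smul_eq_mul_unop,
    MulOpposite.unop_op, one_mul, mul_one] at h11 h12 h21 h22
  exact ⟨h11, h12, h21, h22⟩

private theorem bTU_gen {S : Type*} [CommRing S] [Algebra ℂ S] (a b : S) (ha : a ^ 2 = 0)
    (hb : b ^ 2 = 0) (A At : Fin 2 → P3) (Φ : P3)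
    (h : ∀ t u x : ℂ, ∑ i, eval ![t, 1, x] (A i) * eval ![u, -(x + t * u), 1] (At i) +
      t * u * eval ![t, u, x] Φ = 0) (h0 : ∀ x : ℂ, eval ![0, 0, x] Φ = 0) (x : ℂ) :
    algebraMap ℂ S (∑ i, eval ![0, 1, x] (A i) * eval ![0, -x, 1] (At i)) +
    a * algebraMap ℂ S (∑ i, eval ![0, 1, x] (pderiv 0 (A i)) * eval ![0, -x, 1] (At i)) +
    b * algebraMap ℂ S (∑ i, eval ![0, 1, x] (A i) * eval ![0, -x, 1] (pderiv 0 (At i))) +
    a * b * algebraMap ℂ S
      (∑ i, (eval ![0, 1, x] (pderiv 0 (A i)) * eval ![0, -x, 1] (pderiv 0 (At i)) -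
      eval ![0, 1, x] (A i) * eval ![0, -x, 1] (pderiv 1 (At i)))) = 0 := by
  have hQ : (∑ i, (aeval ![X 0, 1, X 2] (A i) : P3) *
      aeval ![X 1, -(X 2 + X 0 * X 1), 1] (At i) +
      X 0 * X 1 * aeval ![X 0, X 1, X 2] Φ : P3) = 0 := by
    apply MvPolynomial.funext
    intro v
    have e := h (v 0) (v 1) (v 2)
    have e1 : ∀ p : P3, eval v (aeval ![(X 0 : P3), 1, X 2] p) = eval ![v 0, 1, v 2] p := by
      intro p
      rw [← aeval_eq_eval, ← aeval_eq_eval, comp_aeval_apply]
      congr 2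
      funext i; fin_cases i <;> simp
    have e2 : ∀ p : P3, eval v (aeval ![(X 1 : P3), -(X 2 + X 0 * X 1), 1] p) =
        eval ![v 1, -(v 2 + v 0 * v 1), 1] p := by
      intro p
      rw [← aeval_eq_eval, ← aeval_eq_eval, comp_aeval_apply]
      congr 2
      funext i; fin_cases i <;> simp
    have e3 : ∀ p : P3, eval v (aeval ![(X 0 : P3), X 1, X 2] p) = eval ![v 0, v 1, v 2] p := by
      intro p
      rw [← aeval_eq_eval, ← aeval_eq_eval, comp_aeval_apply]
      congr 2
      funext i; fin_cases i <;> simp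
    simp only [map_add, map_sum, map_mul, e1, e2, e3, eval_X, map_zero]
    exact e
  obtain ⟨c, hc⟩ : ∃ c : ℂ →+* S, c = algebraMap ℂ S := ⟨_, rfl⟩
  rw [← hc]
  have hQ2 := congrArg (aeval ![a, b, c x] : P3 →ₐ[ℂ] S) hQ
  have f1 : ∀ p : P3, (aeval ![a, b, c x] : P3 →ₐ[ℂ] S) (aeval ![(X 0 : P3), 1, X 2] p) =
      aeval ![a, 1, c x] p := by
    intro p
    rw [bTU_comp]
    congr 2
    funext i; fin_cases i <;> simp
  have f2 : ∀ p : P3, (aeval ![a, b, c x] : P3 →ₐ[ℂ] S)
      (aeval ![(X 1 : P3), -(X 2 + X 0 * X 1), 1] p) = aeval ![b, -(c x + a * b), 1] p := by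
    intro p
    rw [bTU_comp]
    congr 2
    funext i; fin_cases i <;> simp
  have f3 : ∀ p : P3, (aeval ![a, b, c x] : P3 →ₐ[ℂ] S) (aeval ![(X 0 : P3), X 1, X 2] p) =
      aeval ![a, b, c x] p := by
    intro p
    rw [bTU_comp]
    congr 2
    funext i; fin_cases i <;> simp
  simp only [map_add, map_sum, map_mul, f1, f2, f3, aeval_X, map_zero] at hQ2
  have al : ∀ (v : Fin 3 → ℂ) (p : P3), (aeval (fun i => c (v i)) p : S) = c (eval v p) := by
    intro v p
    have := MvPolynomial.aeval_algebraMap_apply S v p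
    rw [← aeval_eq_eval, hc]
    exact this
  have g1 : ∀ p : P3, (aeval ![a, 1, c x] p : S) =
      c (eval ![0, 1, x] p) + a * c (eval ![0, 1, x] (pderiv 0 p)) := by
    intro p
    have := bTU_taylor p (fun i => c ((![0, 1, x] : Fin 3 → ℂ) i)) ![1, 0, 0] a ha
    rw [al] at this
    simp only [Fin.sum_univ_three, al] at this
    have e : (fun i => c ((![0, 1, x] : Fin 3 → ℂ) i) + a * (![1, 0, 0] : Fin 3 → S) i) =
        ![a, 1, c x] := by
      funext i; fin_cases i <;> simp
    rw [e] at this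
    rw [this]
    simp
  have g2 : ∀ p : P3, (aeval ![b, -(c x + a * b), 1] p : S) =
      c (eval ![0, -x, 1] p) + b * (c (eval ![0, -x, 1] (pderiv 0 p)) -
        a * c (eval ![0, -x, 1] (pderiv 1 p))) := by
    intro p
    have := bTU_taylor p (fun i => c ((![0, -x, 1] : Fin 3 → ℂ) i)) ![1, -a, 0] b hb
    rw [al] at this
    simp only [Fin.sum_univ_three, al] at this
    have e : (fun i => c ((![0, -x, 1] : Fin 3 → ℂ) i) + b * (![1, -a, 0] : Fin 3 → S) i) =
        ![b, -(c x + a * b), 1] := by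
      funext i; fin_cases i <;> simp
      ring
    rw [e] at this
    rw [this]
    simp
    ring
  have g3 : (a * b * (aeval ![a, b, c x] Φ : S)) = 0 := by
    have t1 := bTU_taylor Φ ![0, b, c x] ![1, 0, 0] a ha
    have e : (fun i => (![0, b, c x] : Fin 3 → S) i + a * (![1, 0, 0] : Fin 3 → S) i) =
        ![a, b, c x] := by
      funext i; fin_cases i <;> simp
    rw [e] at t1
    have t2 := bTU_taylor Φ (fun i => c ((![0, 0, x] : Fin 3 → ℂ) i)) ![0, 1, 0] b hb
    have e' : (fun i => c ((![0, 0, x] : Fin 3 → ℂ) i) + b * (![0, 1, 0] : Fin 3 → S) i) =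
        ![0, b, c x] := by
      funext i; fin_cases i <;> simp
    rw [e', al, h0] at t2
    rw [t1, t2]
    have hc0 : c 0 = 0 := map_zero _
    rw [hc0]
    linear_combination (b * ∑ j, (![1, 0, 0] : Fin 3 → S) j *
      aeval ![0, b, c x] (pderiv j Φ)) * ha + (a * ∑ j, (![0, 1, 0] : Fin 3 → S) j *
      aeval (fun i => c ((![0, 0, x] : Fin 3 → ℂ) i)) (pderiv j Φ)) * hb
  replace hQ2 : ∑ i, (aeval ![a, 1, c x] (A i) : S) * aeval ![b, -(c x + a * b), 1] (At i) +
      a * b * (aeval ![a, b, c x] Φ : S) = 0 := hQ2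
  rw [g3, add_zero] at hQ2
  simp only [g1, g2] at hQ2
  rw [Fin.sum_univ_two] at hQ2
  simp only [Fin.sum_univ_two, map_add, map_mul, map_sub]
  linear_combination hQ2 + (b * (c (eval ![0, 1, x] (pderiv 0 (A 0))) *
        c (eval ![0, -x, 1] (pderiv 1 (At 0))) +
        c (eval ![0, 1, x] (pderiv 0 (A 1))) *
        c (eval ![0, -x, 1] (pderiv 1 (At 1))))) * ha

/-- the relations at order `≤ 1` in `t` and in `u` -/
private theorem bTU_rel (A At : Fin 2 → P3) (Φ : P3)
    (h : ∀ t u x : ℂ, ∑ i, eval ![t, 1, x] (A i) * eval ![u, -(x + t * u), 1] (At i) +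
      t * u * eval ![t, u, x] Φ = 0) (h0 : ∀ x : ℂ, eval ![0, 0, x] Φ = 0) (x : ℂ) :
    (∑ i, eval ![0, 1, x] (A i) * eval ![0, -x, 1] (At i) = 0) ∧
    (∑ i, eval ![0, 1, x] (pderiv 0 (A i)) * eval ![0, -x, 1] (At i) = 0) ∧
    (∑ i, eval ![0, 1, x] (A i) * eval ![0, -x, 1] (pderiv 0 (At i)) = 0) ∧
    (∑ i, (eval ![0, 1, x] (pderiv 0 (A i)) * eval ![0, -x, 1] (pderiv 0 (At i)) -
      eval ![0, 1, x] (A i) * eval ![0, -x, 1] (pderiv 1 (At i))) = 0) := by
  have ha : (TrivSqZeroExt.inl DualNumber.eps : DualNumber (DualNumber ℂ)) ^ 2 = 0 := by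
    rw [sq, ← TrivSqZeroExt.inl_mul, DualNumber.eps_mul_eps, TrivSqZeroExt.inl_zero]
  have hb : (DualNumber.eps : DualNumber (DualNumber ℂ)) ^ 2 = 0 := by
    rw [sq, DualNumber.eps_mul_eps]
  have := bTU_gen (S := DualNumber (DualNumber ℂ)) (TrivSqZeroExt.inl DualNumber.eps)
    DualNumber.eps ha hb A At Φ h h0 x
  exact bTU_coeff _ _ _ _ this

/-- TU (uses WR2) -/
theorem tu_false (A At : Fin 2 → P3) (Φ : P3)
    (h : ∀ t u x : ℂ, ∑ i, eval ![t, 1, x] (A i) * eval ![u, -(x + t * u), 1] (At i) +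
      t * u * eval ![t, u, x] Φ = 0) (h0 : ∀ x : ℂ, eval ![0, 0, x] Φ = 0)
    (indA : ∀ α : Fin 2 → ℂ, (∀ x : ℂ, ∑ i, α i * eval ![0, 1, x] (A i) = 0) → α = 0)
    (hAt : ∃ i, ∃ x : ℂ, eval ![0, -x, 1] (At i) ≠ 0) : False := by
  let pa : P3 → Polynomial ℂ := fun p => aeval ![0, 1, Polynomial.X] p
  let pb : P3 → Polynomial ℂ := fun p => aeval ![0, -Polynomial.X, 1] p
  have ea : ∀ (p : P3) (x : ℂ), (pa p).eval x = eval ![0, 1, x] p := by
    intro p x
    show Polynomial.eval x (aeval ![0, 1, Polynomial.X] p) = _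
    have := comp_aeval_apply (![0, 1, Polynomial.X] : Fin 3 → Polynomial ℂ)
      (Polynomial.aeval x : Polynomial ℂ →ₐ[ℂ] ℂ) p
    rw [Polynomial.coe_aeval_eq_eval] at this
    rw [this, aeval_eq_eval]
    congr 2
    funext i; fin_cases i <;> simp
  have eb : ∀ (p : P3) (x : ℂ), (pb p).eval x = eval ![0, -x, 1] p := by
    intro p x
    show Polynomial.eval x (aeval ![0, -Polynomial.X, 1] p) = _
    have := comp_aeval_apply (![0, -Polynomial.X, 1] : Fin 3 → Polynomial ℂ)
      (Polynomial.aeval x : Polynomial ℂ →ₐ[ℂ] ℂ) p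
    rw [Polynomial.coe_aeval_eq_eval] at this
    rw [this, aeval_eq_eval]
    congr 2
    funext i; fin_cases i <;> simp
  have db : ∀ p : P3, Polynomial.derivative (pb p) = -pb (pderiv 1 p) := by
    intro p
    show Polynomial.derivative (aeval ![0, -Polynomial.X, 1] p) =
      -(aeval ![0, -Polynomial.X, 1] (pderiv 1 p))
    induction p using MvPolynomial.induction_on with
    | C a => simp
    | add p q hp hq => simp only [map_add, hp, hq]; ring
    | mul_X p i hp =>
      rw [map_mul, Polynomial.derivative_mul, hp, Derivation.leibniz, pderiv_X]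
      simp only [smul_eq_mul, map_add, map_mul, aeval_X]
      fin_cases i <;> simp
      ring
  have R := bTU_rel A At Φ h h0
  have r1 : pa (A 0) * pb (At 0) + pa (A 1) * pb (At 1) = 0 := by
    apply Polynomial.funext; intro x
    have := (R x).1
    rw [Fin.sum_univ_two] at this
    simp [ea, eb, this]
  have r2 : pa (pderiv 0 (A 0)) * pb (At 0) + pa (pderiv 0 (A 1)) * pb (At 1) = 0 := by
    apply Polynomial.funext; intro x
    have := (R x).2.1
    rw [Fin.sum_univ_two] at this
    simp [ea, eb, this]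
  have r3 : pa (A 0) * pb (pderiv 0 (At 0)) + pa (A 1) * pb (pderiv 0 (At 1)) = 0 := by
    apply Polynomial.funext; intro x
    have := (R x).2.2.1
    rw [Fin.sum_univ_two] at this
    simp [ea, eb, this]
  have r4 : pa (pderiv 0 (A 0)) * pb (pderiv 0 (At 0)) +
      pa (pderiv 0 (A 1)) * pb (pderiv 0 (At 1)) -
      (pa (A 0) * pb (pderiv 1 (At 0)) + pa (A 1) * pb (pderiv 1 (At 1))) = 0 := by
    apply Polynomial.funext; intro x
    have := (R x).2.2.2
    rw [Fin.sum_univ_two] at this
    simp only [Polynomial.eval_sub, Polynomial.eval_add, Polynomial.eval_mul, ea, eb,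
      Polynomial.eval_zero]
    linear_combination this
  -- independence
  have ind : ∀ α β : ℂ, Polynomial.C α * pa (A 0) + Polynomial.C β * pa (A 1) = 0 →
      α = 0 ∧ β = 0 := by
    intro α β hab
    have := indA ![α, β] (fun x => by
      have := congrArg (Polynomial.eval x) hab
      simpa [ea] using this)
    exact ⟨congrFun this 0, congrFun this 1⟩
  have a0 : pa (A 0) ≠ 0 := fun hz => by
    have := ind 1 0 (by simp [hz])
    exact one_ne_zero this.1
  have a1 : pa (A 1) ≠ 0 := fun hz => by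
    have := ind 0 1 (by simp [hz])
    exact one_ne_zero this.2
  have b1 : pb (At 1) ≠ 0 := fun hz => by
    have h2 : pb (At 0) = 0 := by
      rw [hz, mul_zero, add_zero] at r1
      exact (mul_eq_zero.1 r1).resolve_left a0
    obtain ⟨i, x, hx⟩ := hAt
    apply hx
    fin_cases i
    · show eval ![0, -x, 1] (At 0) = 0
      rw [← eb, h2, Polynomial.eval_zero]
    · show eval ![0, -x, 1] (At 1) = 0
      rw [← eb, hz, Polynomial.eval_zero]
  -- `a1 ∥ a`
  have q1 : pa (A 0) * pa (pderiv 0 (A 1)) = pa (A 1) * pa (pderiv 0 (A 0)) := by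
    have : (pa (A 0) * pa (pderiv 0 (A 1)) - pa (A 1) * pa (pderiv 0 (A 0))) * pb (At 1) = 0 := by
      linear_combination pa (A 0) * r2 - pa (pderiv 0 (A 0)) * r1
    exact sub_eq_zero.1 ((mul_eq_zero.1 this).resolve_right b1)
  have q2 : pa (pderiv 0 (A 0)) * pb (pderiv 0 (At 0)) +
      pa (pderiv 0 (A 1)) * pb (pderiv 0 (At 1)) = 0 := by
    have : pa (A 0) * (pa (pderiv 0 (A 0)) * pb (pderiv 0 (At 0)) +
      pa (pderiv 0 (A 1)) * pb (pderiv 0 (At 1))) = 0 := by
      linear_combination pa (pderiv 0 (A 0)) * r3 + pb (pderiv 0 (At 1)) * q1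
    exact (mul_eq_zero.1 this).resolve_left a0
  have q3 : pa (A 0) * pb (pderiv 1 (At 0)) + pa (A 1) * pb (pderiv 1 (At 1)) = 0 := by
    linear_combination q2 - r4
  have hw : wr (pb (At 0)) (pb (At 1)) = 0 := by
    have : pa (A 1) * wr (pb (At 0)) (pb (At 1)) = 0 := by
      unfold wr
      rw [db, db]
      linear_combination (-pb (At 0)) * q3 + pb (pderiv 1 (At 0)) * r1
    exact (mul_eq_zero.1 this).resolve_left a1
  obtain ⟨c, hc⟩ := wr2 _ _ b1 hw
  have : (Polynomial.C c * pa (A 0) + Polynomial.C 1 * pa (A 1)) * pb (At 1) = 0 := by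
    rw [Polynomial.C_1]
    linear_combination r1 - pa (A 0) * hc
  have := ind c 1 ((mul_eq_zero.1 this).resolve_right b1)
  exact one_ne_zero this.2

end Pool.Agent.Lib_helper86.D24

end

section

namespace Pool.Agent.Lib_helper86.D24

open MvPolynomial Matrix


/-- `tl` as a ring homomorphism. -/
private noncomputable def bE3_tl (ε : ℝ) : P3 →+* P3 :=
  (aeval ![C (ε : ℂ) * X 0, X 1, -(C (ε : ℂ) * X 2)] : P3 →ₐ[ℂ] P3).toRingHom.comp
    (MvPolynomial.map (starRingEnd ℂ))

private theorem bE3_C (ε : ℝ) (a : ℂ) : bE3_tl ε (C a) = C ((starRingEnd ℂ) a) := by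
  simp [bE3_tl, MvPolynomial.algebraMap_eq]

private theorem bE3_X0 (ε : ℝ) : bE3_tl ε (X 0) = C (ε : ℂ) * X 0 := by
  simp [bE3_tl]

private theorem bE3_X1 (ε : ℝ) : bE3_tl ε (X 1) = X 1 := by
  simp [bE3_tl]

private theorem bE3_X2 (ε : ℝ) : bE3_tl ε (X 2) = -(C (ε : ℂ) * X 2) := by
  simp [bE3_tl]

private theorem bE3_evalaux (ε : ℝ) (w : V3) (P : P3) :
    eval w (bE3_tl ε P) =
      (starRingEnd ℂ) (eval ![(ε : ℂ) * (starRingEnd ℂ) (w 0), (starRingEnd ℂ) (w 1), -((ε : ℂ) * (starRingEnd ℂ) (w 2))] P) := by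
  have hcε : (starRingEnd ℂ) (ε : ℂ) = (ε : ℂ) := Complex.conj_ofReal ε
  induction P using MvPolynomial.induction_on with
  | C a => rw [bE3_C]; simp
  | add p q hp hq => rw [map_add, map_add, hp, hq, map_add, map_add]
  | mul_X p i hp =>
    rw [map_mul, map_mul, hp, map_mul, map_mul]
    congr 1
    fin_cases i
    · show eval w (bE3_tl ε (X 0)) = _
      rw [bE3_X0]
      simp [hcε]
    · show eval w (bE3_tl ε (X 1)) = _
      rw [bE3_X1]
      simp
    · show eval w (bE3_tl ε (X 2)) = _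
      rw [bE3_X2]
      simp [hcε]

private theorem bE3_eval (ε : ℝ) (w : V3) (P : P3) :
    eval w (tl ε P) =
      (starRingEnd ℂ) (eval ![(ε : ℂ) * (starRingEnd ℂ) (w 0), (starRingEnd ℂ) (w 1), -((ε : ℂ) * (starRingEnd ℂ) (w 2))] P) :=
  bE3_evalaux ε w P

/-! ### The form -/

private theorem bE3_hf (u v : E5) : hf u v = ∑ i : Fin 5, sg i * (u i * (starRingEnd ℂ) (v i)) := by
  rw [hf, Fin.sum_univ_succ (n := 4)]
  simp only [sg, if_true, Fin.succ_ne_zero, if_false, one_mul]
  ring

private theorem bE3_conj (u v : E5) : (starRingEnd ℂ) (hf u v) = hf v u := by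
  rw [hf, hf, map_sub, map_sum, map_mul, Complex.conj_conj]
  congr 1
  · refine Finset.sum_congr rfl fun i _ => ?_
    rw [map_mul, Complex.conj_conj, mul_comm]
  · rw [mul_comm]

private theorem bE3_zero_symm {u v : E5} (h : hf u v = 0) : hf v u = 0 := by
  rw [← bE3_conj, h, map_zero]

/-- `hf` as a linear map in the first argument. -/
private noncomputable def bE3_L (v : E5) : E5 →ₗ[ℂ] ℂ :=
  ∑ i, (sg i * (starRingEnd ℂ) (v i)) • LinearMap.proj i

private theorem bE3_L_apply (v u : E5) : bE3_L v u = hf u v := by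
  rw [bE3_hf, bE3_L, LinearMap.sum_apply]
  refine Finset.sum_congr rfl fun i _ => ?_
  rw [LinearMap.smul_apply, LinearMap.proj_apply, smul_eq_mul]
  ring

private theorem bE3_add (u u' v : E5) : hf (u + u') v = hf u v + hf u' v := by
  rw [← bE3_L_apply, ← bE3_L_apply, ← bE3_L_apply, map_add]

private theorem bE3_smul (c : ℂ) (u v : E5) : hf (c • u) v = c * hf u v := by
  rw [← bE3_L_apply, ← bE3_L_apply, map_smul, smul_eq_mul]

private theorem bE3_add_r (u v v' : E5) : hf u (v + v') = hf u v + hf u v' := by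
  rw [← bE3_conj, bE3_add, map_add, bE3_conj, bE3_conj]

private theorem bE3_smul_r (c : ℂ) (u v : E5) : hf u (c • v) = (starRingEnd ℂ) c * hf u v := by
  rw [← bE3_conj, bE3_smul, map_mul, bE3_conj]

private theorem bE3_pf (F : Fin 5 → P3) (e : E5) (z : V3) :
    eval z (pf F e) = hf (fun i => eval z (F i)) e := by
  rw [pf, bE3_hf, map_sum]
  refine Finset.sum_congr rfl fun i _ => ?_
  rw [map_mul, eval_C]
  ring

private theorem bE3_pf_sub (F : Fin 5 → P3) (t0 t1 : E5) (A0 A1 : P3) (e : E5) :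
    pf (fun k => F k - (C (t0 k) * A0 + C (t1 k) * A1)) e =
      pf F e - (C (hf t0 e) * A0 + C (hf t1 e) * A1) := by
  rw [pf, pf, bE3_hf, bE3_hf, map_sum, map_sum, Finset.sum_mul, Finset.sum_mul,
    ← Finset.sum_add_distrib, ← Finset.sum_sub_distrib]
  refine Finset.sum_congr rfl fun i _ => ?_
  simp only [C_mul]
  ring

private theorem bE3_pf_X (R : Fin 5 → P3) (e : E5) :
    pf (fun k => X 0 * R k) e = X 0 * pf R e := by
  rw [pf, pf, Finset.mul_sum]
  refine Finset.sum_congr rfl fun i _ => ?_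
  ring

/-! ### Polynomials -/

private theorem bE3_dvd_aux (P : P3) :
    (X 0 : P3) ∣ P - aeval ![(0 : P3), X 1, X 2] P := by
  induction P using MvPolynomial.induction_on with
  | C a => simp [MvPolynomial.algebraMap_eq]
  | add p q hp hq =>
    rw [map_add]
    have : p + q - (aeval ![(0 : P3), X 1, X 2] p + aeval ![(0 : P3), X 1, X 2] q) =
      (p - aeval ![(0 : P3), X 1, X 2] p) + (q - aeval ![(0 : P3), X 1, X 2] q) := by ring
    rw [this]
    exact dvd_add hp hq
  | mul_X p i hp =>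
    rw [map_mul]
    have hi : (X 0 : P3) ∣ X i - aeval ![(0 : P3), X 1, X 2] (X i : P3) := by
      rw [aeval_X]
      fin_cases i <;> simp
    have : p * X i - aeval ![(0 : P3), X 1, X 2] p * aeval ![(0 : P3), X 1, X 2] (X i : P3) =
      (p - aeval ![(0 : P3), X 1, X 2] p) * X i +
        aeval ![(0 : P3), X 1, X 2] p * (X i - aeval ![(0 : P3), X 1, X 2] (X i : P3)) := by ring
    rw [this]
    exact dvd_add (Dvd.dvd.mul_right hp _) (Dvd.dvd.mul_left hi _)

private theorem bE3_eval_aeval (z : V3) (g : Fin 3 → P3) (P : P3) :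
    eval z (aeval g P) = eval (fun i => eval z (g i)) P := by
  induction P using MvPolynomial.induction_on with
  | C a => simp [MvPolynomial.algebraMap_eq]
  | add p q hp hq => rw [map_add, map_add, hp, hq, map_add]
  | mul_X p i hp => rw [map_mul, map_mul, hp, map_mul, aeval_X, eval_X]

private theorem bE3_dvd {P : P3} (h : ∀ z : V3, z 0 = 0 → eval z P = 0) : (X 0 : P3) ∣ P := by
  have h1 : aeval ![(0 : P3), X 1, X 2] P = 0 := by
    apply MvPolynomial.funext
    intro z
    rw [bE3_eval_aeval, map_zero]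
    exact h _ (by simp)
  have h2 := bE3_dvd_aux P
  rwa [h1, sub_zero] at h2

private theorem bE3_vanish {P : P3} (h : (X 0 : P3) ∣ P) (z : V3) (hz : z 0 = 0) :
    eval z P = 0 := by
  obtain ⟨Q, rfl⟩ := h
  rw [map_mul, eval_X, hz, zero_mul]

private theorem bE3_line {P : P3} (i : Fin 3) (hi : i ≠ 0)
    (h : ∀ z : V3, z 0 = 0 → z i ≠ 0 → eval z P = 0) (z : V3) (hz : z 0 = 0) : eval z P = 0 := by
  have h1 : (X 0 : P3) ∣ X i * P := by
    apply bE3_dvd
    intro z hz
    rw [map_mul, eval_X]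
    by_cases h0 : z i = 0
    · rw [h0, zero_mul]
    · rw [h z hz h0, mul_zero]
  have hp : Prime (X 0 : P3) := MvPolynomial.X_prime
  rcases hp.dvd_or_dvd h1 with h2 | h2
  · exfalso
    have h3 := bE3_vanish h2 (fun j => if j = 0 then 0 else 1) (by simp)
    rw [eval_X, if_neg hi] at h3
    exact one_ne_zero h3
  · exact bE3_vanish h2 z hz

private theorem bE3_scale {P : P3} {n : ℕ} (hP : P.IsHomogeneous n) (c : ℂ) (z : V3) :
    eval (fun i => c * z i) P = c ^ n * eval z P := by
  rw [MvPolynomial.eval_eq', MvPolynomial.eval_eq', Finset.mul_sum]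
  refine Finset.sum_congr rfl fun d hd => ?_
  have h1 : d.degree = n := by
    have := hP (MvPolynomial.mem_support_iff.1 hd)
    rw [← this]
    rw [Finsupp.weight_apply, Finsupp.sum]
    simp [Finsupp.degree_apply]
  have h2 : ∏ i, (c * z i) ^ d i = c ^ n * ∏ i, z i ^ d i := by
    simp only [mul_pow, Finset.prod_mul_distrib]
    rw [Finset.prod_pow_eq_pow_sum, ← h1, Finsupp.degree_eq_sum]
  rw [h2]
  ring

/-! ### The kernel of the four functionals -/

private theorem bE3_ker {t0 t1 e1 e2 e3 : E5}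
    (hli : LinearIndependent ℂ ![t0, t1, e1, e2]) (h3 : e3 ≠ 0) (a0 : hf e3 t0 = 0)
    (a1 : hf e3 t1 = 0) (b1 : hf e3 e1 = 0) (b2 : hf e3 e2 = 0) (e : E5) (a0' : hf e t0 = 0)
    (a1' : hf e t1 = 0) (b1' : hf e e1 = 0) (b2' : hf e e2 = 0) : ∃ c : ℂ, e = c • e3 := by
  have key : ∀ (u v : E5), (∑ i, (sg i * (starRingEnd ℂ) (v i)) * u i) = hf u v := by
    intro u v
    rw [bE3_hf]
    exact Finset.sum_congr rfl fun i _ => by ring
  let A : Matrix (Fin 4) (Fin 5) ℂ := fun a i => sg i * (starRingEnd ℂ) (![t0, t1, e1, e2] a i)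
  have hsg : ∀ i : Fin 5, (sg i : ℂ) ≠ 0 := by
    intro i
    rw [sg]
    split_ifs <;> norm_num
  have hA : LinearIndependent ℂ A.row := by
    rw [Fintype.linearIndependent_iff]
    intro g hg
    have h1 := (Fintype.linearIndependent_iff.1 hli) (fun a => (starRingEnd ℂ) (g a)) (by
      funext i
      have h2 := congrFun hg i
      rw [Finset.sum_apply] at h2 ⊢
      have h3 : sg i * (starRingEnd ℂ) (∑ a, ((starRingEnd ℂ) (g a) • ![t0, t1, e1, e2] a) i) = 0 := by
        rw [map_sum, Finset.mul_sum]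
        refine Eq.trans ?_ h2
        refine Finset.sum_congr rfl fun a _ => ?_
        simp only [Pi.smul_apply, smul_eq_mul, map_mul, Complex.conj_conj, Matrix.row, A]
        ring
      exact (map_eq_zero (starRingEnd ℂ)).1 ((mul_eq_zero.1 h3).resolve_left (hsg i)))
    intro i
    simpa using h1 i
  have hr : A.rank = 4 := by
    simpa using LinearIndependent.rank_matrix hA
  have hd := LinearMap.finrank_range_add_finrank_ker A.mulVecLin
  rw [Matrix.rank] at hr
  rw [hr] at hd
  have hk : Module.finrank ℂ (LinearMap.ker A.mulVecLin) = 1 := by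
    simp only [Module.finrank_fin_fun] at hd
    omega
  have hmem : ∀ u : E5, hf u t0 = 0 → hf u t1 = 0 → hf u e1 = 0 → hf u e2 = 0 →
      u ∈ LinearMap.ker A.mulVecLin := by
    intro u h0 h1 h2 h3
    rw [LinearMap.mem_ker, Matrix.mulVecLin_apply]
    funext a
    rw [Matrix.mulVec, dotProduct]
    fin_cases a
    · exact (key u t0).trans h0
    · exact (key u t1).trans h1
    · exact (key u e1).trans h2
    · exact (key u e2).trans h3
  obtain ⟨c, hc⟩ := exists_smul_eq_of_finrank_eq_one hk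
    (x := ⟨e3, hmem e3 a0 a1 b1 b2⟩) (by
      intro h
      exact h3 (congrArg Subtype.val h)) ⟨e, hmem e a0' a1' b1' b2'⟩
  exact ⟨c, (congrArg Subtype.val hc).symm⟩

/-- E3 (uses TU) -/
theorem e3_nonnull {ε : ℝ} (hε : ε = 1 ∨ ε = -1) {F : Fin 5 → P3} (h : Spec (qd ε) 0 F)
    (hT : Module.finrank ℂ (T 0 F) = 2)
    (hnd : ∀ e ∈ T 0 F, (∀ e' ∈ T 0 F, hf e' e = 0) → e = 0) (e1 e2 : E5)
    (hi : LinearIndependent ℂ ![e1, e2]) (h1 : X 0 ^ 3 ∣ pf F e1) (h2 : X 0 ^ 3 ∣ pf F e2)
    (e3 : E5) (h3 : e3 ≠ 0) (h3T : ∀ e ∈ T 0 F, hf e e3 = 0) (h31 : hf e1 e3 = 0)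
    (h32 : hf e2 e3 = 0) : hf e3 e3 ≠ 0 := by
  intro hnull
  have hcε : (starRingEnd ℂ) (ε : ℂ) = (ε : ℂ) := Complex.conj_ofReal ε
  have hε2 : (ε : ℂ) * ε = 1 := by rcases hε with h | h <;> simp [h]
  have hε0 : (ε : ℂ) ≠ 0 := by
    intro h0
    rw [h0, zero_mul] at hε2
    exact zero_ne_one hε2
  -- the values on the line
  have hFT : ∀ z : V3, z 0 = 0 → (fun i => eval z (F i)) ∈ T 0 F := fun z hz =>
    Submodule.subset_span ⟨z, hz, rfl⟩
  -- vectors orthogonal to the values are orthogonal to T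
  have hperp : ∀ v : E5, (∀ z : V3, z 0 = 0 → hf (fun i => eval z (F i)) v = 0) →
      ∀ e ∈ T 0 F, hf e v = 0 := by
    intro v hv e he
    have hle : T 0 F ≤ LinearMap.ker (bE3_L v) := by
      rw [T, Submodule.span_le]
      rintro _ ⟨z, hz, rfl⟩
      rw [SetLike.mem_coe, LinearMap.mem_ker, bE3_L_apply]
      exact hv z hz
    have := hle he
    rwa [LinearMap.mem_ker, bE3_L_apply] at this
  have he1T : ∀ e ∈ T 0 F, hf e e1 = 0 := by
    refine hperp e1 fun z hz => ?_
    rw [← bE3_pf]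
    exact bE3_vanish ((dvd_pow_self _ (by norm_num)).trans h1) z hz
  have he2T : ∀ e ∈ T 0 F, hf e e2 = 0 := by
    refine hperp e2 fun z hz => ?_
    rw [← bE3_pf]
    exact bE3_vanish ((dvd_pow_self _ (by norm_num)).trans h2) z hz
  -- the basis
  obtain ⟨t, htT, hspan⟩ : ∃ t : Fin 2 → E5, (∀ i, t i ∈ T 0 F) ∧
      ∀ e ∈ T 0 F, ∃ c : Fin 2 → ℂ, e = c 0 • t 0 + c 1 • t 1 := by
    let b := Module.finBasisOfFinrankEq ℂ (T 0 F) hT
    refine ⟨fun i => (b i : E5), fun i => (b i).2, fun e he => ?_⟩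
    refine ⟨fun i => b.repr ⟨e, he⟩ i, ?_⟩
    have := congrArg Subtype.val (b.sum_repr ⟨e, he⟩)
    rw [Fin.sum_univ_two] at this
    simpa using this.symm
  have hti : ∀ a b : ℂ, a • t 0 + b • t 1 = 0 → a = 0 ∧ b = 0 := by
    intro a b hab
    by_contra hne
    have hcard : Module.finrank ℂ (T 0 F) ≤ 1 := by
      by_cases ha : a = 0
      · have hb : b ≠ 0 := fun hb => hne ⟨ha, hb⟩
        have ht1 : t 1 = 0 := by
          rw [ha, zero_smul, zero_add] at hab
          exact (smul_eq_zero.1 hab).resolve_left hb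
        have hle : T 0 F ≤ Submodule.span ℂ {t 0} := by
          intro e he
          obtain ⟨c, rfl⟩ := hspan e he
          rw [ht1, smul_zero, add_zero]
          exact Submodule.smul_mem _ _ (Submodule.mem_span_singleton_self _)
        exact (Submodule.finrank_mono hle).trans ((finrank_span_le_card _).trans (by simp))
      · have ht0 : t 0 = (-(a⁻¹ * b)) • t 1 := by
          have h4 : a • t 0 = (-b) • t 1 := by
            rw [neg_smul]
            exact eq_neg_of_add_eq_zero_left hab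
          have h5 : t 0 = a⁻¹ • (a • t 0) := by rw [smul_smul, inv_mul_cancel₀ ha, one_smul]
          rw [h5, h4, smul_smul, mul_neg]
        have hle : T 0 F ≤ Submodule.span ℂ {t 1} := by
          intro e he
          obtain ⟨c, rfl⟩ := hspan e he
          rw [ht0, smul_smul, ← add_smul]
          exact Submodule.smul_mem _ _ (Submodule.mem_span_singleton_self _)
        exact (Submodule.finrank_mono hle).trans ((finrank_span_le_card _).trans (by simp))
    omega
  -- the Gram matrix
  let M : Matrix (Fin 2) (Fin 2) ℂ := fun i j => hf (t i) (t j)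
  have hM : ∀ i j, M i j = hf (t i) (t j) := fun _ _ => rfl
  -- a combination orthogonal to the t_i vanishes
  have hcomb : ∀ α : Fin 2 → ℂ, (∀ i, ∑ j, α j * M i j = 0) → α = 0 := by
    intro α hα
    have h4 : (starRingEnd ℂ) (α 0) • t 0 + (starRingEnd ℂ) (α 1) • t 1 = 0 := by
      refine hnd _ ((T 0 F).add_mem ((T 0 F).smul_mem _ (htT 0)) ((T 0 F).smul_mem _ (htT 1))) ?_
      intro e' he'
      obtain ⟨c, rfl⟩ := hspan e' he'
      have h5 := hα 0
      have h6 := hα 1
      rw [Fin.sum_univ_two] at h5 h6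
      simp only [bE3_add, bE3_smul, bE3_add_r, bE3_smul_r, Complex.conj_conj, ← hM]
      linear_combination c 0 * h5 + c 1 * h6
    obtain ⟨h5, h6⟩ := hti _ _ h4
    funext i
    fin_cases i
    · simpa using h5
    · simpa using h6
  have hdet : M.det ≠ 0 := by
    intro hd
    obtain ⟨v, hv, hv'⟩ := Matrix.exists_mulVec_eq_zero_iff.2 hd
    refine hv (hcomb v fun i => ?_)
    have := congrFun hv' i
    rw [Matrix.mulVec, dotProduct] at this
    refine Eq.trans ?_ this
    exact Finset.sum_congr rfl fun j _ => mul_comm _ _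
  have hunit : IsUnit M.det := isUnit_iff_ne_zero.2 hdet
  have hinv : M⁻¹ * M = 1 := Matrix.nonsing_inv_mul M hunit
  have hinv' : M * M⁻¹ = 1 := Matrix.mul_nonsing_inv M hunit
  have hI : ∀ i j, M⁻¹ i 0 * M 0 j + M⁻¹ i 1 * M 1 j = if i = j then 1 else 0 := by
    intro i j
    have := congrFun (congrFun hinv i) j
    rwa [Matrix.mul_apply, Fin.sum_univ_two, Matrix.one_apply] at this
  have hI' : ∀ i j, M i 0 * M⁻¹ 0 j + M i 1 * M⁻¹ 1 j = if i = j then 1 else 0 := by
    intro i j
    have := congrFun (congrFun hinv' i) j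
    rwa [Matrix.mul_apply, Fin.sum_univ_two, Matrix.one_apply] at this
  -- the A i
  let A : Fin 2 → P3 := fun i => C (M⁻¹ 0 i) * pf F (t 0) + C (M⁻¹ 1 i) * pf F (t 1)
  have hA : ∀ i, A i = C (M⁻¹ 0 i) * pf F (t 0) + C (M⁻¹ 1 i) * pf F (t 1) := fun _ => rfl
  have hpfhom : ∀ e : E5, (pf F e).IsHomogeneous 6 := by
    intro e
    rw [pf]
    refine IsHomogeneous.sum _ _ _ fun i _ => ?_
    simpa using (isHomogeneous_C (Fin 3) (sg i * (starRingEnd ℂ) (e i))).mul (h.hom i)
  have homA : ∀ i, (A i).IsHomogeneous 6 := by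
    intro i
    rw [hA]
    refine IsHomogeneous.add ?_ ?_
    · simpa using (isHomogeneous_C (Fin 3) (M⁻¹ 0 i)).mul (hpfhom (t 0))
    · simpa using (isHomogeneous_C (Fin 3) (M⁻¹ 1 i)).mul (hpfhom (t 1))
  have hAM : ∀ j, C (M 0 j) * A 0 + C (M 1 j) * A 1 = pf F (t j) := by
    intro j
    have h4 := hI 0 j
    have h5 := hI 1 j
    have e0 : (C (M⁻¹ 0 0) * C (M 0 j) + C (M⁻¹ 0 1) * C (M 1 j) : P3) =
        C (if (0 : Fin 2) = j then 1 else 0) := by
      rw [← h4, C_add, C_mul, C_mul]
    have e1 : (C (M⁻¹ 1 0) * C (M 0 j) + C (M⁻¹ 1 1) * C (M 1 j) : P3) =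
        C (if (1 : Fin 2) = j then 1 else 0) := by
      rw [← h5, C_add, C_mul, C_mul]
    have h6 : C (M 0 j) * A 0 + C (M 1 j) * A 1 =
        (C (if (0 : Fin 2) = j then 1 else 0) * pf F (t 0) +
        C (if (1 : Fin 2) = j then 1 else 0) * pf F (t 1) : P3) := by
      rw [hA, hA, ← e0, ← e1]
      ring
    rw [h6]
    fin_cases j <;> simp
  -- the rest
  let R : Fin 5 → P3 := fun k => F k - (C (t 0 k) * A 0 + C (t 1 k) * A 1)
  have hR : ∀ k, R k = F k - (C (t 0 k) * A 0 + C (t 1 k) * A 1) := fun _ => rfl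
  have hRpf : ∀ e, pf R e = pf F e - (C (hf (t 0) e) * A 0 + C (hf (t 1) e) * A 1) := fun e =>
    bE3_pf_sub F (t 0) (t 1) (A 0) (A 1) e
  have hRt : ∀ j, pf R (t j) = 0 := by
    intro j
    rw [hRpf, ← hAM j, hM, hM, sub_self]
  have hRval : ∀ z : V3, (fun k => eval z (R k)) =
      (fun k => eval z (F k)) + ((-eval z (A 0)) • t 0 + (-eval z (A 1)) • t 1) := by
    intro z
    funext k
    simp only [hR, map_sub, map_add, map_mul, eval_C, Pi.add_apply, Pi.smul_apply, smul_eq_mul]
    ring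
  have hR0 : ∀ z : V3, z 0 = 0 → (fun k => eval z (R k)) = 0 := by
    intro z hz
    refine hnd _ ?_ ?_
    · rw [hRval]
      exact (T 0 F).add_mem (hFT z hz)
        ((T 0 F).add_mem ((T 0 F).smul_mem _ (htT 0)) ((T 0 F).smul_mem _ (htT 1)))
    · intro e' he'
      obtain ⟨c, rfl⟩ := hspan e' he'
      have h4 : ∀ j, hf (t j) (fun k => eval z (R k)) = 0 := by
        intro j
        apply bE3_zero_symm
        rw [← bE3_pf, hRt, map_zero]
      rw [bE3_add, bE3_smul, bE3_smul, h4, h4, mul_zero, mul_zero, add_zero]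
  have hRdvd : ∀ k, (X 0 : P3) ∣ R k := fun k =>
    bE3_dvd fun z hz => congrFun (hR0 z hz) k
  choose R1 hR1 using hRdvd
  have hRR1 : R = fun k => X 0 * R1 k := funext hR1
  have hX : (X 0 : P3) ≠ 0 := MvPolynomial.X_ne_zero 0
  have hR1t : ∀ j, pf R1 (t j) = 0 := by
    intro j
    have h4 := hRt j
    rw [hRR1, bE3_pf_X] at h4
    exact (mul_eq_zero.1 h4).resolve_left hX
  have hR1e : ∀ e : E5, (∀ e' ∈ T 0 F, hf e' e = 0) → X 0 ^ 3 ∣ pf F e →
      ∀ z : V3, z 0 = 0 → hf (fun k => eval z (R1 k)) e = 0 := by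
    intro e he hd z hz
    have h4 := hRpf e
    rw [he _ (htT 0), he _ (htT 1), C_0, zero_mul, zero_mul, add_zero, sub_zero, hRR1,
      bE3_pf_X] at h4
    obtain ⟨q, hq⟩ := hd
    rw [hq] at h4
    have h5 : pf R1 e = X 0 ^ 2 * q := by
      apply mul_left_cancel₀ hX
      rw [h4]
      ring
    rw [← bE3_pf, h5, map_mul, map_pow, eval_X, hz]
    ring
  -- independence of t0, t1, e1, e2
  have hli : LinearIndependent ℂ ![t 0, t 1, e1, e2] := by
    rw [Fintype.linearIndependent_iff]
    intro g hg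
    have h4 : g 0 • t 0 + g 1 • t 1 + g 2 • e1 + g 3 • e2 = 0 := by
      rw [Fin.sum_univ_four] at hg
      simpa using hg
    have h5 : g 0 • t 0 + g 1 • t 1 = 0 := by
      refine hnd _ ((T 0 F).add_mem ((T 0 F).smul_mem _ (htT 0)) ((T 0 F).smul_mem _ (htT 1))) ?_
      intro e' he'
      have h6 : g 0 • t 0 + g 1 • t 1 = (-g 2) • e1 + (-g 3) • e2 := by
        rw [neg_smul, neg_smul, ← sub_eq_zero]
        rw [← h4]
        abel
      rw [h6, bE3_add_r, bE3_smul_r, bE3_smul_r, he1T e' he', he2T e' he', mul_zero, mul_zero,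
        add_zero]
    obtain ⟨h6, h7⟩ := hti _ _ h5
    have h8 := (Fintype.linearIndependent_iff.1 hi) ![g 2, g 3] (by
      rw [h6, h7] at h4
      rw [Fin.sum_univ_two]
      simpa using h4)
    intro i
    fin_cases i
    · exact h6
    · exact h7
    · simpa using h8 0
    · simpa using h8 1
  have hR1e3 : ∀ z : V3, z 0 = 0 → ∃ c : ℂ, (fun k => eval z (R1 k)) = c • e3 := by
    intro z hz
    refine bE3_ker hli h3 (bE3_zero_symm (h3T _ (htT 0)))
      (bE3_zero_symm (h3T _ (htT 1))) (bE3_zero_symm h31) (bE3_zero_symm h32) _ ?_ ?_ ?_ ?_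
    · rw [← bE3_pf, hR1t, map_zero]
    · rw [← bE3_pf, hR1t, map_zero]
    · exact hR1e e1 he1T h1 z hz
    · exact hR1e e2 he2T h2 z hz
  have hR1null : ∀ z w : V3, z 0 = 0 → w 0 = 0 →
      hf (fun k => eval z (R1 k)) (fun k => eval w (R1 k)) = 0 := by
    intro z w hz hw
    obtain ⟨c, hc⟩ := hR1e3 z hz
    obtain ⟨d, hd⟩ := hR1e3 w hw
    rw [hc, hd, bE3_smul, bE3_smul_r, hnull, mul_zero, mul_zero]
  -- the decomposition
  have hF : ∀ z : V3, (fun k => eval z (F k)) =
      (eval z (A 0) • t 0 + eval z (A 1) • t 1) + z 0 • (fun k => eval z (R1 k)) := by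
    intro z
    funext k
    have h4 := congrArg (eval z) (hR1 k)
    rw [hR, map_sub, map_add, map_mul, map_mul, map_mul, eval_C, eval_C, eval_X] at h4
    simp only [Pi.add_apply, Pi.smul_apply, smul_eq_mul]
    linear_combination h4
  have hdec : ∀ z w : V3, hf (fun k => eval z (F k)) (fun k => eval w (F k)) =
      (∑ i, ∑ j, M i j * eval z (A i) * (starRingEnd ℂ) (eval w (A j))) +
      z 0 * (starRingEnd ℂ) (w 0) * hf (fun k => eval z (R1 k)) (fun k => eval w (R1 k)) := by
    intro z w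
    have h4 : ∀ j, hf (fun k => eval z (R1 k)) (t j) = 0 := by
      intro j
      rw [← bE3_pf, hR1t, map_zero]
    have h5 : ∀ j, hf (t j) (fun k => eval w (R1 k)) = 0 := by
      intro j
      apply bE3_zero_symm
      rw [← bE3_pf, hR1t, map_zero]
    rw [hF z, hF w]
    simp only [bE3_add, bE3_smul, bE3_add_r, bE3_smul_r, h4, h5, ← hM, Fin.sum_univ_two]
    ring
  -- the data for tu_false
  let At : Fin 2 → P3 := fun i => C (M i 0) * tl ε (A 0) + C (M i 1) * tl ε (A 1)
  let Φ : P3 := C (ε : ℂ) * ∑ k : Fin 5, C (sg k) *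
    (aeval ![(X 0 : P3), 1, X 2] (R1 k) *
      aeval ![(X 1 : P3), -(X 2 + X 0 * X 1), 1] (tl ε (R1 k)))
  have hΦ : ∀ t u x : ℂ, eval ![t, u, x] Φ = ε * hf (fun k => eval ![t, 1, x] (R1 k))
      (fun k => eval ![(ε : ℂ) * (starRingEnd ℂ) u, (starRingEnd ℂ) (-(x + t * u)), -((ε : ℂ) * (starRingEnd ℂ) 1)] (R1 k)) := by
    intro t u x
    rw [bE3_hf]
    simp only [Φ, map_mul, eval_C, map_sum]
    congr 1
    refine Finset.sum_congr rfl fun k _ => ?_
    congr 1
    have g1 : (fun i => eval ![t, u, x] (![(X 0 : P3), 1, X 2] i)) = ![t, 1, x] := by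
      funext i
      fin_cases i <;> simp
    have g2 : (fun i => eval ![t, u, x] (![(X 1 : P3), -(X 2 + X 0 * X 1), 1] i)) =
        ![u, -(x + t * u), 1] := by
      funext i
      fin_cases i <;> simp
    rw [bE3_eval_aeval, bE3_eval_aeval, g1, g2, bE3_eval]
    simp
  have hAt : ∀ (i : Fin 2) (w : V3), eval w (At i) = ∑ j, M i j *
      (starRingEnd ℂ) (eval ![(ε : ℂ) * (starRingEnd ℂ) (w 0), (starRingEnd ℂ) (w 1), -((ε : ℂ) * (starRingEnd ℂ) (w 2))] (A j)) := by
    intro i w
    simp only [At, map_add, map_mul, eval_C, bE3_eval, Fin.sum_univ_two]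
  refine tu_false A At Φ ?_ ?_ ?_ ?_
  · intro t u x
    have hq : qd ε ![t, 1, x]
        ![(ε : ℂ) * (starRingEnd ℂ) u, (starRingEnd ℂ) (-(x + t * u)), -((ε : ℂ) * (starRingEnd ℂ) 1)] = 0 := by
      simp only [qd, Matrix.cons_val_zero, Matrix.cons_val_one, Matrix.cons_val, map_mul, map_neg,
        hcε, Complex.conj_conj, map_one]
      linear_combination (t * u + x) * hε2
    have h4 := h.herm _ _ hq
    rw [hdec] at h4
    rw [hΦ, Fin.sum_univ_two, hAt, hAt]
    simp only [Matrix.cons_val_zero, Matrix.cons_val_one, Matrix.cons_val,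
      Fin.sum_univ_two, map_mul, Complex.conj_conj, hcε] at h4 ⊢
    linear_combination h4
  · intro x
    rw [hΦ, hR1null _ _ (by simp) (by simp), mul_zero]
  · intro α hα
    -- the combination vanishes on the line
    have h4 : ∀ z : V3, z 0 = 0 → α 0 * eval z (A 0) + α 1 * eval z (A 1) = 0 := by
      intro z hz
      have h5 : eval z (C (α 0) * A 0 + C (α 1) * A 1) = 0 := by
        refine bE3_line 1 (by decide) (fun z hz h1 => ?_) z hz
        have hz' : z = fun i => z 1 * (![0, 1, z 2 / z 1] : V3) i := by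
          funext i
          fin_cases i
          · simpa using hz
          · simp
          · simp [mul_div_cancel₀ _ h1]
        have h6 := hα (z 2 / z 1)
        rw [Fin.sum_univ_two] at h6
        rw [hz', map_add, map_mul, map_mul, eval_C, eval_C, bE3_scale (homA 0),
          bE3_scale (homA 1)]
        linear_combination (z 1) ^ 6 * h6
      simpa using h5
    have h6 : (fun j => ∑ i, M⁻¹ j i * α i) = (0 : Fin 2 → ℂ) := by
      apply hcomb
      intro i
      have h7 : hf (t i) ((starRingEnd ℂ) (∑ k, M⁻¹ 0 k * α k) • t 0 +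
          (starRingEnd ℂ) (∑ k, M⁻¹ 1 k * α k) • t 1) = 0 := by
        refine hperp _ (fun z hz => ?_) _ (htT i)
        rw [bE3_add_r, bE3_smul_r, bE3_smul_r, Complex.conj_conj, Complex.conj_conj,
          ← bE3_pf, ← bE3_pf]
        have h8 := h4 z hz
        simp only [hA, map_add, map_mul, eval_C] at h8
        rw [Fin.sum_univ_two, Fin.sum_univ_two]
        linear_combination h8
      rw [bE3_add_r, bE3_smul_r, bE3_smul_r, Complex.conj_conj, Complex.conj_conj,
        ← hM, ← hM] at h7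
      rw [Fin.sum_univ_two]
      exact h7
    have h7 : ∀ j, ∑ i, M⁻¹ j i * α i = 0 := fun j => congrFun h6 j
    funext i
    have h8 := h7 0
    have h9 := h7 1
    rw [Fin.sum_univ_two] at h8 h9
    have h10 := hI' i 0
    have h11 := hI' i 1
    have h12 : (if i = 0 then (1 : ℂ) else 0) * α 0 + (if i = 1 then (1 : ℂ) else 0) * α 1 = 0 := by
      rw [← h10, ← h11]
      linear_combination M i 0 * h8 + M i 1 * h9
    fin_cases i
    · simpa using h12
    · simpa using h12
  · by_contra hne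
    push Not at hne
    -- the A j vanish on the line
    have h4 : ∀ (x : ℂ) (j : Fin 2), eval ![0, x, -(ε : ℂ)] (A j) = 0 := by
      intro x j
      have h5 : (fun j => (starRingEnd ℂ) (eval ![0, x, -(ε : ℂ)] (A j))) = (0 : Fin 2 → ℂ) := by
        apply hcomb
        intro i
        have h6 := hne i (-(starRingEnd ℂ) x)
        rw [hAt] at h6
        simp only [Matrix.cons_val_zero, Matrix.cons_val_one, Matrix.cons_val, map_zero, mul_zero,
          neg_neg, Complex.conj_conj, map_one, mul_one] at h6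
        refine Eq.trans ?_ h6
        exact Finset.sum_congr rfl fun j _ => mul_comm _ _
      have := congrFun h5 j
      simpa using this
    have h5 : ∀ (j : Fin 2) (z : V3), z 0 = 0 → eval z (A j) = 0 := by
      intro j z hz
      refine bE3_line 2 (by decide) (fun z hz h2 => ?_) z hz
      have hz' : z = fun i => (-(ε : ℂ) * z 2) * (![0, -(ε : ℂ) * (z 1 / z 2), -(ε : ℂ)] : V3) i := by
        funext i
        fin_cases i
        · simpa using hz
        · show z 1 = (-(ε : ℂ) * z 2) * (-(ε : ℂ) * (z 1 / z 2))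
          field_simp
          linear_combination -z 1 * hε2
        · show z 2 = (-(ε : ℂ) * z 2) * (-(ε : ℂ))
          linear_combination -z 2 * hε2
      rw [hz', bE3_scale (homA j), h4, mul_zero]
    have h6 : T 0 F = ⊥ := by
      rw [T, Submodule.span_eq_bot]
      rintro _ ⟨z, hz, rfl⟩
      rw [hF z, h5 0 z hz, h5 1 z hz, hz]
      simp
    rw [h6, finrank_bot] at hT
    exact absurd hT (by norm_num)

end Pool.Agent.Lib_helper86.D24

end

section

namespace Pool.Agent.Lib_helper86.D24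

open MvPolynomial Matrix


theorem bTP_conj {N : ℕ} (u v : Fin (N + 1) → ℂ) : (starRingEnd ℂ) (hf u v) = hf v u := by
  simp only [hf, map_sub, map_sum, map_mul, Complex.conj_conj]
  congr 1
  · exact Finset.sum_congr rfl fun i _ => by ring
  · ring

theorem bTP_hom {P : P3} {n : ℕ} (h : P.IsHomogeneous n) (c : ℂ) (z : V3) :
    eval (c • z) P = c ^ n * eval z P := by
  rw [eval_eq', eval_eq', Finset.mul_sum]
  refine Finset.sum_congr rfl fun d hd => ?_
  have h1 := h.degree_eq_sum_deg_support hd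
  have h2 : n = ∑ i, d i := by
    rw [h1]
    exact Finset.sum_subset (Finset.subset_univ _) fun x _ hx => Finsupp.notMem_support_iff.1 hx
  simp only [Pi.smul_apply, smul_eq_mul, mul_pow]
  rw [Finset.prod_mul_distrib, Finset.prod_pow_eq_pow_sum, ← h2]
  ring

theorem bTP_r0 (P : P3) (x : ℂ) : (r0 P).eval x = eval ![0, 1, x] P := by
  have : (Polynomial.evalRingHom x).comp (r0 : P3 →ₐ[ℂ] Polynomial ℂ).toRingHom =
      (eval ![0, 1, x] : P3 →+* ℂ) := by
    apply MvPolynomial.ringHom_ext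
    · intro c
      simp [r0]
    · intro i
      fin_cases i <;> simp [r0]
  exact RingHom.congr_fun this P

theorem bTP_circle : Set.Infinite {x : ℂ | x * (starRingEnd ℂ) x = 1} := by
  have hne : ∀ n : ℕ, (1 : ℂ) - n * Complex.I ≠ 0 := by
    intro n h
    have := congrArg Complex.re h
    simp at this
  have hne' : ∀ n : ℕ, (1 : ℂ) + n * Complex.I ≠ 0 := by
    intro n h
    have := congrArg Complex.re h
    simp at this
  refine Set.infinite_of_injective_forall_mem
    (f := fun n : ℕ => (1 + n * Complex.I) / (1 - n * Complex.I)) ?_ ?_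
  · intro n m hnm
    have h1 := hne n
    have h2 := hne m
    simp only at hnm
    rw [div_eq_div_iff h1 h2] at hnm
    have h3 := congrArg Complex.im hnm
    simp at h3
    have h4 : (n : ℝ) = m := by linarith
    exact_mod_cast h4
  · intro n
    have h1 := hne n
    have h2 := hne' n
    simp only [Set.mem_ofPred_eq, map_div₀, map_add, map_sub, map_one, map_mul, Complex.conj_I,
      Complex.conj_natCast]
    have h3 : (1 : ℂ) - n * -Complex.I = 1 + n * Complex.I := by ring
    have h4 : (1 : ℂ) + n * -Complex.I = 1 - n * Complex.I := by ring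
    rw [h3, h4]
    field_simp

/-- if all restrictions vanish then `F` vanishes on the line -/
theorem bTP_zero {P : P3} (hP : P.IsHomogeneous 6) (h0 : r0 P = 0) (z : V3) (hz : z 0 = 0) :
    eval z P = 0 := by
  set p : Polynomial ℂ := (MvPolynomial.aeval ![0, Polynomial.X, Polynomial.C (z 2)] : P3 →ₐ[ℂ]
    Polynomial ℂ) P with hp
  have h2 : ∀ y : ℂ, p.eval y = eval ![0, y, z 2] P := by
    intro y
    have : (Polynomial.evalRingHom y).comp (MvPolynomial.aeval
        ![0, Polynomial.X, Polynomial.C (z 2)] : P3 →ₐ[ℂ] Polynomial ℂ).toRingHom =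
        (eval ![0, y, z 2] : P3 →+* ℂ) := by
      apply MvPolynomial.ringHom_ext
      · intro c
        simp
      · intro i
        fin_cases i <;> simp
    exact RingHom.congr_fun this P
  have h3 : ∀ y : ℂ, y ≠ 0 → p.eval y = 0 := by
    intro y hy
    have h4 : (![0, y, z 2] : V3) = y • ![0, 1, z 2 / y] := by
      ext j
      fin_cases j
      · simp
      · simp
      · simp; field_simp
    rw [h2, h4, bTP_hom hP, ← bTP_r0, h0, Polynomial.eval_zero, mul_zero]
  have h5 : p = 0 := by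
    apply Polynomial.eq_zero_of_infinite_isRoot
    refine Set.Infinite.mono (s := {y : ℂ | y ≠ 0}) (fun y hy => h3 y hy) ?_
    exact (Set.finite_singleton (0 : ℂ)).infinite_compl
  have h6 : (![0, z 1, z 2] : V3) = z := by
    ext j
    fin_cases j <;> simp [hz]
  have := h2 (z 1)
  rw [h5, Polynomial.eval_zero, h6] at this
  exact this.symm

/-- TP (uses G2) -/
theorem T_pos {F : Fin 5 → P3} (h : Spec (qd 1) 0 F) (hT : Module.finrank ℂ (T 0 F) = 2)
    (hnd : ∀ e ∈ T 0 F, (∀ e' ∈ T 0 F, hf e' e = 0) → e = 0) (y : E5)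
    (hy : ∀ e ∈ T 0 F, hf e y = 0) : 0 ≤ (hf y y).re := by
  have hne : ∃ i, r0 (F i) ≠ 0 := by
    by_contra! h0
    have h1 : T 0 F ≤ ⊥ := by
      refine Submodule.span_le.2 ?_
      rintro _ ⟨z, hz, rfl⟩
      rw [SetLike.mem_coe, Submodule.mem_bot]
      funext i
      exact bTP_zero (h.hom i) (h0 i) z hz
    rw [le_bot_iff] at h1
    rw [h1, finrank_bot] at hT
    omega
  obtain ⟨i, hi⟩ := hne
  obtain ⟨x, hx, hxi⟩ : ∃ x : ℂ, x * (starRingEnd ℂ) x = 1 ∧ (r0 (F i)).eval x ≠ 0 := by
    by_contra! hcon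
    exact hi (Polynomial.eq_zero_of_infinite_isRoot _ (bTP_circle.mono fun x hx => hcon x hx))
  set e : E5 := fun i => eval ![0, 1, x] (F i) with he
  have heT : e ∈ T 0 F := Submodule.subset_span ⟨![0, 1, x], by simp, rfl⟩
  have hee : hf e e = 0 := by
    apply h.herm
    simp [qd, hx]
  have he0 : e ≠ 0 := by
    intro h1
    apply hxi
    rw [bTP_r0]
    exact congrFun h1 i
  have hye : hf y e = 0 := by rw [← bTP_conj, hy e heT, map_zero]
  exact (null_perp e y hee he0 hye).1

end Pool.Agent.Lib_helper86.D24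

end

section

namespace Pool.Agent.Lib_helper86.D24

open MvPolynomial Matrix


theorem bF5_add_left (u u' v : E5) : hf (u + u') v = hf u v + hf u' v := by
  simp only [hf, Pi.add_apply, add_mul, Finset.sum_add_distrib]
  ring

theorem bF5_smul_left (a : ℂ) (u v : E5) : hf (a • u) v = a * hf u v := by
  simp only [hf, Pi.smul_apply, smul_eq_mul, mul_sub, Finset.mul_sum, mul_assoc]

theorem bF5_add_right (u v v' : E5) : hf u (v + v') = hf u v + hf u v' := by
  simp only [hf, Pi.add_apply, map_add, mul_add, Finset.sum_add_distrib]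
  ring

theorem bF5_smul_right (a : ℂ) (u v : E5) : hf u (a • v) = (starRingEnd ℂ) a * hf u v := by
  simp only [hf, Pi.smul_apply, smul_eq_mul, map_mul, mul_sub, Finset.mul_sum]
  congr 1
  · exact Finset.sum_congr rfl fun i _ => by ring
  · ring

theorem bF5_symm (u v : E5) : hf u v = (starRingEnd ℂ) (hf v u) := by
  simp only [hf, map_sub, map_sum, map_mul, Complex.conj_conj]
  congr 1
  · exact Finset.sum_congr rfl fun i _ => by ring
  · ring

theorem bF5_zero_left (v : E5) : hf (0 : E5) v = 0 := by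
  simp [hf]

theorem bF5_sg (u v : E5) : hf u v = ∑ i, sg i * (u i * (starRingEnd ℂ) (v i)) := by
  rw [Fin.sum_univ_succ]
  simp only [hf, sg, if_true, Fin.succ_ne_zero, if_false, one_mul]
  ring

theorem bF5_conj_sg (i : Fin 5) : (starRingEnd ℂ) (sg i) = sg i := by
  unfold sg
  split_ifs <;> simp

theorem bF5_sg_sq (i : Fin 5) : sg i * sg i = 1 := by
  unfold sg
  split_ifs <;> simp

theorem bF5_nondeg (e : E5) (h : ∀ u : E5, hf u e = 0) : e = 0 := by
  funext i
  have h1 := h (Pi.single i (1 : ℂ))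
  rw [bF5_sg, Finset.sum_eq_single i] at h1
  · rw [Pi.single_eq_same, one_mul] at h1
    have h2 : sg i * (sg i * (starRingEnd ℂ) (e i)) = 0 := by rw [h1, mul_zero]
    rw [← mul_assoc, bF5_sg_sq, one_mul] at h2
    simpa using h2
  · intro j _ hj
    rw [Pi.single_eq_of_ne hj]
    ring
  · intro hi
    exact absurd (Finset.mem_univ i) hi

/-- FR1 -/
theorem frame_e3 (T : Submodule ℂ E5) (hT : Module.finrank ℂ T = 2) (e1 e2 : E5) :
    ∃ e3 : E5, e3 ≠ 0 ∧ (∀ e ∈ T, hf e e3 = 0) ∧ hf e1 e3 = 0 ∧ hf e2 e3 = 0 := by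
  classical
  set S : Submodule ℂ E5 := T ⊔ Submodule.span ℂ {e1, e2} with hS
  have hlt : S < ⊤ := by
    rw [lt_top_iff_ne_top]
    intro htop
    have h1 : Module.finrank ℂ S ≤ Module.finrank ℂ T +
        Module.finrank ℂ (Submodule.span ℂ ({e1, e2} : Set E5)) :=
      Submodule.finrank_add_le_finrank_add_finrank _ _
    have h2 : Module.finrank ℂ (Submodule.span ℂ ({e1, e2} : Set E5)) ≤ 2 := by
      have h3 : ((({e1, e2} : Finset E5) : Set E5)) = {e1, e2} := by simp
      rw [← h3]
      exact (finrank_span_finset_le_card ({e1, e2} : Finset E5)).trans Finset.card_le_two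
    have h4 : Module.finrank ℂ S = 5 := by
      rw [htop, finrank_top, Module.finrank_fin_fun]
    rw [h4, hT] at h1
    omega
  obtain ⟨f, hf0, hfS⟩ := Submodule.exists_le_ker_of_lt_top S hlt
  have hrep : ∀ u : E5, f u = ∑ i, u i * f (Pi.single i 1) := by
    intro u
    conv_lhs => rw [pi_eq_sum_univ' u]
    rw [map_sum]
    refine Finset.sum_congr rfl fun i _ => ?_
    rw [map_smul, smul_eq_mul]
  set e3 : E5 := fun i => (starRingEnd ℂ) (sg i * f (Pi.single i 1)) with he3
  have hval : ∀ u : E5, hf u e3 = f u := by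
    intro u
    rw [bF5_sg, hrep]
    refine Finset.sum_congr rfl fun i _ => ?_
    rw [he3, Complex.conj_conj, show sg i * (u i * (sg i * f (Pi.single i 1))) =
      (sg i * sg i) * (u i * f (Pi.single i 1)) by ring, bF5_sg_sq, one_mul]
  have hker : ∀ u ∈ S, hf u e3 = 0 := fun u hu => by
    rw [hval]
    exact LinearMap.mem_ker.1 (hfS hu)
  refine ⟨e3, ?_, ?_, ?_, ?_⟩
  · intro h0
    apply hf0
    ext i
    have h1 := congrFun h0 i
    rw [he3, Pi.zero_apply, map_eq_zero] at h1
    have h2 : sg i * (sg i * f (Pi.single i 1)) = 0 := by rw [h1, mul_zero]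
    rw [← mul_assoc, bF5_sg_sq, one_mul] at h2
    simpa using h2
  · intro e he
    exact hker e (Submodule.mem_sup_left he)
  · exact hker e1 (Submodule.mem_sup_right (Submodule.subset_span (by simp)))
  · exact hker e2 (Submodule.mem_sup_right (Submodule.subset_span (by simp)))

theorem bF5_gram (t : Fin 2 → E5) (ht : ∀ a : Fin 2 → ℂ, ∑ i, a i • t i = 0 → a = 0)
    (h : ∀ a : Fin 2 → ℂ, (∀ i, hf (t i) (∑ j, a j • t j) = 0) → ∑ j, a j • t j = 0) :
    (Matrix.of fun i j => hf (t i) (t j)).det ≠ 0 := by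
  intro hdet
  obtain ⟨v, hv0, hv⟩ := Matrix.exists_mulVec_eq_zero_iff.2 hdet
  have h1 : (fun j => (starRingEnd ℂ) (v j)) = 0 := by
    apply ht
    apply h
    intro i
    rw [Fin.sum_univ_two, bF5_add_right, bF5_smul_right, bF5_smul_right, Complex.conj_conj,
      Complex.conj_conj]
    have h2 := congrFun hv i
    simp only [Matrix.mulVec, dotProduct, Fin.sum_univ_two, Matrix.of_apply, Pi.zero_apply] at h2
    rw [← h2]
    ring
  apply hv0
  funext j
  have h3 := congrFun h1 j
  simpa using h3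

/-- FR2 -/
theorem frame_basis (T : Submodule ℂ E5) (hT : Module.finrank ℂ T = 2)
    (hnd : ∀ e ∈ T, (∀ e' ∈ T, hf e' e = 0) → e = 0) (e1 e2 : E5)
    (hi : LinearIndependent ℂ ![e1, e2]) (h1 : ∀ e ∈ T, hf e e1 = 0) (h2 : ∀ e ∈ T, hf e e2 = 0)
    (e3 : E5) (h3T : ∀ e ∈ T, hf e e3 = 0) (h31 : hf e1 e3 = 0) (h32 : hf e2 e3 = 0)
    (h33 : hf e3 e3 ≠ 0) : ∃ t : Fin 2 → E5, (∀ i, t i ∈ T) ∧
      (Matrix.of fun i j => hf (t i) (t j)).det ≠ 0 ∧
      (Matrix.of fun i j => hf (![e1, e2] i) (![e1, e2] j)).det ≠ 0 ∧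
      LinearIndependent ℂ ![t 0, t 1, e3, e1, e2] := by
  classical
  let b := Module.finBasisOfFinrankEq ℂ T hT
  set t : Fin 2 → E5 := fun i => (b i : E5) with ht
  have htT : ∀ i, t i ∈ T := fun i => (b i).2
  have hspan : ∀ e ∈ T, ∃ a : Fin 2 → ℂ, e = ∑ i, a i • t i := by
    intro e he
    refine ⟨fun i => b.repr ⟨e, he⟩ i, ?_⟩
    have h4 : ((∑ i, b.repr ⟨e, he⟩ i • b i : T) : E5) = e := by rw [b.sum_repr]
    conv_lhs => rw [← h4]
    rw [Submodule.coe_sum]
    rfl
  have htind : ∀ a : Fin 2 → ℂ, ∑ i, a i • t i = 0 → a = 0 := by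
    intro a ha
    have h4 : ∑ i, a i • b i = 0 := by
      apply Subtype.ext
      simpa [ht] using ha
    have h5 := Fintype.linearIndependent_iff.1 b.linearIndependent a h4
    funext i
    exact h5 i
  have hsum : ∀ a : Fin 2 → ℂ, ∑ i, a i • t i ∈ T := fun a =>
    T.sum_mem fun i _ => T.smul_mem _ (htT i)
  -- the form on `T`
  have hG : (Matrix.of fun i j => hf (t i) (t j)).det ≠ 0 := by
    apply bF5_gram t htind
    intro a ha
    apply hnd _ (hsum a)
    intro e' he'
    obtain ⟨c, rfl⟩ := hspan e' he'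
    rw [Fin.sum_univ_two (f := fun i => c i • t i), bF5_add_left, bF5_smul_left, bF5_smul_left,
      ha 0, ha 1]
    ring
  -- orthogonality on the other side
  have h1' : ∀ e ∈ T, hf e1 e = 0 := fun e he => by rw [bF5_symm, h1 e he, map_zero]
  have h2' : ∀ e ∈ T, hf e2 e = 0 := fun e he => by rw [bF5_symm, h2 e he, map_zero]
  have h3' : ∀ e ∈ T, hf e3 e = 0 := fun e he => by rw [bF5_symm, h3T e he, map_zero]
  have h13 : hf e3 e1 = 0 := by rw [bF5_symm, h31, map_zero]
  have h23 : hf e3 e2 = 0 := by rw [bF5_symm, h32, map_zero]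
  have h12ind : ∀ a : Fin 2 → ℂ, ∑ i, a i • (![e1, e2] i) = 0 → a = 0 := by
    intro a ha
    funext i
    exact Fintype.linearIndependent_iff.1 hi a ha i
  -- independence of the five vectors
  have hind : LinearIndependent ℂ ![t 0, t 1, e3, e1, e2] := by
    rw [Fintype.linearIndependent_iff]
    intro g hg
    have hg' : g 0 • t 0 + g 1 • t 1 + g 2 • e3 + g 3 • e1 + g 4 • e2 = 0 := by
      rw [← hg, Fin.sum_univ_five]
      rfl
    have hpair : ∀ v : E5, g 0 * hf (t 0) v + g 1 * hf (t 1) v + g 2 * hf e3 v + g 3 * hf e1 v +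
        g 4 * hf e2 v = 0 := by
      intro v
      rw [← bF5_smul_left, ← bF5_smul_left, ← bF5_smul_left, ← bF5_smul_left, ← bF5_smul_left,
        ← bF5_add_left, ← bF5_add_left, ← bF5_add_left, ← bF5_add_left, hg', bF5_zero_left]
    have hg2 : g 2 = 0 := by
      have h4 := hpair e3
      rw [h3T _ (htT 0), h3T _ (htT 1), h31, h32] at h4
      have h5 : g 2 * hf e3 e3 = 0 := by linear_combination h4
      exact (mul_eq_zero.1 h5).resolve_right h33
    have hgt : (fun i : Fin 2 => if i = 0 then g 0 else g 1) = 0 := by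
      by_contra hne
      apply hG
      rw [← Matrix.exists_vecMul_eq_zero_iff]
      refine ⟨_, hne, ?_⟩
      funext j
      have h4 := hpair (t j)
      rw [h3' _ (htT j), h1' _ (htT j), h2' _ (htT j)] at h4
      simp only [Matrix.vecMul, dotProduct, Fin.sum_univ_two, Matrix.of_apply, Pi.zero_apply,
        if_true, one_ne_zero, if_false]
      linear_combination h4
    have hg0 : g 0 = 0 := by
      have := congrFun hgt 0
      simpa using this
    have hg1 : g 1 = 0 := by
      have := congrFun hgt 1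
      simpa using this
    have hg34 : (fun i : Fin 2 => if i = 0 then g 3 else g 4) = 0 := by
      apply h12ind
      rw [Fin.sum_univ_two]
      simp only [if_true, one_ne_zero, if_false, Matrix.cons_val_zero, Matrix.cons_val_one]
      rw [hg0, hg1, hg2] at hg'
      simpa using hg'
    have hg3 : g 3 = 0 := by
      have := congrFun hg34 0
      simpa using this
    have hg4 : g 4 = 0 := by
      have := congrFun hg34 1
      simpa using this
    intro i
    fin_cases i
    · exact hg0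
    · exact hg1
    · exact hg2
    · exact hg3
    · exact hg4
  refine ⟨t, htT, hG, ?_, hind⟩
  have htop := hind.span_eq_top_of_card_eq_finrank (by simp)
  apply bF5_gram _ h12ind
  intro a ha
  apply bF5_nondeg
  intro u
  have hu : u ∈ Submodule.span ℂ (Set.range ![t 0, t 1, e3, e1, e2]) := by
    rw [htop]
    exact Submodule.mem_top
  have ha' : ∀ v : E5, hf v e1 = 0 → hf v e2 = 0 → hf v (∑ j, a j • ![e1, e2] j) = 0 := by
    intro v hv1 hv2
    rw [Fin.sum_univ_two, bF5_add_right, bF5_smul_right, bF5_smul_right]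
    simp only [Matrix.cons_val_zero, Matrix.cons_val_one]
    rw [hv1, hv2]
    ring
  refine Submodule.span_induction ?_ ?_ ?_ ?_ hu
  · rintro _ ⟨i, rfl⟩
    fin_cases i
    · exact ha' _ (h1 _ (htT 0)) (h2 _ (htT 0))
    · exact ha' _ (h1 _ (htT 1)) (h2 _ (htT 1))
    · exact ha' _ h13 h23
    · exact ha 0
    · exact ha 1
  · exact bF5_zero_left _
  · intro x y _ _ hx hy
    rw [bF5_add_left, hx, hy, add_zero]
  · intro c x _ hx
    rw [bF5_smul_left, hx, mul_zero]

end Pool.Agent.Lib_helper86.D24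

end

section

namespace Pool.Agent.Lib_helper86.D24

open MvPolynomial Matrix


private theorem bNN_hf (u v : E5) : hf u v = ∑ i : Fin 5, sg (N := 4) i * (u i * (starRingEnd ℂ) (v i)) := by
  rw [hf, Fin.sum_univ_succ (n := 4)]
  have h1 : ∀ i : Fin 4, sg (N := 4) i.succ = 1 := fun i => by simp [sg, Fin.succ_ne_zero]
  have h0 : sg (N := 4) 0 = -1 := by simp [sg]
  simp only [h1, h0, one_mul]
  ring

private theorem bNN_symm (u v : E5) : (starRingEnd ℂ) (hf u v) = hf v u := by
  unfold hf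
  simp only [map_sub, map_sum, map_mul, Complex.conj_conj]
  congr 1
  · exact Finset.sum_congr rfl fun i _ => mul_comm _ _
  · exact mul_comm _ _

private theorem bNN_sum_left {ι : Type*} (s : Finset ι) (a : ι → ℂ) (x : ι → E5) (v : E5) :
    hf (∑ k ∈ s, a k • x k) v = ∑ k ∈ s, a k * hf (x k) v := by
  simp only [bNN_hf, Finset.sum_apply, Pi.smul_apply, smul_eq_mul, Finset.mul_sum, Finset.sum_mul]
  rw [Finset.sum_comm]
  exact Finset.sum_congr rfl fun k _ => Finset.sum_congr rfl fun i _ => by ring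

private theorem bNN_sum_right {ι : Type*} (s : Finset ι) (a : ι → ℂ) (x : ι → E5) (v : E5) :
    hf v (∑ k ∈ s, a k • x k) = ∑ k ∈ s, (starRingEnd ℂ) (a k) * hf v (x k) := by
  rw [← bNN_symm, bNN_sum_left, map_sum]
  exact Finset.sum_congr rfl fun k _ => by rw [map_mul, bNN_symm]

private theorem bNN_pf (F : Fin 5 → P3) (e : E5) (z : V3) :
    eval z (pf F e) = hf (fun i => eval z (F i)) e := by
  rw [bNN_hf, pf, map_sum]
  refine Finset.sum_congr rfl fun i _ => ?_
  rw [map_mul, eval_C]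
  ring

private theorem bNN_X0 (P : P3) (h : ∀ z : V3, z 0 = 0 → eval z P = 0) : X 0 ∣ P := by
  have h1 : ∀ Q : P3, X 0 ∣ Q - aeval ![(0 : P3), X 1, X 2] Q := by
    intro Q
    induction Q using MvPolynomial.induction_on with
    | C a => simp
    | add p q hp hq =>
      rw [map_add, add_sub_add_comm]
      exact dvd_add hp hq
    | mul_X p n hp =>
      rw [map_mul, aeval_X]
      fin_cases n
      · simp
      · have : p * X 1 - (aeval ![(0 : P3), X 1, X 2]) p * X 1 =
            (p - (aeval ![(0 : P3), X 1, X 2]) p) * X 1 := by ring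
        change X 0 ∣ p * X 1 - (aeval ![(0 : P3), X 1, X 2]) p * X 1
        rw [this]
        exact Dvd.dvd.mul_right hp (X 1)
      · have : p * X 2 - (aeval ![(0 : P3), X 1, X 2]) p * X 2 =
            (p - (aeval ![(0 : P3), X 1, X 2]) p) * X 2 := by ring
        change X 0 ∣ p * X 2 - (aeval ![(0 : P3), X 1, X 2]) p * X 2
        rw [this]
        exact Dvd.dvd.mul_right hp (X 2)
  have h2 : aeval ![(0 : P3), X 1, X 2] P = 0 := by
    apply MvPolynomial.funext
    intro z
    have h3 : eval z (aeval ![(0 : P3), X 1, X 2] P) = eval ![0, z 1, z 2] P := by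
      have : (eval z).comp (aeval ![(0 : P3), X 1, X 2] : P3 →ₐ[ℂ] P3).toRingHom =
          eval ![0, z 1, z 2] := by
        apply MvPolynomial.ringHom_ext
        · intro r; simp
        · intro i; fin_cases i <;> simp
      exact congrArg (fun g : P3 →+* ℂ => g P) this
    rw [h3, h _ rfl, map_zero]
  have := h1 P
  rwa [h2, sub_zero] at this

private theorem bNN_hom {b : P3} {k d : ℕ} (h : (X 0 ^ k * b).IsHomogeneous (k + d)) :
    b.IsHomogeneous d := by
  intro m hm
  have h1 : coeff (Finsupp.single 0 k + m) (X 0 ^ k * b) ≠ 0 := by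
    rw [X_pow_eq_monomial, coeff_monomial_mul]
    simpa using hm
  have h2 := h h1
  rw [map_add] at h2
  have h3 : (Finsupp.weight 1) (Finsupp.single (0 : Fin 3) k) = k := by
    simp [Finsupp.weight_single]
  rw [h3] at h2
  omega

private theorem bNN_tl (ε : ℝ) (P : P3) (w : V3) :
    eval w (tl ε P) =
      (starRingEnd ℂ) (eval ![(ε : ℂ) * (starRingEnd ℂ) (w 0), (starRingEnd ℂ) (w 1), -((ε : ℂ) * (starRingEnd ℂ) (w 2))] P) := by
  have : ((eval w).comp (aeval ![C (ε : ℂ) * X 0, X 1, -(C (ε : ℂ) * X 2)] :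
      P3 →ₐ[ℂ] P3).toRingHom).comp (MvPolynomial.map (starRingEnd ℂ)) =
      (starRingEnd ℂ).comp
        (eval ![(ε : ℂ) * (starRingEnd ℂ) (w 0), (starRingEnd ℂ) (w 1), -((ε : ℂ) * (starRingEnd ℂ) (w 2))]) := by
    apply MvPolynomial.ringHom_ext
    · intro r; simp
    · intro i; fin_cases i <;> simp
  exact congrArg (fun g : P3 →+* ℂ => g P) this

private theorem bNN_scale {P : P3} {d : ℕ} (h : P.IsHomogeneous d) (c : ℂ) (z : V3) :
    eval (fun i => c * z i) P = c ^ d * eval z P := by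
  rw [eval_eq', eval_eq', Finset.mul_sum]
  refine Finset.sum_congr rfl fun m hm => ?_
  have h1 : (∑ i, m i) = d := by
    have := h (mem_support_iff.1 hm)
    rw [← this]
    simp [Finsupp.weight_apply, Finsupp.sum_fintype]
  simp only [mul_pow, Finset.prod_mul_distrib]
  rw [Finset.prod_pow_eq_pow_sum, h1]
  ring

private theorem bNN_ext {Q : P3} {d : ℕ} (h : Q.IsHomogeneous d) (j : Fin 3) (hj : j ≠ 0) {c : ℂ}
    (hc : c ≠ 0) (h0 : ∀ z : V3, z 0 = 0 → z j = c → eval z Q = 0) : X 0 ∣ Q := by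
  have h1 : X 0 ∣ X j * Q := by
    refine bNN_X0 _ fun z hz => ?_
    rw [map_mul, eval_X]
    by_cases hzj : z j = 0
    · rw [hzj, zero_mul]
    · have h2 := h0 (fun i => c / z j * z i) (by rw [hz, mul_zero]) (by field_simp)
      rw [bNN_scale h] at h2
      have h3 : (c / z j) ^ d ≠ 0 := pow_ne_zero _ (div_ne_zero hc hzj)
      rw [(mul_eq_zero.1 h2).resolve_left h3, mul_zero]
  rcases (MvPolynomial.X_prime (R := ℂ) (i := (0 : Fin 3))).dvd_or_dvd h1 with h2 | h2
  · rw [MvPolynomial.X_dvd_X] at h2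
    exact absurd h2.symm hj
  · exact h2

/-- NN (uses TL, TG0, TN, FC, WF0, E3, TP, FR1, FR2) -/
theorem exists_NN {ε : ℝ} (hε : ε = 1 ∨ ε = -1) {F : Fin 5 → P3} (h : Spec (qd ε) 0 F) :
    ∃ M N s A b c, NN ε M N s A b c := by
  have hT : Module.finrank ℂ (T 0 F) = 2 :=
    le_antisymm (T_le h.hom 0 (Or.inl rfl) h.flat) (T_ge0 hε h)
  have hnd : ∀ e ∈ T 0 F, (∀ e' ∈ T 0 F, hf e' e = 0) → e = 0 :=
    fun e he h0 => T_nd hε h hT e he h0
  obtain ⟨e1, e2, hi, h1, h2⟩ := h.dv
  have hmem : ∀ z : V3, z 0 = 0 → (fun i => eval z (F i)) ∈ T 0 F := fun z hz =>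
    Submodule.subset_span ⟨z, hz, rfl⟩
  have hlin : ∀ (e0 : E5), (∀ z : V3, z 0 = 0 → hf (fun i => eval z (F i)) e0 = 0) →
      ∀ e ∈ T 0 F, hf e e0 = 0 := by
    intro e0 h0 e he
    refine Submodule.span_induction (p := fun x _ => hf x e0 = 0) ?_ ?_ ?_ ?_ he
    · rintro x ⟨z, hz, rfl⟩
      exact h0 z hz
    · simp [bNN_hf]
    · intro x y _ _ hx hy
      rw [bNN_hf] at hx hy ⊢
      simp only [Pi.add_apply, add_mul, mul_add, Finset.sum_add_distrib, hx, hy, add_zero]
    · intro a x _ hx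
      rw [bNN_hf] at hx ⊢
      simp only [Pi.smul_apply, smul_eq_mul]
      rw [← mul_zero a, ← hx, Finset.mul_sum]
      exact Finset.sum_congr rfl fun i _ => by ring
  have hperp : ∀ e0 : E5, X 0 ∣ pf F e0 → ∀ e ∈ T 0 F, hf e e0 = 0 := by
    intro e0 h0
    refine hlin e0 fun z hz => ?_
    rw [← bNN_pf]
    obtain ⟨q, hq⟩ := h0
    rw [hq, map_mul, eval_X, hz, zero_mul]
  have h1' := hperp e1 (Dvd.dvd.trans (dvd_pow_self _ (by norm_num)) h1)
  have h2' := hperp e2 (Dvd.dvd.trans (dvd_pow_self _ (by norm_num)) h2)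
  obtain ⟨e3, h30, h3T, h31, h32⟩ := frame_e3 (T 0 F) hT e1 e2
  have h33 := e3_nonnull hε h hT hnd e1 e2 hi h1 h2 e3 h30 h3T h31 h32
  obtain ⟨t, htT, hM, hN, hB⟩ :=
    frame_basis (T 0 F) hT hnd e1 e2 hi h1' h2' e3 h3T h31 h32 h33
  set row : Fin 5 → E5 := ![t 0, t 1, e3, e1, e2] with hrow
  set B : Matrix (Fin 5) (Fin 5) ℂ := Matrix.of row with hBdef
  have hBu : IsUnit B := (Matrix.linearIndependent_rows_iff_isUnit (A := B)).1 hB
  have hBdet : IsUnit B.det := (Matrix.isUnit_iff_isUnit_det B).1 hBu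
  set K : Matrix (Fin 5) (Fin 5) ℂ := B⁻¹ with hK
  have hBK : B * K = 1 := Matrix.mul_nonsing_inv B hBdet
  have hKB : K * B = 1 := Matrix.nonsing_inv_mul B hBdet
  -- coordinates
  have hexp : ∀ v : E5, v = ∑ k, (∑ i, v i * K i k) • row k := by
    intro v
    have h3 : v ᵥ* (K * B) = v := by rw [hKB, Matrix.vecMul_one]
    rw [← Matrix.vecMul_vecMul] at h3
    conv_lhs => rw [← h3]
    funext j
    simp only [Matrix.vecMul, dotProduct, Finset.sum_apply, Pi.smul_apply, smul_eq_mul]
    rfl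
  have hcoord : ∀ j k, (∑ i, row j i * K i k) = if j = k then 1 else 0 := by
    intro j k
    have := congrFun (congrFun hBK j) k
    rw [Matrix.mul_apply, Matrix.one_apply] at this
    exact this
  -- the polynomials
  set P : Fin 5 → P3 := fun k => ∑ i, C (K i k) * F i with hP
  have hPeval : ∀ (z : V3) k, eval z (P k) = ∑ i, eval z (F i) * K i k := by
    intro z k
    simp only [hP, map_sum, map_mul, eval_C]
    exact Finset.sum_congr rfl fun i _ => mul_comm _ _
  have hPhom : ∀ k, (P k).IsHomogeneous 6 := fun k =>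
    IsHomogeneous.sum _ _ _ fun i _ => by
      simpa using (isHomogeneous_C (Fin 3) (K i k)).mul (h.hom i)
  have hFP : ∀ i, F i = ∑ k, C (row k i) * P k := by
    intro i
    simp only [hP, Finset.mul_sum]
    rw [Finset.sum_comm]
    have h3 : ∀ j, ∑ k, C (row k i) * (C (K j k) * F j) =
        C (if j = i then 1 else 0) * F j := by
      intro j
      have h4 := congrFun (congrFun hKB j) i
      rw [Matrix.mul_apply, Matrix.one_apply] at h4
      rw [← h4, map_sum, Finset.sum_mul]
      refine Finset.sum_congr rfl fun k _ => ?_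
      rw [← mul_assoc, ← C_mul]
      congr 2
      exact mul_comm _ _
    simp only [h3]
    simp
  have hpf : ∀ e : E5, pf F e = ∑ k, C (hf (row k) e) * P k := by
    intro e
    rw [pf]
    conv_lhs => 
      enter [2, i]
      rw [hFP i, Finset.mul_sum]
    rw [Finset.sum_comm]
    refine Finset.sum_congr rfl fun k _ => ?_
    rw [bNN_hf, map_sum, Finset.sum_mul]
    refine Finset.sum_congr rfl fun i _ => ?_
    rw [← mul_assoc, ← C_mul]
    congr 2
    ring
  have hherm : ∀ z w : V3, hf (fun i => eval z (F i)) (fun i => eval w (F i)) =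
      ∑ k, ∑ l, hf (row k) (row l) * eval z (P k) * (starRingEnd ℂ) (eval w (P l)) := by
    intro z w
    rw [hexp (fun i => eval z (F i)), bNN_sum_left]
    refine Finset.sum_congr rfl fun k _ => ?_
    rw [hexp (fun i => eval w (F i)), bNN_sum_right, Finset.mul_sum]
    refine Finset.sum_congr rfl fun l _ => ?_
    rw [← hPeval, ← hPeval]
    ring
  -- the Gram matrix
  have ht3 : ∀ i, hf (t i) e3 = 0 := fun i => h3T _ (htT i)
  have ht1 : ∀ i, hf (t i) e1 = 0 := fun i => h1' _ (htT i)
  have ht2 : ∀ i, hf (t i) e2 = 0 := fun i => h2' _ (htT i)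
  have hsw : ∀ u v : E5, hf u v = 0 → hf v u = 0 := fun u v huv => by
    rw [← bNN_symm, huv, map_zero]
  have h3t : ∀ i, hf e3 (t i) = 0 := fun i => hsw _ _ (ht3 i)
  have h1t : ∀ i, hf e1 (t i) = 0 := fun i => hsw _ _ (ht1 i)
  have h2t : ∀ i, hf e2 (t i) = 0 := fun i => hsw _ _ (ht2 i)
  have h13 : hf e3 e1 = 0 := hsw _ _ h31
  have h23 : hf e3 e2 = 0 := hsw _ _ h32
  set M : Matrix (Fin 2) (Fin 2) ℂ := Matrix.of fun i j => hf (t i) (t j) with hMdef
  set N : Matrix (Fin 2) (Fin 2) ℂ := Matrix.of fun i j => hf (![e1, e2] i) (![e1, e2] j) with hNdef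
  set s : ℝ := (hf e3 e3).re with hs
  have hsr : (s : ℂ) = hf e3 e3 := by
    have := bNN_symm e3 e3
    rw [Complex.conj_eq_iff_re] at this
    exact this
  have hs0 : s ≠ 0 := by
    intro h0
    rw [h0] at hsr
    exact h33 hsr.symm
  -- divisibility
  have hb : X 0 ∣ P 2 := by
    have h3 : X 0 ∣ pf F e3 := bNN_X0 _ fun z hz => by
      rw [bNN_pf]
      exact h3T _ (hmem z hz)
    have h4 : pf F e3 = C (hf e3 e3) * P 2 := by
      rw [hpf, Fin.sum_univ_five]
      simp [hrow, ht3, h31, h32]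
    have h5 : P 2 = C (hf e3 e3)⁻¹ * pf F e3 := by
      rw [h4, ← mul_assoc, ← C_mul, inv_mul_cancel₀ h33, C_1, one_mul]
    rw [h5]
    exact Dvd.dvd.mul_left h3 _
  have hc : ∀ k : Fin 2, X 0 ^ 3 ∣ P (![3, 4] k) := by
    have hNu : IsUnit N.det := isUnit_iff_ne_zero.2 hN
    have hNN : N * N⁻¹ = 1 := Matrix.mul_nonsing_inv N hNu
    have h4 : ∀ j : Fin 2, pf F (![e1, e2] j) = ∑ i : Fin 2, C (N i j) * P (![3, 4] i) := by
      intro j
      rw [hpf, Fin.sum_univ_five, Fin.sum_univ_two]
      fin_cases j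
      · simp [hrow, ht1, h13, hNdef]
      · simp [hrow, ht2, h23, hNdef]
    intro k
    have h5 : P (![3, 4] k) = ∑ j : Fin 2, C (N⁻¹ j k) * pf F (![e1, e2] j) := by
      simp only [h4, Finset.mul_sum]
      rw [Finset.sum_comm]
      have h6 : ∀ i, ∑ j, C (N⁻¹ j k) * (C (N i j) * P (![3, 4] i)) =
          C (if i = k then 1 else 0) * P (![3, 4] i) := by
        intro i
        have h7 := congrFun (congrFun hNN i) k
        rw [Matrix.mul_apply, Matrix.one_apply] at h7
        rw [← h7, map_sum, Finset.sum_mul]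
        refine Finset.sum_congr rfl fun j _ => ?_
        rw [← mul_assoc, ← C_mul]
        congr 2
        exact mul_comm _ _
      simp only [h6]
      simp
    rw [h5]
    refine Finset.dvd_sum fun j _ => Dvd.dvd.mul_left ?_ _
    fin_cases j
    · exact h1
    · exact h2
  obtain ⟨b, hb⟩ := hb
  choose c hc using hc
  have hc0 : P 3 = X 0 ^ 3 * c 0 := hc 0
  have hc1 : P 4 = X 0 ^ 3 * c 1 := hc 1
  have hHerm : ∀ z w : V3, hf (fun i => eval z (F i)) (fun i => eval w (F i)) =
      (∑ i, ∑ j, M i j * eval z (![P 0, P 1] i) * (starRingEnd ℂ) (eval w (![P 0, P 1] j))) +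
      (s : ℂ) * (z 0 * eval z b) * (starRingEnd ℂ) (w 0 * eval w b) +
      (∑ i, ∑ j, N i j * (z 0 ^ 3 * eval z (c i)) * (starRingEnd ℂ) (w 0 ^ 3 * eval w (c j))) := by
    intro z w
    rw [hherm, hsr]
    simp only [Fin.sum_univ_five, Fin.sum_univ_two, hb, hc0, hc1, hMdef, hNdef]
    simp [hrow, ht3, ht1, ht2, h3t, h1t, h2t, h13, h23, h31, h32]
    ring
  have hε2 : (ε : ℂ) * ε = 1 := by rcases hε with rfl | rfl <;> simp
  have hε0 : (ε : ℂ) ≠ 0 := left_ne_zero_of_mul_eq_one hε2
  -- independence of the `A i` on the line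
  have hindA : ∀ α : Fin 2 → ℂ, X 0 ∣ ∑ i, C (α i) * (![P 0, P 1] : Fin 2 → P3) i → α = 0 := by
    intro α hα
    have h3 : ∀ e ∈ T 0 F, ∑ i, e i * (α 0 * K i 0 + α 1 * K i 1) = 0 := by
      intro e he
      refine Submodule.span_induction
        (p := fun x _ => ∑ i, x i * (α 0 * K i 0 + α 1 * K i 1) = 0) ?_ ?_ ?_ ?_ he
      · rintro x ⟨z, hz, rfl⟩
        obtain ⟨q, hq⟩ := hα
        have h4 := congrArg (eval z) hq
        rw [map_mul, eval_X, hz, zero_mul, Fin.sum_univ_two] at h4
        simp only [Matrix.cons_val_zero, Matrix.cons_val_one, map_add, map_mul, eval_C,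
          hPeval] at h4
        rw [← h4, Finset.mul_sum, Finset.mul_sum, ← Finset.sum_add_distrib]
        exact Finset.sum_congr rfl fun i _ => by ring
      · simp
      · intro x y _ _ hx hy
        simp only [Pi.add_apply, add_mul, Finset.sum_add_distrib, hx, hy, add_zero]
      · intro a x _ hx
        simp only [Pi.smul_apply, smul_eq_mul, mul_assoc]
        rw [← Finset.mul_sum, hx, mul_zero]
    have h4 : ∀ j : Fin 5, ∑ i, row j i * (α 0 * K i 0 + α 1 * K i 1) =
        α 0 * (if j = 0 then 1 else 0) + α 1 * (if j = 1 then 1 else 0) := by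
      intro j
      rw [← hcoord, ← hcoord, Finset.mul_sum, Finset.mul_sum, ← Finset.sum_add_distrib]
      exact Finset.sum_congr rfl fun i _ => by ring
    have h5 := h4 0
    have h6 := h4 1
    rw [show row 0 = t 0 from rfl, h3 _ (htT 0)] at h5
    rw [show row 1 = t 1 from rfl, h3 _ (htT 1)] at h6
    funext i
    fin_cases i
    · simpa using h5.symm
    · simpa using h6.symm
  have hAhom : ∀ i, ((![P 0, P 1] : Fin 2 → P3) i).IsHomogeneous 6 := by
    intro i
    fin_cases i
    · exact hPhom 0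
    · exact hPhom 1
  have hbhom : b.IsHomogeneous 5 := by
    have := hPhom 2
    rw [hb] at this
    exact bNN_hom (k := 1) (by simpa using this)
  have hchom : ∀ i, (c i).IsHomogeneous 3 := by
    intro i
    have : (P (![3, 4] i)).IsHomogeneous 6 := hPhom _
    rw [hc] at this
    exact bNN_hom (k := 3) (by simpa using this)
  have hMh : M.IsHermitian := by
    ext i j
    rw [Matrix.conjTranspose_apply]
    exact bNN_symm _ _
  have hNh : N.IsHermitian := by
    ext i j
    rw [Matrix.conjTranspose_apply]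
    exact bNN_symm _ _
  refine ⟨M, N, s, ![P 0, P 1], b, c, hε, hMh, hNh, hM, hN, hs0, hAhom, hbhom, hchom, ?_, hindA,
    ?_, ?_, ?_, ?_, ?_⟩
  · intro z w hzw
    rw [← hHerm]
    exact h.herm z w hzw
  · -- indc
    rw [Fintype.linearIndependent_iff]
    intro γ hγ
    have h3 : ∑ j, (∑ i, γ i * K j (![3, 4] i)) • F j = 0 := by
      have h4 : X 0 ^ 3 * ∑ i, γ i • c i = 0 := by rw [hγ, mul_zero]
      rw [Finset.mul_sum] at h4
      rw [← h4]
      have h5 : ∀ i : Fin 2, X 0 ^ 3 * γ i • c i = γ i • P (![3, 4] i) := by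
        intro i
        rw [hc, mul_smul_comm]
      simp only [h5, hP, Finset.smul_sum, Finset.sum_smul]
      rw [Finset.sum_comm]
      refine Finset.sum_congr rfl fun i _ => Finset.sum_congr rfl fun j _ => ?_
      rw [← smul_eq_C_mul, smul_smul]
    have h6 := Fintype.linearIndependent_iff.1 h.ind _ h3
    have h7 : ∀ j : Fin 5, ∑ i : Fin 2, γ i * (if j = ![3, 4] i then 1 else 0) = 0 := by
      intro j
      have h8 : ∑ l, row j l * (∑ i, γ i * K l (![3, 4] i)) = 0 :=
        Finset.sum_eq_zero fun l _ => by rw [h6 l, mul_zero]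
      refine Eq.trans ?_ h8
      have h9 : ∀ i : Fin 2, (if j = ![3, 4] i then (1 : ℂ) else 0) =
          ∑ l, row j l * K l (![3, 4] i) := fun i => (hcoord j _).symm
      simp only [h9, Finset.mul_sum]
      rw [Finset.sum_comm]
      exact Finset.sum_congr rfl fun l _ => Finset.sum_congr rfl fun i _ => by ring
    intro i
    fin_cases i
    · simpa [Fin.sum_univ_two] using h7 3
    · simpa [Fin.sum_univ_two] using h7 4
  · -- nb
    rintro ⟨b', hb'⟩
    refine tu_false ![P 0, P 1] (fun i => ∑ j, C (M i j) * tl ε ((![P 0, P 1] : Fin 2 → P3) j))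
      (C (s : ℂ) * X 0 * X 1 * (aeval ![(X 0 : P3), 1, X 2] b') *
          (aeval ![(X 1 : P3), -(X 2 + X 0 * X 1), 1] (tl ε b')) +
        C (ε : ℂ) * X 0 ^ 2 * X 1 ^ 2 * ∑ i, ∑ j, C (N i j) *
          (aeval ![(X 0 : P3), 1, X 2] (c i)) *
          (aeval ![(X 1 : P3), -(X 2 + X 0 * X 1), 1] (tl ε (c j)))) ?_ ?_ ?_ ?_
    · intro τ u x
      set w' : V3 := ![u, -(x + τ * u), 1] with hw'
      set w : V3 := ![(ε : ℂ) * (starRingEnd ℂ) (w' 0), (starRingEnd ℂ) (w' 1), -((ε : ℂ) * (starRingEnd ℂ) (w' 2))] with hw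
      have hcε : (starRingEnd ℂ) (ε : ℂ) = ε := Complex.conj_ofReal ε
      have htl : ∀ Q : P3, eval w' (tl ε Q) = (starRingEnd ℂ) (eval w Q) := fun Q => bNN_tl ε Q w'
      have hq : qd ε ![τ, 1, x] w = 0 := by
        simp only [qd, hw, hw', Matrix.cons_val_zero, Matrix.cons_val_one, Matrix.cons_val,
          map_mul, map_neg, Complex.conj_conj, hcε, map_one]
        linear_combination (τ * u + x) * hε2
      have h3 := h.herm _ _ hq
      rw [hHerm] at h3
      have hw0 : (starRingEnd ℂ) (w 0) = ε * u := by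
        simp only [hw, hw', Matrix.cons_val_zero, map_mul, Complex.conj_conj, hcε]
      have haz : ∀ Q : P3, eval ![τ, u, x] (aeval ![(X 0 : P3), 1, X 2] Q) =
          eval ![τ, 1, x] Q := by
        intro Q
        have : (eval ![τ, u, x]).comp (aeval ![(X 0 : P3), 1, X 2] : P3 →ₐ[ℂ] P3).toRingHom =
            eval ![τ, 1, x] := by
          apply MvPolynomial.ringHom_ext
          · intro r; simp
          · intro i; fin_cases i <;> simp
        exact congrArg (fun g : P3 →+* ℂ => g Q) this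
      have haw : ∀ Q : P3, eval ![τ, u, x] (aeval ![(X 1 : P3), -(X 2 + X 0 * X 1), 1] Q) =
          eval w' Q := by
        intro Q
        have : (eval ![τ, u, x]).comp
            (aeval ![(X 1 : P3), -(X 2 + X 0 * X 1), 1] : P3 →ₐ[ℂ] P3).toRingHom =
            eval w' := by
          apply MvPolynomial.ringHom_ext
          · intro r; simp
          · intro i; fin_cases i <;> simp [hw']
        exact congrArg (fun g : P3 →+* ℂ => g Q) this
      rw [hb'] at h3
      simp only [map_mul, map_pow, eval_X, hw0, Matrix.cons_val_zero, ← htl, Fin.sum_univ_two,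
        Matrix.cons_val_one] at h3
      simp only [Fin.sum_univ_two, map_add, map_mul, map_pow, eval_C, eval_X, haz, haw,
        Matrix.cons_val_zero, Matrix.cons_val_one]
      linear_combination h3 - ((s : ℂ) * τ ^ 2 * u ^ 2 * (eval ![τ, 1, x]) b' *
          (eval w') (tl ε b') + (ε : ℂ) * τ ^ 3 * u ^ 3 *
            (N 0 0 * (eval ![τ, 1, x]) (c 0) * (eval w') (tl ε (c 0)) +
              N 0 1 * (eval ![τ, 1, x]) (c 0) * (eval w') (tl ε (c 1)) +
              (N 1 0 * (eval ![τ, 1, x]) (c 1) * (eval w') (tl ε (c 0)) +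
                N 1 1 * (eval ![τ, 1, x]) (c 1) * (eval w') (tl ε (c 1))))) * hε2
    · intro x
      simp
    · intro α hα
      refine hindA α (bNN_ext (d := 6) ?_ 1 (by decide) one_ne_zero ?_)
      · exact IsHomogeneous.sum _ _ _ fun i _ => by
          simpa using (isHomogeneous_C (Fin 3) (α i)).mul (hAhom i)
      · intro z hz0 hz1
        have h3 := hα (z 2)
        have h4 : z = ![0, 1, z 2] := by
          funext i
          fin_cases i
          · exact hz0
          · exact hz1
          · rfl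
        have h5 : eval z (∑ i, C (α i) * (![P 0, P 1] : Fin 2 → P3) i) =
            ∑ i, α i * eval ![(0 : ℂ), 1, z 2] ((![P 0, P 1] : Fin 2 → P3) i) := by
          rw [map_sum]
          refine Finset.sum_congr rfl fun i _ => ?_
          rw [map_mul, eval_C, ← h4]
        exact h5.trans h3
    · by_contra hcon
      push Not at hcon
      have h3 : ∀ j : Fin 2, X 0 ∣ (![P 0, P 1] : Fin 2 → P3) j := by
        intro j
        refine bNN_ext (hAhom j) 2 (by decide) (c := -(ε : ℂ)) (neg_ne_zero.2 hε0) ?_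
        intro z hz0 hz2
        have hMu : IsUnit M.det := isUnit_iff_ne_zero.2 hM
        have h4 : M *ᵥ (fun j => (starRingEnd ℂ) (eval z ((![P 0, P 1] : Fin 2 → P3) j))) = 0 := by
          funext i
          have h5 := hcon i (-(starRingEnd ℂ) (z 1))
          rw [map_sum] at h5
          rw [Pi.zero_apply, ← h5, Matrix.mulVec, dotProduct]
          refine Finset.sum_congr rfl fun j _ => ?_
          rw [map_mul, eval_C, bNN_tl]
          congr 4
          funext l
          fin_cases l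
          · simp [hz0]
          · simp
          · simp [hz2]
        have h5 := Matrix.eq_zero_of_mulVec_eq_zero hM h4
        have h6 := congrFun h5 j
        simpa using h6
      have h4 := hindA (Pi.single 0 1) (Finset.dvd_sum fun i _ => Dvd.dvd.mul_left (h3 i) _)
      have h5 := congrFun h4 0
      simp at h5
  · -- prim
    intro r hr1 hr2 hr3
    refine h.prim r fun i => ?_
    rw [hFP i]
    refine Finset.dvd_sum fun k _ => Dvd.dvd.mul_left ?_ _
    fin_cases k
    · exact hr1 0
    · exact hr1 1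
    · show r ∣ P 2
      rw [hb]
      exact hr2
    · show r ∣ P 3
      rw [hc0]
      exact hr3 0
    · show r ∣ P 4
      rw [hc1]
      exact hr3 1
  · -- wr
    refine wr_rel0 (P 0) (P 1) b fun z v hz => ?_
    have h3 := flat_comb z v (fun s => h.flat z v s hz) ![fun i => K i 0, fun i => K i 1, fun i => K i 2]
    rw [← h3]
    congr 1
    funext k a
    fin_cases a
    · rfl
    · rfl
    · show eval z ((dv v)^[(k : ℕ)] (X 0 * b)) = _
      rw [← hb]
      rfl
  · -- pos
    intro hε1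
    subst hε1
    constructor
    · have h3 := T_pos h hT hnd e3 h3T
      exact lt_of_le_of_ne h3 (Ne.symm hs0)
    · intro a
      have h3 := T_pos h hT hnd (∑ i, a i • (![e1, e2] : Fin 2 → E5) i) (fun e he => by
        rw [bNN_sum_right, Fin.sum_univ_two]
        simp [h1' e he, h2' e he])
      convert h3 using 2
      rw [bNN_sum_left]
      refine Finset.sum_congr rfl fun i _ => ?_
      rw [bNN_sum_right, Finset.mul_sum]
      refine Finset.sum_congr rfl fun j _ => ?_
      simp only [hNdef, Matrix.of_apply]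
      ring

end Pool.Agent.Lib_helper86.D24

end

section

namespace Pool.Agent.Lib_helper86.D24

open MvPolynomial Matrix


/-- `tl` as a ring homomorphism. -/
private noncomputable def bNP_tl (ε : ℝ) : P3 →+* P3 :=
  (aeval ![C (ε : ℂ) * X 0, X 1, -(C (ε : ℂ) * X 2)] : P3 →ₐ[ℂ] P3).toRingHom.comp
    (MvPolynomial.map (starRingEnd ℂ))

private theorem bNP_tl_eq (ε : ℝ) (P : P3) : tl ε P = bNP_tl ε P := rfl

private theorem bNP_C (ε : ℝ) (a : ℂ) : bNP_tl ε (C a) = C ((starRingEnd ℂ) a) := by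
  simp [bNP_tl, MvPolynomial.algebraMap_eq]

private theorem bNP_X0 (ε : ℝ) : bNP_tl ε (X 0) = C (ε : ℂ) * X 0 := by
  simp [bNP_tl]

private theorem bNP_X1 (ε : ℝ) : bNP_tl ε (X 1) = X 1 := by
  simp [bNP_tl]

private theorem bNP_X2 (ε : ℝ) : bNP_tl ε (X 2) = -(C (ε : ℂ) * X 2) := by
  simp [bNP_tl]

private theorem bNP_CC {ε : ℝ} (hε : ε = 1 ∨ ε = -1) : (C (ε : ℂ) : P3) * C (ε : ℂ) = 1 := by
  rw [← C_mul, ← C_1]
  rcases hε with h | h <;> simp [h]

private theorem bNP_invol {ε : ℝ} (hε : ε = 1 ∨ ε = -1) (P : P3) :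
    bNP_tl ε (bNP_tl ε P) = P := by
  have hC := bNP_CC hε
  have hcε : (starRingEnd ℂ) (ε : ℂ) = (ε : ℂ) := Complex.conj_ofReal ε
  induction P using MvPolynomial.induction_on with
  | C a => rw [bNP_C, bNP_C]; simp
  | add p q hp hq => rw [map_add, map_add, hp, hq]
  | mul_X p i hp =>
    rw [map_mul, map_mul, hp]
    congr 1
    fin_cases i
    · show bNP_tl ε (bNP_tl ε (X 0)) = X 0
      rw [bNP_X0, map_mul, bNP_C, hcε, bNP_X0, ← mul_assoc, hC, one_mul]
    · show bNP_tl ε (bNP_tl ε (X 1)) = X 1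
      rw [bNP_X1, bNP_X1]
    · show bNP_tl ε (bNP_tl ε (X 2)) = X 2
      rw [bNP_X2, map_neg, map_mul, bNP_C, hcε, bNP_X2, mul_neg, neg_neg, ← mul_assoc, hC, one_mul]

private theorem bNP_eval (ε : ℝ) (w : V3) (P : P3) :
    eval w (bNP_tl ε P) =
      (starRingEnd ℂ) (eval ![(ε : ℂ) * (starRingEnd ℂ) (w 0), (starRingEnd ℂ) (w 1), -((ε : ℂ) * (starRingEnd ℂ) (w 2))] P) := by
  have hcε : (starRingEnd ℂ) (ε : ℂ) = (ε : ℂ) := Complex.conj_ofReal ε
  induction P using MvPolynomial.induction_on with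
  | C a => rw [bNP_C]; simp
  | add p q hp hq => rw [map_add, map_add, hp, hq, map_add, map_add]
  | mul_X p i hp =>
    rw [map_mul, map_mul, hp, map_mul, map_mul]
    congr 1
    fin_cases i
    · show eval w (bNP_tl ε (X 0)) = _
      rw [bNP_X0]
      simp [hcε]
    · show eval w (bNP_tl ε (X 1)) = _
      rw [bNP_X1]
      simp
    · show eval w (bNP_tl ε (X 2)) = _
      rw [bNP_X2]
      simp [hcε]

private theorem bNP_hom (ε : ℝ) {P : P3} {n : ℕ} (h : P.IsHomogeneous n) :
    (bNP_tl ε P).IsHomogeneous n := by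
  have h1 := (h.map (starRingEnd ℂ)).aeval
    ![(C (ε : ℂ) * X 0 : P3), X 1, -(C (ε : ℂ) * X 2)] (n := 1) (by
      intro i
      fin_cases i
      · simpa using (isHomogeneous_C (Fin 3) (ε : ℂ)).mul (isHomogeneous_X ℂ (0 : Fin 3))
      · simpa using isHomogeneous_X ℂ (1 : Fin 3)
      · simpa using ((isHomogeneous_C (Fin 3) (ε : ℂ)).mul (isHomogeneous_X ℂ (2 : Fin 3))).neg)
  rw [one_mul] at h1
  exact h1

private theorem bNP_dvd {ε : ℝ} (hε : ε = 1 ∨ ε = -1) {P Q : P3} (h : P ∣ bNP_tl ε Q) :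
    bNP_tl ε P ∣ Q := by
  have := map_dvd (bNP_tl ε) h
  rwa [bNP_invol hε] at this

private theorem bNP_X0_dvd {ε : ℝ} (hε : ε = 1 ∨ ε = -1) {Q : P3} (h : X 0 ∣ bNP_tl ε Q) :
    X 0 ∣ Q := by
  have h1 := bNP_dvd hε h
  rw [bNP_X0] at h1
  exact (Dvd.intro_left _ rfl).trans h1

/-- the combination of the `tl (B j)` -/
private theorem bNP_comb (ε : ℝ) (β : Fin 2 → ℂ) (B : Fin 2 → P3) :
    ∑ j, C (β j) * bNP_tl ε (B j) = bNP_tl ε (∑ j, C ((starRingEnd ℂ) (β j)) * B j) := by
  rw [map_sum]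
  refine Finset.sum_congr rfl fun j _ => ?_
  rw [map_mul, bNP_C, Complex.conj_conj]

private theorem bNP_comb2 (M : Matrix (Fin 2) (Fin 2) ℂ) (α : Fin 2 → ℂ) (B : Fin 2 → P3) :
    ∑ i, C (α i) * ∑ j, C (M i j) * B j = ∑ j, C ((α ᵥ* M) j) * B j := by
  simp only [Fin.sum_univ_two, Matrix.vecMul, dotProduct, C_add, C_mul]
  ring

private theorem bNP_back (M : Matrix (Fin 2) (Fin 2) ℂ) (hM : M.det ≠ 0) (B : Fin 2 → P3) {r : P3}
    (h : ∀ i, r ∣ ∑ j, C (M i j) * B j) (j : Fin 2) : r ∣ B j := by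
  have hd : (C M.det : P3) * B j = ∑ i, C (M.adjugate j i) * ∑ k, C (M i k) * B k := by
    have h1 := bNP_comb2 M (fun i => M.adjugate j i) B
    rw [h1]
    have h2 : ((fun i => M.adjugate j i) ᵥ* M) = fun k => (M.adjugate * M) j k := by
      funext k
      simp [Matrix.vecMul, dotProduct, Matrix.mul_apply]
    rw [h2]
    rw [Matrix.adjugate_mul]
    simp only [Fin.sum_univ_two, Matrix.smul_apply, Matrix.one_apply, smul_eq_mul]
    fin_cases j <;> simp
  have h3 : r ∣ (C M.det : P3) * B j := by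
    rw [hd]
    exact Finset.dvd_sum fun i _ => Dvd.dvd.mul_left (h i) _
  have hu : IsUnit (C M.det : P3) := (isUnit_iff_ne_zero.2 hM).map C
  exact (hu.dvd_mul_left).1 h3

/-- NP -/
theorem exists_NP {ε : ℝ} {M N : Matrix (Fin 2) (Fin 2) ℂ} {s : ℝ} {A : Fin 2 → P3} {b : P3}
    {c : Fin 2 → P3} (h : NN ε M N s A b c) :
    NP A b c (fun i => ∑ j, C (M i j) * tl ε (A j)) (C ((s : ℂ) * ε) * tl ε b)
      (fun i => C (ε : ℂ) * ∑ j, C (N i j) * tl ε (c j)) := by
  have hε := h.hε
  have hcε : (starRingEnd ℂ) (ε : ℂ) = (ε : ℂ) := Complex.conj_ofReal ε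
  have hε2 : (ε : ℂ) * ε = 1 := by rcases hε with h | h <;> simp [h]
  have hε0 : (ε : ℂ) ≠ 0 := by
    intro h0
    rw [h0, zero_mul] at hε2
    exact zero_ne_one hε2
  have hs0 : (s : ℂ) ≠ 0 := by exact_mod_cast h.s0
  have huε : IsUnit (C (ε : ℂ) : P3) := (isUnit_iff_ne_zero.2 hε0).map C
  have husε : IsUnit (C ((s : ℂ) * ε) : P3) := (isUnit_iff_ne_zero.2 (mul_ne_zero hs0 hε0)).map C
  simp only [bNP_tl_eq]
  refine
  { homA := h.homA
    homb := h.homb
    homc := h.homc
    homAt := ?_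
    hombt := ?_
    homct := ?_
    orth := ?_
    indA := h.indA
    indAt := ?_
    indc := h.indc
    indct := ?_
    nb := h.nb
    nbt := ?_
    prim := h.prim
    primt := ?_
    wr := h.wr }
  · intro i
    refine IsHomogeneous.sum _ _ _ fun j _ => ?_
    simpa using (isHomogeneous_C (Fin 3) (M i j)).mul (bNP_hom ε (h.homA j))
  · simpa using (isHomogeneous_C (Fin 3) ((s : ℂ) * ε)).mul (bNP_hom ε h.homb)
  · intro i
    have h1 : (∑ j, C (N i j) * bNP_tl ε (c j)).IsHomogeneous 3 := by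
      refine IsHomogeneous.sum _ _ _ fun j _ => ?_
      simpa using (isHomogeneous_C (Fin 3) (N i j)).mul (bNP_hom ε (h.homc j))
    simpa using (isHomogeneous_C (Fin 3) (ε : ℂ)).mul h1
  · intro z w hzw
    have h1 := h.herm z ![(ε : ℂ) * (starRingEnd ℂ) (w 0), (starRingEnd ℂ) (w 1), -((ε : ℂ) * (starRingEnd ℂ) (w 2))] (by
      have h2 : z 0 * w 0 + z 1 * w 1 + z 2 * w 2 = 0 := by
        simpa [dotProduct, Fin.sum_univ_three] using hzw
      simp only [qd, Matrix.cons_val_zero, Matrix.cons_val_one, Matrix.cons_val, map_mul, map_neg,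
        hcε, Complex.conj_conj]
      linear_combination h2 + (z 0 * w 0 + z 2 * w 2) * hε2)
    simp only [Matrix.cons_val_zero, Matrix.cons_val_one, Matrix.cons_val, map_mul, map_pow,
        hcε, Complex.conj_conj] at h1
    simp only [← bNP_eval, Fin.sum_univ_two] at h1
    simp only [Fin.sum_univ_two, map_add, map_mul, eval_C]
    linear_combination h1 + (z 0 ^ 3 * w 0 ^ 3 * (ε : ℂ) * (
      eval z (c 0) * (N 0 0 * eval w (bNP_tl ε (c 0)) + N 0 1 * eval w (bNP_tl ε (c 1))) +
      eval z (c 1) * (N 1 0 * eval w (bNP_tl ε (c 0)) + N 1 1 * eval w (bNP_tl ε (c 1))))) *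
        (-hε2)
  · intro α hα
    rw [bNP_comb2, bNP_comb] at hα
    have h1 := h.indA _ (bNP_X0_dvd hε hα)
    have h2 : α ᵥ* M = 0 := by
      funext j
      have := congrFun h1 j
      simpa using this
    exact Matrix.eq_zero_of_vecMul_eq_zero h.detM h2
  · rw [Fintype.linearIndependent_iff]
    intro g hg
    have h1 : ∑ i, C (g i) * ∑ j, C (N i j) * bNP_tl ε (c j) = 0 := by
      have h2 : C (ε : ℂ) * ∑ i, C (g i) * ∑ j, C (N i j) * bNP_tl ε (c j) = 0 := by
        rw [← hg, Finset.mul_sum]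
        refine Finset.sum_congr rfl fun i _ => ?_
        rw [MvPolynomial.smul_eq_C_mul]
        ring
      exact (mul_eq_zero.1 h2).resolve_left huε.ne_zero
    rw [bNP_comb2, bNP_comb] at h1
    have h3 : ∑ j, C ((starRingEnd ℂ) ((g ᵥ* N) j)) * c j = 0 := by
      rw [← bNP_invol hε (∑ j, C ((starRingEnd ℂ) ((g ᵥ* N) j)) * c j), h1, map_zero]
    have h4 := (Fintype.linearIndependent_iff.1 h.indc) (fun j => (starRingEnd ℂ) ((g ᵥ* N) j)) (by
      simpa [MvPolynomial.smul_eq_C_mul] using h3)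
    have h5 : g ᵥ* N = 0 := by
      funext j
      simpa using h4 j
    have h6 := Matrix.eq_zero_of_vecMul_eq_zero h.detN h5
    intro i
    rw [h6]; rfl
  · intro h1
    exact h.nb (bNP_X0_dvd hε ((husε.dvd_mul_left).1 h1))
  · intro r hA hb hc
    have h1 : IsUnit (bNP_tl ε r) := by
      refine h.prim _ ?_ ?_ ?_
      · intro j
        exact bNP_dvd hε (bNP_back M h.detM _ hA j)
      · have h2 : r ∣ X 0 * bNP_tl ε b := by
          have : X 0 * (C ((s : ℂ) * ε) * bNP_tl ε b) =
              C ((s : ℂ) * ε) * (X 0 * bNP_tl ε b) := by ring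
          rw [this] at hb
          exact (husε.dvd_mul_left).1 hb
        have h3 := map_dvd (bNP_tl ε) h2
        rw [map_mul, bNP_invol hε, bNP_X0, mul_assoc] at h3
        exact (huε.dvd_mul_left).1 h3
      · intro j
        have h2 : ∀ i, r ∣ ∑ j, C (N i j) * (X 0 ^ 3 * bNP_tl ε (c j)) := by
          intro i
          have h3 := hc i
          have : X 0 ^ 3 * (C (ε : ℂ) * ∑ j, C (N i j) * bNP_tl ε (c j)) =
              C (ε : ℂ) * ∑ j, C (N i j) * (X 0 ^ 3 * bNP_tl ε (c j)) := by
            simp only [Fin.sum_univ_two]; ring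
          rw [this] at h3
          exact (huε.dvd_mul_left).1 h3
        have h4 := map_dvd (bNP_tl ε) (bNP_back N h.detN _ h2 j)
        rw [map_mul, bNP_invol hε, map_pow, bNP_X0, mul_pow, mul_assoc] at h4
        exact ((huε.pow 3).dvd_mul_left).1 h4
    have h2 := h1.map (bNP_tl ε)
    rwa [bNP_invol hε] at h2

end Pool.Agent.Lib_helper86.D24

end

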