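import Pool.Agent.Lib_helper86.D24.Defs2
import Pool.Agent.Lib_helper86.D24.L1
import Pool.Agent.Lib_helper86.D24.L4

/-!
# D(2,4) = 5: part L5
-/

section

namespace Pool.Agent.Lib_helper86.D24

open MvPolynomial Matrix


/-- a polynomial which vanishes on the hyperplane `z_j = 0` -/
theorem bRH_dvd (j : Fin 3) (p : P3) (hp : ∀ z : V3, z j = 0 → eval z p = 0) : X j ∣ p := by
  rw [X_dvd_iff_modMonomial_eq_zero]
  have hsum := divMonomial_add_modMonomial_single p j
  set r : P3 := p.modMonomial (Finsupp.single j 1) with hr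
  have hr0 : ∀ z : V3, z j = 0 → eval z r = 0 := by
    intro z hz
    have h1 := hp z hz
    rw [← hsum, map_add, map_mul, eval_X, hz, zero_mul, zero_add] at h1
    exact h1
  have hrj : ∀ z : V3, eval z r = eval (Function.update z j 0) r := by
    intro z
    rw [eval_eq, eval_eq]
    refine Finset.sum_congr rfl fun m hm => ?_
    congr 1
    refine Finset.prod_congr rfl fun i _ => ?_
    by_cases hij : i = j
    · subst hij
      have hmi : m i = 0 := by
        by_contra hmi
        have h1 : Finsupp.single i 1 ≤ m := by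
          rw [Finsupp.single_le_iff]
          exact Nat.one_le_iff_ne_zero.2 hmi
        have h2 := coeff_modMonomial_of_le p h1
        exact (mem_support_iff.1 hm) h2
      rw [hmi, pow_zero, pow_zero]
    · rw [Function.update_of_ne hij]
  apply MvPolynomial.funext
  intro z
  rw [hrj z, hr0 _ (by simp), map_zero]

/-- scaling -/
theorem bRH_smul {p : P3} {d : ℕ} (hp : p.IsHomogeneous d) (c : ℂ) (z : V3) :
    eval (c • z) p = c ^ d * eval z p := by
  rw [eval_eq, eval_eq, Finset.mul_sum]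
  refine Finset.sum_congr rfl fun m hm => ?_
  have h1 := hp.degree_eq_sum_deg_support hm
  have h2 : ∏ i ∈ m.support, (c • z) i ^ m i = c ^ d * ∏ i ∈ m.support, z i ^ m i := by
    simp only [Pi.smul_apply, smul_eq_mul, mul_pow]
    rw [Finset.prod_mul_distrib, Finset.prod_pow_eq_pow_sum, ← h1]
  rw [h2]
  ring

/-- the value of `r0` -/
theorem bRH_eval (p : P3) (x : ℂ) : (r0 p).eval x = eval ![0, 1, x] p := by
  induction p using MvPolynomial.induction_on with
  | C a => simp [r0]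
  | add p q hp hq => simp only [map_add, Polynomial.eval_add, hp, hq]
  | mul_X p i hp =>
    rw [map_mul, map_mul, Polynomial.eval_mul, hp, eval_X]
    congr 1
    unfold r0
    rw [aeval_X]
    fin_cases i <;> simp

/-- RH -/
theorem r0_hg {r : ℕ} {g : Polynomial ℂ} (h : g.natDegree ≤ r) : r0 (hg r g) = g := by
  unfold hg
  rw [map_sum]
  conv_rhs => rw [g.as_sum_range_C_mul_X_pow' (Nat.lt_succ_of_le h)]
  refine Finset.sum_congr rfl fun i _ => ?_
  unfold r0
  rw [map_mul, map_mul, map_pow, map_pow, aeval_X, aeval_X, aeval_C]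
  simp

/-- R0 -/
theorem r0_eq_zero {p : P3} {d : ℕ} (hp : p.IsHomogeneous d) : r0 p = 0 ↔ X 0 ∣ p := by
  constructor
  · intro h0
    have h1 : X 0 ∣ (X 1 : P3) * p := by
      refine bRH_dvd 0 _ fun z hz => ?_
      rw [map_mul, eval_X]
      by_cases hz1 : z 1 = 0
      · rw [hz1, zero_mul]
      · have h2 : z = z 1 • ![0, 1, z 2 / z 1] := by
          funext i
          fin_cases i
          · simpa using hz
          · simp
          · simp
            field_simp
        have h3 : eval z p = z 1 ^ d * eval ![0, 1, z 2 / z 1] p := by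
          rw [← bRH_smul hp, ← h2]
        rw [h3, ← bRH_eval, h0, Polynomial.eval_zero, mul_zero, mul_zero]
    rcases (X_prime (R := ℂ) (i := (0 : Fin 3))).dvd_or_dvd h1 with h2 | h2
    · have h3 : (0 : Fin 3) = 1 := X_dvd_X.1 h2
      exact absurd h3 (by decide)
    · exact h2
  · rintro ⟨q, rfl⟩
    rw [map_mul]
    unfold r0
    rw [aeval_X]
    simp

end Pool.Agent.Lib_helper86.D24

end

section

namespace Pool.Agent.Lib_helper86.D24

open MvPolynomial Matrix


/-- the binary form -/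
private noncomputable def fafg (r : ℕ) (g : Polynomial ℂ) (a b : P3) : P3 :=
  aeval ![b, a] (g.homogenize r)

private lemma fafg_eq (r : ℕ) (g : Polynomial ℂ) (a b : P3) :
    fafg r g a b = ∑ i ∈ Finset.range (r + 1), C (g.coeff i) * a ^ (r - i) * b ^ i := by
  unfold fafg Polynomial.homogenize
  rw [map_sum, Finset.Nat.sum_antidiagonal_eq_sum_range_succ_mk]
  refine Finset.sum_congr rfl fun i hi => ?_
  rw [aeval_monomial, Finsupp.update_eq_add_single (by simp), Finsupp.prod_add_index' (by simp)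
    (by intros; simp [pow_add]), Finsupp.prod_single_index (by simp),
    Finsupp.prod_single_index (by simp)]
  simp only [Matrix.cons_val_zero, Matrix.cons_val_one, algebraMap_eq]
  ring

private lemma fahg (r : ℕ) (g : Polynomial ℂ) : hg r g = fafg r g (X 1) (X 2) := by
  rw [fafg_eq]; rfl

private lemma fahgt (r : ℕ) (g : Polynomial ℂ) : hgt r g = fafg r g (X 2) (-X 1) := by
  rw [fafg_eq]; rfl

private lemma fafg_mul {m n : ℕ} {p q : Polynomial ℂ} (hp : p.natDegree ≤ m)
    (hq : q.natDegree ≤ n) (a b : P3) :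
    fafg (m + n) (p * q) a b = fafg m p a b * fafg n q a b := by
  unfold fafg
  rw [Polynomial.homogenize_mul p q hp hq, map_mul]

private lemma fafg_add (n : ℕ) (p q : Polynomial ℂ) (a b : P3) :
    fafg n (p + q) a b = fafg n p a b + fafg n q a b := by
  unfold fafg
  rw [Polynomial.homogenize_add, map_add]

private lemma fafg_one (n : ℕ) (a b : P3) : fafg n 1 a b = a ^ n := by
  unfold fafg
  rw [Polynomial.homogenize_one, map_pow, aeval_X]
  rfl

private lemma fafg_hom (n : ℕ) (p : Polynomial ℂ) {a b : P3} (ha : a.IsHomogeneous 1)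
    (hb : b.IsHomogeneous 1) : (fafg n p a b).IsHomogeneous n := by
  unfold fafg
  have := (Polynomial.isHomogeneous_homogenize (n := n) p).aeval ![b, a] (n := 1)
    (by intro i; fin_cases i <;> simpa)
  simpa using this

private lemma fafg_zero (n : ℕ) (a b : P3) : fafg n 0 a b = 0 := by
  unfold fafg
  rw [Polynomial.homogenize_zero, map_zero]

private lemma fa_res {P : P3} {n : ℕ} (hP : P.IsHomogeneous n) (a b : P3) :
    aeval ![0, a, b] P = fafg n (r0 P) a b := by
  have hq : (aeval ![(0 : P2), X 1, X 0] P).IsHomogeneous n := by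
    have := hP.aeval ![(0 : P2), X 1, X 0] (n := 1) (by
      intro i
      fin_cases i
      · exact isHomogeneous_zero _ _ _
      · exact isHomogeneous_X _ _
      · exact isHomogeneous_X _ _)
    simpa using this
  have h1 : aeval ![Polynomial.X, (1 : Polynomial ℂ)] (aeval ![(0 : P2), X 1, X 0] P) = r0 P := by
    rw [← AlgHom.comp_apply]
    unfold r0
    congr 1
    apply algHom_ext
    intro i
    fin_cases i <;> simp
  unfold fafg
  rw [Polynomial.homogenize_eq_of_isHomogeneous hq h1, ← AlgHom.comp_apply]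
  congr 1
  apply algHom_ext
  intro i
  fin_cases i <;> simp

private lemma fa_sub (P : P3) : (X 0 : P3) ∣ P - aeval ![0, X 1, X 2] P := by
  rw [← Ideal.mem_span_singleton, ← Ideal.Quotient.eq_zero_iff_mem, map_sub, sub_eq_zero]
  have : (Ideal.Quotient.mkₐ ℂ (Ideal.span {(X 0 : P3)})) =
      (Ideal.Quotient.mkₐ ℂ (Ideal.span {(X 0 : P3)})).comp (aeval ![0, X 1, X 2]) := by
    apply algHom_ext
    intro i
    fin_cases i
    · simp only [Fin.zero_eta, AlgHom.comp_apply, aeval_X, Matrix.cons_val_zero, map_zero]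
      exact Ideal.Quotient.eq_zero_iff_mem.2 (Ideal.mem_span_singleton_self _)
    · simp
    · simp
  exact DFunLike.congr_fun this P

private lemma fa_dvd {P : P3} {n : ℕ} (hP : P.IsHomogeneous n) (h : r0 P = 0) : (X 0 : P3) ∣ P := by
  have h1 := fa_sub P
  rwa [fa_res hP, h, fafg_zero, sub_zero] at h1

private lemma fa_rel {a b : P3} (ha : Prime a) (hab : ¬ a ∣ b) {r : ℕ} (hr : 1 ≤ r)
    {g : Fin 2 → Polynomial ℂ} (deg : ∀ i, (g i).natDegree ≤ r)
    (top : ∃ i, (g i).natDegree = r) (cop : IsCoprime (g 0) (g 1)) :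
    IsRelPrime (fafg r (g 0) a b) (fafg r (g 1) a b) := by
  obtain ⟨u, v, huv⟩ := cop
  obtain ⟨j, hj⟩ := top
  set N := max u.natDegree v.natDegree
  have h1 : fafg N u a b * fafg r (g 0) a b + fafg N v a b * fafg r (g 1) a b = a ^ (N + r) := by
    rw [← fafg_mul (le_max_left _ _) (deg 0), ← fafg_mul (le_max_right _ _) (deg 1), ← fafg_add,
      huv, fafg_one]
  intro d hd0 hd1
  have h2 : d ∣ a ^ (N + r) := h1 ▸ dvd_add (hd0.mul_left _) (hd1.mul_left _)
  obtain ⟨i, hi, hia⟩ := (dvd_prime_pow ha _).1 h2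
  rcases Nat.eq_zero_or_pos i with h0 | h0
  · subst h0
    rw [pow_zero] at hia
    exact associated_one_iff_isUnit.1 hia
  · exfalso
    have h3 : a ∣ d := (dvd_pow_self a h0.ne').trans hia.symm.dvd
    have h4 : a ∣ fafg r (g j) a b := by
      fin_cases j
      · exact h3.trans hd0
      · exact h3.trans hd1
    rw [fafg_eq, Finset.sum_range_succ, Nat.sub_self, pow_zero, mul_one] at h4
    have h5 : a ∣ ∑ i ∈ Finset.range r, C ((g j).coeff i) * a ^ (r - i) * b ^ i := by
      apply Finset.dvd_sum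
      intro i hi
      have : r - i ≠ 0 := by have := Finset.mem_range.1 hi; omega
      exact ((dvd_pow_self a this).mul_left _).mul_right _
    have h6 := (dvd_add_right h5).1 h4
    have hg0 : (g j).coeff r ≠ 0 := by
      rw [← hj, Polynomial.coeff_natDegree]
      apply Polynomial.leadingCoeff_ne_zero.2
      rintro h
      rw [h, Polynomial.natDegree_zero] at hj
      omega
    rcases ha.dvd_or_dvd h6 with h7 | h7
    · have : IsUnit (C ((g j).coeff r) : P3) := (isUnit_iff_ne_zero.2 hg0).map C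
      exact ha.not_isUnit (isUnit_of_dvd_unit h7 this)
    · exact hab (ha.dvd_of_dvd_pow h7)

private lemma fa_homf {p q : P3} {a b n : ℕ} (hn : a + b = n) (h : (p * q).IsHomogeneous n)
    (hq : q.IsHomogeneous b) (hq0 : q ≠ 0) : p.IsHomogeneous a := by
  have h1 : p * q = homogeneousComponent a p * q := by
    conv_lhs => rw [← homogeneousComponent_eq_self h]
    conv_lhs => rw [← sum_homogeneousComponent p, Finset.sum_mul, map_sum]
    have : ∀ k ∈ Finset.range (p.totalDegree + 1),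
        homogeneousComponent n (homogeneousComponent k p * q) =
        if k = a then homogeneousComponent a p * q else 0 := by
      intro k hk
      rw [homogeneousComponent_of_mem ((homogeneousComponent_isHomogeneous k p).mul hq)]
      by_cases hka : k = a
      · subst hka; simp [hn]
      · rw [if_neg hka, if_neg (by omega)]
    rw [Finset.sum_congr rfl this, Finset.sum_ite_eq']
    split_ifs with h2
    · rfl
    · rw [Finset.mem_range, not_lt] at h2
      rw [homogeneousComponent_eq_zero _ _ (by omega), zero_mul]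
  rw [mul_right_cancel₀ hq0 h1]
  exact homogeneousComponent_isHomogeneous _ _

private lemma fafg_back {r : ℕ} {p : Polynomial ℂ} (hp : p.natDegree ≤ r) {a b : P3}
    (φ : P3 →ₐ[ℂ] Polynomial ℂ) (ha : φ a = 1) (hb : φ b = Polynomial.X) :
    φ (fafg r p a b) = p := by
  unfold fafg
  rw [← AlgHom.comp_apply]
  have : φ.comp (aeval ![b, a]) = aeval ![Polynomial.X, 1] := by
    apply algHom_ext
    intro i
    fin_cases i
    · simpa using hb
    · simpa using ha
  rw [this]
  exact Polynomial.aeval_homogenize_X_one p hp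

private lemma fafg_ne {r : ℕ} {p : Polynomial ℂ} (hp : p.natDegree ≤ r) {a b : P3}
    (φ : P3 →ₐ[ℂ] Polynomial ℂ) (ha : φ a = 1) (hb : φ b = Polynomial.X) (h0 : p ≠ 0) :
    fafg r p a b ≠ 0 := by
  intro h
  apply h0
  rw [← fafg_back hp φ ha hb, h, map_zero]

private lemma fa_nd {P : P3} {n : ℕ} (hP : P.IsHomogeneous n) : (r0 P).natDegree ≤ n := by
  have := aeval_natDegree_le P hP.totalDegree_le ![(0 : Polynomial ℂ), 1, Polynomial.X]
    (n := 1) (by intro i; fin_cases i <;> simp)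
  simpa [r0] using this

private lemma fa_ev (w : V3) (a b : P3) (P : P3) :
    eval w (aeval ![0, a, b] P) = eval ![0, eval w a, eval w b] P := by
  have : (aeval w).comp (aeval ![(0 : P3), a, b]) =
      (aeval ![0, eval w a, eval w b] : P3 →ₐ[ℂ] ℂ) := by
    apply algHom_ext
    intro i
    fin_cases i <;> simp
  have := DFunLike.congr_fun this P
  simpa [coe_aeval_eq_eval] using this

/-- F1 -/
theorem exists_FA {A At : Fin 2 → P3} (homA : ∀ i, (A i).IsHomogeneous 6)
    (homAt : ∀ i, (At i).IsHomogeneous 6)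
    (h : ∀ z w : V3, z ⬝ᵥ w = 0 → z 0 * w 0 = 0 → ∑ i, eval z (A i) * eval w (At i) = 0)
    (indA : ∀ α : Fin 2 → ℂ, X 0 ∣ ∑ i, C (α i) * A i → α = 0)
    (indAt : ∀ α : Fin 2 → ℂ, X 0 ∣ ∑ i, C (α i) * At i → α = 0) :
    ∃ r g m mt, FA r g m mt A At := by
  classical
  have hf : ∀ α : Fin 2 → ℂ, ∑ i, Polynomial.C (α i) * r0 (A i) = 0 → α = 0 := by
    intro α hα
    apply indA
    refine fa_dvd (n := 6) ?_ ?_
    · refine IsHomogeneous.sum _ _ _ fun i _ => ?_
      simpa using (isHomogeneous_C (Fin 3) (α i)).mul (homA i)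
    · rw [← hα, map_sum]
      refine Finset.sum_congr rfl fun i _ => ?_
      rw [map_mul]
      congr 1
      unfold r0
      rw [aeval_C]
      rfl
  have hf1 : r0 (A 1) ≠ 0 := by
    intro h0
    have := hf ![0, 1] (by simp [Fin.sum_univ_two, h0])
    simpa using congrFun this 1
  -- the common factor
  obtain ⟨β, g, hβ0, hfg, cop⟩ : ∃ (β : Polynomial ℂ) (g : Fin 2 → Polynomial ℂ), β ≠ 0 ∧
      (∀ i, r0 (A i) = β * g i) ∧ IsCoprime (g 0) (g 1) := by
    have hβ0 : EuclideanDomain.gcd (r0 (A 0)) (r0 (A 1)) ≠ 0 := by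
      intro h0
      exact hf1 ((EuclideanDomain.gcd_eq_zero_iff.1 h0).2)
    obtain ⟨g0, h0⟩ := EuclideanDomain.gcd_dvd_left (r0 (A 0)) (r0 (A 1))
    obtain ⟨g1, h1⟩ := EuclideanDomain.gcd_dvd_right (r0 (A 0)) (r0 (A 1))
    have h2 := EuclideanDomain.gcd_eq_gcd_ab (r0 (A 0)) (r0 (A 1))
    refine ⟨_, ![g0, g1], hβ0, ?_, ?_⟩
    · intro i
      fin_cases i
      · exact h0
      · exact h1
    · refine ⟨EuclideanDomain.gcdA (r0 (A 0)) (r0 (A 1)),
        EuclideanDomain.gcdB (r0 (A 0)) (r0 (A 1)), ?_⟩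
      apply mul_left_cancel₀ hβ0
      simp only [Matrix.cons_val_zero, Matrix.cons_val_one]
      rw [mul_one]
      calc _ = r0 (A 0) * EuclideanDomain.gcdA (r0 (A 0)) (r0 (A 1)) +
          r0 (A 1) * EuclideanDomain.gcdB (r0 (A 0)) (r0 (A 1)) := by
            linear_combination (-EuclideanDomain.gcdA (r0 (A 0)) (r0 (A 1))) * h0 -
              EuclideanDomain.gcdB (r0 (A 0)) (r0 (A 1)) * h1
        _ = _ := h2.symm
  obtain ⟨r, deg, top⟩ : ∃ r : ℕ, (∀ i, (g i).natDegree ≤ r) ∧ ∃ i, (g i).natDegree = r := by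
    refine ⟨max (g 0).natDegree (g 1).natDegree, ?_, ?_⟩
    · intro i
      fin_cases i
      · exact le_max_left _ _
      · exact le_max_right _ _
    · rcases max_choice (g 0).natDegree (g 1).natDegree with h0 | h0
      · exact ⟨0, h0.symm⟩
      · exact ⟨1, h0.symm⟩
  have r1 : 1 ≤ r := by
    by_contra hlt
    have h0 : r = 0 := by omega
    have c0 := Polynomial.eq_C_of_natDegree_eq_zero (Nat.le_zero.1 ((deg 0).trans h0.le))
    have c1 := Polynomial.eq_C_of_natDegree_eq_zero (Nat.le_zero.1 ((deg 1).trans h0.le))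
    have h1 := hf ![(g 1).coeff 0, -(g 0).coeff 0] (by
      rw [Fin.sum_univ_two, hfg, hfg, c0, c1]
      simp
      ring)
    have h2 : (g 1).coeff 0 = 0 := by simpa using congrFun h1 0
    have h3 : r0 (A 1) = 0 := by rw [hfg, c1, h2]; simp
    exact hf1 h3
  have hβr : β.natDegree + r ≤ 6 := by
    obtain ⟨i, hi⟩ := top
    have hgi : g i ≠ 0 := by
      intro h0
      rw [h0, Polynomial.natDegree_zero] at hi
      omega
    have := fa_nd (homA i)
    rwa [hfg, Polynomial.natDegree_mul hβ0 hgi, hi] at this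
  have hg1 : g 1 ≠ 0 := by
    intro h0
    exact hf1 (by rw [hfg, h0, mul_zero])
  have hres : ∀ (i : Fin 2) (a b : P3), aeval ![0, a, b] (A i) =
      fafg (6 - r) β a b * fafg r (g i) a b := by
    intro i a b
    rw [fa_res (homA i), hfg, ← fafg_mul (by omega) (deg i)]
    congr 1
    omega
  -- step 1
  have e1 : (aeval ![(0 : Polynomial ℂ), -Polynomial.X, 1] : P3 →ₐ[ℂ] Polynomial ℂ) (X 2) = 1 := by
    simp
  have e2 : (aeval ![(0 : Polynomial ℂ), -Polynomial.X, 1] : P3 →ₐ[ℂ] Polynomial ℂ) (-X 1) =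
      Polynomial.X := by simp
  have e3 : (aeval ![(0 : Polynomial ℂ), 1, Polynomial.X] : P3 →ₐ[ℂ] Polynomial ℂ) (X 1) = 1 := by
    simp
  have e4 : (aeval ![(0 : Polynomial ℂ), 1, Polynomial.X] : P3 →ₐ[ℂ] Polynomial ℂ) (X 2) =
      Polynomial.X := by simp
  have e5 : (aeval ![(0 : Polynomial ℂ), Polynomial.X, -1] : P3 →ₐ[ℂ] Polynomial ℂ) (-X 2) = 1 := by
    simp
  have e6 : (aeval ![(0 : Polynomial ℂ), Polynomial.X, -1] : P3 →ₐ[ℂ] Polynomial ℂ) (X 1) =
      Polynomial.X := by simp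
  have s1 : hgt r (g 0) * At 0 + hgt r (g 1) * At 1 = 0 := by
    have h1 : fafg (6 - r) β (X 2) (-X 1) * (hgt r (g 0) * At 0 + hgt r (g 1) * At 1) = 0 := by
      have h2 : aeval ![0, X 2, -X 1] (A 0) * At 0 + aeval ![0, X 2, -X 1] (A 1) * At 1 =
          (0 : P3) := by
        apply MvPolynomial.funext
        intro w
        have h3 := h ![0, w 2, -w 1] w (by simp [dotProduct, Fin.sum_univ_three]; ring) (by simp)
        rw [Fin.sum_univ_two] at h3
        rw [map_zero, ← h3, map_add, map_mul, map_mul, fa_ev, fa_ev]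
        simp
      rw [hres, hres] at h2
      rw [fahgt, fahgt]
      linear_combination h2
    exact (mul_eq_zero.1 h1).resolve_left (fafg_ne (by omega) _ e1 e2 hβ0)
  have rel : IsRelPrime (hgt r (g 0)) (hgt r (g 1)) := by
    rw [fahgt, fahgt]
    refine fa_rel X_prime ?_ r1 deg top cop
    rw [dvd_neg, X_dvd_X]
    decide
  have rel' : IsRelPrime (hg r (g 0)) (hg r (g 1)) := by
    rw [fahg, fahg]
    refine fa_rel X_prime ?_ r1 deg top cop
    rw [X_dvd_X]
    decide
  have hgt1 : hgt r (g 1) ≠ 0 := by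
    rw [fahgt]
    exact fafg_ne (deg 1) _ e1 e2 hg1
  have hg1' : hg r (g 1) ≠ 0 := by
    rw [fahg]
    exact fafg_ne (deg 1) _ e3 e4 hg1
  obtain ⟨mt, hm0, hm1⟩ : ∃ mt, At 0 = -(mt * hgt r (g 1)) ∧ At 1 = mt * hgt r (g 0) := by
    have h1 : hgt r (g 1) ∣ hgt r (g 0) * At 0 := ⟨-At 1, by linear_combination s1⟩
    obtain ⟨q, hq⟩ := rel.symm.dvd_of_dvd_mul_left h1
    refine ⟨-q, by rw [hq]; ring, ?_⟩
    apply mul_left_cancel₀ hgt1
    rw [hq] at s1
    linear_combination s1
  have hhgt : ∀ p, (hgt r p).IsHomogeneous r := by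
    intro p
    rw [fahgt]
    exact fafg_hom _ _ (isHomogeneous_X _ _) (isHomogeneous_X _ _).neg
  have hhg : ∀ p, (hg r p).IsHomogeneous r := by
    intro p
    rw [fahg]
    exact fafg_hom _ _ (isHomogeneous_X _ _) (isHomogeneous_X _ _)
  have hommt : mt.IsHomogeneous (6 - r) := by
    refine fa_homf (n := 6) (b := r) (by omega) ?_ (hhgt (g 1)) hgt1
    have : mt * hgt r (g 1) = - At 0 := by rw [hm0, neg_neg]
    rw [this]
    exact (homAt 0).neg
  have nmt : ¬ (X 0 : P3) ∣ mt := by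
    intro h0
    have h1 := indAt ![1, 0] (by
      have : ∑ i, C (![(1 : ℂ), 0] i) * At i = At 0 := by simp [Fin.sum_univ_two]
      rw [this, hm0]
      exact (h0.mul_right _).neg_right)
    simpa using congrFun h1 0
  -- step 2
  have s2 : A 1 * hg r (g 0) = A 0 * hg r (g 1) := by
    have h1 : aeval ![0, -X 2, X 1] mt * (A 1 * hg r (g 0) - A 0 * hg r (g 1)) = (0 : P3) := by
      apply MvPolynomial.funext
      intro z
      have h3 := h z ![0, -z 2, z 1] (by simp [dotProduct, Fin.sum_univ_three]; ring) (by simp)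
      have h4 : ∀ p, eval ![0, -z 2, z 1] (hgt r p) = eval z (hg r p) := by
        intro p
        unfold hgt hg
        simp
      rw [Fin.sum_univ_two, hm0, hm1, map_neg, map_mul, map_mul, h4, h4] at h3
      rw [map_zero, map_mul, map_sub, map_mul, map_mul, fa_ev]
      simp only [map_neg, eval_X]
      linear_combination h3
    have h2 : aeval ![0, -X 2, X 1] mt ≠ (0 : P3) := by
      rw [fa_res hommt]
      refine fafg_ne (fa_nd hommt) _ e5 e6 ?_
      intro h0
      exact nmt (fa_dvd hommt h0)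
    exact sub_eq_zero.1 ((mul_eq_zero.1 h1).resolve_left h2)
  obtain ⟨m, hA0, hA1⟩ : ∃ m, A 0 = m * hg r (g 0) ∧ A 1 = m * hg r (g 1) := by
    have h1 : hg r (g 1) ∣ hg r (g 0) * A 1 := ⟨A 0, by linear_combination s2⟩
    obtain ⟨q, hq⟩ := rel'.symm.dvd_of_dvd_mul_left h1
    refine ⟨q, ?_, by rw [hq]; ring⟩
    apply mul_left_cancel₀ hg1'
    rw [hq] at s2
    linear_combination -s2
  refine ⟨r, g, m, mt, r1, by omega, deg, top, cop, ?_, hommt, ?_, nmt, ?_, hm0, hm1⟩
  · refine fa_homf (n := 6) (b := r) (by omega) ?_ (hhg (g 1)) hg1'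
    rw [← hA1]
    exact homA 1
  · intro h0
    have h1 := indA ![1, 0] (by
      have : ∑ i, C (![(1 : ℂ), 0] i) * A i = A 0 := by simp [Fin.sum_univ_two]
      rw [this, hA0]
      exact h0.mul_right _)
    simpa using congrFun h1 0
  · intro i
    fin_cases i
    · exact hA0
    · exact hA1

end Pool.Agent.Lib_helper86.D24

end

section

namespace Pool.Agent.Lib_helper86.D24

open MvPolynomial Matrix


/-- F2 (uses WR2, OD): the Wronskian of the reduced pencil -/
theorem exists_rho {f0 f1 β b g0 g1 : Polynomial ℂ} {r : ℕ}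
    (h0 : f0 = β * g0) (h1 : f1 = β * g1) (hβ : β ≠ 0) (hc : IsCoprime g0 g1)
    (hd0 : g0.natDegree ≤ r) (hd1 : g1.natDegree ≤ r)
    (hr : g0.natDegree = r ∨ g1.natDegree = r) (hr1 : 1 ≤ r) (hb : b ≠ 0)
    (h : 2 * wr f0 f1 * Polynomial.derivative b = Polynomial.derivative (wr f0 f1) * b) :
    ∃ (ρ : Polynomial ℂ) (κ : ℂ), κ ≠ 0 ∧ ρ ≠ 0 ∧ ρ.natDegree + 1 ≤ r ∧ b = β * ρ ∧
      wr g0 g1 = Polynomial.C κ * ρ ^ 2 := by
  have hW : wr f0 f1 = β ^ 2 * wr g0 g1 := by
    unfold wr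
    rw [h0, h1, Polynomial.derivative_mul, Polynomial.derivative_mul]
    ring
  obtain ⟨κ, hκ⟩ := ode (wr f0 f1) b hb h
  have hw0 : wr g0 g1 ≠ 0 := by
    intro hw
    by_cases hg1 : g1 = 0
    · rw [hg1, isCoprime_zero_right] at hc
      have e0 := Polynomial.natDegree_eq_zero_of_isUnit hc
      rw [hg1, Polynomial.natDegree_zero] at hr
      omega
    · obtain ⟨c, hcc⟩ := wr2 g0 g1 hg1 hw
      have hu : IsUnit g1 := by
        rw [hcc] at hc
        exact hc.isUnit_of_dvd' (Dvd.intro_left _ rfl) dvd_rfl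
      have e1 := Polynomial.natDegree_eq_zero_of_isUnit hu
      have e0 : g0.natDegree = 0 := by
        have := Polynomial.natDegree_mul_le (p := Polynomial.C c) (q := g1)
        rw [← hcc, Polynomial.natDegree_C, e1] at this
        omega
      omega
  have key : β ^ 2 * wr g0 g1 = Polynomial.C κ * b ^ 2 := by rw [← hW, hκ]
  have hβ2 : β ^ 2 ≠ 0 := pow_ne_zero 2 hβ
  have hκ0 : κ ≠ 0 := by
    intro hk
    rw [hk, Polynomial.C_0, zero_mul] at key
    exact (mul_ne_zero hβ2 hw0) key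
  have hdvd : β ∣ b := by
    have h2 : β ^ 2 ∣ b ^ 2 := by
      refine ⟨Polynomial.C κ⁻¹ * wr g0 g1, ?_⟩
      have hC : Polynomial.C κ⁻¹ * Polynomial.C κ = (1 : Polynomial ℂ) := by
        rw [← Polynomial.C_mul, inv_mul_cancel₀ hκ0, Polynomial.C_1]
      calc b ^ 2 = Polynomial.C κ⁻¹ * Polynomial.C κ * b ^ 2 := by rw [hC, one_mul]
        _ = Polynomial.C κ⁻¹ * (β ^ 2 * wr g0 g1) := by rw [key]; ring
        _ = β ^ 2 * (Polynomial.C κ⁻¹ * wr g0 g1) := by ring
    exact (IsIntegrallyClosed.pow_dvd_pow_iff two_ne_zero).1 h2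
  obtain ⟨ρ, hρ⟩ := hdvd
  have hρ0 : ρ ≠ 0 := by
    rintro rfl
    rw [mul_zero] at hρ
    exact hb hρ
  have hwr : wr g0 g1 = Polynomial.C κ * ρ ^ 2 := by
    apply mul_left_cancel₀ hβ2
    rw [key, hρ]
    ring
  refine ⟨ρ, κ, hκ0, hρ0, ?_, hρ, hwr⟩
  have hwW : Polynomial.wronskian g0 g1 = wr g0 g1 := by
    unfold Polynomial.wronskian wr
    ring
  have hlt := Polynomial.natDegree_wronskian_lt_add (a := g0) (b := g1) (by rw [hwW]; exact hw0)
  rw [hwW, hwr, Polynomial.natDegree_C_mul hκ0, Polynomial.natDegree_pow] at hlt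
  omega

end Pool.Agent.Lib_helper86.D24

end

section

namespace Pool.Agent.Lib_helper86.D24

open MvPolynomial Matrix


private lemma F3_smul {P : P3} {n : ℕ} (hP : P.IsHomogeneous n) (c : ℂ) (z : V3) :
    eval (c • z) P = c ^ n * eval z P := by
  rw [MvPolynomial.eval_eq', MvPolynomial.eval_eq', Finset.mul_sum]
  refine Finset.sum_congr rfl fun d hd => ?_
  have hdeg : ∑ i, d i = n := by
    have := hP (MvPolynomial.mem_support_iff.1 hd)
    rw [Finsupp.weight_apply, Finsupp.sum_fintype _ _ (by simp)] at this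
    simpa using this
  have : ∏ i, (c • z) i ^ d i = c ^ n * ∏ i, z i ^ d i := by
    simp only [Pi.smul_apply, smul_eq_mul, mul_pow, Finset.prod_mul_distrib]
    rw [Finset.prod_pow_eq_pow_sum, hdeg]
  rw [this]; ring

private lemma F3_hg {r : ℕ} {g : Polynomial ℂ} (hg' : g.natDegree ≤ r) (z : V3) (h1 : z 1 = 1) :
    eval z (hg r g) = g.eval (z 2) := by
  rw [Polynomial.eval_eq_sum_range' (Nat.lt_succ_of_le hg')]
  simp [hg, h1]

private lemma F3_hgt {r : ℕ} {g : Polynomial ℂ} (hg' : g.natDegree ≤ r) (z : V3) (h1 : z 2 = 1) :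
    eval z (hgt r g) = g.eval (-z 1) := by
  rw [Polynomial.eval_eq_sum_range' (Nat.lt_succ_of_le hg')]
  simp [hgt, h1]

private lemma F3_hg_hom (r : ℕ) (g : Polynomial ℂ) : (hg r g).IsHomogeneous r := by
  unfold hg
  refine MvPolynomial.IsHomogeneous.sum _ _ _ fun i hi => ?_
  have hi' : i ≤ r := Nat.lt_succ_iff.1 (Finset.mem_range.1 hi)
  have := ((MvPolynomial.isHomogeneous_C (Fin 3) (g.coeff i)).mul
    (MvPolynomial.isHomogeneous_X_pow (R := ℂ) (1 : Fin 3) (r - i))).mul
    (MvPolynomial.isHomogeneous_X_pow (R := ℂ) (2 : Fin 3) i)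
  convert this using 1
  omega

private lemma F3_hgt_hom (r : ℕ) (g : Polynomial ℂ) : (hgt r g).IsHomogeneous r := by
  unfold hgt
  refine MvPolynomial.IsHomogeneous.sum _ _ _ fun i hi => ?_
  have hi' : i ≤ r := Nat.lt_succ_iff.1 (Finset.mem_range.1 hi)
  have := ((MvPolynomial.isHomogeneous_C (Fin 3) (g.coeff i)).mul
    (MvPolynomial.isHomogeneous_X_pow (R := ℂ) (2 : Fin 3) (r - i))).mul
    ((MvPolynomial.isHomogeneous_X ℂ (1 : Fin 3)).neg.pow i)
  convert this using 1
  omega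

/-- equality off a proper closed set -/
private lemma F3_ext {f g P : P3} (hP : P ≠ 0) (h : ∀ w, eval w P ≠ 0 → eval w f = eval w g) :
    f = g := by
  have : P * (f - g) = 0 := by
    apply MvPolynomial.funext
    intro w
    rw [map_mul, map_sub, map_zero]
    by_cases hw : eval w P = 0
    · rw [hw, zero_mul]
    · rw [h w hw, sub_self, mul_zero]
  rcases mul_eq_zero.1 this with h | h
  · exact absurd h hP
  · exact sub_eq_zero.1 h

private lemma F3_dvd (p : P3) : (X 0 : P3) ∣ p - aeval ![(0 : P3), X 1, X 2] p := by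
  induction p using MvPolynomial.induction_on with
  | C a => simp
  | add p q hp hq =>
    have := dvd_add hp hq
    rw [map_add]
    convert this using 1
    ring
  | mul_X p i hp =>
    rw [map_mul, MvPolynomial.aeval_X]
    fin_cases i
    · simp
    · have := hp.mul_right (X 1)
      convert this using 1
      simp; ring
    · have := hp.mul_right (X 2)
      convert this using 1
      simp; ring

private lemma F3_eval_aeval (v : Fin 3 → Polynomial ℂ) (p : P3) (x : ℂ) :
    (aeval v p : Polynomial ℂ).eval x = eval (fun i => (v i).eval x) p := by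
  induction p using MvPolynomial.induction_on with
  | C a => simp
  | add p q hp hq => simp [hp, hq]
  | mul_X p i hp => simp [hp]

private lemma F3_evalP (v : Fin 3 → P3) (p : P3) (w : V3) :
    eval w (aeval v p : P3) = eval (fun i => eval w (v i)) p := by
  induction p using MvPolynomial.induction_on with
  | C a => simp
  | add p q hp hq => rw [map_add, map_add, hp, hq, map_add]
  | mul_X p i hp => rw [map_mul, map_mul, hp, map_mul, MvPolynomial.aeval_X, MvPolynomial.eval_X]

/-- if `X 0` does not divide a homogeneous `m`, then `m(0,1,x)` is not identically zero -/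
private lemma F3_nz {m : P3} {n : ℕ} (hm : m.IsHomogeneous n) (h : ¬ X 0 ∣ m) :
    (aeval ![0, 1, Polynomial.X] m : Polynomial ℂ) ≠ 0 := by
  intro h0
  apply h
  have h1 : aeval ![(0 : P3), X 1, X 2] m = 0 := by
    refine F3_ext (P := X 1) (MvPolynomial.X_ne_zero _) fun w hw => ?_
    rw [MvPolynomial.eval_X] at hw
    rw [F3_evalP, map_zero]
    have e1 : (fun i => eval w ((![(0 : P3), X 1, X 2] : Fin 3 → P3) i)) =
        w 1 • (fun i => ((![0, 1, Polynomial.X] : Fin 3 → Polynomial ℂ) i).eval (w 2 / w 1)) := by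
      funext i
      fin_cases i
      · simp
      · simp
      · simp; field_simp
    rw [e1, F3_smul hm, ← F3_eval_aeval, h0]
    simp
  have := F3_dvd m
  rwa [h1, sub_zero] at this

private lemma F3_nzt {m : P3} {n : ℕ} (hm : m.IsHomogeneous n) (h : ¬ X 0 ∣ m) :
    (aeval ![0, -Polynomial.X, 1] m : Polynomial ℂ) ≠ 0 := by
  intro h0
  apply h
  have h1 : aeval ![(0 : P3), X 1, X 2] m = 0 := by
    refine F3_ext (P := X 2) (MvPolynomial.X_ne_zero _) fun w hw => ?_
    rw [MvPolynomial.eval_X] at hw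
    rw [F3_evalP, map_zero]
    have e1 : (fun i => eval w ((![(0 : P3), X 1, X 2] : Fin 3 → P3) i)) =
        w 2 • (fun i => ((![0, -Polynomial.X, 1] : Fin 3 → Polynomial ℂ) i).eval (-w 1 / w 2)) := by
      funext i
      fin_cases i
      · simp
      · simp; field_simp
      · simp
    rw [e1, F3_smul hm, ← F3_eval_aeval, h0]
    simp
  have := F3_dvd m
  rwa [h1, sub_zero] at this

/-- the key limit -/
private lemma F3_lim {A : Fin 2 → P3} {b : P3} {c : Fin 2 → P3} {At : Fin 2 → P3} {bt : P3}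
    {ct : Fin 2 → P3} (h : NP A b c At bt ct) {r : ℕ} {g : Fin 2 → Polynomial ℂ} {m mt : P3}
    (hF : FA r g m mt A At) (x t u : ℂ) :
    eval ![t, 1, x] m * eval ![u, -(x + t * u), 1] mt *
      ((g 0).eval x * (g 1).eval (x + t * u) - (g 1).eval x * (g 0).eval (x + t * u)) =
    (t * u) * (eval ![t, 1, x] b * eval ![u, -(x + t * u), 1] bt) +
      (t * u) ^ 3 * ∑ i, eval ![t, 1, x] (c i) * eval ![u, -(x + t * u), 1] (ct i) := by
  have ho := h.orth ![t, 1, x] ![u, -(x + t * u), 1] (by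
    simp [dotProduct, Fin.sum_univ_three])
  rw [Fin.sum_univ_two, hF.hA 0, hF.hA 1, hF.hAt0, hF.hAt1] at ho
  simp only [map_mul, map_neg] at ho
  rw [F3_hg (hF.deg 0) _ (by simp), F3_hg (hF.deg 1) _ (by simp),
    F3_hgt (hF.deg 0) _ (by simp), F3_hgt (hF.deg 1) _ (by simp)] at ho
  simp only [Matrix.cons_val, neg_neg] at ho
  have e0 : (![t, 1, x] : V3) 0 = t := rfl
  have e1 : (![u, -(x + t * u), 1] : V3) 0 = u := rfl
  linear_combination -ho

open Filter Topology in
private lemma F3_slope (g0 g1 : Polynomial ℂ) (x u : ℂ) :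
    Tendsto (fun t : ℂ => t⁻¹ * (g0.eval x * g1.eval (x + t * u) - g1.eval x * g0.eval (x + t * u)))
      (𝓝[≠] 0) (𝓝 (u * (wr g0 g1).eval x)) := by
  have hd : ∀ p : Polynomial ℂ, HasDerivAt (fun t : ℂ => p.eval (x + t * u))
      (p.derivative.eval x * u) 0 := by
    intro p
    have h1 : HasDerivAt (fun t : ℂ => x + t * u) u 0 := by
      simpa using ((hasDerivAt_id (0 : ℂ)).mul_const u).const_add x
    have h0 : HasDerivAt (fun y : ℂ => p.eval y) (p.derivative.eval x) (x + 0 * u) := by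
      rw [zero_mul, add_zero]; exact p.hasDerivAt x
    exact HasDerivAt.comp (0 : ℂ) h0 h1
  have h3 := ((hd g1).const_mul (g0.eval x)).sub ((hd g0).const_mul (g1.eval x))
  rw [hasDerivAt_iff_tendsto_slope_zero] at h3
  have e : g0.eval x * (g1.derivative.eval x * u) - g1.eval x * (g0.derivative.eval x * u) =
      u * (wr g0 g1).eval x := by
    simp [wr]; ring
  rw [e] at h3
  refine h3.congr fun t => ?_
  simp; left; ring

private lemma F3_cont1 (p : P3) (x : ℂ) : Continuous fun t : ℂ => eval ![t, 1, x] p :=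
  (MvPolynomial.continuous_eval p).comp (by fun_prop)

private lemma F3_cont2 (p : P3) (x u : ℂ) :
    Continuous fun t : ℂ => eval ![u, -(x + t * u), 1] p :=
  (MvPolynomial.continuous_eval p).comp (by fun_prop)

private lemma F3_cont3 (p : P3) (x t : ℂ) :
    Continuous fun u : ℂ => eval ![u, -(x + u * t), 1] p :=
  (MvPolynomial.continuous_eval p).comp (by fun_prop)

open Filter Topology in
private lemma F3_t0 {A : Fin 2 → P3} {b : P3} {c : Fin 2 → P3} {At : Fin 2 → P3} {bt : P3}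
    {ct : Fin 2 → P3} (h : NP A b c At bt ct) {r : ℕ} {g : Fin 2 → Polynomial ℂ} {m mt : P3}
    (hF : FA r g m mt A At) (x u : ℂ) (hu : u ≠ 0) :
    eval ![0, 1, x] m * eval ![u, -x, 1] mt * (wr (g 0) (g 1)).eval x =
      eval ![0, 1, x] b * eval ![u, -x, 1] bt := by
  have h1 : Tendsto (fun t : ℂ => (eval ![t, 1, x] m * eval ![u, -(x + t * u), 1] mt) *
      (t⁻¹ * ((g 0).eval x * (g 1).eval (x + t * u) - (g 1).eval x * (g 0).eval (x + t * u))))
      (𝓝[≠] 0) (𝓝 ((eval ![0, 1, x] m * eval ![u, -(x + 0 * u), 1] mt) *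
        (u * (wr (g 0) (g 1)).eval x))) :=
    ((((F3_cont1 m x).mul (F3_cont2 mt x u)).tendsto 0).mono_left nhdsWithin_le_nhds).mul
      (F3_slope (g 0) (g 1) x u)
  have h2 : Tendsto (fun t : ℂ => u * (eval ![t, 1, x] b * eval ![u, -(x + t * u), 1] bt) +
      t ^ 2 * u ^ 3 * ∑ i, eval ![t, 1, x] (c i) * eval ![u, -(x + t * u), 1] (ct i))
      (𝓝[≠] 0) (𝓝 (u * (eval ![0, 1, x] b * eval ![u, -(x + 0 * u), 1] bt) +
      0 ^ 2 * u ^ 3 * ∑ i, eval ![0, 1, x] (c i) * eval ![u, -(x + 0 * u), 1] (ct i))) := by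
    refine (Continuous.tendsto ?_ 0).mono_left nhdsWithin_le_nhds
    refine (continuous_const.mul ((F3_cont1 b x).mul (F3_cont2 bt x u))).add
      (((continuous_id.pow 2).mul continuous_const).mul ?_)
    exact continuous_finsetSum _ fun i _ => (F3_cont1 (c i) x).mul (F3_cont2 (ct i) x u)
  have h3 := tendsto_nhds_unique_of_eventuallyEq h1 h2 (by
    filter_upwards [self_mem_nhdsWithin] with t ht
    have ht' : t ≠ 0 := ht
    have := F3_lim h hF x t u
    field_simp
    linear_combination this)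
  simp only [zero_mul, add_zero] at h3
  have h4 := mul_left_cancel₀ hu (b := eval ![0, 1, x] m * eval ![u, -x, 1] mt *
    (wr (g 0) (g 1)).eval x) (c := eval ![0, 1, x] b * eval ![u, -x, 1] bt) (by
      linear_combination h3)
  exact h4

open Filter Topology in
private lemma F3_u0 {A : Fin 2 → P3} {b : P3} {c : Fin 2 → P3} {At : Fin 2 → P3} {bt : P3}
    {ct : Fin 2 → P3} (h : NP A b c At bt ct) {r : ℕ} {g : Fin 2 → Polynomial ℂ} {m mt : P3}
    (hF : FA r g m mt A At) (x t : ℂ) (ht : t ≠ 0) :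
    eval ![t, 1, x] m * eval ![0, -x, 1] mt * (wr (g 0) (g 1)).eval x =
      eval ![t, 1, x] b * eval ![0, -x, 1] bt := by
  have h1 : Tendsto (fun u : ℂ => (eval ![t, 1, x] m * eval ![u, -(x + u * t), 1] mt) *
      (u⁻¹ * ((g 0).eval x * (g 1).eval (x + u * t) - (g 1).eval x * (g 0).eval (x + u * t))))
      (𝓝[≠] 0) (𝓝 ((eval ![t, 1, x] m * eval ![0, -(x + 0 * t), 1] mt) *
        (t * (wr (g 0) (g 1)).eval x))) :=
    (((continuous_const.mul (F3_cont3 mt x t)).tendsto 0).mono_left nhdsWithin_le_nhds).mul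
      (F3_slope (g 0) (g 1) x t)
  have h2 : Tendsto (fun u : ℂ => t * (eval ![t, 1, x] b * eval ![u, -(x + u * t), 1] bt) +
      u ^ 2 * t ^ 3 * ∑ i, eval ![t, 1, x] (c i) * eval ![u, -(x + u * t), 1] (ct i))
      (𝓝[≠] 0) (𝓝 (t * (eval ![t, 1, x] b * eval ![0, -(x + 0 * t), 1] bt) +
      0 ^ 2 * t ^ 3 * ∑ i, eval ![t, 1, x] (c i) * eval ![0, -(x + 0 * t), 1] (ct i))) := by
    refine (Continuous.tendsto ?_ 0).mono_left nhdsWithin_le_nhds
    refine (continuous_const.mul (continuous_const.mul (F3_cont3 bt x t))).add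
      (((continuous_id.pow 2).mul continuous_const).mul ?_)
    exact continuous_finsetSum _ fun i _ => continuous_const.mul (F3_cont3 (ct i) x t)
  have h3 := tendsto_nhds_unique_of_eventuallyEq h1 h2 (by
    filter_upwards [self_mem_nhdsWithin] with u hu
    have hu' : u ≠ 0 := hu
    have := F3_lim h hF x t u
    rw [mul_comm t u] at this
    field_simp
    linear_combination this)
  simp only [zero_mul, add_zero] at h3
  have h4 := mul_left_cancel₀ ht (b := eval ![t, 1, x] m * eval ![0, -x, 1] mt *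
    (wr (g 0) (g 1)).eval x) (c := eval ![t, 1, x] b * eval ![0, -x, 1] bt) (by
      linear_combination h3)
  exact h4

/-- F3 -/
theorem b_eq {A : Fin 2 → P3} {b : P3} {c : Fin 2 → P3} {At : Fin 2 → P3} {bt : P3}
    {ct : Fin 2 → P3} (h : NP A b c At bt ct) {r : ℕ} {g : Fin 2 → Polynomial ℂ} {m mt : P3}
    (hF : FA r g m mt A At) {ρ : Polynomial ℂ} {κ : ℂ} (hP : Pen r g ρ κ)
    (hb : r0 b = r0 m * ρ) :
    b = m * hg (r - 1) ρ ∧ bt = C κ * mt * hgt (r - 1) ρ := by
  have hρ : ρ.natDegree ≤ r - 1 := by have := hP.degρ; omega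
  have hr1 : 1 ≤ r := hF.r1
  have hr6 : r ≤ 6 := hF.r6
  set q : Polynomial ℂ := aeval ![0, 1, Polynomial.X] m with hq
  set qt : Polynomial ℂ := aeval ![0, -Polynomial.X, 1] mt with hqt
  have hq0 : q ≠ 0 := F3_nz hF.homm hF.nm
  have hqt0 : qt ≠ 0 := F3_nzt hF.hommt hF.nmt
  have eq1 : ∀ x, eval ![0, 1, x] m = q.eval x := fun x => by
    rw [hq, F3_eval_aeval]
    congr 2; funext i; fin_cases i <;> simp
  have eqt1 : ∀ x, eval ![0, -x, 1] mt = qt.eval x := fun x => by
    rw [hqt, F3_eval_aeval]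
    congr 2; funext i; fin_cases i <;> simp
  have eb : ∀ x, eval ![0, 1, x] b = q.eval x * ρ.eval x := fun x => by
    have h1 : eval ![0, 1, x] b = (r0 b).eval x := by
      rw [r0, F3_eval_aeval]
      congr 2; funext i; fin_cases i <;> simp
    rw [h1, hb, Polynomial.eval_mul]; rfl
  -- the second identity on the chart
  have k1 : ∀ x u : ℂ, u ≠ 0 → q.eval x ≠ 0 → ρ.eval x ≠ 0 →
      eval ![u, -x, 1] bt = κ * eval ![u, -x, 1] mt * ρ.eval x := by
    intro x u hu h1 h2
    have := F3_t0 h hF x u hu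
    rw [eq1, eb, hP.wr, Polynomial.eval_mul, Polynomial.eval_C, Polynomial.eval_pow] at this
    apply mul_left_cancel₀ (mul_ne_zero h1 h2)
    linear_combination -this
  have k2 : bt = C κ * mt * hgt (r - 1) ρ := by
    have hne : (X 0 * X 2 * hgt (q * ρ).natDegree (q * ρ) : P3) ≠ 0 := by
      refine mul_ne_zero (mul_ne_zero (MvPolynomial.X_ne_zero _) (MvPolynomial.X_ne_zero _)) ?_
      intro h0
      have h1 : (q * ρ) ≠ 0 := mul_ne_zero hq0 hP.ρ0
      apply h1
      apply Polynomial.funext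
      intro x
      have := F3_hgt (le_refl (q * ρ).natDegree) ![0, -x, 1] (by simp)
      rw [h0] at this
      simpa using this.symm
    refine F3_ext hne fun w hw => ?_
    rw [map_mul, map_mul, MvPolynomial.eval_X, MvPolynomial.eval_X] at hw
    have hw0 : w 0 ≠ 0 := fun h0 => hw (by rw [h0]; ring)
    have hw2 : w 2 ≠ 0 := fun h0 => hw (by rw [h0]; ring)
    have hw3 : eval w (hgt (q * ρ).natDegree (q * ρ)) ≠ 0 := fun h0 => hw (by rw [h0]; ring)
    have ew : w = w 2 • (![w 0 / w 2, -(-w 1 / w 2), 1] : V3) := by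
      funext i
      fin_cases i
      · simp; field_simp
      · simp; field_simp
      · simp
    rw [ew, F3_smul (F3_hgt_hom _ _), F3_hgt le_rfl _ (by simp)] at hw3
    have hx := right_ne_zero_of_mul hw3
    simp only [Matrix.cons_val, neg_neg, Polynomial.eval_mul] at hx
    have := k1 (-w 1 / w 2) (w 0 / w 2) (div_ne_zero hw0 hw2) (left_ne_zero_of_mul hx)
      (right_ne_zero_of_mul hx)
    have e5 : (6 - r) + (r - 1) = 5 := by omega
    rw [map_mul, map_mul, MvPolynomial.eval_C]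
    conv_lhs => rw [ew]
    conv_rhs => rw [ew]
    rw [F3_smul h.hombt, F3_smul hF.hommt, F3_smul (F3_hgt_hom _ _), this,
      F3_hgt hρ _ (by simp)]
    simp only [Matrix.cons_val, neg_neg]
    rw [← e5, pow_add]
    ring
  refine ⟨?_, k2⟩
  have k3 : ∀ x t : ℂ, t ≠ 0 → qt.eval x ≠ 0 → ρ.eval x ≠ 0 →
      eval ![t, 1, x] b = eval ![t, 1, x] m * ρ.eval x := by
    intro x t ht h1 h2
    have := F3_u0 h hF x t ht
    rw [k2, map_mul, map_mul, MvPolynomial.eval_C, F3_hgt hρ _ (by simp), eqt1, hP.wr,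
      Polynomial.eval_mul, Polynomial.eval_C, Polynomial.eval_pow] at this
    simp only [Matrix.cons_val, neg_neg] at this
    apply mul_left_cancel₀ (mul_ne_zero (mul_ne_zero hP.κ0 h1) h2)
    linear_combination -this
  have hne : (X 0 * X 1 * hg (qt * ρ).natDegree (qt * ρ) : P3) ≠ 0 := by
    refine mul_ne_zero (mul_ne_zero (MvPolynomial.X_ne_zero _) (MvPolynomial.X_ne_zero _)) ?_
    intro h0
    have h1 : (qt * ρ) ≠ 0 := mul_ne_zero hqt0 hP.ρ0
    apply h1
    apply Polynomial.funext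
    intro x
    have := F3_hg (le_refl (qt * ρ).natDegree) ![0, 1, x] (by simp)
    rw [h0] at this
    simpa using this.symm
  refine F3_ext hne fun w hw => ?_
  rw [map_mul, map_mul, MvPolynomial.eval_X, MvPolynomial.eval_X] at hw
  have hw0 : w 0 ≠ 0 := fun h0 => hw (by rw [h0]; ring)
  have hw1 : w 1 ≠ 0 := fun h0 => hw (by rw [h0]; ring)
  have hw3 : eval w (hg (qt * ρ).natDegree (qt * ρ)) ≠ 0 := fun h0 => hw (by rw [h0]; ring)
  have ew : w = w 1 • (![w 0 / w 1, 1, w 2 / w 1] : V3) := by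
    funext i
    fin_cases i
    · simp; field_simp
    · simp
    · simp; field_simp
  rw [ew, F3_smul (F3_hg_hom _ _), F3_hg le_rfl _ (by simp)] at hw3
  have hx := right_ne_zero_of_mul hw3
  simp only [Matrix.cons_val, Polynomial.eval_mul] at hx
  have := k3 (w 2 / w 1) (w 0 / w 1) (div_ne_zero hw0 hw1) (left_ne_zero_of_mul hx)
    (right_ne_zero_of_mul hx)
  have e5 : (6 - r) + (r - 1) = 5 := by omega
  rw [map_mul]
  conv_lhs => rw [ew]
  conv_rhs => rw [ew]
  rw [F3_smul h.homb, F3_smul hF.homm, F3_smul (F3_hg_hom _ _), this, F3_hg hρ _ (by simp)]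
  simp only [Matrix.cons_val]
  rw [← e5, pow_add]
  ring

end Pool.Agent.Lib_helper86.D24

end

section

namespace Pool.Agent.Lib_helper86.D24

open MvPolynomial Matrix


/-- the values of `bf` in the chart `a ≠ 0` -/
theorem bF4_bf_ne {r : ℕ} {g : Polynomial ℂ} (hg : g.natDegree ≤ r) {a : ℂ} (ha : a ≠ 0) (b : ℂ) :
    bf r g a b = a ^ r * g.eval (b / a) := by
  unfold bf
  rw [Polynomial.eval_eq_sum_range' (Nat.lt_succ_of_le hg), Finset.mul_sum]
  refine Finset.sum_congr rfl fun i hi => ?_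
  have h1 : i ≤ r := Nat.lt_succ_iff.1 (Finset.mem_range.1 hi)
  have h2 : a ^ r = a ^ (r - i) * a ^ i := by rw [← pow_add, Nat.sub_add_cancel h1]
  rw [h2, div_pow]
  field_simp

theorem bF4_bh_ne {n : ℕ} (Γ : Matrix (Fin (n + 1)) (Fin (n + 1)) ℂ) {a c : ℂ} (ha : a ≠ 0)
    (hc : c ≠ 0) (b d : ℂ) : bh Γ a b c d = a ^ n * c ^ n *
      ∑ i : Fin (n + 1), ∑ j : Fin (n + 1), Γ i j * ((b / a) ^ (i : ℕ) * (d / c) ^ (j : ℕ)) := by
  unfold bh
  rw [Finset.mul_sum]
  refine Finset.sum_congr rfl fun i _ => ?_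
  rw [Finset.mul_sum]
  refine Finset.sum_congr rfl fun j _ => ?_
  have h1 : a ^ n = a ^ (n - (i : ℕ)) * a ^ (i : ℕ) := by
    rw [← pow_add, Nat.sub_add_cancel (Nat.lt_succ_iff.1 i.2)]
  have h2 : c ^ n = c ^ (n - (j : ℕ)) * c ^ (j : ℕ) := by
    rw [← pow_add, Nat.sub_add_cancel (Nat.lt_succ_iff.1 j.2)]
  rw [h1, h2, div_pow, div_pow]
  field_simp

/-- from the chart to everywhere -/
theorem bF4_ext {F : ℂ → ℂ → ℂ → ℂ → ℂ} (h1 : ∀ x2 y1 y2, Continuous fun x1 => F x1 x2 y1 y2)
    (h2 : ∀ x1 x2 y2, Continuous fun y1 => F x1 x2 y1 y2)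
    (h3 : ∀ x1 x2 y1 y2, x1 ≠ 0 → y1 ≠ 0 → F x1 x2 y1 y2 = 0) (x1 x2 y1 y2 : ℂ) :
    F x1 x2 y1 y2 = 0 := by
  have h4 : ∀ x1 x2 y1 y2, y1 ≠ 0 → F x1 x2 y1 y2 = 0 := by
    intro x1 x2 y1 y2 hy
    have h5 := Continuous.ext_on (dense_compl_singleton (0 : ℂ)) (h1 x2 y1 y2)
      (continuous_const (y := (0 : ℂ))) (fun x hx => h3 x x2 y1 y2 hx hy)
    exact congrFun h5 x1
  have h5 := Continuous.ext_on (dense_compl_singleton (0 : ℂ)) (h2 x1 x2 y2)
    (continuous_const (y := (0 : ℂ))) (fun y hy => h4 x1 x2 y y2 hy)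
  exact congrFun h5 y1

theorem bF4_cont_left (r : ℕ) (g : Polynomial ℂ) (b : ℂ) : Continuous fun a => bf r g a b := by
  unfold bf
  exact continuous_finsetSum _ fun i _ => by fun_prop

/-- a polynomial in two variables, divisible by `(y - x) ^ 3` -/
theorem bF4_div {r : ℕ} {g : Fin 2 → Polynomial ℂ} {ρ : Polynomial ℂ} {κ : ℂ}
    (h : Pen r g ρ κ) : ∃ Q : Polynomial (Polynomial ℂ),
      (Q ≠ 0 → Q.natDegree + 3 ≤ r) ∧
      (∀ y : ℂ, Q.eval (Polynomial.C y) ≠ 0 → (Q.eval (Polynomial.C y)).natDegree + 3 ≤ r) ∧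
      ∀ x y : ℂ, (g 0).eval x * (g 1).eval y - (g 1).eval x * (g 0).eval y -
        κ * (y - x) * (ρ.eval x * ρ.eval y) =
        (y - x) ^ 3 * (Q.eval (Polynomial.C y)).eval x := by
  obtain ⟨S, hS⟩ : ∃ S : Polynomial (Polynomial ℂ), S =
      Polynomial.C (g 0) * (g 1).map Polynomial.C - Polynomial.C (g 1) * (g 0).map Polynomial.C -
      Polynomial.C (Polynomial.C κ) * (Polynomial.X - Polynomial.C Polynomial.X) *
        (Polynomial.C ρ * ρ.map Polynomial.C) := ⟨_, rfl⟩
  have hev : ∀ p : Polynomial ℂ, (p.map Polynomial.C).eval (Polynomial.X : Polynomial ℂ) = p := by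
    intro p
    rw [Polynomial.eval_map, Polynomial.eval₂_C_X]
  have hevC : ∀ (p : Polynomial ℂ) (y : ℂ),
      (p.map Polynomial.C).eval (Polynomial.C y : Polynomial ℂ) = Polynomial.C (p.eval y) := by
    intro p y
    rw [Polynomial.eval_map, Polynomial.eval₂_at_apply]
  have hw := h.wr
  rw [wr] at hw
  have hw' := congrArg Polynomial.derivative hw
  simp only [Polynomial.derivative_sub, Polynomial.derivative_mul, Polynomial.derivative_C,
    zero_mul, zero_add, Polynomial.derivative_pow, Nat.cast_ofNat, map_ofNat] at hw'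
  have h0 : S.eval Polynomial.X = 0 := by
    rw [hS]
    simp only [Polynomial.eval_sub, Polynomial.eval_mul, Polynomial.eval_C, Polynomial.eval_X, hev]
    ring
  have h1 : (Polynomial.derivative S).eval Polynomial.X = 0 := by
    rw [hS]
    simp only [Polynomial.derivative_sub, Polynomial.derivative_mul, Polynomial.derivative_C,
      Polynomial.derivative_X, Polynomial.derivative_map, Polynomial.eval_sub, Polynomial.eval_add,
      Polynomial.eval_mul, Polynomial.eval_C, Polynomial.eval_X, Polynomial.eval_zero,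
      Polynomial.eval_one, hev]
    linear_combination hw
  have h2 : (Polynomial.derivative (Polynomial.derivative S)).eval Polynomial.X = 0 := by
    rw [hS]
    simp only [Polynomial.derivative_sub, Polynomial.derivative_add, Polynomial.derivative_mul,
      Polynomial.derivative_C, Polynomial.derivative_zero, Polynomial.derivative_one,
      Polynomial.derivative_X, Polynomial.derivative_map, Polynomial.eval_sub, Polynomial.eval_add,
      Polynomial.eval_mul, Polynomial.eval_C, Polynomial.eval_X, Polynomial.eval_zero,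
      Polynomial.eval_one, hev]
    linear_combination hw'
  have hdvd : (Polynomial.X - Polynomial.C (Polynomial.X : Polynomial ℂ)) ^ 3 ∣ S := by
    by_cases hS0 : S = 0
    · rw [hS0]; exact dvd_zero _
    · rw [← Polynomial.le_rootMultiplicity_iff hS0]
      refine (Polynomial.lt_rootMultiplicity_iff_isRoot_iterate_derivative hS0).2 fun m hm => ?_
      have hm' : m = 0 ∨ m = 1 ∨ m = 2 := by omega
      rcases hm' with rfl | rfl | rfl
      · exact h0
      · exact h1
      · exact h2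
  obtain ⟨Q, hQ⟩ := hdvd
  have hmon : (Polynomial.X - Polynomial.C (Polynomial.X : Polynomial ℂ)) ≠ 0 :=
    Polynomial.X_sub_C_ne_zero _
  have hSdeg : S.natDegree ≤ r := by
    rw [hS]
    have e1 : ∀ p q : Polynomial ℂ, (Polynomial.C p * q.map Polynomial.C).natDegree ≤
        q.natDegree := fun p q =>
      (Polynomial.natDegree_C_mul_le _ _).trans Polynomial.natDegree_map_le
    have e2 : (Polynomial.C (Polynomial.C κ) * (Polynomial.X - Polynomial.C Polynomial.X) *
        (Polynomial.C ρ * ρ.map Polynomial.C)).natDegree ≤ r := by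
      refine Polynomial.natDegree_mul_le.trans ?_
      have e3 : (Polynomial.C (Polynomial.C κ) *
          (Polynomial.X - Polynomial.C Polynomial.X)).natDegree ≤ 1 :=
        (Polynomial.natDegree_C_mul_le _ _).trans (Polynomial.natDegree_X_sub_C_le _)
      have e4 := e1 ρ ρ
      have e5 := h.degρ
      omega
    refine (Polynomial.natDegree_sub_le _ _).trans (max_le ?_ e2)
    refine (Polynomial.natDegree_sub_le _ _).trans (max_le ?_ ?_)
    · exact (e1 _ _).trans (h.deg 1)
    · exact (e1 _ _).trans (h.deg 0)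
  have hSy : ∀ y : ℂ, S.eval (Polynomial.C y) = g 0 * Polynomial.C ((g 1).eval y) -
      g 1 * Polynomial.C ((g 0).eval y) - Polynomial.C κ * (Polynomial.C y - Polynomial.X) *
        (ρ * Polynomial.C (ρ.eval y)) := by
    intro y
    rw [hS]
    simp only [Polynomial.eval_sub, Polynomial.eval_mul, Polynomial.eval_C, Polynomial.eval_X, hevC]
  have hQy : ∀ y : ℂ, S.eval (Polynomial.C y) =
      (Polynomial.C y - Polynomial.X) ^ 3 * Q.eval (Polynomial.C y) := by
    intro y
    rw [hQ]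
    simp only [Polynomial.eval_sub, Polynomial.eval_mul, Polynomial.eval_C, Polynomial.eval_X,
      Polynomial.eval_pow]
  refine ⟨Q, fun hQ0 => ?_, fun y hy => ?_, fun x y => ?_⟩
  · rw [hQ, Polynomial.natDegree_mul (pow_ne_zero _ hmon) hQ0, Polynomial.natDegree_pow,
      Polynomial.natDegree_X_sub_C] at hSdeg
    omega
  · have e1 : (S.eval (Polynomial.C y)).natDegree ≤ r := by
      rw [hSy]
      have e1 : ∀ (p : Polynomial ℂ) (c : ℂ), (p * Polynomial.C c).natDegree ≤ p.natDegree :=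
        fun p c => Polynomial.natDegree_mul_C_le _ _
      have e2 : (Polynomial.C κ * (Polynomial.C y - Polynomial.X) *
          (ρ * Polynomial.C (ρ.eval y))).natDegree ≤ r := by
        refine Polynomial.natDegree_mul_le.trans ?_
        have e3 : (Polynomial.C κ * (Polynomial.C y - Polynomial.X)).natDegree ≤ 1 := by
          refine (Polynomial.natDegree_C_mul_le _ _).trans ?_
          refine (Polynomial.natDegree_sub_le _ _).trans ?_
          rw [Polynomial.natDegree_C, Polynomial.natDegree_X]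
          simp
        have e4 := e1 ρ (ρ.eval y)
        have e5 := h.degρ
        omega
      refine (Polynomial.natDegree_sub_le _ _).trans (max_le ?_ e2)
      refine (Polynomial.natDegree_sub_le _ _).trans (max_le ?_ ?_)
      · exact (e1 _ _).trans (h.deg 0)
      · exact (e1 _ _).trans (h.deg 1)
    have e2 : (Polynomial.C y - Polynomial.X : Polynomial ℂ) =
        -(Polynomial.X - Polynomial.C y) := by ring
    have e3 : (Polynomial.C y - Polynomial.X : Polynomial ℂ) ≠ 0 := by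
      rw [e2]
      exact neg_ne_zero.2 (Polynomial.X_sub_C_ne_zero _)
    have e4 : (Polynomial.C y - Polynomial.X : Polynomial ℂ).natDegree = 1 := by
      rw [e2, Polynomial.natDegree_neg, Polynomial.natDegree_X_sub_C]
    rw [hQy, Polynomial.natDegree_mul (pow_ne_zero _ e3) hy, Polynomial.natDegree_pow, e4] at e1
    omega
  · have e1 := congrArg (Polynomial.eval x) (hSy y)
    rw [hQy] at e1
    simp only [Polynomial.eval_sub, Polynomial.eval_mul, Polynomial.eval_C, Polynomial.eval_X,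
      Polynomial.eval_pow] at e1
    rw [e1]

/-- F4 -/
theorem exists_gamma {r : ℕ} {g : Fin 2 → Polynomial ℂ} {ρ : Polynomial ℂ} {κ : ℂ}
    (h : Pen r g ρ κ) :
    (r ≤ 2 ∧ ∀ x1 x2 y1 y2 : ℂ, bf r (g 0) x1 x2 * bf r (g 1) y1 y2 -
      bf r (g 1) x1 x2 * bf r (g 0) y1 y2 -
      κ * (x1 * y2 - x2 * y1) * (bf (r - 1) ρ x1 x2 * bf (r - 1) ρ y1 y2) = 0) ∨
    ∃ n, r = n + 3 ∧ ∃ Γ : Matrix (Fin (n + 1)) (Fin (n + 1)) ℂ, ∀ x1 x2 y1 y2 : ℂ,
      bf r (g 0) x1 x2 * bf r (g 1) y1 y2 - bf r (g 1) x1 x2 * bf r (g 0) y1 y2 -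
      κ * (x1 * y2 - x2 * y1) * (bf (r - 1) ρ x1 x2 * bf (r - 1) ρ y1 y2) =
      (x1 * y2 - x2 * y1) ^ 3 * bh Γ x1 x2 y1 y2 := by
  obtain ⟨Q, hQ1, hQ2, hQ3⟩ := bF4_div h
  have hρr : ρ.natDegree ≤ r - 1 := by have := h.degρ; omega
  have hr1 : 1 ≤ r := by have := h.degρ; omega
  -- the left side in the chart
  have hleft : ∀ x1 x2 y1 y2 : ℂ, x1 ≠ 0 → y1 ≠ 0 → bf r (g 0) x1 x2 * bf r (g 1) y1 y2 -
      bf r (g 1) x1 x2 * bf r (g 0) y1 y2 -
      κ * (x1 * y2 - x2 * y1) * (bf (r - 1) ρ x1 x2 * bf (r - 1) ρ y1 y2) =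
      (x1 * y1) ^ r * ((y2 / y1 - x2 / x1) ^ 3 *
        (Q.eval (Polynomial.C (y2 / y1))).eval (x2 / x1)) := by
    intro x1 x2 y1 y2 hx hy
    rw [bF4_bf_ne (h.deg 0) hx, bF4_bf_ne (h.deg 1) hx, bF4_bf_ne (h.deg 0) hy,
      bF4_bf_ne (h.deg 1) hy, bF4_bf_ne hρr hx, bF4_bf_ne hρr hy, ← hQ3]
    obtain ⟨m, rfl⟩ : ∃ m, r = m + 1 := ⟨r - 1, by omega⟩
    rw [Nat.add_sub_cancel]
    have e1 : x1 * y2 - x2 * y1 = x1 * y1 * (y2 / y1 - x2 / x1) := by field_simp
    rw [e1, mul_pow, pow_succ x1 m, pow_succ y1 m]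
    ring
  by_cases hr : r ≤ 2
  · left
    refine ⟨hr, ?_⟩
    have hQ0 : Q = 0 := by
      by_contra h0
      have := hQ1 h0
      omega
    intro x1 x2 y1 y2
    refine bF4_ext (F := fun x1 x2 y1 y2 => bf r (g 0) x1 x2 * bf r (g 1) y1 y2 -
      bf r (g 1) x1 x2 * bf r (g 0) y1 y2 -
      κ * (x1 * y2 - x2 * y1) * (bf (r - 1) ρ x1 x2 * bf (r - 1) ρ y1 y2)) ?_ ?_ ?_ x1 x2 y1 y2
    · intro x2 y1 y2
      have c1 := bF4_cont_left r (g 0) x2
      have c2 := bF4_cont_left r (g 1) x2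
      have c3 := bF4_cont_left (r - 1) ρ x2
      fun_prop
    · intro x1 x2 y2
      have c1 := bF4_cont_left r (g 0) y2
      have c2 := bF4_cont_left r (g 1) y2
      have c3 := bF4_cont_left (r - 1) ρ y2
      fun_prop
    · intro x1 x2 y1 y2 hx hy
      show bf r (g 0) x1 x2 * bf r (g 1) y1 y2 - bf r (g 1) x1 x2 * bf r (g 0) y1 y2 -
        κ * (x1 * y2 - x2 * y1) * (bf (r - 1) ρ x1 x2 * bf (r - 1) ρ y1 y2) = 0
      rw [hleft x1 x2 y1 y2 hx hy, hQ0]
      simp
  · right
    obtain ⟨n, hn⟩ : ∃ n, r = n + 3 := ⟨r - 3, by omega⟩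
    refine ⟨n, hn, ?_⟩
    have hQd : Q.natDegree ≤ n := by
      by_cases h0 : Q = 0
      · rw [h0]; simp
      · have := hQ1 h0
        omega
    have hQyd : ∀ y : ℂ, (Q.eval (Polynomial.C y)).natDegree ≤ n := by
      intro y
      by_cases h0 : Q.eval (Polynomial.C y) = 0
      · rw [h0]; simp
      · have := hQ2 y h0
        omega
    have hsum : ∀ y : ℂ, ∀ i : ℕ, (Q.eval (Polynomial.C y)).coeff i =
        ∑ j ∈ Finset.range (n + 1), (Q.coeff j).coeff i * y ^ j := by
      intro y i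
      rw [Polynomial.eval_eq_sum_range' (Nat.lt_succ_of_le hQd), Polynomial.finsetSum_coeff]
      refine Finset.sum_congr rfl fun j _ => ?_
      rw [← Polynomial.C_pow, Polynomial.coeff_mul_C]
    obtain ⟨Γ, hΓ⟩ : ∃ Γ : Matrix (Fin (n + 1)) (Fin (n + 1)) ℂ, ∀ i j,
        Γ i j = (Q.coeff (j : ℕ)).coeff (i : ℕ) :=
      ⟨Matrix.of fun i j => (Q.coeff (j : ℕ)).coeff (i : ℕ), fun _ _ => rfl⟩
    refine ⟨Γ, ?_⟩
    have hval : ∀ x y : ℂ, (Q.eval (Polynomial.C y)).eval x = ∑ i : Fin (n + 1),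
        ∑ j : Fin (n + 1), Γ i j * (x ^ (i : ℕ) * y ^ (j : ℕ)) := by
      intro x y
      rw [Polynomial.eval_eq_sum_range' (Nat.lt_succ_of_le (hQyd y)), Finset.sum_range]
      refine Finset.sum_congr rfl fun i _ => ?_
      rw [hsum, Finset.sum_range, Finset.sum_mul]
      refine Finset.sum_congr rfl fun j _ => ?_
      rw [hΓ]
      ring
    intro x1 x2 y1 y2
    rw [← sub_eq_zero]
    refine bF4_ext (F := fun x1 x2 y1 y2 => bf r (g 0) x1 x2 * bf r (g 1) y1 y2 -
      bf r (g 1) x1 x2 * bf r (g 0) y1 y2 -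
      κ * (x1 * y2 - x2 * y1) * (bf (r - 1) ρ x1 x2 * bf (r - 1) ρ y1 y2) -
      (x1 * y2 - x2 * y1) ^ 3 * bh Γ x1 x2 y1 y2)
      ?_ ?_ ?_ x1 x2 y1 y2
    · intro x2 y1 y2
      have c1 := bF4_cont_left r (g 0) x2
      have c2 := bF4_cont_left r (g 1) x2
      have c3 := bF4_cont_left (r - 1) ρ x2
      have c4 : Continuous fun x1 => bh Γ x1 x2 y1 y2 := by
        unfold bh
        exact continuous_finsetSum _ fun i _ => continuous_finsetSum _ fun j _ => by fun_prop
      fun_prop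
    · intro x1 x2 y2
      have c1 := bF4_cont_left r (g 0) y2
      have c2 := bF4_cont_left r (g 1) y2
      have c3 := bF4_cont_left (r - 1) ρ y2
      have c4 : Continuous fun y1 => bh Γ x1 x2 y1 y2 := by
        unfold bh
        exact continuous_finsetSum _ fun i _ => continuous_finsetSum _ fun j _ => by fun_prop
      fun_prop
    · intro x1 x2 y1 y2 hx hy
      show bf r (g 0) x1 x2 * bf r (g 1) y1 y2 - bf r (g 1) x1 x2 * bf r (g 0) y1 y2 -
        κ * (x1 * y2 - x2 * y1) * (bf (r - 1) ρ x1 x2 * bf (r - 1) ρ y1 y2) -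
        (x1 * y2 - x2 * y1) ^ 3 * bh Γ x1 x2 y1 y2 = 0
      rw [hleft x1 x2 y1 y2 hx hy, hval, bF4_bh_ne Γ hx hy, hn]
      have e1 : x1 * y2 - x2 * y1 = x1 * y1 * (y2 / y1 - x2 / x1) := by field_simp
      rw [e1]
      ring

end Pool.Agent.Lib_helper86.D24

end

section

namespace Pool.Agent.Lib_helper86.D24

open MvPolynomial Matrix


private lemma bI3_ev {σ τ : Type*} (x : τ → ℂ) (f : σ → MvPolynomial τ ℂ)
    (p : MvPolynomial σ ℂ) : eval x (aeval f p) = eval (fun i => eval x (f i)) p := by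
  have h : (MvPolynomial.eval x : MvPolynomial τ ℂ →+* ℂ).comp
      (MvPolynomial.aeval f : MvPolynomial σ ℂ →ₐ[ℂ] MvPolynomial τ ℂ).toRingHom
      = (MvPolynomial.eval (fun i => eval x (f i)) : MvPolynomial σ ℂ →+* ℂ) := by
    refine MvPolynomial.ringHom_ext (fun r => ?_) (fun i => ?_)
    · simp
    · simp
  exact congrArg (fun g : MvPolynomial σ ℂ →+* ℂ => g p) h

/-- Cancel on a parametrized variety. -/
private lemma bI3_par (p : MvPolynomial (Fin 3 ⊕ Fin 3) ℂ)
    (f : Fin 3 ⊕ Fin 3 → MvPolynomial (Fin 3 ⊕ Fin 3) ℂ)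
    (hf : ∀ x, (eval x (f (Sum.inl 0)) * eval x (f (Sum.inr 0))) ^ 3 *
      eval (fun i => eval x (f i)) p = 0)
    (h0 : ∃ x, eval x (f (Sum.inl 0)) * eval x (f (Sum.inr 0)) ≠ 0)
    (x : Fin 3 ⊕ Fin 3 → ℂ) : eval (fun i => eval x (f i)) p = 0 := by
  have h1 : (f (Sum.inl 0) * f (Sum.inr 0)) ^ 3 * aeval f p = 0 := by
    apply MvPolynomial.funext
    intro x
    rw [map_mul, map_pow, map_mul, bI3_ev, hf x, map_zero]
  rcases mul_eq_zero.mp h1 with h | h
  · obtain ⟨x, hx⟩ := h0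
    exfalso
    apply hx
    have h2 := congrArg (eval x) (pow_eq_zero_iff (by norm_num : (3 : ℕ) ≠ 0) |>.mp h)
    rwa [map_mul, map_zero] at h2
  · rw [← bI3_ev, h, map_zero]

private lemma bI3_cancel (p : MvPolynomial (Fin 3 ⊕ Fin 3) ℂ)
    (h : ∀ z w : V3, z ⬝ᵥ w = 0 → (z 0 * w 0) ^ 3 * eval (Sum.elim z w) p = 0)
    (z w : V3) (hzw : z ⬝ᵥ w = 0) : eval (Sum.elim z w) p = 0 := by
  -- the first parametrization: `z = y ⨯₃ w`
  let f1 : Fin 3 ⊕ Fin 3 → MvPolynomial (Fin 3 ⊕ Fin 3) ℂ := Sum.elim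
    ![X (Sum.inl 1) * X (Sum.inr 2) - X (Sum.inl 2) * X (Sum.inr 1),
      X (Sum.inl 2) * X (Sum.inr 0) - X (Sum.inl 0) * X (Sum.inr 2),
      X (Sum.inl 0) * X (Sum.inr 1) - X (Sum.inl 1) * X (Sum.inr 0)]
    (fun i => X (Sum.inr i))
  have hf1 : ∀ x : Fin 3 ⊕ Fin 3 → ℂ, (fun i => eval x (f1 i)) =
      Sum.elim ![x (Sum.inl 1) * x (Sum.inr 2) - x (Sum.inl 2) * x (Sum.inr 1),
        x (Sum.inl 2) * x (Sum.inr 0) - x (Sum.inl 0) * x (Sum.inr 2),
        x (Sum.inl 0) * x (Sum.inr 1) - x (Sum.inl 1) * x (Sum.inr 0)]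
        (fun i => x (Sum.inr i)) := by
    intro x
    funext i
    rcases i with i | i
    · fin_cases i <;> simp [f1]
    · simp [f1]
  have A1 : ∀ x : Fin 3 ⊕ Fin 3 → ℂ, eval (fun i => eval x (f1 i)) p = 0 := by
    refine bI3_par p f1 (fun x => ?_)
      ⟨Sum.elim ![0, 1, 0] ![1, 0, 1], by simp [f1]⟩
    have h1 := h ![x (Sum.inl 1) * x (Sum.inr 2) - x (Sum.inl 2) * x (Sum.inr 1),
        x (Sum.inl 2) * x (Sum.inr 0) - x (Sum.inl 0) * x (Sum.inr 2),
        x (Sum.inl 0) * x (Sum.inr 1) - x (Sum.inl 1) * x (Sum.inr 0)]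
        (fun i => x (Sum.inr i)) (by
          simp [dotProduct, Fin.sum_univ_three]
          ring)
    rw [← hf1] at h1
    have e0 : eval x (f1 (Sum.inl 0)) =
      x (Sum.inl 1) * x (Sum.inr 2) - x (Sum.inl 2) * x (Sum.inr 1) := by simp [f1]
    have e1 : eval x (f1 (Sum.inr 0)) = x (Sum.inr 0) := by simp [f1]
    rw [e0, e1]
    exact h1
  -- the second parametrization: `w = z ⨯₃ y`
  let f2 : Fin 3 ⊕ Fin 3 → MvPolynomial (Fin 3 ⊕ Fin 3) ℂ := Sum.elim
    (fun i => X (Sum.inl i))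
    ![X (Sum.inl 1) * X (Sum.inr 2) - X (Sum.inl 2) * X (Sum.inr 1),
      X (Sum.inl 2) * X (Sum.inr 0) - X (Sum.inl 0) * X (Sum.inr 2),
      X (Sum.inl 0) * X (Sum.inr 1) - X (Sum.inl 1) * X (Sum.inr 0)]
  have hf2 : ∀ x : Fin 3 ⊕ Fin 3 → ℂ, (fun i => eval x (f2 i)) =
      Sum.elim (fun i => x (Sum.inl i))
        ![x (Sum.inl 1) * x (Sum.inr 2) - x (Sum.inl 2) * x (Sum.inr 1),
        x (Sum.inl 2) * x (Sum.inr 0) - x (Sum.inl 0) * x (Sum.inr 2),
        x (Sum.inl 0) * x (Sum.inr 1) - x (Sum.inl 1) * x (Sum.inr 0)] := by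
    intro x
    funext i
    rcases i with i | i
    · simp [f2]
    · fin_cases i <;> simp [f2]
  have A2 : ∀ x : Fin 3 ⊕ Fin 3 → ℂ, eval (fun i => eval x (f2 i)) p = 0 := by
    refine bI3_par p f2 (fun x => ?_)
      ⟨Sum.elim ![1, 1, 0] ![0, 0, 1], by simp [f2]⟩
    have h1 := h (fun i => x (Sum.inl i))
        ![x (Sum.inl 1) * x (Sum.inr 2) - x (Sum.inl 2) * x (Sum.inr 1),
        x (Sum.inl 2) * x (Sum.inr 0) - x (Sum.inl 0) * x (Sum.inr 2),
        x (Sum.inl 0) * x (Sum.inr 1) - x (Sum.inl 1) * x (Sum.inr 0)] (by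
          simp [dotProduct, Fin.sum_univ_three]
          ring)
    rw [← hf2] at h1
    have e0 : eval x (f2 (Sum.inl 0)) = x (Sum.inl 0) := by simp [f2]
    have e1 : eval x (f2 (Sum.inr 0)) =
      x (Sum.inl 1) * x (Sum.inr 2) - x (Sum.inl 2) * x (Sum.inr 1) := by simp [f2]
    rw [e0, e1]
    exact h1
  have hz : z 0 * w 0 + z 1 * w 1 + z 2 * w 2 = 0 := by
    have := hzw
    rwa [dotProduct, Fin.sum_univ_three] at this
  by_cases hw : w = 0
  · have h1 := A2 (Sum.elim z 0)
    rw [hf2] at h1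
    have e : (![(Sum.elim z (0 : V3)) (Sum.inl 1) * (Sum.elim z (0 : V3)) (Sum.inr 2) -
          (Sum.elim z (0 : V3)) (Sum.inl 2) * (Sum.elim z (0 : V3)) (Sum.inr 1),
        (Sum.elim z (0 : V3)) (Sum.inl 2) * (Sum.elim z (0 : V3)) (Sum.inr 0) -
          (Sum.elim z (0 : V3)) (Sum.inl 0) * (Sum.elim z (0 : V3)) (Sum.inr 2),
        (Sum.elim z (0 : V3)) (Sum.inl 0) * (Sum.elim z (0 : V3)) (Sum.inr 1) -
          (Sum.elim z (0 : V3)) (Sum.inl 1) * (Sum.elim z (0 : V3)) (Sum.inr 0)] : V3) = 0 := by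
      funext i
      fin_cases i <;> simp
    rw [e] at h1
    rw [hw]
    exact h1
  · -- find `y` with `y ⨯₃ w = z`
    obtain ⟨y, hy0, hy1, hy2⟩ : ∃ y : V3, y 1 * w 2 - y 2 * w 1 = z 0 ∧
        y 2 * w 0 - y 0 * w 2 = z 1 ∧ y 0 * w 1 - y 1 * w 0 = z 2 := by
      have hk : w 0 ≠ 0 ∨ w 1 ≠ 0 ∨ w 2 ≠ 0 := by
        by_contra hcon
        push Not at hcon
        apply hw
        funext i
        fin_cases i
        · exact hcon.1
        · exact hcon.2.1
        · exact hcon.2.2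
      rcases hk with h | h | h
      · refine ⟨![0, -z 2 / w 0, z 1 / w 0], ?_, ?_, ?_⟩
        · simp
          field_simp
          linear_combination -hz
        · simp
          field_simp
        · simp
          field_simp
      · refine ⟨![z 2 / w 1, 0, -z 0 / w 1], ?_, ?_, ?_⟩
        · simp
          field_simp
        · simp
          field_simp
          linear_combination -hz
        · simp
          field_simp
      · refine ⟨![-z 1 / w 2, z 0 / w 2, 0], ?_, ?_, ?_⟩
        · simp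
          field_simp
        · simp
          field_simp
        · simp
          field_simp
          linear_combination -hz
    have h1 := A1 (Sum.elim y w)
    rw [hf1] at h1
    simp only [Sum.elim_inl, Sum.elim_inr] at h1
    rw [hy0, hy1, hy2] at h1
    have e : (![z 0, z 1, z 2] : V3) = z := by
      funext i
      fin_cases i <;> rfl
    rw [e] at h1
    exact h1

private lemma bI3_hg (r : ℕ) (g : Polynomial ℂ) (z : V3) :
    eval z (hg r g) = bf r g (z 1) (z 2) := by
  simp [hg, bf]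

private lemma bI3_hgt (r : ℕ) (g : Polynomial ℂ) (w : V3) :
    eval w (hgt r g) = bf r g (w 2) (-w 1) := by
  simp [hgt, bf]

/-- F5: cancel the factor `z₀ w₀` on `z·w = 0` -/
theorem I3_of {A : Fin 2 → P3} {b : P3} {c : Fin 2 → P3} {At : Fin 2 → P3} {bt : P3}
    {ct : Fin 2 → P3} (h : NP A b c At bt ct) {r : ℕ} {g : Fin 2 → Polynomial ℂ} {m mt : P3}
    (hF : FA r g m mt A At) {ρ : Polynomial ℂ} {κ : ℂ} (hP : Pen r g ρ κ)
    (hb : b = m * hg (r - 1) ρ) (hbt : bt = C κ * mt * hgt (r - 1) ρ)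
    (G : ℂ → ℂ → ℂ → ℂ → ℂ)
    (hG : ∃ P4 : MvPolynomial (Fin 4) ℂ, ∀ x1 x2 y1 y2, G x1 x2 y1 y2 = eval ![x1, x2, y1, y2] P4)
    (hI : ∀ x1 x2 y1 y2 : ℂ, bf r (g 0) x1 x2 * bf r (g 1) y1 y2 -
      bf r (g 1) x1 x2 * bf r (g 0) y1 y2 -
      κ * (x1 * y2 - x2 * y1) * (bf (r - 1) ρ x1 x2 * bf (r - 1) ρ y1 y2) =
      (x1 * y2 - x2 * y1) ^ 3 * G x1 x2 y1 y2) (z w : V3) (hzw : z ⬝ᵥ w = 0) :
    ∑ i, eval z (c i) * eval w (ct i) =
      eval z m * eval w mt * G (z 1) (z 2) (w 2) (-w 1) := by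
  obtain ⟨P4, hP4⟩ := hG
  set p : MvPolynomial (Fin 3 ⊕ Fin 3) ℂ :=
    (∑ i, rename Sum.inl (c i) * rename Sum.inr (ct i)) - rename Sum.inl m * rename Sum.inr mt *
      aeval ![(X (Sum.inl 1) : MvPolynomial (Fin 3 ⊕ Fin 3) ℂ), X (Sum.inl 2), X (Sum.inr 2),
        -X (Sum.inr 1)] P4 with hp
  have hpe : ∀ z w : V3, eval (Sum.elim z w) p = ∑ i, eval z (c i) * eval w (ct i) -
      eval z m * eval w mt * G (z 1) (z 2) (w 2) (-w 1) := by
    intro z w
    rw [hp, map_sub, map_mul, map_mul, map_sum, bI3_ev, hP4]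
    simp only [map_mul, eval_rename, Sum.elim_comp_inl, Sum.elim_comp_inr]
    congr 4
    funext i
    fin_cases i <;> simp
  have h0 := bI3_cancel p (fun z w hzw => ?_) z w hzw
  · rw [hpe] at h0
    exact sub_eq_zero.mp h0
  · rw [hpe]
    have h1 := h.orth z w hzw
    have h2 := hI (z 1) (z 2) (w 2) (-w 1)
    have h3 : z 1 * (-w 1) - z 2 * w 2 = z 0 * w 0 := by
      have := hzw
      rw [dotProduct, Fin.sum_univ_three] at this
      linear_combination -this
    rw [h3] at h2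
    have hA : ∑ i, eval z (A i) * eval w (At i) =
        -(eval z m * eval w mt * (bf r (g 0) (z 1) (z 2) * bf r (g 1) (w 2) (-w 1) -
          bf r (g 1) (z 1) (z 2) * bf r (g 0) (w 2) (-w 1))) := by
      rw [Fin.sum_univ_two, hF.hA 0, hF.hA 1, hF.hAt0, hF.hAt1]
      simp only [map_mul, map_neg, bI3_hg, bI3_hgt]
      ring
    have hB : eval z b * eval w bt = κ * (eval z m * eval w mt) *
        (bf (r - 1) ρ (z 1) (z 2) * bf (r - 1) ρ (w 2) (-w 1)) := by
      rw [hb, hbt]
      simp only [map_mul, eval_C, bI3_hg, bI3_hgt]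
      ring
    rw [hA, hB] at h1
    linear_combination h1 + (eval z m * eval w mt) * h2

end Pool.Agent.Lib_helper86.D24

end

section

namespace Pool.Agent.Lib_helper86.D24

open MvPolynomial Matrix


/-- generic points -/
private def D0_G (S : V3 → Prop) : Prop := ∃ p : P3, p ≠ 0 ∧ ∀ z, eval z p ≠ 0 → S z

private theorem D0_exists {S : V3 → Prop} (h : D0_G S) : ∃ z, S z := by
  obtain ⟨p, hp, hS⟩ := h
  by_contra hc
  push Not at hc
  apply hp
  apply MvPolynomial.funext
  intro z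
  by_contra hz
  exact hc z (hS z (by simpa using hz))

private theorem D0_and {S T : V3 → Prop} (h : D0_G S) (h' : D0_G T) : D0_G (fun z => S z ∧ T z) := by
  obtain ⟨p, hp, hS⟩ := h
  obtain ⟨q, hq, hT⟩ := h'
  refine ⟨p * q, mul_ne_zero hp hq, fun z hz => ?_⟩
  rw [map_mul] at hz
  exact ⟨hS z (left_ne_zero_of_mul hz), hT z (right_ne_zero_of_mul hz)⟩

private theorem D0_forall {ι : Type*} (Z : Finset ι) {S : ι → V3 → Prop} (h : ∀ y ∈ Z, D0_G (S y)) :
    D0_G (fun z => ∀ y ∈ Z, S y z) := by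
  classical
  induction Z using Finset.induction_on with
  | empty => exact ⟨1, one_ne_zero, fun z _ y hy => by simp at hy⟩
  | insert a s ha ih =>
    have h1 := D0_and (h a (Finset.mem_insert_self a s))
      (ih (fun y hy => h y (Finset.mem_insert_of_mem hy)))
    obtain ⟨p, hp, hS⟩ := h1
    refine ⟨p, hp, fun z hz y hy => ?_⟩
    obtain ⟨h2, h3⟩ := hS z hz
    rcases Finset.mem_insert.1 hy with rfl | hy
    · exact h2
    · exact h3 y hy

private theorem D0_poly {p : P3} {S : V3 → Prop} (hS : ∀ z, eval z p ≠ 0 → S z) {z : V3}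
    (hz : eval z p ≠ 0) : D0_G S :=
  ⟨p, fun h => hz (by rw [h]; simp), hS⟩

private theorem D0_eval_aeval (f : Fin 3 → P3) (G : P3) (z : V3) :
    eval z (aeval f G) = eval (fun i => eval z (f i)) G := by
  induction G using MvPolynomial.induction_on with
  | C a => simp
  | add p q hp hq => simp only [map_add, hp, hq]
  | mul_X p i hp => simp only [map_mul, hp, aeval_X, eval_X]

/-- `G(a ⨯ b)` as a polynomial in `a`. -/
private theorem D0_crossL (G : P3) (b a0 : V3) (h : eval (a0 ⨯₃ b) G ≠ 0) :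
    D0_G (fun a => eval (a ⨯₃ b) G ≠ 0) := by
  have key : ∀ z : V3, eval z (aeval ![(X 1 : P3) * C (b 2) - X 2 * C (b 1),
      X 2 * C (b 0) - X 0 * C (b 2), X 0 * C (b 1) - X 1 * C (b 0)] G) = eval (z ⨯₃ b) G := by
    intro z
    rw [D0_eval_aeval, cross_apply]
    congr 1
    congr 1
    funext i
    fin_cases i <;> simp
  exact D0_poly (p := aeval ![(X 1 : P3) * C (b 2) - X 2 * C (b 1),
      X 2 * C (b 0) - X 0 * C (b 2), X 0 * C (b 1) - X 1 * C (b 0)] G)
    (fun z hz => by rwa [key] at hz) (z := a0) (by rwa [key])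

private theorem D0_crossR (G : P3) (a b0 : V3) (h : eval (a ⨯₃ b0) G ≠ 0) :
    D0_G (fun b => eval (a ⨯₃ b) G ≠ 0) := by
  have key : ∀ z : V3, eval z (aeval ![(C (a 1) : P3) * X 2 - C (a 2) * X 1,
      C (a 2) * X 0 - C (a 0) * X 2, C (a 0) * X 1 - C (a 1) * X 0] G) = eval (a ⨯₃ z) G := by
    intro z
    rw [D0_eval_aeval, cross_apply]
    congr 1
    congr 1
    funext i
    fin_cases i <;> simp
  exact D0_poly (p := aeval ![(C (a 1) : P3) * X 2 - C (a 2) * X 1,
      C (a 2) * X 0 - C (a 0) * X 2, C (a 0) * X 1 - C (a 1) * X 0] G)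
    (fun z hz => by rwa [key] at hz) (z := b0) (by rwa [key])

private theorem D0_lin_eval (l z : V3) : eval z (lin l) = l ⬝ᵥ z := by
  simp [lin, dotProduct, map_sum]

/-- a non-zero linear form -/
private theorem D0_dot (l : V3) (hl : l ≠ 0) : D0_G (fun z => l ⬝ᵥ z ≠ 0) := by
  have : ∃ z, eval z (lin l) ≠ 0 := by
    obtain ⟨i, hi⟩ : ∃ i, l i ≠ 0 := by
      by_contra hc
      push Not at hc
      exact hl (funext hc)
    refine ⟨Pi.single i 1, ?_⟩
    rw [D0_lin_eval]
    simpa using hi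
  obtain ⟨z, hz⟩ := this
  exact D0_poly (p := lin l) (fun z hz => by rwa [D0_lin_eval] at hz) hz

/-- `a ⨯ y ≠ 0` is generic for `y ≠ 0`. -/
private theorem D0_cross_ne (y : V3) (hy : y ≠ 0) : D0_G (fun a => a ⨯₃ y ≠ 0) := by
  -- some coordinate linear form of `a ⨯ y` is non-zero
  obtain ⟨w, hw⟩ : ∃ w : V3, y ⨯₃ w ≠ 0 := by
    by_contra hc
    push Not at hc
    have h0 := hc ![1, 0, 0]
    have h1 := hc ![0, 1, 0]
    rw [cross_apply] at h0 h1
    apply hy
    have e1 := congrFun h0 1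
    have e2 := congrFun h0 2
    have e3 := congrFun h1 0
    have e4 := congrFun h1 2
    simp at e1 e2 e3 e4
    funext i
    fin_cases i
    · simpa using e4
    · simpa using e2
    · simpa using e1
  obtain ⟨p, hp, hS⟩ := D0_dot _ hw
  refine ⟨p, hp, fun a ha hc => ?_⟩
  apply hS a ha
  -- (y ⨯ w) · a = (a ⨯ y) · w
  have : (y ⨯₃ w) ⬝ᵥ a = (a ⨯₃ y) ⬝ᵥ w := by
    simp only [cross_apply, dotProduct, Fin.sum_univ_three, cons_val]
    ring
  rw [this, hc, zero_dotProduct]

private theorem D0_triple (a b c : V3) : (a ⨯₃ b) ⬝ᵥ c = (c ⨯₃ a) ⬝ᵥ b := by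
  simp only [cross_apply, dotProduct, Fin.sum_univ_three, cons_val]
  ring

private theorem D0_eval_mn {k : ℕ} (f : Fin k → Fin 5 → P3) (s : Fin k → Fin 5) (z : V3) :
    eval z (mn f s) = mn (fun a i => eval z (f a i)) s := by
  unfold mn
  exact RingHom.map_det (eval z) (Matrix.of fun a b => f a (s b))

/-- every vector is a cross product -/
private theorem D0_surj (w : V3) : ∃ a b : V3, a ⨯₃ b = w := by
  by_cases h0 : w 0 = 0
  · -- `w = (0, w1, w2)`: `a = (0, -w2, w1)... `
    refine ⟨![1, 0, 0], ![0, w 2, -w 1], ?_⟩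
    rw [cross_apply]
    funext i
    fin_cases i <;> simp [h0]
  · refine ⟨![-w 1, w 0, 0], ![-w 2 / w 0, 0, 1], ?_⟩
    rw [cross_apply]
    funext i
    fin_cases i
    · simp
    · simp
    · simp
      field_simp

/-- D0 -/
theorem D0 (c ct : Fin 2 → P3) (hi : LinearIndependent ℂ c) (hct : ∃ i, ct i ≠ 0)
    (h : ∀ z w : V3, z ⬝ᵥ w = 0 → ∑ i, eval z (c i) * eval w (ct i) = 0) : False := by
  classical
  obtain ⟨i, hi0⟩ := hct
  obtain ⟨w0, hw0⟩ : ∃ w, eval w (ct i) ≠ 0 := by
    by_contra hc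
    push Not at hc
    exact hi0 (MvPolynomial.funext fun z => by simpa using hc z)
  obtain ⟨a0, b0, hab⟩ := D0_surj w0
  have hc0 : c 0 ≠ 0 := hi.ne_zero 0
  obtain ⟨b1, hb1⟩ : ∃ w, eval w (c 0) ≠ 0 := by
    by_contra hc
    push Not at hc
    exact hc0 (MvPolynomial.funext fun z => by simpa using hc z)
  obtain ⟨b, hb, hb'⟩ := D0_exists (D0_and (D0_crossR (ct i) a0 b0 (by rwa [hab]))
    (D0_poly (S := fun z => eval z (c 0) ≠ 0) (fun z hz => hz) hb1))
  have key : ∀ z : V3, eval z (aeval ![(X 1 : P3) * C (b 2) - X 2 * C (b 1),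
      X 2 * C (b 0) - X 0 * C (b 2), X 0 * C (b 1) - X 1 * C (b 0)] (ct i)) =
      eval (z ⨯₃ b) (ct i) := by
    intro z
    rw [D0_eval_aeval, cross_apply]
    congr 1
    congr 1
    funext i
    fin_cases i <;> simp
  have hE : (aeval ![(X 1 : P3) * C (b 2) - X 2 * C (b 1),
      X 2 * C (b 0) - X 0 * C (b 2), X 0 * C (b 1) - X 1 * C (b 0)] (ct i) : P3) ≠ 0 := by
    intro h0
    apply hb
    rw [← key a0, h0, map_zero]
  have hDE : (C (eval b (c 1)) * c 0 - C (eval b (c 0)) * c 1) *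
      (aeval ![(X 1 : P3) * C (b 2) - X 2 * C (b 1),
      X 2 * C (b 0) - X 0 * C (b 2), X 0 * C (b 1) - X 1 * C (b 0)] (ct i) : P3) = 0 := by
    apply MvPolynomial.funext
    intro a
    rw [map_mul, key a, map_zero, map_sub, map_mul, map_mul, eval_C, eval_C]
    have h1 := h a (a ⨯₃ b) (dot_self_cross a b)
    have h2 := h b (a ⨯₃ b) (dot_cross_self a b)
    rw [Fin.sum_univ_two] at h1 h2
    fin_cases i
    · simp only [Fin.zero_eta]
      linear_combination eval b (c 1) * h1 - eval a (c 1) * h2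
    · simp only [Fin.mk_one]
      linear_combination - eval b (c 0) * h1 + eval a (c 0) * h2
  have hD := (mul_eq_zero.1 hDE).resolve_right hE
  have hl := Fintype.linearIndependent_iff.1 hi ![eval b (c 1), - eval b (c 0)] (by
    rw [Fin.sum_univ_two]
    simp only [cons_val_zero, cons_val_one]
    rw [MvPolynomial.smul_eq_C_mul, MvPolynomial.smul_eq_C_mul, map_neg, neg_mul, ← sub_eq_add_neg]
    exact hD) 1
  simp at hl
  exact hb' hl

end Pool.Agent.Lib_helper86.D24

end

section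

namespace Pool.Agent.Lib_helper86.D24

open MvPolynomial Matrix


/-- generic points -/
private def D1_G (S : V3 → Prop) : Prop := ∃ p : P3, p ≠ 0 ∧ ∀ z, eval z p ≠ 0 → S z

private theorem D1_exists {S : V3 → Prop} (h : D1_G S) : ∃ z, S z := by
  obtain ⟨p, hp, hS⟩ := h
  by_contra hc
  push Not at hc
  apply hp
  apply MvPolynomial.funext
  intro z
  by_contra hz
  exact hc z (hS z (by simpa using hz))

private theorem D1_and {S T : V3 → Prop} (h : D1_G S) (h' : D1_G T) : D1_G (fun z => S z ∧ T z) := by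
  obtain ⟨p, hp, hS⟩ := h
  obtain ⟨q, hq, hT⟩ := h'
  refine ⟨p * q, mul_ne_zero hp hq, fun z hz => ?_⟩
  rw [map_mul] at hz
  exact ⟨hS z (left_ne_zero_of_mul hz), hT z (right_ne_zero_of_mul hz)⟩

private theorem D1_forall {ι : Type*} (Z : Finset ι) {S : ι → V3 → Prop} (h : ∀ y ∈ Z, D1_G (S y)) :
    D1_G (fun z => ∀ y ∈ Z, S y z) := by
  classical
  induction Z using Finset.induction_on with
  | empty => exact ⟨1, one_ne_zero, fun z _ y hy => by simp at hy⟩
  | insert a s ha ih =>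
    have h1 := D1_and (h a (Finset.mem_insert_self a s))
      (ih (fun y hy => h y (Finset.mem_insert_of_mem hy)))
    obtain ⟨p, hp, hS⟩ := h1
    refine ⟨p, hp, fun z hz y hy => ?_⟩
    obtain ⟨h2, h3⟩ := hS z hz
    rcases Finset.mem_insert.1 hy with rfl | hy
    · exact h2
    · exact h3 y hy

private theorem D1_poly {p : P3} {S : V3 → Prop} (hS : ∀ z, eval z p ≠ 0 → S z) {z : V3}
    (hz : eval z p ≠ 0) : D1_G S :=
  ⟨p, fun h => hz (by rw [h]; simp), hS⟩

private theorem D1_eval_aeval (f : Fin 3 → P3) (G : P3) (z : V3) :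
    eval z (aeval f G) = eval (fun i => eval z (f i)) G := by
  induction G using MvPolynomial.induction_on with
  | C a => simp
  | add p q hp hq => simp only [map_add, hp, hq]
  | mul_X p i hp => simp only [map_mul, hp, aeval_X, eval_X]

private theorem D1_lin_eval (l z : V3) : eval z (lin l) = l ⬝ᵥ z := by
  simp [lin, dotProduct, map_sum]

/-- a non-zero linear form -/
private theorem D1_dot (l : V3) (hl : l ≠ 0) : D1_G (fun z => l ⬝ᵥ z ≠ 0) := by
  have : ∃ z, eval z (lin l) ≠ 0 := by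
    obtain ⟨i, hi⟩ : ∃ i, l i ≠ 0 := by
      by_contra hc
      push Not at hc
      exact hl (funext hc)
    refine ⟨Pi.single i 1, ?_⟩
    rw [D1_lin_eval]
    simpa using hi
  obtain ⟨z, hz⟩ := this
  exact D1_poly (p := lin l) (fun z hz => by rwa [D1_lin_eval] at hz) hz

/-- `a ⨯ y ≠ 0` is generic for `y ≠ 0`. -/
private theorem D1_cross_ne (y : V3) (hy : y ≠ 0) : D1_G (fun a => a ⨯₃ y ≠ 0) := by
  -- some coordinate linear form of `a ⨯ y` is non-zero
  obtain ⟨w, hw⟩ : ∃ w : V3, y ⨯₃ w ≠ 0 := by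
    by_contra hc
    push Not at hc
    have h0 := hc ![1, 0, 0]
    have h1 := hc ![0, 1, 0]
    rw [cross_apply] at h0 h1
    apply hy
    have e1 := congrFun h0 1
    have e2 := congrFun h0 2
    have e3 := congrFun h1 0
    have e4 := congrFun h1 2
    simp at e1 e2 e3 e4
    funext i
    fin_cases i
    · simpa using e4
    · simpa using e2
    · simpa using e1
  obtain ⟨p, hp, hS⟩ := D1_dot _ hw
  refine ⟨p, hp, fun a ha hc => ?_⟩
  apply hS a ha
  -- (y ⨯ w) · a = (a ⨯ y) · w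
  have : (y ⨯₃ w) ⬝ᵥ a = (a ⨯₃ y) ⬝ᵥ w := by
    simp only [cross_apply, dotProduct, Fin.sum_univ_three, cons_val]
    ring
  rw [this, hc, zero_dotProduct]

private theorem D1_triple (a b c : V3) : (a ⨯₃ b) ⬝ᵥ c = (c ⨯₃ a) ⬝ᵥ b := by
  simp only [cross_apply, dotProduct, Fin.sum_univ_three, cons_val]
  ring


/-- the line `a + t v` -/
private noncomputable def D1L (a v : V3) : P3 →ₐ[ℂ] Polynomial ℂ :=
  aeval (fun i => Polynomial.C (a i) + Polynomial.C (v i) * Polynomial.X)

private theorem D1L_eval (a v : V3) (P : P3) (t : ℂ) :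
    (D1L a v P).eval t = eval (a + t • v) P := by
  induction P using MvPolynomial.induction_on with
  | C x => simp [D1L]
  | add p q hp hq => simp only [map_add, Polynomial.eval_add, hp, hq]
  | mul_X p i hp =>
    have h1 : D1L a v (X i) = Polynomial.C (a i) + Polynomial.C (v i) * Polynomial.X := by
      simp [D1L]
    rw [map_mul, Polynomial.eval_mul, hp, map_mul, eval_X, h1, Polynomial.eval_add,
      Polynomial.eval_mul, Polynomial.eval_C, Polynomial.eval_C, Polynomial.eval_X, Pi.add_apply,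
      Pi.smul_apply, smul_eq_mul, mul_comm t]

private theorem D1_dv (v : V3) (P : P3) : dv v P = C (v 0) * pderiv 0 P + C (v 1) * pderiv 1 P +
    C (v 2) * pderiv 2 P := by
  simp only [dv, Fin.sum_univ_three, Derivation.add_apply, Derivation.smul_apply, smul_eq_mul]

private theorem D1_dv_X (v : V3) (i : Fin 3) : dv v (X i) = C (v i) := by
  rw [D1_dv]
  fin_cases i <;> simp [pderiv_X, Pi.single_apply]

private theorem D1L_deriv (a v : V3) (P : P3) :
    Polynomial.derivative (D1L a v P) = D1L a v (dv v P) := by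
  induction P using MvPolynomial.induction_on with
  | C x =>
    have h1 : dv v (C x) = 0 := by
      rw [← algebraMap_eq]
      exact Derivation.map_algebraMap _ _
    rw [h1, map_zero]
    simp [D1L]
  | add p q hp hq => simp only [map_add, hp, hq]
  | mul_X p i hp =>
    rw [map_mul, Polynomial.derivative_mul, hp, Derivation.leibniz, map_add, smul_eq_mul,
      smul_eq_mul, map_mul, map_mul, D1_dv_X]
    have h1 : D1L a v (X i) = Polynomial.C (a i) + Polynomial.C (v i) * Polynomial.X := by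
      simp [D1L]
    have h2 : D1L a v (C (v i)) = Polynomial.C (v i) := by
      simp [D1L]
    rw [h1, h2]
    simp
    ring

private theorem D1L_top {n : ℕ} {P : P3} (hP : P.IsHomogeneous n) (a v : V3) :
    (D1L a v P).natDegree ≤ n ∧ (D1L a v P).coeff n = eval v P := by
  have key : ∀ d : Fin 3 →₀ ℕ, d.degree = n →
      (D1L a v (monomial d (coeff d P))).natDegree ≤ n ∧
      (D1L a v (monomial d (coeff d P))).coeff n = eval v (monomial d (coeff d P)) := by
    intro d hd
    have e1 : D1L a v (monomial d (coeff d P)) = Polynomial.C (coeff d P) *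
        ∏ i : Fin 3, (Polynomial.C (a i) + Polynomial.C (v i) * Polynomial.X) ^ d i := by
      rw [D1L, aeval_monomial, Finsupp.prod_fintype _ _ (by intro i; simp)]
      rfl
    have hl : ∀ i : Fin 3, (Polynomial.C (a i) + Polynomial.C (v i) * Polynomial.X :
        Polynomial ℂ).natDegree ≤ 1 := by
      intro i
      rw [add_comm]
      exact Polynomial.natDegree_linear_le
    have hl' : ∀ i : Fin 3, ((Polynomial.C (a i) + Polynomial.C (v i) * Polynomial.X :
        Polynomial ℂ) ^ d i).natDegree ≤ d i := by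
      intro i
      exact (Polynomial.natDegree_pow_le_of_le (d i) (hl i)).trans (by simp)
    have hs : ∑ i : Fin 3, d i = n := by
      rw [← hd, Finsupp.degree_eq_sum]
    have hc : ∀ i : Fin 3, ((Polynomial.C (a i) + Polynomial.C (v i) * Polynomial.X :
        Polynomial ℂ) ^ d i).coeff (d i) = v i ^ d i := by
      intro i
      have := Polynomial.coeff_pow_of_natDegree_le (m := d i) (hl i)
      rw [mul_one] at this
      rw [this]
      simp
    constructor
    · rw [e1]
      refine (Polynomial.natDegree_C_mul_le _ _).trans ?_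
      refine (Polynomial.natDegree_prod_le _ _).trans ?_
      rw [← hs]
      exact Finset.sum_le_sum fun i _ => hl' i
    · rw [e1, Polynomial.coeff_C_mul, eval_monomial, Finsupp.prod_fintype _ _ (by intro i; simp)]
      congr 1
      rw [← hs]
      simp only [Fin.sum_univ_three, Fin.prod_univ_three]
      rw [Polynomial.coeff_mul_add_eq_of_natDegree_le
        ((Polynomial.natDegree_mul_le).trans (add_le_add (hl' 0) (hl' 1))) (hl' 2),
        Polynomial.coeff_mul_add_eq_of_natDegree_le (hl' 0) (hl' 1), hc, hc, hc]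
  have hsum : P = ∑ d ∈ P.support, monomial d (coeff d P) := (support_sum_monomial_coeff P).symm
  have hdeg : ∀ d ∈ P.support, d.degree = n := by
    intro d hd
    have := hP (mem_support_iff.1 hd)
    rw [Finsupp.degree_eq_weight_one]
    exact this
  have e2 : D1L a v P = ∑ d ∈ P.support, D1L a v (monomial d (coeff d P)) := by
    conv_lhs => rw [hsum]
    rw [map_sum]
  have e3 : eval v P = ∑ d ∈ P.support, eval v (monomial d (coeff d P)) := by
    conv_lhs => rw [hsum]
    rw [map_sum]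
  rw [e2, e3]
  constructor
  · exact Polynomial.natDegree_sum_le_of_forall_le _ _ fun d hd => (key d (hdeg d hd)).1
  · rw [Polynomial.finsetSum_coeff]
    exact Finset.sum_congr rfl fun d hd => (key d (hdeg d hd)).2

/-- the Wronskian on a line -/
private theorem D1_wr {P R : Polynomial ℂ}
    (h : P * Polynomial.derivative R = R * Polynomial.derivative P) (h0 : P.eval 0 ≠ 0) :
    R = Polynomial.C (R.eval 0 / P.eval 0) * P := by
  set S := R - Polynomial.C (R.eval 0 / P.eval 0) * P with hS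
  have hPS : P * Polynomial.derivative S = S * Polynomial.derivative P := by
    rw [hS]
    simp only [Polynomial.derivative_sub, Polynomial.derivative_mul, Polynomial.derivative_C]
    linear_combination h
  have hS0 : S.eval 0 = 0 := by
    simp [hS, h0]
  by_cases hz : S = 0
  · exact sub_eq_zero.1 hz
  exfalso
  obtain ⟨T, hT, hT'⟩ := Polynomial.exists_eq_pow_rootMultiplicity_mul_and_not_dvd S hz 0
  have hk : 0 < Polynomial.rootMultiplicity 0 S :=
    (Polynomial.rootMultiplicity_pos hz).2 hS0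
  obtain ⟨k, hk⟩ := Nat.exists_eq_succ_of_ne_zero hk.ne'
  rw [hk] at hT
  simp only [map_zero, sub_zero, Nat.succ_eq_add_one] at hT hT'
  rw [hT] at hPS
  have h1 : (Polynomial.X : Polynomial ℂ) ^ k * (P * (Polynomial.C ((k : ℂ) + 1) * T) +
      Polynomial.X * (P * Polynomial.derivative T - T * Polynomial.derivative P)) = 0 := by
    have h2 : Polynomial.derivative ((Polynomial.X : Polynomial ℂ) ^ (k + 1)) =
        Polynomial.C ((k : ℂ) + 1) * Polynomial.X ^ k := by
      rw [Polynomial.derivative_X_pow]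
      simp
    rw [Polynomial.derivative_mul, h2] at hPS
    linear_combination hPS
  have h3 := (mul_eq_zero.1 h1).resolve_left (pow_ne_zero k Polynomial.X_ne_zero)
  have h4 := congrArg (Polynomial.eval 0) h3
  simp only [Polynomial.eval_add, Polynomial.eval_mul, Polynomial.eval_X, zero_mul, add_zero,
    Polynomial.eval_C, Polynomial.eval_zero] at h4
  have h5 : T.eval 0 ≠ 0 := by
    intro h6
    exact hT' (Polynomial.X_dvd_iff.2 (by rwa [Polynomial.coeff_zero_eq_eval_zero]))
  exact mul_ne_zero h0 (mul_ne_zero (by exact_mod_cast Nat.succ_ne_zero k) h5) h4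

/-- a polynomial without zeros -/
private theorem D1_const {H : Polynomial ℂ} (h : ∀ t, H.eval t ≠ 0) :
    H = Polynomial.C (H.coeff 0) := by
  by_contra hc
  have hd : H.degree ≠ 0 := by
    intro h0
    exact hc (Polynomial.eq_C_of_degree_eq_zero h0)
  obtain ⟨t, ht⟩ := IsAlgClosed.exists_root H hd
  exact h t ht

/-- The key claim on binary cubic forms. -/
private theorem D1_binary (N1 N2 : V3) (f : Fin 3 → Polynomial ℂ) (top : V3)
    (hd : ∀ i, (f i).natDegree ≤ 3) (ht : ∀ i, (f i).coeff 3 = top i)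
    (hf : ∀ t : ℂ, ∃ i, (f i).eval t ≠ 0) (htop : ∃ i, top i ≠ 0)
    (hN : ∀ t : ℂ, (t • N1 + N2) ⨯₃ (fun i => (f i).eval t) = 0)
    (hN1 : N1 ⨯₃ top = 0) : N1 = 0 := by
  by_contra hne
  obtain ⟨i0, hi0⟩ : ∃ i, N1 i ≠ 0 := by
    by_contra hc
    push Not at hc
    exact hne (funext hc)
  by_cases hM : N1 ⨯₃ N2 = 0
  · -- `N2 = β N1`
    set β : ℂ := N2 i0 / N1 i0 with hβ
    have hm : ∀ i, N2 i = β * N1 i := by
      have h0 := congrFun hM 0
      have h1 := congrFun hM 1
      have h2 := congrFun hM 2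
      rw [cross_apply] at h0 h1 h2
      simp only [cons_val_zero, cons_val_one, cons_val, Pi.zero_apply] at h0 h1 h2
      intro i
      rw [hβ, div_mul_eq_mul_div, eq_div_iff hi0]
      fin_cases i <;> fin_cases i0 <;>
        simp only [Fin.zero_eta, Fin.mk_one, Fin.reduceFinMk] <;>
        first
          | ring1
          | linear_combination h0
          | linear_combination -h0
          | linear_combination h1
          | linear_combination -h1
          | linear_combination h2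
          | linear_combination -h2
    -- `N1 ⨯ f = 0`
    have hz : ∀ i j, Polynomial.C (N1 i) * f j = Polynomial.C (N1 j) * f i := by
      intro i j
      have h1 : (Polynomial.X + Polynomial.C β) *
          (Polynomial.C (N1 i) * f j - Polynomial.C (N1 j) * f i) = 0 := by
        apply Polynomial.funext
        intro t
        have hN' := hN t
        have h0 := congrFun hN' 0
        have h1 := congrFun hN' 1
        have h2 := congrFun hN' 2
        rw [cross_apply] at h0 h1 h2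
        simp only [cons_val_zero, cons_val_one, cons_val, Pi.zero_apply, Pi.add_apply,
          Pi.smul_apply, smul_eq_mul, hm] at h0 h1 h2
        simp only [Polynomial.eval_mul, Polynomial.eval_add, Polynomial.eval_X, Polynomial.eval_C,
          Polynomial.eval_sub, Polynomial.eval_zero]
        fin_cases i <;> fin_cases j <;>
          simp only [Fin.zero_eta, Fin.mk_one, Fin.reduceFinMk] <;>
          first
            | ring1
            | linear_combination h0
            | linear_combination -h0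
            | linear_combination h1
            | linear_combination -h1
            | linear_combination h2
            | linear_combination -h2
      have h2 := (mul_eq_zero.1 h1).resolve_left (Polynomial.X_add_C_ne_zero β)
      exact sub_eq_zero.1 h2
    -- `f j = (N1 j / N1 i0) f i0`
    have hf0 : ∀ t, (f i0).eval t ≠ 0 := by
      intro t h0
      obtain ⟨j, hj⟩ := hf t
      have := congrArg (Polynomial.eval t) (hz i0 j)
      rw [Polynomial.eval_mul, Polynomial.eval_mul, h0, mul_zero, Polynomial.eval_C] at this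
      exact mul_ne_zero hi0 hj this
    have h3 := D1_const hf0
    have h4 : (f i0).coeff 3 = 0 := by
      rw [h3]
      simp [Polynomial.coeff_C]
    obtain ⟨j, hj⟩ := htop
    apply hj
    have h5 := congrArg (fun p => Polynomial.coeff p 3) (hz i0 j)
    simp only [Polynomial.coeff_C_mul, h4, mul_zero, ht] at h5
    exact (mul_eq_zero.1 h5).resolve_left hi0
  · -- `N1, N2` independent
    obtain ⟨k, hk⟩ : ∃ k : V3, k ⬝ᵥ (N1 ⨯₃ N2) = 1 := by
      obtain ⟨j, hj⟩ : ∃ j, (N1 ⨯₃ N2) j ≠ 0 := by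
        by_contra hc
        push Not at hc
        exact hM (funext hc)
      refine ⟨Pi.single j ((N1 ⨯₃ N2) j)⁻¹, ?_⟩
      rw [single_dotProduct, inv_mul_cancel₀ hj]
    set e1 : V3 := N2 ⨯₃ k with he1
    set e2 : V3 := k ⨯₃ N1 with he2
    set F : Polynomial ℂ := ∑ i, Polynomial.C (e1 i) * f i with hF
    set G : Polynomial ℂ := ∑ i, Polynomial.C (e2 i) * f i with hG
    have hFe : ∀ t, F.eval t = e1 ⬝ᵥ (fun i => (f i).eval t) := by
      intro t
      simp [hF, Polynomial.eval_finsetSum, dotProduct]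
    have hGe : ∀ t, G.eval t = e2 ⬝ᵥ (fun i => (f i).eval t) := by
      intro t
      simp [hG, Polynomial.eval_finsetSum, dotProduct]
    have e11 : e1 ⬝ᵥ N1 = 1 := by
      rw [← hk, he1]
      simp only [cross_apply, dotProduct, Fin.sum_univ_three, cons_val]
      ring
    have e12 : e1 ⬝ᵥ N2 = 0 := by
      rw [he1]
      simp only [cross_apply, dotProduct, Fin.sum_univ_three, cons_val]
      ring
    have e21 : e2 ⬝ᵥ N1 = 0 := by
      rw [he2]
      simp only [cross_apply, dotProduct, Fin.sum_univ_three, cons_val]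
      ring
    have e22 : e2 ⬝ᵥ N2 = 1 := by
      rw [← hk, he2]
      simp only [cross_apply, dotProduct, Fin.sum_univ_three, cons_val]
      ring
    -- a vector parallel to `N ≠ 0` and killed by `e1, e2` is zero
    have par : ∀ N x : V3, N ⨯₃ x = 0 → ∀ e : V3, ∀ i, (e ⬝ᵥ N) * x i = (e ⬝ᵥ x) * N i := by
      intro N x hNx e i
      have h0 := congrFun hNx 0
      have h1 := congrFun hNx 1
      have h2 := congrFun hNx 2
      rw [cross_apply] at h0 h1 h2
      simp only [cons_val_zero, cons_val_one, cons_val, Pi.zero_apply] at h0 h1 h2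
      simp only [dotProduct, Fin.sum_univ_three]
      fin_cases i <;> simp only [Fin.zero_eta, Fin.mk_one, Fin.reduceFinMk]
      · linear_combination e 2 * h1 - e 1 * h2
      · linear_combination e 0 * h2 - e 2 * h0
      · linear_combination e 1 * h0 - e 0 * h1
    have hXG : F = Polynomial.X * G := by
      apply Polynomial.funext
      intro t
      rw [Polynomial.eval_mul, Polynomial.eval_X, hFe, hGe]
      have hp := par _ _ (hN t) e1
      have hq : (e1 ⬝ᵥ (t • N1 + N2)) * (e2 ⬝ᵥ (fun i => (f i).eval t)) =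
          (e1 ⬝ᵥ (fun i => (f i).eval t)) * (e2 ⬝ᵥ (t • N1 + N2)) := by
        have h0 := hp 0
        have h1 := hp 1
        have h2 := hp 2
        have x1 : e2 ⬝ᵥ (fun i => (f i).eval t) =
          e2 0 * (f 0).eval t + e2 1 * (f 1).eval t + e2 2 * (f 2).eval t := by
          simp [dotProduct, Fin.sum_univ_three]
        have x2 : e2 ⬝ᵥ (t • N1 + N2) =
          e2 0 * (t • N1 + N2) 0 + e2 1 * (t • N1 + N2) 1 + e2 2 * (t • N1 + N2) 2 := by
          simp [dotProduct, Fin.sum_univ_three]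
        rw [x1, x2]
        linear_combination e2 0 * h0 + e2 1 * h1 + e2 2 * h2
      rw [dotProduct_add, dotProduct_smul, dotProduct_add, dotProduct_smul, e11, e12, e21, e22] at hq
      simp only [smul_eq_mul, mul_one, mul_zero, add_zero, zero_add] at hq
      exact hq.symm
    have hG0 : ∀ t, G.eval t ≠ 0 := by
      intro t h0
      obtain ⟨i, hi⟩ := hf t
      have hF0 : F.eval t = 0 := by rw [hXG, Polynomial.eval_mul, h0, mul_zero]
      have h1 := par _ _ (hN t) e2 i
      rw [← hGe, h0, zero_mul, dotProduct_add, dotProduct_smul, e21, e22, smul_zero, zero_add,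
        one_mul] at h1
      exact hi h1
    have h3 := D1_const hG0
    have h4 : F.coeff 3 = 0 := by
      rw [hXG, h3, mul_comm, Polynomial.coeff_C_mul, Polynomial.coeff_X]
      simp
    have h5 : F.coeff 3 = e1 ⬝ᵥ top := by
      rw [hF]
      simp [Polynomial.finsetSum_coeff, dotProduct, ht]
    obtain ⟨i, hi⟩ := htop
    have h6 := par _ _ hN1 e1 i
    rw [← h5, h4, zero_mul, e11, one_mul] at h6
    exact hi h6

/-- D1 (uses E2, D0) -/
theorem D1 {m mt : P3} {c ct : Fin 2 → P3} {g : Fin 2 → Polynomial ℂ} {ρ : Polynomial ℂ} {κ : ℂ}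
    {Γ : Matrix (Fin (0 + 1)) (Fin (0 + 1)) ℂ} (h : SF 0 m mt c ct g ρ κ Γ) : False := by
  classical
  have hI : ∀ z w : V3, z ⬝ᵥ w = 0 →
      ∑ i, eval z (c i) * eval w (ct i) = eval z m * eval w mt * Γ 0 0 := by
    intro z w hzw
    rw [h.I3 z w hzw]
    simp [bh]
  by_cases hγ : Γ 0 0 = 0
  · exact D0 c ct h.indc ⟨0, h.indct.ne_zero 0⟩ fun z w hzw => by
      rw [hI z w hzw, hγ, mul_zero]
  set Φ : Fin 3 → P3 := ![c 0, c 1, m] with hΦ
  set Φt : Fin 3 → P3 := ![ct 0, ct 1, C (-Γ 0 0) * mt] with hΦt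
  have hO : ∀ z w : V3, z ⬝ᵥ w = 0 → ∑ i, eval z (Φ i) * eval w (Φt i) = 0 := by
    intro z w hzw
    have := hI z w hzw
    rw [Fin.sum_univ_two] at this
    rw [Fin.sum_univ_three]
    simp only [hΦ, hΦt, cons_val_zero, cons_val_one, cons_val, map_mul, eval_C]
    linear_combination this
  have hhom : ∀ i, (Φt i).IsHomogeneous 3 := by
    intro i
    fin_cases i
    · exact h.homct 0
    · exact h.homct 1
    · have := (isHomogeneous_C (Fin 3) (-Γ 0 0)).mul h.hommt
      simpa [hΦt] using this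
  have hprim : Prim Φt := by
    intro r hr
    have h0 := hr 0
    have h1 := hr 1
    have h2 := hr 2
    simp only [hΦt, cons_val_zero, cons_val_one, cons_val] at h0 h1 h2
    refine h.primt r ?_ ?_
    · have hu : IsUnit (C (-Γ 0 0) : P3) := (isUnit_iff_ne_zero.2 (neg_ne_zero.2 hγ)).map C
      exact (hu.dvd_mul_left).1 h2
    · intro i
      fin_cases i
      · exact h0
      · exact h1
  obtain ⟨Z, hZ0, hZ⟩ := finite_zeros Φt (fun i => ⟨3, hhom i⟩) hprim
  -- the Wronskian
  have hW : ∀ v : V3, Φ 0 * dv v (Φ 1) - Φ 1 * dv v (Φ 0) = 0 := by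
    intro v
    by_cases hv : v = 0
    · have hd : dv (0 : V3) = 0 := by
        simp [dv]
      rw [hv, hd]
      simp
    by_contra hne
    have g1 : D1_G (fun a => eval a (Φ 0 * dv v (Φ 1) - Φ 1 * dv v (Φ 0)) ≠ 0) :=
      ⟨_, hne, fun z hz => hz⟩
    obtain ⟨a, ⟨ha1, ha2⟩, ha3⟩ := D1_exists (D1_and (D1_and g1 (D1_cross_ne v hv))
      (D1_forall Z (fun y hy => D1_dot y (hZ0 y hy))))
    apply ha1
    -- the second vector
    obtain ⟨v2, hv2⟩ := D1_exists (D1_dot _ ha2)
    have hdet : (a ⨯₃ v) ⬝ᵥ v2 ≠ 0 := hv2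
    have hw : ∀ p q : ℂ, (p ≠ 0 ∨ q ≠ 0) → ∃ i, eval (a ⨯₃ (p • v + q • v2)) (Φt i) ≠ 0 := by
      intro p q hpq
      by_contra hc
      push Not at hc
      have hwne : a ⨯₃ (p • v + q • v2) ≠ 0 := by
        intro h0
        have hp : p * ((a ⨯₃ v) ⬝ᵥ v2) = 0 := by
          have : p * ((a ⨯₃ v) ⬝ᵥ v2) = (a ⨯₃ (p • v + q • v2)) ⬝ᵥ v2 := by
            simp only [cross_apply, dotProduct, Fin.sum_univ_three, cons_val, Pi.add_apply,
              Pi.smul_apply, smul_eq_mul]
            ring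
          rw [this, h0, zero_dotProduct]
        have hq : q * ((a ⨯₃ v) ⬝ᵥ v2) = 0 := by
          have : q * ((a ⨯₃ v) ⬝ᵥ v2) = -((a ⨯₃ (p • v + q • v2)) ⬝ᵥ v) := by
            simp only [cross_apply, dotProduct, Fin.sum_univ_three, cons_val, Pi.add_apply,
              Pi.smul_apply, smul_eq_mul]
            ring
          rw [this, h0, zero_dotProduct, neg_zero]
        rcases hpq with h1 | h1
        · exact mul_ne_zero h1 hdet hp
        · exact mul_ne_zero h1 hdet hq
      obtain ⟨y, hy, t, hty⟩ := hZ _ hwne hc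
      have ht : t ≠ 0 := by
        rintro rfl
        rw [zero_smul] at hty
        exact hwne hty
      have h1 : a ⬝ᵥ (a ⨯₃ (p • v + q • v2)) = 0 := dot_self_cross _ _
      rw [hty, dotProduct_smul, smul_eq_mul, dotProduct_comm] at h1
      exact mul_ne_zero ht (ha3 y hy) h1
    -- orthogonality of the derivative
    have hO' : ∀ u : V3, ∑ i, eval a (dv u (Φ i)) * eval (a ⨯₃ u) (Φt i) = 0 := by
      intro u
      have h1 : ∑ i, D1L a u (Φ i) * Polynomial.C (eval (a ⨯₃ u) (Φt i)) = 0 := by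
        apply Polynomial.funext
        intro t
        rw [Polynomial.eval_finsetSum, Polynomial.eval_zero]
        simp only [Polynomial.eval_mul, Polynomial.eval_C, D1L_eval]
        apply hO
        rw [add_dotProduct, smul_dotProduct, dot_self_cross, dot_cross_self, smul_zero, add_zero]
      have h2 := congrArg (fun p => (Polynomial.derivative p).eval 0) h1
      simp only [Polynomial.derivative_sum, Polynomial.derivative_mul, Polynomial.derivative_C,
        mul_zero, add_zero, D1L_deriv, Polynomial.eval_finsetSum, Polynomial.eval_mul,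
        Polynomial.eval_C, D1L_eval, zero_smul, Polynomial.derivative_zero,
        Polynomial.eval_zero] at h2
      exact h2
    have hlin : ∀ (p q : ℂ) (i : Fin 3), eval a (dv (p • v + q • v2) (Φ i)) =
        p * eval a (dv v (Φ i)) + q * eval a (dv v2 (Φ i)) := by
      intro p q i
      simp only [D1_dv, map_add, map_mul, eval_C, Pi.add_apply, Pi.smul_apply, smul_eq_mul]
      ring
    set A : V3 := fun i => eval a (Φ i) with hA
    set B1 : V3 := fun i => eval a (dv v (Φ i)) with hB1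
    set B2 : V3 := fun i => eval a (dv v2 (Φ i)) with hB2
    have hNφ : ∀ p q : ℂ, (p • (A ⨯₃ B1) + q • (A ⨯₃ B2)) ⨯₃
        (fun i => eval (a ⨯₃ (p • v + q • v2)) (Φt i)) = 0 := by
      intro p q
      set x : V3 := fun i => eval (a ⨯₃ (p • v + q • v2)) (Φt i) with hx
      have h1 : A ⬝ᵥ x = 0 := hO a (a ⨯₃ (p • v + q • v2)) (dot_self_cross _ _)
      have h2 : (p • B1 + q • B2) ⬝ᵥ x = 0 := by
        have := hO' (p • v + q • v2)
        simp only [hlin] at this
        exact this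
      simp only [dotProduct, Fin.sum_univ_three, Pi.add_apply, Pi.smul_apply, smul_eq_mul] at h1 h2
      rw [cross_apply]
      funext i
      fin_cases i <;> simp [cross_apply]
      · linear_combination (p * B1 0 + q * B2 0) * h1 - A 0 * h2
      · linear_combination (p * B1 1 + q * B2 1) * h1 - A 1 * h2
      · linear_combination (p * B1 2 + q * B2 2) * h1 - A 2 * h2
    have hzero : A ⨯₃ B1 = 0 := by
      refine D1_binary (A ⨯₃ B1) (A ⨯₃ B2)
        (fun i => D1L (a ⨯₃ v2) (a ⨯₃ v) (Φt i)) (fun i => eval (a ⨯₃ v) (Φt i))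
        (fun i => (D1L_top (hhom i) _ _).1) (fun i => (D1L_top (hhom i) _ _).2) ?_ ?_ ?_ ?_
      · intro t
        obtain ⟨i, hi⟩ := hw t 1 (Or.inr one_ne_zero)
        refine ⟨i, ?_⟩
        rw [D1L_eval]
        convert hi using 2
        rw [one_smul, map_add, map_smul, add_comm]
      · obtain ⟨i, hi⟩ := hw 1 0 (Or.inl one_ne_zero)
        refine ⟨i, ?_⟩
        convert hi using 2
        rw [one_smul, zero_smul, add_zero]
      · intro t
        have := hNφ t 1
        rw [one_smul] at this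
        convert this using 2
        funext i
        rw [D1L_eval]
        congr 1
        congr 1
        rw [one_smul, map_add, map_smul, add_comm]
      · have := hNφ 1 0
        rw [one_smul, zero_smul, add_zero, one_smul, zero_smul, add_zero] at this
        exact this
    have h9 := congrFun hzero 2
    rw [cross_apply] at h9
    simp only [cons_val, Pi.zero_apply] at h9
    rw [map_sub, map_mul, map_mul]
    exact h9
  -- dependence
  have hc0 : c 0 ≠ 0 := h.indc.ne_zero 0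
  obtain ⟨b, hb⟩ : ∃ w, eval w (c 0) ≠ 0 := by
    by_contra hc
    push Not at hc
    exact hc0 (MvPolynomial.funext fun z => by simpa using hc z)
  have hdep : C (eval b (c 1) / eval b (c 0)) * c 0 - c 1 = 0 := by
    apply MvPolynomial.funext
    intro z
    have h1 := congrArg (D1L b (z - b)) (hW (z - b))
    rw [map_sub, map_mul, map_mul, ← D1L_deriv, ← D1L_deriv, map_zero] at h1
    have h2 := D1_wr (P := D1L b (z - b) (c 0)) (R := D1L b (z - b) (c 1))
      (by
        simp only [hΦ, cons_val_zero, cons_val_one] at h1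
        exact sub_eq_zero.1 h1) (by rw [D1L_eval]; simpa using hb)
    have h3 := congrArg (Polynomial.eval 1) h2
    rw [Polynomial.eval_mul, Polynomial.eval_C, D1L_eval, D1L_eval, D1L_eval, D1L_eval] at h3
    simp only [one_smul, zero_smul, add_zero, add_sub_cancel] at h3
    rw [map_sub, map_mul, eval_C, h3, map_zero, sub_self]
  have hl := Fintype.linearIndependent_iff.1 h.indc ![eval b (c 1) / eval b (c 0), -1] (by
    rw [Fin.sum_univ_two]
    simp only [cons_val_zero, cons_val_one]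
    rw [MvPolynomial.smul_eq_C_mul, neg_one_smul, ← sub_eq_add_neg]
    exact hdep) 1
  simp at hl

end Pool.Agent.Lib_helper86.D24

end

section

namespace Pool.Agent.Lib_helper86.D24

open MvPolynomial Matrix


/-- the homogenization along `u, v` -/
private theorem q1_hom (u v : P3) (g : Polynomial ℂ) (r : ℕ) :
    aeval ![u, v] (g.homogenize r) = ∑ i ∈ Finset.range (r + 1), C (g.coeff i) * v ^ (r - i) * u ^ i := by
  rw [Polynomial.homogenize, map_sum, Finset.Nat.sum_antidiagonal_eq_sum_range_succ_mk]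
  refine Finset.sum_congr rfl fun i _ => ?_
  have h : (MvPolynomial.monomial (Finsupp.single (0 : Fin 2) i + Finsupp.single 1 (r - i))) (g.coeff i)
      = C (g.coeff i) * X 0 ^ i * X 1 ^ (r - i) := by
    rw [X_pow_eq_monomial, X_pow_eq_monomial, C_mul_monomial, monomial_mul, mul_one, mul_one]
  have hs : (fun₀ | 0 => i | 1 => r - i : Fin 2 →₀ ℕ) = Finsupp.single (0 : Fin 2) i + Finsupp.single 1 (r - i) := by
    ext k
    fin_cases k <;> simp
  dsimp only
  rw [hs, h]
  simp only [map_mul, map_pow, aeval_C, aeval_X, Matrix.cons_val_zero, Matrix.cons_val_one]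
  rw [show (algebraMap ℂ P3) (g.coeff i) = C (g.coeff i) from rfl]
  ring

/-- the form -/
private noncomputable def q1H (u v : P3) (r : ℕ) (g : Polynomial ℂ) : P3 :=
  ∑ i ∈ Finset.range (r + 1), C (g.coeff i) * v ^ (r - i) * u ^ i

private theorem q1_relPrime (u v : P3) (hv : Prime v) (huv : ¬ v ∣ u) {r : ℕ}
    {g : Fin 2 → Polynomial ℂ} (deg : ∀ i, (g i).natDegree ≤ r) (top : ∃ i, (g i).natDegree = r)
    (cop : IsCoprime (g 0) (g 1)) (hr : 1 ≤ r) :
    IsRelPrime (q1H u v r (g 0)) (q1H u v r (g 1)) := by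
  obtain ⟨a, b, hab⟩ := cop
  set n := max a.natDegree b.natDegree with hn
  have h1 : aeval ![u, v] ((a * g 0 + b * g 1).homogenize (n + r)) = v ^ (n + r) := by
    rw [hab, Polynomial.homogenize_one]
    simp
  rw [Polynomial.homogenize_add, Polynomial.homogenize_mul a (g 0) (le_max_left _ _) (deg 0),
    Polynomial.homogenize_mul b (g 1) (le_max_right _ _) (deg 1), map_add, map_mul, map_mul,
    q1_hom u v (g 0), q1_hom u v (g 1)] at h1
  intro d hd0 hd1
  have h2 : d ∣ v ^ (n + r) := by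
    rw [← h1]
    exact dvd_add (Dvd.dvd.mul_left hd0 _) (Dvd.dvd.mul_left hd1 _)
  obtain ⟨j, hj, hdj⟩ := (dvd_prime_pow hv _).1 h2
  rcases Nat.eq_zero_or_pos j with rfl | hj0
  · rw [pow_zero] at hdj
    exact hdj.isUnit_iff.2 isUnit_one
  · exfalso
    have h3 : v ∣ d := (dvd_pow_self v hj0.ne').trans hdj.symm.dvd
    have key : ∀ f : Polynomial ℂ, f.coeff r ≠ 0 → v ∣ q1H u v r f → False := by
      intro f hf hvf
      rw [q1H, Finset.sum_range_succ] at hvf
      have h4 : v ∣ ∑ i ∈ Finset.range r, C (f.coeff i) * v ^ (r - i) * u ^ i := by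
        refine Finset.dvd_sum fun i hi => ?_
        rw [Finset.mem_range] at hi
        exact Dvd.dvd.mul_right (Dvd.dvd.mul_left (dvd_pow_self v (by omega)) _) _
      have h5 := (dvd_add_right h4).1 hvf
      rw [Nat.sub_self, pow_zero, mul_one] at h5
      rcases hv.dvd_or_dvd h5 with h6 | h6
      · have h7 : IsUnit (C (f.coeff r) : P3) := (isUnit_iff_ne_zero.2 hf).map C
        exact hv.not_isUnit (isUnit_of_dvd_unit h6 h7)
      · exact huv (hv.dvd_of_dvd_pow h6)
    obtain ⟨i, hi⟩ := top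
    have hgi : g i ≠ 0 := by
      rintro h0
      rw [h0, Polynomial.natDegree_zero] at hi
      omega
    have hci : (g i).coeff r ≠ 0 := by
      rw [← hi]
      exact Polynomial.leadingCoeff_ne_zero.2 hgi
    fin_cases i
    · exact key (g 0) hci (h3.trans hd0)
    · exact key (g 1) hci (h3.trans hd1)

/-- `tl ε` as a ring homomorphism -/
private noncomputable def q1T (ε : ℝ) : P3 →+* P3 :=
  ((aeval ![C (ε : ℂ) * X 0, X 1, -(C (ε : ℂ) * X 2)] : P3 →ₐ[ℂ] P3) : P3 →+* P3).comp
    (MvPolynomial.map (starRingEnd ℂ))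

private theorem q1T_eq (ε : ℝ) (P : P3) : tl ε P = q1T ε P := rfl

private theorem q1T_C (ε : ℝ) (a : ℂ) : q1T ε (C a) = C ((starRingEnd ℂ) a) := by
  simp [q1T]

private theorem q1T_X (ε : ℝ) : q1T ε (X 0) = C (ε : ℂ) * X 0 ∧ q1T ε (X 1) = X 1 ∧
    q1T ε (X 2) = -(C (ε : ℂ) * X 2) := by
  refine ⟨?_, ?_, ?_⟩ <;> simp [q1T]

private theorem q1T_invol {ε : ℝ} (hε : ε = 1 ∨ ε = -1) (P : P3) : q1T ε (q1T ε P) = P := by
  have h : (q1T ε).comp (q1T ε) = RingHom.id P3 := by
    obtain ⟨h0, h1, h2⟩ := q1T_X ε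
    have hee : (C (ε : ℂ) : P3) * C (ε : ℂ) = 1 := by
      rw [← C_mul]
      rcases hε with rfl | rfl <;> simp
    refine MvPolynomial.ringHom_ext (fun a => ?_) (fun i => ?_)
    · rw [RingHom.comp_apply, q1T_C, q1T_C]
      simp
    · rw [RingHom.comp_apply, RingHom.id_apply]
      fin_cases i
      · show q1T ε (q1T ε (X 0)) = X 0
        rw [h0, map_mul, q1T_C, h0, Complex.conj_ofReal, ← mul_assoc, hee, one_mul]
      · show q1T ε (q1T ε (X 1)) = X 1
        rw [h1, h1]
      · show q1T ε (q1T ε (X 2)) = X 2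
        rw [h2, map_neg, map_mul, q1T_C, h2, Complex.conj_ofReal, mul_neg, neg_neg, ← mul_assoc, hee,
          one_mul]
  exact DFunLike.congr_fun h P

private theorem q1_dvd {d x u0 u1 : P3} (h : IsRelPrime u0 u1) (h0 : d ∣ x * u0) (h1 : d ∣ x * u1) :
    d ∣ x := by
  classical
  let _ : GCDMonoid P3 := UniqueFactorizationMonoid.toGCDMonoid P3
  have h2 : d ∣ gcd (x * u0) (x * u1) := dvd_gcd h0 h1
  have h3 : gcd (x * u0) (x * u1) ∣ x * gcd u0 u1 := (gcd_mul_left' x u0 u1).dvd
  have h4 : IsUnit (gcd u0 u1) := h (gcd_dvd_left _ _) (gcd_dvd_right _ _)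
  exact (h2.trans h3).trans ((associated_mul_unit_left x _ h4).dvd)

/-- Q1: `m~` is proportional to the conjugate of `m` -/
theorem mt_eq {ε : ℝ} {M N : Matrix (Fin 2) (Fin 2) ℂ} {s : ℝ} {A : Fin 2 → P3} {b : P3}
    {c : Fin 2 → P3} (h : NN ε M N s A b c) {r : ℕ} {g : Fin 2 → Polynomial ℂ} {m mt : P3}
    (hF : FA r g m mt A (fun i => ∑ j, C (M i j) * tl ε (A j))) :
    ∃ μ : ℂ, μ ≠ 0 ∧ mt = C μ * tl ε m := by
  have hT : ∀ P, tl ε P = q1T ε P := q1T_eq ε
  have hg1 : IsRelPrime (q1H (X 2) (X 1) r (g 0)) (q1H (X 2) (X 1) r (g 1)) :=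
    q1_relPrime _ _ (X_prime) (by
      intro hc
      have := (X_dvd_X (R := ℂ) (i := (1 : Fin 3)) (j := 2)).1 hc
      simp at this) hF.deg hF.top hF.cop hF.r1
  have hg2 : IsRelPrime (q1H (-X 1) (X 2) r (g 0)) (q1H (-X 1) (X 2) r (g 1)) :=
    q1_relPrime _ _ (X_prime) (by
      intro hc
      rw [dvd_neg] at hc
      have := (X_dvd_X (R := ℂ) (i := (2 : Fin 3)) (j := 1)).1 hc
      simp at this) hF.deg hF.top hF.cop hF.r1
  have e1 : ∀ i, hg r (g i) = q1H (X 2) (X 1) r (g i) := fun i => rfl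
  have e2 : ∀ i, hgt r (g i) = q1H (-X 1) (X 2) r (g i) := fun i => rfl
  set G : Fin 2 → P3 := fun j => q1T ε (hg r (g j)) with hG
  have hGp : IsRelPrime (G 0) (G 1) := by
    intro d hd0 hd1
    have f0 : q1T ε d ∣ hg r (g 0) := by
      have := map_dvd (q1T ε) hd0
      rwa [hG, q1T_invol h.hε] at this
    have f1 : q1T ε d ∣ hg r (g 1) := by
      have := map_dvd (q1T ε) hd1
      rwa [hG, q1T_invol h.hε] at this
    have f2 : IsUnit (q1T ε d) := hg1 f0 f1
    have f3 := f2.map (q1T ε)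
    rwa [q1T_invol h.hε] at f3
  set v : Fin 2 → P3 := fun i => ∑ j, C (M i j) * G j with hv
  have hvp : IsRelPrime (v 0) (v 1) := by
    intro d hd0 hd1
    have hdet : M 0 0 * M 1 1 - M 0 1 * M 1 0 ≠ 0 := by
      have := h.detM
      rwa [Matrix.det_fin_two] at this
    have c0 : C (M 0 0 * M 1 1 - M 0 1 * M 1 0) * G 0 = C (M 1 1) * v 0 - C (M 0 1) * v 1 := by
      simp only [hv, Fin.sum_univ_two, C_sub, C_mul]
      ring
    have c1 : C (M 0 0 * M 1 1 - M 0 1 * M 1 0) * G 1 = C (M 0 0) * v 1 - C (M 1 0) * v 0 := by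
      simp only [hv, Fin.sum_univ_two, C_sub, C_mul]
      ring
    have hu : IsUnit (C (M 0 0 * M 1 1 - M 0 1 * M 1 0) : P3) := (isUnit_iff_ne_zero.2 hdet).map C
    refine hGp ?_ ?_
    · rw [← hu.dvd_mul_left, c0]
      exact dvd_sub (Dvd.dvd.mul_left hd0 _) (Dvd.dvd.mul_left hd1 _)
    · rw [← hu.dvd_mul_left, c1]
      exact dvd_sub (Dvd.dvd.mul_left hd1 _) (Dvd.dvd.mul_left hd0 _)
  have hAv : ∀ i, ∑ j, C (M i j) * tl ε (A j) = tl ε m * v i := by
    intro i
    simp only [hv, Finset.mul_sum]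
    refine Finset.sum_congr rfl fun j _ => ?_
    rw [hT, hT, hF.hA j, map_mul]
    ring
  have k0 : mt * (-hgt r (g 1)) = tl ε m * v 0 := by
    rw [← hAv 0, mul_neg, ← hF.hAt0]
  have k1 : mt * hgt r (g 0) = tl ε m * v 1 := by
    rw [← hAv 1, ← hF.hAt1]
  have hup : IsRelPrime (-hgt r (g 1)) (hgt r (g 0)) := by
    intro d hd0 hd1
    rw [dvd_neg] at hd0
    exact hg2 hd1 hd0
  have d1 : tl ε m ∣ mt := q1_dvd hup (by rw [k0]; exact dvd_mul_right _ _)
    (by rw [k1]; exact dvd_mul_right _ _)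
  have d2 : mt ∣ tl ε m := q1_dvd hvp (by rw [← k0]; exact dvd_mul_right _ _)
    (by rw [← k1]; exact dvd_mul_right _ _)
  obtain ⟨u, hu⟩ := associated_of_dvd_dvd d1 d2
  obtain ⟨μ, hμ, hμu⟩ := isUnit_iff_eq_C_of_isReduced.1 u.isUnit
  exact ⟨μ, hμ.ne_zero, by rw [← hu, hμu, mul_comm]⟩

end Pool.Agent.Lib_helper86.D24

end

section

namespace Pool.Agent.Lib_helper86.D24

open MvPolynomial Matrix


private theorem bQ2_eval_tl (ε : ℝ) (P : P3) (w : V3) : eval w (tl ε P) =
    (starRingEnd ℂ) (eval ![(ε : ℂ) * (starRingEnd ℂ) (w 0), (starRingEnd ℂ) (w 1), -((ε : ℂ) * (starRingEnd ℂ) (w 2))] P) := by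
  induction P using MvPolynomial.induction_on with
  | C a => simp [tl]
  | add p q hp hq => simp only [tl, map_add] at *; rw [hp, hq]
  | mul_X p i hp =>
    simp only [tl, map_mul] at *
    rw [hp]
    fin_cases i <;> simp

private theorem bQ2_tl_mul (ε : ℝ) (P Q : P3) : tl ε (P * Q) = tl ε P * tl ε Q := by
  simp [tl]

private theorem bQ2_tl_ne {ε : ℝ} (hε : ε = 1 ∨ ε = -1) {m : P3} (hm : m ≠ 0) : tl ε m ≠ 0 := by
  intro h
  apply hm
  apply MvPolynomial.funext
  intro z
  have h1 := bQ2_eval_tl ε m ![(ε : ℂ) * (starRingEnd ℂ) (z 0), (starRingEnd ℂ) (z 1), -((ε : ℂ) * (starRingEnd ℂ) (z 2))]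
  rw [h] at h1
  have h2 : (![(ε : ℂ) * (starRingEnd ℂ) ((![(ε : ℂ) * (starRingEnd ℂ) (z 0), (starRingEnd ℂ) (z 1),
      -((ε : ℂ) * (starRingEnd ℂ) (z 2))] : V3) 0), (starRingEnd ℂ) ((![(ε : ℂ) * (starRingEnd ℂ) (z 0), (starRingEnd ℂ) (z 1),
      -((ε : ℂ) * (starRingEnd ℂ) (z 2))] : V3) 1), -((ε : ℂ) * (starRingEnd ℂ) ((![(ε : ℂ) * (starRingEnd ℂ) (z 0), (starRingEnd ℂ) (z 1),
      -((ε : ℂ) * (starRingEnd ℂ) (z 2))] : V3) 2))] : V3) = z := by
    funext i
    rcases hε with rfl | rfl <;> fin_cases i <;> simp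
  rw [h2] at h1
  simp only [map_zero] at h1 ⊢
  have h3 := congrArg (starRingEnd ℂ) h1
  rw [Complex.conj_conj] at h3
  simpa using h3.symm

private theorem bQ2_eval_hg (r : ℕ) (ρ : Polynomial ℂ) (z : V3) :
    eval z (hg r ρ) = bf r ρ (z 1) (z 2) := by
  simp [hg, bf]

private theorem bQ2_eval_hgt (r : ℕ) (ρ : Polynomial ℂ) (z : V3) :
    eval z (hgt r ρ) = bf r ρ (z 2) (-(z 1)) := by
  simp [hgt, bf]

/-- Q2 (uses Q1): the symmetry of `ρ` -/
theorem rho_symm {ε : ℝ} {M N : Matrix (Fin 2) (Fin 2) ℂ} {s : ℝ} {A : Fin 2 → P3} {b : P3}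
    {c : Fin 2 → P3} (h : NN ε M N s A b c) {r : ℕ} {ρ : Polynomial ℂ} {κ μ : ℂ} {m mt : P3}
    (hκ : κ ≠ 0) (hm : m ≠ 0) (hμ : μ ≠ 0) (hmt : mt = C μ * tl ε m) (hb : b = m * hg r ρ)
    (hbt : C ((s : ℂ) * ε) * tl ε b = C κ * mt * hgt r ρ) :
    ∃ θ : ℂ, ∀ a b' : ℂ, (starRingEnd ℂ) (bf r ρ ((starRingEnd ℂ) a) (-(ε * (starRingEnd ℂ) b'))) = θ * bf r ρ b' (-a) := by
  have hε := h.hε
  have hs : (s : ℂ) ≠ 0 := by exact_mod_cast h.s0
  have hε0 : (ε : ℂ) ≠ 0 := by
    rcases hε with rfl | rfl <;> simp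
  have ht := bQ2_tl_ne hε hm
  have h1 : C ((s : ℂ) * ε) * tl ε (hg r ρ) = C (κ * μ) * hgt r ρ := by
    apply mul_left_cancel₀ ht
    rw [hb, bQ2_tl_mul, hmt] at hbt
    rw [C_mul (a := κ)]
    linear_combination hbt
  refine ⟨κ * μ / (s * ε), fun a b' => ?_⟩
  have h2 := congrArg (eval ![0, a, b']) h1
  rw [map_mul, map_mul (eval _) (C (κ * μ)), bQ2_eval_tl, bQ2_eval_hg, bQ2_eval_hgt, eval_C,
    eval_C] at h2
  simp only [Matrix.cons_val_zero, Matrix.cons_val_one, Matrix.cons_val] at h2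
  rw [div_mul_eq_mul_div, eq_div_iff (mul_ne_zero hs hε0)]
  rw [← h2]
  ring

end Pool.Agent.Lib_helper86.D24

end

section

namespace Pool.Agent.Lib_helper86.D24

open MvPolynomial Matrix


/-- scaling -/
theorem bQ3_smul (N : ℕ) (ρ : Polynomial ℂ) (t a b : ℂ) :
    bf N ρ (t * a) (t * b) = t ^ N * bf N ρ a b := by
  unfold bf
  rw [Finset.mul_sum]
  refine Finset.sum_congr rfl fun i hi => ?_
  have hi' : i ≤ N := Nat.lt_succ_iff.1 (Finset.mem_range.1 hi)
  have e : t ^ N = t ^ (N - i) * t ^ i := by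
    rw [← pow_add, Nat.sub_add_cancel hi']
  rw [e, mul_pow, mul_pow]
  ring

theorem bQ3_neg (N : ℕ) (ρ : Polynomial ℂ) (a b : ℂ) :
    bf N ρ (-a) (-b) = (-1) ^ N * bf N ρ a b := by
  rw [← bQ3_smul, neg_one_mul, neg_one_mul]

theorem bQ3_one {N : ℕ} {ρ : Polynomial ℂ} (hd : ρ.natDegree ≤ N) (x : ℂ) :
    bf N ρ 1 x = ρ.eval x := by
  rw [Polynomial.eval_eq_sum_range' (Nat.lt_succ_of_le hd) x]
  unfold bf
  exact Finset.sum_congr rfl fun i _ => by rw [one_pow, mul_one]

/-- Q3: definite case -/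
theorem parity_neg {N : ℕ} {ρ : Polynomial ℂ} {θ : ℂ} (hρ : ρ ≠ 0) (hd : ρ.natDegree ≤ N)
    (h : ∀ a b : ℂ, (starRingEnd ℂ) (bf N ρ ((starRingEnd ℂ) a) ((starRingEnd ℂ) b)) = θ * bf N ρ b (-a)) : Even N := by
  by_contra hodd
  rw [Nat.not_even_iff_odd] at hodd
  obtain ⟨x, hx⟩ : ∃ x : ℂ, ρ.eval x ≠ 0 := by
    by_contra hcon
    push Not at hcon
    exact hρ (Polynomial.funext fun x => by rw [hcon x, Polynomial.eval_zero])
  have h1 : ∀ a b : ℂ, bf N ρ a b = ((starRingEnd ℂ) θ * θ) * bf N ρ (-a) (-b) := by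
    intro a b
    have h2 := h ((starRingEnd ℂ) a) ((starRingEnd ℂ) b)
    rw [Complex.conj_conj, Complex.conj_conj] at h2
    have h3 := congrArg (starRingEnd ℂ) h2
    rw [Complex.conj_conj, map_mul] at h3
    have h4 := h b (-a)
    rw [map_neg] at h4
    rw [h3, h4]
    ring
  have h2 := h1 1 x
  rw [bQ3_neg, bQ3_one hd, hodd.neg_one_pow, ← Complex.normSq_eq_conj_mul_self] at h2
  have h3 : ((1 + Complex.normSq θ : ℝ) : ℂ) * ρ.eval x = 0 := by
    push_cast
    linear_combination h2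
  rcases mul_eq_zero.1 h3 with h4 | h4
  · have h5 : (1 + Complex.normSq θ : ℝ) = 0 := by exact_mod_cast h4
    have := Complex.normSq_nonneg θ
    linarith
  · exact hx h4

/-- Q4: a real zero -/
theorem circle_zero {N : ℕ} (hN : Odd N) (ρ : Polynomial ℂ) (θ : ℂ)
    (h : ∀ a b : ℂ, (starRingEnd ℂ) (bf N ρ ((starRingEnd ℂ) a) (-(starRingEnd ℂ) b)) = θ * bf N ρ b (-a)) :
    ∃ x0 : ℂ, ‖x0‖ = 1 ∧ bf N ρ 1 x0 = 0 := by
  have h1 : ∀ a b : ℂ, (starRingEnd ℂ) (bf N ρ ((starRingEnd ℂ) a) ((starRingEnd ℂ) b)) = -θ * bf N ρ b a := by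
    intro a b
    have h2 := h a (-b)
    rw [map_neg, neg_neg, bQ3_neg, hN.neg_one_pow] at h2
    rw [h2]
    ring
  set ω : ℝ → ℂ := fun φ => bf N ρ (Complex.exp (φ * Complex.I)) (Complex.exp (-(φ * Complex.I)))
    with hω
  have hc : ∀ φ : ℝ, (starRingEnd ℂ) (Complex.exp (-(φ * Complex.I))) = Complex.exp (φ * Complex.I) := by
    intro φ
    rw [← Complex.exp_conj]
    congr 1
    simp
  have hc' : ∀ φ : ℝ, (starRingEnd ℂ) (Complex.exp (φ * Complex.I)) = Complex.exp (-(φ * Complex.I)) := by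
    intro φ
    rw [← Complex.exp_conj]
    congr 1
    simp
  have h2 : ∀ φ : ℝ, (starRingEnd ℂ) (ω φ) = -θ * ω φ := by
    intro φ
    have h3 := h1 (Complex.exp (-(φ * Complex.I))) (Complex.exp (φ * Complex.I))
    rw [hc, hc'] at h3
    exact h3
  have hcont : Continuous ω := by
    simp only [hω]
    unfold bf
    fun_prop
  by_cases h0 : ω 0 = 0
  · refine ⟨1, norm_one, ?_⟩
    simpa [hω] using h0
  · have hreal : ∀ φ : ℝ, (starRingEnd ℂ) (ω φ / ω 0) = ω φ / ω 0 := by
      intro φ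
      have hθ : -θ ≠ 0 := by
        intro hθ
        have h3 := h2 0
        rw [hθ, zero_mul, map_eq_zero] at h3
        exact h0 h3
      rw [map_div₀, h2 φ, h2 0, mul_div_mul_left _ _ hθ]
    have hπ : ω Real.pi = -ω 0 := by
      simp only [hω]
      rw [Complex.exp_neg, Complex.exp_pi_mul_I]
      have e : (bf N ρ (-1) (-1)⁻¹) = bf N ρ (-1) (-1) := by norm_num
      rw [e, bQ3_neg, hN.neg_one_pow]
      simp
    have hF : ContinuousOn (fun φ : ℝ => (ω φ / ω 0).re) (Set.Icc 0 Real.pi) := by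
      apply Continuous.continuousOn
      exact Complex.continuous_re.comp (hcont.div_const _)
    have hivt := intermediate_value_Icc' Real.pi_pos.le hF
    have hmem : (0 : ℝ) ∈ Set.Icc ((ω Real.pi / ω 0).re) ((ω 0 / ω 0).re) := by
      rw [hπ, neg_div, div_self h0]
      simp
    obtain ⟨φ, -, hφ⟩ := hivt hmem
    have h3 : ω φ / ω 0 = 0 := by
      have h4 := Complex.conj_eq_iff_re.1 (hreal φ)
      simp only at hφ
      rw [hφ] at h4
      rw [← h4]
      simp
    have h4 : ω φ = 0 := by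
      rcases div_eq_zero_iff.1 h3 with h5 | h5
      · exact h5
      · exact absurd h5 h0
    refine ⟨Complex.exp (((-2 * φ : ℝ) : ℂ) * Complex.I), Complex.norm_exp_ofReal_mul_I _, ?_⟩
    have h5 := bQ3_smul N ρ (Complex.exp (φ * Complex.I)) 1
      (Complex.exp (((-2 * φ : ℝ) : ℂ) * Complex.I))
    have e : Complex.exp (φ * Complex.I) * Complex.exp (((-2 * φ : ℝ) : ℂ) * Complex.I) =
        Complex.exp (-(φ * Complex.I)) := by
      rw [← Complex.exp_add]
      congr 1
      push_cast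
      ring
    rw [e, mul_one] at h5
    have h6 : ω φ = bf N ρ (Complex.exp (φ * Complex.I)) (Complex.exp (-(φ * Complex.I))) := rfl
    rw [← h6, h4] at h5
    rcases mul_eq_zero.1 h5.symm with h7 | h7
    · exact absurd h7 (pow_ne_zero _ (Complex.exp_ne_zero _))
    · exact h7

end Pool.Agent.Lib_helper86.D24

end

section

set_option autoImplicit false
set_option maxHeartbeats 4000000

namespace Pool.Agent.Lib_helper86.D24

open MvPolynomial Matrix


theorem q5_hg {r : ℕ} {g : Polynomial ℂ} (hg' : g.natDegree ≤ r) (t x : ℂ) :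
    eval ![t, 1, x] (hg r g) = g.eval x := by
  rw [hg, map_sum, Polynomial.eval_eq_sum_range' (Nat.lt_succ_of_le hg')]
  apply Finset.sum_congr rfl
  intro i _
  simp

/-- the hermitian form at `g(x)` -/
noncomputable def q5_f (M : Matrix (Fin 2) (Fin 2) ℂ) (g : Fin 2 → Polynomial ℂ) (x : ℂ) : ℝ :=
  (∑ i, ∑ j, M i j * (g i).eval x * (starRingEnd ℂ) ((g j).eval x)).re

theorem q5_cont (M : Matrix (Fin 2) (Fin 2) ℂ) (g : Fin 2 → Polynomial ℂ) :
    Continuous (q5_f M g) := by
  unfold q5_f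
  refine Complex.continuous_re.comp (continuous_finsetSum _ fun i _ => continuous_finsetSum _
    fun j _ => ?_)
  exact (continuous_const.mul (g i).continuous).mul
    (Complex.continuous_conj.comp (g j).continuous)

theorem q5_ineq {M N : Matrix (Fin 2) (Fin 2) ℂ} {s : ℝ} {A : Fin 2 → P3} {b : P3}
    {c : Fin 2 → P3} (h : NN 1 M N s A b c) {r : ℕ} {g : Fin 2 → Polynomial ℂ} {m : P3}
    (hd : ∀ i, (g i).natDegree ≤ r) (hA : ∀ i, A i = m * hg r (g i)) (t x : ℂ)
    (htx : ‖t‖ ^ 2 = ‖x‖ ^ 2 - 1) :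
    Complex.normSq (eval ![t, 1, x] m) * q5_f M g x ≤ 0 := by
  have hq : qd 1 ![t, 1, x] ![t, 1, x] = 0 := by
    unfold qd
    simp only [Matrix.cons_val_zero, Matrix.cons_val_one, Matrix.cons_val, Complex.mul_conj,
      Complex.normSq_eq_norm_sq, map_one, mul_one, Complex.ofReal_one, one_mul]
    rw [htx]
    push_cast
    ring
  have h1 := h.herm _ _ hq
  have h2 := congrArg Complex.re h1
  obtain ⟨hs, hN⟩ := h.pos rfl
  rw [Complex.add_re, Complex.add_re, Complex.zero_re] at h2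
  have h3 : 0 ≤ ((s : ℂ) * ((![t, 1, x] : V3) 0 * eval ![t, 1, x] b) *
      (starRingEnd ℂ) ((![t, 1, x] : V3) 0 * eval ![t, 1, x] b)).re := by
    rw [mul_assoc, Complex.mul_conj, ← Complex.ofReal_mul, Complex.ofReal_re]
    exact mul_nonneg hs.le (Complex.normSq_nonneg _)
  have h4 := hN fun i => (![t, 1, x] : V3) 0 ^ 3 * eval ![t, 1, x] (c i)
  have h5 : (∑ i, ∑ j, M i j * eval ![t, 1, x] (A i) * (starRingEnd ℂ) (eval ![t, 1, x] (A j))).re =
      Complex.normSq (eval ![t, 1, x] m) * q5_f M g x := by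
    rw [q5_f, ← Complex.re_ofReal_mul, Finset.mul_sum]
    congr 1
    apply Finset.sum_congr rfl
    intro i _
    rw [Finset.mul_sum]
    apply Finset.sum_congr rfl
    intro j _
    rw [hA, hA, map_mul, map_mul, q5_hg (hd i), q5_hg (hd j), map_mul, ← Complex.mul_conj]
    ring
  rw [← h5]
  linarith

/-- the restriction to a line -/
theorem q5_line (m : P3) (a : Fin 3 → Polynomial ℂ) (t : ℂ) :
    (aeval a m : Polynomial ℂ).eval t = eval (fun i => (a i).eval t) m := by
  induction m using MvPolynomial.induction_on with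
  | C a => simp
  | add p q hp hq => rw [map_add, map_add, Polynomial.eval_add, hp, hq]
  | mul_X p i hp => rw [map_mul, map_mul, Polynomial.eval_mul, hp, aeval_X, eval_X]

theorem q5_hom {m : P3} {d : ℕ} (hm : m.IsHomogeneous d) (c : ℂ) (z : V3) :
    eval (fun i => c * z i) m = c ^ d * eval z m := by
  rw [eval_eq', eval_eq', Finset.mul_sum]
  apply Finset.sum_congr rfl
  intro e he
  have h := hm (mem_support_iff.1 he)
  rw [Finsupp.weight_apply, Finsupp.sum_fintype _ _ (by simp), Fin.sum_univ_three] at h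
  simp only [Pi.one_apply, smul_eq_mul, mul_one] at h
  rw [← h, Fin.prod_univ_three, Fin.prod_univ_three, pow_add, pow_add, mul_pow, mul_pow, mul_pow]
  ring

theorem q5_inf {ρ : ℝ} (hρ : 0 < ρ) : (Metric.sphere (0 : ℂ) ρ).Infinite := by
  have h1 : IsConnected (Metric.sphere (0 : ℂ) ρ) :=
    isConnected_sphere (by rw [Complex.rank_real_complex]; norm_num) 0 hρ.le
  apply h1.isPreconnected.infinite_of_nontrivial
  refine ⟨(ρ : ℂ), ?_, -(ρ : ℂ), ?_, ?_⟩
  · simp [abs_of_pos hρ]
  · simp [abs_of_pos hρ]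
  · intro h2
    have h3 := congrArg Complex.re h2
    simp at h3
    linarith

/-- Q5: positivity -/
theorem g_le {M N : Matrix (Fin 2) (Fin 2) ℂ} {s : ℝ} {A : Fin 2 → P3} {b : P3}
    {c : Fin 2 → P3} (h : NN 1 M N s A b c) {r : ℕ} {g : Fin 2 → Polynomial ℂ} {m : P3} {d : ℕ}
    (hm : m.IsHomogeneous d) (hm0 : m ≠ 0) (hd : ∀ i, (g i).natDegree ≤ r)
    (hA : ∀ i, A i = m * hg r (g i)) (x : ℂ) (hx : 1 ≤ ‖x‖) :
    (∑ i, ∑ j, M i j * (g i).eval x * (starRingEnd ℂ) ((g j).eval x)).re ≤ 0 := by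
  change q5_f M g x ≤ 0
  by_contra hcon
  rw [not_le] at hcon
  -- a point with `|x| > 1`
  obtain ⟨δ, hδ, hball⟩ := Metric.isOpen_iff.1 (isOpen_lt continuous_const (q5_cont M g)) x hcon
  have hx0 : 0 < ‖x‖ := by linarith
  obtain ⟨x₁, hx₁⟩ : ∃ x₁ : ℂ, x₁ = ((1 + δ / (2 * ‖x‖) : ℝ) : ℂ) * x := ⟨_, rfl⟩
  have hη : 0 < δ / (2 * ‖x‖) := by positivity
  have hx₁1 : 1 < ‖x₁‖ := by
    rw [hx₁, norm_mul, Complex.norm_real, Real.norm_of_nonneg (by linarith)]
    nlinarith
  have hx₁b : x₁ ∈ Metric.ball x δ := by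
    rw [Metric.mem_ball, dist_eq_norm, hx₁]
    have : ((1 + δ / (2 * ‖x‖) : ℝ) : ℂ) * x - x = ((δ / (2 * ‖x‖) : ℝ) : ℂ) * x := by
      push_cast
      ring
    rw [this, norm_mul, Complex.norm_real, Real.norm_of_nonneg hη.le]
    have : δ / (2 * ‖x‖) * ‖x‖ = δ / 2 := by field_simp
    rw [this]
    linarith
  obtain ⟨U, hU⟩ : ∃ U : Set ℂ, U = {y | 0 < q5_f M g y} ∩ {y | 1 < ‖y‖} := ⟨_, rfl⟩
  have hUo : IsOpen U := by
    rw [hU]
    exact (isOpen_lt continuous_const (q5_cont M g)).inter (isOpen_lt continuous_const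
      continuous_norm)
  have hUx : x₁ ∈ U := by
    rw [hU]
    exact ⟨hball hx₁b, hx₁1⟩
  -- zeros of `m`
  have z1 : ∀ y ∈ U, ∀ t : ℂ, eval ![t, 1, y] m = 0 := by
    intro y hy t
    rw [hU] at hy
    obtain ⟨hy1, hy2⟩ := hy
    have hy1' : 0 < q5_f M g y := hy1
    have hy2' : 1 < ‖y‖ := hy2
    have hp : aeval ![Polynomial.X, 1, Polynomial.C y] m = (0 : Polynomial ℂ) := by
      have hρ : 0 < Real.sqrt (‖y‖ ^ 2 - 1) := Real.sqrt_pos.2 (by nlinarith)
      apply Polynomial.eq_zero_of_infinite_isRoot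
      refine (q5_inf hρ).mono ?_
      intro t ht
      rw [mem_sphere_zero_iff_norm] at ht
      have h1 : ‖t‖ ^ 2 = ‖y‖ ^ 2 - 1 := by
        rw [ht, Real.sq_sqrt (by nlinarith)]
      have h2 := q5_ineq h hd hA t y h1
      have h3 : Complex.normSq (eval ![t, 1, y] m) = 0 := by
        have h4 := Complex.normSq_nonneg (eval ![t, 1, y] m)
        nlinarith
      have h5 := Complex.normSq_eq_zero.1 h3
      change Polynomial.IsRoot _ t
      rw [Polynomial.IsRoot.def, q5_line, ← h5]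
      congr 2
      funext i
      fin_cases i
      · simp
      · simp
      · simp
    have h6 := q5_line m ![Polynomial.X, 1, Polynomial.C y] t
    rw [hp, Polynomial.eval_zero] at h6
    rw [h6]
    congr 2
    funext i
    fin_cases i
    · simp
    · simp
    · simp
  have z2 : ∀ t y : ℂ, eval ![t, 1, y] m = 0 := by
    intro t y
    have hp : aeval ![Polynomial.C t, 1, Polynomial.X] m = (0 : Polynomial ℂ) := by
      apply Polynomial.eq_zero_of_infinite_isRoot
      refine (infinite_of_mem_nhds x₁ (hUo.mem_nhds hUx)).mono ?_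
      intro y hy
      change Polynomial.IsRoot _ y
      rw [Polynomial.IsRoot.def, q5_line, ← z1 y hy t]
      congr 2
      funext i
      fin_cases i
      · simp
      · simp
      · simp
    have h6 := q5_line m ![Polynomial.C t, 1, Polynomial.X] y
    rw [hp, Polynomial.eval_zero] at h6
    rw [h6]
    congr 2
    funext i
    fin_cases i
    · simp
    · simp
    · simp
  have z3 : m * X 1 = 0 := by
    apply MvPolynomial.funext
    intro z
    rw [map_mul, eval_X, map_zero]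
    by_cases hz : z 1 = 0
    · rw [hz, mul_zero]
    · have h1 : z = z 1 • ![z 0 / z 1, 1, z 2 / z 1] := by
        funext i
        fin_cases i
        · simp [mul_div_cancel₀, hz]
        · simp
        · simp
          field_simp
      have h2 : eval z m = z 1 ^ d * eval ![z 0 / z 1, 1, z 2 / z 1] m := by
        conv_lhs => rw [h1]
        rw [show (z 1 • ![z 0 / z 1, 1, z 2 / z 1] : V3) =
          fun i => z 1 * (![z 0 / z 1, 1, z 2 / z 1] : V3) i from rfl]
        exact q5_hom hm _ _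
      rw [h2, z2, mul_zero, zero_mul]
  rcases mul_eq_zero.1 z3 with h1 | h1
  · exact hm0 h1
  · exact X_ne_zero _ h1

end Pool.Agent.Lib_helper86.D24

end

section

set_option autoImplicit false

namespace Pool.Agent.Lib_helper86.D24

open MvPolynomial Matrix


/-- analytic core -/
private theorem q6_core (a h : Polynomial ℂ) (x0 : ℂ) (hx0 : ‖x0‖ = 1) (ha : a.eval x0 = 1)
    (hle : ∀ x : ℂ, 1 ≤ ‖x‖ → (a.eval x * (starRingEnd ℂ) (h.eval x)).re ≤ 0)
    (hz : (Polynomial.X - Polynomial.C x0) ^ 3 ∣ h) (hne : h ≠ 0) : False := by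
  obtain ⟨k, hk, hnd⟩ := Polynomial.exists_eq_pow_rootMultiplicity_mul_and_not_dvd h hne x0
  set n := h.rootMultiplicity x0 with hn
  have hn3 : 3 ≤ n := (Polynomial.le_rootMultiplicity_iff hne).mpr hz
  have hk0 : k.eval x0 ≠ 0 := by
    intro hc
    exact hnd (Polynomial.dvd_iff_isRoot.mpr hc)
  have hx00 : x0 ≠ 0 := by
    intro hc; rw [hc] at hx0; simp at hx0
  set w : ℂ := x0 ^ n * k.eval x0 with hw
  have hw0 : w ≠ 0 := mul_ne_zero (pow_ne_zero _ hx00) hk0
  have hnpos : (0 : ℝ) < n := by exact_mod_cast (by omega : 0 < n)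
  set u : ℂ := Complex.exp (((-(w.arg / n) : ℝ) : ℂ) * Complex.I) with hu
  have hure : 0 ≤ u.re := by
    rw [hu, Complex.exp_ofReal_mul_I_re]
    apply Real.cos_nonneg_of_mem_Icc
    have h1 := Complex.arg_le_pi w
    have h2 := Complex.neg_pi_lt_arg w
    have hn2 : (2 : ℝ) ≤ n := by exact_mod_cast (by omega : 2 ≤ n)
    have hpi := Real.pi_pos
    constructor
    · rw [neg_le_neg_iff, div_le_div_iff₀ hnpos (by norm_num)]
      nlinarith
    · rw [neg_le, ← neg_div, div_le_div_iff₀ (by norm_num) hnpos]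
      nlinarith
  have hun : u ^ n * w = (‖w‖ : ℂ) := by
    have e1 : u ^ n = Complex.exp (((-w.arg : ℝ) : ℂ) * Complex.I) := by
      have hnc : (n : ℂ) ≠ 0 := by exact_mod_cast hnpos.ne'
      rw [hu, ← Complex.exp_nat_mul]
      congr 1
      push_cast
      field_simp
    rw [e1]
    conv_lhs => rw [← Complex.norm_mul_exp_arg_mul_I w]
    rw [mul_comm, mul_assoc, ← Complex.exp_add]
    simp
  set f : ℝ → ℝ := fun r => (a.eval (x0 * (1 + r * u)) *
    (starRingEnd ℂ) (x0 ^ n * u ^ n * k.eval (x0 * (1 + r * u)))).re with hf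
  have hcont : Continuous f := by
    rw [hf]
    apply Complex.continuous_re.comp
    apply Continuous.mul
    · exact a.continuous.comp (by fun_prop)
    · apply Complex.continuous_conj.comp
      apply Continuous.mul continuous_const
      exact k.continuous.comp (by fun_prop)
  have hpos : ∀ r : ℝ, 0 < r → f r ≤ 0 := by
    intro r hr
    have hx : 1 ≤ ‖x0 * (1 + r * u)‖ := by
      rw [norm_mul, hx0, one_mul]
      have h1 : (1 + (r : ℂ) * u).re = 1 + r * u.re := by simp
      calc (1 : ℝ) ≤ 1 + r * u.re := by nlinarith [mul_nonneg hr.le hure]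
        _ = (1 + (r : ℂ) * u).re := h1.symm
        _ ≤ |(1 + (r : ℂ) * u).re| := le_abs_self _
        _ ≤ _ := Complex.abs_re_le_norm _
    have h2 := hle _ hx
    have h3 : h.eval (x0 * (1 + r * u)) = (r : ℂ) ^ n *
        (x0 ^ n * u ^ n * k.eval (x0 * (1 + r * u))) := by
      conv_lhs => rw [hk]
      rw [Polynomial.eval_mul, Polynomial.eval_pow, Polynomial.eval_sub, Polynomial.eval_X,
        Polynomial.eval_C]
      have : x0 * (1 + r * u) - x0 = x0 * (r * u) := by ring
      rw [this, mul_pow, mul_pow]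
      ring
    rw [h3] at h2
    have h4 : (a.eval (x0 * (1 + r * u)) * (starRingEnd ℂ) ((r : ℂ) ^ n *
        (x0 ^ n * u ^ n * k.eval (x0 * (1 + r * u))))) = ((r ^ n : ℝ) : ℂ) *
        (a.eval (x0 * (1 + r * u)) * (starRingEnd ℂ) (x0 ^ n * u ^ n * k.eval (x0 * (1 + r * u)))) := by
      rw [map_mul, map_pow, Complex.conj_ofReal]
      push_cast
      ring
    rw [h4, Complex.re_ofReal_mul] at h2
    have hrn : 0 < r ^ n := pow_pos hr n
    by_contra hc
    rw [not_le] at hc
    have := mul_pos hrn hc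
    linarith
  have hlim : f 0 ≤ 0 := by
    have ht : Filter.Tendsto f (nhdsWithin 0 (Set.Ioi 0)) (nhds (f 0)) :=
      (hcont.tendsto 0).mono_left nhdsWithin_le_nhds
    refine le_of_tendsto ht ?_
    filter_upwards [self_mem_nhdsWithin] with r hr
    exact hpos r hr
  have hf0 : f 0 = ‖w‖ := by
    rw [hf]
    simp only [Complex.ofReal_zero, zero_mul, add_zero, mul_one]
    rw [ha, one_mul, Complex.conj_re]
    have : x0 ^ n * u ^ n * k.eval x0 = u ^ n * w := by rw [hw]; ring
    rw [this, hun, Complex.ofReal_re]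
  rw [hf0] at hlim
  exact hw0 (norm_le_zero_iff.mp hlim)

/-- the Hermitian form in coordinates -/
private theorem q6_alg (m00 m01 m10 m11 : ℂ) (h00 : (starRingEnd ℂ) m00 = m00) (h11 : (starRingEnd ℂ) m11 = m11)
    (h01 : (starRingEnd ℂ) m01 = m10) (e0 e1 : ℂ)
    (hnull : m00 * e0 * (starRingEnd ℂ) e0 + m01 * e0 * (starRingEnd ℂ) e1 + (m10 * e1 * (starRingEnd ℂ) e0 + m11 * e1 * (starRingEnd ℂ) e1)
      = 0)
    (hm : ¬ (m00 * (starRingEnd ℂ) e0 + m01 * (starRingEnd ℂ) e1 = 0 ∧ m10 * (starRingEnd ℂ) e0 + m11 * (starRingEnd ℂ) e1 = 0)) :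
    ∃ f0 f1 : ℂ, m00 * f0 * (starRingEnd ℂ) e0 + m01 * f0 * (starRingEnd ℂ) e1 + (m10 * f1 * (starRingEnd ℂ) e0 +
      m11 * f1 * (starRingEnd ℂ) e1) = 1 ∧ m00 * f0 * (starRingEnd ℂ) f0 + m01 * f0 * (starRingEnd ℂ) f1 + (m10 * f1 * (starRingEnd ℂ) f0 +
      m11 * f1 * (starRingEnd ℂ) f1) = 0 := by
  have h10 : (starRingEnd ℂ) m10 = m01 := by rw [← h01, Complex.conj_conj]
  obtain ⟨p0, p1, hp⟩ : ∃ p0 p1 : ℂ, m00 * p0 * (starRingEnd ℂ) e0 + m01 * p0 * (starRingEnd ℂ) e1 +
      (m10 * p1 * (starRingEnd ℂ) e0 + m11 * p1 * (starRingEnd ℂ) e1) = 1 := by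
    by_cases h0 : m00 * (starRingEnd ℂ) e0 + m01 * (starRingEnd ℂ) e1 = 0
    · have h1 : m10 * (starRingEnd ℂ) e0 + m11 * (starRingEnd ℂ) e1 ≠ 0 := fun h => hm ⟨h0, h⟩
      refine ⟨0, (m10 * (starRingEnd ℂ) e0 + m11 * (starRingEnd ℂ) e1)⁻¹, ?_⟩
      have : (m10 * (starRingEnd ℂ) e0 + m11 * (starRingEnd ℂ) e1) * (m10 * (starRingEnd ℂ) e0 + m11 * (starRingEnd ℂ) e1)⁻¹ = 1 :=
        mul_inv_cancel₀ h1
      linear_combination this
    · refine ⟨(m00 * (starRingEnd ℂ) e0 + m01 * (starRingEnd ℂ) e1)⁻¹, 0, ?_⟩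
      have : (m00 * (starRingEnd ℂ) e0 + m01 * (starRingEnd ℂ) e1) * (m00 * (starRingEnd ℂ) e0 + m01 * (starRingEnd ℂ) e1)⁻¹ = 1 :=
        mul_inv_cancel₀ h0
      linear_combination this
  set N : ℂ := m00 * p0 * (starRingEnd ℂ) p0 + m01 * p0 * (starRingEnd ℂ) p1 + (m10 * p1 * (starRingEnd ℂ) p0 +
      m11 * p1 * (starRingEnd ℂ) p1) with hN
  have hNr : (starRingEnd ℂ) N = N := by
    rw [hN]
    simp only [map_add, map_mul, Complex.conj_conj, h00, h11, h01, h10]
    ring
  have hp' : m00 * e0 * (starRingEnd ℂ) p0 + m01 * e0 * (starRingEnd ℂ) p1 +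
      (m10 * e1 * (starRingEnd ℂ) p0 + m11 * e1 * (starRingEnd ℂ) p1) = 1 := by
    have := congrArg (starRingEnd ℂ) hp
    simp only [map_add, map_mul, Complex.conj_conj, h00, h11, h01, h10, map_one] at this
    linear_combination this
  refine ⟨p0 - N / 2 * e0, p1 - N / 2 * e1, ?_, ?_⟩
  · linear_combination hp - N / 2 * hnull
  · simp only [map_sub, map_mul, map_div₀, hNr, map_ofNat]
    linear_combination hN.symm * 0 + (-N / 2) * hp - N / 2 * hp' + N / 2 * (N / 2) * hnull

/-- Q6: local contradiction -/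
theorem local_false (M : Matrix (Fin 2) (Fin 2) ℂ) (hM : M.IsHermitian)
    (g : Fin 2 → Polynomial ℂ) (x0 : ℂ) (hx0 : ‖x0‖ = 1)
    (hle : ∀ x : ℂ, 1 ≤ ‖x‖ →
      (∑ i, ∑ j, M i j * (g i).eval x * (starRingEnd ℂ) ((g j).eval x)).re ≤ 0)
    (hz : (Polynomial.X - Polynomial.C x0) ^ 3 ∣
      ∑ i, ∑ j, Polynomial.C (M i j * (starRingEnd ℂ) ((g j).eval x0)) * g i)
    (hne : ∑ i, ∑ j, Polynomial.C (M i j * (starRingEnd ℂ) ((g j).eval x0)) * g i ≠ 0) : False := by
  have h00 : (starRingEnd ℂ) (M 0 0) = M 0 0 := hM.apply 0 0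
  have h11 : (starRingEnd ℂ) (M 1 1) = M 1 1 := hM.apply 1 1
  have h01 : (starRingEnd ℂ) (M 0 1) = M 1 0 := hM.apply 1 0
  have h10 : (starRingEnd ℂ) (M 1 0) = M 0 1 := hM.apply 0 1
  set e0 := (g 0).eval x0 with he0
  set e1 := (g 1).eval x0 with he1
  set h : Polynomial ℂ := ∑ i, ∑ j, Polynomial.C (M i j * (starRingEnd ℂ) ((g j).eval x0)) * g i with hh
  have hev : ∀ x : ℂ, h.eval x = M 0 0 * (g 0).eval x * (starRingEnd ℂ) e0 + M 0 1 * (g 0).eval x * (starRingEnd ℂ) e1 +
      (M 1 0 * (g 1).eval x * (starRingEnd ℂ) e0 + M 1 1 * (g 1).eval x * (starRingEnd ℂ) e1) := by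
    intro x
    rw [hh]
    simp only [Fin.sum_univ_two, Polynomial.eval_add, Polynomial.eval_mul, Polynomial.eval_C,
      ← he0, ← he1]
    ring
  have hnull : h.eval x0 = 0 := by
    obtain ⟨k, hk⟩ := hz
    rw [hk]
    simp
  rw [hev, ← he0, ← he1] at hnull
  have hm : ¬ (M 0 0 * (starRingEnd ℂ) e0 + M 0 1 * (starRingEnd ℂ) e1 = 0 ∧ M 1 0 * (starRingEnd ℂ) e0 + M 1 1 * (starRingEnd ℂ) e1 = 0) := by
    rintro ⟨ha, hb⟩
    apply hne
    apply Polynomial.funext
    intro x
    rw [hev, Polynomial.eval_zero]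
    linear_combination (g 0).eval x * ha + (g 1).eval x * hb
  obtain ⟨f0, f1, hf1, hf0⟩ := q6_alg _ _ _ _ h00 h11 h01 e0 e1 hnull hm
  have hf1' : M 0 0 * e0 * (starRingEnd ℂ) f0 + M 0 1 * e0 * (starRingEnd ℂ) f1 +
      (M 1 0 * e1 * (starRingEnd ℂ) f0 + M 1 1 * e1 * (starRingEnd ℂ) f1) = 1 := by
    have := congrArg (starRingEnd ℂ) hf1
    simp only [map_add, map_mul, Complex.conj_conj, h00, h11, h01, h10, map_one] at this
    linear_combination this
  have hd : e0 * f1 - e1 * f0 ≠ 0 := by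
    intro hd
    have z0 : e0 = 0 := by
      linear_combination (-e0) * hf1 + f0 * hnull + (M 1 0 * (starRingEnd ℂ) e0 + M 1 1 * (starRingEnd ℂ) e1) * hd
    have z1 : e1 = 0 := by
      linear_combination (-e1) * hf1 + f1 * hnull - (M 0 0 * (starRingEnd ℂ) e0 + M 0 1 * (starRingEnd ℂ) e1) * hd
    rw [z0, z1] at hf1
    simp at hf1
  set a : Polynomial ℂ := Polynomial.C (M 0 0 * (starRingEnd ℂ) f0 + M 0 1 * (starRingEnd ℂ) f1) * g 0 +
    Polynomial.C (M 1 0 * (starRingEnd ℂ) f0 + M 1 1 * (starRingEnd ℂ) f1) * g 1 with ha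
  have haev : ∀ x : ℂ, a.eval x = M 0 0 * (g 0).eval x * (starRingEnd ℂ) f0 + M 0 1 * (g 0).eval x * (starRingEnd ℂ) f1 +
      (M 1 0 * (g 1).eval x * (starRingEnd ℂ) f0 + M 1 1 * (g 1).eval x * (starRingEnd ℂ) f1) := by
    intro x
    rw [ha]
    simp only [Polynomial.eval_add, Polynomial.eval_mul, Polynomial.eval_C]
    ring
  have hkey : ∀ x : ℂ, (∑ i, ∑ j, M i j * (g i).eval x * (starRingEnd ℂ) ((g j).eval x)) =
      a.eval x * (starRingEnd ℂ) (h.eval x) + h.eval x * (starRingEnd ℂ) (a.eval x) := by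
    intro x
    set v0 := (g 0).eval x
    set v1 := (g 1).eval x
    have A0d : (M 0 0 * (starRingEnd ℂ) f0 + M 0 1 * (starRingEnd ℂ) f1) * (e0 * f1 - e1 * f0) = f1 := by
      linear_combination f1 * hf1' - e1 * hf0
    have A1d : (M 1 0 * (starRingEnd ℂ) f0 + M 1 1 * (starRingEnd ℂ) f1) * (e0 * f1 - e1 * f0) = -f0 := by
      linear_combination (-f0) * hf1' + e0 * hf0
    have m0d : (M 0 0 * (starRingEnd ℂ) e0 + M 0 1 * (starRingEnd ℂ) e1) * (e0 * f1 - e1 * f0) = -e1 := by
      linear_combination (-e1) * hf1 + f1 * hnull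
    have m1d : (M 1 0 * (starRingEnd ℂ) e0 + M 1 1 * (starRingEnd ℂ) e1) * (e0 * f1 - e1 * f0) = e0 := by
      linear_combination e0 * hf1 - f0 * hnull
    have c0 : v0 = a.eval x * e0 + h.eval x * f0 := by
      apply mul_left_cancel₀ hd
      rw [haev, hev]
      linear_combination (-(v0 * e0)) * A0d - v1 * e0 * A1d - v0 * f0 * m0d - v1 * f0 * m1d
    have c1 : v1 = a.eval x * e1 + h.eval x * f1 := by
      apply mul_left_cancel₀ hd
      rw [haev, hev]
      linear_combination (-(v0 * e1)) * A0d - v1 * e1 * A1d - v0 * f1 * m0d - v1 * f1 * m1d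
    have d0 : (starRingEnd ℂ) v0 = (starRingEnd ℂ) (a.eval x) * (starRingEnd ℂ) e0 + (starRingEnd ℂ) (h.eval x) * (starRingEnd ℂ) f0 := by
      have := congrArg (starRingEnd ℂ) c0
      simpa only [map_add, map_mul] using this
    have d1 : (starRingEnd ℂ) v1 = (starRingEnd ℂ) (a.eval x) * (starRingEnd ℂ) e1 + (starRingEnd ℂ) (h.eval x) * (starRingEnd ℂ) f1 := by
      have := congrArg (starRingEnd ℂ) c1
      simpa only [map_add, map_mul] using this
    simp only [Fin.sum_univ_two]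
    generalize a.eval x = α at *
    generalize h.eval x = β at *
    linear_combination (M 0 0 * (starRingEnd ℂ) v0 + M 0 1 * (starRingEnd ℂ) v1) * c0 +
      (M 1 0 * (starRingEnd ℂ) v0 + M 1 1 * (starRingEnd ℂ) v1) * c1 +
      (M 0 0 * (α * e0 + β * f0) + M 1 0 * (α * e1 + β * f1)) * d0 +
      (M 0 1 * (α * e0 + β * f0) + M 1 1 * (α * e1 + β * f1)) * d1 +
      α * (starRingEnd ℂ) α * hnull + α * (starRingEnd ℂ) β * hf1' + β * (starRingEnd ℂ) α * hf1 + β * (starRingEnd ℂ) β * hf0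
  refine q6_core a h x0 hx0 ?_ ?_ hz hne
  · rw [haev]
    exact hf1'
  · intro x hx
    have h1 := hle x hx
    rw [hkey] at h1
    have h2 : (a.eval x * (starRingEnd ℂ) (h.eval x) + h.eval x * (starRingEnd ℂ) (a.eval x)).re =
        2 * (a.eval x * (starRingEnd ℂ) (h.eval x)).re := by
      have : h.eval x * (starRingEnd ℂ) (a.eval x) = (starRingEnd ℂ) (a.eval x * (starRingEnd ℂ) (h.eval x)) := by
        rw [map_mul, Complex.conj_conj, mul_comm]
      rw [this, Complex.add_re, Complex.conj_re]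
      ring
    rw [h2] at h1
    linarith

end Pool.Agent.Lib_helper86.D24

end

section

namespace Pool.Agent.Lib_helper86.D24

open MvPolynomial Matrix


private theorem tl_mulQ7 (ε : ℝ) (P Q : P3) : tl ε (P * Q) = tl ε P * tl ε Q := by
  unfold tl
  rw [map_mul, map_mul]

private theorem tl_evalQ7 (P : P3) (w : V3) :
    eval w (tl 1 P) = (starRingEnd ℂ) (eval ![(starRingEnd ℂ) (w 0), (starRingEnd ℂ) (w 1), -(starRingEnd ℂ) (w 2)] P) := by
  have h : (eval w).comp ((aeval ![C ((1 : ℝ) : ℂ) * X 0, X 1, -(C ((1 : ℝ) : ℂ) * X 2)] :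
        P3 →ₐ[ℂ] P3).toRingHom.comp (MvPolynomial.map (starRingEnd ℂ))) =
      (starRingEnd ℂ).comp (eval ![(starRingEnd ℂ) (w 0), (starRingEnd ℂ) (w 1), -(starRingEnd ℂ) (w 2)]) := by
    apply MvPolynomial.ringHom_ext
    · intro r
      simp
    · intro i
      fin_cases i <;> simp
  exact RingHom.congr_fun h P

private theorem hg_evalQ7 {r : ℕ} {g : Polynomial ℂ} (hg' : g.natDegree ≤ r) (x : ℂ) :
    eval ![0, 1, x] (hg r g) = g.eval x := by
  unfold hg
  rw [map_sum, Polynomial.eval_eq_sum_range' (Nat.lt_succ_of_le hg')]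
  refine Finset.sum_congr rfl fun i _ => ?_
  simp

private theorem hgt_evalQ7 {r : ℕ} {g : Polynomial ℂ} (hg' : g.natDegree ≤ r) (y x : ℂ)
    (hyx : y * x = 1) :
    eval ![0, 1, -y] (hgt r g) = (-y) ^ r * g.eval x := by
  unfold hgt
  rw [map_sum, Polynomial.eval_eq_sum_range' (Nat.lt_succ_of_le hg'), Finset.mul_sum]
  refine Finset.sum_congr rfl fun i hi => ?_
  have hi' : i ≤ r := Nat.lt_succ_iff.1 (Finset.mem_range.1 hi)
  simp only [map_mul, map_pow, eval_C, eval_X, map_neg, Matrix.cons_val_one, Matrix.cons_val_zero,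
    Matrix.cons_val_two, Matrix.tail_cons, Matrix.head_cons]
  have e : (-y) ^ r = (-y) ^ (r - i) * (-y) ^ i := by
    rw [← pow_add, Nat.sub_add_cancel hi']
  have e2 : (-y) ^ i * x ^ i = (-1) ^ i := by
    rw [← mul_pow]
    congr 1
    linear_combination -hyx
  rw [e]
  linear_combination (-(g.coeff i * (-y) ^ (r - i))) * e2

/-- Q7 (uses Q1): the polar form at a null point of the line -/
theorem polar_eq {M N : Matrix (Fin 2) (Fin 2) ℂ} {s : ℝ} {A : Fin 2 → P3} {b : P3}
    {c : Fin 2 → P3} (h : NN 1 M N s A b c) {r : ℕ} {g : Fin 2 → Polynomial ℂ} {m mt : P3}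
    (hF : FA r g m mt A (fun i => ∑ j, C (M i j) * tl 1 (A j))) {μ : ℂ} (hμ : μ ≠ 0)
    (hmt : mt = C μ * tl 1 m) (x0 : ℂ) (hx0 : ‖x0‖ = 1) :
    ∃ ν : ℂ, ν ≠ 0 ∧ ∑ i, ∑ j, Polynomial.C (M i j * (starRingEnd ℂ) ((g j).eval x0)) * g i =
      Polynomial.C ν * (Polynomial.C ((g 1).eval x0) * g 0 -
        Polynomial.C ((g 0).eval x0) * g 1) := by
  have hmt0 : mt ≠ 0 := by
    intro h0
    exact hF.nmt (h0 ▸ dvd_zero _)
  have htm : tl 1 m ≠ 0 := by
    intro h0
    exact hmt0 (by rw [hmt, h0, mul_zero])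
  have hyx : (starRingEnd ℂ) x0 * x0 = 1 := by
    rw [mul_comm, Complex.mul_conj, Complex.normSq_eq_norm_sq, hx0]
    simp
  have hA : ∀ j, tl 1 (A j) = tl 1 m * tl 1 (hg r (g j)) := fun j => by
    rw [hF.hA j, tl_mulQ7]
  have E0 : ∑ j, C (M 0 j) * tl 1 (hg r (g j)) = -(C μ * hgt r (g 1)) := by
    apply mul_left_cancel₀ htm
    have h0 := hF.hAt0
    simp only [hA, hmt] at h0
    rw [Finset.mul_sum]
    linear_combination (exp := 1) h0 + (Finset.sum_congr rfl fun j _ => by ring :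
      ∑ j, tl 1 m * (C (M 0 j) * tl 1 (hg r (g j))) =
        ∑ j, C (M 0 j) * (tl 1 m * tl 1 (hg r (g j))))
  have E1 : ∑ j, C (M 1 j) * tl 1 (hg r (g j)) = C μ * hgt r (g 0) := by
    apply mul_left_cancel₀ htm
    have h0 := hF.hAt1
    simp only [hA, hmt] at h0
    rw [Finset.mul_sum]
    linear_combination (exp := 1) h0 + (Finset.sum_congr rfl fun j _ => by ring :
      ∑ j, tl 1 m * (C (M 1 j) * tl 1 (hg r (g j))) =
        ∑ j, C (M 1 j) * (tl 1 m * tl 1 (hg r (g j))))
  have hev : ∀ j, eval ![0, 1, -(starRingEnd ℂ) x0] (tl 1 (hg r (g j))) = (starRingEnd ℂ) ((g j).eval x0) := fun j => by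
    have e : (![(starRingEnd ℂ) ((![0, 1, -(starRingEnd ℂ) x0] : V3) 0), (starRingEnd ℂ) ((![0, 1, -(starRingEnd ℂ) x0] : V3) 1),
        -(starRingEnd ℂ) ((![0, 1, -(starRingEnd ℂ) x0] : V3) 2)] : V3) = ![0, 1, x0] := by
      funext i
      fin_cases i <;> simp
    rw [tl_evalQ7, e, hg_evalQ7 (hF.deg j) x0]
  have F0 := congrArg (eval ![0, 1, -(starRingEnd ℂ) x0]) E0
  have F1 := congrArg (eval ![0, 1, -(starRingEnd ℂ) x0]) E1
  simp only [map_sum, map_mul, eval_C, hev, map_neg, hgt_evalQ7 (hF.deg _) _ _ hyx] at F0 F1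
  refine ⟨-(μ * (-(starRingEnd ℂ) x0) ^ r), ?_, ?_⟩
  · have hc : (starRingEnd ℂ) x0 ≠ 0 := left_ne_zero_of_mul_eq_one hyx
    exact neg_ne_zero.2 (mul_ne_zero hμ (pow_ne_zero r (neg_ne_zero.2 hc)))
  · rw [Fin.sum_univ_two] at F0 F1 ⊢
    simp only [Fin.sum_univ_two] at F0 F1 ⊢
    have G0 := congrArg Polynomial.C F0
    have G1 := congrArg Polynomial.C F1
    simp only [map_add, map_mul, map_neg, map_pow] at G0 G1 ⊢
    linear_combination (g 0) * G0 + (g 1) * G1

end Pool.Agent.Lib_helper86.D24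

end

section

namespace Pool.Agent.Lib_helper86.D24

open MvPolynomial Matrix


private theorem bQ8_bf {r : ℕ} {g : Polynomial ℂ} (h : g.natDegree ≤ r) (x : ℂ) :
    bf r g 1 x = g.eval x := by
  rw [Polynomial.eval_eq_sum_range' (n := r + 1) (by omega)]
  simp [bf]

/-- Q8 (uses Q1-Q7): parity -/
theorem parity {ε : ℝ} {M N : Matrix (Fin 2) (Fin 2) ℂ} {s : ℝ} {A : Fin 2 → P3} {b : P3}
    {c ct : Fin 2 → P3} (h : NN ε M N s A b c) {n : ℕ} {g : Fin 2 → Polynomial ℂ}
    {ρ : Polynomial ℂ} {κ : ℂ} {m mt : P3} {Γ : Matrix (Fin (n + 1)) (Fin (n + 1)) ℂ}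
    (hS : SF n m mt c ct g ρ κ Γ) (hA : ∀ i, A i = m * hg (n + 3) (g i))
    (hA0 : ∑ j, C (M 0 j) * tl ε (A j) = -(mt * hgt (n + 3) (g 1)))
    (hA1 : ∑ j, C (M 1 j) * tl ε (A j) = mt * hgt (n + 3) (g 0))
    (hb : b = m * hg (n + 2) ρ) (hbt : C ((s : ℂ) * ε) * tl ε b = C κ * mt * hgt (n + 2) ρ) :
    Even n := by
  have hF : FA (n + 3) g m mt A (fun i => ∑ j, C (M i j) * tl ε (A j)) :=
    { r1 := by omega
      r6 := by have := hS.hn; omega
      deg := hS.pen.deg
      top := hS.pen.top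
      cop := hS.pen.cop
      homm := by
        rw [show 6 - (n + 3) = 3 - n by omega]
        exact hS.homm
      hommt := by
        rw [show 6 - (n + 3) = 3 - n by omega]
        exact hS.hommt
      nm := hS.nm
      nmt := hS.nmt
      hA := hA
      hAt0 := hA0
      hAt1 := hA1 }
  have hm0 : m ≠ 0 := fun h0 => hS.nm (h0 ▸ dvd_zero _)
  obtain ⟨μ, hμ, hmt⟩ := mt_eq h hF
  obtain ⟨θ, hθ⟩ := rho_symm h hS.pen.κ0 hm0 hμ hmt hb hbt
  have hρd : ρ.natDegree ≤ n + 2 := by have := hS.pen.degρ; omega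
  rcases h.hε with rfl | rfl
  · by_contra hn
    have hodd : Odd (n + 2) := by
      rw [Nat.not_even_iff_odd] at hn
      exact hn.add_even even_two
    obtain ⟨x0, hx0, hz⟩ := circle_zero hodd ρ θ (fun a b => by
      have := hθ a b
      simpa using this)
    rw [bQ8_bf hρd] at hz
    obtain ⟨ν, hν, hpol⟩ := polar_eq h hF hμ hmt x0 hx0
    refine local_false M h.hM g x0 hx0 (fun x hx => g_le h hS.homm hm0 hS.pen.deg hA x hx) ?_ ?_
    · rw [hpol]
      refine Dvd.dvd.mul_left ?_ _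
      refine ⟨-∑ i : Fin (n + 1), ∑ j : Fin (n + 1),
        Polynomial.C (Γ i j * x0 ^ (j : ℕ)) * Polynomial.X ^ (i : ℕ), ?_⟩
      apply Polynomial.funext
      intro x
      have h2 := hS.I2 1 x 1 x0
      rw [bQ8_bf (hS.pen.deg 0), bQ8_bf (hS.pen.deg 1), bQ8_bf (hS.pen.deg 0),
        bQ8_bf (hS.pen.deg 1), bQ8_bf hρd, bQ8_bf hρd, hz] at h2
      have h3 : bh Γ 1 x 1 x0 = ∑ i : Fin (n + 1), ∑ j : Fin (n + 1),
          Γ i j * x0 ^ (j : ℕ) * x ^ (i : ℕ) := by
        unfold bh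
        refine Finset.sum_congr rfl fun i _ => Finset.sum_congr rfl fun j _ => ?_
        simp only [one_pow, one_mul]
        ring
      rw [h3] at h2
      simp only [Polynomial.eval_sub, Polynomial.eval_mul, Polynomial.eval_C, Polynomial.eval_pow,
        Polynomial.eval_X, Polynomial.eval_neg, Polynomial.eval_finsetSum]
      linear_combination h2
    · rw [hpol]
      refine mul_ne_zero (by simpa using hν) ?_
      intro h0
      have hw := hS.pen.wr
      have hw0 : wr (g 0) (g 1) ≠ 0 := by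
        rw [hw]
        exact mul_ne_zero (by simpa using hS.pen.κ0) (pow_ne_zero _ hS.pen.ρ0)
      obtain ⟨u, v, huv⟩ := hS.pen.cop
      by_cases h1 : (g 1).eval x0 = 0
      · by_cases h2 : (g 0).eval x0 = 0
        · have := congrArg (Polynomial.eval x0) huv
          simp [h1, h2] at this
        · rw [h1] at h0
          simp only [map_zero, zero_mul, zero_sub, neg_eq_zero, mul_eq_zero,
            Polynomial.C_eq_zero] at h0
          rcases h0 with h0 | h0
          · exact h2 h0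
          · apply hw0
            simp [wr, h0]
      · have h3 : g 0 = Polynomial.C ((g 0).eval x0 / (g 1).eval x0) * g 1 := by
          have h4 : Polynomial.C ((g 1).eval x0) * g 0 = Polynomial.C ((g 0).eval x0) * g 1 :=
            sub_eq_zero.1 h0
          have h5 : g 0 = Polynomial.C (((g 1).eval x0)⁻¹) *
              (Polynomial.C ((g 1).eval x0) * g 0) := by
            rw [← mul_assoc, ← Polynomial.C_mul, inv_mul_cancel₀ h1]
            simp
          rw [h4, ← mul_assoc, ← Polynomial.C_mul, mul_comm (((g 1).eval x0)⁻¹),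
            ← div_eq_mul_inv] at h5
          exact h5
        apply hw0
        unfold wr
        rw [h3, Polynomial.derivative_C_mul]
        ring
  · have h2 : Even (n + 2) := parity_neg hS.pen.ρ0 hρd (fun a b => by
      have := hθ a b
      simpa using this)
    have h3 := (Nat.even_add (m := n) (n := 2)).1 h2
    exact h3.2 even_two

end Pool.Agent.Lib_helper86.D24

end

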