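import Pool.Agent.Lib_helper86.D24.Defs2
import Pool.Agent.Lib_helper86.D24.L1

/-!
# D(2,4) = 5: part L6
-/

section

namespace Pool.Agent.Lib_helper86.D24

open MvPolynomial Matrix


/-- the values of `bf` in the chart `y₁ = 1` -/
theorem bLR_bf_one {r : ℕ} {g : Polynomial ℂ} (hg : g.natDegree ≤ r) (y : ℂ) :
    bf r g 1 y = g.eval y := by
  unfold bf
  rw [Polynomial.eval_eq_sum_range' (Nat.lt_succ_of_le hg)]
  refine Finset.sum_congr rfl fun i _ => ?_
  rw [one_pow, mul_one]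

/-- the values of `bf` in the chart `a ≠ 0` -/
theorem bLR_bf_ne {r : ℕ} {g : Polynomial ℂ} (hg : g.natDegree ≤ r) {a : ℂ} (ha : a ≠ 0) (b : ℂ) :
    bf r g a b = a ^ r * g.eval (b / a) := by
  unfold bf
  rw [Polynomial.eval_eq_sum_range' (Nat.lt_succ_of_le hg), Finset.mul_sum]
  refine Finset.sum_congr rfl fun i hi => ?_
  have h1 : i ≤ r := Nat.lt_succ_iff.1 (Finset.mem_range.1 hi)
  have h2 : a ^ r = a ^ (r - i) * a ^ i := by rw [← pow_add, Nat.sub_add_cancel h1]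
  rw [h2, div_pow]
  field_simp

/-- the values of `bf` at infinity -/
theorem bLR_bf_zero (r : ℕ) (g : Polynomial ℂ) (b : ℂ) : bf r g 0 b = g.coeff r * b ^ r := by
  unfold bf
  rw [Finset.sum_eq_single r]
  · simp
  · intro i hi hne
    have h1 : i < r + 1 := Finset.mem_range.1 hi
    have h2 : r - i ≠ 0 := by omega
    rw [zero_pow h2]
    ring
  · intro h
    exact absurd (Finset.mem_range.2 (Nat.lt_succ_self r)) h

/-- the heart: a pencil with a member `L ρ`, `L` linear -/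
theorem bLR_core {G H L ρ : Polynomial ℂ} {k : ℂ} (hk : k ≠ 0) (hρ : ρ ≠ 0) (hG : G = L * ρ)
    (hL : L.natDegree ≤ 1) (hcop : IsCoprime G H)
    (hwr : wr G H = Polynomial.C k * ρ ^ 2) : G.natDegree ≤ 1 ∧ H.natDegree ≤ 1 := by
  have hR : Polynomial.C k * ρ ^ 2 ≠ 0 :=
    mul_ne_zero (Polynomial.C_ne_zero.2 hk) (pow_ne_zero _ hρ)
  have hG0 : G ≠ 0 := by
    intro h
    apply hR
    rw [← hwr, wr, h]
    simp
  have hL0 : L ≠ 0 := fun h => hG0 (by rw [hG, h, zero_mul])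
  -- `ρ` has no root
  have hnr : ∀ y : ℂ, ¬ ρ.IsRoot y := by
    intro y hy
    have hμ : 1 ≤ ρ.rootMultiplicity y := (Polynomial.rootMultiplicity_pos hρ).2 hy
    have hGy : G.IsRoot y := by
      rw [hG, Polynomial.IsRoot.def, Polynomial.eval_mul, Polynomial.IsRoot.def.1 hy, mul_zero]
    have hm1 : G.rootMultiplicity y ≤ ρ.rootMultiplicity y + 1 := by
      rw [hG, Polynomial.rootMultiplicity_mul (by rw [← hG]; exact hG0)]
      have h1 : L.rootMultiplicity y ≤ L.natDegree := by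
        rw [← Polynomial.count_roots]
        exact (Multiset.count_le_card _ _).trans (Polynomial.card_roots' L)
      omega
    set m := G.rootMultiplicity y with hm
    have hmpos : 1 ≤ m := (Polynomial.rootMultiplicity_pos hG0).2 hGy
    -- the power divides `ρ ^ 2`
    have h1 : (Polynomial.X - Polynomial.C y) ^ m ∣ ρ ^ 2 := by
      have h2 := Polynomial.pow_rootMultiplicity_dvd ρ y
      have h3 := pow_dvd_pow_of_dvd h2 2
      rw [← pow_mul] at h3
      exact (pow_dvd_pow _ (by omega)).trans h3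
    have h4 : (Polynomial.X - Polynomial.C y) ^ m ∣ wr G H := by
      rw [hwr]
      exact h1.mul_left _
    have h5 : (Polynomial.X - Polynomial.C y) ^ m ∣ G := Polynomial.pow_rootMultiplicity_dvd G y
    have h6 : (Polynomial.X - Polynomial.C y) ^ m ∣ H * Polynomial.derivative G := by
      have h7 : H * Polynomial.derivative G = G * Polynomial.derivative H - wr G H := by
        rw [wr]; ring
      rw [h7]
      exact dvd_sub (h5.mul_right _) h4
    have h8 : IsCoprime ((Polynomial.X - Polynomial.C y) ^ m) H := by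
      obtain ⟨u, v, huv⟩ := hcop
      obtain ⟨w, hw⟩ := h5
      exact ⟨u * w, v, by rw [← huv, hw]; ring⟩
    have h9 : (Polynomial.X - Polynomial.C y) ^ m ∣ Polynomial.derivative G :=
      h8.dvd_of_dvd_mul_left h6
    have hG' : Polynomial.derivative G ≠ 0 := by
      intro h
      have h10 := Polynomial.derivative_eq_zero.1 h
      rw [Polynomial.eq_C_of_natDegree_eq_zero h10, Polynomial.IsRoot.def, Polynomial.eval_C] at hGy
      apply hG0
      rw [Polynomial.eq_C_of_natDegree_eq_zero h10, hGy, Polynomial.C_0]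
    have h11 := (Polynomial.le_rootMultiplicity_iff hG').2 h9
    rw [Polynomial.derivative_rootMultiplicity_of_root hGy, ← hm] at h11
    omega
  have hρd : ρ.natDegree = 0 := by
    by_contra h
    have h1 : ρ.degree ≠ 0 := by
      intro h2
      exact h (Polynomial.natDegree_eq_zero_iff_degree_le_zero.2 h2.le)
    obtain ⟨y, hy⟩ := IsAlgClosed.exists_root ρ h1
    exact hnr y hy
  obtain ⟨p, hp⟩ : ∃ p : ℂ, ρ = Polynomial.C p := ⟨_, Polynomial.eq_C_of_natDegree_eq_zero hρd⟩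
  have hGd : G.natDegree ≤ 1 := by
    rw [hG]
    refine Polynomial.natDegree_mul_le.trans ?_
    omega
  refine ⟨hGd, ?_⟩
  by_contra hH
  rw [not_le] at hH
  obtain ⟨α, β, hαβ⟩ : ∃ α β : ℂ, G = Polynomial.C α * Polynomial.X + Polynomial.C β :=
    ⟨_, _, Polynomial.eq_X_add_C_of_natDegree_le_one hGd⟩
  have hwr2 : (Polynomial.C α * Polynomial.X + Polynomial.C β) * Polynomial.derivative H -
      H * Polynomial.C α = Polynomial.C (k * p ^ 2) := by
    have h1 := hwr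
    rw [wr, hαβ, hp] at h1
    simp only [Polynomial.derivative_add, Polynomial.derivative_mul, Polynomial.derivative_C,
      Polynomial.derivative_X, zero_mul, mul_one, zero_add, add_zero] at h1
    rw [h1]
    simp [Polynomial.C_mul, Polynomial.C_pow]
  obtain ⟨n, hn⟩ : ∃ n, H.natDegree = n + 2 := ⟨H.natDegree - 2, by omega⟩
  have hlead : H.coeff (n + 2) ≠ 0 := by
    rw [← hn]
    exact Polynomial.leadingCoeff_ne_zero.2 (by intro h; rw [h] at hn; simp at hn)
  have hnext : H.coeff (n + 3) = 0 := Polynomial.coeff_eq_zero_of_natDegree_lt (by omega)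
  have hcoef : ∀ j : ℕ, α * ((j + 1) * H.coeff (j + 1)) + β * ((j + 2) * H.coeff (j + 2)) -
      H.coeff (j + 1) * α = 0 := by
    intro j
    have h1 := congrArg (fun q => Polynomial.coeff q (j + 1)) hwr2
    simp only [Polynomial.coeff_sub, add_mul, Polynomial.coeff_add, mul_assoc,
      Polynomial.coeff_C_mul, Polynomial.coeff_X_mul, Polynomial.coeff_derivative,
      Polynomial.coeff_mul_C] at h1
    rw [Polynomial.coeff_C_of_ne_zero (Nat.succ_ne_zero j)] at h1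
    push_cast at h1
    linear_combination h1
  by_cases hα : α = 0
  · have h1 := hcoef n
    rw [hα] at h1
    have hβ : β ≠ 0 := by
      intro h2
      apply hG0
      rw [hαβ, hα, h2]
      simp
    have h2 : β * ((n + 2) * H.coeff (n + 2)) = 0 := by linear_combination h1
    have h3 : ((n : ℂ) + 2) ≠ 0 := by
      have : ((n + 2 : ℕ) : ℂ) ≠ 0 := Nat.cast_ne_zero.2 (by omega)
      push_cast at this
      exact this
    exact (mul_ne_zero hβ (mul_ne_zero h3 hlead)) h2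
  · have h1 := hcoef (n + 1)
    have e1 : n + 1 + 1 = n + 2 := rfl
    have e2 : n + 1 + 2 = n + 3 := rfl
    rw [e1, e2, hnext] at h1
    push_cast at h1
    have h2 : α * (((n : ℂ) + 1) * H.coeff (n + 2)) = 0 := by linear_combination h1
    have h3 : ((n : ℂ) + 1) ≠ 0 := by
      have : ((n + 1 : ℕ) : ℂ) ≠ 0 := Nat.cast_ne_zero.2 (by omega)
      push_cast at this
      exact this
    exact (mul_ne_zero hα (mul_ne_zero h3 hlead)) h2

/-- LR: lemma R -/
theorem lemR {r : ℕ} {g : Fin 2 → Polynomial ℂ} {ρ : Polynomial ℂ} {κ : ℂ} (h : Pen r g ρ κ)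
    (hr : 2 ≤ r) (a1 a2 : ℂ) (ha : ¬ (a1 = 0 ∧ a2 = 0))
    (hz : ∀ y1 y2 : ℂ, bf r (g 0) a1 a2 * bf r (g 1) y1 y2 -
      bf r (g 1) a1 a2 * bf r (g 0) y1 y2 =
      κ * (a1 * y2 - a2 * y1) * (bf (r - 1) ρ a1 a2 * bf (r - 1) ρ y1 y2)) : False := by
  set A := bf r (g 0) a1 a2 with hA
  set B := bf r (g 1) a1 a2 with hB
  set c0 := κ * bf (r - 1) ρ a1 a2 with hc0
  have hρr : ρ.natDegree ≤ r - 1 := by have := h.degρ; omega
  -- the values are not both zero
  have hAB : A ≠ 0 ∨ B ≠ 0 := by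
    by_contra hcon
    rw [not_or, not_not, not_not] at hcon
    obtain ⟨hA0, hB0⟩ := hcon
    by_cases ha1 : a1 = 0
    · have ha2 : a2 ≠ 0 := fun h2 => ha ⟨ha1, h2⟩
      rw [hA, ha1, bLR_bf_zero] at hA0
      rw [hB, ha1, bLR_bf_zero] at hB0
      have h0 : (g 0).coeff r = 0 := by
        rcases mul_eq_zero.1 hA0 with h3 | h3
        · exact h3
        · exact absurd (pow_eq_zero_iff (by omega) |>.1 h3) ha2
      have h1 : (g 1).coeff r = 0 := by
        rcases mul_eq_zero.1 hB0 with h3 | h3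
        · exact h3
        · exact absurd (pow_eq_zero_iff (by omega) |>.1 h3) ha2
      obtain ⟨i, hi⟩ := h.top
      have h2 : (g i).coeff r = 0 := by
        fin_cases i
        · exact h0
        · exact h1
      rw [← hi] at h2
      have h3 : g i = 0 := Polynomial.leadingCoeff_eq_zero.1 h2
      rw [h3] at hi
      simp at hi
      omega
    · rw [hA, bLR_bf_ne (h.deg 0) ha1] at hA0
      rw [hB, bLR_bf_ne (h.deg 1) ha1] at hB0
      have h3 : a1 ^ r ≠ 0 := pow_ne_zero _ ha1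
      have h0 : (g 0).eval (a2 / a1) = 0 := (mul_eq_zero.1 hA0).resolve_left h3
      have h1 : (g 1).eval (a2 / a1) = 0 := (mul_eq_zero.1 hB0).resolve_left h3
      obtain ⟨u, v, huv⟩ := h.cop
      have h4 := congrArg (Polynomial.eval (a2 / a1)) huv
      rw [Polynomial.eval_add, Polynomial.eval_mul, Polynomial.eval_mul, h0, h1] at h4
      simp at h4
  -- the polynomial identity
  have hpoly : Polynomial.C A * g 1 - Polynomial.C B * g 0 =
      (Polynomial.C c0 * (Polynomial.C a1 * Polynomial.X - Polynomial.C a2)) * ρ := by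
    refine Polynomial.funext fun y => ?_
    have h1 := hz 1 y
    rw [bLR_bf_one (h.deg 1), bLR_bf_one (h.deg 0), bLR_bf_one hρr] at h1
    simp only [Polynomial.eval_sub, Polynomial.eval_mul, Polynomial.eval_C, Polynomial.eval_X]
    rw [h1, hc0]
    ring
  have hLd : (Polynomial.C c0 * (Polynomial.C a1 * Polynomial.X - Polynomial.C a2)).natDegree ≤
      1 := by
    have e : Polynomial.C c0 * (Polynomial.C a1 * Polynomial.X - Polynomial.C a2) =
        Polynomial.C (c0 * a1) * Polynomial.X + Polynomial.C (-(c0 * a2)) := by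
      simp only [Polynomial.C_mul, Polynomial.C_neg]
      ring
    rw [e]
    exact Polynomial.natDegree_linear_le
  have hfin : (g 0).natDegree ≤ 1 ∧ (g 1).natDegree ≤ 1 := by
    by_cases hA0 : A = 0
    · have hB0 : B ≠ 0 := hAB.resolve_left (fun h1 => h1 hA0)
      have hBC : Polynomial.C B ≠ 0 := Polynomial.C_ne_zero.2 hB0
      have hcop : IsCoprime (Polynomial.C A * g 1 - Polynomial.C B * g 0) (g 1) := by
        obtain ⟨u, v, huv⟩ := h.cop
        refine ⟨-(Polynomial.C B⁻¹ * u), v, ?_⟩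
        have e : Polynomial.C B⁻¹ * Polynomial.C B = 1 := by
          rw [← Polynomial.C_mul, inv_mul_cancel₀ hB0, Polynomial.C_1]
        rw [hA0, Polynomial.C_0]
        linear_combination huv + (u * g 0) * e
      obtain ⟨h1, h2⟩ := bLR_core (k := -(B * κ)) (neg_ne_zero.2 (mul_ne_zero hB0 h.κ0)) h.ρ0
        hpoly hLd hcop (by
          have hw := h.wr
          rw [wr] at hw ⊢
          rw [hA0, Polynomial.C_0]
          simp only [Polynomial.derivative_mul, Polynomial.derivative_C,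
            zero_mul, zero_add, zero_sub, Polynomial.derivative_neg, Polynomial.C_neg,
            Polynomial.C_mul]
          linear_combination (-Polynomial.C B) * hw)
      refine ⟨?_, h2⟩
      have e : g 0 = Polynomial.C (-B⁻¹) * (Polynomial.C A * g 1 - Polynomial.C B * g 0) := by
        have e : Polynomial.C B⁻¹ * Polynomial.C B = 1 := by
          rw [← Polynomial.C_mul, inv_mul_cancel₀ hB0, Polynomial.C_1]
        rw [hA0, Polynomial.C_0, Polynomial.C_neg]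
        linear_combination (-g 0) * e
      rw [e]
      exact (Polynomial.natDegree_C_mul_le _ _).trans h1
    · have hcop : IsCoprime (Polynomial.C A * g 1 - Polynomial.C B * g 0) (g 0) := by
        obtain ⟨u, v, huv⟩ := h.cop
        refine ⟨Polynomial.C A⁻¹ * v, u + Polynomial.C A⁻¹ * v * Polynomial.C B, ?_⟩
        have e : Polynomial.C A⁻¹ * Polynomial.C A = 1 := by
          rw [← Polynomial.C_mul, inv_mul_cancel₀ hA0, Polynomial.C_1]
        linear_combination huv + (v * g 1) * e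
      obtain ⟨h1, h2⟩ := bLR_core (k := -(A * κ)) (neg_ne_zero.2 (mul_ne_zero hA0 h.κ0)) h.ρ0
        hpoly hLd hcop (by
          have hw := h.wr
          rw [wr] at hw ⊢
          simp only [Polynomial.derivative_sub, Polynomial.derivative_mul, Polynomial.derivative_C,
            zero_mul, zero_add, Polynomial.C_neg, Polynomial.C_mul]
          linear_combination (-Polynomial.C A) * hw)
      refine ⟨h2, ?_⟩
      have e : g 1 = Polynomial.C A⁻¹ * (Polynomial.C A * g 1 - Polynomial.C B * g 0) +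
          Polynomial.C (A⁻¹ * B) * g 0 := by
        have e : Polynomial.C A⁻¹ * Polynomial.C A = 1 := by
          rw [← Polynomial.C_mul, inv_mul_cancel₀ hA0, Polynomial.C_1]
        rw [Polynomial.C_mul]
        linear_combination (-g 1) * e
      rw [e]
      refine (Polynomial.natDegree_add_le _ _).trans (max_le ?_ ?_)
      · exact (Polynomial.natDegree_C_mul_le _ _).trans h1
      · exact (Polynomial.natDegree_C_mul_le _ _).trans h2
  obtain ⟨i, hi⟩ := h.top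
  have h3 : (g i).natDegree ≤ 1 := by
    fin_cases i
    · exact hfin.1
    · exact hfin.2
  omega

end Pool.Agent.Lib_helper86.D24

end

section

namespace Pool.Agent.Lib_helper86.D24

open MvPolynomial Matrix


/-- RK: rank -/
theorem rank_false (φ ψ : Fin 4 → Polynomial ℂ) (K : Matrix (Fin 6) (Fin 6) ℂ) (hK : K.det ≠ 0)
    (h : ∀ x y : ℂ, ∑ i, ∑ j, K i j * x ^ (i : ℕ) * y ^ (j : ℕ) =
      ∑ k, (φ k).eval x * (ψ k).eval y) : False := by
  -- a nonzero vector orthogonal to the coefficients of the `ψ k`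
  obtain ⟨β, hβ0, hβ⟩ : ∃ β : Fin 6 → ℂ, β ≠ 0 ∧ ∀ k : Fin 4, ∑ j : Fin 6, (ψ k).coeff (j : ℕ) * β j = 0 := by
    let L : (Fin 6 → ℂ) →ₗ[ℂ] (Fin 4 → ℂ) :=
      Matrix.mulVecLin (fun (k : Fin 4) (j : Fin 6) => (ψ k).coeff (j : ℕ))
    have hL : LinearMap.ker L ≠ ⊥ := LinearMap.ker_ne_bot_of_finrank_lt (by simp)
    obtain ⟨β, hβ, hβ0⟩ := (Submodule.ne_bot_iff _).1 hL
    refine ⟨β, hβ0, fun k => ?_⟩
    have := congrFun (LinearMap.mem_ker.1 hβ) k
    simpa [L, Matrix.mulVec, dotProduct] using this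
  have hpoly : ∀ x : ℂ, (∑ j : Fin 6, Polynomial.C (∑ i : Fin 6, K i j * x ^ (i : ℕ)) *
      (Polynomial.X : Polynomial ℂ) ^ (j : ℕ)) = ∑ k, Polynomial.C ((φ k).eval x) * ψ k := by
    intro x
    apply Polynomial.funext
    intro y
    have := h x y
    simp only [Polynomial.eval_finsetSum, Polynomial.eval_mul, Polynomial.eval_C,
      Polynomial.eval_pow, Polynomial.eval_X]
    rw [← this, Finset.sum_comm]
    refine Finset.sum_congr rfl fun j _ => ?_
    rw [Finset.sum_mul]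
  have hcoef : ∀ (x : ℂ) (j : Fin 6), ∑ i : Fin 6, K i j * x ^ (i : ℕ) =
      ∑ k, (φ k).eval x * (ψ k).coeff (j : ℕ) := by
    intro x j
    have := congrArg (fun p => Polynomial.coeff p (j : ℕ)) (hpoly x)
    simp only [Polynomial.finsetSum_coeff, Polynomial.coeff_C_mul, Polynomial.coeff_X_pow] at this
    rw [← this]
    simp [Fin.val_inj]
  have hz : ∀ x : ℂ, ∑ i : Fin 6, (∑ j : Fin 6, K i j * β j) * x ^ (i : ℕ) = 0 := by
    intro x
    have h1 : ∑ j : Fin 6, (∑ i : Fin 6, K i j * x ^ (i : ℕ)) * β j = 0 := by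
      have h2 : ∑ j : Fin 6, (∑ i : Fin 6, K i j * x ^ (i : ℕ)) * β j =
          ∑ j : Fin 6, (∑ k, (φ k).eval x * (ψ k).coeff (j : ℕ)) * β j :=
        Finset.sum_congr rfl fun j _ => by rw [hcoef]
      rw [h2]
      simp only [Finset.sum_mul]
      rw [Finset.sum_comm]
      refine Finset.sum_eq_zero fun k _ => ?_
      have := hβ k
      calc ∑ j : Fin 6, (φ k).eval x * (ψ k).coeff (j : ℕ) * β j
          = (φ k).eval x * ∑ j : Fin 6, (ψ k).coeff (j : ℕ) * β j := by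
            rw [Finset.mul_sum]; exact Finset.sum_congr rfl fun j _ => by ring
        _ = 0 := by rw [this, mul_zero]
    rw [← h1]
    simp only [Finset.sum_mul]
    rw [Finset.sum_comm]
    exact Finset.sum_congr rfl fun j _ => Finset.sum_congr rfl fun i _ => by ring
  have hp0 : (∑ i : Fin 6, Polynomial.C (∑ j : Fin 6, K i j * β j) *
      (Polynomial.X : Polynomial ℂ) ^ (i : ℕ)) = 0 := by
    apply Polynomial.funext
    intro x
    simpa [Polynomial.eval_finsetSum] using hz x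
  have hK0 : K *ᵥ β = 0 := by
    funext i
    have := congrArg (fun p => Polynomial.coeff p (i : ℕ)) hp0
    simp only [Polynomial.finsetSum_coeff, Polynomial.coeff_C_mul, Polynomial.coeff_X_pow,
      Polynomial.coeff_zero] at this
    simpa [Fin.val_inj, Matrix.mulVec, dotProduct] using this
  exact hβ0 (Matrix.eq_zero_of_mulVec_eq_zero hK hK0)


end Pool.Agent.Lib_helper86.D24

end

section

namespace Pool.Agent.Lib_helper86.D24

open MvPolynomial Matrix


/-- GS -/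
theorem gam_symm {n : ℕ} {m mt : P3} {c ct : Fin 2 → P3} {g : Fin 2 → Polynomial ℂ}
    {ρ : Polynomial ℂ} {κ : ℂ} {Γ : Matrix (Fin (n + 1)) (Fin (n + 1)) ℂ}
    (h : SF n m mt c ct g ρ κ Γ) (x1 x2 y1 y2 : ℂ) : bh Γ x1 x2 y1 y2 = bh Γ y1 y2 x1 x2 := by
  let P : MvPolynomial (Fin 4) ℂ := ∑ i : Fin (n + 1), ∑ j : Fin (n + 1),
    C (Γ i j) * (X 0 ^ (n - (i : ℕ)) * X 1 ^ (i : ℕ)) * (X 2 ^ (n - (j : ℕ)) * X 3 ^ (j : ℕ))
  let Q : MvPolynomial (Fin 4) ℂ := ∑ i : Fin (n + 1), ∑ j : Fin (n + 1),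
    C (Γ i j) * (X 2 ^ (n - (i : ℕ)) * X 3 ^ (i : ℕ)) * (X 0 ^ (n - (j : ℕ)) * X 1 ^ (j : ℕ))
  have hP : ∀ a b c d : ℂ, eval ![a, b, c, d] P = bh Γ a b c d := by
    intro a b c d
    simp [P, bh]
  have hQ : ∀ a b c d : ℂ, eval ![a, b, c, d] Q = bh Γ c d a b := by
    intro a b c d
    simp [Q, bh]
  have key : (X 0 * X 3 - X 1 * X 2) ^ 3 * (P - Q) = 0 := by
    apply MvPolynomial.funext
    intro v
    obtain ⟨a, b, c, d, rfl⟩ : ∃ a b c d, v = ![a, b, c, d] := ⟨v 0, v 1, v 2, v 3, by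
      ext i; fin_cases i <;> rfl⟩
    rw [map_mul, map_sub, hP, hQ, map_zero]
    have h1 := h.I2 a b c d
    have h2 := h.I2 c d a b
    simp only [map_pow, map_sub, map_mul, eval_X]
    simp only [cons_val_zero, cons_val_one, cons_val]
    linear_combination (-1) * h1 - h2
  have hne : (X 0 * X 3 - X 1 * X 2 : MvPolynomial (Fin 4) ℂ) ^ 3 ≠ 0 := by
    intro h0
    have := congrArg (eval ![1, 0, 0, 1]) h0
    simp at this
  have h3 : P = Q := sub_eq_zero.1 ((mul_eq_zero.1 key).resolve_left hne)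
  rw [← hP, h3, hQ]

end Pool.Agent.Lib_helper86.D24

end

section

namespace Pool.Agent.Lib_helper86.D24

open MvPolynomial Matrix


theorem bLD_bh (Γ : Matrix (Fin (2 + 1)) (Fin (2 + 1)) ℂ) (a b c d : ℂ) :
    bh Γ a b c d = Γ 0 0 * a ^ 2 * c ^ 2 + Γ 0 1 * a ^ 2 * (c * d) + Γ 0 2 * a ^ 2 * d ^ 2 +
      Γ 1 0 * (a * b) * c ^ 2 + Γ 1 1 * (a * b) * (c * d) + Γ 1 2 * (a * b) * d ^ 2 +
      Γ 2 0 * b ^ 2 * c ^ 2 + Γ 2 1 * b ^ 2 * (c * d) + Γ 2 2 * b ^ 2 * d ^ 2 := by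
  simp [bh, Fin.sum_univ_succ]
  ring

theorem bLD_bf {r : ℕ} {g : Polynomial ℂ} (hg : g.natDegree ≤ r) (x : ℂ) :
    bf r g 1 x = g.eval x := by
  rw [Polynomial.eval_eq_sum_range' (Nat.lt_succ_of_le hg), bf]
  exact Finset.sum_congr rfl fun i _ => by rw [one_pow, mul_one]

/-- the antidiagonal matrix of the coefficients of `(y - x)^5` -/
noncomputable def bLD_K (c : ℂ) : Matrix (Fin 6) (Fin 6) ℂ :=
  (Matrix.diagonal fun i : Fin 6 => c * (Nat.choose 5 i : ℂ) * (-1) ^ (i : ℕ)).submatrix id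
    Fin.revPerm

theorem bLD_det {c : ℂ} (hc : c ≠ 0) : (bLD_K c).det ≠ 0 := by
  rw [bLD_K, Matrix.det_permute', Matrix.det_diagonal]
  refine mul_ne_zero ?_ ?_
  · rcases Int.units_eq_one_or (Equiv.Perm.sign (Fin.revPerm : Equiv.Perm (Fin 6))) with h | h <;>
      rw [h] <;> simp
  · refine Finset.prod_ne_zero_iff.2 fun i _ => ?_
    refine mul_ne_zero (mul_ne_zero hc ?_) (pow_ne_zero _ (by norm_num))
    have : 0 < Nat.choose 5 (i : ℕ) := Nat.choose_pos (by omega)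
    exact_mod_cast this.ne'

theorem bLD_sum (c x y : ℂ) : ∑ i, ∑ j, bLD_K c i j * x ^ (i : ℕ) * y ^ (j : ℕ) =
    c * (y - x) ^ 5 := by
  have h1 : ∀ i : Fin 6, ∑ j, bLD_K c i j * x ^ (i : ℕ) * y ^ (j : ℕ) =
      c * (Nat.choose 5 i : ℂ) * (-1) ^ (i : ℕ) * x ^ (i : ℕ) * y ^ (5 - (i : ℕ)) := by
    intro i
    rw [Finset.sum_eq_single (Fin.rev i)]
    · have e : bLD_K c i (Fin.rev i) = c * (Nat.choose 5 i : ℂ) * (-1) ^ (i : ℕ) := by
        simp [bLD_K, Matrix.submatrix_apply]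
      rw [e]
      congr 2
      rw [Fin.val_rev]
      omega
    · intro j _ hj
      have e : bLD_K c i j = 0 := by
        rw [bLD_K, Matrix.submatrix_apply, Matrix.diagonal_apply_ne]
        · intro h
          apply hj
          rw [id] at h
          rw [h]
          simp
      rw [e]
      ring
    · intro h
      exact absurd (Finset.mem_univ _) h
  simp only [h1]
  rw [Fin.sum_univ_six]
  have c0 : Nat.choose 5 0 = 1 := rfl
  have c1 : Nat.choose 5 1 = 5 := rfl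
  have c2 : Nat.choose 5 2 = 10 := rfl
  have c3 : Nat.choose 5 3 = 10 := rfl
  have c4 : Nat.choose 5 4 = 5 := rfl
  have c5 : Nat.choose 5 5 = 1 := rfl
  simp only [show ((0 : Fin 6) : ℕ) = 0 from rfl, show ((1 : Fin 6) : ℕ) = 1 from rfl,
    show ((2 : Fin 6) : ℕ) = 2 from rfl, show ((3 : Fin 6) : ℕ) = 3 from rfl,
    show ((4 : Fin 6) : ℕ) = 4 from rfl, show ((5 : Fin 6) : ℕ) = 5 from rfl, c0, c1, c2, c3, c4, c5]
  push_cast
  ring

/-- LD: lemma D (uses LR, RK, GS) -/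
theorem lemD {m mt : P3} {c ct : Fin 2 → P3} {g : Fin 2 → Polynomial ℂ} {ρ : Polynomial ℂ}
    {κ : ℂ} {Γ : Matrix (Fin (2 + 1)) (Fin (2 + 1)) ℂ} (h : SF 2 m mt c ct g ρ κ Γ) :
    ∃ u1 u2 : ℂ, bh Γ u1 u2 u1 u2 ≠ 0 := by
  by_contra hcon
  push Not at hcon
  have hs := gam_symm h
  simp only [bLD_bh] at hs hcon
  have e00 : Γ 0 0 = 0 := by linear_combination hcon 1 0
  have e22 : Γ 2 2 = 0 := by linear_combination hcon 0 1
  have s02 : Γ 0 2 = Γ 2 0 := by linear_combination hs 1 0 0 1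
  have s01 : Γ 0 1 = Γ 1 0 := by linear_combination hs 1 0 1 1 - s02
  have s12 : Γ 1 2 = Γ 2 1 := by linear_combination hs 0 1 1 1 * (-1) - s02
  have h1 := hcon 1 1
  have h2 := hcon 1 (-1)
  have h3 := hcon 1 2
  have e01 : Γ 0 1 = 0 := by
    linear_combination ((6 * h1 - 2 * h2 - h3) / 6 - (1 / 2) * e00 + 2 * e22 + s01) / 2
  have e12 : Γ 1 2 = 0 := by
    linear_combination ((h3 - 3 * h1 - h2) / 6 + (1 / 2) * e00 - 2 * e22 + s12) / 2
  have e11 : Γ 1 1 = -2 * Γ 0 2 := by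
    linear_combination (h1 + h2) / 2 - e00 - e22 + s02
  have hG : ∀ x1 x2 y1 y2 : ℂ, bh Γ x1 x2 y1 y2 = Γ 0 2 * (x1 * y2 - x2 * y1) ^ 2 := by
    intro x1 x2 y1 y2
    rw [bLD_bh, e00, e22, ← s01, e01, ← s12, e12, e11, ← s02]
    ring
  have hI := h.I2
  simp only [hG] at hI
  rcases eq_or_ne (Γ 0 2) 0 with h0 | h0
  · refine lemR h.pen (by norm_num) 1 0 (by simp) fun y1 y2 => ?_
    have h4 := hI 1 0 y1 y2
    rw [h0] at h4
    show bf (2 + 3) (g 0) 1 0 * bf (2 + 3) (g 1) y1 y2 - bf (2 + 3) (g 1) 1 0 *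
      bf (2 + 3) (g 0) y1 y2 = κ * (1 * y2 - 0 * y1) * (bf (2 + 2) ρ 1 0 * bf (2 + 2) ρ y1 y2)
    linear_combination h4
  · have hρ : ρ.natDegree ≤ 2 + 2 := by
      have := h.pen.degρ
      omega
    refine rank_false ![g 0, -(g 1), -(Polynomial.C κ * ρ), Polynomial.C κ * Polynomial.X * ρ]
      ![g 1, g 0, Polynomial.X * ρ, ρ] (bLD_K (Γ 0 2)) (bLD_det h0) fun x y => ?_
    have h4 := hI 1 x 1 y
    rw [bLD_bf (h.pen.deg 0), bLD_bf (h.pen.deg 1), bLD_bf (h.pen.deg 0), bLD_bf (h.pen.deg 1),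
      bLD_bf hρ, bLD_bf hρ] at h4
    rw [bLD_sum, Fin.sum_univ_four]
    simp only [Matrix.cons_val_zero, Matrix.cons_val_one, Matrix.cons_val, Polynomial.eval_neg,
      Polynomial.eval_mul, Polynomial.eval_C, Polynomial.eval_X]
    linear_combination -h4

end Pool.Agent.Lib_helper86.D24

end

section

set_option autoImplicit false

namespace Pool.Agent.Lib_helper86.D24

open MvPolynomial Matrix


private noncomputable def cyτ (v : V3) : P3 →ₐ[ℂ] P3 := aeval (fun m => X m + C (v m))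

private theorem cyτ_eval (v z : V3) (p : P3) : eval z (cyτ v p) = eval (z + v) p := by
  have : (eval z).comp (cyτ v).toRingHom = eval (z + v) := by
    apply MvPolynomial.ringHom_ext
    · intro r
      simp [cyτ]
    · intro m
      simp [cyτ]
  exact DFunLike.congr_fun this p

private theorem cyτ_neg (v : V3) (p : P3) : cyτ v (cyτ (-v) p) = p := by
  apply MvPolynomial.funext
  intro z
  rw [cyτ_eval, cyτ_eval, add_neg_cancel_right]

private theorem cy_smul {a : P3} {m : ℕ} (ha : a.IsHomogeneous m) (t : ℂ) (z : V3) :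
    eval (t • z) a = t ^ m * eval z a := by
  rw [eval_eq, eval_eq, Finset.mul_sum]
  refine Finset.sum_congr rfl fun d hd => ?_
  have h1 : ∑ i, d i = m := by
    have := ha (mem_support_iff.mp hd)
    rw [← this, Finsupp.weight_apply, Finsupp.sum_fintype]
    · simp
    · simp
  have h2 : ∏ i ∈ d.support, (t • z) i ^ d i = ∏ i, (t • z) i ^ d i := by
    apply Finset.prod_subset (Finset.subset_univ _)
    intro i _ hi
    rw [Finsupp.notMem_support_iff.mp hi, pow_zero]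
  have h3 : ∏ i ∈ d.support, z i ^ d i = ∏ i, z i ^ d i := by
    apply Finset.prod_subset (Finset.subset_univ _)
    intro i _ hi
    rw [Finsupp.notMem_support_iff.mp hi, pow_zero]
  rw [h2, h3]
  simp only [Pi.smul_apply, smul_eq_mul, mul_pow, Finset.prod_mul_distrib, Finset.prod_pow_eq_pow_sum,
    h1]
  ring

private theorem cy_core {a : P3} {m : ℕ} (ha : a.IsHomogeneous m) (ha0 : a ≠ 0) (P : V3)
    (hd : ∀ s : ℂ, a ∣ cyτ (s • P) a) (z : V3) (s : ℂ) : eval (z + s • P) a = eval z a := by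
  have key : ∀ s : ℂ, ∃ l : ℂ, ∀ z : V3, eval (z + s • P) a = l * eval z a := by
    intro s
    have h1 : a ∣ cyτ (s • P) a := hd s
    have h2 : cyτ (s • P) a ∣ a := by
      have := map_dvd (cyτ (s • P)) (hd (-s))
      rwa [neg_smul, cyτ_neg] at this
    obtain ⟨u, hu⟩ := associated_of_dvd_dvd h1 h2
    obtain ⟨r, hr, hur⟩ := (isUnit_iff_eq_C_of_isReduced.mp u.isUnit)
    refine ⟨r, fun z => ?_⟩
    rw [← cyτ_eval, ← hu, hur, map_mul, eval_C, mul_comm]
  obtain ⟨z0, hz0⟩ : ∃ z0, eval z0 a ≠ 0 := by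
    by_contra hc
    push Not at hc
    exact ha0 (MvPolynomial.funext fun z => by rw [hc z, map_zero])
  choose l hl using key
  have h2 : l (2 * s) = l s * l s := by
    have e1 := hl (2 * s) z0
    have e2 : z0 + (2 * s) • P = (z0 + s • P) + s • P := by
      rw [add_assoc, ← add_smul]; congr 2; ring
    rw [e2, hl s, hl s, ← mul_assoc] at e1
    exact (mul_right_cancel₀ hz0 e1).symm
  have h3 : l (2 * s) = l s := by
    have e1 := hl (2 * s) ((2 : ℂ) • z0)
    have e2 : (2 : ℂ) • z0 + (2 * s) • P = (2 : ℂ) • (z0 + s • P) := by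
      rw [smul_add, smul_smul]
    rw [e2, cy_smul ha, cy_smul ha, hl s] at e1
    have hp : (2 : ℂ) ^ m * eval z0 a ≠ 0 := mul_ne_zero (pow_ne_zero _ two_ne_zero) hz0
    apply mul_right_cancel₀ hp
    linear_combination -e1
  have h4 : l s ≠ 0 := by
    intro hc
    have := hl s (z0 - s • P)
    rw [sub_add_cancel, hc, zero_mul] at this
    exact hz0 this
  have h5 : l s = 1 := by
    apply mul_left_cancel₀ h4
    rw [← h2, h3, mul_one]
  rw [hl s, h5, one_mul]

/-- CY: cylinders -/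
theorem cyl (c : Fin 2 → P3) (hc : ∀ i, (c i).IsHomogeneous 3) (hi : LinearIndependent ℂ c)
    (P : V3) (hP : P ≠ 0) (h : ∀ (z : V3) (s : ℂ), eval z (c 0) * eval (z + s • P) (c 1) =
      eval z (c 1) * eval (z + s • P) (c 0)) :
    ∃ (k : ℕ) (p : P3) (a : Fin 2 → P3), k ≤ 2 ∧ p.IsHomogeneous k ∧
      (∀ i, (a i).IsHomogeneous (3 - k)) ∧ (∀ i, c i = p * a i) ∧ IsRelPrime (a 0) (a 1) ∧
      ∀ (z : V3) (s : ℂ) (i : Fin 2), eval (z + s • P) (a i) = eval z (a i) := by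
  have hc0 : ∀ i, c i ≠ 0 := fun i => hi.ne_zero i
  obtain ⟨a0, a1, p, hrel, h0, h1⟩ :=
    UniqueFactorizationMonoid.exists_reduced_factors (c 0) (hc0 0) (c 1)
  have hp0 : p ≠ 0 := by rintro rfl; exact hc0 0 (by rw [← h0, zero_mul])
  have ha0 : a0 ≠ 0 := by rintro rfl; exact hc0 0 (by rw [← h0, mul_zero])
  have ha1 : a1 ≠ 0 := by rintro rfl; exact hc0 1 (by rw [← h1, mul_zero])
  obtain ⟨k, hk⟩ := hom_of_dvd (hc 0) (hc0 0) ⟨a0, h0.symm⟩
  obtain ⟨m0, hm0⟩ := hom_of_dvd (hc 0) (hc0 0) ⟨p, by rw [mul_comm]; exact h0.symm⟩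
  obtain ⟨m1, hm1⟩ := hom_of_dvd (hc 1) (hc0 1) ⟨p, by rw [mul_comm]; exact h1.symm⟩
  have e0 : k + m0 = 3 := by
    have := hk.mul hm0
    rw [h0] at this
    exact this.inj_right (hc 0) (hc0 0)
  have e1 : k + m1 = 3 := by
    have := hk.mul hm1
    rw [h1] at this
    exact this.inj_right (hc 1) (hc0 1)
  have hk2 : k ≤ 2 := by
    by_contra hlt
    have z0 : m0 = 0 := by omega
    have z1 : m1 = 0 := by omega
    rw [z0] at hm0
    rw [z1] at hm1
    have c0 := totalDegree_eq_zero_iff_eq_C.mp (hm0.totalDegree ha0)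
    have c1 := totalDegree_eq_zero_iff_eq_C.mp (hm1.totalDegree ha1)
    have := (LinearIndependent.pair_iff' (hc0 0)).mp (by
      have : ![c 0, c 1] = c := by ext i; fin_cases i <;> rfl
      rwa [this])
    refine this (coeff 0 a1 / coeff 0 a0) ?_
    have hn : coeff 0 a0 ≠ 0 := by
      intro hh; rw [hh, map_zero] at c0; exact ha0 c0
    rw [← h0, ← h1, c0, c1, smul_eq_C_mul]
    have : (C (coeff 0 a1 / coeff 0 a0) : P3) * C (coeff 0 a0) = C (coeff 0 a1) := by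
      rw [← C_mul, div_mul_cancel₀ _ hn]
    simp only [coeff_C, if_true]
    rw [← this]
    ring
  have hτ : ∀ s : ℂ, a0 * cyτ (s • P) a1 = a1 * cyτ (s • P) a0 := by
    intro s
    have hpp : p * cyτ (s • P) p ≠ 0 := by
      apply mul_ne_zero hp0
      intro hh
      apply hp0
      have := cyτ_neg (-(s • P)) p
      rw [neg_neg, hh, map_zero] at this
      exact this.symm
    apply mul_left_cancel₀ hpp
    have : c 0 * cyτ (s • P) (c 1) = c 1 * cyτ (s • P) (c 0) := by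
      apply MvPolynomial.funext
      intro z
      rw [map_mul, map_mul, cyτ_eval, cyτ_eval]
      exact h z s
    rw [← h0, ← h1, map_mul, map_mul] at this
    linear_combination this
  have hd0 : ∀ s : ℂ, a0 ∣ cyτ (s • P) a0 := fun s =>
    hrel.dvd_of_dvd_mul_left ⟨_, (hτ s).symm⟩
  have hd1 : ∀ s : ℂ, a1 ∣ cyτ (s • P) a1 := fun s =>
    hrel.symm.dvd_of_dvd_mul_left ⟨_, hτ s⟩
  refine ⟨k, p, ![a0, a1], hk2, hk, ?_, ?_, hrel, ?_⟩
  · intro i
    fin_cases i
    · have : 3 - k = m0 := by omega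
      rw [this]; exact hm0
    · have : 3 - k = m1 := by omega
      rw [this]; exact hm1
  · intro i
    fin_cases i
    · exact h0.symm
    · exact h1.symm
  · intro z s i
    fin_cases i
    · exact cy_core hm0 ha0 P hd0 z s
    · exact cy_core hm1 ha1 P hd1 z s

end Pool.Agent.Lib_helper86.D24

end

section

namespace Pool.Agent.Lib_helper86.D24

open MvPolynomial Matrix


private lemma Y1_lin {m : P3} (hm : m.IsHomogeneous 1) : ∃ l : V3, m = lin l := by
  have h1 : m ∈ homogeneousSubmodule (Fin 3) ℂ 1 := hm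
  rw [homogeneousSubmodule_one_eq_span_X, Submodule.mem_span_range_iff_exists_fun] at h1
  obtain ⟨c, hc⟩ := h1
  refine ⟨c, ?_⟩
  rw [← hc, lin]
  exact Finset.sum_congr rfl fun i _ => by rw [MvPolynomial.smul_eq_C_mul]

private lemma Y1_eval_lin (l z : V3) : eval z (lin l) = l ⬝ᵥ z := by
  simp [lin, dotProduct]

private lemma Y1_nl {l : V3} (h : ¬ X 0 ∣ lin l) : ¬ (l 1 = 0 ∧ l 2 = 0) := by
  rintro ⟨h1, h2⟩
  apply h
  rw [lin, Fin.sum_univ_three, h1, h2]
  simp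

private lemma Y1_ne {l : V3} (h : ¬ X 0 ∣ lin l) : l ≠ 0 := by
  rintro rfl
  exact Y1_nl h ⟨rfl, rfl⟩

private lemma Y1_nu (l : V3) : ¬ IsUnit (lin l) := by
  intro h
  have := h.map (eval (0 : V3))
  rw [Y1_eval_lin] at this
  simp at this

private lemma Y1_u {P : V3} (hP : P ≠ 0) : ∃ u : V3, u ⬝ᵥ P = 1 := by
  obtain ⟨j, hj⟩ := Function.ne_iff.1 hP
  refine ⟨Pi.single j (P j)⁻¹, ?_⟩
  rw [single_dotProduct]
  exact inv_mul_cancel₀ hj

private lemma Y1_evalP (v : Fin 3 → P3) (p : P3) (w : V3) :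
    eval w (aeval v p : P3) = eval (fun i => eval w (v i)) p := by
  induction p using MvPolynomial.induction_on with
  | C a => simp
  | add p q hp hq => rw [map_add, map_add, hp, hq, map_add]
  | mul_X p i hp => rw [map_mul, map_mul, hp, map_mul, MvPolynomial.aeval_X, MvPolynomial.eval_X]

/-- a polynomial which vanishes on `P^⊥` is divisible by `lin P` -/
private lemma Y1_dvd {P : V3} (hP : P ≠ 0) {f : P3} (h : ∀ w : V3, P ⬝ᵥ w = 0 → eval w f = 0) :
    lin P ∣ f := by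
  obtain ⟨u, hu⟩ := Y1_u hP
  have h1 : ∀ p : P3, lin P ∣ p - aeval (fun i => X i - C (u i) * lin P) p := by
    intro p
    induction p using MvPolynomial.induction_on with
    | C a => simp
    | add p q hp hq =>
      have := dvd_add hp hq
      rw [map_add]
      convert this using 1
      ring
    | mul_X p i hp =>
      rw [map_mul, MvPolynomial.aeval_X]
      have e : p * X i - aeval (fun i => X i - C (u i) * lin P) p * (X i - C (u i) * lin P) =
        (p - aeval (fun i => X i - C (u i) * lin P) p) * X i +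
          lin P * (aeval (fun i => X i - C (u i) * lin P) p * C (u i)) := by ring
      rw [e]
      exact dvd_add (hp.mul_right _) (dvd_mul_right _ _)
  have h2 : aeval (fun i => X i - C (u i) * lin P) f = (0 : P3) := by
    apply MvPolynomial.funext
    intro w
    rw [Y1_evalP, map_zero]
    apply h
    have e : (fun i => eval w (X i - C (u i) * lin P : P3)) = w - (P ⬝ᵥ w) • u := by
      funext i
      simp [Y1_eval_lin]; ring
    rw [e, dotProduct_sub, dotProduct_smul, dotProduct_comm P u, hu]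
    simp
  have := h1 f
  rwa [h2, sub_zero] at this

private lemma Y1_cross_surj {P w : V3} (hP : P ≠ 0) (hw : P ⬝ᵥ w = 0) : ∃ z : V3, z ⨯₃ P = w := by
  obtain ⟨u, hu⟩ := Y1_u hP
  refine ⟨u ⨯₃ w, ?_⟩
  rw [dotProduct, Fin.sum_univ_three] at hu hw
  funext i
  fin_cases i <;> simp [cross_apply]
  · linear_combination (w 0) * hu - (u 0) * hw
  · linear_combination (w 1) * hu - (u 1) * hw
  · linear_combination (w 2) * hu - (u 2) * hw

/-- the hypothesis of `cyl` -/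
private lemma Y1_key {c d : Fin 2 → P3} {P : V3} (hP : P ≠ 0)
    (h : ∀ z w : V3, z ⬝ᵥ w = 0 → P ⬝ᵥ w = 0 → ∑ i, eval z (c i) * eval w (d i) = 0)
    (hd : ¬ ∀ i, lin P ∣ d i) (z : V3) (s : ℂ) :
    eval z (c 0) * eval (z + s • P) (c 1) = eval z (c 1) * eval (z + s • P) (c 0) := by
  obtain ⟨i, hi⟩ := not_forall.1 hd
  -- `d i (z × P)` as a polynomial in `z`
  set v : Fin 3 → P3 := ![X 1 * C (P 2) - X 2 * C (P 1), X 2 * C (P 0) - X 0 * C (P 2),
    X 0 * C (P 1) - X 1 * C (P 0)] with hv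
  have ev : ∀ z : V3, (fun j => eval z (v j)) = z ⨯₃ P := by
    intro z
    funext j
    rw [hv, cross_apply]
    fin_cases j <;> simp
  set σ : P3 := aeval v (d i) with hσ
  have hσ0 : σ ≠ 0 := by
    intro h0
    apply hi
    apply Y1_dvd hP
    intro w hw
    obtain ⟨z, hz⟩ := Y1_cross_surj hP hw
    rw [← hz, ← ev, ← Y1_evalP, ← hσ, h0, map_zero]
  set τ : Fin 3 → P3 := fun j => X j + C (s * P j) with hτ
  have eτ : ∀ z : V3, (fun j => eval z (τ j)) = z + s • P := by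
    intro z
    funext j
    simp [hτ]
  have h0 : σ * (c 0 * aeval τ (c 1) - c 1 * aeval τ (c 0)) = 0 := by
    apply MvPolynomial.funext
    intro z
    rw [map_mul, map_sub, map_mul, map_mul, map_zero, hσ, Y1_evalP, Y1_evalP, Y1_evalP, ev, eτ]
    have hPw : P ⬝ᵥ (z ⨯₃ P) = 0 := by
      simp [dotProduct, Fin.sum_univ_three, cross_apply]; ring
    have hzw : z ⬝ᵥ (z ⨯₃ P) = 0 := by
      simp [dotProduct, Fin.sum_univ_three, cross_apply]; ring
    have hzw' : (z + s • P) ⬝ᵥ (z ⨯₃ P) = 0 := by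
      rw [add_dotProduct, smul_dotProduct, hPw, hzw]; simp
    have e1 := h z (z ⨯₃ P) hzw hPw
    have e2 := h (z + s • P) (z ⨯₃ P) hzw' hPw
    rw [Fin.sum_univ_two] at e1 e2
    fin_cases i
    · simp only [Fin.zero_eta, Fin.isValue]
      linear_combination eval (z + s • P) (c 1) * e1 - eval z (c 1) * e2
    · simp only [Fin.mk_one, Fin.isValue]
      linear_combination eval z (c 0) * e2 - eval (z + s • P) (c 0) * e1
  rcases mul_eq_zero.1 h0 with h1 | h1
  · exact absurd h1 hσ0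
  · have := congrArg (eval z) h1
    rw [map_sub, map_mul, map_mul, map_zero, Y1_evalP, Y1_evalP, eτ] at this
    exact sub_eq_zero.1 this

private lemma Y1_ind {c a : Fin 2 → P3} {p : P3} (hi : LinearIndependent ℂ c)
    (h : ∀ i, c i = p * a i) : LinearIndependent ℂ a := by
  rw [Fintype.linearIndependent_iff] at hi ⊢
  intro α hα i
  apply hi α _ i
  calc ∑ j, α j • c j = p * ∑ j, α j • a j := by
        rw [Finset.mul_sum]
        exact Finset.sum_congr rfl fun j _ => by rw [h j, mul_smul_comm]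
    _ = 0 := by rw [hα, mul_zero]

/-- Y1 (uses CY, LR, LD, GS) -/
theorem exists_Cy {m mt : P3} {c ct : Fin 2 → P3} {g : Fin 2 → Polynomial ℂ} {ρ : Polynomial ℂ}
    {κ : ℂ} {Γ : Matrix (Fin (2 + 1)) (Fin (2 + 1)) ℂ} (h : SF 2 m mt c ct g ρ κ Γ) :
    ∃ l P k1 k2 p1 p2 a b, Cy l P k1 k2 p1 p2 a b Γ := by
  obtain ⟨l, rfl⟩ := Y1_lin h.homm
  obtain ⟨P, rfl⟩ := Y1_lin h.hommt
  have hl : l ≠ 0 := Y1_ne h.nm
  have hP : P ≠ 0 := Y1_ne h.nmt
  have hc := Y1_key (c := c) (d := ct) hP (fun z w hzw hPw => by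
    rw [h.I3 z w hzw, Y1_eval_lin P, hPw]; ring) (fun hd => Y1_nu P (h.primt _ dvd_rfl hd))
  have hct := Y1_key (c := ct) (d := c) hl (fun w z hwz hlz => by
    have := h.I3 z w (by rw [dotProduct_comm]; exact hwz)
    rw [Y1_eval_lin l, hlz] at this
    simp only [mul_comm (eval w _)]
    rw [this]; ring) (fun hd => Y1_nu l (h.prim _ dvd_rfl hd))
  obtain ⟨k1, p1, a, hk1, hp1, ha, hca, hra, hcyl⟩ := cyl c h.homc h.indc P hP hc
  obtain ⟨k2, p2, b, hk2, hp2, hb, hcb, hrb, hcylt⟩ := cyl ct h.homct h.indct l hl hct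
  have R1 : ∀ x1 x2 : ℂ, ¬ (x1 = 0 ∧ x2 = 0) → ∃ y1 y2 : ℂ, bh Γ x1 x2 y1 y2 ≠ 0 := by
    intro x1 x2 hx
    by_contra hn
    push Not at hn
    refine lemR h.pen (by norm_num) x1 x2 hx fun y1 y2 => ?_
    have := h.I2 x1 x2 y1 y2
    rw [hn y1 y2, mul_zero] at this
    exact sub_eq_zero.1 this
  refine ⟨l, P, k1, k2, p1, p2, a, b, hk1, hk2, hp1, hp2, ha, hb, ?_, ?_, hra, hrb,
    Y1_ind h.indc hca, Y1_ind h.indct hcb, hcyl, hcylt, Y1_nl h.nm, Y1_nl h.nmt, ?_, R1, ?_,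
    lemD h⟩
  · intro hd
    exact Y1_nu l (h.prim _ dvd_rfl fun i => by rw [hca i]; exact hd.mul_right _)
  · intro hd
    exact Y1_nu P (h.primt _ dvd_rfl fun i => by rw [hcb i]; exact hd.mul_right _)
  · intro z w hzw
    have := h.I3 z w hzw
    rw [Y1_eval_lin, Y1_eval_lin, Fin.sum_univ_two, hca 0, hca 1, hcb 0, hcb 1, map_mul, map_mul,
      map_mul, map_mul] at this
    rw [Fin.sum_univ_two]
    linear_combination this
  · intro y1 y2 hy
    obtain ⟨x1, x2, hx⟩ := R1 y1 y2 hy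
    exact ⟨x1, x2, by rw [gam_symm h]; exact hx⟩

end Pool.Agent.Lib_helper86.D24

end

section

namespace Pool.Agent.Lib_helper86.D24

open MvPolynomial Matrix


private theorem Y2_eval_lin (l z : V3) : eval z (lin l) = l ⬝ᵥ z := by
  simp [lin, dotProduct]

private theorem Y2_aeval_lin (l z : V3) : (aeval z (lin l) : ℂ) = l ⬝ᵥ z := by
  simp only [lin, dotProduct, map_sum, map_mul, aeval_X, aeval_C]
  rfl

private theorem Y2_smul {n : ℕ} {p : P3} (hp : p.IsHomogeneous n) (c : ℂ) (z : V3) :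
    eval (c • z) p = c ^ n * eval z p := by
  rw [eval_eq', eval_eq', Finset.mul_sum]
  refine Finset.sum_congr rfl fun d hd => ?_
  have h1 : ∑ i, d i = n := by
    have := hp (mem_support_iff.1 hd)
    rw [← this, Finsupp.weight_apply, Finsupp.sum_fintype]
    · simp
    · simp
  rw [← h1, ← Finset.prod_pow_eq_pow_sum]
  simp only [Pi.smul_apply, smul_eq_mul, mul_pow, Finset.prod_mul_distrib]
  ring

private theorem Y2_dvd (l : V3) (hl : l ≠ 0) (p : P3)
    (h : ∀ z : V3, l ⬝ᵥ z = 0 → eval z p = 0) : lin l ∣ p := by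
  obtain ⟨j, hj⟩ := Function.ne_iff.1 hl
  have hj' : l j ≠ 0 := hj
  set g : Fin 3 → P3 := fun i => X i - if i = j then C (l j)⁻¹ * lin l else 0 with hg
  have h1 : (Ideal.Quotient.mkₐ ℂ (Ideal.span {lin l})).comp (aeval g) =
      Ideal.Quotient.mkₐ ℂ (Ideal.span {lin l}) := by
    apply MvPolynomial.algHom_ext
    intro i
    have h2 : (Ideal.Quotient.mk (Ideal.span {lin l})) (lin l) = 0 :=
      Ideal.Quotient.eq_zero_iff_mem.2 (Ideal.mem_span_singleton_self _)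
    simp only [AlgHom.comp_apply, aeval_X, Ideal.Quotient.mkₐ_eq_mk, hg, map_sub]
    by_cases hi : i = j
    · simp [hi, h2]
    · simp [hi]
  have h3 : aeval g p = 0 := by
    apply MvPolynomial.funext
    intro w
    have h4 : eval w (aeval g p) =
        eval (fun i => w i - if i = j then (l j)⁻¹ * (l ⬝ᵥ w) else 0) p := by
      have h6 : ((aeval w : P3 →ₐ[ℂ] ℂ).comp (aeval g)) =
          aeval (fun i => w i - if i = j then (l j)⁻¹ * (l ⬝ᵥ w) else 0) := by
        apply MvPolynomial.algHom_ext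
        intro i
        by_cases hi : i = j
        · simp only [AlgHom.comp_apply, aeval_X, hg, hi, if_true, map_sub, map_mul, aeval_C,
            Y2_aeval_lin]
          rfl
        · simp [hg, hi]
      have h7 := DFunLike.congr_fun h6 p
      rw [AlgHom.comp_apply] at h7
      exact h7
    rw [h4, map_zero]
    apply h
    simp only [dotProduct, mul_sub, mul_ite, mul_zero, Finset.sum_sub_distrib, Finset.sum_ite_eq',
      Finset.mem_univ, if_true]
    rw [← mul_assoc, mul_inv_cancel₀ hj', one_mul, sub_self]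
  have h5 := DFunLike.congr_fun h1 p
  rw [AlgHom.comp_apply, h3, map_zero] at h5
  exact Ideal.mem_span_singleton.1 (Ideal.Quotient.eq_zero_iff_mem.1 h5.symm)

open ComplexOrder in
private theorem Y2_star (v : V3) (h : v ⬝ᵥ star v = 0) : v = 0 :=
  dotProduct_self_star_eq_zero.1 h

private theorem Y2_par (u Q : V3) (hQ : Q ≠ 0) (h : u ⨯₃ Q = 0) : ∃ y : ℂ, u = y • Q := by
  obtain ⟨j, hj⟩ := Function.ne_iff.1 hQ
  have hj' : Q j ≠ 0 := hj
  rw [cross_apply] at h
  have e0 : u 1 * Q 2 - u 2 * Q 1 = 0 := by simpa using congr_fun h 0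
  have e1 : u 2 * Q 0 - u 0 * Q 2 = 0 := by simpa using congr_fun h 1
  have e2 : u 0 * Q 1 - u 1 * Q 0 = 0 := by simpa using congr_fun h 2
  have e : ∀ k, u k * Q j = u j * Q k := by
    intro k
    fin_cases j <;> fin_cases k <;> simp only [Fin.zero_eta, Fin.mk_one, Fin.reduceFinMk] <;>
      first
      | rfl
      | linear_combination e0
      | linear_combination e1
      | linear_combination e2
      | linear_combination -e0
      | linear_combination -e1
      | linear_combination -e2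
  refine ⟨u j / Q j, funext fun k => ?_⟩
  rw [Pi.smul_apply, smul_eq_mul, div_mul_eq_mul_div, eq_div_iff hj', e k]

/-- Y2 -/
theorem cy_lP {l P : V3} {k1 k2 : ℕ} {p1 p2 : P3} {a b : Fin 2 → P3}
    {Γ : Matrix (Fin (2 + 1)) (Fin (2 + 1)) ℂ} (h : Cy l P k1 k2 p1 p2 a b Γ) : l ⬝ᵥ P ≠ 0 := by
  intro hlP
  have hl : l ≠ 0 := fun h0 => h.nl (by simp [h0])
  have hP : P ≠ 0 := fun h0 => h.nP (by simp [h0])
  set n : V3 := star P with hn
  have hc : P ⬝ᵥ n ≠ 0 := fun h0 => hP (Y2_star _ h0)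
  set Q : V3 := l ⨯₃ n with hQdef
  have hlQ : l ⬝ᵥ Q = 0 := dot_self_cross l n
  have hnQ : n ⬝ᵥ Q = 0 := dot_cross_self l n
  have hQ : Q ≠ 0 := by
    intro h0
    have h1 : P ⨯₃ Q = (P ⬝ᵥ n) • l - (l ⬝ᵥ P) • n := cross_cross_eq_smul_sub_smul' P l n
    rw [hlP, zero_smul, sub_zero, h0, map_zero] at h1
    exact (smul_ne_zero hc hl) h1.symm
  have hspan : ∀ z : V3, l ⬝ᵥ z = 0 → ∃ x y : ℂ, z = y • Q + x • P := by
    intro z hz
    set x : ℂ := (z ⬝ᵥ n) / (P ⬝ᵥ n) with hx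
    have h1 : l ⬝ᵥ (z - x • P) = 0 := by
      rw [dotProduct_sub, dotProduct_smul, hz, hlP, smul_zero, sub_zero]
    have h2 : (z - x • P) ⬝ᵥ n = 0 := by
      rw [sub_dotProduct, smul_dotProduct, smul_eq_mul, hx, div_mul_cancel₀ _ hc, sub_self]
    have h3 : (z - x • P) ⨯₃ Q = 0 := by
      have h4 : (z - x • P) ⨯₃ Q =
          ((z - x • P) ⬝ᵥ n) • l - (l ⬝ᵥ (z - x • P)) • n :=
        cross_cross_eq_smul_sub_smul' _ l n
      rw [h4, h1, h2, zero_smul, zero_smul, sub_zero]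
    obtain ⟨y, hy⟩ := Y2_par _ Q hQ h3
    exact ⟨x, y, by rw [← hy]; simp⟩
  have ha : ∀ (i : Fin 2) (x y : ℂ), eval (y • Q + x • P) (a i) = y ^ (3 - k1) * eval Q (a i) := by
    intro i x y
    rw [h.cyla, Y2_smul (h.homa i)]
  -- the polynomials in `w`
  set A : P3 := aeval (fun j => lin P * C (Q j) - lin Q * C (P j)) p1 with hA
  have hAe : ∀ w : V3, eval w A = eval ((P ⬝ᵥ w) • Q + (-(Q ⬝ᵥ w)) • P) p1 := by
    intro w
    have h6 : ((aeval w : P3 →ₐ[ℂ] ℂ).comp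
        (aeval (fun j => lin P * C (Q j) - lin Q * C (P j)))) =
        aeval ((P ⬝ᵥ w) • Q + (-(Q ⬝ᵥ w)) • P) := by
      apply MvPolynomial.algHom_ext
      intro i
      simp only [AlgHom.comp_apply, aeval_X, map_sub, map_mul, Y2_aeval_lin, aeval_C,
        Pi.add_apply, Pi.smul_apply, smul_eq_mul, neg_mul]
      exact sub_eq_add_neg _ _
    have h7 := DFunLike.congr_fun h6 p1
    rw [AlgHom.comp_apply] at h7
    exact h7
  have hA0 : A ≠ 0 := by
    intro hA0
    apply h.np1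
    apply Y2_dvd l hl
    intro z hz
    obtain ⟨x, y, rfl⟩ := hspan z hz
    have he : Q ⬝ᵥ star Q ≠ 0 := fun h0 => hQ (Y2_star _ h0)
    have hQn : Q ⬝ᵥ n = 0 := by rw [dotProduct_comm]; exact hnQ
    set v : V3 := star Q - ((P ⬝ᵥ star Q) / (P ⬝ᵥ n)) • n with hv
    have hPv : P ⬝ᵥ v = 0 := by
      rw [hv, dotProduct_sub, dotProduct_smul, smul_eq_mul, div_mul_cancel₀ _ hc, sub_self]
    have hQv : Q ⬝ᵥ v = Q ⬝ᵥ star Q := by
      rw [hv, dotProduct_sub, dotProduct_smul, hQn, smul_zero, sub_zero]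
    have h1 := hAe ((y / (P ⬝ᵥ n)) • n + (-x / (Q ⬝ᵥ star Q)) • v)
    have h2 : P ⬝ᵥ ((y / (P ⬝ᵥ n)) • n + (-x / (Q ⬝ᵥ star Q)) • v) = y := by
      rw [dotProduct_add, dotProduct_smul, dotProduct_smul, hPv, smul_zero, add_zero, smul_eq_mul,
        div_mul_cancel₀ _ hc]
    have h3 : Q ⬝ᵥ ((y / (P ⬝ᵥ n)) • n + (-x / (Q ⬝ᵥ star Q)) • v) = -x := by
      rw [dotProduct_add, dotProduct_smul, dotProduct_smul, hQn, smul_zero, zero_add, hQv,
        smul_eq_mul, div_mul_cancel₀ _ he]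
    rw [h2, h3, neg_neg, hA0, map_zero] at h1
    exact h1.symm
  have hL0 : lin P ≠ 0 := by
    intro h0
    have := Y2_eval_lin P n
    rw [h0, map_zero] at this
    exact hc this.symm
  have hp2 : p2 ≠ 0 := by
    intro h0
    apply h.np2
    rw [h0]
    exact dvd_zero _
  have hprod : A * p2 * lin P ^ (3 - k1) *
      (C (eval Q (a 0)) * b 0 + C (eval Q (a 1)) * b 1) = 0 := by
    apply MvPolynomial.funext
    intro w
    have h1 : ((P ⬝ᵥ w) • Q + (-(Q ⬝ᵥ w)) • P) ⬝ᵥ w = 0 := by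
      rw [add_dotProduct, smul_dotProduct, smul_dotProduct, smul_eq_mul, smul_eq_mul]
      ring
    have h2 : l ⬝ᵥ ((P ⬝ᵥ w) • Q + (-(Q ⬝ᵥ w)) • P) = 0 := by
      rw [dotProduct_add, dotProduct_smul, dotProduct_smul, hlQ, hlP, smul_zero, smul_zero,
        add_zero]
    have h3 := h.I3 _ _ h1
    rw [h2, zero_mul, zero_mul, Fin.sum_univ_two, ha, ha] at h3
    simp only [map_mul, map_pow, map_add, eval_C, hAe, Y2_eval_lin, map_zero]
    linear_combination h3
  have hz : C (eval Q (a 0)) * b 0 + C (eval Q (a 1)) * b 1 = 0 :=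
    (mul_eq_zero.1 hprod).resolve_left (mul_ne_zero (mul_ne_zero hA0 hp2) (pow_ne_zero _ hL0))
  have hind := Fintype.linearIndependent_iff.1 h.indb (fun i => eval Q (a i)) (by
    rw [Fin.sum_univ_two, smul_eq_C_mul, smul_eq_C_mul]
    exact hz)
  have hdvd : ∀ i, lin l ∣ a i := by
    intro i
    apply Y2_dvd l hl
    intro z hz
    obtain ⟨x, y, rfl⟩ := hspan z hz
    rw [ha, hind i, mul_zero]
  have hu : IsUnit (lin l) := h.copa (hdvd 0) (hdvd 1)
  have hu' := hu.map (eval (0 : V3))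
  rw [Y2_eval_lin, dotProduct_zero] at hu'
  exact not_isUnit_zero hu'

end Pool.Agent.Lib_helper86.D24

end

section

namespace Pool.Agent.Lib_helper86.D24

open MvPolynomial Matrix


private theorem bSY_exp (Γ : Matrix (Fin (2 + 1)) (Fin (2 + 1)) ℂ) (a b c d : ℂ) :
    bh Γ a b c d =
      (Γ 0 0 * a ^ 2 * c ^ 2 + Γ 0 1 * a ^ 2 * (c * d) + Γ 0 2 * a ^ 2 * d ^ 2) +
      (Γ 1 0 * (a * b) * c ^ 2 + Γ 1 1 * (a * b) * (c * d) + Γ 1 2 * (a * b) * d ^ 2) +
      (Γ 2 0 * b ^ 2 * c ^ 2 + Γ 2 1 * b ^ 2 * (c * d) + Γ 2 2 * b ^ 2 * d ^ 2) := by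
  have h : bh Γ a b c d = ∑ i : Fin 3, ∑ j : Fin 3,
    Γ i j * (a ^ (2 - (i : ℕ)) * b ^ (i : ℕ)) * (c ^ (2 - (j : ℕ)) * d ^ (j : ℕ)) := rfl
  rw [h]
  simp only [Fin.sum_univ_three]
  norm_num

private theorem bSY_bh (Γ : Matrix (Fin (2 + 1)) (Fin (2 + 1)) ℂ) (x1 x2 y1 y2 : ℂ) :
    bh (n := 2) (Matrix.of fun p q : Fin 3 => (-1) ^ ((p : ℕ) + (q : ℕ)) * Γ q.rev p.rev) x1 x2 y1 y2 =
      bh Γ (-y2) y1 x2 (-x1) := by
  have e0 : Fin.rev (0 : Fin 3) = 2 := rfl
  have e1 : Fin.rev (1 : Fin 3) = 1 := rfl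
  have e2 : Fin.rev (2 : Fin 3) = 0 := rfl
  have e2' : (((2 : Fin 3) : ℕ)) = 2 := rfl
  rw [bSY_exp, bSY_exp]
  simp only [Matrix.of_apply, e0, e1, e2, e2', Fin.val_zero, Fin.val_one]
  norm_num
  ring

private theorem bSY_neg (Γ : Matrix (Fin (2 + 1)) (Fin (2 + 1)) ℂ) (a b c d : ℂ) :
    bh Γ a b (-c) (-d) = bh Γ a b c d := by
  rw [bSY_exp, bSY_exp]
  ring

/-- SY: symmetry, `Γ'(x, y) = Γ(-J y, J x)`, `J(a, b) = (b, -a)` -/
theorem cy_swap {l P : V3} {k1 k2 : ℕ} {p1 p2 : P3} {a b : Fin 2 → P3}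
    {Γ : Matrix (Fin (2 + 1)) (Fin (2 + 1)) ℂ} (h : Cy l P k1 k2 p1 p2 a b Γ) :
    ∃ Γ', Cy P l k2 k1 p2 p1 b a Γ' := by
  refine ⟨Matrix.of fun p q : Fin 3 => (-1) ^ ((p : ℕ) + (q : ℕ)) * Γ q.rev p.rev, ?_⟩
  refine
    { k1le := h.k2le
      k2le := h.k1le
      hom1 := h.hom2
      hom2 := h.hom1
      homa := h.homb
      homb := h.homa
      np1 := h.np2
      np2 := h.np1
      copa := h.copb
      copb := h.copa
      inda := h.indb
      indb := h.inda
      cyla := h.cylb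
      cylb := h.cyla
      nl := h.nP
      nP := h.nl
      I3 := ?_
      R1 := ?_
      R2 := ?_
      D := ?_ }
  · intro z w hzw
    rw [bSY_bh]
    have h1 := h.I3 w z (by rw [dotProduct_comm]; exact hzw)
    have h2 : ∑ i, eval z (b i) * eval w (a i) = ∑ i, eval w (a i) * eval z (b i) :=
      Finset.sum_congr rfl fun i _ => mul_comm _ _
    rw [h2, neg_neg]
    linear_combination h1
  · intro x1 x2 hx
    obtain ⟨u1, u2, hu⟩ := h.R2 x2 (-x1) (fun hc => hx ⟨neg_eq_zero.mp hc.2, hc.1⟩)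
    exact ⟨u2, -u1, by rw [bSY_bh, neg_neg]; exact hu⟩
  · intro y1 y2 hy
    obtain ⟨v1, v2, hv⟩ := h.R1 (-y2) y1 (fun hc => hy ⟨hc.2, neg_eq_zero.mp hc.1⟩)
    exact ⟨-v2, v1, by rw [bSY_bh, neg_neg]; exact hv⟩
  · obtain ⟨v1, v2, hv⟩ := h.D
    refine ⟨v2, -v1, ?_⟩
    rw [bSY_bh, neg_neg, bSY_neg]
    exact hv

end Pool.Agent.Lib_helper86.D24

end

section

namespace Pool.Agent.Lib_helper86.D24

open MvPolynomial Matrix


private lemma bY3_exists_mul {n : ℕ} (p q : MvPolynomial (Fin n) ℂ) (hp : ∃ x, eval x p ≠ 0)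
    (hq : ∃ x, eval x q ≠ 0) : ∃ x, eval x p ≠ 0 ∧ eval x q ≠ 0 := by
  have hp0 : p ≠ 0 := by
    rintro rfl
    obtain ⟨x, hx⟩ := hp
    simp at hx
  have hq0 : q ≠ 0 := by
    rintro rfl
    obtain ⟨x, hx⟩ := hq
    simp at hx
  by_contra hcon
  push Not at hcon
  have h0 : p * q = 0 := by
    apply MvPolynomial.funext
    intro x
    rw [map_mul, map_zero]
    by_cases hx : eval x p = 0
    · rw [hx, zero_mul]
    · rw [hcon x hx, mul_zero]
  rcases mul_eq_zero.mp h0 with h | h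
  · exact hp0 h
  · exact hq0 h

private lemma bY3_bh {n : ℕ} (Γ : Matrix (Fin (n + 1)) (Fin (n + 1)) ℂ)
    (p q r s : MvPolynomial (Fin 2) ℂ) :
    ∃ Q : MvPolynomial (Fin 2) ℂ, ∀ x, eval x Q =
      bh Γ (eval x p) (eval x q) (eval x r) (eval x s) := by
  refine ⟨∑ i : Fin (n + 1), ∑ j : Fin (n + 1),
    C (Γ i j) * (p ^ (n - (i : ℕ)) * q ^ (i : ℕ)) * (r ^ (n - (j : ℕ)) * s ^ (j : ℕ)), ?_⟩
  intro x
  simp only [bh, map_sum, map_mul, map_pow, eval_C]

/-- a factor of a form of degree one -/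
private lemma bY3_dvd {π f : P3} (hπ : Irreducible π) (hf : f ≠ 0) (hf1 : f.totalDegree ≤ 1)
    (h : π ∣ f) : f ∣ π := by
  obtain ⟨c, rfl⟩ := h
  have hπ0 : π ≠ 0 := hπ.ne_zero
  have hc0 : c ≠ 0 := right_ne_zero_of_mul hf
  rw [totalDegree_mul_of_isDomain hπ0 hc0] at hf1
  have hπd : π.totalDegree ≠ 0 := by
    intro h0
    have h1 := totalDegree_eq_zero_iff_eq_C.mp h0
    apply hπ.not_isUnit
    rw [h1]
    apply IsUnit.map
    rw [isUnit_iff_ne_zero]
    intro h2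
    rw [h2, map_zero] at h1
    exact hπ0 h1
  have hcd : c.totalDegree = 0 := by omega
  have h1 := totalDegree_eq_zero_iff_eq_C.mp hcd
  set a := coeff 0 c with ha
  have ha0 : a ≠ 0 := by
    intro h2
    rw [h2, map_zero] at h1
    exact hc0 h1
  refine ⟨C a⁻¹, ?_⟩
  rw [h1, mul_assoc, ← C_mul, mul_inv_cancel₀ ha0, C_1, mul_one]

private lemma bY3_eval_lin (l z : V3) : eval z (lin l) = l ⬝ᵥ z := by
  simp [lin, dotProduct]

private lemma bY3_lin_deg (l : V3) : (lin l).totalDegree ≤ 1 := by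
  rw [lin]
  refine totalDegree_finsetSum_le ?_
  intro j _
  refine (totalDegree_mul _ _).trans ?_
  rw [totalDegree_C, totalDegree_X]

private lemma bY3_lin_ne {l z : V3} (h : l ⬝ᵥ z ≠ 0) : lin l ≠ 0 := by
  intro h0
  apply h
  rw [← bY3_eval_lin, h0, map_zero]

/-- one of two independent forms is not divisible by `π` -/
private lemma bY3_two {π : P3} (hπ : Irreducible π) (a b : V3) {z z' : V3} (h1 : a ⬝ᵥ z = 0)
    (h2 : b ⬝ᵥ z ≠ 0) (h3 : a ⬝ᵥ z' ≠ 0) : ¬ π ∣ lin a ∨ ¬ π ∣ lin b := by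
  by_contra hcon
  push Not at hcon
  have h4 := bY3_dvd hπ (bY3_lin_ne h3) (bY3_lin_deg a) hcon.1
  obtain ⟨c, hc⟩ := h4.trans hcon.2
  apply h2
  rw [← bY3_eval_lin, hc, map_mul, bY3_eval_lin, h1, zero_mul]

/-- Y3 (uses NSZ): `p1` is constant -/
theorem cy_k1 {l P : V3} {k1 k2 : ℕ} {p1 p2 : P3} {a b : Fin 2 → P3}
    {Γ : Matrix (Fin (2 + 1)) (Fin (2 + 1)) ℂ} (h : Cy l P k1 k2 p1 p2 a b Γ) : k1 = 0 := by
  by_contra hk
  have hp0 : p1 ≠ 0 := by
    rintro rfl
    exact h.np1 (dvd_zero _)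
  have hpu : ¬ IsUnit p1 := by
    intro hu
    rw [MvPolynomial.isUnit_iff_eq_C_of_isReduced] at hu
    obtain ⟨r, -, hr⟩ := hu
    have h1 : p1.IsHomogeneous 0 := by
      rw [hr]
      exact isHomogeneous_C _ _
    exact hk (h.hom1.inj_right h1 hp0)
  obtain ⟨π, hπ, hπp⟩ := WfDvdMonoid.exists_irreducible_factor hpu hp0
  have hpr : Prime π := hπ.prime
  have hz0 : ∀ z, eval z π = 0 → eval z p1 = 0 := by
    intro z hz
    obtain ⟨c, hc⟩ := hπp
    rw [hc, map_mul, hz, zero_mul]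
  have hI : ∀ z w : V3, z ⬝ᵥ w = 0 → eval z p1 = 0 →
      (l ⬝ᵥ z) * (P ⬝ᵥ w) * bh Γ (z 1) (z 2) (w 2) (-w 1) = 0 := by
    intro z w hzw hz
    rw [← h.I3 z w hzw, hz, zero_mul, zero_mul]
  by_cases hX : π ∣ X 0
  · -- case B
    have h1 : (X 0 : P3) ∣ p1 :=
      (bY3_dvd hπ (X_ne_zero 0) (by rw [totalDegree_X]) hX).trans hπp
    have h2 : ∀ z1 z2 : ℂ, (l 1 * z1 + l 2 * z2) * (P 2 * z1 - P 1 * z2) *
        bh Γ z1 z2 z1 z2 = 0 := by
      intro z1 z2
      have h3 := hI ![0, z1, z2] ![0, -z2, z1] (by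
        simp [dotProduct, Fin.sum_univ_three]; ring) (by
        obtain ⟨c, hc⟩ := h1
        rw [hc, map_mul, eval_X]
        simp)
      simp only [dotProduct, Fin.sum_univ_three, Matrix.cons_val, neg_neg] at h3
      rw [← h3]
      ring
    obtain ⟨Q, hQ⟩ := bY3_bh Γ (X 0) (X 1) (X 0) (X 1)
    obtain ⟨u1, u2, hu⟩ := h.D
    have hL : ∃ x, eval x (C (l 1) * X 0 + C (l 2) * X 1 : MvPolynomial (Fin 2) ℂ) ≠ 0 := by
      by_cases hl1 : l 1 = 0
      · refine ⟨![0, 1], ?_⟩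
        have : l 2 ≠ 0 := fun h2 => h.nl ⟨hl1, h2⟩
        simpa using this
      · exact ⟨![1, 0], by simpa using hl1⟩
    have hM : ∃ x, eval x (C (P 2) * X 0 - C (P 1) * X 1 : MvPolynomial (Fin 2) ℂ) ≠ 0 := by
      by_cases hP1 : P 1 = 0
      · refine ⟨![1, 0], ?_⟩
        have : P 2 ≠ 0 := fun h2 => h.nP ⟨hP1, h2⟩
        simpa using this
      · exact ⟨![0, 1], by simpa using hP1⟩
    have hB : ∃ x, eval x Q ≠ 0 := ⟨![u1, u2], by
      rw [hQ]
      simpa using hu⟩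
    obtain ⟨x, hx1, hx2⟩ := bY3_exists_mul _ _ hL hM
    obtain ⟨y, hy1, hy2⟩ := bY3_exists_mul _ _ ⟨x, by
      rw [map_mul]
      exact mul_ne_zero hx1 hx2⟩ hB
    apply mul_ne_zero hy1 hy2
    have h3 := h2 (y 0) (y 1)
    rw [map_mul, hQ]
    simpa using h3
  · -- case A
    have hXj : ∃ m : V3, ¬ π ∣ lin m ∧ ∀ z : V3, m ⬝ᵥ z ≠ 0 → ¬ (z 1 = 0 ∧ z 2 = 0) := by
      rcases bY3_two hπ ![0, 1, 0] ![0, 0, 1] (z := ![0, 0, 1]) (z' := ![0, 1, 0])
        (by simp [dotProduct, Fin.sum_univ_three]) (by simp [dotProduct, Fin.sum_univ_three])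
        (by simp [dotProduct, Fin.sum_univ_three]) with h1 | h1
      · refine ⟨_, h1, ?_⟩
        rintro z hz ⟨h2, h3⟩
        apply hz
        simp [dotProduct, Fin.sum_univ_three, h2]
      · refine ⟨_, h1, ?_⟩
        rintro z hz ⟨h2, h3⟩
        apply hz
        simp [dotProduct, Fin.sum_univ_three, h3]
    have hn : ∃ m : V3, ¬ π ∣ lin m ∧ ∀ z : V3, m ⬝ᵥ z ≠ 0 →
        ¬ (P 1 * z 0 - P 0 * z 1 = 0 ∧ P 2 * z 0 - P 0 * z 2 = 0) := by
      by_cases hP0 : P 0 = 0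
      · refine ⟨![1, 0, 0], ?_, ?_⟩
        · have : lin ![1, 0, 0] = (X 0 : P3) := by
            simp [lin, Fin.sum_univ_three]
          rw [this]
          exact hX
        · rintro z hz ⟨h2, h3⟩
          have hz' : z 0 ≠ 0 := by
            intro h0
            apply hz
            simp [dotProduct, Fin.sum_univ_three, h0]
          rw [hP0, zero_mul, sub_zero] at h2 h3
          exact h.nP ⟨(mul_eq_zero.mp h2).resolve_right hz', (mul_eq_zero.mp h3).resolve_right hz'⟩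
      · rcases bY3_two hπ ![P 1, -P 0, 0] ![P 2, 0, -P 0] (z := ![0, 0, 1]) (z' := ![0, 1, 0])
          (by simp [dotProduct, Fin.sum_univ_three])
          (by simpa [dotProduct, Fin.sum_univ_three] using hP0)
          (by simpa [dotProduct, Fin.sum_univ_three] using hP0) with h1 | h1
        · refine ⟨_, h1, ?_⟩
          rintro z hz ⟨h2, h3⟩
          apply hz
          have h4 : ![P 1, -P 0, 0] ⬝ᵥ z = P 1 * z 0 - P 0 * z 1 := by
            simp [dotProduct, Fin.sum_univ_three]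
            ring
          rw [h4, h2]
        · refine ⟨_, h1, ?_⟩
          rintro z hz ⟨h2, h3⟩
          apply hz
          have h4 : ![P 2, 0, -P 0] ⬝ᵥ z = P 2 * z 0 - P 0 * z 2 := by
            simp [dotProduct, Fin.sum_univ_three]
            ring
          rw [h4, h3]
    obtain ⟨m1, hm1, hm1'⟩ := hXj
    obtain ⟨m2, hm2, hm2'⟩ := hn
    have hl : ¬ π ∣ lin l := by
      intro h1
      have hl0 : lin l ≠ 0 := by
        by_cases hl1 : l 1 = 0
        · have hl2 : l 2 ≠ 0 := fun h2 => h.nl ⟨hl1, h2⟩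
          exact bY3_lin_ne (z := ![0, 0, 1]) (by simpa [dotProduct, Fin.sum_univ_three] using hl2)
        · exact bY3_lin_ne (z := ![0, 1, 0]) (by simpa [dotProduct, Fin.sum_univ_three] using hl1)
      exact h.np1 ((bY3_dvd hπ hl0 (bY3_lin_deg l) h1).trans hπp)
    obtain ⟨z, hz, hzq⟩ := nsz π (lin l * X 0 * lin m1 * lin m2) hπ (by
      intro hd
      rcases hpr.dvd_or_dvd hd with hd | hd
      · rcases hpr.dvd_or_dvd hd with hd | hd
        · rcases hpr.dvd_or_dvd hd with hd | hd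
          · exact hl hd
          · exact hX hd
        · exact hm1 hd
      · exact hm2 hd)
    rw [map_mul, map_mul, map_mul, bY3_eval_lin, bY3_eval_lin, bY3_eval_lin, eval_X] at hzq
    have hq1 : l ⬝ᵥ z ≠ 0 := fun h0 => hzq (by rw [h0]; ring)
    have hq2 : z 0 ≠ 0 := fun h0 => hzq (by rw [h0]; ring)
    have hq3 : m1 ⬝ᵥ z ≠ 0 := fun h0 => hzq (by rw [h0]; ring)
    have hq4 : m2 ⬝ᵥ z ≠ 0 := fun h0 => hzq (by rw [h0]; ring)
    have hz12 := hm1' z hq3
    have hzn := hm2' z hq4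
    obtain ⟨y1, y2, hy⟩ := h.R1 (z 1) (z 2) hz12
    obtain ⟨Q, hQ⟩ := bY3_bh Γ (C (z 1)) (C (z 2)) (X 1) (-X 0)
    have hB : ∃ x, eval x Q ≠ 0 := ⟨![-y2, y1], by
      rw [hQ]
      simpa using hy⟩
    have hL : ∃ x, eval x (C (P 1 * z 0 - P 0 * z 1) * X 0 + C (P 2 * z 0 - P 0 * z 2) * X 1 :
        MvPolynomial (Fin 2) ℂ) ≠ 0 := by
      by_cases h1 : P 1 * z 0 - P 0 * z 1 = 0
      · have h2 : P 2 * z 0 - P 0 * z 2 ≠ 0 := fun h2 => hzn ⟨h1, h2⟩
        refine ⟨![0, 1], ?_⟩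
        simpa using h2
      · refine ⟨![1, 0], ?_⟩
        simpa using h1
    obtain ⟨x, hx1, hx2⟩ := bY3_exists_mul _ _ hL hB
    have h5 := hI z ![-(z 1 * x 0 + z 2 * x 1) / z 0, x 0, x 1] (by
      simp only [dotProduct, Fin.sum_univ_three, Matrix.cons_val]
      field_simp
      ring) (hz0 z hz)
    have h6 : P ⬝ᵥ ![-(z 1 * x 0 + z 2 * x 1) / z 0, x 0, x 1] =
        ((P 1 * z 0 - P 0 * z 1) * x 0 + (P 2 * z 0 - P 0 * z 2) * x 1) / z 0 := by
      simp only [dotProduct, Fin.sum_univ_three, Matrix.cons_val]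
      field_simp
      ring
    rw [h6] at h5
    rw [hQ] at hx2
    simp only [map_add, map_mul, eval_C, eval_X, map_neg] at hx1 hx2
    simp only [Matrix.cons_val] at h5
    exact mul_ne_zero (mul_ne_zero hq1 (div_ne_zero hx1 hq2)) hx2 h5

end Pool.Agent.Lib_helper86.D24

end

section

namespace Pool.Agent.Lib_helper86.D24

open MvPolynomial Matrix


private lemma bY4_const {p : P3} (hp : p.IsHomogeneous 0) : ∃ c : ℂ, p = C c := by
  rw [← totalDegree_zero_iff_isHomogeneous, totalDegree_eq_zero_iff_eq_C] at hp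
  exact ⟨_, hp⟩

private lemma bY4_bh_zero (Γ : Matrix (Fin (2 + 1)) (Fin (2 + 1)) ℂ) (x1 x2 : ℂ) :
    bh Γ x1 x2 0 0 = 0 := by
  unfold bh
  refine Finset.sum_eq_zero (fun i _ => Finset.sum_eq_zero (fun j _ => ?_))
  fin_cases j <;> simp

private lemma bY4_hom {p : P3} {n : ℕ} (hp : p.IsHomogeneous n) (e : ℂ) (z : V3) :
    eval (e • z) p = e ^ n * eval z p := by
  rw [eval_eq', eval_eq', Finset.mul_sum]
  refine Finset.sum_congr rfl (fun d hd => ?_)
  have h1 : d 0 + d 1 + d 2 = n := by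
    have := hp (mem_support_iff.1 hd)
    rw [← this, Finsupp.weight_apply, Finsupp.sum_fintype _ _ (by simp)]
    simp [Fin.sum_univ_three]
  simp only [Fin.prod_univ_three, Pi.smul_apply, smul_eq_mul, mul_pow]
  rw [← h1, pow_add, pow_add]
  ring

/-- Y4 -/
theorem cy_P0 {l P : V3} {p1 p2 : P3} {a b : Fin 2 → P3}
    {Γ : Matrix (Fin (2 + 1)) (Fin (2 + 1)) ℂ} (h : Cy l P 0 0 p1 p2 a b Γ) : P 0 = 0 := by
  by_contra hP0
  obtain ⟨y1, y2, hΓ⟩ := h.R1 (P 1) (P 2) h.nP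
  obtain ⟨c1, hc1⟩ := bY4_const h.hom1
  obtain ⟨c2, hc2⟩ := bY4_const h.hom2
  set w : V3 := ![(y2 * P 1 - y1 * P 2) / P 0, -y2, y1] with hw
  set y : V3 := ![(P 0)⁻¹, 0, 0] with hy
  have hPw : P 0 * w 0 + P 1 * w 1 + P 2 * w 2 = 0 := by
    simp only [hw, Matrix.cons_val]
    field_simp
    ring
  have hPy : P 0 * y 0 + P 1 * y 1 + P 2 * y 2 = 1 := by
    simp only [hy, Matrix.cons_val]
    field_simp
    ring
  obtain ⟨z, hz⟩ : ∃ z : V3, z 0 * w 0 + z 1 * w 1 + z 2 * w 2 ≠ 0 := by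
    by_cases h1 : y1 = 0
    · by_cases h2 : y2 = 0
      · rw [h1, h2, bY4_bh_zero] at hΓ
        exact absurd rfl hΓ
      · exact ⟨![0, 1, 0], by simpa [hw] using h2⟩
    · exact ⟨![0, 0, 1], by simpa [hw] using h1⟩
  set τ : ℂ := z 0 * w 0 + z 1 * w 1 + z 2 * w 2 with hτ
  set ζ : ℂ := z 0 * y 0 + z 1 * y 1 + z 2 * y 2 with hζ
  set ze : ℂ → V3 := fun e => e • z + (1 : ℂ) • P with hze
  set we : ℂ → V3 := fun e => (1 + e * ζ) • w - (e * τ) • y with hwe
  have hzc : Continuous ze := by rw [hze]; fun_prop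
  have hwc : Continuous we := by rw [hwe]; fun_prop
  have key : ∀ e : ℂ, e ≠ 0 → c1 * c2 * e ^ 2 * (∑ i, eval z (a i) * eval (we e) (b i)) +
      (l ⬝ᵥ ze e) * τ * bh Γ (ze e 1) (ze e 2) (we e 2) (-we e 1) = 0 := by
    intro e he
    have h0 : ze e ⬝ᵥ we e = 0 := by
      simp only [dotProduct, Fin.sum_univ_three, hze, hwe, Pi.add_apply, Pi.sub_apply,
        Pi.smul_apply, smul_eq_mul]
      linear_combination (1 + e * ζ) * hPw - e * τ * hPy + (1 + e * ζ) * e * (-hτ) +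
        e * e * τ * hζ
    have h1 := h.I3 _ _ h0
    have h2 : ∀ i, eval (ze e) (a i) = e ^ 3 * eval z (a i) := by
      intro i
      rw [hze]
      simp only
      rw [h.cyla, bY4_hom (h.homa i)]
    have h3 : P ⬝ᵥ we e = - e * τ := by
      simp only [dotProduct, Fin.sum_univ_three, hwe, Pi.sub_apply,
        Pi.smul_apply, smul_eq_mul]
      linear_combination (1 + e * ζ) * hPw - e * τ * hPy
    rw [h3, hc1, hc2] at h1
    simp only [h2, eval_C] at h1
    apply mul_left_cancel₀ he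
    have h4 : ∑ i, e ^ 3 * eval z (a i) * eval (we e) (b i) =
        e ^ 3 * ∑ i, eval z (a i) * eval (we e) (b i) := by
      rw [Finset.mul_sum]
      exact Finset.sum_congr rfl (fun i _ => by ring)
    rw [h4] at h1
    linear_combination h1
  have hcont : Continuous (fun e : ℂ => c1 * c2 * e ^ 2 * (∑ i, eval z (a i) * eval (we e) (b i)) +
      (l ⬝ᵥ ze e) * τ * bh Γ (ze e 1) (ze e 2) (we e 2) (-we e 1)) := by
    have hb : ∀ i, Continuous (fun e => eval (we e) (b i)) := fun i =>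
      (MvPolynomial.continuous_eval (b i)).comp hwc
    simp only [bh, dotProduct]
    fun_prop
  have h0 := congrFun (Continuous.ext_on (dense_compl_singleton (0 : ℂ)) hcont continuous_const
    (fun e he => key e he)) 0
  simp only [ne_eq, OfNat.ofNat_ne_zero, not_false_eq_true, zero_pow, mul_zero, zero_mul,
    zero_add] at h0
  have hz0 : ze 0 = P := by simp [hze]
  have hw0 : we 0 = w := by simp [hwe]
  rw [hz0, hw0] at h0
  rcases mul_eq_zero.1 h0 with h1 | h1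
  · rcases mul_eq_zero.1 h1 with h2 | h2
    · exact cy_lP h h2
    · exact hz h2
  · exact hΓ (by simpa [hw] using h1)

end Pool.Agent.Lib_helper86.D24

end

section

namespace Pool.Agent.Lib_helper86.D24

open MvPolynomial Matrix


/-- binary cubic expansion -/
private lemma bY5_exp (Q : P2) (hQ : Q.IsHomogeneous 3) : ∃ c : Fin 4 → ℂ, ∀ x y : ℂ,
    eval ![x, y] Q = c 0 * y ^ 3 + c 1 * x * y ^ 2 + c 2 * x ^ 2 * y + c 3 * x ^ 3 := by
  classical
  let d : ℕ → (Fin 2 →₀ ℕ) := fun p => Finsupp.single 0 p + Finsupp.single 1 (3 - p)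
  refine ⟨fun p => Q.coeff (d p), fun x y => ?_⟩
  have hsub : Q.support ⊆ (Finset.range 4).image d := by
    intro m hm
    have hm' : Q.coeff m ≠ 0 := by simpa using hm
    have hdeg := hQ hm'
    have h3 : m 0 + m 1 = 3 := by
      have : Finsupp.weight (1 : Fin 2 → ℕ) m = m 0 + m 1 := by
        rw [Finsupp.weight_apply, Finsupp.sum_fintype]
        · simp
        · simp
      omega
    refine Finset.mem_image.2 ⟨m 0, ?_, ?_⟩
    · rw [Finset.mem_range]; omega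
    · ext i
      fin_cases i
      · simp [d]
      · simp [d]; omega
  rw [eval_eq', Finset.sum_subset hsub]
  · rw [Finset.sum_image]
    · simp only [Finset.sum_range_succ, Finset.sum_range_zero, Fin.prod_univ_two, d]
      simp
      ring
    · intro p _ q _ hpq
      have := DFunLike.congr_fun hpq 0
      simpa [d] using this
  · intro m _ hm
    rw [notMem_support_iff] at hm
    rw [hm, zero_mul]

private lemma bY5_cubic {c0 c1 c2 c3 : ℂ} (h : ∀ z : ℂ, c0 + c1 * z + c2 * z ^ 2 + c3 * z ^ 3 = 0) :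
    c0 = 0 ∧ c1 = 0 ∧ c2 = 0 ∧ c3 = 0 := by
  have e0 := h 0
  have e1 := h 1
  have em := h (-1)
  have e2 := h 2
  have h0 : c0 = 0 := by linear_combination e0
  have h2 : c2 = 0 := by linear_combination (1/2) * e1 + (1/2) * em - h0
  have h3 : c3 = 0 := by linear_combination (1/6) * e2 - (1/3)*e1 + (1/6) * h0 - (1/3)*h2
  have h1 : c1 = 0 := by linear_combination e1 - h0 - h2 - h3
  exact ⟨h0, h1, h2, h3⟩

private lemma bY5_cubic2 {c : Fin 4 → Fin 4 → ℂ} (h : ∀ z w : ℂ,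
    (c 0 0 + c 0 1 * w + c 0 2 * w ^ 2 + c 0 3 * w ^ 3) +
    (c 1 0 + c 1 1 * w + c 1 2 * w ^ 2 + c 1 3 * w ^ 3) * z +
    (c 2 0 + c 2 1 * w + c 2 2 * w ^ 2 + c 2 3 * w ^ 3) * z ^ 2 +
    (c 3 0 + c 3 1 * w + c 3 2 * w ^ 2 + c 3 3 * w ^ 3) * z ^ 3 = 0) :
    ∀ p q, c p q = 0 := by
  have h1 : ∀ w : ℂ, _ := fun w => bY5_cubic (fun z => h z w)
  have e0 := bY5_cubic (fun w => (h1 w).1)
  have e1 := bY5_cubic (fun w => (h1 w).2.1)
  have e2 := bY5_cubic (fun w => (h1 w).2.2.1)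
  have e3 := bY5_cubic (fun w => (h1 w).2.2.2)
  intro p q
  fin_cases p <;> fin_cases q
  · exact e0.1
  · exact e0.2.1
  · exact e0.2.2.1
  · exact e0.2.2.2
  · exact e1.1
  · exact e1.2.1
  · exact e1.2.2.1
  · exact e1.2.2.2
  · exact e2.1
  · exact e2.2.1
  · exact e2.2.2.1
  · exact e2.2.2.2
  · exact e3.1
  · exact e3.2.1
  · exact e3.2.2.1
  · exact e3.2.2.2

/-- a cubic form invariant along `P` -/
private lemma bY5_form (a : P3) (ha : a.IsHomogeneous 3) (P l : V3) (hP : P 0 = 0)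
    (hΔ : l 1 * P 1 + l 2 * P 2 ≠ 0)
    (hc : ∀ (z : V3) (s : ℂ), eval (z + s • P) a = eval z a) :
    ∃ c : Fin 4 → ℂ, ∀ z : V3, eval z a =
      c 0 * ((P 1 * z 2 - P 2 * z 1) / (l 1 * P 1 + l 2 * P 2)) ^ 3 +
      c 1 * z 0 * ((P 1 * z 2 - P 2 * z 1) / (l 1 * P 1 + l 2 * P 2)) ^ 2 +
      c 2 * z 0 ^ 2 * ((P 1 * z 2 - P 2 * z 1) / (l 1 * P 1 + l 2 * P 2)) + c 3 * z 0 ^ 3 := by
  set Δ := l 1 * P 1 + l 2 * P 2 with hΔd
  let Q : P2 := aeval ![(X 0 : P2), C (-l 2) * X 1, C (l 1) * X 1] a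
  have hQ : Q.IsHomogeneous 3 := by
    have := ha.aeval ![(X 0 : P2), C (-l 2) * X 1, C (l 1) * X 1] (n := 1) (by
      intro i
      fin_cases i
      · exact isHomogeneous_X _ _
      · exact (isHomogeneous_C_mul_X _ _)
      · exact (isHomogeneous_C_mul_X _ _))
    rw [one_mul] at this
    exact this
  obtain ⟨c, hcc⟩ := bY5_exp Q hQ
  refine ⟨c, fun z => ?_⟩
  have h1 : ∀ x y : ℂ, eval ![x, y] Q = eval ![x, -l 2 * y, l 1 * y] a := by
    intro x y
    have : eval ![x, y] Q = eval (fun i => eval ![x, y] ((![(X 0 : P2), C (-l 2) * X 1, C (l 1) * X 1]) i)) a := by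
      simp only [Q]
      rw [← coe_aeval_eq_eval, ← coe_aeval_eq_eval]
      simp only [RingHom.coe_coe]
      rw [← AlgHom.comp_apply, comp_aeval]
    rw [this]
    congr 2
    ext i
    fin_cases i <;> simp
  have h2 : eval z a = eval ![z 0, -l 2 * ((P 1 * z 2 - P 2 * z 1) / Δ),
      l 1 * ((P 1 * z 2 - P 2 * z 1) / Δ)] a := by
    rw [← hc z (-((l 1 * z 1 + l 2 * z 2) / Δ))]
    congr 2
    ext i
    fin_cases i
    · simp [hP]
    · simp
      field_simp
      rw [hΔd]; ring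
    · simp
      field_simp
      rw [hΔd]; ring
  rw [h2, ← h1, hcc]

private lemma bY5_bh (Γ : Matrix (Fin (2 + 1)) (Fin (2 + 1)) ℂ) (a b c d : ℂ) : bh Γ a b c d =
    Γ 0 0 * a ^ 2 * c ^ 2 + Γ 0 1 * a ^ 2 * (c * d) + Γ 0 2 * a ^ 2 * d ^ 2 +
    Γ 1 0 * (a * b) * c ^ 2 + Γ 1 1 * (a * b) * (c * d) + Γ 1 2 * (a * b) * d ^ 2 +
    Γ 2 0 * b ^ 2 * c ^ 2 + Γ 2 1 * b ^ 2 * (c * d) + Γ 2 2 * b ^ 2 * d ^ 2 := by
  have h := Fin.sum_univ_three (fun i : Fin 3 => ∑ j : Fin 3,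
    Γ i j * (a ^ (2 - (i : ℕ)) * b ^ (i : ℕ)) * (c ^ (2 - (j : ℕ)) * d ^ (j : ℕ)))
  have h' : bh Γ a b c d = ∑ i : Fin 3, ∑ j : Fin 3,
    Γ i j * (a ^ (2 - (i : ℕ)) * b ^ (i : ℕ)) * (c ^ (2 - (j : ℕ)) * d ^ (j : ℕ)) := rfl
  rw [h', h, Fin.sum_univ_three, Fin.sum_univ_three, Fin.sum_univ_three]
  norm_num
  ring

/-- Y5: the form of `Γ` -/
theorem cy_form {l P : V3} {p1 p2 : P3} {a b : Fin 2 → P3}
    {Γ : Matrix (Fin (2 + 1)) (Fin (2 + 1)) ℂ} (h : Cy l P 0 0 p1 p2 a b Γ) (hP : P 0 = 0)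
    (hl : l 0 = 0) (hlP : l ⬝ᵥ P ≠ 0) : ∃ C0 : ℂ, C0 ≠ 0 ∧ ∀ x y x' y' : ℂ,
      bh Γ (x * P 1 - y * l 2) (x * P 2 + y * l 1) (x' * l 2 + y' * P 1) (-(x' * l 1) + y' * P 2) =
      C0 * ((x * x') ^ 2 + 3 * (x * x') * (y * y') + 3 * (y * y') ^ 2) := by
  have hΔ : l 1 * P 1 + l 2 * P 2 ≠ 0 := by
    have : l ⬝ᵥ P = l 1 * P 1 + l 2 * P 2 := by
      simp [dotProduct, Fin.sum_univ_three, hP]
    rwa [this] at hlP
  have hΔ' : P 1 * l 1 + P 2 * l 2 ≠ 0 := by
    intro h0; apply hΔ; linear_combination h0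
  set Δ := l 1 * P 1 + l 2 * P 2 with hΔd
  -- the constants
  obtain ⟨c1, hc1⟩ : ∃ c1 : ℂ, p1 = C c1 := by
    have := h.hom1
    exact ⟨coeff 0 p1, by
      exact (totalDegree_eq_zero_iff_eq_C.1 (Nat.le_zero.1 (this.totalDegree_le)))⟩
  obtain ⟨c2, hc2⟩ : ∃ c2 : ℂ, p2 = C c2 := by
    have := h.hom2
    exact ⟨coeff 0 p2, by
      exact (totalDegree_eq_zero_iff_eq_C.1 (Nat.le_zero.1 (this.totalDegree_le)))⟩
  have hc1' : c1 ≠ 0 := by
    rintro rfl
    apply h.np1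
    rw [hc1]; simp
  have hc2' : c2 ≠ 0 := by
    rintro rfl
    apply h.np2
    rw [hc2]; simp
  have hforma : ∀ i : Fin 2, ∃ c : Fin 4 → ℂ, ∀ z : V3, eval z (a i) =
      c 0 * ((P 1 * z 2 - P 2 * z 1) / Δ) ^ 3 +
      c 1 * z 0 * ((P 1 * z 2 - P 2 * z 1) / Δ) ^ 2 +
      c 2 * z 0 ^ 2 * ((P 1 * z 2 - P 2 * z 1) / Δ) + c 3 * z 0 ^ 3 := fun i =>
    bY5_form (a i) (by simpa using h.homa i) P l hP hΔ (fun z s => h.cyla z s i)
  have hformb : ∀ i : Fin 2, ∃ c : Fin 4 → ℂ, ∀ w : V3, eval w (b i) =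
      c 0 * ((l 1 * w 2 - l 2 * w 1) / Δ) ^ 3 +
      c 1 * w 0 * ((l 1 * w 2 - l 2 * w 1) / Δ) ^ 2 +
      c 2 * w 0 ^ 2 * ((l 1 * w 2 - l 2 * w 1) / Δ) + c 3 * w 0 ^ 3 := fun i => by
    have := bY5_form (b i) (by simpa using h.homb i) l P hl hΔ' (fun z s => h.cylb z s i)
    have he : P 1 * l 1 + P 2 * l 2 = Δ := by rw [hΔd]; ring
    rw [he] at this
    exact this
  choose α hα using hforma
  choose β hβ using hformb
  -- the key identity
  have key : ∀ z0 x y w0 x' y' : ℂ, z0 * w0 + Δ * (x * x') + Δ * (y * y') = 0 →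
      c1 * c2 * ((α 0 0 * y ^ 3 + α 0 1 * z0 * y ^ 2 + α 0 2 * z0 ^ 2 * y + α 0 3 * z0 ^ 3) *
        (β 0 0 * y' ^ 3 + β 0 1 * w0 * y' ^ 2 + β 0 2 * w0 ^ 2 * y' + β 0 3 * w0 ^ 3) +
        (α 1 0 * y ^ 3 + α 1 1 * z0 * y ^ 2 + α 1 2 * z0 ^ 2 * y + α 1 3 * z0 ^ 3) *
        (β 1 0 * y' ^ 3 + β 1 1 * w0 * y' ^ 2 + β 1 2 * w0 ^ 2 * y' + β 1 3 * w0 ^ 3)) =
      Δ ^ 2 * (x * x') * bh Γ (x * P 1 - y * l 2) (x * P 2 + y * l 1)
        (x' * l 2 + y' * P 1) (-(x' * l 1) + y' * P 2) := by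
    intro z0 x y w0 x' y' h0
    have hI := h.I3 ![z0, x * P 1 - y * l 2, x * P 2 + y * l 1]
      ![w0, x' * l 1 - y' * P 2, x' * l 2 + y' * P 1] (by
        simp [dotProduct, Fin.sum_univ_three]
        rw [hΔd] at h0
        linear_combination h0)
    rw [Fin.sum_univ_two, hα, hα, hβ, hβ, hc1, hc2] at hI
    simp only [eval_C, Matrix.cons_val_zero, Matrix.cons_val_one, Matrix.cons_val] at hI
    have ey : (P 1 * (x * P 2 + y * l 1) - P 2 * (x * P 1 - y * l 2)) / Δ = y := by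
      field_simp; rw [hΔd]; ring
    have ey' : (l 1 * (x' * l 2 + y' * P 1) - l 2 * (x' * l 1 - y' * P 2)) / Δ = y' := by
      field_simp; rw [hΔd]; ring
    rw [ey, ey'] at hI
    have el : l ⬝ᵥ ![z0, x * P 1 - y * l 2, x * P 2 + y * l 1] = Δ * x := by
      simp [dotProduct, Fin.sum_univ_three, hl]; rw [hΔd]; ring
    have eP : P ⬝ᵥ ![w0, x' * l 1 - y' * P 2, x' * l 2 + y' * P 1] = Δ * x' := by
      simp [dotProduct, Fin.sum_univ_three, hP]; rw [hΔd]; ring
    rw [el, eP] at hI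
    have e3 : -(x' * l 1 - y' * P 2) = -(x' * l 1) + y' * P 2 := by ring
    rw [e3] at hI
    linear_combination hI
  have hcc : c1 * c2 ≠ 0 := mul_ne_zero hc1' hc2'
  -- scaling
  let L : Fin 4 → Fin 4 → ℂ := fun p q => α 0 p * β 0 q + α 1 p * β 1 q
  have hscale : ∀ z0 w0 : ℂ,
      ((α 0 0 + α 0 1 * z0 + α 0 2 * z0 ^ 2 + α 0 3 * z0 ^ 3) *
        (β 0 0 + β 0 1 * (2 * w0) + β 0 2 * (2 * w0) ^ 2 + β 0 3 * (2 * w0) ^ 3) +
        (α 1 0 + α 1 1 * z0 + α 1 2 * z0 ^ 2 + α 1 3 * z0 ^ 3) *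
        (β 1 0 + β 1 1 * (2 * w0) + β 1 2 * (2 * w0) ^ 2 + β 1 3 * (2 * w0) ^ 3)) =
      ((α 0 0 + α 0 1 * (2 * z0) + α 0 2 * (2 * z0) ^ 2 + α 0 3 * (2 * z0) ^ 3) *
        (β 0 0 + β 0 1 * w0 + β 0 2 * w0 ^ 2 + β 0 3 * w0 ^ 3) +
        (α 1 0 + α 1 1 * (2 * z0) + α 1 2 * (2 * z0) ^ 2 + α 1 3 * (2 * z0) ^ 3) *
        (β 1 0 + β 1 1 * w0 + β 1 2 * w0 ^ 2 + β 1 3 * w0 ^ 3)) := by
    intro z0 w0
    have k1 := key z0 1 1 (2 * w0) (-(z0 * (2 * w0) + Δ) / Δ) 1 (by field_simp; ring)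
    have k2 := key (2 * z0) 1 1 w0 (-(z0 * (2 * w0) + Δ) / Δ) 1 (by field_simp; ring)
    have k3 := k1.trans k2.symm
    have k4 := mul_left_cancel₀ hcc k3
    linear_combination k4
  have hL : ∀ p q : Fin 4, p ≠ q → L p q = 0 := by
    have hM := bY5_cubic2 (c := fun p q => L p q * ((2 : ℂ) ^ (q : ℕ) - 2 ^ (p : ℕ))) (by
      intro z w
      have := hscale z w
      simp only [L]
      norm_num
      linear_combination this)
    intro p q hpq
    have := hM p q
    rcases mul_eq_zero.1 this with h1 | h1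
    · exact h1
    · exfalso
      apply hpq
      have h2 : ((2 ^ (q : ℕ) : ℕ) : ℂ) = ((2 ^ (p : ℕ) : ℕ) : ℂ) := by
        push_cast; linear_combination h1
      have h3 : 2 ^ (q : ℕ) = 2 ^ (p : ℕ) := by exact_mod_cast h2
      exact Fin.ext (Nat.pow_right_injective (le_refl 2) h3).symm
  -- vanishing of a row
  have hrow : ∀ p : Fin 4, L p p = 0 → ∀ i, α i p = 0 := by
    intro p hp
    have hq : ∀ q, α 0 p * β 0 q + α 1 p * β 1 q = 0 := by
      intro q
      by_cases hpq : p = q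
      · subst hpq; exact hp
      · exact hL p q hpq
    have h0 : ∑ i, (α i p) • b i = 0 := by
      apply MvPolynomial.funext
      intro w
      rw [Fin.sum_univ_two]
      simp only [map_add, smul_eval, map_zero, hβ]
      linear_combination ((l 1 * w 2 - l 2 * w 1) / Δ) ^ 3 * hq 0 +
        w 0 * ((l 1 * w 2 - l 2 * w 1) / Δ) ^ 2 * hq 1 +
        w 0 ^ 2 * ((l 1 * w 2 - l 2 * w 1) / Δ) * hq 2 + w 0 ^ 3 * hq 3
    exact Fintype.linearIndependent_iff.1 h.indb _ h0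
  have h33 : L 3 3 ≠ 0 := by
    intro h0
    have hα3 := hrow 3 h0
    let Y : P3 := C (Δ⁻¹) * (C (P 1) * X 2 - C (P 2) * X 1)
    have hY : ∀ i, Y ∣ a i := by
      intro i
      refine ⟨C (α i 0) * Y ^ 2 + C (α i 1) * X 0 * Y + C (α i 2) * X 0 ^ 2, ?_⟩
      apply MvPolynomial.funext
      intro z
      rw [hα, hα3 i]
      simp only [Y, map_mul, map_add, map_sub, eval_C, eval_X, map_pow]
      field_simp
      ring
    have hu := h.copa (hY 0) (hY 1)
    have hu2 := hu.map (eval (0 : V3))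
    simp [Y] at hu2
  have h00 : L 0 0 ≠ 0 := by
    intro h0
    have hα3 := hrow 0 h0
    let Y : P3 := C (Δ⁻¹) * (C (P 1) * X 2 - C (P 2) * X 1)
    have hY : ∀ i, (X 0 : P3) ∣ a i := by
      intro i
      refine ⟨C (α i 1) * Y ^ 2 + C (α i 2) * X 0 * Y + C (α i 3) * X 0 ^ 2, ?_⟩
      apply MvPolynomial.funext
      intro z
      rw [hα, hα3 i]
      simp only [Y, map_mul, map_add, map_sub, eval_C, eval_X, map_pow]
      field_simp
      ring
    have hu := h.copa (hY 0) (hY 1)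
    have hu2 := hu.map (eval (0 : V3))
    simp at hu2
  have h11 : L 1 1 = 0 := by
    have e : L 0 0 * L 3 3 * L 1 1 = 0 := by
      have a1 := hL 0 1 (by decide)
      have a2 := hL 0 3 (by decide)
      have a3 := hL 1 0 (by decide)
      have a4 := hL 1 3 (by decide)
      have a5 := hL 3 0 (by decide)
      have a6 := hL 3 1 (by decide)
      have det : L 0 0 * (L 3 3 * L 1 1 - L 3 1 * L 1 3) - L 0 3 * (L 3 0 * L 1 1 - L 3 1 * L 1 0) +
          L 0 1 * (L 3 0 * L 1 3 - L 3 3 * L 1 0) = 0 := by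
        simp only [L]; ring
      linear_combination det + L 0 0 * L 1 3 * a6 + (L 3 0 * L 1 1 - L 3 1 * L 1 0) * a2 -
        (L 3 0 * L 1 3 - L 3 3 * L 1 0) * a1
    rcases mul_eq_zero.1 e with e | e
    · rcases mul_eq_zero.1 e with e | e
      · exact absurd e h00
      · exact absurd e h33
    · exact e
  have h22 : L 2 2 = 0 := by
    have e : L 0 0 * L 3 3 * L 2 2 = 0 := by
      have a1 := hL 0 2 (by decide)
      have a2 := hL 0 3 (by decide)
      have a6 := hL 3 2 (by decide)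
      have det : L 0 0 * (L 3 3 * L 2 2 - L 3 2 * L 2 3) - L 0 3 * (L 3 0 * L 2 2 - L 3 2 * L 2 0) +
          L 0 2 * (L 3 0 * L 2 3 - L 3 3 * L 2 0) = 0 := by
        simp only [L]; ring
      linear_combination det + L 0 0 * L 2 3 * a6 + (L 3 0 * L 2 2 - L 3 2 * L 2 0) * a2 -
        (L 3 0 * L 2 3 - L 3 3 * L 2 0) * a1
    rcases mul_eq_zero.1 e with e | e
    · rcases mul_eq_zero.1 e with e | e
      · exact absurd e h00
      · exact absurd e h33
    · exact e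
  have key2 : ∀ z0 x y w0 x' y' : ℂ, z0 * w0 + Δ * (x * x') + Δ * (y * y') = 0 →
      c1 * c2 * (L 3 3 * (z0 * w0) ^ 3 + L 0 0 * (y * y') ^ 3) =
      Δ ^ 2 * (x * x') * bh Γ (x * P 1 - y * l 2) (x * P 2 + y * l 1)
        (x' * l 2 + y' * P 1) (-(x' * l 1) + y' * P 2) := by
    intro z0 x y w0 x' y' h0
    have k := key z0 x y w0 x' y' h0
    rw [← k]
    have b01 := hL 0 1 (by decide)
    have b02 := hL 0 2 (by decide)
    have b03 := hL 0 3 (by decide)
    have b10 := hL 1 0 (by decide)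
    have b12 := hL 1 2 (by decide)
    have b13 := hL 1 3 (by decide)
    have b20 := hL 2 0 (by decide)
    have b21 := hL 2 1 (by decide)
    have b23 := hL 2 3 (by decide)
    have b30 := hL 3 0 (by decide)
    have b31 := hL 3 1 (by decide)
    have b32 := hL 3 2 (by decide)
    simp only [L] at b01 b02 b03 b10 b12 b13 b20 b21 b23 b30 b31 b32 h11 h22 ⊢
    linear_combination (-(c1 * c2)) * (y ^ 3 * w0 * y' ^ 2 * b01 + y ^ 3 * w0 ^ 2 * y' * b02 +
      y ^ 3 * w0 ^ 3 * b03 + z0 * y ^ 2 * y' ^ 3 * b10 + z0 * y ^ 2 * w0 * y' ^ 2 * h11 +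
      z0 * y ^ 2 * w0 ^ 2 * y' * b12 + z0 * y ^ 2 * w0 ^ 3 * b13 + z0 ^ 2 * y * y' ^ 3 * b20 +
      z0 ^ 2 * y * w0 * y' ^ 2 * b21 + z0 ^ 2 * y * w0 ^ 2 * y' * h22 + z0 ^ 2 * y * w0 ^ 3 * b23 +
      z0 ^ 3 * y' ^ 3 * b30 + z0 ^ 3 * w0 * y' ^ 2 * b31 + z0 ^ 3 * w0 ^ 2 * y' * b32)
  have h0033 : L 0 0 = Δ ^ 3 * L 3 3 := by
    have k := key2 (-Δ) 0 1 1 0 1 (by ring)
    have k' : c1 * c2 * (L 3 3 * (-Δ) ^ 3 + L 0 0) = c1 * c2 * 0 := by
      linear_combination k
    have := mul_left_cancel₀ hcc k'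
    linear_combination this
  refine ⟨-(c1 * c2 * L 3 3 * Δ), ?_, ?_⟩
  · exact neg_ne_zero.2 (mul_ne_zero (mul_ne_zero hcc h33) hΔ)
  · -- generic case
    have gen : ∀ x y x' y' : ℂ, x * x' ≠ 0 →
        bh Γ (x * P 1 - y * l 2) (x * P 2 + y * l 1) (x' * l 2 + y' * P 1)
          (-(x' * l 1) + y' * P 2) =
        -(c1 * c2 * L 3 3 * Δ) * ((x * x') ^ 2 + 3 * (x * x') * (y * y') + 3 * (y * y') ^ 2) := by
      intro x y x' y' hx
      have k := key2 (-(Δ * (x * x') + Δ * (y * y'))) x y 1 x' y' (by ring)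
      rw [h0033] at k
      have hne : Δ ^ 2 * (x * x') ≠ 0 := mul_ne_zero (pow_ne_zero _ hΔ) hx
      apply mul_left_cancel₀ hne
      rw [← k]
      ring
    have gen2 : ∀ x y x' y' : ℂ, x' ≠ 0 →
        bh Γ (x * P 1 - y * l 2) (x * P 2 + y * l 1) (x' * l 2 + y' * P 1)
          (-(x' * l 1) + y' * P 2) =
        -(c1 * c2 * L 3 3 * Δ) * ((x * x') ^ 2 + 3 * (x * x') * (y * y') + 3 * (y * y') ^ 2) := by
      intro x y x' y' hx'
      by_cases hx : x = 0
      · subst hx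
        have q1 := gen 1 y x' y' (by simpa using hx')
        have q2 := gen (-1) y x' y' (by simpa using hx')
        have q3 := gen 2 y x' y' (by simpa using hx')
        rw [bY5_bh] at q1 q2 q3 ⊢
        linear_combination q1 + (1/3) * q2 - (1/3) * q3
      · exact gen x y x' y' (mul_ne_zero hx hx')
    intro x y x' y'
    by_cases hx' : x' = 0
    · subst hx'
      have q1 := gen2 x y 1 y' (by norm_num)
      have q2 := gen2 x y (-1) y' (by norm_num)
      have q3 := gen2 x y 2 y' (by norm_num)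
      rw [bY5_bh] at q1 q2 q3 ⊢
      linear_combination q1 + (1/3) * q2 - (1/3) * q3
    · exact gen2 x y x' y' hx'

end Pool.Agent.Lib_helper86.D24

end

section

namespace Pool.Agent.Lib_helper86.D24

open MvPolynomial Matrix


private noncomputable def Y6bf (r : ℕ) (g u v : Polynomial ℂ) : Polynomial ℂ :=
  ∑ i ∈ Finset.range (r + 1), Polynomial.C (g.coeff i) * u ^ (r - i) * v ^ i

private theorem Y6_eval (r : ℕ) (g u v : Polynomial ℂ) (x : ℂ) :
    (Y6bf r g u v).eval x = bf r g (u.eval x) (v.eval x) := by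
  simp [Y6bf, bf, Polynomial.eval_finsetSum]

/-- Y6 (uses RK) -/
theorem form_false {m mt : P3} {c ct : Fin 2 → P3} {g : Fin 2 → Polynomial ℂ}
    {ρ : Polynomial ℂ} {κ : ℂ} {Γ : Matrix (Fin (2 + 1)) (Fin (2 + 1)) ℂ}
    (h : SF 2 m mt c ct g ρ κ Γ) (l P : V3) (hlP : l 1 * P 1 + l 2 * P 2 ≠ 0) (C0 : ℂ)
    (hC : C0 ≠ 0) (hf : ∀ x y x' y' : ℂ,
      bh Γ (x * P 1 - y * l 2) (x * P 2 + y * l 1) (x' * l 2 + y' * P 1) (-(x' * l 1) + y' * P 2) =
      C0 * ((x * x') ^ 2 + 3 * (x * x') * (y * y') + 3 * (y * y') ^ 2)) : False := by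
  set Δ : ℂ := l 1 * P 1 + l 2 * P 2 with hΔ
  set u : Polynomial ℂ := Polynomial.X * Polynomial.C (P 1) - Polynomial.C (l 2) with hu
  set v : Polynomial ℂ := Polynomial.X * Polynomial.C (P 2) + Polynomial.C (l 1) with hv
  set u' : Polynomial ℂ := Polynomial.X * Polynomial.C (l 2) + Polynomial.C (P 1) with hu'
  set v' : Polynomial ℂ := -(Polynomial.X * Polynomial.C (l 1)) + Polynomial.C (P 2) with hv'
  have hd : ∀ i, (![3, 12, 19, 15, 6, 1] : Fin 6 → ℂ) i * (-Δ ^ 3 * C0) ≠ 0 := by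
    intro i
    refine mul_ne_zero ?_ (mul_ne_zero (neg_ne_zero.2 (pow_ne_zero 3 hlP)) hC)
    fin_cases i <;> norm_num
  refine rank_false ![Y6bf 5 (g 0) u v, - Y6bf 5 (g 1) u v,
      Polynomial.C (κ * Δ) * (Polynomial.X * Y6bf 4 ρ u v), Polynomial.C (κ * Δ) * Y6bf 4 ρ u v]
    ![Y6bf 5 (g 1) u' v', Y6bf 5 (g 0) u' v', Polynomial.X * Y6bf 4 ρ u' v', Y6bf 4 ρ u' v']
    (Matrix.diagonal fun i => (![3, 12, 19, 15, 6, 1] : Fin 6 → ℂ) i * (-Δ ^ 3 * C0)) ?_ ?_
  · rw [Matrix.det_diagonal]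
    exact Finset.prod_ne_zero_iff.2 fun i _ => hd i
  · intro x y
    have h2 := h.I2 (x * P 1 - l 2) (x * P 2 + l 1) (y * l 2 + P 1) (-(y * l 1) + P 2)
    have h3 := hf x 1 y 1
    simp only [one_mul, mul_one, one_pow] at h3
    rw [h3] at h2
    have e1 : (x * P 1 - l 2) * (-(y * l 1) + P 2) - (x * P 2 + l 1) * (y * l 2 + P 1) =
        -Δ * (x * y + 1) := by rw [hΔ]; ring
    rw [e1] at h2
    have eu : u.eval x = x * P 1 - l 2 := by
      simp only [hu, Polynomial.eval_add, Polynomial.eval_sub, Polynomial.eval_neg, Polynomial.eval_mul,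
        Polynomial.eval_X, Polynomial.eval_C]
    have ev : v.eval x = x * P 2 + l 1 := by
      simp only [hv, Polynomial.eval_add, Polynomial.eval_sub, Polynomial.eval_neg, Polynomial.eval_mul,
        Polynomial.eval_X, Polynomial.eval_C]
    have eu' : u'.eval y = y * l 2 + P 1 := by
      simp only [hu', Polynomial.eval_add, Polynomial.eval_sub, Polynomial.eval_neg, Polynomial.eval_mul,
        Polynomial.eval_X, Polynomial.eval_C]
    have ev' : v'.eval y = -(y * l 1) + P 2 := by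
      simp only [hv', Polynomial.eval_add, Polynomial.eval_sub, Polynomial.eval_neg, Polynomial.eval_mul,
        Polynomial.eval_X, Polynomial.eval_C]
    simp only [Matrix.diagonal_apply, ite_mul, zero_mul, Finset.sum_ite_eq, Finset.mem_univ, if_true]
    rw [Fin.sum_univ_four, Fin.sum_univ_six]
    simp only [Matrix.cons_val, Polynomial.eval_mul, Polynomial.eval_C, Polynomial.eval_X,
      Polynomial.eval_neg, Y6_eval, eu, ev, eu', ev']
    norm_num at h2 ⊢
    linear_combination -h2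

end Pool.Agent.Lib_helper86.D24

end

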