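import Pool.Agent.Lib_helper86.D24.Defs2
import Pool.Agent.Lib_helper86.D24.L4
import Pool.Agent.Lib_helper86.D24.L5

/-!
# D(2,4) = 5: part L7
-/

section

namespace Pool.Agent.Lib_helper86.D24

open MvPolynomial Matrix


/-- TH -/
theorem tln_hom {P : P3} {d : ℕ} (h : P.IsHomogeneous d) : (tln P).IsHomogeneous d := by
  unfold tln
  have h1 : (MvPolynomial.map (starRingEnd ℂ) P).IsHomogeneous d := h.map _
  have h2 := h1.aeval (![(X 2 : P3), X 1, X 0]) (n := 1) (fun i => by
    fin_cases i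
    · exact isHomogeneous_X ℂ 2
    · exact isHomogeneous_X ℂ 1
    · exact isHomogeneous_X ℂ 0)
  simpa using h2

/-- BH -/
theorem hom_of_X2_mul {p b : P3} {d : ℕ} (h : p.IsHomogeneous (d + 1)) (hb : p = X 2 * b) :
    b.IsHomogeneous d := by
  intro m hm
  have h1 : p.coeff (Finsupp.single 2 1 + m) ≠ 0 := by
    rw [hb, coeff_X_mul]
    exact hm
  have h2 := h h1
  rw [map_add] at h2
  have h3 : Finsupp.weight (1 : Fin 3 → ℕ) (Finsupp.single (2 : Fin 3) 1) = 1 := by
    simp [Finsupp.weight_single]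
  rw [h3] at h2
  omega

end Pool.Agent.Lib_helper86.D24

end

section

namespace Pool.Agent.Lib_helper86.D24

open MvPolynomial Matrix


theorem bN1_addl {N : ℕ} (u v w : Fin (N + 1) → ℂ) : hf (u + v) w = hf u w + hf v w := by
  simp only [hf, Pi.add_apply, add_mul, Finset.sum_add_distrib]
  ring

theorem bN1_smull {N : ℕ} (c : ℂ) (u w : Fin (N + 1) → ℂ) : hf (c • u) w = c * hf u w := by
  simp only [hf, Pi.smul_apply, smul_eq_mul, mul_sub, Finset.mul_sum]
  congr 1
  · exact Finset.sum_congr rfl fun i _ => by ring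
  · ring

theorem bN1_conj {N : ℕ} (u v : Fin (N + 1) → ℂ) : (starRingEnd ℂ) (hf u v) = hf v u := by
  simp only [hf, map_sub, map_sum, map_mul, Complex.conj_conj]
  congr 1
  · exact Finset.sum_congr rfl fun i _ => by ring
  · ring

theorem bN1_smulr {N : ℕ} (c : ℂ) (u w : Fin (N + 1) → ℂ) : hf u (c • w) = (starRingEnd ℂ) c * hf u w := by
  rw [← bN1_conj, bN1_smull, map_mul, bN1_conj]

theorem bN1_real {N : ℕ} (u : Fin (N + 1) → ℂ) : hf u u = ((hf u u).re : ℂ) := by
  have := bN1_conj u u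
  exact (Complex.conj_eq_iff_re.1 this).symm

/-- normalization of a vector orthogonal to the null vector -/
theorem bN1_unit {e x : E5} (he0 : e ≠ 0) (hee : hf e e = 0) (hx : hf x e = 0)
    (h : ∀ c : ℂ, x ≠ c • e) : ∃ c : ℂ, c ≠ 0 ∧ hf (c • x) (c • x) = 1 := by
  obtain ⟨h1, h2⟩ := null_perp e x hee he0 hx
  have h3 : 0 < (hf x x).re := by
    refine lt_of_le_of_ne h1 fun h4 => ?_
    obtain ⟨c, hc⟩ := h2 h4.symm
    exact h c hc
  have h5 : Real.sqrt (hf x x).re ≠ 0 := (Real.sqrt_pos.2 h3).ne'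
  refine ⟨((Real.sqrt (hf x x).re)⁻¹ : ℝ), ?_, ?_⟩
  · rw [Complex.ofReal_ne_zero]
    exact inv_ne_zero h5
  · rw [bN1_smull, bN1_smulr, Complex.conj_ofReal, bN1_real x, ← Complex.ofReal_mul,
      ← Complex.ofReal_mul, ← Complex.ofReal_one]
    congr 1
    have h6 : Real.sqrt (hf x x).re * Real.sqrt (hf x x).re = (hf x x).re :=
      Real.mul_self_sqrt h3.le
    rw [Complex.ofReal_re]
    field_simp
    rw [sq, h6]

theorem bN1_hom {P : P3} {n : ℕ} (h : P.IsHomogeneous n) (c : ℂ) (z : V3) :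
    eval (c • z) P = c ^ n * eval z P := by
  rw [eval_eq', eval_eq', Finset.mul_sum]
  refine Finset.sum_congr rfl fun d hd => ?_
  have h1 := h.degree_eq_sum_deg_support hd
  have h2 : n = ∑ i, d i := by
    rw [h1]
    exact Finset.sum_subset (Finset.subset_univ _) fun x _ hx => Finsupp.notMem_support_iff.1 hx
  simp only [Pi.smul_apply, smul_eq_mul, mul_pow]
  rw [Finset.prod_mul_distrib, Finset.prod_pow_eq_pow_sum, ← h2]
  ring

theorem bN1_r2 (P : P3) (x : ℂ) : (r2 P).eval x = eval ![x, 1, 0] P := by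
  have : (Polynomial.evalRingHom x).comp (r2 : P3 →ₐ[ℂ] Polynomial ℂ).toRingHom =
      (eval ![x, 1, 0] : P3 →+* ℂ) := by
    apply MvPolynomial.ringHom_ext
    · intro c
      simp [r2]
    · intro i
      fin_cases i <;> simp [r2]
  exact RingHom.congr_fun this P

/-- `F(1, η, 0) = η^6 f(1/η)` -/
theorem bN1_inv {P : P3} (h : P.IsHomogeneous 6) {η : ℂ} (hη : η ≠ 0) :
    eval ![1, η, 0] P = η ^ 6 * (r2 P).eval η⁻¹ := by
  rw [bN1_r2, ← bN1_hom h]
  congr 2
  ext i
  fin_cases i <;> simp [hη]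

theorem bN1_refl {f : Polynomial ℂ} {r : ℕ} (hf : f.natDegree ≤ r) {η : ℂ} (hη : η ≠ 0) :
    (f.reflect r).eval η = η ^ r * f.eval η⁻¹ := by
  have : Invertible (η⁻¹) := invertibleOfNonzero (inv_ne_zero hη)
  have h := Polynomial.eval₂_reflect_mul_pow (RingHom.id ℂ) η⁻¹ r f hf
  rw [invOf_eq_inv, inv_inv] at h
  rw [← Polynomial.eval₂_id (p := f), ← h, ← Polynomial.eval₂_id, inv_pow]
  field_simp

theorem bN1_refl0 (f : Polynomial ℂ) (r : ℕ) : (f.reflect r).eval 0 = f.coeff r := by
  rw [← Polynomial.coeff_zero_eq_eval_zero, Polynomial.coeff_reflect]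
  simp

/-- the leading vector is orthogonal to `T` -/
theorem bN1_perp {F : Fin 5 → P3} (h : Spec qn 2 F) {e : E5} {r : ℕ}
    (h1 : ∀ i, (r2 (F i)).coeff r = e i) (h2 : ∀ i, (r2 (F i)).natDegree ≤ r) (z : V3)
    (hz : z 2 = 0) : hf (fun i => eval z (F i)) e = 0 := by
  set E : ℂ → E5 := fun η i => ((r2 (F i)).reflect r).eval η with hE
  set g : ℂ → ℂ := fun η => hf (fun i => eval ![z 0, z 1, -z 1 * (starRingEnd ℂ) η] (F i)) (E η) with hg
  have hg0 : g 0 = hf (fun i => eval z (F i)) e := by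
    have e1 : (![z 0, z 1, -z 1 * (starRingEnd ℂ) (0 : ℂ)] : V3) = z := by
      ext i
      fin_cases i <;> simp [hz]
    have e2 : E 0 = e := by
      funext i
      rw [hE]
      simp only
      rw [bN1_refl0, h1]
    rw [hg]
    simp only
    rw [e1, e2]
  have hgne : ∀ η : ℂ, η ≠ 0 → g η = 0 := by
    intro η hη
    have e1 : qn ![z 0, z 1, -z 1 * (starRingEnd ℂ) η] ![1, η, 0] = 0 := by
      simp [qn]
    have e2 := h.herm _ _ e1
    have e3 : (fun i => eval ![1, η, 0] (F i)) = (η ^ 6 * (η ^ r)⁻¹) • E η := by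
      funext i
      rw [bN1_inv (h.hom i) hη, Pi.smul_apply, smul_eq_mul, hE]
      simp only
      rw [bN1_refl (h2 i) hη]
      have := pow_ne_zero r hη
      field_simp
    rw [e3, bN1_smulr, mul_eq_zero] at e2
    rcases e2 with e2 | e2
    · exfalso
      rw [map_eq_zero] at e2
      exact (mul_ne_zero (pow_ne_zero 6 hη) (inv_ne_zero (pow_ne_zero r hη))) e2
    · exact e2
  have hgc : Continuous g := by
    have c1 : ∀ i, Continuous fun η : ℂ => eval ![z 0, z 1, -z 1 * (starRingEnd ℂ) η] (F i) := by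
      intro i
      refine (MvPolynomial.continuous_eval (F i)).comp ?_
      refine continuous_pi fun j => ?_
      have : Continuous fun η : ℂ => (starRingEnd ℂ) η := Complex.continuous_conj
      fin_cases j
      · exact continuous_const
      · exact continuous_const
      · exact continuous_const.mul this
    have c2 : ∀ i, Continuous fun η : ℂ => (starRingEnd ℂ) (E η i) := fun i =>
      Complex.continuous_conj.comp (Polynomial.continuous _)
    rw [hg]
    simp only [hf]
    exact (continuous_finsetSum _ fun i _ => (c1 _).mul (c2 _)).sub ((c1 _).mul (c2 _))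
  rw [← hg0]
  have hd : Dense {η : ℂ | η ≠ 0} := dense_compl_singleton (0 : ℂ)
  have hc : IsClosed {η : ℂ | g η = 0} := isClosed_eq hgc continuous_const
  have : (0 : ℂ) ∈ closure {η : ℂ | η ≠ 0} := hd 0
  exact (hc.closure_subset_iff.2 fun η hη => hgne η hη) this

/-- coefficient vectors are in `T` -/
theorem bN1_mem {F : Fin 5 → P3} {e : E5} {r : ℕ}
    (h1 : ∀ i, (r2 (F i)).coeff r = e i) : e ∈ T 2 F := by
  by_contra hcon
  obtain ⟨φ, hφ1, hφ2⟩ := Submodule.exists_le_ker_of_notMem hcon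
  have h2 : ∀ v : E5, φ v = ∑ i, v i * φ (Pi.single i 1) := by
    intro v
    conv_lhs => rw [pi_eq_sum_univ' v]
    rw [map_sum]
    refine Finset.sum_congr rfl fun i _ => ?_
    rw [map_smul, smul_eq_mul]
  have h3 : ∑ i, Polynomial.C (φ (Pi.single i 1)) * r2 (F i) = 0 := by
    apply Polynomial.funext
    intro x
    rw [Polynomial.eval_finsetSum, Polynomial.eval_zero]
    have h4 : (fun i => eval ![x, 1, 0] (F i)) ∈ T 2 F :=
      Submodule.subset_span ⟨![x, 1, 0], by simp, rfl⟩
    have h5 : φ (fun i => eval ![x, 1, 0] (F i)) = 0 := hφ2 h4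
    rw [h2] at h5
    rw [← h5]
    refine Finset.sum_congr rfl fun i _ => ?_
    rw [Polynomial.eval_mul, Polynomial.eval_C, bN1_r2]
    ring
  apply hφ1
  have h4 := congrArg (fun p => Polynomial.coeff p r) h3
  simp only [Polynomial.finsetSum_coeff, Polynomial.coeff_C_mul, Polynomial.coeff_zero] at h4
  rw [h2, ← h4]
  refine Finset.sum_congr rfl fun i _ => ?_
  rw [h1]
  ring

/-- N1: the leading vector -/
theorem null_e {F : Fin 5 → P3} (h : Spec qn 2 F) (hT : Module.finrank ℂ (T 2 F) = 2) :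
    ∃ (e a : E5) (r : ℕ), e ≠ 0 ∧ hf e e = 0 ∧ hf a e = 0 ∧ hf a a = 1 ∧
      T 2 F = Submodule.span ℂ {e, a} ∧ (∀ i, (r2 (F i)).coeff r = e i) ∧
      (∀ i, (r2 (F i)).natDegree ≤ r) := by
  -- not all restrictions vanish
  have hne : ∃ i, r2 (F i) ≠ 0 := by
    by_contra! h0
    have h1 : T 2 F ≤ ⊥ := by
      refine Submodule.span_le.2 ?_
      rintro _ ⟨z, hz, rfl⟩
      rw [SetLike.mem_coe, Submodule.mem_bot]
      funext i
      rw [Pi.zero_apply]
      -- `F i` vanishes on the points `(x, 1, 0)`, and on the points `(x, y, 0)`, `y ≠ 0`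
      set p : Polynomial ℂ := (MvPolynomial.aeval ![Polynomial.C (z 0), Polynomial.X, 0] : P3 →ₐ[ℂ]
        Polynomial ℂ) (F i) with hp
      have h2 : ∀ y : ℂ, p.eval y = eval ![z 0, y, 0] (F i) := by
        intro y
        have : (Polynomial.evalRingHom y).comp (MvPolynomial.aeval
            ![Polynomial.C (z 0), Polynomial.X, 0] : P3 →ₐ[ℂ] Polynomial ℂ).toRingHom =
            (eval ![z 0, y, 0] : P3 →+* ℂ) := by
          apply MvPolynomial.ringHom_ext
          · intro c
            simp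
          · intro i
            fin_cases i <;> simp
        exact RingHom.congr_fun this (F i)
      have h3 : ∀ y : ℂ, y ≠ 0 → p.eval y = 0 := by
        intro y hy
        have h4 : (![z 0, y, 0] : V3) = y • ![z 0 / y, 1, 0] := by
          ext j
          fin_cases j
          · simp; field_simp
          · simp
          · simp
        rw [h2, h4, bN1_hom (h.hom i), ← bN1_r2, h0 i, Polynomial.eval_zero, mul_zero]
      have h5 : p = 0 := by
        apply Polynomial.eq_zero_of_infinite_isRoot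
        refine Set.Infinite.mono (s := {y : ℂ | y ≠ 0}) (fun y hy => h3 y hy) ?_
        exact (Set.finite_singleton (0 : ℂ)).infinite_compl
      have h6 : (![z 0, z 1, 0] : V3) = z := by
        ext j
        fin_cases j <;> simp [hz]
      have := h2 (z 1)
      rw [h5, Polynomial.eval_zero, h6] at this
      exact this.symm
    rw [le_bot_iff] at h1
    rw [h1, finrank_bot] at hT
    omega
  obtain ⟨r, hr1, hr2⟩ : ∃ r : ℕ, (∀ i, (r2 (F i)).natDegree ≤ r) ∧
      ∃ i, (r2 (F i)).coeff r ≠ 0 := by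
    obtain ⟨i1, h1⟩ := hne
    obtain ⟨i0, -, hi0⟩ := Finset.exists_max_image (Finset.univ : Finset (Fin 5))
      (fun i => (r2 (F i)).natDegree) ⟨0, Finset.mem_univ _⟩
    refine ⟨(r2 (F i0)).natDegree, fun i => hi0 i (Finset.mem_univ _), ?_⟩
    by_cases h2 : r2 (F i0) = 0
    · refine ⟨i1, ?_⟩
      have h3 := hi0 i1 (Finset.mem_univ _)
      simp only [h2, Polynomial.natDegree_zero, Nat.le_zero] at h3
      rw [h2, Polynomial.natDegree_zero, ← h3, Polynomial.coeff_natDegree]
      exact Polynomial.leadingCoeff_ne_zero.2 h1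
    · refine ⟨i0, ?_⟩
      rw [Polynomial.coeff_natDegree]
      exact Polynomial.leadingCoeff_ne_zero.2 h2
  set e : E5 := fun i => (r2 (F i)).coeff r with he
  have he' : ∀ i, (r2 (F i)).coeff r = e i := fun i => rfl
  have he0 : e ≠ 0 := by
    obtain ⟨i, hi⟩ := hr2
    intro h1
    exact hi (congrFun h1 i)
  have heT : e ∈ T 2 F := bN1_mem he'
  have hperp : ∀ v ∈ T 2 F, hf v e = 0 := by
    intro v hv
    refine Submodule.span_induction ?_ ?_ ?_ ?_ hv
    · rintro _ ⟨z, hz, rfl⟩
      exact bN1_perp h he' hr1 z hz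
    · simp [hf]
    · intro x y _ _ hx hy
      rw [bN1_addl, hx, hy, add_zero]
    · intro c x _ hx
      rw [bN1_smull, hx, mul_zero]
  have hee := hperp e heT
  -- the second vector
  obtain ⟨a, haT, hac⟩ : ∃ a ∈ T 2 F, ∀ c : ℂ, a ≠ c • e := by
    by_contra! hcon
    have h1 : T 2 F ≤ Submodule.span ℂ {e} := by
      intro v hv
      obtain ⟨c, hc⟩ := hcon v hv
      exact Submodule.mem_span_singleton.2 ⟨c, hc.symm⟩
    have h2 := (Submodule.finrank_mono h1).trans
      ((finrank_span_le_card ({e} : Set E5)).trans (by simp) : _ ≤ 1)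
    omega
  obtain ⟨c, hc0, hc⟩ := bN1_unit he0 hee (hperp a haT) hac
  refine ⟨e, c • a, r, he0, hee, ?_, hc, ?_, he', hr1⟩
  · rw [bN1_smull, hperp a haT, mul_zero]
  · symm
    apply Submodule.eq_of_le_of_finrank_le
    · rw [Submodule.span_le]
      rintro v (rfl | rfl)
      · exact heT
      · exact Submodule.smul_mem _ _ haT
    · rw [hT]
      have h1 : LinearIndependent ℂ ![e, c • a] := by
        rw [LinearIndependent.pair_iff]
        intro s t hst
        have ht : t = 0 := by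
          by_contra ht
          apply hac (-(s * (t * c)⁻¹))
          have h2 : t * c ≠ 0 := mul_ne_zero ht hc0
          have h3 : (t * c) • a = -(s • e) := by
            rw [← smul_smul]
            exact eq_neg_of_add_eq_zero_right hst
          calc a = (t * c)⁻¹ • ((t * c) • a) := by rw [smul_smul, inv_mul_cancel₀ h2, one_smul]
            _ = _ := by rw [h3, smul_neg, smul_smul, neg_smul, mul_comm]
        refine ⟨?_, ht⟩
        rw [ht, zero_smul, add_zero] at hst
        exact (smul_eq_zero.1 hst).resolve_right he0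
      have h2 := finrank_span_eq_card h1
      rw [Matrix.range_cons, Matrix.range_cons, Matrix.range_empty, Set.union_empty,
        Set.singleton_union, Fintype.card_fin] at h2
      exact h2.ge

end Pool.Agent.Lib_helper86.D24

end

section

namespace Pool.Agent.Lib_helper86.D24

open MvPolynomial Matrix


theorem bN2_addl {N : ℕ} (u v w : Fin (N + 1) → ℂ) : hf (u + v) w = hf u w + hf v w := by
  simp only [hf, Pi.add_apply, add_mul, Finset.sum_add_distrib]
  ring

theorem bN2_smull {N : ℕ} (c : ℂ) (u w : Fin (N + 1) → ℂ) : hf (c • u) w = c * hf u w := by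
  simp only [hf, Pi.smul_apply, smul_eq_mul, mul_sub, Finset.mul_sum]
  congr 1
  · exact Finset.sum_congr rfl fun i _ => by ring
  · ring

theorem bN2_conj {N : ℕ} (u v : Fin (N + 1) → ℂ) : (starRingEnd ℂ) (hf u v) = hf v u := by
  simp only [hf, map_sub, map_sum, map_mul, Complex.conj_conj]
  congr 1
  · exact Finset.sum_congr rfl fun i _ => by ring
  · ring

theorem bN2_addr {N : ℕ} (u v w : Fin (N + 1) → ℂ) : hf u (v + w) = hf u v + hf u w := by
  rw [← bN2_conj, bN2_addl, map_add, bN2_conj, bN2_conj]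

theorem bN2_smulr {N : ℕ} (c : ℂ) (u w : Fin (N + 1) → ℂ) : hf u (c • w) = (starRingEnd ℂ) c * hf u w := by
  rw [← bN2_conj, bN2_smull, map_mul, bN2_conj]

theorem bN2_subl {N : ℕ} (u v w : Fin (N + 1) → ℂ) : hf (u - v) w = hf u w - hf v w := by
  rw [sub_eq_add_neg, ← neg_one_smul ℂ v, bN2_addl, bN2_smull]
  ring

theorem bN2_subr {N : ℕ} (u v w : Fin (N + 1) → ℂ) : hf u (v - w) = hf u v - hf u w := by
  rw [← bN2_conj, bN2_subl, map_sub, bN2_conj, bN2_conj]

theorem bN2_symm {N : ℕ} {u v : Fin (N + 1) → ℂ} (h : hf u v = 0) : hf v u = 0 := by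
  rw [← bN2_conj, h, map_zero]

theorem bN2_real {N : ℕ} (u : Fin (N + 1) → ℂ) : hf u u = ((hf u u).re : ℂ) := by
  have := bN2_conj u u
  exact (Complex.conj_eq_iff_re.1 this).symm

/-- nondegenerate -/
theorem bN2_nd {N : ℕ} {e : Fin (N + 1) → ℂ} (he : e ≠ 0) : ∃ v, hf v e ≠ 0 := by
  by_contra! h
  apply he
  funext i
  have h1 := h (Pi.single i 1)
  rcases Fin.eq_zero_or_eq_succ i with rfl | ⟨j, rfl⟩
  · rw [hf, Finset.sum_eq_zero] at h1
    · simpa using h1
    · intro j _
      rw [Pi.single_eq_of_ne (Fin.succ_ne_zero j), zero_mul]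
  · rw [hf, Finset.sum_eq_single j] at h1
    · rw [Pi.single_eq_same, Pi.single_eq_of_ne (Fin.succ_ne_zero j).symm] at h1
      simpa using h1
    · intro k _ hk
      rw [Pi.single_eq_of_ne, zero_mul]
      intro h2
      exact hk (Fin.succ_injective _ h2)
    · simp

/-- normalization of a vector orthogonal to the null vector -/
theorem bN2_unit {e x : E5} (he0 : e ≠ 0) (hee : hf e e = 0) (hx : hf x e = 0)
    (h : ∀ c : ℂ, x ≠ c • e) : ∃ c : ℂ, c ≠ 0 ∧ hf (c • x) (c • x) = 1 := by
  obtain ⟨h1, h2⟩ := null_perp e x hee he0 hx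
  have h3 : 0 < (hf x x).re := by
    refine lt_of_le_of_ne h1 fun h4 => ?_
    obtain ⟨c, hc⟩ := h2 h4.symm
    exact h c hc
  have h5 : Real.sqrt (hf x x).re ≠ 0 := (Real.sqrt_pos.2 h3).ne'
  refine ⟨((Real.sqrt (hf x x).re)⁻¹ : ℝ), ?_, ?_⟩
  · rw [Complex.ofReal_ne_zero]
    exact inv_ne_zero h5
  · rw [bN2_smull, bN2_smulr, Complex.conj_ofReal, bN2_real x, ← Complex.ofReal_mul,
      ← Complex.ofReal_mul, ← Complex.ofReal_one]
    congr 1
    have h6 : Real.sqrt (hf x x).re * Real.sqrt (hf x x).re = (hf x x).re :=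
      Real.mul_self_sqrt h3.le
    rw [Complex.ofReal_re]
    field_simp
    rw [sq, h6]

/-- the vector `e'` -/
theorem bN2_dual {e a x y : E5} (he0 : e ≠ 0) (hee : hf e e = 0) (hae : hf a e = 0)
    (haa : hf a a = 1) (hxe : hf x e = 0) (hye : hf y e = 0) (hxa : hf x a = 0)
    (hya : hf y a = 0) (hxx : hf x x = 1) (hyy : hf y y = 1) (hxy : hf x y = 0) :
    ∃ e' : E5, hf e' e' = 0 ∧ hf e' e = 1 ∧ hf e' a = 0 ∧ hf x e' = 0 ∧ hf y e' = 0 := by
  obtain ⟨v, hv⟩ := bN2_nd he0
  have hea := bN2_symm hae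
  have hax := bN2_symm hxa
  have hay := bN2_symm hya
  have hex := bN2_symm hxe
  have hey := bN2_symm hye
  have hyx := bN2_symm hxy
  obtain ⟨u, hu1, hu2, hu3, hu4⟩ : ∃ u : E5, hf u e = 1 ∧ hf u a = 0 ∧ hf u x = 0 ∧
      hf u y = 0 := by
    refine ⟨(hf v e)⁻¹ • (v - hf v a • a - hf v x • x - hf v y • y), ?_, ?_, ?_, ?_⟩
    · simp only [bN2_smull, bN2_subl, hae, hxe, hye]
      field_simp
      ring
    · simp only [bN2_smull, bN2_subl, haa, hxa, hya]
      ring
    · simp only [bN2_smull, bN2_subl, hax, hxx, hyx]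
      ring
    · simp only [bN2_smull, bN2_subl, hay, hxy, hyy]
      ring
  have hr : (starRingEnd ℂ) (hf u u) = hf u u := bN2_conj u u
  have heu : hf e u = 1 := by rw [← bN2_conj, hu1, map_one]
  refine ⟨u - (hf u u / 2) • e, ?_, ?_, ?_, ?_, ?_⟩
  · simp only [bN2_smull, bN2_subl, bN2_subr, bN2_smulr, hu1, hee, heu, map_div₀, hr]
    have : (starRingEnd ℂ) (2 : ℂ) = 2 := Complex.conj_ofNat 2
    rw [this]
    ring
  · simp only [bN2_smull, bN2_subl, hu1, hee]
    ring
  · simp only [bN2_smull, bN2_subl, hu2, hea]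
    ring
  · apply bN2_symm
    simp only [bN2_smull, bN2_subl, hu3, hex]
    ring
  · apply bN2_symm
    simp only [bN2_smull, bN2_subl, hu4, hey]
    ring

/-- the dimension count -/
theorem bN2_dim (e a x : E5) : ∃ y : E5, hf y e = 0 ∧ hf y a = 0 ∧ hf y x = 0 ∧
    ∀ c : ℂ, y ≠ c • e := by
  let φ : E5 →ₗ[ℂ] (Fin 3 → ℂ) :=
    { toFun := fun y => ![hf y e, hf y a, hf y x]
      map_add' := fun u v => by
        ext i
        fin_cases i <;> simp [bN2_addl]
      map_smul' := fun c u => by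
        ext i
        fin_cases i <;> simp [bN2_smull] }
  by_contra! h
  have h1 : LinearMap.ker φ ≤ Submodule.span ℂ {e} := by
    intro y hy
    have h2 : φ y = 0 := hy
    have h3 : hf y e = 0 := congrFun h2 0
    have h4 : hf y a = 0 := congrFun h2 1
    have h5 : hf y x = 0 := congrFun h2 2
    obtain ⟨c, hc⟩ := h y h3 h4 h5
    exact Submodule.mem_span_singleton.2 ⟨c, hc.symm⟩
  have h2 := LinearMap.finrank_range_add_finrank_ker φ
  have h3 : Module.finrank ℂ (LinearMap.range φ) ≤ 3 := by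
    refine (Submodule.finrank_le _).trans ?_
    simp
  have h4 : Module.finrank ℂ (LinearMap.ker φ) ≤ 1 :=
    (Submodule.finrank_mono h1).trans ((finrank_span_le_card ({e} : Set E5)).trans (by simp))
  have h5 : Module.finrank ℂ E5 = 5 := by simp
  omega

/-- N2 (uses G2): the frame in the null case -/
theorem null_frame (e a e1 e2 : E5) (he0 : e ≠ 0) (hee : hf e e = 0) (hae : hf a e = 0)
    (haa : hf a a = 1) (hi : LinearIndependent ℂ ![e1, e2]) (h1e : hf e1 e = 0)
    (h2e : hf e2 e = 0) (h1a : hf e1 a = 0) (h2a : hf e2 a = 0) :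
    ∃ (e' : E5) (x : Fin 2 → E5), hf e' e' = 0 ∧ hf e' e = 1 ∧ hf e' a = 0 ∧
      (∀ i, hf (x i) e = 0) ∧ (∀ i, hf (x i) e' = 0) ∧ (∀ i, hf (x i) a = 0) ∧
      (∀ i j, hf (x i) (x j) = if i = j then 1 else 0) ∧
      x 0 ∈ Submodule.span ℂ {e1, e2} ∧
      (x 1 ∈ Submodule.span ℂ {e1, e2} ∨ e ∈ Submodule.span ℂ {e1, e2}) := by
  -- it suffices to find the two vectors `x`, `y`
  suffices H : ∃ x y : E5, hf x e = 0 ∧ hf y e = 0 ∧ hf x a = 0 ∧ hf y a = 0 ∧ hf x x = 1 ∧
      hf y y = 1 ∧ hf x y = 0 ∧ x ∈ Submodule.span ℂ {e1, e2} ∧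
      (y ∈ Submodule.span ℂ {e1, e2} ∨ e ∈ Submodule.span ℂ {e1, e2}) by
    obtain ⟨x, y, k1, k2, k3, k4, k5, k6, k7, k8, k9⟩ := H
    obtain ⟨e', m1, m2, m3, m4, m5⟩ := bN2_dual he0 hee hae haa k1 k2 k3 k4 k5 k6 k7
    refine ⟨e', ![x, y], m1, m2, m3, ?_, ?_, ?_, ?_, k8, k9⟩
    · intro i
      fin_cases i
      exacts [k1, k2]
    · intro i
      fin_cases i
      exacts [m4, m5]
    · intro i
      fin_cases i
      exacts [k3, k4]
    · intro i j
      have k10 := bN2_symm k7
      fin_cases i <;> fin_cases j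
      · exact k5
      · exact k7
      · exact k10
      · exact k6
  have hi' := LinearIndependent.pair_iff.1 hi
  have m1 : e1 ∈ Submodule.span ℂ {e1, e2} := Submodule.subset_span (by simp)
  have m2 : e2 ∈ Submodule.span ℂ {e1, e2} := Submodule.subset_span (by simp)
  by_cases hE : e ∈ Submodule.span ℂ {e1, e2}
  · -- a vector of the span which is not a multiple of `e`
    obtain ⟨u, hu, hue, hua, huc⟩ : ∃ u ∈ Submodule.span ℂ {e1, e2}, hf u e = 0 ∧ hf u a = 0 ∧
        ∀ c : ℂ, u ≠ c • e := by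
      by_cases h1 : ∃ c : ℂ, e1 = c • e
      · by_cases h2 : ∃ c : ℂ, e2 = c • e
        · exfalso
          obtain ⟨c, hc⟩ := h1
          obtain ⟨d, hd⟩ := h2
          have h3 := hi' d (-c) (by rw [hc, hd, smul_smul, smul_smul, ← add_smul]; simp [mul_comm])
          have hc0 : c = 0 := by simpa using h3.2
          have h4 := hi' 1 0 (by rw [hc, hc0]; simp)
          exact one_ne_zero h4.1
        · push Not at h2
          exact ⟨e2, m2, h2e, h2a, h2⟩
      · push Not at h1
        exact ⟨e1, m1, h1e, h1a, h1⟩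
    obtain ⟨c, hc0, hc⟩ := bN2_unit he0 hee hue huc
    obtain ⟨y, hy1, hy2, hy3, hy4⟩ := bN2_dim e a (c • u)
    obtain ⟨d, hd0, hd⟩ := bN2_unit he0 hee hy1 hy4
    refine ⟨c • u, d • y, ?_, ?_, ?_, ?_, hc, hd, ?_, Submodule.smul_mem _ _ hu, Or.inr hE⟩
    · rw [bN2_smull, hue, mul_zero]
    · rw [bN2_smull, hy1, mul_zero]
    · rw [bN2_smull, hua, mul_zero]
    · rw [bN2_smull, hy2, mul_zero]
    · apply bN2_symm
      rw [bN2_smull, hy3, mul_zero]
  · -- Gram-Schmidt
    have hnm : ∀ v ∈ Submodule.span ℂ {e1, e2}, v ≠ 0 → ∀ c : ℂ, v ≠ c • e := by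
      intro v hv hv0 c hc
      apply hE
      have hc0 : c ≠ 0 := by
        rintro rfl
        rw [zero_smul] at hc
        exact hv0 hc
      have : e = c⁻¹ • v := by rw [hc, smul_smul, inv_mul_cancel₀ hc0, one_smul]
      rw [this]
      exact Submodule.smul_mem _ _ hv
    have he1 : e1 ≠ 0 := by
      intro h
      have := hi' 1 0 (by rw [h]; simp)
      exact one_ne_zero this.1
    obtain ⟨c, hc0, hc⟩ := bN2_unit he0 hee h1e (hnm e1 m1 he1)
    set x : E5 := c • e1 with hx
    have hxm : x ∈ Submodule.span ℂ {e1, e2} := Submodule.smul_mem _ _ m1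
    have hxe : hf x e = 0 := by rw [hx, bN2_smull, h1e, mul_zero]
    have hxa : hf x a = 0 := by rw [hx, bN2_smull, h1a, mul_zero]
    set y : E5 := e2 - hf e2 x • x with hy
    have hym : y ∈ Submodule.span ℂ {e1, e2} :=
      Submodule.sub_mem _ m2 (Submodule.smul_mem _ _ hxm)
    have hy0 : y ≠ 0 := by
      intro h
      have := hi' (-(hf e2 x * c)) 1 (by
        rw [one_smul, neg_smul, ← smul_smul, ← hx, neg_add_eq_sub]
        exact h)
      exact one_ne_zero this.2
    have hye : hf y e = 0 := by rw [hy, bN2_subl, bN2_smull, h2e, hxe]; ring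
    have hya : hf y a = 0 := by rw [hy, bN2_subl, bN2_smull, h2a, hxa]; ring
    have hyx : hf y x = 0 := by rw [hy, bN2_subl, bN2_smull, hc]; ring
    obtain ⟨d, hd0, hd⟩ := bN2_unit he0 hee hye (hnm y hym hy0)
    refine ⟨x, d • y, hxe, ?_, hxa, ?_, hc, hd, ?_, hxm, Or.inl (Submodule.smul_mem _ _ hym)⟩
    · rw [bN2_smull, hye, mul_zero]
    · rw [bN2_smull, hya, mul_zero]
    · apply bN2_symm
      rw [bN2_smull, hyx, mul_zero]

end Pool.Agent.Lib_helper86.D24

end

section

namespace Pool.Agent.Lib_helper86.D24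

open MvPolynomial Matrix


private theorem bN3_hf_conj (u v : E5) : (starRingEnd ℂ) (hf u v) = hf v u := by
  simp only [hf, map_sub, map_sum, map_mul, Complex.conj_conj]
  congr 1
  · exact Finset.sum_congr rfl fun i _ => mul_comm _ _
  · exact mul_comm _ _

private theorem bN3_hf_add (u v w : E5) : hf (u + v) w = hf u w + hf v w := by
  simp only [hf, Pi.add_apply, add_mul, Finset.sum_add_distrib]
  ring

private theorem bN3_hf_smul (c : ℂ) (u w : E5) : hf (c • u) w = c * hf u w := by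
  simp only [hf, Pi.smul_apply, smul_eq_mul, mul_assoc, ← Finset.mul_sum]
  ring

private theorem bN3_hf_zero (w : E5) : hf (0 : E5) w = 0 := by
  simp [hf]

private theorem bN3_hf_sum {ι : Type*} (s : Finset ι) (c : ι → ℂ) (u : ι → E5) (w : E5) :
    hf (∑ i ∈ s, c i • u i) w = ∑ i ∈ s, c i * hf (u i) w := by
  classical
  induction s using Finset.induction_on with
  | empty => simp [bN3_hf_zero]
  | insert a s ha ih =>
    rw [Finset.sum_insert ha, Finset.sum_insert ha, bN3_hf_add, bN3_hf_smul, ih]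

private theorem bN3_hf_eq (u v : E5) : hf u v = ∑ i, u i * (sg i * (starRingEnd ℂ) (v i)) := by
  rw [Fin.sum_univ_succ]
  simp only [hf, sg, Fin.succ_ne_zero, if_true, if_false]
  rw [show (∑ i : Fin 4, u i.succ * (1 * (starRingEnd ℂ) (v i.succ))) =
    ∑ i : Fin 4, u i.succ * (starRingEnd ℂ) (v i.succ) from Finset.sum_congr rfl fun i _ => by ring]
  ring

private theorem bN3_eval_pf (F : Fin 5 → P3) (e : E5) (z : V3) :
    eval z (pf F e) = hf (fun i => eval z (F i)) e := by
  rw [bN3_hf_eq]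
  simp only [pf, map_sum, map_mul, eval_C]
  exact Finset.sum_congr rfl fun i _ => by ring

private theorem bN3_hom (F : Fin 5 → P3) (hF : ∀ i, (F i).IsHomogeneous 6) (e : E5) :
    (pf F e).IsHomogeneous 6 := by
  unfold pf
  refine IsHomogeneous.sum _ _ _ fun i _ => ?_
  simpa using (isHomogeneous_C (Fin 3) (sg i * (starRingEnd ℂ) (e i))).mul (hF i)

private theorem bN3_X2_dvd (P : P3) (h : ∀ z : V3, z 2 = 0 → eval z P = 0) :
    (X 2 : P3) ∣ P := by
  have h1 : ∀ Q : P3, (X 2 : P3) ∣ Q - aeval ![(X 0 : P3), X 1, 0] Q := by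
    intro Q
    induction Q using MvPolynomial.induction_on with
    | C a => simp
    | add p q hp hq =>
      have := dvd_add hp hq
      convert this using 1
      simp only [map_add]; ring
    | mul_X p i hp =>
      have h3 : (X 2 : P3) ∣ X i - aeval ![(X 0 : P3), X 1, 0] (X i : P3) := by
        fin_cases i <;> simp
      have : p * X i - aeval ![(X 0 : P3), X 1, 0] (p * X i) =
          (p - aeval ![(X 0 : P3), X 1, 0] p) * X i +
          aeval ![(X 0 : P3), X 1, 0] p * (X i - aeval ![(X 0 : P3), X 1, 0] (X i : P3)) := by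
        rw [map_mul]; ring
      rw [this]
      exact dvd_add (Dvd.dvd.mul_right hp _) (Dvd.dvd.mul_left h3 _)
  have h2 : aeval ![(X 0 : P3), X 1, 0] P = 0 := by
    apply MvPolynomial.funext
    intro z
    have h3 := h ![z 0, z 1, 0] (by simp)
    rw [map_zero, ← h3]
    have h4 : (aeval z : P3 →ₐ[ℂ] ℂ).comp (aeval ![(X 0 : P3), X 1, 0]) =
        (aeval ![z 0, z 1, 0] : P3 →ₐ[ℂ] ℂ) := by
      apply MvPolynomial.algHom_ext
      intro i
      fin_cases i <;> simp
    have h5 : aeval z (aeval ![(X 0 : P3), X 1, 0] P) = aeval ![z 0, z 1, 0] P := by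
      rw [← h4]; rfl
    exact h5
  have := h1 P
  rwa [h2, sub_zero] at this

private theorem bN3_eval_r2 (P : P3) (x : ℂ) : (r2 P).eval x = eval ![x, 1, 0] P := by
  have h4 : (Polynomial.aeval x : Polynomial ℂ →ₐ[ℂ] ℂ).comp r2 =
      (aeval ![x, 1, 0] : P3 →ₐ[ℂ] ℂ) := by
    apply MvPolynomial.algHom_ext
    intro i
    fin_cases i <;> simp [r2]
  have h5 : Polynomial.aeval x (r2 P) = aeval ![x, 1, 0] P := by
    rw [← h4]; rfl
  exact h5

private theorem bN3_eval_hom {P : P3} {n : ℕ} (hP : P.IsHomogeneous n) (c : ℂ) (z : V3) :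
    eval (c • z) P = c ^ n * eval z P := by
  rw [MvPolynomial.eval_eq', MvPolynomial.eval_eq', Finset.mul_sum]
  refine Finset.sum_congr rfl fun d hd => ?_
  have h1 : ∑ i, d i = n := by
    have := hP (MvPolynomial.mem_support_iff.mp hd)
    rw [← this, Finsupp.weight_apply, Finsupp.sum_fintype _ _ (by simp)]
    simp
  simp only [Pi.smul_apply, smul_eq_mul, mul_pow, Finset.prod_mul_distrib, Finset.prod_pow_eq_pow_sum,
    h1]
  ring

/-- a form whose restriction `r2` vanishes is divisible by `X 2` -/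
private theorem bN3_r2_zero {P : P3} {n : ℕ} (hP : P.IsHomogeneous n) (h : r2 P = 0) :
    (X 2 : P3) ∣ P := by
  have h1 : (X 2 : P3) ∣ X 1 * P := by
    apply bN3_X2_dvd
    intro z hz
    rw [map_mul, eval_X]
    by_cases h1 : z 1 = 0
    · rw [h1, zero_mul]
    · have h2 : z = z 1 • ![z 0 / z 1, 1, 0] := by
        funext i
        fin_cases i
        · simp; field_simp
        · simp
        · simp [hz]
      have h3 : eval z P = 0 := by
        rw [h2, bN3_eval_hom hP, ← bN3_eval_r2, h]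
        simp
      rw [h3, mul_zero]
  have hp : Prime (X 2 : P3) := MvPolynomial.X_prime
  rcases hp.dvd_or_dvd h1 with h2 | h2
  · exfalso
    have := map_dvd (eval ![0, 1, 0] : P3 →+* ℂ) h2
    simp at this
  · exact h2

/-- the pairing with the elements of `T` -/
private theorem bN3_perp_dvd {F : Fin 5 → P3} {e : E5} (h : ∀ t ∈ T 2 F, hf t e = 0) :
    (X 2 : P3) ∣ pf F e := by
  apply bN3_X2_dvd
  intro z hz
  rw [bN3_eval_pf]
  exact h _ (Submodule.subset_span ⟨z, hz, rfl⟩)

private theorem bN3_dvd_perp {F : Fin 5 → P3} {e : E5} (h : (X 2 : P3) ∣ pf F e) (t : E5)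
    (ht : t ∈ T 2 F) : hf t e = 0 := by
  induction ht using Submodule.span_induction with
  | mem x hx =>
    obtain ⟨z, hz, rfl⟩ := hx
    rw [← bN3_eval_pf]
    obtain ⟨q, hq⟩ := h
    rw [hq, map_mul, eval_X, hz, zero_mul]
  | zero => exact bN3_hf_zero e
  | add x y _ _ hx hy => rw [bN3_hf_add, hx, hy, add_zero]
  | smul c x _ hx => rw [bN3_hf_smul, hx, mul_zero]

private theorem bN3_pf_add (F : Fin 5 → P3) (u v : E5) : pf F (u + v) = pf F u + pf F v := by
  unfold pf
  rw [← Finset.sum_add_distrib]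
  refine Finset.sum_congr rfl fun i _ => ?_
  rw [Pi.add_apply, map_add, mul_add, C_add, add_mul]

private theorem bN3_pf_smul (F : Fin 5 → P3) (c : ℂ) (u : E5) :
    pf F (c • u) = C ((starRingEnd ℂ) c) * pf F u := by
  unfold pf
  rw [Finset.mul_sum]
  refine Finset.sum_congr rfl fun i _ => ?_
  rw [Pi.smul_apply, smul_eq_mul, ← mul_assoc, ← C_mul,
    show sg i * (starRingEnd ℂ) (c * u i) = (starRingEnd ℂ) c * (sg i * (starRingEnd ℂ) (u i)) by rw [map_mul]; ring]

private theorem bN3_span_dvd {F : Fin 5 → P3} {e1 e2 : E5} {P : P3} (h1 : P ∣ pf F e1)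
    (h2 : P ∣ pf F e2) {x : E5} (hx : x ∈ Submodule.span ℂ {e1, e2}) : P ∣ pf F x := by
  obtain ⟨α, β, rfl⟩ := Submodule.mem_span_pair.mp hx
  rw [bN3_pf_add, bN3_pf_smul, bN3_pf_smul]
  exact dvd_add (Dvd.dvd.mul_left h1 _) (Dvd.dvd.mul_left h2 _)

/-- the expansion in the frame -/
private theorem bN3_expand {e a e' : E5} {x : Fin 2 → E5} (hee : hf e e = 0) (hae : hf a e = 0)
    (haa : hf a a = 1) (hpp : hf e' e' = 0) (hpe : hf e' e = 1) (hpa : hf e' a = 0)
    (hxe : ∀ i, hf (x i) e = 0) (hxp : ∀ i, hf (x i) e' = 0) (hxa : ∀ i, hf (x i) a = 0)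
    (hxx : ∀ i j, hf (x i) (x j) = if i = j then 1 else 0) (u : E5) :
    u = hf u e' • e + hf u e • e' + hf u a • a + ∑ i, hf u (x i) • x i := by
  have hep : hf e e' = 1 := by rw [← bN3_hf_conj, hpe, map_one]
  have hea : hf e a = 0 := by rw [← bN3_hf_conj, hae, map_zero]
  have hap : hf a e' = 0 := by rw [← bN3_hf_conj, hpa, map_zero]
  have hex : ∀ i, hf e (x i) = 0 := fun i => by rw [← bN3_hf_conj, hxe, map_zero]
  have hpx : ∀ i, hf e' (x i) = 0 := fun i => by rw [← bN3_hf_conj, hxp, map_zero]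
  have hax : ∀ i, hf a (x i) = 0 := fun i => by rw [← bN3_hf_conj, hxa, map_zero]
  set w : Fin 5 → E5 := ![e, e', a, x 0, x 1] with hw
  set w' : Fin 5 → E5 := ![e', e, a, x 0, x 1] with hw'
  have hg : ∀ i j, hf (w i) (w' j) = if i = j then 1 else 0 := by
    intro i j
    fin_cases i <;> fin_cases j <;>
      simp [hw, hw', hee, hae, haa, hpp, hpe, hpa, hxe, hxp, hxa, hxx, hep, hea, hap, hex, hpx, hax]
  have hco : ∀ (c : Fin 5 → ℂ) j, hf (∑ i, c i • w i) (w' j) = c j := by
    intro c j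
    rw [bN3_hf_sum]
    simp [hg]
  have hli : LinearIndependent ℂ w := by
    rw [Fintype.linearIndependent_iff]
    intro c hc j
    rw [← hco c j, hc, bN3_hf_zero]
  have htop : Submodule.span ℂ (Set.range w) = ⊤ :=
    hli.span_eq_top_of_card_eq_finrank (by simp)
  have hu : u ∈ Submodule.span ℂ (Set.range w) := by rw [htop]; trivial
  obtain ⟨c, hc⟩ := (Submodule.mem_span_range_iff_exists_fun ℂ).mp hu
  have hc' : ∀ j, hf u (w' j) = c j := fun j => by rw [← hc]; exact hco c j
  have h0 : hf u e' = c 0 := hc' 0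
  have h1 : hf u e = c 1 := hc' 1
  have h2 : hf u a = c 2 := hc' 2
  have h3 : hf u (x 0) = c 3 := hc' 3
  have h4 : hf u (x 1) = c 4 := hc' 4
  rw [Fin.sum_univ_two, h0, h1, h2, h3, h4, ← hc]
  simp only [Fin.sum_univ_succ, hw]
  simp
  abel

/-- N3 (uses TL, TG2, N1, N2, FC, WF2) -/
theorem exists_ND {F : Fin 5 → P3} (h : Spec qn 2 F) : ∃ Fe Fa Fo F', ND Fe Fa Fo F' := by
  have hT : Module.finrank ℂ (T 2 F) = 2 :=
    le_antisymm (T_le h.hom 2 (Or.inr rfl) h.flat) (T_ge2 h)
  obtain ⟨e, a, r, he0, hee, hae, haa, hTs, hce, hdr⟩ := null_e h hT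
  obtain ⟨e1, e2, hi, hd1, hd2⟩ := h.dv
  have hX : (X 2 : P3) ∣ X 2 ^ 3 := dvd_pow_self _ (by norm_num)
  have heT : e ∈ T 2 F := by rw [hTs]; exact Submodule.subset_span (by simp)
  have haT : a ∈ T 2 F := by rw [hTs]; exact Submodule.subset_span (by simp)
  have hp1 := bN3_dvd_perp (hX.trans hd1)
  have hp2 := bN3_dvd_perp (hX.trans hd2)
  have hsw : ∀ u v : E5, hf u v = 0 → hf v u = 0 := fun u v huv => by
    rw [← bN3_hf_conj, huv, map_zero]
  obtain ⟨e', x, hpp, hpe, hpa, hxe, hxp, hxa, hxx, hx0, hx1⟩ :=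
    null_frame e a e1 e2 he0 hee hae haa hi (hsw _ _ (hp1 e heT)) (hsw _ _ (hp2 e heT))
      (hsw _ _ (hp1 a haT)) (hsw _ _ (hp2 a haT))
  have hpT : ∀ v : E5, hf e v = 0 → hf a v = 0 → (X 2 : P3) ∣ pf F v := by
    intro v h1 h2
    apply bN3_perp_dvd
    intro t ht
    rw [hTs] at ht
    obtain ⟨α, β, rfl⟩ := Submodule.mem_span_pair.mp ht
    rw [bN3_hf_add, bN3_hf_smul, bN3_hf_smul, h1, h2]
    ring
  have hrc : ∀ v : E5, (r2 (pf F v)).coeff r = hf e v := by
    intro v
    have : r2 (pf F v) = ∑ i, Polynomial.C (sg i * (starRingEnd ℂ) (v i)) * r2 (F i) := by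
      unfold pf
      rw [map_sum]
      refine Finset.sum_congr rfl fun i _ => ?_
      rw [map_mul]
      congr 1
      simp [r2]
    rw [this, Polynomial.finsetSum_coeff, bN3_hf_eq]
    refine Finset.sum_congr rfl fun i _ => ?_
    rw [Polynomial.coeff_C_mul, hce, mul_comm]
  have hrd : ∀ v : E5, (r2 (pf F v)).natDegree ≤ r := by
    intro v
    have : r2 (pf F v) = ∑ i, Polynomial.C (sg i * (starRingEnd ℂ) (v i)) * r2 (F i) := by
      unfold pf
      rw [map_sum]
      refine Finset.sum_congr rfl fun i _ => ?_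
      rw [map_mul]
      congr 1
      simp [r2]
    rw [this]
    refine Polynomial.natDegree_sum_le_of_forall_le _ _ fun i _ => ?_
    exact (Polynomial.natDegree_C_mul_le _ _).trans (hdr i)
  have hfa0 : r2 (pf F a) ≠ 0 := by
    intro h0
    have := bN3_dvd_perp (bN3_r2_zero (bN3_hom F h.hom a) h0) a haT
    rw [haa] at this
    exact one_ne_zero this
  have hwr : ∀ v b, pf F v = X 2 * b →
      2 * wr (r2 (pf F e')) (r2 (pf F a)) * Polynomial.derivative (r2 b) =
      Polynomial.derivative (wr (r2 (pf F e')) (r2 (pf F a))) * r2 b := by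
    intro v b hb
    apply wr_rel2
    intro z u hz
    have := flat_comb z u (fun s => h.flat z u s hz)
      ![fun i => sg i * (starRingEnd ℂ) (e' i), fun i => sg i * (starRingEnd ℂ) (a i), fun i => sg i * (starRingEnd ℂ) (v i)]
    rw [← this]
    congr 1
    funext k c
    congr 2
    fin_cases c
    · rfl
    · rfl
    · exact hb.symm
  refine ⟨pf F e', pf F a, pf F e, fun i => pf F (x i), ?_⟩
  refine
    { home := bN3_hom F h.hom e'
      homa := bN3_hom F h.hom a
      homo := bN3_hom F h.hom e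
      homF := fun i => bN3_hom F h.hom (x i)
      herm := ?_
      dFo := hpT e hee hae
      dF0 := bN3_span_dvd hd1 hd2 hx0
      dF1 := hpT (x 1) (hsw _ _ (hxe 1)) (hsw _ _ (hxa 1))
      alt := hx1.imp (bN3_span_dvd hd1 hd2) (bN3_span_dvd hd1 hd2)
      deg := ?_
      fa0 := hfa0
      indF := ?_
      wro := hwr e
      wr1 := hwr (x 1) }
  · intro z w hzw
    have h1 := h.herm z w hzw
    simp only [bN3_eval_pf]
    have h2 := bN3_expand hee hae haa hpp hpe hpa hxe hxp hxa hxx (fun i => eval z (F i))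
    set u : E5 := fun i => eval z (F i) with hu
    set v : E5 := fun i => eval w (F i) with hv
    rw [h2, bN3_hf_add, bN3_hf_add, bN3_hf_add, bN3_hf_smul, bN3_hf_smul, bN3_hf_smul,
      bN3_hf_sum] at h1
    simp only [bN3_hf_conj]
    exact h1
  · have h1 : (r2 (pf F e')).natDegree = r := by
      refine le_antisymm (hrd e') (Polynomial.le_natDegree_of_ne_zero ?_)
      rw [hrc, ← bN3_hf_conj, hpe, map_one]
      exact one_ne_zero
    rw [h1]
    refine lt_of_le_of_ne (hrd a) fun h2 => hfa0 ?_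
    rw [← Polynomial.leadingCoeff_eq_zero, Polynomial.leadingCoeff, h2, hrc, hsw _ _ hae]
  · rw [Fintype.linearIndependent_iff]
    intro α hα
    have h1 : pf F (∑ i, (starRingEnd ℂ) (α i) • x i) = 0 := by
      rw [Fin.sum_univ_two, bN3_pf_add, bN3_pf_smul, bN3_pf_smul, Complex.conj_conj,
        Complex.conj_conj, ← hα, Fin.sum_univ_two, MvPolynomial.smul_eq_C_mul,
        MvPolynomial.smul_eq_C_mul]
    have h2 : (∑ i, (starRingEnd ℂ) (α i) • x i : E5) = 0 := by
      have h3 := Fintype.linearIndependent_iff.mp h.ind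
        (fun i => sg i * (starRingEnd ℂ) ((∑ j, (starRingEnd ℂ) (α j) • x j : E5) i)) (by
          rw [← h1]
          unfold pf
          exact Finset.sum_congr rfl fun i _ => by rw [MvPolynomial.smul_eq_C_mul])
      funext i
      have h4 := h3 i
      simp only [mul_eq_zero] at h4
      rcases h4 with h4 | h4
      · exfalso
        unfold sg at h4
        split_ifs at h4 <;> norm_num at h4
      · rw [← Complex.conj_conj ((∑ j, (starRingEnd ℂ) (α j) • x j : E5) i), h4, map_zero]; rfl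
    intro j
    have h3 : hf (∑ i, (starRingEnd ℂ) (α i) • x i : E5) (x j) = (starRingEnd ℂ) (α j) := by
      rw [bN3_hf_sum]
      simp [hxx]
    rw [h2, bN3_hf_zero] at h3
    rw [← Complex.conj_conj (α j), ← h3, map_zero]

end Pool.Agent.Lib_helper86.D24

end

section

namespace Pool.Agent.Lib_helper86.D24

open MvPolynomial Matrix


private theorem bN4_eval_hom {P : P3} {n : ℕ} (hP : P.IsHomogeneous n) (c : ℂ) (z : V3) :
    eval (c • z) P = c ^ n * eval z P := by
  rw [MvPolynomial.eval_eq', MvPolynomial.eval_eq', Finset.mul_sum]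
  refine Finset.sum_congr rfl fun d hd => ?_
  have h1 : ∑ i, d i = n := by
    have := hP (MvPolynomial.mem_support_iff.mp hd)
    rw [← this, Finsupp.weight_apply, Finsupp.sum_fintype _ _ (by simp)]
    simp
  simp only [Pi.smul_apply, smul_eq_mul, mul_pow, Finset.prod_mul_distrib, Finset.prod_pow_eq_pow_sum,
    h1]
  ring

private theorem bN4_eval_r2 (P : P3) (x : ℂ) : (r2 P).eval x = eval ![x, 1, 0] P := by
  have h4 : (Polynomial.aeval x : Polynomial ℂ →ₐ[ℂ] ℂ).comp r2 =
      (aeval ![x, 1, 0] : P3 →ₐ[ℂ] ℂ) := by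
    apply MvPolynomial.algHom_ext
    intro i
    fin_cases i <;> simp [r2]
  have h5 : Polynomial.aeval x (r2 P) = aeval ![x, 1, 0] P := by
    rw [← h4]; rfl
  exact h5

private theorem bN4_eval_tln (P : P3) (w : V3) :
    eval w (tln P) = (starRingEnd ℂ) (eval ![(starRingEnd ℂ) (w 2), (starRingEnd ℂ) (w 1), (starRingEnd ℂ) (w 0)] P) := by
  induction P using MvPolynomial.induction_on with
  | C a => simp [tln]
  | add p q hp hq =>
    have : tln (p + q) = tln p + tln q := by simp [tln]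
    rw [this, map_add, hp, hq, map_add, map_add]
  | mul_X p i hp =>
    have : tln (p * X i) = tln p * tln (X i) := by simp only [tln, map_mul]
    rw [this, map_mul, hp, map_mul, map_mul]
    congr 1
    fin_cases i <;> simp [tln]

private theorem bN4_hom_tln {P : P3} {n : ℕ} (hP : P.IsHomogeneous n) :
    (tln P).IsHomogeneous n := by
  have h1 := (hP.map (starRingEnd ℂ)).aeval (S := ℂ) (g := ![(X 2 : P3), X 1, X 0]) (n := 1)
    (by intro i; fin_cases i <;> exact isHomogeneous_X _ _)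
  simpa [tln] using h1

private theorem bN4_X2_dvd (P : P3) (h : ∀ z : V3, z 2 = 0 → eval z P = 0) :
    (X 2 : P3) ∣ P := by
  have h1 : ∀ Q : P3, (X 2 : P3) ∣ Q - aeval ![(X 0 : P3), X 1, 0] Q := by
    intro Q
    induction Q using MvPolynomial.induction_on with
    | C a => simp
    | add p q hp hq =>
      have := dvd_add hp hq
      convert this using 1
      simp only [map_add]; ring
    | mul_X p i hp =>
      have h3 : (X 2 : P3) ∣ X i - aeval ![(X 0 : P3), X 1, 0] (X i : P3) := by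
        fin_cases i <;> simp
      have : p * X i - aeval ![(X 0 : P3), X 1, 0] (p * X i) =
          (p - aeval ![(X 0 : P3), X 1, 0] p) * X i +
          aeval ![(X 0 : P3), X 1, 0] p * (X i - aeval ![(X 0 : P3), X 1, 0] (X i : P3)) := by
        rw [map_mul]; ring
      rw [this]
      exact dvd_add (Dvd.dvd.mul_right hp _) (Dvd.dvd.mul_left h3 _)
  have h2 : aeval ![(X 0 : P3), X 1, 0] P = 0 := by
    apply MvPolynomial.funext
    intro z
    have h3 := h ![z 0, z 1, 0] (by simp)
    rw [map_zero, ← h3]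
    have h4 : (aeval z : P3 →ₐ[ℂ] ℂ).comp (aeval ![(X 0 : P3), X 1, 0]) =
        (aeval ![z 0, z 1, 0] : P3 →ₐ[ℂ] ℂ) := by
      apply MvPolynomial.algHom_ext
      intro i
      fin_cases i <;> simp
    have h5 : aeval z (aeval ![(X 0 : P3), X 1, 0] P) = aeval ![z 0, z 1, 0] P := by
      rw [← h4]; rfl
    exact h5
  have := h1 P
  rwa [h2, sub_zero] at this

private theorem bN4_eval_hgn {r : ℕ} {g : Polynomial ℂ} (hg : g.natDegree ≤ r) {w : V3}
    (hw : w 0 ≠ 0) : eval w (hgn r g) = w 0 ^ r * g.eval (-(w 1) / w 0) := by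
  unfold hgn
  simp only [map_sum, map_mul, eval_C, map_pow, eval_X, map_neg]
  rw [Polynomial.eval_eq_sum_range' (Nat.lt_succ_of_le hg), Finset.mul_sum]
  refine Finset.sum_congr rfl fun i hi => ?_
  have hi' : i ≤ r := Nat.lt_succ_iff.mp (Finset.mem_range.mp hi)
  have h1 : w 0 ^ r = w 0 ^ (r - i) * w 0 ^ i := by rw [← pow_add]; congr 1; omega
  rw [h1, div_pow]
  field_simp

private theorem bN4_hom_hgn (r : ℕ) (g : Polynomial ℂ) : (hgn r g).IsHomogeneous r := by
  unfold hgn
  refine IsHomogeneous.sum _ _ _ fun i hi => ?_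
  have hi' : i ≤ r := Nat.lt_succ_iff.mp (Finset.mem_range.mp hi)
  have h1 : ((X 0 : P3) ^ (r - i)).IsHomogeneous (r - i) := by
    simpa using (isHomogeneous_X ℂ (0 : Fin 3)).pow (r - i)
  have h2 : ((-X 1 : P3) ^ i).IsHomogeneous i := by
    simpa using ((isHomogeneous_X ℂ (1 : Fin 3)).neg).pow i
  have h3 := ((isHomogeneous_C (Fin 3) (g.coeff i)).mul h1).mul h2
  convert h3 using 1
  omega

/-- equality of polynomials from equality for `w 0 ≠ 0` -/
private theorem bN4_ext {P Q : P3} (h : ∀ w : V3, w 0 ≠ 0 → eval w P = eval w Q) : P = Q := by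
  have h1 : X 0 * P = X 0 * Q := by
    apply MvPolynomial.funext
    intro w
    rw [map_mul, map_mul, eval_X]
    by_cases hw : w 0 = 0
    · rw [hw, zero_mul, zero_mul]
    · rw [h w hw]
  exact mul_left_cancel₀ (X_ne_zero _) h1

private theorem bN4_dvd {p a b : P3} (hp : Prime p) (ha : ¬ p ∣ a) (N : ℕ)
    (h : a ∣ p ^ N * b) : a ∣ b := by
  induction N with
  | zero => simpa using h
  | succ n ih =>
    apply ih
    obtain ⟨q, hq⟩ := h
    have h1 : p ∣ a * q := by
      rw [← hq, pow_succ']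
      exact ⟨p ^ n * b, by ring⟩
    obtain ⟨q', hq'⟩ := (hp.dvd_or_dvd h1).resolve_left ha
    refine ⟨q', mul_left_cancel₀ hp.ne_zero ?_⟩
    rw [hq'] at hq
    rw [← mul_assoc, ← pow_succ', hq]
    ring

private theorem bN4_natDegree_r2 {P : P3} {n : ℕ} (hP : P.IsHomogeneous n) :
    (r2 P).natDegree ≤ n := by
  have h1 : ∀ d ∈ P.support, (r2 (monomial d (coeff d P))).natDegree ≤ n := by
    intro d hd
    have h2 : d 0 + (d 1 + d 2) = n := by
      have := hP (MvPolynomial.mem_support_iff.mp hd)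
      rw [← this, Finsupp.weight_apply, Finsupp.sum_fintype _ _ (by simp)]
      simp [Fin.sum_univ_succ]
    have h3 : r2 (monomial d (coeff d P)) =
        Polynomial.C (coeff d P * 0 ^ d 2) * Polynomial.X ^ d 0 := by
      rw [r2, aeval_monomial, Finsupp.prod_fintype _ _ (by simp)]
      simp [Fin.prod_univ_succ]
      ring
    rw [h3]
    exact (Polynomial.natDegree_C_mul_X_pow_le _ _).trans (by omega)
  conv_lhs => rw [P.as_sum, map_sum]
  exact Polynomial.natDegree_sum_le_of_forall_le _ _ h1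

/-- a homogeneous quotient -/
private theorem bN4_hom_quot {P H K : P3} {n r : ℕ} (hr : r ≤ n) (hP : P.IsHomogeneous n)
    (hH : H.IsHomogeneous r) (h : P = H * K) :
    P = H * homogeneousComponent (n - r) K := by
  have h1 : homogeneousComponent n (H * K) = H * homogeneousComponent (n - r) K := by
    conv_lhs => rw [← sum_homogeneousComponent K, Finset.mul_sum, map_sum]
    have h2 : ∀ i ∈ Finset.range (K.totalDegree + 1),
        homogeneousComponent n (H * homogeneousComponent i K) =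
        if i = n - r then H * homogeneousComponent (n - r) K else 0 := by
      intro i _
      have h3 : (H * homogeneousComponent i K) ∈ homogeneousSubmodule (Fin 3) ℂ (r + i) :=
        hH.mul (homogeneousComponent_isHomogeneous i K)
      rw [homogeneousComponent_of_mem h3]
      by_cases h4 : i = n - r
      · rw [if_pos h4, if_pos (by omega), h4]
      · rw [if_neg h4, if_neg (by omega)]
    rw [Finset.sum_congr rfl h2, Finset.sum_ite_eq']
    split_ifs with h5
    · rfl
    · rw [homogeneousComponent_eq_zero _ _ (by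
        have h6 : ¬ n - r < K.totalDegree + 1 := fun h7 => h5 (Finset.mem_range.mpr h7)
        omega), mul_zero]
  rw [← h1, ← h, homogeneousComponent_eq_self hP]

private theorem bN4_gcd (p q : Polynomial ℂ) (hq : q ≠ 0) : ∃ β g k : Polynomial ℂ,
    β ≠ 0 ∧ p = β * g ∧ q = β * k ∧ IsCoprime g k := by
  classical
  have hβ0 : EuclideanDomain.gcd p q ≠ 0 :=
    fun h0 => hq (EuclideanDomain.gcd_eq_zero_iff.mp h0).2
  obtain ⟨g, hg⟩ := EuclideanDomain.gcd_dvd_left p q
  obtain ⟨k, hk⟩ := EuclideanDomain.gcd_dvd_right p q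
  obtain ⟨A, B, hAB⟩ : ∃ A B, EuclideanDomain.gcd p q = p * A + q * B :=
    ⟨_, _, EuclideanDomain.gcd_eq_gcd_ab p q⟩
  generalize EuclideanDomain.gcd p q = d at *
  subst hg hk
  refine ⟨d, g, k, hβ0, rfl, rfl, A, B, ?_⟩
  apply mul_left_cancel₀ hβ0
  linear_combination -hAB

/-- N4 -/
theorem exists_NF {Fe Fa Fo : P3} {F : Fin 2 → P3} (h : ND Fe Fa Fo F) :
    ∃ r ge ga β Mt, NF Fe Fa Fo r ge ga β Mt := by
  obtain ⟨β, ge, ga, hβ0, hfe', hfa', hcop⟩ := bN4_gcd (r2 Fe) (r2 Fa) h.fa0
  have hfa0 : r2 Fa ≠ 0 := h.fa0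
  have hfe0 : r2 Fe ≠ 0 := by
    intro h0
    have := h.deg
    rw [h0] at this
    simp at this
  have hdfe : (r2 Fe).natDegree ≤ 6 := bN4_natDegree_r2 h.home
  have hge0 : ge ≠ 0 := by rintro h0; rw [h0, mul_zero] at hfe'; exact hfe0 hfe'
  have hga0 : ga ≠ 0 := by rintro h0; rw [h0, mul_zero] at hfa'; exact hfa0 hfa'
  have hde : (r2 Fe).natDegree = β.natDegree + ge.natDegree := by
    rw [hfe', Polynomial.natDegree_mul hβ0 hge0]
  have hda : (r2 Fa).natDegree = β.natDegree + ga.natDegree := by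
    rw [hfa', Polynomial.natDegree_mul hβ0 hga0]
  have hlt : (r2 Fa).natDegree < (r2 Fe).natDegree := h.deg
  obtain ⟨r, hr⟩ : ∃ r, r = ge.natDegree := ⟨_, rfl⟩
  -- the relation
  have hE : hgn r ge * tln Fo + hgn r ga * tln Fa = 0 := by
    have hB : hgn β.natDegree β * (hgn r ge * tln Fo + hgn r ga * tln Fa) = 0 := by
      apply bN4_ext
      intro w hw
      have h1 := h.herm ![-(w 1), w 0, 0] ![(starRingEnd ℂ) (w 2), (starRingEnd ℂ) (w 1), (starRingEnd ℂ) (w 0)] (by
        simp [qn]; ring)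
      have h2 : ∀ P : P3, X 2 ∣ P → eval ![-(w 1), w 0, 0] P = 0 := by
        rintro P ⟨q, rfl⟩
        simp
      have hX : (X 2 : P3) ∣ X 2 ^ 3 := dvd_pow_self _ (by norm_num)
      rw [Fin.sum_univ_two, h2 Fo h.dFo, h2 (F 0) (hX.trans h.dF0), h2 (F 1) h.dF1,
        ← bN4_eval_tln, ← bN4_eval_tln, ← bN4_eval_tln] at h1
      have h3 : ∀ P : P3, P.IsHomogeneous 6 → eval ![-(w 1), w 0, 0] P =
          w 0 ^ 6 * (r2 P).eval (-(w 1) / w 0) := by
        intro P hP
        rw [bN4_eval_r2, ← bN4_eval_hom hP]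
        congr 2
        funext i
        fin_cases i
        · simp; field_simp
        · simp
        · simp
      rw [h3 _ h.home, h3 _ h.homa, hfe', hfa', Polynomial.eval_mul,
        Polynomial.eval_mul] at h1
      simp only [map_mul, map_add, map_zero]
      rw [bN4_eval_hgn le_rfl hw, bN4_eval_hgn (g := ge) (by omega) hw,
        bN4_eval_hgn (g := ga) (by omega) hw]
      have h4 : w 0 ^ 6 ≠ 0 := pow_ne_zero _ hw
      have h5 : w 0 ^ 6 * (β.eval (-(w 1) / w 0) * (ge.eval (-(w 1) / w 0) * eval w (tln Fo) +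
          ga.eval (-(w 1) / w 0) * eval w (tln Fa))) = 0 := by
        linear_combination h1
      have h6 := (mul_eq_zero.mp h5).resolve_left h4
      linear_combination (w 0 ^ β.natDegree * w 0 ^ r) * h6
    refine (mul_eq_zero.mp hB).resolve_left fun h0 => hβ0 ?_
    apply Polynomial.funext
    intro s
    have h1 := bN4_eval_hgn (g := β) le_rfl (w := ![1, -s, 0]) (by simp)
    rw [h0] at h1
    simpa using h1.symm
  -- coprimality
  have hX0 : ¬ (X 0 : P3) ∣ hgn r ge := by
    intro h0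
    have h1 : eval ![0, -1, 0] (hgn r ge) = 0 := by
      obtain ⟨q, hq⟩ := h0
      rw [hq]; simp
    have h2 : eval ![0, -1, 0] (hgn r ge) = ge.coeff r := by
      unfold hgn
      simp only [map_sum, map_mul, eval_C, map_pow, eval_X, map_neg]
      rw [Finset.sum_eq_single r]
      · simp
      · intro i hi hir
        have : i < r := lt_of_le_of_ne (Nat.lt_succ_iff.mp (Finset.mem_range.mp hi)) hir
        simp [show r - i ≠ 0 by omega]
      · intro h3; simp at h3
    rw [h2, hr] at h1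
    exact hge0 (Polynomial.leadingCoeff_eq_zero.mp h1)
  obtain ⟨u, v, huv⟩ := hcop
  obtain ⟨N, hN⟩ : ∃ N, N = max u.natDegree v.natDegree := ⟨_, rfl⟩
  have hU : hgn N u * hgn r ge + hgn N v * hgn r ga = X 0 ^ (N + r) := by
    apply bN4_ext
    intro w hw
    simp only [map_mul, map_add, map_pow, eval_X]
    rw [bN4_eval_hgn (g := u) (by rw [hN]; exact le_max_left _ _) hw,
      bN4_eval_hgn (g := v) (by rw [hN]; exact le_max_right _ _) hw,
      bN4_eval_hgn (g := ge) (by omega) hw, bN4_eval_hgn (g := ga) (by omega) hw]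
    have h1 := congrArg (Polynomial.eval (-(w 1) / w 0)) huv
    rw [Polynomial.eval_add, Polynomial.eval_mul, Polynomial.eval_mul, Polynomial.eval_one] at h1
    rw [pow_add]
    linear_combination (w 0 ^ N * w 0 ^ r) * h1
  have hdv : hgn r ge ∣ tln Fa := by
    apply bN4_dvd (X_prime (i := (0 : Fin 3)) (R := ℂ)) hX0 (N + r)
    refine ⟨hgn N u * tln Fa - hgn N v * tln Fo, ?_⟩
    rw [← hU]
    linear_combination (hgn N v) * hE
  obtain ⟨K, hK⟩ := hdv
  have hK' := bN4_hom_quot (by omega) (bN4_hom_tln h.homa) (bN4_hom_hgn r ge) hK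
  obtain ⟨Mt, hMt⟩ : ∃ M, M = -homogeneousComponent (6 - r) K := ⟨_, rfl⟩
  have hfA : tln Fa = -(Mt * hgn r ge) := by rw [hMt, hK']; ring
  have hH0 : hgn r ge ≠ 0 := fun h0 => hX0 (h0 ▸ dvd_zero _)
  refine ⟨r, ge, ga, β, Mt,
    { r1 := by omega
      r6 := by omega
      cop := ⟨u, v, huv⟩
      dege := hr.symm
      dega := by omega
      ga0 := hga0
      β0 := hβ0
      fe := hfe'
      fa := hfa'
      homM := by rw [hMt]; exact (homogeneousComponent_isHomogeneous _ _).neg
      nM := ?_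
      facto := ?_
      facta := hfA }⟩
  · intro h0
    have h1 : (X 2 : P3) ∣ Fa := by
      apply bN4_X2_dvd
      intro z hz
      have h2 : eval ![0, (starRingEnd ℂ) (z 1), (starRingEnd ℂ) (z 0)] (tln Fa) = 0 := by
        rw [hfA]
        obtain ⟨q, hq⟩ := h0
        rw [hq]; simp
      rw [bN4_eval_tln, map_eq_zero] at h2
      rw [← h2]
      congr 2
      funext i
      fin_cases i
      · simp
      · simp
      · simp [hz]
    apply hfa0
    obtain ⟨q, hq⟩ := h1
    rw [hq, map_mul]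
    simp [r2]
  · apply mul_left_cancel₀ hH0
    linear_combination hE - (hgn r ga) * hfA

end Pool.Agent.Lib_helper86.D24

end

section

namespace Pool.Agent.Lib_helper86.D24

open MvPolynomial Matrix


/-- chain rule -/
private lemma bN5_chain (f : Fin 3 → Polynomial ℂ) (P : P3) :
    Polynomial.derivative (aeval f P) =
      ∑ i, aeval f (pderiv i P) * Polynomial.derivative (f i) := by
  induction P using MvPolynomial.induction_on with
  | C a => simp
  | add p q hp hq => simp only [map_add, hp, hq, add_mul, Finset.sum_add_distrib]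
  | mul_X p i hp =>
    simp only [map_mul, aeval_X, Polynomial.derivative_mul, hp, Derivation.leibniz, smul_eq_mul,
      map_add, add_mul, Finset.sum_add_distrib]
    have h1 : ∑ x, (aeval f) p * (aeval f) (pderiv x (X i : P3)) * Polynomial.derivative (f x) =
        (aeval f) p * Polynomial.derivative (f i) := by
      rw [Finset.sum_eq_single i]
      · simp
      · intro j _ hj
        rw [pderiv_X_of_ne (Ne.symm hj)]
        simp
      · simp
    have h2 : ∑ x, f i * (aeval f) (pderiv x p) * Polynomial.derivative (f x) =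
        (∑ x, (aeval f) (pderiv x p) * Polynomial.derivative (f x)) * f i := by
      rw [Finset.sum_mul]
      refine Finset.sum_congr rfl fun x _ => ?_
      ring
    rw [h1, h2]
    ring

private lemma bN5_eval_aeval (f : Fin 3 → Polynomial ℂ) (P : P3) (t : ℂ) :
    Polynomial.eval t (aeval f P) = eval (fun i => Polynomial.eval t (f i)) P := by
  induction P using MvPolynomial.induction_on with
  | C a => simp
  | add p q hp hq => simp only [map_add, Polynomial.eval_add, hp, hq]
  | mul_X p i hp => simp only [map_mul, aeval_X, Polynomial.eval_mul, hp, eval_X]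

private lemma bN5_r2 (P : P3) (x : ℂ) : (r2 P).eval x = eval ![x, 1, 0] P := by
  rw [r2, bN5_eval_aeval]
  congr 2
  ext i
  fin_cases i <;> simp

private lemma bN5_r2d (P : P3) : Polynomial.derivative (r2 P) = r2 (pderiv 0 P) := by
  rw [r2, bN5_chain]
  simp [Fin.sum_univ_three]

/-- the derivative along the curve -/
private lemma bN5_der (P : P3) (y u : ℂ) :
    Polynomial.eval 0 (Polynomial.derivative (aeval
      ![Polynomial.C (-y) - Polynomial.C u * Polynomial.X, 1, Polynomial.X] P)) =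
    -u * (Polynomial.derivative (r2 P)).eval (-y) + (r2 (pderiv 2 P)).eval (-y) := by
  rw [bN5_chain, bN5_r2d, bN5_r2, bN5_r2]
  simp only [Fin.sum_univ_three, Polynomial.eval_add, Polynomial.eval_mul, bN5_eval_aeval]
  have e : (fun i : Fin 3 => Polynomial.eval (0 : ℂ)
      ((![Polynomial.C (-y) - Polynomial.C u * Polynomial.X, 1, Polynomial.X] :
        Fin 3 → Polynomial ℂ) i)) = ![-y, 1, 0] := by
    ext i
    fin_cases i <;> simp
  rw [e]
  simp
  ring

private lemma bN5_tln (P : P3) (u : V3) :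
    (starRingEnd ℂ) (eval ![(starRingEnd ℂ) (u 2), (starRingEnd ℂ) (u 1), (starRingEnd ℂ) (u 0)] P) = eval u (tln P) := by
  rw [tln]
  induction P using MvPolynomial.induction_on with
  | C a => simp
  | add p q hp hq => simp only [map_add, hp, hq]
  | mul_X p i hp =>
    simp only [map_mul, hp, eval_X, map_X, aeval_X]
    congr 1
    fin_cases i <;> simp

private lemma bN5_rel {Fe Fa Fo : P3} {F : Fin 2 → P3} (h : ND Fe Fa Fo F) (z u : V3)
    (hz : z 0 * u 0 + z 1 * u 1 + z 2 * u 2 = 0) :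
    eval z Fe * eval u (tln Fo) + eval z Fo * eval u (tln Fe) + eval z Fa * eval u (tln Fa) +
      ∑ i, eval z (F i) * eval u (tln (F i)) = 0 := by
  have := h.herm z ![(starRingEnd ℂ) (u 2), (starRingEnd ℂ) (u 1), (starRingEnd ℂ) (u 0)] (by
    simp [qn]
    linear_combination hz)
  simpa only [bN5_tln] using this

private lemma bN5_hgn {g : Polynomial ℂ} {r : ℕ} (hg : g.natDegree ≤ r) (y u : ℂ) :
    eval ![1, y, u] (hgn r g) = g.eval (-y) := by
  rw [hgn, map_sum, Polynomial.eval_eq_sum_range' (Nat.lt_succ_of_le hg)]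
  apply Finset.sum_congr rfl
  intro i _
  simp

/-- first-order relation -/
private lemma bN5_first {Fe Fa Fo : P3} {F : Fin 2 → P3} (h : ND Fe Fa Fo F) {r : ℕ}
    {ge ga β : Polynomial ℂ} {Mt : P3} (hN : NF Fe Fa Fo r ge ga β Mt) (y u : ℂ) :
    (-u * (Polynomial.derivative (r2 Fe)).eval (-y) + (r2 (pderiv 2 Fe)).eval (-y)) *
      (eval ![1, y, u] Mt * ga.eval (-y)) +
    (-u * (Polynomial.derivative (r2 Fo)).eval (-y) + (r2 (pderiv 2 Fo)).eval (-y)) *
      eval ![1, y, u] (tln Fe) +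
    (-u * (Polynomial.derivative (r2 Fa)).eval (-y) + (r2 (pderiv 2 Fa)).eval (-y)) *
      (-(eval ![1, y, u] Mt * ge.eval (-y))) +
    ∑ i, (-u * (Polynomial.derivative (r2 (F i))).eval (-y) + (r2 (pderiv 2 (F i))).eval (-y)) *
      eval ![1, y, u] (tln (F i)) = 0 := by
  set f : Fin 3 → Polynomial ℂ :=
    ![Polynomial.C (-y) - Polynomial.C u * Polynomial.X, 1, Polynomial.X] with hf
  have hrel : aeval f Fe * Polynomial.C (eval ![1, y, u] (tln Fo)) +
      aeval f Fo * Polynomial.C (eval ![1, y, u] (tln Fe)) +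
      aeval f Fa * Polynomial.C (eval ![1, y, u] (tln Fa)) +
      ∑ i, aeval f (F i) * Polynomial.C (eval ![1, y, u] (tln (F i))) = 0 := by
    apply Polynomial.funext
    intro t
    have := bN5_rel h ![-y - t * u, 1, t] ![1, y, u] (by simp; ring)
    simp only [Polynomial.eval_add, Polynomial.eval_mul, Polynomial.eval_C,
      Polynomial.eval_finsetSum, bN5_eval_aeval, Polynomial.eval_zero]
    have e : (fun i : Fin 3 => Polynomial.eval t (f i)) = ![-y - t * u, 1, t] := by
      ext i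
      fin_cases i
      · simp [hf]; ring
      · simp [hf]
      · simp [hf]
    rw [e]
    exact this
  have hd := congrArg (fun p => Polynomial.eval 0 (Polynomial.derivative p)) hrel
  simp only [Polynomial.derivative_add, Polynomial.derivative_sum, Polynomial.derivative_mul,
    Polynomial.derivative_C, mul_zero, add_zero, Polynomial.eval_add, Polynomial.eval_mul,
    Polynomial.eval_C, Polynomial.eval_finsetSum, Polynomial.derivative_zero,
    Polynomial.eval_zero] at hd
  simp only [hf, bN5_der] at hd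
  rw [hN.facto, hN.facta] at hd
  simp only [map_mul, map_neg, bN5_hgn hN.dege.le, bN5_hgn hN.dega.le] at hd
  exact hd

private lemma bN5_hom {P : P3} {d : ℕ} (hP : P.IsHomogeneous d) (s : ℂ) (z : V3) :
    eval (s • z) P = s ^ d * eval z P := by
  rw [eval_eq', eval_eq', Finset.mul_sum]
  apply Finset.sum_congr rfl
  intro m hm
  have hm' : P.coeff m ≠ 0 := by simpa using hm
  have hdeg := hP hm'
  have h3 : ∑ i, m i = d := by
    have : Finsupp.weight (1 : Fin 3 → ℕ) m = ∑ i, m i := by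
      rw [Finsupp.weight_apply, Finsupp.sum_fintype]
      · simp
      · simp
    omega
  simp only [Pi.smul_apply, smul_eq_mul, mul_pow, Finset.prod_mul_distrib]
  rw [Finset.prod_pow_eq_pow_sum, h3]
  ring

private lemma bN5_eval2 (P : P3) (y u : ℂ) :
    eval ![y, u] (aeval ![1, (X 0 : P2), X 1] P : P2) = eval ![1, y, u] P := by
  induction P using MvPolynomial.induction_on with
  | C a => simp
  | add p q hp hq => simp only [map_add, hp, hq]
  | mul_X p i hp =>
    simp only [map_mul, aeval_X, hp, eval_X]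
    congr 1
    fin_cases i <;> simp

private lemma bN5_eval1 (p : Polynomial ℂ) (y u : ℂ) :
    eval ![y, u] (Polynomial.aeval (X 0 : P2) p) = p.eval y := by
  induction p using Polynomial.induction_on' with
  | add p q hp hq => simp only [map_add, hp, hq, Polynomial.eval_add]
  | monomial n a => simp [Polynomial.aeval_monomial, MvPolynomial.algebraMap_eq]

/-- values on `w₀ = 1` determine a form -/
private lemma bN5_M {Mt : P3} {d : ℕ} (hM : Mt.IsHomogeneous d) (h0 : ¬ X 0 ∣ Mt) :
    (aeval ![1, (X 0 : P2), X 1] Mt : P2) ≠ 0 := by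
  intro h
  apply h0
  have hz : Mt = 0 := by
    have : (X 0 : P3) * Mt = 0 := by
      apply MvPolynomial.funext
      intro w
      rw [map_mul, map_zero, eval_X]
      by_cases hw : w 0 = 0
      · rw [hw, zero_mul]
      · have h1 : w = (w 0) • ![1, w 1 / w 0, w 2 / w 0] := by
          ext i
          fin_cases i
          · simp
          · simp; field_simp
          · simp; field_simp
        have h2 : eval ![1, w 1 / w 0, w 2 / w 0] Mt = 0 := by
          rw [← bN5_eval2, h, map_zero]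
        have h3 : eval w Mt = (w 0) ^ d * eval ![1, w 1 / w 0, w 2 / w 0] Mt := by
          conv_lhs => rw [h1]
          rw [bN5_hom hM]
        rw [h3, h2]; ring
    rcases mul_eq_zero.1 this with h1 | h1
    · exact absurd h1 (X_ne_zero 0)
    · exact h1
  rw [hz]; exact dvd_zero _

private lemma bN5_core {Fe Fa Fo : P3} {r : ℕ}
    {ge ga β : Polynomial ℂ} {Mt : P3} (hN : NF Fe Fa Fo r ge ga β Mt) (b Bt : P3)
    (hode : 2 * wr (r2 Fe) (r2 Fa) * Polynomial.derivative (r2 b) =
      Polynomial.derivative (wr (r2 Fe) (r2 Fa)) * r2 b)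
    (hrel : ∀ y u : ℂ,
      (-u * (Polynomial.derivative (r2 Fe)).eval (-y) + (r2 (pderiv 2 Fe)).eval (-y)) *
      (eval ![1, y, u] Mt * ga.eval (-y)) +
      (-u * (Polynomial.derivative (r2 Fa)).eval (-y) + (r2 (pderiv 2 Fa)).eval (-y)) *
      (-(eval ![1, y, u] Mt * ge.eval (-y))) + (r2 b).eval (-y) * eval ![1, y, u] Bt = 0) :
    ∃ (ρ χp : Polynomial ℂ) (κ : ℂ), κ ≠ 0 ∧ ρ ≠ 0 ∧ r2 b = β * ρ ∧
      wr ge ga = Polynomial.C κ * ρ ^ 2 ∧
      ∀ y u : ℂ, β.eval (-y) * ρ.eval (-y) * eval ![1, y, u] Bt =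
        -(eval ![1, y, u] Mt * (u * κ * β.eval (-y) * ρ.eval (-y) ^ 2 + χp.eval (-y))) := by
  have hrel2 : ∀ y u : ℂ, eval ![1, y, u] Mt * (u * (β.eval (-y) * (wr ge ga).eval (-y)) +
      (r2 (pderiv 2 Fe) * ga - r2 (pderiv 2 Fa) * ge).eval (-y)) +
      (r2 b).eval (-y) * eval ![1, y, u] Bt = 0 := by
    intro y u
    have := hrel y u
    rw [hN.fe, hN.fa] at this
    simp only [Polynomial.derivative_mul, Polynomial.eval_add, Polynomial.eval_mul] at this
    simp only [wr, Polynomial.eval_sub, Polynomial.eval_mul]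
    linear_combination this
  have hwr0 : wr ge ga ≠ 0 := by
    intro h0
    obtain ⟨c, hc⟩ := wr2 ge ga hN.ga0 h0
    have h1 : ge.natDegree ≤ ga.natDegree := by
      rw [hc]; exact Polynomial.natDegree_C_mul_le c ga
    have := hN.dege
    have := hN.dega
    omega
  have hb0 : r2 b ≠ 0 := by
    intro hb
    have hp : (aeval ![1, (X 0 : P2), X 1] Mt : P2) *
        (X 1 * Polynomial.aeval (X 0 : P2) ((β * wr ge ga).comp (-Polynomial.X)) +
          Polynomial.aeval (X 0 : P2)
            ((r2 (pderiv 2 Fe) * ga - r2 (pderiv 2 Fa) * ge).comp (-Polynomial.X))) = 0 := by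
      apply MvPolynomial.funext
      intro w
      have hw : w = ![w 0, w 1] := by
        ext i; fin_cases i <;> rfl
      rw [hw]
      simp only [map_mul, map_add, map_zero, bN5_eval2, bN5_eval1, Polynomial.eval_comp,
        Polynomial.eval_neg, Polynomial.eval_X, eval_X, Polynomial.eval_mul]
      have := hrel2 (w 0) (w 1)
      rw [hb] at this
      simp only [Polynomial.eval_zero, zero_mul, add_zero] at this
      simpa using this
    rcases mul_eq_zero.1 hp with h1 | h1
    · exact bN5_M hN.homM hN.nM h1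
    · have h2 : β * wr ge ga = 0 := by
        apply Polynomial.funext
        intro x
        have e1 := congrArg (eval ![-x, 1]) h1
        have e0 := congrArg (eval ![-x, 0]) h1
        simp only [map_mul, map_add, map_zero, bN5_eval1, Polynomial.eval_comp,
          Polynomial.eval_neg, Polynomial.eval_X, eval_X, Polynomial.eval_mul] at e0 e1
        simp at e0 e1
        rw [Polynomial.eval_mul, Polynomial.eval_zero]
        rw [e0] at e1
        simpa using e1
      rcases mul_eq_zero.1 h2 with h3 | h3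
      · exact hN.β0 h3
      · exact hwr0 h3
  obtain ⟨ρ, κ, hκ, hρ, -, hbρ, hwr⟩ := exists_rho hN.fe hN.fa hN.β0 hN.cop hN.dege.le hN.dega.le
    (Or.inl hN.dege) hN.r1 hb0 hode
  refine ⟨ρ, r2 (pderiv 2 Fe) * ga - r2 (pderiv 2 Fa) * ge, κ, hκ, hρ, hbρ, hwr, fun y u => ?_⟩
  have := hrel2 y u
  rw [hbρ, hwr] at this
  simp only [Polynomial.eval_mul, Polynomial.eval_pow, Polynomial.eval_C] at this
  linear_combination this

private lemma bN5_X2 (c : P3) : Polynomial.derivative (r2 (X 2 * c)) = 0 ∧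
    r2 (pderiv 2 (X 2 * c)) = r2 c := by
  constructor
  · have : r2 (X 2 * c) = 0 := by
      rw [map_mul]; simp [r2]
    rw [this]; simp
  · rw [Derivation.leibniz]
    simp only [smul_eq_mul, map_add, map_mul, pderiv_X_self, map_one]
    simp [r2]

private lemma bN5_X23 {G : P3} (hG : X 2 ^ 3 ∣ G) : Polynomial.derivative (r2 G) = 0 ∧
    r2 (pderiv 2 G) = 0 := by
  obtain ⟨c, rfl⟩ := hG
  have h1 : (X 2 ^ 3 * c : P3) = X 2 * (X 2 * (X 2 * c)) := by ring
  rw [h1]
  refine ⟨(bN5_X2 _).1, ?_⟩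
  rw [(bN5_X2 _).2, map_mul]
  simp [r2]

/-- N5 (uses F2): first order terms, case (i) -/
theorem null_first_i {Fe Fa Fo : P3} {F : Fin 2 → P3} (h : ND Fe Fa Fo F) {r : ℕ}
    {ge ga β : Polynomial ℂ} {Mt : P3} (hN : NF Fe Fa Fo r ge ga β Mt) (b : P3)
    (hb : Fo = X 2 * b) (h3 : X 2 ^ 3 ∣ F 1) :
    ∃ (ρ χp : Polynomial ℂ) (κ : ℂ), κ ≠ 0 ∧ ρ ≠ 0 ∧ r2 b = β * ρ ∧
      wr ge ga = Polynomial.C κ * ρ ^ 2 ∧
      ∀ y u : ℂ, β.eval (-y) * ρ.eval (-y) * eval ![1, y, u] (tln Fe) =
        -(eval ![1, y, u] Mt * (u * κ * β.eval (-y) * ρ.eval (-y) ^ 2 + χp.eval (-y))) := by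
  refine bN5_core hN b (tln Fe) (h.wro b hb) ?_
  intro y u
  have hf := bN5_first h hN y u
  rw [Fin.sum_univ_two, (bN5_X23 h.dF0).1, (bN5_X23 h.dF0).2, (bN5_X23 h3).1, (bN5_X23 h3).2] at hf
  have e1 := (bN5_X2 b).1
  have e2 := (bN5_X2 b).2
  rw [← hb] at e1 e2
  rw [e1, e2] at hf
  simp only [Polynomial.eval_zero, mul_zero, add_zero, zero_add, zero_mul] at hf
  linear_combination hf

/-- N6 (uses F2): first order terms, case (ii) -/
theorem null_first_ii {Fe Fa Fo : P3} {F : Fin 2 → P3} (h : ND Fe Fa Fo F) {r : ℕ}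
    {ge ga β : Polynomial ℂ} {Mt : P3} (hN : NF Fe Fa Fo r ge ga β Mt) (b : P3)
    (hb : F 1 = X 2 * b) (h3 : X 2 ^ 3 ∣ Fo) :
    ∃ (ρ χp : Polynomial ℂ) (κ : ℂ), κ ≠ 0 ∧ ρ ≠ 0 ∧ r2 b = β * ρ ∧
      wr ge ga = Polynomial.C κ * ρ ^ 2 ∧
      ∀ y u : ℂ, β.eval (-y) * ρ.eval (-y) * eval ![1, y, u] (tln b) =
        -(eval ![1, y, u] Mt * (u * κ * β.eval (-y) * ρ.eval (-y) ^ 2 + χp.eval (-y))) := by
  refine bN5_core hN b (tln b) (h.wr1 b hb) ?_
  intro y u
  have hf := bN5_first h hN y u
  rw [Fin.sum_univ_two, (bN5_X23 h.dF0).1, (bN5_X23 h.dF0).2, (bN5_X23 h3).1, (bN5_X23 h3).2] at hf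
  have e1 := (bN5_X2 b).1
  have e2 := (bN5_X2 b).2
  have e3 : eval ![1, y, u] (tln (F 1)) = eval ![1, y, u] (tln b) := by
    rw [hb]
    simp [tln]
  rw [← hb] at e1 e2
  rw [e1, e2, e3] at hf
  simp only [Polynomial.eval_zero, mul_zero, add_zero, zero_add, zero_mul] at hf
  linear_combination hf

end Pool.Agent.Lib_helper86.D24

end

section

set_option autoImplicit false
set_option maxHeartbeats 4000000

namespace Pool.Agent.Lib_helper86.D24

open MvPolynomial Matrix


theorem n7_term (y u : ℂ) (a b : ℕ) :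
    (Polynomial.C y * Polynomial.X) ^ a * (Polynomial.C u * Polynomial.X) ^ b =
      Polynomial.C (y ^ a * u ^ b) * (Polynomial.X : Polynomial ℂ) ^ (a + b) := by
  rw [mul_pow, mul_pow, pow_add, Polynomial.C_mul, Polynomial.C_pow, Polynomial.C_pow]
  ring

/-- the restriction to a line -/
noncomputable def n7_L (y u : ℂ) (p : P3) : Polynomial ℂ :=
  aeval ![(1 : Polynomial ℂ), Polynomial.C y * Polynomial.X, Polynomial.C u * Polynomial.X] p

theorem n7_L_eq (y u : ℂ) (p : P3) : n7_L y u p = ∑ d ∈ p.support,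
    Polynomial.C (p.coeff d * (y ^ d 1 * u ^ d 2)) * Polynomial.X ^ (d 1 + d 2) := by
  unfold n7_L
  rw [aeval_def, eval₂_eq']
  apply Finset.sum_congr rfl
  intro d _
  rw [Fin.prod_univ_three]
  simp only [Matrix.cons_val_zero, Matrix.cons_val_one, Matrix.cons_val, one_pow, one_mul]
  rw [n7_term, Polynomial.algebraMap_eq, ← mul_assoc, ← Polynomial.C_mul]

theorem n7_hom {p : P3} {k : ℕ} (hp : p.IsHomogeneous k) {d : Fin 3 →₀ ℕ} (hd : d ∈ p.support) :
    d 0 + d 1 + d 2 = k := by
  have h := hp (mem_support_iff.1 hd)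
  rw [Finsupp.weight_apply, Finsupp.sum_fintype _ _ (by simp)] at h
  rw [← h, Fin.sum_univ_three]
  simp

theorem n7_L_deg (y u : ℂ) {p : P3} {k : ℕ} (hp : p.IsHomogeneous k) :
    (n7_L y u p).natDegree ≤ k := by
  rw [n7_L_eq]
  apply Polynomial.natDegree_sum_le_of_forall_le
  intro d hd
  refine (Polynomial.natDegree_C_mul_X_pow_le _ _).trans ?_
  have := n7_hom hp hd
  omega

theorem n7_L_coeff (y u : ℂ) {p : P3} {k : ℕ} (hp : p.IsHomogeneous k) :
    (n7_L y u p).coeff k = eval ![0, y, u] p := by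
  rw [n7_L_eq, Polynomial.finsetSum_coeff, eval_eq']
  apply Finset.sum_congr rfl
  intro d hd
  have h := n7_hom hp hd
  rw [Polynomial.coeff_C_mul_X_pow, Fin.prod_univ_three]
  simp only [Matrix.cons_val_zero, Matrix.cons_val_one, Matrix.cons_val]
  by_cases h0 : d 0 = 0
  · rw [if_pos (by omega), h0, pow_zero, one_mul]
  · rw [if_neg (by omega), zero_pow h0, zero_mul, zero_mul, mul_zero]

theorem n7_L_eval (y u t : ℂ) (p : P3) :
    (n7_L y u p).eval t = eval ![1, y * t, u * t] p := by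
  rw [n7_L_eq, Polynomial.eval_finsetSum, eval_eq']
  apply Finset.sum_congr rfl
  intro d _
  rw [Fin.prod_univ_three]
  simp only [Matrix.cons_val_zero, Matrix.cons_val_one, Matrix.cons_val, one_pow, one_mul,
    Polynomial.eval_mul, Polynomial.eval_C, Polynomial.eval_pow, Polynomial.eval_X]
  rw [mul_pow, mul_pow, pow_add]
  ring

/-- the part without `X 0` -/
theorem n7_sub_dvd (p : P3) : X 0 ∣ p - aeval ![(0 : P3), X 1, X 2] p := by
  induction p using MvPolynomial.induction_on with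
  | C a => simp
  | add p q hp hq =>
    rw [map_add]
    have : p + q - (aeval ![(0 : P3), X 1, X 2] p + aeval ![(0 : P3), X 1, X 2] q) =
        (p - aeval ![(0 : P3), X 1, X 2] p) + (q - aeval ![(0 : P3), X 1, X 2] q) := by ring
    rw [this]
    exact dvd_add hp hq
  | mul_X p i hp =>
    rw [map_mul, aeval_X]
    have : p * X i - aeval ![(0 : P3), X 1, X 2] p * ![(0 : P3), X 1, X 2] i =
        (p - aeval ![(0 : P3), X 1, X 2] p) * X i +
          aeval ![(0 : P3), X 1, X 2] p * (X i - ![(0 : P3), X 1, X 2] i) := by ring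
    rw [this]
    refine dvd_add (hp.mul_right _) (Dvd.dvd.mul_left ?_ _)
    fin_cases i
    · simp
    · simp
    · simp

theorem n7_eval0 (p : P3) (x : V3) :
    eval x (aeval ![(0 : P3), X 1, X 2] p) = eval ![0, x 1, x 2] p := by
  induction p using MvPolynomial.induction_on with
  | C a => simp
  | add p q hp hq => rw [map_add, map_add, map_add, hp, hq]
  | mul_X p i hp =>
    rw [map_mul, map_mul, map_mul, hp, aeval_X, eval_X]
    congr 1
    fin_cases i
    · simp
    · simp
    · simp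

theorem n7_ne {p : P3} (hp : ¬ X 0 ∣ p) : aeval ![(0 : P3), X 1, X 2] p ≠ 0 := by
  intro h
  apply hp
  have := n7_sub_dvd p
  rwa [h, sub_zero] at this

/-- N7: comparison of the top degree terms -/
theorem top_lemma {k1 k2 : ℕ} {Mt Bt : P3} (hM : Mt.IsHomogeneous k1) (hB : Bt.IsHomogeneous k2)
    (nM : ¬ X 0 ∣ Mt) {β ρ χp : Polynomial ℂ} (hβ : β ≠ 0) (hρ : ρ ≠ 0) {κ : ℂ} (hκ : κ ≠ 0)
    (h : ∀ y u : ℂ, β.eval (-y) * ρ.eval (-y) * eval ![1, y, u] Bt =
      -(eval ![1, y, u] Mt * (u * κ * β.eval (-y) * ρ.eval (-y) ^ 2 + χp.eval (-y)))) :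
    ρ.natDegree + 1 + k1 ≤ k2 ∧ ∃ χ : ℂ, ∀ y u : ℂ, eval ![0, y, u] Bt =
      -(eval ![0, y, u] Mt * (κ * ρ.coeff (k2 - k1 - 1) * u * (-y) ^ (k2 - k1 - 1) +
        χ * (-y) ^ (k2 - k1))) := by
  -- the polynomials in `t`
  obtain ⟨T, hT⟩ : ∃ T : Polynomial ℂ → ℂ → Polynomial ℂ, ∀ p y,
      T p y = p.comp (Polynomial.C (-y) * Polynomial.X) := ⟨fun p y => _, fun _ _ => rfl⟩
  have T_coeff : ∀ p y n, (T p y).coeff n = p.coeff n * (-y) ^ n := by
    intro p y n
    rw [hT, Polynomial.comp_C_mul_X_coeff]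
  have T_deg : ∀ p y n, p.natDegree ≤ n → (T p y).natDegree ≤ n := by
    intro p y n hn
    rw [Polynomial.natDegree_le_iff_coeff_eq_zero]
    intro m hm
    rw [T_coeff, Polynomial.coeff_eq_zero_of_natDegree_lt (by omega), zero_mul]
  have T_eval : ∀ p y t, (T p y).eval t = p.eval (-(y * t)) := by
    intro p y t
    rw [hT, Polynomial.eval_comp]
    congr 1
    simp
  obtain ⟨b, hb⟩ : ∃ b, b = β.natDegree := ⟨_, rfl⟩
  obtain ⟨r, hr⟩ : ∃ r, r = ρ.natDegree := ⟨_, rfl⟩
  obtain ⟨e, he⟩ : ∃ e, e = max (b + 2 * r + 1) χp.natDegree := ⟨_, rfl⟩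
  have lβ : β.coeff b ≠ 0 := by
    rw [hb]
    exact Polynomial.leadingCoeff_ne_zero.2 hβ
  have lρ : ρ.coeff r ≠ 0 := by
    rw [hr]
    exact Polynomial.leadingCoeff_ne_zero.2 hρ
  -- the coefficients of `β ρ²`
  obtain ⟨τ, hτ⟩ : ∃ τ : Polynomial ℂ, τ = β * ρ * ρ := ⟨_, rfl⟩
  have dβρ : (β * ρ).natDegree ≤ b + r := by
    rw [hb, hr]
    exact Polynomial.natDegree_mul_le
  have τc : ∀ j, r ≤ j → τ.coeff (b + r + j) = β.coeff b * ρ.coeff r * ρ.coeff j := by
    intro j hj
    rw [hτ, Polynomial.coeff_mul_add_eq_of_natDegree_le dβρ (by omega : ρ.natDegree ≤ j),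
      Polynomial.coeff_mul_add_eq_of_natDegree_le (by omega : β.natDegree ≤ b)
        (by omega : ρ.natDegree ≤ r)]
  have τd : τ.natDegree ≤ b + 2 * r := by
    rw [hτ]
    refine Polynomial.natDegree_mul_le.trans ?_
    omega
  -- the bracket
  obtain ⟨S, hS⟩ : ∃ S : ℂ → ℂ → Polynomial ℂ, ∀ y u,
      S y u = Polynomial.C (u * κ) * T τ y * Polynomial.X + T χp y := ⟨fun y u => _, fun _ _ => rfl⟩
  have S_coeff : ∀ y u n, (S y u).coeff (n + 1) =
      u * κ * (τ.coeff n * (-y) ^ n) + χp.coeff (n + 1) * (-y) ^ (n + 1) := by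
    intro y u n
    rw [hS, Polynomial.coeff_add, Polynomial.coeff_mul_X, Polynomial.coeff_C_mul, T_coeff, T_coeff]
  have S_deg : ∀ y u, (S y u).natDegree ≤ e := by
    intro y u
    rw [Polynomial.natDegree_le_iff_coeff_eq_zero]
    intro m hm
    obtain ⟨n, rfl⟩ : ∃ n, m = n + 1 := ⟨m - 1, by omega⟩
    have h1 : b + 2 * r + 1 ≤ e := by rw [he]; exact le_max_left _ _
    have h2 : χp.natDegree ≤ e := by rw [he]; exact le_max_right _ _
    rw [S_coeff, Polynomial.coeff_eq_zero_of_natDegree_lt (by omega : τ.natDegree < n),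
      Polynomial.coeff_eq_zero_of_natDegree_lt (by omega : χp.natDegree < n + 1)]
    ring
  -- the identity
  have key : ∀ y u, T β y * T ρ y * n7_L y u Bt = -(n7_L y u Mt * S y u) := by
    intro y u
    apply Polynomial.funext
    intro t
    have h1 := h (y * t) (u * t)
    rw [hS, Polynomial.eval_neg, Polynomial.eval_mul, Polynomial.eval_mul, Polynomial.eval_mul,
      Polynomial.eval_add, Polynomial.eval_mul, Polynomial.eval_mul, Polynomial.eval_C,
      Polynomial.eval_X, T_eval, T_eval, T_eval, T_eval, n7_L_eval, n7_L_eval, h1, hτ,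
      Polynomial.eval_mul, Polynomial.eval_mul]
    ring
  have dL : ∀ y, (T β y * T ρ y).natDegree ≤ b + r := by
    intro y
    refine Polynomial.natDegree_mul_le.trans ?_
    have h1 := T_deg β y b (by omega)
    have h2 := T_deg ρ y r (by omega)
    omega
  have he1 : 1 ≤ e := by
    have : b + 2 * r + 1 ≤ e := by rw [he]; exact le_max_left _ _
    omega
  -- the degree
  have hle : k1 + e ≤ b + r + k2 := by
    by_contra hcon
    have h0 : ∀ y u, eval ![0, y, u] Mt *
        (u * κ * (τ.coeff (e - 1) * (-y) ^ (e - 1)) + χp.coeff e * (-y) ^ e) = 0 := by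
      intro y u
      have h1 : (T β y * T ρ y * n7_L y u Bt).coeff (k1 + e) = 0 := by
        apply Polynomial.coeff_eq_zero_of_natDegree_lt
        refine lt_of_le_of_lt Polynomial.natDegree_mul_le ?_
        have h2 := dL y
        have h3 := n7_L_deg y u hB
        omega
      rw [key, Polynomial.coeff_neg,
        Polynomial.coeff_mul_add_eq_of_natDegree_le (n7_L_deg y u hM) (S_deg y u), n7_L_coeff y u hM,
        neg_eq_zero] at h1
      obtain ⟨n, hn⟩ : ∃ n, e = n + 1 := ⟨e - 1, by omega⟩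
      rw [hn, S_coeff] at h1
      rw [hn, Nat.add_sub_cancel]
      exact h1
    -- as polynomials
    obtain ⟨S0, hS0⟩ : ∃ S0 : P3, S0 = X 2 * C κ * (C (τ.coeff (e - 1)) * (-X 1) ^ (e - 1)) +
        C (χp.coeff e) * (-X 1) ^ e := ⟨_, rfl⟩
    have h1 : aeval ![(0 : P3), X 1, X 2] Mt * S0 = 0 := by
      apply MvPolynomial.funext
      intro x
      rw [map_mul, n7_eval0, hS0, map_zero]
      have := h0 (x 1) (x 2)
      simpa using this
    rcases mul_eq_zero.1 h1 with h2 | h2
    · exact n7_ne nM h2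
    · have h3 : ∀ y u : ℂ, u * κ * (τ.coeff (e - 1) * (-y) ^ (e - 1)) + χp.coeff e * (-y) ^ e = 0 := by
        intro y u
        have h4 : eval ![0, y, u] S0 = 0 := by rw [h2, map_zero]
        rw [hS0] at h4
        simpa using h4
      have h5 := h3 (-1) 0
      have h6 := h3 (-1) 1
      simp only [neg_neg, one_pow, mul_one, zero_mul, zero_add, one_mul] at h5 h6
      rw [h5, add_zero] at h6
      have h7 : τ.coeff (e - 1) = 0 := (mul_eq_zero.1 h6).resolve_left hκ
      rcases le_total χp.natDegree (b + 2 * r + 1) with h8 | h8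
      · have h9 : e - 1 = b + r + r := by
          rw [he, max_eq_left h8]
          omega
        rw [h9, τc r le_rfl] at h7
        exact mul_ne_zero (mul_ne_zero lβ lρ) lρ h7
      · have h9 : e = χp.natDegree := by rw [he, max_eq_right h8]
        have h10 : χp ≠ 0 := by
          rintro rfl
          simp at h8
        rw [h9] at h5
        exact (Polynomial.leadingCoeff_ne_zero.2 h10) h5
  have hbe : b + 2 * r + 1 ≤ e := by rw [he]; exact le_max_left _ _
  have hr1 : r + 1 + k1 ≤ k2 := by omega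
  refine ⟨by rw [← hr]; exact hr1, χp.coeff (b + r + (k2 - k1)) / (β.coeff b * ρ.coeff r), ?_⟩
  intro y u
  obtain ⟨j, hj⟩ : ∃ j, k2 = k1 + j + 1 := ⟨k2 - k1 - 1, by omega⟩
  have hj1 : k2 - k1 - 1 = j := by omega
  have hj2 : k2 - k1 = j + 1 := by omega
  rw [hj1, hj2]
  have hrj : r ≤ j := by omega
  -- the comparison of the coefficients
  have hmain : ∀ y : ℂ, β.coeff b * ρ.coeff r * (-y) ^ (b + r) * eval ![0, y, u] Bt =
      -(eval ![0, y, u] Mt * (u * κ * (β.coeff b * ρ.coeff r * ρ.coeff j * (-y) ^ (b + r + j)) +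
        χp.coeff (b + r + (j + 1)) * (-y) ^ (b + r + (j + 1)))) := by
    intro y
    have h1 : (T β y * T ρ y * n7_L y u Bt).coeff (b + r + k2) =
        β.coeff b * ρ.coeff r * (-y) ^ (b + r) * eval ![0, y, u] Bt := by
      rw [Polynomial.coeff_mul_add_eq_of_natDegree_le (dL y) (n7_L_deg y u hB),
        Polynomial.coeff_mul_add_eq_of_natDegree_le (T_deg β y b (by omega)) (T_deg ρ y r (by omega)),
        n7_L_coeff y u hB, T_coeff, T_coeff]
      ring
    have h2 : b + r + k2 = k1 + (b + r + (j + 1)) := by omega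
    rw [← h1, key, Polynomial.coeff_neg, h2, Polynomial.coeff_mul_add_eq_of_natDegree_le
      (n7_L_deg y u hM) ((S_deg y u).trans (by omega)), n7_L_coeff y u hM, ← add_assoc (b + r) j 1,
      S_coeff, τc j hrj]
  have hcont : ∀ p : P3, Continuous fun y : ℂ => eval ![0, y, u] p := by
    intro p
    refine (MvPolynomial.continuous_eval p).comp ?_
    refine continuous_pi fun i => ?_
    fin_cases i
    · exact continuous_const
    · exact continuous_id
    · exact continuous_const
  have hfun : (fun y : ℂ => eval ![0, y, u] Bt) = fun y : ℂ =>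
      -(eval ![0, y, u] Mt * (κ * ρ.coeff j * u * (-y) ^ j +
        χp.coeff (b + r + (j + 1)) / (β.coeff b * ρ.coeff r) * (-y) ^ (j + 1))) := by
    apply Continuous.ext_on (dense_compl_singleton (0 : ℂ)) (hcont Bt)
    · have := hcont Mt
      fun_prop
    · intro y hy
      have hy0 : -y ≠ 0 := neg_ne_zero.2 hy
      have h1 := hmain y
      have h2 : β.coeff b * ρ.coeff r * (-y) ^ (b + r) ≠ 0 :=
        mul_ne_zero (mul_ne_zero lβ lρ) (pow_ne_zero _ hy0)
      apply mul_left_cancel₀ h2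
      simp only
      rw [h1]
      have h3 : β.coeff b * ρ.coeff r ≠ 0 := mul_ne_zero lβ lρ
      rw [pow_add (-y) (b + r) j, pow_add (-y) (b + r) (j + 1)]
      field_simp
  exact congrFun hfun y

end Pool.Agent.Lib_helper86.D24

end

section

namespace Pool.Agent.Lib_helper86.D24

open MvPolynomial Matrix


private lemma bN8_tln (P : P3) (y u : ℂ) :
    eval ![0, y, u] (tln P) = (starRingEnd ℂ) (eval ![(starRingEnd ℂ) u, (starRingEnd ℂ) y, 0] P) := by
  have : (eval ![0, y, u]).comp ((aeval ![(X 2 : P3), X 1, X 0]).toRingHom.comp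
      (MvPolynomial.map (starRingEnd ℂ))) =
      (starRingEnd ℂ).comp (eval ![(starRingEnd ℂ) u, (starRingEnd ℂ) y, 0]) := by
    apply MvPolynomial.ringHom_ext
    · intro a
      simp [algebraMap_eq]
    · intro j
      fin_cases j <;> simp
  exact RingHom.congr_fun this P

private lemma bN8_r2 (P : P3) (x : ℂ) : (r2 P).eval x = eval ![x, 1, 0] P := by
  have : (Polynomial.evalRingHom x).comp (r2 : P3 →ₐ[ℂ] Polynomial ℂ).toRingHom =
      eval ![x, 1, 0] := by
    apply MvPolynomial.ringHom_ext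
    · intro a
      simp [r2]
    · intro j
      fin_cases j <;> simp [r2]
  exact RingHom.congr_fun this P

private lemma bN8_hgn (r : ℕ) (g : Polynomial ℂ) (y u : ℂ) :
    eval ![0, y, u] (hgn r g) = g.coeff r * (-y) ^ r := by
  unfold hgn
  rw [map_sum, Finset.sum_range_succ, Finset.sum_eq_zero]
  · simp
  · intro i hi
    have : r - i ≠ 0 := by
      have := Finset.mem_range.1 hi
      omega
    simp [this]

/-- the relation on the tangent line -/
private lemma bN8_fa {Fe Fa Fo : P3} {r : ℕ} {ge ga β : Polynomial ℂ} {Mt : P3}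
    (hN : NF Fe Fa Fo r ge ga β Mt) (x : ℂ) :
    (starRingEnd ℂ) ((r2 Fa).eval x) = -(eval ![0, 1, (starRingEnd ℂ) x] Mt * (ge.coeff r * (-1) ^ r)) := by
  have h1 := congrArg (eval ![0, 1, (starRingEnd ℂ) x]) hN.facta
  rw [bN8_tln, map_neg, map_mul, bN8_hgn] at h1
  rw [bN8_r2]
  simpa using h1

private lemma bN8_ge {Fe Fa Fo : P3} {r : ℕ} {ge ga β : Polynomial ℂ} {Mt : P3}
    (hN : NF Fe Fa Fo r ge ga β Mt) : ge.coeff r ≠ 0 := by
  have h1 := hN.dege
  have h0 : ge ≠ 0 := by
    rintro rfl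
    have := hN.r1
    simp at h1
    omega
  rw [← h1]
  exact Polynomial.leadingCoeff_ne_zero.2 h0

private lemma bN8_pow (r : ℕ) : ((-1 : ℂ)) ^ r * (-1) ^ r = 1 := by
  rw [← mul_pow]; norm_num

/-- N8 -/
theorem rel_i {Fe Fa Fo : P3} {F : Fin 2 → P3} (h : ND Fe Fa Fo F) {r : ℕ}
    {ge ga β : Polynomial ℂ} {Mt : P3} (hN : NF Fe Fa Fo r ge ga β Mt) (c χ : ℂ)
    (ht : ∀ y u : ℂ, eval ![0, y, u] (tln Fe) =
      -(eval ![0, y, u] Mt * (c * u * (-y) ^ (r - 1) + χ * (-y) ^ r))) :
    r = 1 := by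
  have hr := hN.r1
  have hge := bN8_ge hN
  have h1 : r2 Fe * Polynomial.C ((starRingEnd ℂ) (ge.coeff r)) =
      r2 Fa * (Polynomial.C ((starRingEnd ℂ) χ) - Polynomial.C ((starRingEnd ℂ) c) * Polynomial.X) := by
    apply Polynomial.funext
    intro x
    simp only [Polynomial.eval_mul, Polynomial.eval_C, Polynomial.eval_sub, Polynomial.eval_X]
    apply (starRingEnd ℂ).injective
    have h2 := ht 1 ((starRingEnd ℂ) x)
    rw [bN8_tln] at h2
    simp only [Complex.conj_conj, map_one] at h2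
    rw [← bN8_r2] at h2
    have h3 := bN8_fa hN x
    simp only [map_mul, map_sub, Complex.conj_conj]
    rw [h2, h3]
    have h4 : ((-1 : ℂ)) ^ (r - 1) = - (-1) ^ r := by
      obtain ⟨k, rfl⟩ : ∃ k, r = k + 1 := ⟨r - 1, by omega⟩
      rw [Nat.add_sub_cancel, pow_succ]
      ring
    rw [h4]
    ring
  rw [hN.fe, hN.fa] at h1
  have h2 : ge * Polynomial.C ((starRingEnd ℂ) (ge.coeff r)) =
      ga * (Polynomial.C ((starRingEnd ℂ) χ) - Polynomial.C ((starRingEnd ℂ) c) * Polynomial.X) := by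
    apply mul_left_cancel₀ hN.β0
    rw [← mul_assoc, h1, mul_assoc]
  have hcr : (starRingEnd ℂ) (ge.coeff r) ≠ 0 := by simpa using hge
  have h3 : ga ∣ ge := by
    have h4 : ga ∣ ge * Polynomial.C ((starRingEnd ℂ) (ge.coeff r)) := by
      rw [h2]
      exact dvd_mul_right _ _
    exact (IsUnit.dvd_mul_right (Polynomial.isUnit_C.2 (isUnit_iff_ne_zero.2 hcr))).1 h4
  have h4 : IsUnit ga := hN.cop.isUnit_of_dvd' h3 dvd_rfl
  have h5 : (ge * Polynomial.C ((starRingEnd ℂ) (ge.coeff r))).natDegree = r := by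
    rw [Polynomial.natDegree_mul_C hcr, hN.dege]
  rw [h2] at h5
  have h6 : (ga * (Polynomial.C ((starRingEnd ℂ) χ) - Polynomial.C ((starRingEnd ℂ) c) * Polynomial.X)).natDegree ≤
      0 + 1 := by
    refine Polynomial.natDegree_mul_le_of_le ?_ ?_
    · exact (Polynomial.natDegree_eq_zero_of_isUnit h4).le
    · exact (Polynomial.natDegree_sub_le_of_le (m := 0) (n := 1)
        (Polynomial.natDegree_C ((starRingEnd ℂ) χ)).le ((Polynomial.natDegree_C_mul_le _ _).trans
          Polynomial.natDegree_X_le)).trans (by simp)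
  omega

/-- N9 -/
theorem rel_ii {Fe Fa Fo : P3} {F : Fin 2 → P3} (h : ND Fe Fa Fo F) {r : ℕ}
    {ge ga β : Polynomial ℂ} {Mt : P3} (hN : NF Fe Fa Fo r ge ga β Mt) (b : P3)
    (hbh : b.IsHomogeneous 5) {ρ : Polynomial ℂ} (hbρ : r2 b = β * ρ) (hr : 2 ≤ r) (c χ : ℂ)
    (ht : ∀ y u : ℂ, eval ![0, y, u] (tln b) =
      -(eval ![0, y, u] Mt * (c * u * (-y) ^ (r - 2) + χ * (-y) ^ (r - 1)))) :
    ∃ χ' : ℂ, Polynomial.C ((starRingEnd ℂ) (ge.coeff r)) * ρ =
      ga * (Polynomial.C ((starRingEnd ℂ) c) * Polynomial.X + Polynomial.C χ') := by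
  refine ⟨-(starRingEnd ℂ) χ, ?_⟩
  have h1 : r2 b * Polynomial.C ((starRingEnd ℂ) (ge.coeff r)) =
      r2 Fa * (Polynomial.C ((starRingEnd ℂ) c) * Polynomial.X + Polynomial.C (-(starRingEnd ℂ) χ)) := by
    apply Polynomial.funext
    intro x
    simp only [Polynomial.eval_mul, Polynomial.eval_C, Polynomial.eval_add, Polynomial.eval_X]
    apply (starRingEnd ℂ).injective
    have h2 := ht 1 ((starRingEnd ℂ) x)
    rw [bN8_tln] at h2
    simp only [Complex.conj_conj, map_one] at h2
    rw [← bN8_r2] at h2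
    have h3 := bN8_fa hN x
    simp only [map_mul, map_add, map_neg, Complex.conj_conj]
    rw [h2, h3]
    have h4 : ((-1 : ℂ)) ^ (r - 1) = - (-1) ^ r := by
      obtain ⟨k, rfl⟩ : ∃ k, r = k + 1 := ⟨r - 1, by omega⟩
      rw [Nat.add_sub_cancel, pow_succ]
      ring
    have h5 : ((-1 : ℂ)) ^ (r - 2) = (-1) ^ r := by
      obtain ⟨k, rfl⟩ : ∃ k, r = k + 2 := ⟨r - 2, by omega⟩
      rw [Nat.add_sub_cancel, pow_add]
      ring
    rw [h4, h5]
    ring
  rw [hbρ, hN.fa] at h1
  apply mul_left_cancel₀ hN.β0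
  rw [← mul_assoc β ga, ← h1]
  ring

/-- N10 -/
theorem dega_ii {Fe Fa Fo : P3} {F : Fin 2 → P3} (h : ND Fe Fa Fo F) {r : ℕ}
    {ge ga β : Polynomial ℂ} {Mt : P3} (hN : NF Fe Fa Fo r ge ga β Mt) (h3 : X 2 ^ 3 ∣ Fo) :
    ga.natDegree + 3 ≤ r := by
  obtain ⟨q, hq⟩ := h3
  have h1 : X 0 ^ 3 ∣ Mt * hgn r ga := by
    rw [← hN.facto, hq]
    refine ⟨tln q, ?_⟩
    simp [tln]
  have h2 : X 0 ^ 3 ∣ hgn r ga := by
    have hp : Prime (X 0 : P3) := MvPolynomial.X_prime
    exact hp.pow_dvd_of_dvd_mul_left 3 hN.nM h1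
  have h4 := map_dvd (aeval ![(Polynomial.X : Polynomial ℂ), -1, 0] : P3 →ₐ[ℂ] Polynomial ℂ) h2
  have h5 : (aeval ![(Polynomial.X : Polynomial ℂ), -1, 0] : P3 →ₐ[ℂ] Polynomial ℂ) (hgn r ga) =
      ∑ i ∈ Finset.range (r + 1), Polynomial.C (ga.coeff i) * Polynomial.X ^ (r - i) := by
    unfold hgn
    rw [map_sum]
    refine Finset.sum_congr rfl (fun i _ => ?_)
    simp
  rw [h5, map_pow, aeval_X, Matrix.cons_val_zero, Polynomial.X_pow_dvd_iff] at h4
  by_contra hcon
  have hd := hN.dega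
  have h6 := h4 (r - ga.natDegree) (by omega)
  rw [Polynomial.finsetSum_coeff, Finset.sum_eq_single ga.natDegree] at h6
  · simp only [Polynomial.coeff_C_mul, Polynomial.coeff_X_pow, if_true, mul_one] at h6
    exact hN.ga0 (Polynomial.leadingCoeff_eq_zero.1 h6)
  · intro i hi hne
    have := Finset.mem_range.1 hi
    rw [Polynomial.coeff_C_mul, Polynomial.coeff_X_pow, if_neg (by omega), mul_zero]
  · intro hi
    exact absurd (Finset.mem_range.2 (by omega)) hi

end Pool.Agent.Lib_helper86.D24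

end

section

namespace Pool.Agent.Lib_helper86.D24

open MvPolynomial Matrix


private lemma bN11_wr_coeff {p q : Polynomial ℂ} {s d : ℕ} (hp : p.natDegree = s + 1)
    (hq : q.natDegree = d) :
    (wr p q).natDegree ≤ s + d ∧
      (wr p q).coeff (s + d) = ((d : ℂ) - (s + 1)) * (p.coeff (s + 1) * q.coeff d) := by
  have hq' : (q * Polynomial.derivative p).natDegree ≤ s + d := by
    refine (Polynomial.natDegree_mul_le).trans ?_
    have := Polynomial.natDegree_derivative_le p
    omega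
  have hqc : (q * Polynomial.derivative p).coeff (s + d) =
      q.coeff d * (p.coeff (s + 1) * (s + 1)) := by
    have h := Polynomial.coeff_mul_add_eq_of_natDegree_le (f := q) (g := Polynomial.derivative p)
      (df := d) (dg := s) hq.le (by have := Polynomial.natDegree_derivative_le p; omega)
    rw [add_comm s d, h, Polynomial.coeff_derivative]
  rcases Nat.eq_zero_or_pos d with h0 | hpos
  · subst h0
    have hd : Polynomial.derivative q = 0 := by
      rw [Polynomial.eq_C_of_natDegree_eq_zero hq, Polynomial.derivative_C]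
    refine ⟨?_, ?_⟩
    · rw [wr, hd, mul_zero, zero_sub, Polynomial.natDegree_neg]
      exact hq'
    · rw [wr, hd, mul_zero, zero_sub, Polynomial.coeff_neg, hqc]
      push_cast
      ring
  · obtain ⟨e, rfl⟩ : ∃ e, d = e + 1 := ⟨d - 1, by omega⟩
    have hp' : (p * Polynomial.derivative q).natDegree ≤ s + (e + 1) := by
      refine (Polynomial.natDegree_mul_le).trans ?_
      have := Polynomial.natDegree_derivative_le q
      omega
    have hpc : (p * Polynomial.derivative q).coeff (s + (e + 1)) =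
        p.coeff (s + 1) * (q.coeff (e + 1) * (e + 1)) := by
      have h := Polynomial.coeff_mul_add_eq_of_natDegree_le (f := p) (g := Polynomial.derivative q)
        (df := s + 1) (dg := e) hp.le (by have := Polynomial.natDegree_derivative_le q; omega)
      rw [show s + (e + 1) = (s + 1) + e by ring, h, Polynomial.coeff_derivative]
    refine ⟨?_, ?_⟩
    · rw [wr]
      exact (Polynomial.natDegree_sub_le _ _).trans (max_le hp' hq')
    · rw [wr, Polynomial.coeff_sub, hpc, hqc]
      push_cast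
      ring

/-- N11: the sign -/
theorem case_ii_false {r : ℕ} {ge ga ρ : Polynomial ℂ} {κ χ : ℂ} (he : ge.natDegree = r)
    (ha : ga.natDegree + 3 ≤ r) (ha0 : ga ≠ 0) (hκ : κ ≠ 0) (hρ : ρ ≠ 0)
    (hρd : ρ.natDegree + 2 ≤ r)
    (h1 : Polynomial.C ((starRingEnd ℂ) (ge.coeff r)) * ρ =
      ga * (Polynomial.C ((starRingEnd ℂ) (κ * ρ.coeff (r - 2))) * Polynomial.X + Polynomial.C χ))
    (h2 : wr ge ga = Polynomial.C κ * ρ ^ 2) : False := by
  obtain ⟨s, rfl⟩ : ∃ s, r = s + 2 + 1 := ⟨r - 3, by omega⟩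
  set d := ga.natDegree with hd
  have hge0 : ge ≠ 0 := by
    rintro rfl
    simp at he
  have her : ge.coeff (s + 2 + 1) ≠ 0 := by
    rw [← he]
    exact Polynomial.leadingCoeff_ne_zero.mpr hge0
  have had : ga.coeff d ≠ 0 := Polynomial.leadingCoeff_ne_zero.mpr ha0
  obtain ⟨hw1, hw2⟩ := bN11_wr_coeff he hd.symm
  have hne : ((d : ℂ) - ((s + 2 : ℕ) + 1)) ≠ 0 := by
    intro h
    have h' : (d : ℂ) = ((s + 2 + 1 : ℕ) : ℂ) := by
      push_cast
      push_cast at h
      linear_combination h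
    have h'' : d = s + 2 + 1 := by exact_mod_cast h'
    omega
  have hw3 : (wr ge ga).coeff (s + 2 + d) ≠ 0 := by
    rw [hw2]
    exact mul_ne_zero hne (mul_ne_zero her had)
  have hw4 : (wr ge ga).natDegree = s + 2 + d :=
    le_antisymm hw1 (Polynomial.le_natDegree_of_ne_zero hw3)
  have hdeg : 2 * ρ.natDegree = s + 2 + d := by
    rw [← hw4, h2, Polynomial.natDegree_C_mul hκ, Polynomial.natDegree_pow]
  have hce : (starRingEnd ℂ) (ge.coeff (s + 2 + 1)) ≠ 0 := (map_ne_zero _).mpr her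
  have hl : (Polynomial.C ((starRingEnd ℂ) (ge.coeff (s + 2 + 1))) * ρ).natDegree = ρ.natDegree :=
    Polynomial.natDegree_C_mul hce
  have hl0 : Polynomial.C ((starRingEnd ℂ) (ge.coeff (s + 2 + 1))) * ρ ≠ 0 :=
    mul_ne_zero (Polynomial.C_ne_zero.mpr hce) hρ
  have hr2 : s + 2 + 1 - 2 = s + 1 := by omega
  rw [hr2] at h1
  by_cases hσ : ρ.coeff (s + 1) = 0
  · rw [hσ, mul_zero, map_zero, map_zero, zero_mul, zero_add] at h1
    have hχ : χ ≠ 0 := by
      rintro rfl
      apply hl0
      rw [h1, map_zero, mul_zero]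
    have h3 : ρ.natDegree = d := by
      rw [← hl, h1, Polynomial.natDegree_mul_C hχ]
    omega
  · have h3 : ρ.natDegree = s + 1 := by
      have := Polynomial.le_natDegree_of_ne_zero hσ
      omega
    have hds : d = s := by omega
    have hc1 : (starRingEnd ℂ) (ge.coeff (s + 2 + 1)) * ρ.coeff (s + 1) =
        ga.coeff d * (starRingEnd ℂ) (κ * ρ.coeff (s + 1)) := by
      have h4 := congrArg (fun P => Polynomial.coeff P (s + 1)) h1
      rw [Polynomial.coeff_C_mul, mul_add, Polynomial.coeff_add, Polynomial.coeff_mul_C,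
        ← mul_assoc, Polynomial.coeff_mul_X, Polynomial.coeff_mul_C] at h4
      rw [h4, hds]
      have h5 : ga.coeff (s + 1) = 0 := by
        apply Polynomial.coeff_eq_zero_of_natDegree_lt
        omega
      rw [h5, zero_mul, add_zero]
    have hc2 : -3 * (ge.coeff (s + 2 + 1) * ga.coeff d) = κ * ρ.coeff (s + 1) ^ 2 := by
      have h4 := hw2
      rw [h2, Polynomial.coeff_C_mul] at h4
      have h5 : (ρ ^ 2).coeff (s + 2 + d) = ρ.coeff (s + 1) ^ 2 := by
        have h6 := Polynomial.coeff_mul_add_eq_of_natDegree_le (f := ρ) (g := ρ)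
          (df := s + 1) (dg := s + 1) h3.le h3.le
        rw [sq, sq, ← h6]
        congr 1
        omega
      rw [h5, hds] at h4
      rw [h4, hds]
      push_cast
      ring
    set e := ge.coeff (s + 2 + 1) with hedef
    set a := ga.coeff d with hadef
    set σ := ρ.coeff (s + 1) with hσdef
    rw [map_mul] at hc1
    have h6 : -3 * (e * (starRingEnd ℂ) e) * σ = (κ * (starRingEnd ℂ) κ) * (σ * (starRingEnd ℂ) σ) * σ := by
      have : -3 * (e * (starRingEnd ℂ) e) * σ = -3 * e * ((starRingEnd ℂ) e * σ) := by ring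
      rw [this, hc1]
      linear_combination ((starRingEnd ℂ) κ * (starRingEnd ℂ) σ) * hc2
    have h7 := mul_right_cancel₀ hσ h6
    rw [Complex.mul_conj, Complex.mul_conj, Complex.mul_conj] at h7
    have h8 : -3 * Complex.normSq e = Complex.normSq κ * Complex.normSq σ := by
      exact_mod_cast h7
    have h9 := Complex.normSq_pos.mpr her
    have h10 := Complex.normSq_nonneg κ
    have h11 := Complex.normSq_nonneg σ
    nlinarith [mul_nonneg h10 h11]

end Pool.Agent.Lib_helper86.D24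

end

section

namespace Pool.Agent.Lib_helper86.D24

open MvPolynomial Matrix


/-- the values of `tln P` -/
theorem bN12_eval (P : P3) (w : V3) :
    eval w (tln P) = (starRingEnd ℂ) (eval ![(starRingEnd ℂ) (w 2), (starRingEnd ℂ) (w 1), (starRingEnd ℂ) (w 0)] P) := by
  induction P using MvPolynomial.induction_on with
  | C a => simp [tln]
  | add p q hp hq => 
    have : tln (p + q) = tln p + tln q := by simp [tln]
    rw [this, map_add, map_add, map_add, hp, hq]
  | mul_X p i hp =>
    have : tln (p * X i) = tln p * tln (X i) := by simp [tln]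
    rw [this, map_mul, map_mul, map_mul, hp]
    congr 1
    fin_cases i <;> simp [tln]

theorem bN12_sub (P : P3) (f : Fin 3 → P3) (w : V3) :
    eval w (aeval f P) = eval (fun i => eval w (f i)) P := by
  induction P using MvPolynomial.induction_on with
  | C a => simp
  | add p q hp hq => simp only [map_add, hp, hq]
  | mul_X p i hp => simp only [map_mul, hp, aeval_X, eval_X]

theorem bN12_poly (P : P3) (f : Fin 3 → Polynomial ℂ) (x : ℂ) :
    (aeval f P : Polynomial ℂ).eval x = eval (fun i => (f i).eval x) P := by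
  induction P using MvPolynomial.induction_on with
  | C a => simp
  | add p q hp hq => simp only [map_add, Polynomial.eval_add, hp, hq]
  | mul_X p i hp => simp only [map_mul, Polynomial.eval_mul, hp, aeval_X, eval_X]

/-- a polynomial which vanishes for `w₀ = 0`, `w₂ ≠ 0` is divisible by `X 0` -/
theorem bN12_dvd (P : P3) (h : ∀ w : V3, w 0 = 0 → w 2 ≠ 0 → eval w P = 0) : X 0 ∣ P := by
  have h1 : aeval ![(0 : P3), X 1, X 2] P = 0 := by
    have h2 : (X 2 : P3) * aeval ![(0 : P3), X 1, X 2] P = 0 := by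
      apply MvPolynomial.funext
      intro w
      rw [map_mul, map_zero, bN12_sub, eval_X]
      by_cases hw : w 2 = 0
      · rw [hw, zero_mul]
      · rw [h _ (by simp) (by simpa using hw), mul_zero]
    rcases mul_eq_zero.1 h2 with h3 | h3
    · exact absurd h3 (X_ne_zero 2)
    · exact h3
  have h4 : ∀ Q : P3, Ideal.Quotient.mk (Ideal.span {(X 0 : P3)}) (aeval ![(0 : P3), X 1, X 2] Q) =
      Ideal.Quotient.mk (Ideal.span {(X 0 : P3)}) Q := by
    intro Q
    induction Q using MvPolynomial.induction_on with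
    | C a => simp
    | add p q hp hq => simp only [map_add, hp, hq]
    | mul_X p i hp =>
      rw [map_mul, map_mul, map_mul, hp]
      congr 1
      fin_cases i
      · simp only [aeval_X]
        rw [eq_comm, Ideal.Quotient.eq]
        simp
      · simp
      · simp
  have h5 := h4 P
  rw [h1, map_zero, eq_comm, Ideal.Quotient.eq_zero_iff_mem, Ideal.mem_span_singleton] at h5
  exact h5

/-- homogeneity of the values -/
theorem bN12_hom {P : P3} {n : ℕ} (hP : P.IsHomogeneous n) (t : ℂ) (z : V3) :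
    eval (t • z) P = t ^ n * eval z P := by
  rw [eval_eq', eval_eq', Finset.mul_sum]
  refine Finset.sum_congr rfl fun d hd => ?_
  have h1 : ∑ i, d i = n := by
    have := hP.degree_eq_sum_deg_support hd
    rw [this, Finset.sum_subset (Finset.subset_univ d.support)]
    intro i _ hi
    simpa using hi
  simp only [Pi.smul_apply, smul_eq_mul, mul_pow, Finset.prod_mul_distrib, Finset.prod_pow_eq_pow_sum, h1]
  ring

/-- N12 -/
theorem nd_coef {M D1 : P3} (hM : M.IsHomogeneous 5) (hD : D1.IsHomogeneous 5)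
    (nM : ¬ X 0 ∣ tln M) (h : ∀ z w : V3, z ⬝ᵥ w = 0 → z 2 = 0 →
      eval w (tln M) * eval z D1 + eval z M * eval w (tln D1) = 0) :
    ∃ θ : ℂ, θ + (starRingEnd ℂ) θ = 0 ∧ D1 = C θ * M := by
  classical
  set μ : Polynomial ℂ := aeval ![(1 : Polynomial ℂ), Polynomial.X, 0] M with hμ
  set φ : Polynomial ℂ := aeval ![(1 : Polynomial ℂ), Polynomial.X, 0] D1 with hφ
  have eμ : ∀ y, μ.eval y = eval ![1, y, 0] M := by
    intro y
    rw [hμ, bN12_poly]
    congr 1
    congr 1
    funext i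
    fin_cases i <;> simp
  have eφ : ∀ y, φ.eval y = eval ![1, y, 0] D1 := by
    intro y
    rw [hφ, bN12_poly]
    congr 1
    congr 1
    funext i
    fin_cases i <;> simp
  -- `(z₀, z₁, 0)` for `z₀ ≠ 0`
  have sc : ∀ {Q : P3}, Q.IsHomogeneous 5 → ∀ z0 z1 : ℂ, z0 ≠ 0 →
      eval ![z0, z1, 0] Q = z0 ^ 5 * eval ![1, z1 / z0, 0] Q := by
    intro Q hQ z0 z1 h0
    rw [← bN12_hom hQ]
    congr 1
    congr 1
    funext i
    fin_cases i
    · simp
    · simp [mul_div_cancel₀, h0]
    · simp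
  have μ0 : μ ≠ 0 := by
    intro h0
    apply nM
    apply bN12_dvd
    intro w hw0 hw2
    have h1 : ![(starRingEnd ℂ) (w 2), (starRingEnd ℂ) (w 1), (starRingEnd ℂ) (w 0)] = ![(starRingEnd ℂ) (w 2), (starRingEnd ℂ) (w 1), (0 : ℂ)] := by
      rw [hw0, map_zero]
    rw [bN12_eval, h1, sc hM _ _ (by simpa using hw2), ← eμ, h0]
    simp
  have μ0' : ∃ y : ℂ, μ.eval y ≠ 0 := by
    by_contra hc
    exact μ0 (Polynomial.funext fun y => by
      rw [Polynomial.eval_zero]
      by_contra h1
      exact hc ⟨y, h1⟩)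
  obtain ⟨y0, hy0⟩ := μ0'
  -- the lowest power
  obtain ⟨μ', hμ', hμ'0⟩ := Polynomial.exists_eq_pow_rootMultiplicity_mul_and_not_dvd μ μ0 0
  set j := μ.rootMultiplicity 0
  rw [map_zero, sub_zero] at hμ' hμ'0
  let a : ℂ → Polynomial ℂ := fun t => aeval ![Polynomial.X, (-1 : Polynomial ℂ), Polynomial.C t] (tln M)
  let b : ℂ → Polynomial ℂ := fun t => aeval ![Polynomial.X, (-1 : Polynomial ℂ), Polynomial.C t] (tln D1)
  have ea : ∀ t x, (a t).eval x = eval ![x, -1, t] (tln M) := by
    intro t x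
    show (aeval ![Polynomial.X, (-1 : Polynomial ℂ), Polynomial.C t] (tln M) : Polynomial ℂ).eval x = _
    rw [bN12_poly]
    congr 1
    congr 1
    funext i
    fin_cases i <;> simp
  have eb : ∀ t x, (b t).eval x = eval ![x, -1, t] (tln D1) := by
    intro t x
    show (aeval ![Polynomial.X, (-1 : Polynomial ℂ), Polynomial.C t] (tln D1) : Polynomial ℂ).eval x = _
    rw [bN12_poly]
    congr 1
    congr 1
    funext i
    fin_cases i <;> simp
  have key : ∀ t, a t * φ + μ * b t = 0 := by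
    intro t
    apply Polynomial.funext
    intro x
    rw [Polynomial.eval_add, Polynomial.eval_mul, Polynomial.eval_mul, ea, eb, eμ, eφ,
      Polynomial.eval_zero]
    apply h
    · simp [dotProduct, Fin.sum_univ_three]
    · simp
  -- `a t` at `0`
  have ea0 : ∀ t, (a t).eval 0 = (starRingEnd ℂ) (eval ![(starRingEnd ℂ) t, -1, 0] M) := by
    intro t
    rw [ea, bN12_eval]
    simp
  have eb0 : ∀ t, (b t).eval 0 = (starRingEnd ℂ) (eval ![(starRingEnd ℂ) t, -1, 0] D1) := by
    intro t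
    rw [eb, bN12_eval]
    simp
  have M0 : ∃ t, (a t).eval 0 ≠ 0 := by
    by_contra hc
    have hc' : ∀ s : ℂ, eval ![s, -1, 0] M = 0 := by
      intro s
      by_contra h1
      exact hc ⟨(starRingEnd ℂ) s, by rw [ea0]; simpa using h1⟩
    have h2 : (Polynomial.X : Polynomial ℂ) * μ = 0 := by
      apply Polynomial.funext
      intro y
      rw [Polynomial.eval_mul, Polynomial.eval_X, Polynomial.eval_zero, eμ]
      by_cases hy : y = 0
      · rw [hy, zero_mul]
      · have h3 : ![1, y, (0 : ℂ)] = (-y) • ![-1 / y, -1, 0] := by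
          funext i
          fin_cases i
          · simp; field_simp
          · simp
          · simp
        rw [h3, bN12_hom hM, hc', mul_zero, mul_zero]
    rcases mul_eq_zero.1 h2 with h3 | h3
    · exact Polynomial.X_ne_zero h3
    · exact μ0 h3
  obtain ⟨t0, ht0⟩ := M0
  -- `φ` is divisible by the same power
  have hdvd : Polynomial.X ^ j ∣ φ := by
    have h1 : Polynomial.X ^ j ∣ a t0 * φ := by
      have h2 : a t0 * φ = -(μ * b t0) := eq_neg_of_add_eq_zero_left (key t0)
      rw [h2, hμ', mul_assoc]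
      exact (dvd_mul_right _ _).neg_right
    have h3 : ¬ Polynomial.X ∣ a t0 := by
      rw [Polynomial.X_dvd_iff, Polynomial.coeff_zero_eq_eval_zero]
      exact ht0
    exact Polynomial.prime_X.pow_dvd_of_dvd_mul_left j h3 h1
  obtain ⟨φ', hφ'⟩ := hdvd
  have hX : (Polynomial.X : Polynomial ℂ) ^ j ≠ 0 := pow_ne_zero _ Polynomial.X_ne_zero
  have key2 : ∀ t, (a t).eval 0 * φ'.eval 0 + μ'.eval 0 * (b t).eval 0 = 0 := by
    intro t
    have h1 : Polynomial.X ^ j * (a t * φ' + μ' * b t) = 0 := by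
      rw [← key t, hφ', hμ']
      ring
    have h2 : a t * φ' + μ' * b t = 0 := (mul_eq_zero.1 h1).resolve_left hX
    rw [← Polynomial.eval_mul, ← Polynomial.eval_mul, ← Polynomial.eval_add, h2,
      Polynomial.eval_zero]
  have hα : μ'.eval 0 ≠ 0 := by
    rw [← Polynomial.coeff_zero_eq_eval_zero]
    rwa [Polynomial.X_dvd_iff] at hμ'0
  set α := μ'.eval 0
  set β := φ'.eval 0
  have key3 : ∀ s : ℂ, (starRingEnd ℂ) β * eval ![s, -1, 0] M + (starRingEnd ℂ) α * eval ![s, -1, 0] D1 = 0 := by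
    intro s
    have h1 := key2 ((starRingEnd ℂ) s)
    rw [ea0, eb0, Complex.conj_conj] at h1
    have h2 := congrArg (starRingEnd ℂ) h1
    rw [map_add, map_mul, map_mul, Complex.conj_conj, Complex.conj_conj, map_zero] at h2
    linear_combination h2
  have key4 : Polynomial.C ((starRingEnd ℂ) β) * μ + Polynomial.C ((starRingEnd ℂ) α) * φ = 0 := by
    have h2 : (Polynomial.X : Polynomial ℂ) *
        (Polynomial.C ((starRingEnd ℂ) β) * μ + Polynomial.C ((starRingEnd ℂ) α) * φ) = 0 := by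
      apply Polynomial.funext
      intro y
      simp only [Polynomial.eval_mul, Polynomial.eval_X, Polynomial.eval_zero, Polynomial.eval_add,
        Polynomial.eval_C]
      rw [eμ, eφ]
      by_cases hy : y = 0
      · rw [hy, zero_mul]
      · have h3 : ![1, y, (0 : ℂ)] = (-y) • ![-1 / y, -1, 0] := by
          funext i
          fin_cases i
          · simp; field_simp
          · simp
          · simp
        rw [h3, bN12_hom hM, bN12_hom hD]
        linear_combination y * (-y) ^ 5 * key3 (-1 / y)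
    exact (mul_eq_zero.1 h2).resolve_left Polynomial.X_ne_zero
  have key5 : Polynomial.C ((starRingEnd ℂ) β) * μ' + Polynomial.C ((starRingEnd ℂ) α) * φ' = 0 := by
    have h1 : Polynomial.X ^ j * (Polynomial.C ((starRingEnd ℂ) β) * μ' + Polynomial.C ((starRingEnd ℂ) α) * φ') = 0 := by
      rw [← key4, hφ', hμ']
      ring
    exact (mul_eq_zero.1 h1).resolve_left hX
  have key6 : (starRingEnd ℂ) β * α + (starRingEnd ℂ) α * β = 0 := by
    have := congrArg (Polynomial.eval 0) key5
    simpa using this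
  have hα' : (starRingEnd ℂ) α ≠ 0 := by simpa using hα
  have hr : (starRingEnd ℂ) (β / α) = -(β / α) := by
    rw [map_div₀]
    field_simp
    linear_combination key6
  set r := β / α with hr0
  have hrα : β = r * α := by rw [hr0]; field_simp
  -- `φ = r μ`
  have key7 : φ = Polynomial.C r * μ := by
    have h1 : Polynomial.C ((starRingEnd ℂ) α) * (φ - Polynomial.C r * μ) = 0 := by
      have h2 : (starRingEnd ℂ) β = -(r * (starRingEnd ℂ) α) := by rw [hrα, map_mul, hr]; ring
      have h3 := key4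
      rw [h2, Polynomial.C_neg, Polynomial.C_mul] at h3
      linear_combination h3
    have h2 := (mul_eq_zero.1 h1).resolve_left (by simpa using hα')
    exact sub_eq_zero.1 h2
  refine ⟨r, by rw [hr]; ring, ?_⟩
  -- `tln D1 = - r tln M`
  have key8 : tln D1 = -(C r * tln M) := by
    have h1 : (X 1 * aeval ![(-X 1 : P3), X 0, 0] M) * (tln D1 + C r * tln M) = 0 := by
      apply MvPolynomial.funext
      intro w
      have e : (fun i => eval w ((![(-X 1 : P3), X 0, 0] : Fin 3 → P3) i)) = ![-w 1, w 0, 0] := by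
        funext i
        fin_cases i <;> simp
      simp only [map_mul, map_add, map_zero, eval_X, eval_C]
      rw [bN12_sub, e]
      by_cases hw : w 1 = 0
      · rw [hw]; ring
      · have h2 := h ![-w 1, w 0, 0] w (by simp [dotProduct, Fin.sum_univ_three]; ring) (by simp)
        have hw' : -w 1 ≠ 0 := neg_ne_zero.2 hw
        have h3 : eval ![-w 1, w 0, 0] D1 = r * eval ![-w 1, w 0, 0] M := by
          rw [sc hM _ _ hw', sc hD _ _ hw', ← eμ, ← eφ, key7, Polynomial.eval_mul,
            Polynomial.eval_C]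
          ring
        rw [h3] at h2
        linear_combination w 1 * h2
    have h2 : (X 1 * aeval ![(-X 1 : P3), X 0, 0] M : P3) ≠ 0 := by
      apply mul_ne_zero (X_ne_zero 1)
      intro h3
      have h4 := congrArg (eval ![y0, -1, 0]) h3
      rw [bN12_sub, map_zero] at h4
      have e : (fun i => eval ![y0, (-1 : ℂ), 0] ((![(-X 1 : P3), X 0, 0] : Fin 3 → P3) i)) =
          ![1, y0, 0] := by
        funext i
        fin_cases i <;> simp
      rw [e, ← eμ] at h4
      exact hy0 h4
    have h3 := (mul_eq_zero.1 h1).resolve_left h2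
    exact eq_neg_of_add_eq_zero_left h3
  apply MvPolynomial.funext
  intro z
  have h1 := congrArg (eval ![(starRingEnd ℂ) (z 2), (starRingEnd ℂ) (z 1), (starRingEnd ℂ) (z 0)]) key8
  rw [map_neg, map_mul, eval_C, bN12_eval, bN12_eval] at h1
  have e : ![(starRingEnd ℂ) ((![(starRingEnd ℂ) (z 2), (starRingEnd ℂ) (z 1), (starRingEnd ℂ) (z 0)] : V3) 2),
      (starRingEnd ℂ) ((![(starRingEnd ℂ) (z 2), (starRingEnd ℂ) (z 1), (starRingEnd ℂ) (z 0)] : V3) 1),
      (starRingEnd ℂ) ((![(starRingEnd ℂ) (z 2), (starRingEnd ℂ) (z 1), (starRingEnd ℂ) (z 0)] : V3) 0)] = z := by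
    funext i
    fin_cases i <;> simp
  rw [e] at h1
  have h2 := congrArg (starRingEnd ℂ) h1
  rw [Complex.conj_conj, map_neg, map_mul, Complex.conj_conj, hr] at h2
  rw [h2, map_mul, eval_C]
  ring

end Pool.Agent.Lib_helper86.D24

end

section

namespace Pool.Agent.Lib_helper86.D24

open MvPolynomial Matrix


/-- `tln` as a ring homomorphism -/
private noncomputable def n13T : P3 →+* P3 :=
  ((aeval ![(X 2 : P3), X 1, X 0] : P3 →ₐ[ℂ] P3) : P3 →+* P3).comp (MvPolynomial.map (starRingEnd ℂ))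

private theorem n13T_eq (P : P3) : tln P = n13T P := rfl

private theorem n13T_C (a : ℂ) : n13T (C a) = C ((starRingEnd ℂ) a) := by
  simp [n13T]

private theorem n13T_X : n13T (X 0) = X 2 ∧ n13T (X 1) = X 1 ∧ n13T (X 2) = X 0 := by
  refine ⟨?_, ?_, ?_⟩ <;> simp [n13T]

private theorem n13T_invol (P : P3) : n13T (n13T P) = P := by
  have h : n13T.comp n13T = RingHom.id P3 := by
    obtain ⟨h0, h1, h2⟩ := n13T_X
    refine MvPolynomial.ringHom_ext (fun a => ?_) (fun i => ?_)
    · rw [RingHom.comp_apply, n13T_C, n13T_C]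
      simp
    · rw [RingHom.comp_apply, RingHom.id_apply]
      fin_cases i
      · show n13T (n13T (X 0)) = X 0
        rw [h0, h2]
      · show n13T (n13T (X 1)) = X 1
        rw [h1, h1]
      · show n13T (n13T (X 2)) = X 2
        rw [h2, h0]
  exact DFunLike.congr_fun h P

private theorem n13T_eval (P : P3) (w : V3) :
    eval w (n13T P) = (starRingEnd ℂ) (eval ![(starRingEnd ℂ) (w 2), (starRingEnd ℂ) (w 1), (starRingEnd ℂ) (w 0)] P) := by
  have h : (eval w).comp n13T = (starRingEnd ℂ).comp (eval ![(starRingEnd ℂ) (w 2), (starRingEnd ℂ) (w 1), (starRingEnd ℂ) (w 0)]) := by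
    obtain ⟨h0, h1, h2⟩ := n13T_X
    refine MvPolynomial.ringHom_ext (fun a => ?_) (fun i => ?_)
    · rw [RingHom.comp_apply, n13T_C]
      simp
    · rw [RingHom.comp_apply]
      fin_cases i
      · show eval w (n13T (X 0)) = _
        rw [h0]; simp
      · show eval w (n13T (X 1)) = _
        rw [h1]; simp
      · show eval w (n13T (X 2)) = _
        rw [h2]; simp
  exact DFunLike.congr_fun h P

private theorem n13_eval (v : Fin 3 → Polynomial ℂ) (t : ℂ) (p : P3) :
    (aeval v p).eval t = eval (fun i => (v i).eval t) p := by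
  have h : (Polynomial.evalRingHom t).comp ((aeval v : P3 →ₐ[ℂ] Polynomial ℂ) : P3 →+* Polynomial ℂ)
      = eval (fun i => (v i).eval t) := by
    refine MvPolynomial.ringHom_ext (fun a => ?_) (fun i => ?_)
    · simp
    · simp
  exact DFunLike.congr_fun h p

/-- cancelling `z_2 w_0` on `z·w = 0` -/
private theorem n13_cancel {n : ℕ} (p q : Fin n → P3) (hp : ∀ k, eval 0 (p k) = 0)
    (h : ∀ z w : V3, z ⬝ᵥ w = 0 → z 2 * w 0 * ∑ k, eval z (p k) * eval w (q k) = 0) :
    ∀ z w : V3, z ⬝ᵥ w = 0 → ∑ k, eval z (p k) * eval w (q k) = 0 := by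
  intro z w hzw
  rcases eq_or_ne z 0 with hz | hz
  · subst hz
    exact Finset.sum_eq_zero fun k _ => by rw [hp k, zero_mul]
  · obtain ⟨u0, u1, u2, hu0, hu1, hu2⟩ : ∃ u0 u1 u2 : ℂ, w 0 = u1 * z 2 - u2 * z 1 ∧
        w 1 = u2 * z 0 - u0 * z 2 ∧ w 2 = u0 * z 1 - u1 * z 0 := by
      set N : ℂ := (starRingEnd ℂ) (z 0) * z 0 + (starRingEnd ℂ) (z 1) * z 1 + (starRingEnd ℂ) (z 2) * z 2 with hN
      have hN0 : N ≠ 0 := by
        intro h0
        apply hz
        have h1 : (Complex.normSq (z 0) : ℂ) + Complex.normSq (z 1) + Complex.normSq (z 2) = 0 := by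
          rw [Complex.normSq_eq_conj_mul_self, Complex.normSq_eq_conj_mul_self,
            Complex.normSq_eq_conj_mul_self]
          exact h0
        have h2 : Complex.normSq (z 0) + Complex.normSq (z 1) + Complex.normSq (z 2) = 0 := by
          exact_mod_cast h1
        have n0 := Complex.normSq_nonneg (z 0)
        have n1 := Complex.normSq_nonneg (z 1)
        have n2 := Complex.normSq_nonneg (z 2)
        have g0 : z 0 = 0 := Complex.normSq_eq_zero.1 (by linarith)
        have g1 : z 1 = 0 := Complex.normSq_eq_zero.1 (by linarith)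
        have g2 : z 2 = 0 := Complex.normSq_eq_zero.1 (by linarith)
        ext i
        fin_cases i
        · exact g0
        · exact g1
        · exact g2
      have hzw' : z 0 * w 0 + z 1 * w 1 + z 2 * w 2 = 0 := by
        rw [← hzw, dotProduct, Fin.sum_univ_three]
      refine ⟨N⁻¹ * ((starRingEnd ℂ) (z 1) * w 2 - (starRingEnd ℂ) (z 2) * w 1), N⁻¹ * ((starRingEnd ℂ) (z 2) * w 0 - (starRingEnd ℂ) (z 0) * w 2),
        N⁻¹ * ((starRingEnd ℂ) (z 0) * w 1 - (starRingEnd ℂ) (z 1) * w 0), ?_, ?_, ?_⟩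
      · have h1 : N * w 0 = N * (N⁻¹ * ((starRingEnd ℂ) (z 2) * w 0 - (starRingEnd ℂ) (z 0) * w 2) * z 2 -
            N⁻¹ * ((starRingEnd ℂ) (z 0) * w 1 - (starRingEnd ℂ) (z 1) * w 0) * z 1) := by
          rw [show ∀ a b c d : ℂ, N * (N⁻¹ * a * b - N⁻¹ * c * d) = (N * N⁻¹) * (a * b - c * d) from
            fun a b c d => by ring, mul_inv_cancel₀ hN0, one_mul, hN]
          linear_combination ((starRingEnd ℂ) (z 0)) * hzw'
        exact mul_left_cancel₀ hN0 h1
      · have h1 : N * w 1 = N * (N⁻¹ * ((starRingEnd ℂ) (z 0) * w 1 - (starRingEnd ℂ) (z 1) * w 0) * z 0 -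
            N⁻¹ * ((starRingEnd ℂ) (z 1) * w 2 - (starRingEnd ℂ) (z 2) * w 1) * z 2) := by
          rw [show ∀ a b c d : ℂ, N * (N⁻¹ * a * b - N⁻¹ * c * d) = (N * N⁻¹) * (a * b - c * d) from
            fun a b c d => by ring, mul_inv_cancel₀ hN0, one_mul, hN]
          linear_combination ((starRingEnd ℂ) (z 1)) * hzw'
        exact mul_left_cancel₀ hN0 h1
      · have h1 : N * w 2 = N * (N⁻¹ * ((starRingEnd ℂ) (z 1) * w 2 - (starRingEnd ℂ) (z 2) * w 1) * z 1 -
            N⁻¹ * ((starRingEnd ℂ) (z 2) * w 0 - (starRingEnd ℂ) (z 0) * w 2) * z 0) := by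
          rw [show ∀ a b c d : ℂ, N * (N⁻¹ * a * b - N⁻¹ * c * d) = (N * N⁻¹) * (a * b - c * d) from
            fun a b c d => by ring, mul_inv_cancel₀ hN0, one_mul, hN]
          linear_combination ((starRingEnd ℂ) (z 2)) * hzw'
        exact mul_left_cancel₀ hN0 h1
    -- the curve
    let Z : Fin 3 → Polynomial ℂ := ![Polynomial.C (z 0), Polynomial.C (z 1), Polynomial.C (z 2) + Polynomial.X]
    let U1 : Polynomial ℂ := Polynomial.C u1 + Polynomial.X
    let W : Fin 3 → Polynomial ℂ := ![U1 * Z 2 - Polynomial.C u2 * Z 1,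
      Polynomial.C u2 * Z 0 - Polynomial.C u0 * Z 2, Polynomial.C u0 * Z 1 - U1 * Z 0]
    let S : Polynomial ℂ := ∑ k, aeval Z (p k) * aeval W (q k)
    have hS : ∀ t : ℂ, S.eval t = ∑ k, eval (fun i => (Z i).eval t) (p k) * eval (fun i => (W i).eval t) (q k) := by
      intro t
      simp only [S, Polynomial.eval_finsetSum, Polynomial.eval_mul, n13_eval]
    have hz2 : (Z 2) ≠ 0 := by
      show Polynomial.C (z 2) + Polynomial.X ≠ 0
      intro h0
      have := congrArg (fun f : Polynomial ℂ => f.coeff 1) h0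
      simp at this
    have hw0 : (W 0) ≠ 0 := by
      show (Polynomial.C u1 + Polynomial.X) * (Polynomial.C (z 2) + Polynomial.X) -
        Polynomial.C u2 * Polynomial.C (z 1) ≠ 0
      intro h0
      have h1 : (Polynomial.C u1 + Polynomial.X) * (Polynomial.C (z 2) + Polynomial.X) -
        Polynomial.C u2 * Polynomial.C (z 1) = Polynomial.X ^ 2 + Polynomial.C (u1 + z 2) * Polynomial.X
          + Polynomial.C (u1 * z 2 - u2 * z 1) := by
        simp only [Polynomial.C_add, Polynomial.C_sub, Polynomial.C_mul]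
        ring
      rw [h1] at h0
      have := congrArg (fun f : Polynomial ℂ => f.coeff 2) h0
      simp at this
    have hprod : Z 2 * W 0 * S = 0 := by
      refine Polynomial.funext fun t => ?_
      have h1 := h (fun i => (Z i).eval t) (fun i => (W i).eval t) (by
        simp only [dotProduct, Fin.sum_univ_three, Z, W, Matrix.cons_val_zero, Matrix.cons_val_one,
          Matrix.cons_val_two, Matrix.cons_val, Matrix.head_cons, Matrix.tail_cons, Polynomial.eval_sub, Polynomial.eval_mul]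
        ring)
      rw [Polynomial.eval_mul, Polynomial.eval_mul, hS t, Polynomial.eval_zero]
      exact h1
    have hS0 : S = 0 := by
      rcases mul_eq_zero.1 hprod with h1 | h1
      · exact absurd h1 (mul_ne_zero hz2 hw0)
      · exact h1
    have h3 := hS 0
    rw [hS0, Polynomial.eval_zero] at h3
    have e1 : (fun i => (Z i).eval 0) = z := by
      ext i
      fin_cases i <;> simp [Z]
    have e2 : (fun i => (W i).eval 0) = w := by
      ext i
      fin_cases i
      · simp [Z, W, U1, hu0]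
      · simp [Z, W, U1, hu1]
      · simp [Z, W, U1, hu2]
    rw [e1, e2] at h3
    exact h3.symm

/-- divisibility by `X 2` -/
private theorem n13_dvd (p : P3) (h : ∀ z0 z1 : ℂ, eval ![z0, z1, 0] p = 0) : X 2 ∣ p := by
  have h0 : aeval ![(X 0 : P3), X 1, 0] p = 0 := by
    refine MvPolynomial.funext fun z => ?_
    have h1 : (eval z).comp ((aeval ![(X 0 : P3), X 1, 0] : P3 →ₐ[ℂ] P3) : P3 →+* P3) = eval ![z 0, z 1, 0] := by
      refine MvPolynomial.ringHom_ext (fun a => by simp) (fun i => ?_)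
      fin_cases i <;> simp
    have h2 := DFunLike.congr_fun h1 p
    rw [map_zero]
    exact h2.trans (h _ _)
  set I : Ideal P3 := Ideal.span {X 2} with hI
  have h1 : (Ideal.Quotient.mk I).comp ((aeval ![(X 0 : P3), X 1, 0] : P3 →ₐ[ℂ] P3) : P3 →+* P3)
      = Ideal.Quotient.mk I := by
    refine MvPolynomial.ringHom_ext (fun a => by simp) (fun i => ?_)
    fin_cases i
    · simp
    · simp
    · have : (Ideal.Quotient.mk I) (X 2) = 0 := Ideal.Quotient.eq_zero_iff_mem.2 (Ideal.mem_span_singleton_self _)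
      simp [this]
  have h2 := DFunLike.congr_fun h1 p
  have h3 : (Ideal.Quotient.mk I) p = 0 := by
    rw [← h2, RingHom.comp_apply]
    have : ((aeval ![(X 0 : P3), X 1, 0] : P3 →ₐ[ℂ] P3) : P3 →+* P3) p = 0 := h0
    rw [this, map_zero]
  exact Ideal.mem_span_singleton.1 (Ideal.Quotient.eq_zero_iff_mem.1 h3)

private theorem n13_ev0 {p : P3} {d : ℕ} (h : p.IsHomogeneous (d + 1)) : eval 0 p = 0 := by
  have h1 : eval (0 : V3) p = constantCoeff p := by
    have : (eval (0 : V3)) = (constantCoeff : P3 →+* ℂ) := by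
      refine MvPolynomial.ringHom_ext (fun a => by simp) (fun i => by simp)
    rw [this]
  rw [h1, constantCoeff_eq]
  exact h.coeff_eq_zero (by simp)

/-- N13 (uses N12, D0) -/
theorem null_r1_false {Fe Fa Fo : P3} {F : Fin 2 → P3} (h : ND Fe Fa Fo F)
    {ge ga β : Polynomial ℂ} {Mt : P3} (hN : NF Fe Fa Fo 1 ge ga β Mt) (h3 : X 2 ^ 3 ∣ F 1) :
    False := by
  have T0 : n13T (X 0) = X 2 := n13T_X.1
  have T1 : n13T (X 1) = X 1 := n13T_X.2.1
  have T2 : n13T (X 2) = X 0 := n13T_X.2.2
  have hMt0 : Mt ≠ 0 := fun h0 => hN.nM (h0 ▸ dvd_zero _)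
  set a0 : ℂ := ga.coeff 0 with ha0
  set e0 : ℂ := ge.coeff 0 with he0
  set e1 : ℂ := ge.coeff 1 with he1
  have hga1 : ga.coeff 1 = 0 := Polynomial.coeff_eq_zero_of_natDegree_lt hN.dega
  have ha00 : a0 ≠ 0 := by
    intro h0
    apply hN.ga0
    have hd : ga.natDegree ≤ 0 := by
      have := hN.dega
      omega
    rw [Polynomial.eq_C_of_natDegree_le_zero hd, ← ha0, h0, Polynomial.C_0]
  have hFo' : tln Fo = Mt * (C a0 * X 0) := by
    rw [hN.facto, hgn]
    simp [Finset.sum_range_succ, hga1, ← ha0]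
  have hFa' : tln Fa = -(Mt * (C e0 * X 0 - C e1 * X 1)) := by
    rw [hN.facta, hgn, Finset.sum_range_succ, Finset.sum_range_one, ← he0, ← he1]
    ring
  set M : P3 := n13T Mt with hM
  have hTM : n13T M = Mt := n13T_invol Mt
  have hFo : Fo = M * (C ((starRingEnd ℂ) a0) * X 2) := by
    rw [← n13T_invol Fo, ← n13T_eq Fo, hFo', map_mul, map_mul, n13T_C, T0]
  have hFa : Fa = -(M * (C ((starRingEnd ℂ) e0) * X 2 - C ((starRingEnd ℂ) e1) * X 1)) := by
    rw [← n13T_invol Fa, ← n13T_eq Fa, hFa', map_neg, map_mul, map_sub, map_mul, map_mul, n13T_C,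
      n13T_C, T0, T1]
  have hMhom : M.IsHomogeneous 5 := by
    have := tln_hom hN.homM
    exact this
  obtain ⟨c0, hc0⟩ := h.dF0
  obtain ⟨c1, hc1⟩ := h3
  have hc0h : c0.IsHomogeneous 3 := by
    have e : F 0 = X 2 * (X 2 * (X 2 * c0)) := by rw [hc0]; ring
    exact hom_of_X2_mul (hom_of_X2_mul (hom_of_X2_mul (h.homF 0) e) rfl) rfl
  have hc1h : c1.IsHomogeneous 3 := by
    have e : F 1 = X 2 * (X 2 * (X 2 * c1)) := by rw [hc1]; ring
    exact hom_of_X2_mul (hom_of_X2_mul (hom_of_X2_mul (h.homF 1) e) rfl) rfl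
  -- the polynomial D
  set D : P3 := C a0 * Fe - M * (C ((starRingEnd ℂ) e1 * e1) * X 0 + C ((starRingEnd ℂ) e1 * e0) * X 1 -
    C ((starRingEnd ℂ) e0 * e0 / 2) * X 2) with hD
  have hDhom : D.IsHomogeneous (5 + 1) := by
    refine IsHomogeneous.sub ?_ ?_
    · have := (isHomogeneous_C (Fin 3) a0).mul h.home
      simpa using this
    · refine hMhom.mul ?_
      have l : ∀ (a : ℂ) (i : Fin 3), (C a * X i : P3).IsHomogeneous 1 := fun a i => by
        have := (isHomogeneous_C (Fin 3) a).mul (isHomogeneous_X ℂ i)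
        simpa using this
      exact ((l _ _).add (l _ _)).sub (l _ _)
  have hTD : n13T D = C ((starRingEnd ℂ) a0) * n13T Fe - Mt * (C ((starRingEnd ℂ) e1 * e1) * X 2 + C (e1 * (starRingEnd ℂ) e0) * X 1 -
      C ((starRingEnd ℂ) e0 * e0 / 2) * X 0) := by
    rw [hD]
    simp only [map_sub, map_add, map_mul, n13T_C, T0, T1, T2, hTM, Complex.conj_conj, map_div₀,
      map_ofNat]
    ring_nf
  -- the relation
  have hrel : ∀ z w : V3, z ⬝ᵥ w = 0 →
      w 0 * eval w Mt * eval z D + z 2 * eval z M * eval w (n13T D) +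
      (z 2 * w 0) ^ 3 * (eval z c0 * eval w (n13T c0) + eval z c1 * eval w (n13T c1)) = 0 := by
    intro z w hzw
    have hzw' : z 0 * w 0 + z 1 * w 1 + z 2 * w 2 = 0 := by
      rw [← hzw, dotProduct, Fin.sum_univ_three]
    have h1 := h.herm z ![(starRingEnd ℂ) (w 2), (starRingEnd ℂ) (w 1), (starRingEnd ℂ) (w 0)] (by
      simp [qn]
      linear_combination hzw')
    rw [← n13T_eval, ← n13T_eval, ← n13T_eval, Fin.sum_univ_two, ← n13T_eval, ← n13T_eval,
      ← n13T_eq Fo, ← n13T_eq Fa, hFo', hFa', hFo, hFa, hc0, hc1] at h1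
    simp only [map_mul, map_pow, T2, map_sub, map_neg, eval_X, eval_C] at h1
    rw [hTD, hD]
    simp only [map_mul, map_sub, map_add, eval_X, eval_C]
    linear_combination h1 + (-((starRingEnd ℂ) e1 * e1) * eval w Mt * eval z M) * hzw'
  -- `D` is divisible by `X 2`
  have hDv : ∀ z0 z1 : ℂ, eval ![z0, z1, 0] D = 0 := by
    have hpoly : (X 1 : P3) * aeval ![-(X 1 : P3), X 0, X 2] Mt * aeval ![(X 0 : P3), X 1, 0] D = 0 := by
      refine MvPolynomial.funext fun u => ?_
      have h1 := hrel ![u 0, u 1, 0] ![-u 1, u 0, u 2] (by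
        simp [dotProduct, Fin.sum_univ_three]
        ring)
      have g1 : (eval u).comp ((aeval ![-(X 1 : P3), X 0, X 2] : P3 →ₐ[ℂ] P3) : P3 →+* P3) =
          eval ![-u 1, u 0, u 2] := by
        refine MvPolynomial.ringHom_ext (fun a => by simp) (fun i => ?_)
        fin_cases i <;> simp
      have g2 : (eval u).comp ((aeval ![(X 0 : P3), X 1, 0] : P3 →ₐ[ℂ] P3) : P3 →+* P3) =
          eval ![u 0, u 1, 0] := by
        refine MvPolynomial.ringHom_ext (fun a => by simp) (fun i => ?_)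
        fin_cases i <;> simp
      have g1' : eval u (aeval ![-(X 1 : P3), X 0, X 2] Mt) = eval ![-u 1, u 0, u 2] Mt :=
        DFunLike.congr_fun g1 Mt
      have g2' : eval u (aeval ![(X 0 : P3), X 1, 0] D) = eval ![u 0, u 1, 0] D :=
        DFunLike.congr_fun g2 D
      rw [map_mul, map_mul, g1', g2', eval_X, map_zero]
      have e0 : (![u 0, u 1, 0] : V3) 2 = 0 := rfl
      have e1 : (![-u 1, u 0, u 2] : V3) 0 = -u 1 := rfl
      rw [e0, e1] at h1
      linear_combination -h1
    have hMt1 : aeval ![-(X 1 : P3), X 0, X 2] Mt ≠ 0 := by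
      intro h0
      apply hMt0
      have g : ((aeval ![(X 1 : P3), -(X 0 : P3), X 2] : P3 →ₐ[ℂ] P3)).comp
          (aeval ![-(X 1 : P3), X 0, X 2] : P3 →ₐ[ℂ] P3) = AlgHom.id ℂ P3 := by
        refine MvPolynomial.algHom_ext fun i => ?_
        fin_cases i <;> simp
      have g' := DFunLike.congr_fun g Mt
      rw [AlgHom.comp_apply, h0, map_zero] at g'
      exact g'.symm
    have hD0 : aeval ![(X 0 : P3), X 1, 0] D = 0 := by
      rcases mul_eq_zero.1 hpoly with h1 | h1
      · exact absurd h1 (mul_ne_zero (X_ne_zero _) hMt1)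
      · exact h1
    intro z0 z1
    have g2 : (eval ![z0, z1, 0]).comp ((aeval ![(X 0 : P3), X 1, 0] : P3 →ₐ[ℂ] P3) : P3 →+* P3) =
        eval ![z0, z1, 0] := by
      refine MvPolynomial.ringHom_ext (fun a => by simp) (fun i => ?_)
      fin_cases i <;> simp
    have g2' : eval ![z0, z1, 0] (aeval ![(X 0 : P3), X 1, 0] D) = eval ![z0, z1, 0] D :=
      DFunLike.congr_fun g2 D
    rw [← g2', hD0, map_zero]
  obtain ⟨D1, hD1⟩ := n13_dvd D hDv
  have hD1h : D1.IsHomogeneous 5 := hom_of_X2_mul hDhom hD1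
  have hTD1 : n13T D = X 0 * n13T D1 := by rw [hD1, map_mul, T2]
  have hrel1 := n13_cancel ![D1, M, X 2 ^ 2 * c0, X 2 ^ 2 * c1]
    ![Mt, n13T D1, X 0 ^ 2 * n13T c0, X 0 ^ 2 * n13T c1] (by
      intro k
      fin_cases k
      · exact n13_ev0 hD1h
      · exact n13_ev0 hMhom
      · simp
      · simp) (by
      intro z w hzw
      have h1 := hrel z w hzw
      rw [hTD1, hD1] at h1
      simp only [Fin.sum_univ_four, Matrix.cons_val_zero, Matrix.cons_val_one, Matrix.cons_val,
        map_mul, map_pow, eval_X] at h1 ⊢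
      linear_combination h1)
  obtain ⟨θ, hθ, hD1θ⟩ := nd_coef hMhom hD1h (by rw [n13T_eq, hTM]; exact hN.nM) (by
    intro z w hzw hz2
    have h1 := hrel1 z w hzw
    simp only [Fin.sum_univ_four, Matrix.cons_val_zero, Matrix.cons_val_one, Matrix.cons_val,
      map_mul, map_pow, eval_X, hz2] at h1
    rw [n13T_eq, n13T_eq, hTM]
    linear_combination h1)
  have hTD1' : n13T D1 = C ((starRingEnd ℂ) θ) * Mt := by rw [hD1θ, map_mul, n13T_C, hTM]
  have hrel2 := n13_cancel ![X 2 * c0, X 2 * c1] ![X 0 * n13T c0, X 0 * n13T c1] (by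
      intro k
      fin_cases k <;> simp) (by
      intro z w hzw
      have h1 := hrel1 z w hzw
      rw [hTD1', hD1θ] at h1
      simp only [Fin.sum_univ_four, Fin.sum_univ_two, Matrix.cons_val_zero, Matrix.cons_val_one,
        Matrix.cons_val, map_mul, map_pow, eval_X, eval_C] at h1 ⊢
      linear_combination h1 - eval z M * eval w Mt * hθ)
  have hrel3 := n13_cancel ![c0, c1] ![n13T c0, n13T c1] (by
      intro k
      fin_cases k
      · exact n13_ev0 hc0h
      · exact n13_ev0 hc1h) (by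
      intro z w hzw
      have h1 := hrel2 z w hzw
      simp only [Fin.sum_univ_two, Matrix.cons_val_zero, Matrix.cons_val_one,
        Matrix.cons_val, map_mul, map_pow, eval_X, eval_C] at h1 ⊢
      linear_combination h1)
  have hind : LinearIndependent ℂ ![c0, c1] := by
    have e : (LinearMap.mulLeft ℂ (X 2 ^ 3 : P3)) ∘ ![c0, c1] = F := by
      ext1 i
      fin_cases i
      · simpa using hc0.symm
      · simpa using hc1.symm
    have h1 := h.indF
    rw [← e] at h1
    exact h1.of_comp _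
  have hc00 : c0 ≠ 0 := hind.ne_zero 0
  refine D0 ![c0, c1] ![n13T c0, n13T c1] hind ⟨0, fun h0 => hc00 ?_⟩ hrel3
  have h1 : n13T c0 = 0 := h0
  rw [← n13T_invol c0, h1, map_zero]

end Pool.Agent.Lib_helper86.D24

end

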