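import Pool.Agent.Lib_helper86.D24.Defs

/-!
# `D(2,4) = 5`: definitions for the Hermitian part
-/

namespace Pool.Agent.Lib_helper86.D24

open MvPolynomial Matrix


/-- A homogeneous map of degree 6 which maps `hf`-orthogonal vectors to `hf`-orthogonal ones. -/
structure HMap (F : Fin 5 → P3) : Prop where
  hom : ∀ i, (F i).IsHomogeneous 6
  herm : ∀ z w : V3, hf z w = 0 → hf (fun i => eval z (F i)) (fun i => eval w (F i)) = 0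
  prim : Prim F
  full : ∃ (z v : V3) (s : Fin 4 → Fin 5), mn (fun k : Fin 4 => ej F v (k : ℕ) z) s ≠ 0

/-- The form `ε z₀ w̄₀ + z₁ w̄₁ - ε z₂ w̄₂`. -/
noncomputable def qd (ε : ℝ) (z w : V3) : ℂ :=
  (ε : ℂ) * (z 0 * (starRingEnd ℂ) (w 0)) + z 1 * (starRingEnd ℂ) (w 1) - (ε : ℂ) * (z 2 * (starRingEnd ℂ) (w 2))

/-- The form `z₀ w̄₂ + z₁ w̄₁ + z₂ w̄₀`. -/
noncomputable def qn (z w : V3) : ℂ :=
  z 0 * (starRingEnd ℂ) (w 2) + z 1 * (starRingEnd ℂ) (w 1) + z 2 * (starRingEnd ℂ) (w 0)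

/-- The polynomial `⟨F, e⟩`. -/
noncomputable def pf (F : Fin 5 → P3) (e : E5) : P3 := ∑ i, C (sg i * (starRingEnd ℂ) (e i)) * F i

/-- The map after a change of coordinates such that the special line is `z_j = 0`. -/
structure Spec (q : V3 → V3 → ℂ) (j : Fin 3) (F : Fin 5 → P3) : Prop where
  hom : ∀ i, (F i).IsHomogeneous 6
  prim : Prim F
  ind : LinearIndependent ℂ F
  herm : ∀ z w : V3, q z w = 0 → hf (fun i => eval z (F i)) (fun i => eval w (F i)) = 0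
  dv : ∃ e1 e2 : E5, LinearIndependent ℂ ![e1, e2] ∧ X j ^ 3 ∣ pf F e1 ∧ X j ^ 3 ∣ pf F e2
  flat : ∀ (z v : V3) (s : Fin 3 → Fin 5), z j = 0 →
    mn (fun k : Fin 3 => ej F v (k : ℕ) z) s = 0

/-- The span of `F(z)` for `z` on the line `z_j = 0`. -/
def T (j : Fin 3) (F : Fin 5 → P3) : Submodule ℂ E5 :=
  Submodule.span ℂ {e | ∃ z : V3, z j = 0 ∧ e = fun i => eval z (F i)}

/-- Restriction to `(0, 1, x)`. -/
noncomputable def r0 : P3 →ₐ[ℂ] Polynomial ℂ := aeval ![0, 1, Polynomial.X]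

/-- Restriction to `(x, 1, 0)`. -/
noncomputable def r2 : P3 →ₐ[ℂ] Polynomial ℂ := aeval ![Polynomial.X, 1, 0]

/-- The Wronskian `p q' - q p'`. -/
noncomputable def wr (p q : Polynomial ℂ) : Polynomial ℂ :=
  p * Polynomial.derivative q - q * Polynomial.derivative p

/-- `(tl ε P)(w) = conj P(ε w̄₀, w̄₁, -ε w̄₂)`. -/
noncomputable def tl (ε : ℝ) (P : P3) : P3 :=
  aeval ![C (ε : ℂ) * X 0, X 1, -(C (ε : ℂ) * X 2)] (MvPolynomial.map (starRingEnd ℂ) P)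

/-- `(tln P)(w) = conj P(w̄₂, w̄₁, w̄₀)`. -/
noncomputable def tln (P : P3) : P3 :=
  aeval ![(X 2 : P3), X 1, X 0] (MvPolynomial.map (starRingEnd ℂ) P)

/-- Homogenization in `z₁, z₂`: `z₁^r g(z₂/z₁)`. -/
noncomputable def hg (r : ℕ) (g : Polynomial ℂ) : P3 :=
  ∑ i ∈ Finset.range (r + 1), C (g.coeff i) * X 1 ^ (r - i) * X 2 ^ i

/-- `w₂^r g(-w₁/w₂)`. -/
noncomputable def hgt (r : ℕ) (g : Polynomial ℂ) : P3 :=
  ∑ i ∈ Finset.range (r + 1), C (g.coeff i) * X 2 ^ (r - i) * (-X 1) ^ i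

/-- `w₀^r g(-w₁/w₀)`. -/
noncomputable def hgn (r : ℕ) (g : Polynomial ℂ) : P3 :=
  ∑ i ∈ Finset.range (r + 1), C (g.coeff i) * X 0 ^ (r - i) * (-X 1) ^ i

/-- The binary form `a^r g(b/a)`. -/
noncomputable def bf (r : ℕ) (g : Polynomial ℂ) (a b : ℂ) : ℂ :=
  ∑ i ∈ Finset.range (r + 1), g.coeff i * a ^ (r - i) * b ^ i

/-- The form of bidegree `(n, n)` with coefficient matrix `Γ`. -/
noncomputable def bh {n : ℕ} (Γ : Matrix (Fin (n + 1)) (Fin (n + 1)) ℂ) (a b c d : ℂ) : ℂ :=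
  ∑ i : Fin (n + 1), ∑ j : Fin (n + 1),
    Γ i j * (a ^ (n - (i : ℕ)) * b ^ (i : ℕ)) * (c ^ (n - (j : ℕ)) * d ^ (j : ℕ))

/-- The decomposition of `F` for a special line whose pole is not null. -/
structure NN (ε : ℝ) (M N : Matrix (Fin 2) (Fin 2) ℂ) (s : ℝ) (A : Fin 2 → P3) (b : P3)
    (c : Fin 2 → P3) : Prop where
  hε : ε = 1 ∨ ε = -1
  hM : M.IsHermitian
  hN : N.IsHermitian
  detM : M.det ≠ 0
  detN : N.det ≠ 0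
  s0 : s ≠ 0
  homA : ∀ i, (A i).IsHomogeneous 6
  homb : b.IsHomogeneous 5
  homc : ∀ i, (c i).IsHomogeneous 3
  herm : ∀ z w : V3, qd ε z w = 0 →
    (∑ i, ∑ j, M i j * eval z (A i) * (starRingEnd ℂ) (eval w (A j))) +
    (s : ℂ) * (z 0 * eval z b) * (starRingEnd ℂ) (w 0 * eval w b) +
    (∑ i, ∑ j, N i j * (z 0 ^ 3 * eval z (c i)) * (starRingEnd ℂ) (w 0 ^ 3 * eval w (c j))) = 0
  indA : ∀ α : Fin 2 → ℂ, X 0 ∣ ∑ i, C (α i) * A i → α = 0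
  indc : LinearIndependent ℂ c
  nb : ¬ X 0 ∣ b
  prim : ∀ r, (∀ i, r ∣ A i) → r ∣ X 0 * b → (∀ i, r ∣ X 0 ^ 3 * c i) → IsUnit r
  wr : 2 * wr (r0 (A 0)) (r0 (A 1)) * Polynomial.derivative (r0 b) =
    Polynomial.derivative (wr (r0 (A 0)) (r0 (A 1))) * r0 b
  pos : ε = 1 → 0 < s ∧ ∀ a : Fin 2 → ℂ, 0 ≤ (∑ i, ∑ j, N i j * a i * (starRingEnd ℂ) (a j)).re

/-- The bilinear version. -/
structure NP (A : Fin 2 → P3) (b : P3) (c : Fin 2 → P3) (At : Fin 2 → P3) (bt : P3)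
    (ct : Fin 2 → P3) : Prop where
  homA : ∀ i, (A i).IsHomogeneous 6
  homb : b.IsHomogeneous 5
  homc : ∀ i, (c i).IsHomogeneous 3
  homAt : ∀ i, (At i).IsHomogeneous 6
  hombt : bt.IsHomogeneous 5
  homct : ∀ i, (ct i).IsHomogeneous 3
  orth : ∀ z w : V3, z ⬝ᵥ w = 0 → ∑ i, eval z (A i) * eval w (At i) +
    z 0 * w 0 * (eval z b * eval w bt) +
    (z 0 * w 0) ^ 3 * ∑ i, eval z (c i) * eval w (ct i) = 0
  indA : ∀ α : Fin 2 → ℂ, X 0 ∣ ∑ i, C (α i) * A i → α = 0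
  indAt : ∀ α : Fin 2 → ℂ, X 0 ∣ ∑ i, C (α i) * At i → α = 0
  indc : LinearIndependent ℂ c
  indct : LinearIndependent ℂ ct
  nb : ¬ X 0 ∣ b
  nbt : ¬ X 0 ∣ bt
  prim : ∀ r, (∀ i, r ∣ A i) → r ∣ X 0 * b → (∀ i, r ∣ X 0 ^ 3 * c i) → IsUnit r
  primt : ∀ r, (∀ i, r ∣ At i) → r ∣ X 0 * bt → (∀ i, r ∣ X 0 ^ 3 * ct i) → IsUnit r
  wr : 2 * wr (r0 (A 0)) (r0 (A 1)) * Polynomial.derivative (r0 b) =
    Polynomial.derivative (wr (r0 (A 0)) (r0 (A 1))) * r0 b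

/-- The pencil of degree `r`: `g₀, g₁` coprime of degree `r`, Wronskian `κ ρ²`. -/
structure Pen (r : ℕ) (g : Fin 2 → Polynomial ℂ) (ρ : Polynomial ℂ) (κ : ℂ) : Prop where
  deg : ∀ i, (g i).natDegree ≤ r
  top : ∃ i, (g i).natDegree = r
  cop : IsCoprime (g 0) (g 1)
  degρ : ρ.natDegree + 1 ≤ r
  κ0 : κ ≠ 0
  ρ0 : ρ ≠ 0
  wr : wr (g 0) (g 1) = Polynomial.C κ * ρ ^ 2

/-- The standard form. -/
structure SF (n : ℕ) (m mt : P3) (c ct : Fin 2 → P3) (g : Fin 2 → Polynomial ℂ)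
    (ρ : Polynomial ℂ) (κ : ℂ) (Γ : Matrix (Fin (n + 1)) (Fin (n + 1)) ℂ) : Prop where
  hn : n ≤ 3
  pen : Pen (n + 3) g ρ κ
  homm : m.IsHomogeneous (3 - n)
  hommt : mt.IsHomogeneous (3 - n)
  nm : ¬ X 0 ∣ m
  nmt : ¬ X 0 ∣ mt
  homc : ∀ i, (c i).IsHomogeneous 3
  homct : ∀ i, (ct i).IsHomogeneous 3
  indc : LinearIndependent ℂ c
  indct : LinearIndependent ℂ ct
  prim : ∀ r, r ∣ m → (∀ i, r ∣ c i) → IsUnit r
  primt : ∀ r, r ∣ mt → (∀ i, r ∣ ct i) → IsUnit r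
  I2 : ∀ x1 x2 y1 y2 : ℂ, bf (n + 3) (g 0) x1 x2 * bf (n + 3) (g 1) y1 y2 -
    bf (n + 3) (g 1) x1 x2 * bf (n + 3) (g 0) y1 y2 -
    κ * (x1 * y2 - x2 * y1) * (bf (n + 2) ρ x1 x2 * bf (n + 2) ρ y1 y2) =
    (x1 * y2 - x2 * y1) ^ 3 * bh Γ x1 x2 y1 y2
  I3 : ∀ z w : V3, z ⬝ᵥ w = 0 → ∑ i, eval z (c i) * eval w (ct i) =
    eval z m * eval w mt * bh Γ (z 1) (z 2) (w 2) (-w 1)

/-- The decomposition of `F` for a special line whose pole is null. -/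
structure ND (Fe Fa Fo : P3) (F : Fin 2 → P3) : Prop where
  home : Fe.IsHomogeneous 6
  homa : Fa.IsHomogeneous 6
  homo : Fo.IsHomogeneous 6
  homF : ∀ i, (F i).IsHomogeneous 6
  herm : ∀ z w : V3, qn z w = 0 → eval z Fe * (starRingEnd ℂ) (eval w Fo) + eval z Fo * (starRingEnd ℂ) (eval w Fe) +
    eval z Fa * (starRingEnd ℂ) (eval w Fa) + ∑ i, eval z (F i) * (starRingEnd ℂ) (eval w (F i)) = 0
  dFo : X 2 ∣ Fo
  dF0 : X 2 ^ 3 ∣ F 0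
  dF1 : X 2 ∣ F 1
  alt : X 2 ^ 3 ∣ F 1 ∨ X 2 ^ 3 ∣ Fo
  deg : (r2 Fa).natDegree < (r2 Fe).natDegree
  fa0 : r2 Fa ≠ 0
  indF : LinearIndependent ℂ F
  wro : ∀ b, Fo = X 2 * b → 2 * wr (r2 Fe) (r2 Fa) * Polynomial.derivative (r2 b) =
    Polynomial.derivative (wr (r2 Fe) (r2 Fa)) * r2 b
  wr1 : ∀ b, F 1 = X 2 * b → 2 * wr (r2 Fe) (r2 Fa) * Polynomial.derivative (r2 b) =
    Polynomial.derivative (wr (r2 Fe) (r2 Fa)) * r2 b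

/-- The factorization on the tangent line. -/
structure NF (Fe Fa Fo : P3) (r : ℕ) (ge ga β : Polynomial ℂ) (Mt : P3) : Prop where
  r1 : 1 ≤ r
  r6 : r ≤ 6
  cop : IsCoprime ge ga
  dege : ge.natDegree = r
  dega : ga.natDegree < r
  ga0 : ga ≠ 0
  β0 : β ≠ 0
  fe : r2 Fe = β * ge
  fa : r2 Fa = β * ga
  homM : Mt.IsHomogeneous (6 - r)
  nM : ¬ X 0 ∣ Mt
  facto : tln Fo = Mt * hgn r ga
  facta : tln Fa = -(Mt * hgn r ge)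

/-- The factorization of the pencil. -/
structure FA (r : ℕ) (g : Fin 2 → Polynomial ℂ) (m mt : P3) (A At : Fin 2 → P3) : Prop where
  r1 : 1 ≤ r
  r6 : r ≤ 6
  deg : ∀ i, (g i).natDegree ≤ r
  top : ∃ i, (g i).natDegree = r
  cop : IsCoprime (g 0) (g 1)
  homm : m.IsHomogeneous (6 - r)
  hommt : mt.IsHomogeneous (6 - r)
  nm : ¬ X 0 ∣ m
  nmt : ¬ X 0 ∣ mt
  hA : ∀ i, A i = m * hg r (g i)
  hAt0 : At 0 = -(mt * hgt r (g 1))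
  hAt1 : At 1 = mt * hgt r (g 0)

/-- The cylinder data. -/
structure Cy (l P : V3) (k1 k2 : ℕ) (p1 p2 : P3) (a b : Fin 2 → P3)
    (Γ : Matrix (Fin (2 + 1)) (Fin (2 + 1)) ℂ) : Prop where
  k1le : k1 ≤ 2
  k2le : k2 ≤ 2
  hom1 : p1.IsHomogeneous k1
  hom2 : p2.IsHomogeneous k2
  homa : ∀ i, (a i).IsHomogeneous (3 - k1)
  homb : ∀ i, (b i).IsHomogeneous (3 - k2)
  np1 : ¬ lin l ∣ p1
  np2 : ¬ lin P ∣ p2
  copa : IsRelPrime (a 0) (a 1)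
  copb : IsRelPrime (b 0) (b 1)
  inda : LinearIndependent ℂ a
  indb : LinearIndependent ℂ b
  cyla : ∀ (z : V3) (s : ℂ) (i : Fin 2), eval (z + s • P) (a i) = eval z (a i)
  cylb : ∀ (w : V3) (s : ℂ) (i : Fin 2), eval (w + s • l) (b i) = eval w (b i)
  nl : ¬ (l 1 = 0 ∧ l 2 = 0)
  nP : ¬ (P 1 = 0 ∧ P 2 = 0)
  I3 : ∀ z w : V3, z ⬝ᵥ w = 0 → eval z p1 * eval w p2 * ∑ i, eval z (a i) * eval w (b i) =
    (l ⬝ᵥ z) * (P ⬝ᵥ w) * bh Γ (z 1) (z 2) (w 2) (-w 1)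
  R1 : ∀ x1 x2 : ℂ, ¬ (x1 = 0 ∧ x2 = 0) → ∃ y1 y2 : ℂ, bh Γ x1 x2 y1 y2 ≠ 0
  R2 : ∀ y1 y2 : ℂ, ¬ (y1 = 0 ∧ y2 = 0) → ∃ x1 x2 : ℂ, bh Γ x1 x2 y1 y2 ≠ 0
  D : ∃ u1 u2 : ℂ, bh Γ u1 u2 u1 u2 ≠ 0

end Pool.Agent.Lib_helper86.D24
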