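import Pool.Agent.Lib_helper49.Mac.All
import Pool.Agent.Lib_helper49.Mac.AsmA
import Pool.Agent.Lib_helper86.D24.Defs2
import Pool.Agent.Lib_helper86.D24.L1

/-!
# D(2,4) = 5: part L8
-/

section

namespace Pool.Agent.Lib_helper49.Mac

open MvPolynomial Pool.Agent.Lib_helper26.Ebe Pool.Agent.Lib_helper26.SOS
open Pool.Agent.Lib_helper49.Dang

/-- `A_main` with the linear independence of the first Taylor coefficients. -/
theorem A_main_li {K N d : ℕ} {P : Fin (N + 1) → MvPolynomial (Fin (K + 1)) ℂ} (hK : 1 ≤ K)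
    (hP : SMap (K + 1) N d P) :
    ∃ τ : ℕ, K * τ + 1 ≤ N ∧ (∀ s, τ ≤ (K + s).choose s → (K + 1) * d ≤ (K + 1 + s) * τ) ∧
      ∃ a x : Fin (K + 1) → ℂ, LinearIndependent ℂ (fun r : Fin (τ + 1) => Fv P a x r) := by
  classical
  obtain ⟨τ, m, g, δ, hg, hm, hδ, hspan, hfin⟩ := adapted hP (by omega)
  obtain ⟨Φ, hΦ0, hΦ⟩ := Pool.Agent.Lib_helper97.Ebe.gen_linearIndependent
    (fun (r : Fin (τ + 1)) (i : Fin (N + 1)) => Fc P r i) (osculation hP.deg_le hfin)
  obtain ⟨Ψ, hΨ0, hΨ⟩ := gen_cons g δ hδ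
    (fun r hr => funext fun i => Fc_eq_zero hP.deg_le hr i) hspan hfin
  obtain ⟨a, x, ha, hx, h⟩ := exists_real (by omega) (Φ * Ψ) (mul_ne_zero hΦ0 hΨ0)
  obtain ⟨b, hba, hb0, hbb, hb⟩ := exists_orthogonal (by omega) (Φ * Ψ) a x ha hx h
  have hbΦ : ∀ k, eval (Sum.elim a (b k)) Φ ≠ 0 := fun k => by
    have := hb k
    rw [map_mul] at this
    exact left_ne_zero_of_mul this
  have hli : ∀ k, LinearIndependent ℂ (fun r : Fin (τ + 1) => Fv P a (b k) r) :=
    fun k => hΦ _ (hbΦ k)
  have hF0 : ∀ y : Fin (K + 1) → ℂ, Fv P a y 0 = Fv P a 0 0 := by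
    intro y
    funext i
    simp only [Fv, Fc_zero, eval_rename]
    rfl
  refine ⟨τ, ?_, ?_, a, b ⟨0, by omega⟩, hli _⟩
  · have h0 : ip (0 : Fin (K + 1) → ℂ) a = 0 := by simp [ip]
    have := dim_bound (Fv P a 0 0) (fun k r => Fv P a (b k) (r + 1))
      (orth hP ha h0 h0 (by simp [ip]) 0 0) (by omega)
      (fun k r => orth hP ha (hba k) h0 (by simp [ip]) _ 0)
      (fun k l hkl r s => orth hP ha (hba k) (hba l) (hbb k l hkl) _ _)
      (fun k => by
        have h1 := hli k
        convert h1 using 1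
        funext r
        refine Fin.cases ?_ (fun r => ?_) r
        · simp [hF0 (b k)]
        · simp)
    simpa using this
  · intro s hs
    have hΨx : eval (Sum.elim a x) Ψ ≠ 0 := by
      rw [map_mul] at h
      exact right_ne_zero_of_mul h
    have hli2 := hΨ _ hΨx
    have hnz : (fun i => eval a (P i)) ≠ 0 := by
      have h1 := hli2.ne_zero 0
      have h2 : (fun i => eval (Sum.elim a x) ((Fin.cons (Fc P 0)
          (fun a => phi (Fc P) d (g a)) : Fin (τ + 1) → Fin (N + 1) → A (K + 1)) 0 i)) =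
          fun i => eval a (P i) := by
        funext i
        simp only [Fin.cons_zero, Fc_zero, eval_rename]
        rfl
      rw [h2] at h1
      exact h1
    set hh : Fin (N + 1) → R (K + 1) := fun i => hcj a d (P i) with hhh
    -- the sets of lowest exponents
    have hex : ∀ i, ∃ B : Finset (Fin (K + 1) → ℕ), B.card ≤ τ ∧
        ∀ e, e ∈ B ↔ e ∈ low (Vs P d a (idB (K + 1)) i) hh := fun i =>
      exists_low_set _ _ τ fun ψ hψ =>
        A_rank hK hP hfin ha hnz ψ fun c => Vs_anti d a _ (Nat.zero_le i) (hψ c)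
    choose B hBc hB using hex
    have hq : ∀ ψ ∈ Vs P d a (idB (K + 1)) 0, q (K + 1) ∣ pair ψ hh := fun ψ hψ =>
      A_dvd hK hP ha ψ hψ
    have hchain := gr_chain (Finset.univ : Finset (Fin (K + 1))) K hK (by simp)
      (gr _ K (by simp)) B (fun t => low_step (Vs P d a (idB (K + 1)) (t + 1))
        (Vs P d a (idB (K + 1)) t) hh (Vs_succ_le d a _ t)
        (fun ψ hψ l => dv_mem_Vs hP a _ t ψ hψ l.succ)
        (fun ψ hψ => hq ψ (Vs_anti d a _ (Nat.zero_le _) hψ)) (B (t + 1)) (B t)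
        (fun e he => (hB (t + 1) e).1 he) (fun e he => (hB t e).2 he)) s
      ((hBc 0).trans hs)
    -- the number of elements of level `≥ r`
    have hcard : ∀ r, (Finset.univ.filter fun c => r ≤ m c).card ≤ (B r).card := by
      intro r
      have hopt : LinearIndependent ℂ (fun o : Option {c : Fin τ // r ≤ m c} =>
          o.elim (Fv P a x 0) (fun c i => eval (Sum.elim a x) (phi (Fc P) d (g c) i))) := by
        have h1 : Function.Injective (fun o : Option {c : Fin τ // r ≤ m c} =>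
            (o.elim (0 : Fin (τ + 1)) (fun c => Fin.succ c.1))) := by
          intro o o' hoo
          rcases o with _ | c <;> rcases o' with _ | c'
          · rfl
          · simp only [Option.elim] at hoo
            exact absurd hoo.symm (Fin.succ_ne_zero _)
          · simp only [Option.elim] at hoo
            exact absurd hoo (Fin.succ_ne_zero _)
          · simp only [Option.elim] at hoo
            have := Fin.succ_injective _ hoo
            rw [Subtype.ext this]
        have h2 := hli2.comp _ h1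
        convert h2 using 1
        funext o
        rcases o with _ | c
        · funext i
          simp [Fv]
        · funext i
          simp
      have h3 := A_indep hP ha hx (fun (c : {c : Fin τ // r ≤ m c}) => phi (Fc P) d (g c))
        (fun c => Ls_mem_span (g c) a x) hopt
      have h4 := card_le_low_set (Vs P d a (idB (K + 1)) r) hh _
        (fun c : {c : Fin τ // r ≤ m c} => phi_mem_Vs d a _ r (g c) (by
          intro t ht k
          exact hg c t (lt_of_lt_of_le ht c.2) k)) h3 (B r) (fun e he => (hB r e).2 he)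
      rw [Fintype.card_subtype] at h4
      exact h4
    rw [← hm]
    refine arith_A (K + 1) (by omega) m s (fun r hr => ?_) (fun c => ?_)
    · rw [Nat.add_sub_cancel]
      calc _ ≤ (B r).card * (K + s).choose s := Nat.mul_le_mul_right _ (hcard r)
        _ ≤ (B 0).card * (K + (s - r)).choose (s - r) := hchain.1 r hr
        _ ≤ τ * (K + (s - r)).choose (s - r) := Nat.mul_le_mul_right _ (hBc 0)
    · by_contra hc
      have h1 := hchain.2 (m c) (by omega)
      have h2 := hcard (m c)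
      rw [h1, Finset.card_empty, Nat.le_zero, Finset.card_eq_zero] at h2
      have h3 : c ∈ (Finset.univ.filter fun c' => m c ≤ m c') := by simp
      rw [h2] at h3
      exact absurd h3 (Finset.notMem_empty c)

end Pool.Agent.Lib_helper49.Mac

namespace Pool.Agent.Lib_helper86.D24

open MvPolynomial

/-- B1 -/
theorem base_indep {P : Fin 5 → MvPolynomial (Fin 2) ℂ}
    (hP : Pool.Agent.Lib_helper49.Dang.SMap 2 4 6 P) : ∃ a x : Fin 2 → ℂ,
    LinearIndependent ℂ (fun r : Fin 4 => Pool.Agent.Lib_helper49.Dang.Fv P a x (r : ℕ)) := by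
  obtain ⟨τ, h1, h2, a, x, hli⟩ := Pool.Agent.Lib_helper49.Mac.A_main_li (K := 1) le_rfl hP
  have h3 : τ ≤ 3 := by omega
  have h4 : τ = 3 := by
    by_contra hne
    have h5 : τ ≤ 2 := by omega
    have h6 := h2 1 (by simpa using h5)
    omega
  subst h4
  exact ⟨a, x, hli⟩

end Pool.Agent.Lib_helper86.D24

end

section

namespace Pool.Agent.Lib_helper86.D24

open MvPolynomial Matrix


/-- homogenization with `X 0` -/
private noncomputable def bB2_hz (p : MvPolynomial (Fin 2) ℂ) : P3 :=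
  ∑ k ∈ Finset.range 7, X 0 ^ (6 - k) * rename Fin.succ (homogeneousComponent k p)

private theorem bB2_hom (p : MvPolynomial (Fin 2) ℂ) : (bB2_hz p).IsHomogeneous 6 := by
  unfold bB2_hz
  apply IsHomogeneous.sum
  intro k hk
  have hk' : k < 7 := Finset.mem_range.1 hk
  have h1 : (X 0 ^ (6 - k) : P3).IsHomogeneous (6 - k) := by
    have := (isHomogeneous_X ℂ (0 : Fin 3)).pow (6 - k)
    rwa [one_mul] at this
  have h2 := h1.mul ((homogeneousComponent_isHomogeneous k p).rename_isHomogeneous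
    (f := (Fin.succ : Fin 2 → Fin 3)))
  have h3 : 6 - k + k = 6 := by omega
  rwa [h3] at h2

private theorem bB2_sum (p : MvPolynomial (Fin 2) ℂ) (hp : p.totalDegree ≤ 6) :
    ∑ k ∈ Finset.range 7, homogeneousComponent k p = p := by
  classical
  ext α
  rw [coeff_sum]
  simp only [coeff_homogeneousComponent]
  rw [Finset.sum_ite_eq (Finset.range 7) α.degree]
  split_ifs with h
  · rfl
  · symm
    apply coeff_eq_zero_of_totalDegree_lt
    have h1 : 7 ≤ α.degree := by
      by_contra hcon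
      exact h (Finset.mem_range.2 (by omega))
    have h2 : α.degree = ∑ i ∈ α.support, α i := rfl
    rw [← h2]
    omega

/-- dehomogenization -/
private noncomputable def bB2_D : P3 →ₐ[ℂ] MvPolynomial (Fin 2) ℂ := aeval ![1, X 0, X 1]

private theorem bB2_Deval (q : P3) (x : Fin 2 → ℂ) :
    eval x (bB2_D q) = eval ![1, x 0, x 1] q := by
  have : (eval x : MvPolynomial (Fin 2) ℂ →+* ℂ).comp (bB2_D : P3 →ₐ[ℂ] _).toRingHom =
      (eval ![1, x 0, x 1] : P3 →+* ℂ) := by
    apply MvPolynomial.ringHom_ext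
    · intro r
      simp [bB2_D]
    · intro i
      fin_cases i <;> simp [bB2_D]
  exact RingHom.congr_fun this q

private theorem bB2_eval (p : MvPolynomial (Fin 2) ℂ) (hp : p.totalDegree ≤ 6) (x : Fin 2 → ℂ) :
    eval ![1, x 0, x 1] (bB2_hz p) = eval x p := by
  unfold bB2_hz
  conv_rhs => rw [← bB2_sum p hp]
  rw [map_sum, map_sum]
  refine Finset.sum_congr rfl fun k _ => ?_
  rw [map_mul, map_pow, eval_X, eval_rename]
  have h1 : (![1, x 0, x 1] : Fin 3 → ℂ) 0 = 1 := rfl
  have h2 : (![1, x 0, x 1] : Fin 3 → ℂ) ∘ Fin.succ = x := by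
    funext i
    fin_cases i <;> rfl
  rw [h1, h2, one_pow, one_mul]

private theorem bB2_eval0 (p : MvPolynomial (Fin 2) ℂ) (x : Fin 2 → ℂ) :
    eval ![0, x 0, x 1] (bB2_hz p) = eval x (homogeneousComponent 6 p) := by
  unfold bB2_hz
  rw [map_sum, Finset.sum_eq_single 6]
  · rw [map_mul, map_pow, eval_X, eval_rename]
    have h2 : (![0, x 0, x 1] : Fin 3 → ℂ) ∘ Fin.succ = x := by
      funext i
      fin_cases i <;> rfl
    rw [h2, Nat.sub_self, pow_zero, one_mul]
  · intro k hk hk6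
    have hk' : k < 7 := Finset.mem_range.1 hk
    rw [map_mul, map_pow, eval_X]
    have h1 : (![0, x 0, x 1] : Fin 3 → ℂ) 0 = 0 := rfl
    rw [h1, zero_pow (by omega), zero_mul]
  · intro h
    exact absurd (Finset.mem_range.2 (by norm_num)) h

private theorem bB2_top (p : MvPolynomial (Fin 2) ℂ) (hp : p.totalDegree = 6) :
    homogeneousComponent 6 p ≠ 0 := by
  intro h0
  have h1 : p.totalDegree < 6 := by
    rw [totalDegree, Finset.sup_lt_iff (by norm_num)]
    intro α hα
    have h2 : (α.sum fun _ e => e) = α.degree := rfl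
    rw [h2]
    have h3 : α.degree ≤ 6 := by
      rw [← hp]
      exact le_totalDegree hα
    have h4 : α.degree ≠ 6 := by
      intro h5
      have h6 := congrArg (coeff α) h0
      rw [coeff_homogeneousComponent, if_pos h5, coeff_zero] at h6
      exact mem_support_iff.1 hα h6
    omega
  omega

private theorem bB2_smul {q : P3} {e : ℕ} (hq : q.IsHomogeneous e) (t : ℂ) (z : V3) :
    eval (t • z) q = t ^ e * eval z q := by
  rw [eval_eq', eval_eq', Finset.mul_sum]
  refine Finset.sum_congr rfl fun α hα => ?_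
  have h1 : ∑ i, α i = e := by
    have h2 := hq (mem_support_iff.1 hα)
    rw [← h2]
    simp [Finsupp.weight_apply, Finsupp.sum_fintype]
  simp only [Pi.smul_apply, smul_eq_mul, mul_pow, Finset.prod_mul_distrib]
  rw [Finset.prod_pow_eq_pow_sum, h1]
  ring

private theorem bB2_inj {q : P3} {e : ℕ} (hq : q.IsHomogeneous e) (h : bB2_D q = 0) : q = 0 := by
  have h1 : X 0 * q = 0 := by
    apply MvPolynomial.funext
    intro z
    rw [map_mul, eval_X, map_zero]
    by_cases hz : z 0 = 0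
    · rw [hz, zero_mul]
    · have h2 : z = z 0 • ![1, z 1 / z 0, z 2 / z 0] := by
        funext i
        fin_cases i
        · simp
        · simp [mul_div_cancel₀, hz]
        · simp [mul_div_cancel₀, hz]
      have h3 := bB2_Deval q ![z 1 / z 0, z 2 / z 0]
      rw [h, map_zero] at h3
      have h4 : eval z q = z 0 ^ e * eval ![1, z 1 / z 0, z 2 / z 0] q := by
        conv_lhs => rw [h2]
        exact bB2_smul hq _ _
      have h5 : eval ![1, z 1 / z 0, z 2 / z 0] q = 0 := h3.symm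
      rw [h4, h5, mul_zero, mul_zero]
  exact (mul_eq_zero.1 h1).resolve_left (X_ne_zero 0)

private theorem bB2_main {P : Fin 5 → MvPolynomial (Fin 2) ℂ} (hc : ∀ r, (∀ i, r ∣ P i) → IsUnit r)
    (hd : ∀ i, (P i).totalDegree ≤ 6) (ht : ∃ i, (P i).totalDegree = 6) : ∃ F : Fin 5 → P3,
    (∀ i, (F i).IsHomogeneous 6) ∧ Prim F ∧
      ∀ (x : Fin 2 → ℂ) i, eval ![1, x 0, x 1] (F i) = eval x (P i) := by
  refine ⟨fun i => bB2_hz (P i), fun i => bB2_hom _, ?_, fun x i => bB2_eval _ (hd i) x⟩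
  intro r hr
  obtain ⟨i0, hi0⟩ := ht
  have htop := bB2_top _ hi0
  have hDF : ∀ i, bB2_D (bB2_hz (P i)) = P i := by
    intro i
    apply MvPolynomial.funext
    intro x
    rw [bB2_Deval, bB2_eval _ (hd i)]
  have hP0 : P i0 ≠ 0 := by
    intro h0
    rw [h0] at hi0
    simp at hi0
  have hF0 : bB2_hz (P i0) ≠ 0 := by
    intro h0
    apply hP0
    rw [← hDF i0, h0, map_zero]
  obtain ⟨e, he⟩ := hom_of_dvd (bB2_hom (P i0)) hF0 (hr i0)
  have hu : IsUnit (bB2_D r) := by
    apply hc
    intro i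
    rw [← hDF i]
    exact map_dvd bB2_D (hr i)
  obtain ⟨c, hc1, hc2⟩ : ∃ c : ℂ, IsUnit c ∧ C c = bB2_D r := by
    have := MvPolynomial.isUnit_iff_eq_C_of_isReduced.1 hu
    obtain ⟨c, h1, h2⟩ := this
    exact ⟨c, h1, h2.symm⟩
  have hre : r = C c * X 0 ^ e := by
    have h1 : (r - C c * X 0 ^ e).IsHomogeneous e := by
      apply he.sub
      have h2 := (isHomogeneous_C (Fin 3) c).mul ((isHomogeneous_X ℂ (0 : Fin 3)).pow e)
      rwa [one_mul, zero_add] at h2
    have h2 : bB2_D (r - C c * X 0 ^ e) = 0 := by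
      rw [map_sub, ← hc2]
      simp [bB2_D, algebraMap_eq]
    exact sub_eq_zero.1 (bB2_inj h1 h2)
  have he0 : e = 0 := by
    by_contra hne
    apply htop
    obtain ⟨g, hg⟩ := hr i0
    apply MvPolynomial.funext
    intro x
    have hg' : bB2_hz (P i0) = r * g := hg
    rw [map_zero, ← bB2_eval0, hg', hre]
    have h1 : (![0, x 0, x 1] : Fin 3 → ℂ) 0 = 0 := rfl
    rw [map_mul, map_mul, map_pow, eval_X, h1, zero_pow hne, mul_zero, zero_mul]
  rw [hre, he0, pow_zero, mul_one]
  exact hc1.map C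

/-- B2 -/
theorem homog {P : Fin 5 → MvPolynomial (Fin 2) ℂ}
    (hP : Pool.Agent.Lib_helper49.Dang.SMap 2 4 6 P) : ∃ F : Fin 5 → P3,
    (∀ i, (F i).IsHomogeneous 6) ∧ Prim F ∧
      ∀ (x : Fin 2 → ℂ) i, eval ![1, x 0, x 1] (F i) = eval x (P i) :=
  bB2_main hP.coprime hP.deg_le hP.deg_eq

end Pool.Agent.Lib_helper86.D24

end

section

namespace Pool.Agent.Lib_helper86.D24

open MvPolynomial Matrix


private theorem bB3_eval {d : ℕ} {R : P3} (hR : R.IsHomogeneous d) (c : ℂ) (z : V3) :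
    eval (c • z) R = c ^ d * eval z R := by
  rw [MvPolynomial.eval_eq, MvPolynomial.eval_eq, Finset.mul_sum]
  refine Finset.sum_congr rfl fun e he => ?_
  have h1 : (∏ i ∈ e.support, (c • z) i ^ e i) = c ^ d * ∏ i ∈ e.support, z i ^ e i := by
    have h2 : ∀ i ∈ e.support, (c • z) i ^ e i = c ^ e i * z i ^ e i := by
      intro i _
      simp [mul_pow]
    rw [Finset.prod_congr rfl h2, Finset.prod_mul_distrib, Finset.prod_pow_eq_pow_sum]
    have h3 : ∑ i ∈ e.support, e i = d := (hR.degree_eq_sum_deg_support he).symm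
    rw [h3]
  rw [h1]
  ring

private theorem bB3_cont (F : Fin 5 → P3) (z w v : V3) :
    Continuous fun t : ℝ => hf (fun i => eval z (F i)) (fun i => eval (w + (t : ℂ) • v) (F i)) := by
  have h : ∀ i, Continuous fun t : ℝ => (starRingEnd ℂ) (eval (w + (t : ℂ) • v) (F i)) := by
    intro i
    refine Complex.continuous_conj.comp ?_
    have h1 : Continuous fun t : ℝ => w + (t : ℂ) • v := by fun_prop
    exact (MvPolynomial.continuous_eval (F i)).comp h1
  unfold hf
  refine Continuous.sub (continuous_finsetSum _ fun i _ => continuous_const.mul (h _))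
    (continuous_const.mul (h _))

private theorem bB3_ext (F : Fin 5 → P3) (z w v : V3)
    (h : ∀ t : ℝ, t ≠ 0 →
      hf (fun i => eval z (F i)) (fun i => eval (w + (t : ℂ) • v) (F i)) = 0) :
    hf (fun i => eval z (F i)) (fun i => eval w (F i)) = 0 := by
  have hc : IsClosed {t : ℝ | hf (fun i => eval z (F i))
      (fun i => eval (w + (t : ℂ) • v) (F i)) = 0} :=
    isClosed_eq (bB3_cont F z w v) continuous_const
  have hd : Dense {t : ℝ | hf (fun i => eval z (F i))
      (fun i => eval (w + (t : ℂ) • v) (F i)) = 0} :=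
    (dense_compl_singleton (0 : ℝ)).mono fun t ht => h t (by simpa using ht)
  have h0 : (0 : ℝ) ∈ {t : ℝ | hf (fun i => eval z (F i))
      (fun i => eval (w + (t : ℂ) • v) (F i)) = 0} := by
    rw [← hc.closure_eq, hd.closure_eq]
    trivial
  simpa using h0

private theorem bB3_symm {N : ℕ} (u v : Fin (N + 1) → ℂ) : hf v u = (starRingEnd ℂ) (hf u v) := by
  unfold hf
  simp only [map_sub, map_sum, map_mul, Complex.conj_conj]
  rw [mul_comm (v 0)]
  congr 1
  exact Finset.sum_congr rfl fun i _ => mul_comm _ _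

private theorem bB3_add (z w v : V3) (t : ℝ) (h1 : hf z w = 0) (h2 : hf z v = 0) :
    hf z (w + (t : ℂ) • v) = 0 := by
  have : hf z (w + (t : ℂ) • v) = hf z w + t * hf z v := by
    unfold hf
    simp [Fin.sum_univ_two]
    ring
  rw [this, h1, h2]
  simp

/-- B3 -/
theorem herm_of {P : Fin 5 → MvPolynomial (Fin 2) ℂ}
    (hP : Pool.Agent.Lib_helper49.Dang.SMap 2 4 6 P) {F : Fin 5 → P3}
    (hF : ∀ i, (F i).IsHomogeneous 6)
    (h : ∀ (x : Fin 2 → ℂ) i, eval ![1, x 0, x 1] (F i) = eval x (P i)) (z w : V3)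
    (hzw : hf z w = 0) : hf (fun i => eval z (F i)) (fun i => eval w (F i)) = 0 := by
  -- homogeneity
  have hn : ∀ z : V3, z 0 ≠ 0 → ∀ i, eval z (F i) =
      z 0 ^ 6 * eval (fun j : Fin 2 => z j.succ / z 0) (P i) := by
    intro z hz i
    rw [← h, ← bB3_eval (hF i)]
    congr 2
    ext j
    fin_cases j
    · simp
    · simp
      field_simp
    · simp
      field_simp
  have c1 : ∀ z w : V3, hf z w = 0 → z 0 ≠ 0 → w 0 ≠ 0 →
      hf (fun i => eval z (F i)) (fun i => eval w (F i)) = 0 := by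
    intro z w hzw hz hw
    have h1 : Pool.Agent.Lib_helper49.Dang.ip (fun j : Fin 2 => z j.succ / z 0)
        (fun j : Fin 2 => w j.succ / w 0) = 1 := by
      have hw' : (starRingEnd ℂ) (w 0) ≠ 0 := by simpa using hw
      unfold hf at hzw
      unfold Pool.Agent.Lib_helper49.Dang.ip
      simp only [Fin.sum_univ_two, map_div₀] at hzw ⊢
      field_simp
      linear_combination hzw
    have h2 := Pool.Agent.Lib_helper49.Dang.da07_pol hP _ _ h1
    have h3 : hf (fun i => eval z (F i)) (fun i => eval w (F i)) = z 0 ^ 6 * (starRingEnd ℂ) (w 0) ^ 6 *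
        Pool.Agent.Lib_helper49.Dang.hf
          (fun i => eval (fun j : Fin 2 => z j.succ / z 0) (P i))
          (fun i => eval (fun j : Fin 2 => w j.succ / w 0) (P i)) := by
      unfold hf Pool.Agent.Lib_helper49.Dang.hf
      simp only [hn z hz, hn w hw, map_mul, map_pow, mul_sub, Finset.mul_sum]
      congr 1
      · refine Finset.sum_congr rfl fun i _ => by ring
      · ring
    rw [h3, h2, mul_zero]
  have c2a : ∀ z w : V3, hf z w = 0 → z 0 ≠ 0 → (z 1 ≠ 0 ∨ z 2 ≠ 0) →
      hf (fun i => eval z (F i)) (fun i => eval w (F i)) = 0 := by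
    intro z w hzw hz hz'
    obtain ⟨v, hv, hv0⟩ : ∃ v : V3, hf z v = 0 ∧ v 0 = 1 := by
      rcases hz' with h1 | h1
      · refine ⟨![1, (starRingEnd ℂ) (z 0 / z 1), 0], ?_, rfl⟩
        unfold hf
        simp [Fin.sum_univ_two]
        field_simp
        simp
      · refine ⟨![1, 0, (starRingEnd ℂ) (z 0 / z 2)], ?_, rfl⟩
        unfold hf
        simp [Fin.sum_univ_two]
        field_simp
        simp
    by_cases hw : w 0 = 0
    · refine bB3_ext F z w v fun t ht => c1 z _ (bB3_add z w v t hzw hv) hz ?_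
      simp [hw, hv0, ht]
    · exact c1 z w hzw hz hw
  have c2 : ∀ z w : V3, hf z w = 0 → z 0 ≠ 0 →
      hf (fun i => eval z (F i)) (fun i => eval w (F i)) = 0 := by
    intro z w hzw hz
    by_cases h1 : z 1 = 0 ∧ z 2 = 0
    · by_cases hw : w = 0
      · subst hw
        have : ∀ i, eval (0 : V3) (F i) = 0 := by
          intro i
          have := bB3_eval (hF i) 0 0
          simpa using this
        simp only [hf, this]
        simp
      · have hw0 : w 0 = 0 := by
          unfold hf at hzw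
          simpa [Fin.sum_univ_two, h1.1, h1.2, hz] using hzw
        have hw1 : w 1 ≠ 0 ∨ w 2 ≠ 0 := by
          by_contra hcon
          push Not at hcon
          apply hw
          ext j
          fin_cases j
          · exact hw0
          · exact hcon.1
          · exact hcon.2
        rw [bB3_symm, map_eq_zero]
        refine bB3_ext F w z ![0, -(starRingEnd ℂ) (w 2), (starRingEnd ℂ) (w 1)] fun t ht => ?_
        have h2 : hf w (z + (t : ℂ) • ![0, -(starRingEnd ℂ) (w 2), (starRingEnd ℂ) (w 1)]) = 0 := by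
          refine bB3_add w z _ t (by rw [bB3_symm, hzw, map_zero]) ?_
          unfold hf
          simp [Fin.sum_univ_two]
          ring
        rw [bB3_symm, map_eq_zero]
        refine c2a _ _ (by rw [bB3_symm, h2, map_zero]) (by simpa using hz) ?_
        rcases hw1 with h3 | h3
        · right
          simp [h1.2, h3, ht]
        · left
          simp [h1.1, h3, ht]
    · exact c2a z w hzw hz (by
        by_contra hcon
        push Not at hcon
        exact h1 hcon)
  by_cases hz : z 0 = 0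
  · by_cases hw : w 0 = 0
    · refine bB3_ext F z w ![1, 0, 0] fun t ht => ?_
      have h2 : hf z (w + (t : ℂ) • ![1, 0, 0]) = 0 := by
        refine bB3_add z w _ t hzw ?_
        unfold hf
        simp [Fin.sum_univ_two, hz]
      rw [bB3_symm, map_eq_zero]
      exact c2 _ _ (by rw [bB3_symm, h2, map_zero]) (by simp [hw, ht])
    · rw [bB3_symm, map_eq_zero]
      exact c2 _ _ (by rw [bB3_symm, hzw, map_zero]) hw
  · exact c2 z w hzw hz

end Pool.Agent.Lib_helper86.D24

end

section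

namespace Pool.Agent.Lib_helper86.D24

open MvPolynomial Matrix


/-- some minor is not zero -/
theorem B4_minor {L e : ℕ} (a : Fin e → Fin L → ℂ) (ha : LinearIndependent ℂ a) :
    ∃ J : Fin e → Fin L, (Matrix.of fun i j => a i (J j)).det ≠ 0 := by
  classical
  set A : Matrix (Fin e) (Fin L) ℂ := Matrix.of a with hA
  have hr : A.rank = e := by
    have h1 : LinearIndependent ℂ A.row := ha
    have h2 := h1.rank_matrix
    simpa using h2
  have h3 := Matrix.rank_eq_finrank_span_cols A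
  rw [hr] at h3
  obtain ⟨f, hf, -, hli⟩ := Submodule.exists_fun_fin_finrank_span_eq ℂ (Set.range A.col)
  choose J hJ using hf
  refine ⟨fun j => J (Fin.cast h3 j), ?_⟩
  set B : Matrix (Fin e) (Fin e) ℂ := Matrix.of fun i j => a i (J (Fin.cast h3 j)) with hB
  have hcol : B.col = f ∘ Fin.cast h3 := by
    funext j
    rw [Function.comp_apply, ← hJ]
    rfl
  have hli2 : LinearIndependent ℂ B.col := by
    rw [hcol]
    exact hli.comp _ (Fin.cast_injective h3)
  have hu := Matrix.linearIndependent_cols_iff_isUnit.1 hli2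
  exact ((Matrix.isUnit_iff_isUnit_det B).1 hu).ne_zero

/-- restriction to the line `z + t v` -/
noncomputable def B4_L {σ : Type} (z v : σ → ℂ) : MvPolynomial σ ℂ →ₐ[ℂ] Polynomial ℂ :=
  aeval fun j => Polynomial.C (z j) + Polynomial.C (v j) * Polynomial.X

theorem B4_L_eval {σ : Type} (z v : σ → ℂ) (f : MvPolynomial σ ℂ) (t : ℂ) :
    Polynomial.eval t (B4_L z v f) = eval (fun j => z j + v j * t) f := by
  induction f using MvPolynomial.induction_on with
  | C a => simp [B4_L, Polynomial.algebraMap_eq]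
  | add p q hp hq => rw [map_add, Polynomial.eval_add, hp, hq, map_add]
  | mul_X p i hp =>
    rw [map_mul, Polynomial.eval_mul, hp, map_mul, eval_X]
    congr 1
    simp [B4_L]

theorem B4_L_deriv (z v : V3) (f : P3) :
    Polynomial.derivative (B4_L z v f) = B4_L z v (dv v f) := by
  induction f using MvPolynomial.induction_on with
  | C a =>
    have h1 : dv v (C a : P3) = 0 := by
      have := (dv v).map_algebraMap a
      exact this
    rw [h1, map_zero]
    simp [B4_L, Polynomial.algebraMap_eq]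
  | add p q hp hq => rw [map_add, Polynomial.derivative_add, hp, hq, map_add, map_add]
  | mul_X p i hp =>
    rw [map_mul, Polynomial.derivative_mul, hp, Derivation.leibniz, map_add, smul_eq_mul,
      smul_eq_mul, map_mul, map_mul]
    have h1 : dv v (X i : P3) = C (v i) := by
      unfold dv
      rw [Fin.sum_univ_three]
      simp only [Derivation.add_apply, Derivation.smul_apply, pderiv_X]
      fin_cases i <;> simp
    have h2 : Polynomial.derivative (B4_L z v (X i : P3)) = B4_L z v (C (v i) : P3) := by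
      simp [B4_L, Polynomial.algebraMap_eq]
    rw [h1, h2]
    ring

theorem B4_L_iter (z v : V3) (f : P3) (k : ℕ) :
    Polynomial.derivative^[k] (B4_L z v f) = B4_L z v ((dv v)^[k] f) := by
  induction k generalizing f with
  | zero => rfl
  | succ k ih =>
    rw [Function.iterate_succ_apply, Function.iterate_succ_apply, B4_L_deriv, ih]

theorem B4_ej (F : Fin 5 → P3) (z v : V3) (k : ℕ) (i : Fin 5) :
    ej F v k z i = (k.factorial : ℂ) * (B4_L z v (F i)).coeff k := by
  unfold ej
  have h1 := B4_L_iter z v (F i) k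
  have h2 := congrArg (Polynomial.eval 0) h1
  rw [B4_L_eval] at h2
  have h3 : (fun j => z j + v j * 0) = z := by funext j; ring
  rw [h3] at h2
  rw [← h2, ← Polynomial.coeff_zero_eq_eval_zero, Polynomial.coeff_iterate_derivative]
  simp [Nat.descFactorial_self]

theorem B4_tay (a x : Fin 2 → ℂ) (f : MvPolynomial (Fin 2) ℂ) :
    (Pool.Agent.Lib_helper49.Dang.tay f).map (eval (Sum.elim a x)) = B4_L a x f := by
  induction f using MvPolynomial.induction_on with
  | C b =>
    have h1 : Pool.Agent.Lib_helper49.Dang.tay (C b : MvPolynomial (Fin 2) ℂ) =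
        Polynomial.C (C b) := by
      unfold Pool.Agent.Lib_helper49.Dang.tay
      rw [aeval_C]
      rfl
    rw [h1]
    simp [B4_L, Polynomial.algebraMap_eq]
  | add p q hp hq => rw [map_add, Polynomial.map_add, hp, hq, map_add]
  | mul_X p i hp =>
    rw [map_mul, Polynomial.map_mul, hp, map_mul]
    congr 1
    simp [B4_L, Pool.Agent.Lib_helper49.Dang.tay]

theorem B4_Fv (P : Fin 5 → MvPolynomial (Fin 2) ℂ) (a x : Fin 2 → ℂ) (r : ℕ) (i : Fin 5) :
    Pool.Agent.Lib_helper49.Dang.Fv P a x r i = (B4_L a x (P i)).coeff r := by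
  rw [← B4_tay, Polynomial.coeff_map]
  rfl

/-- B4 -/
theorem full_of {P : Fin 5 → MvPolynomial (Fin 2) ℂ} {F : Fin 5 → P3}
    (hF : ∀ i, (F i).IsHomogeneous 6)
    (h : ∀ (x : Fin 2 → ℂ) i, eval ![1, x 0, x 1] (F i) = eval x (P i)) (a x : Fin 2 → ℂ)
    (hli : LinearIndependent ℂ
      (fun r : Fin 4 => Pool.Agent.Lib_helper49.Dang.Fv P a x (r : ℕ))) :
    ∃ (z v : V3) (s : Fin 4 → Fin 5), mn (fun k : Fin 4 => ej F v (k : ℕ) z) s ≠ 0 := by
  have _ := hF
  obtain ⟨s, hs⟩ := B4_minor _ hli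
  refine ⟨![1, a 0, a 1], ![0, x 0, x 1], s, ?_⟩
  have hL : ∀ i, B4_L ![1, a 0, a 1] ![0, x 0, x 1] (F i) = B4_L a x (P i) := by
    intro i
    apply Polynomial.funext
    intro t
    rw [B4_L_eval, B4_L_eval, ← h]
    congr 2
    funext j
    fin_cases j <;> simp
  have h1 : ∀ (k : ℕ) i, ej F ![0, x 0, x 1] k ![1, a 0, a 1] i =
      (k.factorial : ℂ) * Pool.Agent.Lib_helper49.Dang.Fv P a x k i := by
    intro k i
    rw [B4_ej, B4_Fv, hL]
  unfold mn
  have h2 : (fun a' b : Fin 4 => ej F ![0, x 0, x 1] (a' : ℕ) ![1, a 0, a 1] (s b)) =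
      Matrix.of fun i j : Fin 4 => (((i : ℕ).factorial : ℂ)) *
        (Matrix.of fun i j => Pool.Agent.Lib_helper49.Dang.Fv P a x ((i : Fin 4) : ℕ) (s j)) i j := by
    funext i j
    rw [h1]
    rfl
  change Matrix.det (fun a' b : Fin 4 => ej F ![0, x 0, x 1] (a' : ℕ) ![1, a 0, a 1] (s b)) ≠ 0
  rw [h2, Matrix.det_mul_column]
  refine mul_ne_zero ?_ hs
  rw [Finset.prod_ne_zero_iff]
  intro i _
  exact_mod_cast Nat.factorial_ne_zero _

end Pool.Agent.Lib_helper86.D24

end

section

namespace Pool.Agent.Lib_helper86.D24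

open MvPolynomial Matrix


/-- the map of degree 5 -/
noncomputable def B5_f (z : Fin 2 → ℂ) : Fin 4 → ℂ :=
  ![z 0 ^ 5, (Real.sqrt 5 : ℂ) * (z 0 ^ 3 * z 1), (Real.sqrt 5 : ℂ) * (z 0 * z 1 ^ 2), z 1 ^ 5]

/-- the polynomials -/
noncomputable def B5_p : Fin 4 → MvPolynomial (Fin 2) ℂ :=
  ![X 0 ^ 5, C (Real.sqrt 5 : ℂ) * (X 0 ^ 3 * X 1), C (Real.sqrt 5 : ℂ) * (X 0 * X 1 ^ 2), X 1 ^ 5]

theorem B5_eval (z : Fin 2 → ℂ) (i : Fin 4) : eval z (B5_p i) = B5_f z i := by
  fin_cases i <;> simp [B5_p, B5_f]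

theorem B5_contDiff : ContDiff ℂ (⊤ : ℕ∞) B5_f := by
  rw [contDiff_pi]
  intro i
  unfold B5_f
  fin_cases i
  · change ContDiff ℂ (⊤ : ℕ∞) fun z : Fin 2 → ℂ => z 0 ^ 5
    fun_prop
  · change ContDiff ℂ (⊤ : ℕ∞) fun z : Fin 2 → ℂ => (Real.sqrt 5 : ℂ) * (z 0 ^ 3 * z 1)
    fun_prop
  · change ContDiff ℂ (⊤ : ℕ∞) fun z : Fin 2 → ℂ => (Real.sqrt 5 : ℂ) * (z 0 * z 1 ^ 2)
    fun_prop
  · change ContDiff ℂ (⊤ : ℕ∞) fun z : Fin 2 → ℂ => z 1 ^ 5
    fun_prop

theorem B5_maps (z : Fin 2 → ℂ) (hz : Pool.Agent.Lib_helper49.Dang.OnSphere z) :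
    Pool.Agent.Lib_helper49.Dang.OnSphere (B5_f z) := by
  unfold Pool.Agent.Lib_helper49.Dang.OnSphere at hz ⊢
  rw [Fin.sum_univ_two] at hz
  rw [Fin.sum_univ_four]
  have h5 : ‖(Real.sqrt 5 : ℂ)‖ ^ 2 = 5 := by
    rw [Complex.norm_real, Real.norm_eq_abs, sq_abs, Real.sq_sqrt (by norm_num)]
  have h0 : ‖B5_f z 0‖ ^ 2 = (‖z 0‖ ^ 2) ^ 5 := by
    change ‖z 0 ^ 5‖ ^ 2 = _
    rw [norm_pow]; ring
  have h1 : ‖B5_f z 1‖ ^ 2 = 5 * ((‖z 0‖ ^ 2) ^ 3 * ‖z 1‖ ^ 2) := by
    change ‖(Real.sqrt 5 : ℂ) * (z 0 ^ 3 * z 1)‖ ^ 2 = _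
    rw [norm_mul, norm_mul, norm_pow, mul_pow, h5]; ring
  have h2 : ‖B5_f z 2‖ ^ 2 = 5 * (‖z 0‖ ^ 2 * (‖z 1‖ ^ 2) ^ 2) := by
    change ‖(Real.sqrt 5 : ℂ) * (z 0 * z 1 ^ 2)‖ ^ 2 = _
    rw [norm_mul, norm_mul, norm_pow, mul_pow, h5]; ring
  have h3 : ‖B5_f z 3‖ ^ 2 = (‖z 1‖ ^ 2) ^ 5 := by
    change ‖z 1 ^ 5‖ ^ 2 = _
    rw [norm_pow]; ring
  rw [h0, h1, h2, h3]
  have h4 : ‖z 1‖ ^ 2 = 1 - ‖z 0‖ ^ 2 := by linarith
  rw [h4]
  ring

theorem B5_degree : Finset.univ.sup (fun i => (B5_p i).totalDegree) = 5 := by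
  apply le_antisymm
  · refine Finset.sup_le fun i _ => ?_
    fin_cases i
    · change (X 0 ^ 5 : MvPolynomial (Fin 2) ℂ).totalDegree ≤ 5
      rw [totalDegree_X_pow]
    · change (C (Real.sqrt 5 : ℂ) * (X 0 ^ 3 * X 1) : MvPolynomial (Fin 2) ℂ).totalDegree ≤ 5
      refine (totalDegree_mul _ _).trans ?_
      have h := totalDegree_mul (X 0 ^ 3 : MvPolynomial (Fin 2) ℂ) (X 1)
      rw [totalDegree_X_pow, totalDegree_X] at h
      rw [totalDegree_C]
      omega
    · change (C (Real.sqrt 5 : ℂ) * (X 0 * X 1 ^ 2) : MvPolynomial (Fin 2) ℂ).totalDegree ≤ 5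
      refine (totalDegree_mul _ _).trans ?_
      have h := totalDegree_mul (X 0 : MvPolynomial (Fin 2) ℂ) (X 1 ^ 2)
      rw [totalDegree_X_pow, totalDegree_X] at h
      rw [totalDegree_C]
      omega
    · change (X 1 ^ 5 : MvPolynomial (Fin 2) ℂ).totalDegree ≤ 5
      rw [totalDegree_X_pow]
  · have h1 : (B5_p 0).totalDegree = 5 := by
      change (X 0 ^ 5 : MvPolynomial (Fin 2) ℂ).totalDegree = 5
      rw [totalDegree_X_pow]
    calc 5 = (B5_p 0).totalDegree := h1.symm
      _ ≤ _ := Finset.le_sup (f := fun i => (B5_p i).totalDegree) (Finset.mem_univ _)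

/-- B5 -/
theorem five_mem : 5 ∈ Pool.Agent.Lib_helper49.Dang.degrees 2 4 := by
  refine ⟨B5_f, ⟨B5_contDiff.restrict_scalars ℝ, B5_maps, ?_⟩, ?_⟩
  · intro z _ v _
    have h1 : DifferentiableAt ℂ B5_f z := (B5_contDiff.differentiable (by simp)) z
    rw [h1.fderiv_restrictScalars ℝ]
    show fderiv ℂ B5_f z (Complex.I • v) = _
    rw [map_smul]
    rfl
  · refine ⟨B5_p, 1, one_ne_zero, fun r hr _ => isUnit_of_dvd_one hr, ?_, ?_⟩
    · intro z _ i
      rw [map_one, one_mul, B5_eval]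
    · rw [B5_degree]
      simp

end Pool.Agent.Lib_helper86.D24

end

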