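import Pool.Agent.Lib_helper86.D24.L1
import Pool.Agent.Lib_helper86.D24.L2
import Pool.Agent.Lib_helper86.D24.L3
import Pool.Agent.Lib_helper86.D24.L4
import Pool.Agent.Lib_helper86.D24.L5
import Pool.Agent.Lib_helper86.D24.L6
import Pool.Agent.Lib_helper86.D24.L7
import Pool.Agent.Lib_helper86.D24.L8
import Pool.Agent.Lib_helper49.Mac.AsmA
/-!
# `D(2,4) = 5`: assembly
-/

namespace Pool.Agent.Lib_helper86.D24

open MvPolynomial Matrix


/-- IA: assembly A1 -/
theorem common_factor {F G : Fin 5 → P3} (h : Pair F G) :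
    ∃ γ : P3, Irreducible γ ∧ (∃ e, γ.IsHomogeneous e) ∧ ∀ v s, γ ∣ Yf F v s := by
  by_cases hY : Prim (fun p : V3 × (Fin 3 → Fin 5) => Yf F p.1 p.2)
  · exfalso
    obtain ⟨a, b, c, hc⟩ := gen_config h hY
    obtain ⟨g, hg, hg1, hg2, hg3⟩ := cfg_g h.homG h.primG hc
    obtain ⟨f, hf, f1, f2, f3, f4, f5, f6, f7, f8, f9⟩ := cfg_f h.homF hc
    refine count_false (g := g) (f := f) ⟨fun k => ?_, hg1, hg2, hg3, f1, f2, f3, f4, f5, f6, f7,
      f8, f9⟩
    apply MvPolynomial.funext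
    intro x
    obtain ⟨x0, x1, rfl⟩ : ∃ x0 x1, x = ![x0, x1] := ⟨x 0, x 1, by
      ext i; fin_cases i <;> rfl⟩
    rw [map_sum, map_zero]
    have := orth_ej h.orth (a + x0 • b) (x1 • b - c) ((a + x0 • b) ⨯₃ (x1 • b - c))
      (dot_self_cross _ _) (dot_cross_self _ _) (k : ℕ)
    rw [← this]
    refine Finset.sum_congr rfl fun i _ => ?_
    rw [map_mul, hg, hf, mul_comm]
  · rw [Prim] at hY
    push Not at hY
    obtain ⟨r, hr, hu⟩ := hY
    obtain ⟨v, s, hvs⟩ := exists_Yf_ne h.full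
    have hr0 : r ≠ 0 := fun h0 => hvs (by simpa [h0] using hr (v, s))
    obtain ⟨γ, hγ, hγr⟩ := WfDvdMonoid.exists_irreducible_factor hu hr0
    exact ⟨γ, hγ, hom_of_dvd (Yf_hom h.homF v s) hvs (hγr.trans (hr (v, s))),
      fun v s => hγr.trans (hr (v, s))⟩

/-- LX: linear algebra -/
theorem exists_two (u : Fin 3 → E5) : ∃ p q : E5, LinearIndependent ℂ ![p, q] ∧
    (∀ j, ∑ i, p i * u j i = 0) ∧ (∀ j, ∑ i, q i * u j i = 0) := by
  let φ : E5 →ₗ[ℂ] (Fin 3 → ℂ) := LinearMap.pi fun j => ∑ i, u j i • LinearMap.proj i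
  have hφ : ∀ x j, φ x j = ∑ i, x i * u j i := by
    intro x j
    simp [φ, mul_comm]
  have h1 := φ.finrank_range_add_finrank_ker
  have h2 : Module.finrank ℂ (LinearMap.range φ) ≤ 3 :=
    (Submodule.finrank_le _).trans (by simp)
  have h3 : 2 ≤ Module.finrank ℂ (LinearMap.ker φ) := by
    simp at h1
    omega
  obtain ⟨v, hv⟩ := exists_linearIndependent_of_le_finrank h3
  refine ⟨v 0, v 1, ?_, fun j => ?_, fun j => ?_⟩
  · have h4 := hv.map' (LinearMap.ker φ).subtype (Submodule.ker_subtype _)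
    have h5 : ((LinearMap.ker φ).subtype ∘ v) = ![(v 0 : E5), v 1] := by
      ext i j
      fin_cases i <;> rfl
    rw [h5] at h4
    exact h4
  · rw [← hφ, (v 0).2]; rfl
  · rw [← hφ, (v 1).2]; rfl

/-- IB: assembly A2 -/
theorem special_line {F G : Fin 5 → P3} (h : Pair F G) : ∃ l : V3, l ≠ 0 ∧
    (∃ p q : E5, LinearIndependent ℂ ![p, q] ∧ lin l ^ 3 ∣ ∑ i, C (p i) * F i ∧
      lin l ^ 3 ∣ ∑ i, C (q i) * F i) ∧
    ∀ (z v : V3) (s : Fin 3 → Fin 5), l ⬝ᵥ z = 0 →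
      mn (fun k : Fin 3 => ej F v (k : ℕ) z) s = 0 := by
  obtain ⟨γ, hγ, ⟨e, he⟩, hγY⟩ := common_factor h
  have hpr := hγ.prime
  have hgu : ¬ IsUnit γ := hγ.not_isUnit
  rcases alt h.homF γ hγ hγY with h1 | h2
  · exfalso
    obtain ⟨j0, hj0⟩ : ∃ j, ¬ γ ∣ F j := by
      by_contra hc
      push Not at hc
      exact hgu (h.primF γ hc)
    obtain ⟨z, hz0, hzγ, hz⟩ := satB γ hγ ⟨e, he⟩ (fun _ : Fin 1 => F) (fun _ k =>
      ⟨F j0, fun _ => pderiv k (F j0), hj0, fun i => by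
        simp only [Finset.univ_unique, Finset.sum_const, Finset.card_singleton, one_smul]
        have := h1 j0 i k
        rwa [mul_comm (F i)] at this⟩)
    refine case1_false h γ hγ ⟨e, he⟩ (fun i => eval z (F i)) fun l hl => ?_
    exact hz l (fun _ => hl) F ⟨6, h.homF⟩ ⟨1, fun _ => 1, fun h1 => hgu (isUnit_of_dvd_one h1),
      fun i => by simp⟩
  · obtain ⟨z, hz0, hzγ, hz⟩ := satB γ hγ ⟨e, he⟩ (fun (l : Fin 3) i => pderiv l (F i)) (fun j k =>
      h2 k j)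
    obtain ⟨p, q, hpq, hp, hq⟩ := exists_two (fun j i => eval z (pderiv j (F i)))
    have key : ∀ l : E5, (∀ j, ∑ i, l i * eval z (pderiv j (F i)) = 0) →
        γ ^ 3 ∣ ∑ i, C (l i) * F i := by
      intro l hl
      refine cube γ _ hγ ?_ ?_ ?_
      · refine hz l hl F ⟨6, h.homF⟩ ⟨C 6, fun j => X j, fun hd => hgu ?_, fun i => ?_⟩
        · exact isUnit_of_dvd_unit hd (by
            rw [MvPolynomial.isUnit_iff_eq_C_of_isReduced]
            exact ⟨6, by norm_num, rfl⟩)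
        · have := (h.homF i).sum_X_mul_pderiv
          rw [this]
          have h6 : (C 6 : P3) = 6 := map_ofNat C 6
          rw [h6]
          simp
      · intro j
        have := hz l hl (fun i => pderiv j (F i)) ⟨5, fun i => (h.homF i).pderiv⟩
          ⟨1, fun k => if k = j then 1 else 0, fun h1 => hgu (isUnit_of_dvd_one h1),
            fun i => by simp⟩
        simpa [map_sum, Derivation.leibniz] using this
      · intro j k
        have := hz l hl (fun i => pderiv j (pderiv k (F i))) ⟨4, fun i => ((h.homF i).pderiv).pderiv⟩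
          (h2 j k)
        simpa [map_sum, Derivation.leibniz] using this
    have hne : ∀ l : E5, l ≠ 0 → ∑ i, C (l i) * F i ≠ 0 := by
      intro l hl h0
      apply hl
      have := Fintype.linearIndependent_iff.1 h.indF l (by
        simpa [MvPolynomial.smul_eq_C_mul] using h0)
      exact funext this
    have hhom : ∀ l : E5, (∑ i, C (l i) * F i).IsHomogeneous 6 := fun l =>
      IsHomogeneous.sum _ _ _ fun i _ => by
        simpa using (isHomogeneous_C _ (l i)).mul (h.homF i)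
    have h1 : e = 1 := by
      refine deg_one hγ he (hhom p) (hhom q) (fun s t hst => ?_) (key p hp) (key q hq)
      have h3 : s • p + t • q = 0 := by
        by_contra hne0
        apply hne _ hne0
        rw [← hst]
        simp only [Finset.mul_sum, ← Finset.sum_add_distrib]
        refine Finset.sum_congr rfl fun i _ => ?_
        simp only [Pi.add_apply, Pi.smul_apply, smul_eq_mul, C_add, C_mul]
        ring
      have h4 := LinearIndependent.pair_iff.1 hpq s t h3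
      exact h4
    subst h1
    obtain ⟨l, rfl⟩ := eq_lin he
    refine ⟨l, ?_, ⟨p, q, hpq, key p hp, key q hq⟩, fun z v s hlz => ?_⟩
    · rintro rfl
      exact hγ.ne_zero (by simp [lin])
    · rw [← eval_Yf]
      obtain ⟨r, hr⟩ := hγY v s
      rw [hr, map_mul]
      have : eval z (lin l) = 0 := by
        rw [← hlz]
        simp [lin, dotProduct]
      rw [this, zero_mul]

/-- IC: assembly B1 (uses F1, F2, F3, F4, F5, RH, R0) -/
theorem exists_SF {A : Fin 2 → P3} {b : P3} {c : Fin 2 → P3} {At : Fin 2 → P3} {bt : P3}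
    {ct : Fin 2 → P3} (h : NP A b c At bt ct) :
    (∀ z w : V3, z ⬝ᵥ w = 0 → ∑ i, eval z (c i) * eval w (ct i) = 0) ∨
    ∃ (n : ℕ) (g : Fin 2 → Polynomial ℂ) (ρ : Polynomial ℂ) (κ : ℂ) (m mt : P3)
      (Γ : Matrix (Fin (n + 1)) (Fin (n + 1)) ℂ), SF n m mt c ct g ρ κ Γ ∧
      (∀ i, A i = m * hg (n + 3) (g i)) ∧ At 0 = -(mt * hgt (n + 3) (g 1)) ∧
      At 1 = mt * hgt (n + 3) (g 0) ∧ b = m * hg (n + 2) ρ ∧ bt = C κ * mt * hgt (n + 2) ρ := by
  obtain ⟨r, g, m, mt, hF⟩ := exists_FA h.homA h.homAt (fun z w hzw h0 => by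
    have := h.orth z w hzw
    rw [h0] at this
    simpa using this) h.indA h.indAt
  have hm0 : r0 m ≠ 0 := fun h0 => hF.nm ((r0_eq_zero hF.homm).1 h0)
  have hb0 : r0 b ≠ 0 := fun h0 => h.nb ((r0_eq_zero h.homb).1 h0)
  obtain ⟨ρ, κ, hκ, hρ, hdρ, hbρ, hwr⟩ := exists_rho (f0 := r0 (A 0)) (f1 := r0 (A 1))
    (β := r0 m) (g0 := g 0) (g1 := g 1) (b := r0 b) (r := r)
    (by rw [hF.hA, map_mul, r0_hg (hF.deg 0)]) (by rw [hF.hA, map_mul, r0_hg (hF.deg 1)]) hm0
    hF.cop (hF.deg 0) (hF.deg 1) (by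
      obtain ⟨i, hi⟩ := hF.top
      fin_cases i
      · exact Or.inl hi
      · exact Or.inr hi) hF.r1 hb0 h.wr
  have hP : Pen r g ρ κ := ⟨hF.deg, hF.top, hF.cop, hdρ, hκ, hρ, hwr⟩
  obtain ⟨hb, hbt⟩ := b_eq h hF hP hbρ
  rcases exists_gamma hP with ⟨hr, h0⟩ | ⟨n, rfl, Γ, hΓ⟩
  · left
    intro z w hzw
    have := I3_of h hF hP hb hbt (fun _ _ _ _ => 0) ⟨0, fun _ _ _ _ => by simp⟩
      (fun x1 x2 y1 y2 => by rw [h0]; simp) z w hzw
    simpa using this
  · right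
    have h3 : n ≤ 3 := by have := hF.r6; omega
    refine ⟨n, g, ρ, κ, m, mt, Γ, ⟨h3, hP, ?_, ?_, hF.nm, hF.nmt, h.homc, h.homct, h.indc,
      h.indct, fun r hr1 hr2 => ?_, fun r hr1 hr2 => ?_, hΓ, fun z w hzw => ?_⟩, hF.hA, hF.hAt0,
      hF.hAt1, hb, hbt⟩
    · have := hF.homm
      rwa [show 6 - (n + 3) = 3 - n by omega] at this
    · have := hF.hommt
      rwa [show 6 - (n + 3) = 3 - n by omega] at this
    · refine h.prim r (fun i => ?_) ?_ fun i => Dvd.dvd.mul_left (hr2 i) _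
      · rw [hF.hA]; exact hr1.mul_right _
      · rw [hb]; exact (hr1.mul_right _).mul_left _
    · refine h.primt r (fun i => ?_) ?_ fun i => Dvd.dvd.mul_left (hr2 i) _
      · fin_cases i
        · show r ∣ At 0
          rw [hF.hAt0]; exact (hr1.mul_right _).neg_right
        · show r ∣ At 1
          rw [hF.hAt1]; exact hr1.mul_right _
      · rw [hbt]; exact ((hr1.mul_left _).mul_right _).mul_left _
    · refine I3_of h hF hP hb hbt (bh Γ) ?_ hΓ z w hzw
      refine ⟨∑ i : Fin (n + 1), ∑ j : Fin (n + 1), C (Γ i j) * (X 0 ^ (n - (i : ℕ)) *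
        X 1 ^ (i : ℕ)) * (X 2 ^ (n - (j : ℕ)) * X 3 ^ (j : ℕ)), fun x1 x2 y1 y2 => ?_⟩
      simp [bh]

/-- ID: assembly B2 -/
theorem nonnull_false {ε : ℝ} (hε : ε = 1 ∨ ε = -1) {F : Fin 5 → P3} (h : Spec (qd ε) 0 F) :
    False := by
  obtain ⟨M, N, s, A, b, c, hN⟩ := exists_NN hε h
  have hP := exists_NP hN
  rcases exists_SF hP with h0 | ⟨n, g, ρ, κ, m, mt, Γ, hS, hA, hA0, hA1, hb, hbt⟩
  · exact D0 _ _ hP.indc ⟨0, hP.indct.ne_zero 0⟩ h0
  · have he := parity hN hS hA hA0 hA1 hb hbt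
    obtain ⟨k, rfl⟩ := he
    have hk : k = 0 ∨ k = 1 := by have := hS.hn; omega
    rcases hk with rfl | rfl
    · exact D1 hS
    · obtain ⟨l, P, k1, k2, p1, p2, a, b', hC⟩ := exists_Cy hS
      obtain rfl := cy_k1 hC
      obtain ⟨Γ', hC'⟩ := cy_swap hC
      obtain rfl := cy_k1 hC'
      have h1 := cy_P0 hC
      have h2 := cy_P0 hC'
      have h3 := cy_lP hC
      obtain ⟨C0, hC0, hf⟩ := cy_form hC h1 h2 h3
      refine form_false hS l P ?_ C0 hC0 hf
      intro h4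
      apply h3
      simp [dotProduct, Fin.sum_univ_three, h1, h2, h4]

/-- IE: assembly C1 -/
theorem null_false {F : Fin 5 → P3} (h : Spec qn 2 F) : False := by
  obtain ⟨Fe, Fa, Fo, F', hD⟩ := exists_ND h
  obtain ⟨r, ge, ga, β, Mt, hN⟩ := exists_NF hD
  rcases hD.alt with h3 | h3
  · obtain ⟨b, hb⟩ := hD.dFo
    obtain ⟨ρ, χp, κ, hκ, hρ, hbρ, hwr, hc⟩ := null_first_i hD hN b hb h3
    obtain ⟨h1, χ, h2⟩ := top_lemma hN.homM (tln_hom hD.home) hN.nM hN.β0 hρ hκ hc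
    have h6 := hN.r6
    have h11 := hN.r1
    have hr := rel_i hD hN (κ * ρ.coeff (6 - (6 - r) - 1)) χ (fun y u => by
      rw [h2, show 6 - (6 - r) = r by omega])
    subst hr
    exact null_r1_false hD hN h3
  · obtain ⟨b, hb⟩ := hD.dF1
    obtain ⟨ρ, χp, κ, hκ, hρ, hbρ, hwr, hc⟩ := null_first_ii hD hN b hb h3
    have hbh : b.IsHomogeneous 5 := hom_of_X2_mul (hD.homF 1) hb
    obtain ⟨h1, χ, h2⟩ := top_lemma hN.homM (tln_hom hbh) hN.nM hN.β0 hρ hκ hc
    have h6 := hN.r6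
    have h11 := hN.r1
    have hr : 2 ≤ r := by omega
    obtain ⟨χ', h4⟩ := rel_ii hD hN b hbh hbρ hr (κ * ρ.coeff (r - 2)) χ (fun y u => by
      rw [h2, show 5 - (6 - r) = r - 1 by omega, show r - 1 - 1 = r - 2 by omega])
    exact case_ii_false hN.dege (dega_ii hD hN h3) hN.ga0 hκ hρ (by omega) h4 hwr

/-- IF: assembly C2 -/
theorem hmap_false {F : Fin 5 → P3} (h : HMap F) : False := by
  obtain ⟨G, hG⟩ := exists_pair h
  obtain ⟨l, hl0, hd, hfl⟩ := special_line hG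
  rcases exists_frame l hl0 with ⟨ε, B, c, hε, hB, hc, hq, hl⟩ | ⟨B, c, hB, hc, hq, hl⟩
  · obtain ⟨F', hF'⟩ := transport h hG.indF l hd hfl (qd ε) 0 B c hB hc hq hl
    exact nonnull_false hε hF'
  · obtain ⟨F', hF'⟩ := transport h hG.indF l hd hfl qn 2 B c hB hc hq hl
    exact null_false hF'

/-- IG -/
theorem six_notMem : 6 ∉ Pool.Agent.Lib_helper49.Dang.degrees 2 4 := by
  rintro ⟨f, hf, hfd⟩
  obtain ⟨P, hP⟩ := Pool.Agent.Lib_helper49.Dang.exists_SMap hf hfd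
  obtain ⟨a, x, hli⟩ := base_indep hP
  obtain ⟨F, hF, hp, h⟩ := homog hP
  exact hmap_false ⟨hF, herm_of hP hF h, hp, full_of hF h a x hli⟩

/-- The greatest degree of a smooth CR map `S³ → S⁷` is `5`. -/
theorem isGreatest_two_four : IsGreatest (Pool.Agent.Lib_helper49.Dang.degrees 2 4) 5 := by
  refine ⟨five_mem, fun d hd => ?_⟩
  have h1 := Pool.Agent.Lib_helper49.Mac.degree_upper (n := 2) (N := 4) le_rfl 2 (by decide) d hd
  have h2 : d ≠ 6 := fun h => six_notMem (h ▸ hd)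
  have h3 : (4 - 1) / (2 - 1) = 3 := rfl
  rw [h3] at h1
  omega

end Pool.Agent.Lib_helper86.D24
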