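import Mathlib

/-!
# `D(2,4) = 5`: definitions
-/

namespace Pool.Agent.Lib_helper86.D24

open MvPolynomial Matrix

abbrev P3 := MvPolynomial (Fin 3) ℂ
abbrev P2 := MvPolynomial (Fin 2) ℂ
abbrev V3 := Fin 3 → ℂ
abbrev E5 := Fin 5 → ℂ

/-- The Hermitian form of signature `(N,1)` on `ℂ^(N+1)`. -/
noncomputable def hf {N : ℕ} (u v : Fin (N + 1) → ℂ) : ℂ :=
  (∑ i : Fin N, u i.succ * (starRingEnd ℂ) (v i.succ)) - u 0 * (starRingEnd ℂ) (v 0)

/-- The signs of the form `hf`. -/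
def sg {N : ℕ} (i : Fin (N + 1)) : ℂ := if i = 0 then -1 else 1

/-- The family `f` has no common factor. -/
def Prim {R ι : Type*} [CommRing R] (f : ι → R) : Prop := ∀ r, (∀ i, r ∣ f i) → IsUnit r

/-- The minor with columns `s` of the vectors `f 0, ..., f (k-1)`. -/
def mn {R : Type*} [CommRing R] {k : ℕ} (f : Fin k → Fin 5 → R) (s : Fin k → Fin 5) : R :=
  Matrix.det (fun a b => f a (s b))

/-- The linear form with coefficients `l`. -/
noncomputable def lin (l : V3) : P3 := ∑ j, C (l j) * X j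

/-- The derivative in the direction of the constant vector `v`. -/
noncomputable def dv (v : V3) : Derivation ℂ P3 P3 := ∑ j, (C (v j) : P3) • pderiv j

/-- The `k`-th derivative of `F` at `z` along `v`. -/
noncomputable def ej (F : Fin 5 → P3) (v : V3) (k : ℕ) (z : V3) : E5 :=
  fun i => eval z ((dv v)^[k] (F i))

/-- The minors of `F, F_v, F_vv`. -/
noncomputable def Yf (F : Fin 5 → P3) (v : V3) (s : Fin 3 → Fin 5) : P3 :=
  mn (fun (k : Fin 3) i => (dv v)^[(k : ℕ)] (F i)) s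

/-! ## Part I: pairs -/

/-- `F(z)·G(w) = 0` for `z·w = 0`. -/
structure Pair (F G : Fin 5 → P3) : Prop where
  homF : ∀ i, (F i).IsHomogeneous 6
  homG : ∀ i, (G i).IsHomogeneous 6
  orth : ∀ z w : V3, z ⬝ᵥ w = 0 → ∑ i, eval z (F i) * eval w (G i) = 0
  primF : Prim F
  primG : Prim G
  indF : LinearIndependent ℂ F
  indG : LinearIndependent ℂ G
  full : ∃ (z v : V3) (s : Fin 4 → Fin 5), mn (fun k : Fin 4 => ej F v (k : ℕ) z) s ≠ 0

/-- The data of the dimension count on a line. `x = X 0`, `ν = X 1`. -/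
structure Cnt (g : Fin 5 → P2) (f : Fin 4 → Fin 5 → P2) : Prop where
  orth : ∀ k, ∑ i, g i * f k i = 0
  g_deg : ∀ i, (g i).totalDegree ≤ 6
  g_top : ∃ i, (g i).degreeOf 1 = 6
  g_prim : Prim g
  f_deg : ∀ k i, (f k i).degreeOf 1 ≤ (k : ℕ)
  f0_deg : ∀ i, (f 0 i).totalDegree ≤ 6
  f0_top : ∃ i, (f 0 i).totalDegree = 6
  X_deg : ∀ s, (mn ![f 0, f 1] s).totalDegree ≤ 11
  X_top : ∃ s, (mn ![f 0, f 1] s).totalDegree = 11
  Y_deg : ∀ s, (mn ![f 0, f 1, f 2] s).totalDegree ≤ 15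
  Y_top : ∃ s, (mn ![f 0, f 1, f 2] s).totalDegree = 15
  W : ∃ s, mn f s ≠ 0
  Y_ne : ∀ x : ℂ, ∃ (s : Fin 3 → Fin 5) (ν : ℂ), eval ![x, ν] (mn ![f 0, f 1, f 2] s) ≠ 0

/-- The choice of the line `⟨a, b⟩` and of the point `c`. -/
structure Config (F G : Fin 5 → P3) (a b c : V3) : Prop where
  det : (a ⨯₃ b) ⬝ᵥ c ≠ 0
  Fb : ∃ i, eval b (F i) ≠ 0
  Gab : ∃ i, eval (a ⨯₃ b) (G i) ≠ 0
  Yl : ∀ x y : ℂ, (x ≠ 0 ∨ y ≠ 0) → ∃ v s, eval (x • a + y • b) (Yf F v s) ≠ 0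
  Wac : ∃ s : Fin 4 → Fin 5, mn (fun k : Fin 4 => ej F (-c) (k : ℕ) a) s ≠ 0

/-- `P` lies in the saturation of the span of the vectors `J` modulo `γ`. -/
def InSat {m : ℕ} (γ : P3) (J : Fin m → Fin 5 → P3) (P : Fin 5 → P3) : Prop :=
  ∃ (δ : P3) (c : Fin m → P3), ¬ γ ∣ δ ∧ ∀ i, γ ∣ δ * P i - ∑ j, c j * J j i

end Pool.Agent.Lib_helper86.D24
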